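import Pool.Agent.H85.MA.Dbar1

/-! # Module DBAR2: integration by parts, Levi form, holomorphy -/

open MeasureTheory Metric Set
open scoped ENNReal Topology ContDiff

namespace HMA

variable {n : ℕ}

theorem dbar2_cont {f : Cn n → ℂ} (hf : ContDiff ℝ ∞ f) (v : Cn n) :
    Continuous (fun z => fderiv ℝ f z v) :=
  (hf.continuous_fderiv (by simp)).clm_apply continuous_const

theorem dbar2_ibp {f g : Cn n → ℂ} (hf : ContDiff ℝ ∞ f) (hg : Tst g) (v : Cn n) :
    ∫ z, f z * fderiv ℝ g z v = - ∫ z, fderiv ℝ f z v * g z := by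
  have hgc : HasCompactSupport (fun z => fderiv ℝ g z v) := by
    have := (hg.supp.fderiv (𝕜 := ℝ)).comp_left (g := fun L : Cn n →L[ℝ] ℂ => L v) (by simp)
    exact this
  apply integral_mul_fderiv_eq_neg_fderiv_mul_of_integrable
  · apply Continuous.integrable_of_hasCompactSupport
    · exact (dbar2_cont hf v).mul hg.smooth.continuous
    · exact hg.supp.mul_left
  · apply Continuous.integrable_of_hasCompactSupport
    · exact hf.continuous.mul (dbar2_cont hg.smooth v)
    · exact hgc.mul_left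
  · apply Continuous.integrable_of_hasCompactSupport
    · exact hf.continuous.mul hg.smooth.continuous
    · exact hg.supp.mul_left
  · intro x _
    exact (hf.differentiable (by simp)) x
  · intro x _
    exact (hg.smooth.differentiable (by simp)) x

theorem dbar2_int1 {f g : Cn n → ℂ} (hf : ContDiff ℝ ∞ f) (hg : Tst g) (v : Cn n) :
    Integrable (fun z => fderiv ℝ f z v * g z) := by
  apply Continuous.integrable_of_hasCompactSupport
  · exact (dbar2_cont hf v).mul hg.smooth.continuous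
  · exact hg.supp.mul_left

theorem dbar2_int2 {f g : Cn n → ℂ} (hf : ContDiff ℝ ∞ f) (hg : Tst g) (v : Cn n) :
    Integrable (fun z => f z * fderiv ℝ g z v) := by
  have hgc : HasCompactSupport (fun z => fderiv ℝ g z v) := by
    have := (hg.supp.fderiv (𝕜 := ℝ)).comp_left (g := fun L : Cn n →L[ℝ] ℂ => L v) (by simp)
    exact this
  apply Continuous.integrable_of_hasCompactSupport
  · exact hf.continuous.mul (dbar2_cont hg.smooth v)
  · exact hgc.mul_left

theorem dbar2_ibp_gen {f g : Cn n → ℂ} (hf : ContDiff ℝ ∞ f) (hg : Tst g) (v w : Cn n) (c : ℂ) :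
    ∫ z, (fderiv ℝ f z v + c * fderiv ℝ f z w) / 2 * g z =
      - ∫ z, f z * ((fderiv ℝ g z v + c * fderiv ℝ g z w) / 2) := by
  have e1 : (fun z => (fderiv ℝ f z v + c * fderiv ℝ f z w) / 2 * g z) =
      fun z => (1 / 2 : ℂ) * (fderiv ℝ f z v * g z) + (c / 2) * (fderiv ℝ f z w * g z) := by
    funext z; ring
  have e2 : (fun z => f z * ((fderiv ℝ g z v + c * fderiv ℝ g z w) / 2)) =
      fun z => (1 / 2 : ℂ) * (f z * fderiv ℝ g z v) + (c / 2) * (f z * fderiv ℝ g z w) := by
    funext z; ring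
  rw [e1, e2, integral_add ((dbar2_int1 hf hg v).const_mul _) ((dbar2_int1 hf hg w).const_mul _),
    integral_add ((dbar2_int2 hf hg v).const_mul _) ((dbar2_int2 hf hg w).const_mul _),
    integral_const_mul, integral_const_mul, integral_const_mul, integral_const_mul,
    dbar2_ibp hf hg v, dbar2_ibp hf hg w]
  ring

/-- integration by parts -/
theorem ibp_db {f g : Cn n → ℂ} (hf : ContDiff ℝ ∞ f) (hg : Tst g) (j : Fin n) :
    ∫ z, db j f z * g z = - ∫ z, f z * db j g z := by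
  have := dbar2_ibp_gen hf hg (bv n j) (Complex.I • bv n j) Complex.I
  simpa only [db] using this

theorem ibp_dd {f g : Cn n → ℂ} (hf : ContDiff ℝ ∞ f) (hg : Tst g) (j : Fin n) :
    ∫ z, dd j f z * g z = - ∫ z, f z * dd j g z := by
  have := dbar2_ibp_gen hf hg (bv n j) (Complex.I • bv n j) (-Complex.I)
  simpa only [dd, neg_mul, ← sub_eq_add_neg] using this

theorem dbar2_fd2 {φ : Cn n → ℝ} (hφ : ContDiff ℝ ∞ φ) (z u v : Cn n) :
    fderiv ℝ (fun w => fderiv ℝ φ w u) z v = fderiv ℝ (fderiv ℝ φ) z v u := by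
  have h1 : DifferentiableAt ℝ (fderiv ℝ φ) z :=
    ((hφ.fderiv_right (m := ∞) (by simp)).differentiable (by simp)) z
  have := (h1.hasFDerivAt.clm_apply (hasFDerivAt_const u z)).fderiv
  rw [this]
  simp

theorem dbar2_symm {φ : Cn n → ℝ} (hφ : ContDiff ℝ ∞ φ) (z u v : Cn n) :
    fderiv ℝ (fderiv ℝ φ) z v u = fderiv ℝ (fderiv ℝ φ) z u v := by
  have h2 : minSmoothness ℝ 2 ≤ (∞ : WithTop ℕ∞) := by
    simp only [minSmoothness_of_isRCLikeNormedField]
    exact (WithTop.coe_le_coe.2 (le_top : (2 : ℕ∞) ≤ ⊤) : ((2 : ℕ∞) : WithTop ℕ∞) ≤ ((⊤ : ℕ∞) : WithTop ℕ∞))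
  have h := (hφ.contDiffAt (x := z)).isSymmSndFDerivAt h2
  exact h v u

theorem dbar2_coe {φ : Cn n → ℝ} (hφ : ContDiff ℝ ∞ φ) (z u : Cn n) :
    fderiv ℝ (fun w => (φ w : ℂ)) z u = ((fderiv ℝ φ z u : ℝ) : ℂ) := by
  have h1 : HasFDerivAt φ (fderiv ℝ φ z) z := ((hφ.differentiable (by simp)) z).hasFDerivAt
  have h2 := (Complex.ofRealCLM.hasFDerivAt (x := φ z)).comp z h1
  have h3 : fderiv ℝ (fun w => (φ w : ℂ)) z = Complex.ofRealCLM.comp (fderiv ℝ φ z) := h2.fderiv
  rw [h3]; simp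

theorem dbar2_dd {φ : Cn n → ℝ} (hφ : ContDiff ℝ ∞ φ) (z : Cn n) (j k : Fin n) :
    db k (dd j (fun w => (φ w : ℂ))) z =
      (((fderiv ℝ (fderiv ℝ φ) z (bv n k) (bv n j) +
        fderiv ℝ (fderiv ℝ φ) z (Complex.I • bv n k) (Complex.I • bv n j) : ℝ) : ℂ) +
      Complex.I * ((fderiv ℝ (fderiv ℝ φ) z (Complex.I • bv n k) (bv n j) -
        fderiv ℝ (fderiv ℝ φ) z (bv n k) (Complex.I • bv n j) : ℝ) : ℂ)) / 4 := by
  have e1 : dd j (fun w => (φ w : ℂ)) = fun w =>
      (((fderiv ℝ φ w (bv n j) : ℝ) : ℂ) -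
        Complex.I * ((fderiv ℝ φ w (Complex.I • bv n j) : ℝ) : ℂ)) / 2 := by
    funext w
    simp only [dd]
    rw [dbar2_coe hφ, dbar2_coe hφ]
  have hs : ∀ u : Cn n, ContDiff ℝ ∞ (fun w => fderiv ℝ φ w u) := fun u =>
    (hφ.fderiv_right (m := ∞) (by simp)).clm_apply contDiff_const
  have e2 : ∀ v : Cn n, fderiv ℝ (dd j (fun w => (φ w : ℂ))) z v =
      (((fderiv ℝ (fderiv ℝ φ) z v (bv n j) : ℝ) : ℂ) -
        Complex.I * ((fderiv ℝ (fderiv ℝ φ) z v (Complex.I • bv n j) : ℝ) : ℂ)) / 2 := by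
    intro v
    rw [e1]
    have d1 : HasFDerivAt (fun w => ((fderiv ℝ φ w (bv n j) : ℝ) : ℂ))
        (Complex.ofRealCLM.comp (fderiv ℝ (fun w => fderiv ℝ φ w (bv n j)) z)) z :=
      (Complex.ofRealCLM.hasFDerivAt).comp z
        (((hs (bv n j)).differentiable (by simp)) z).hasFDerivAt
    have d2 : HasFDerivAt (fun w => ((fderiv ℝ φ w (Complex.I • bv n j) : ℝ) : ℂ))
        (Complex.ofRealCLM.comp (fderiv ℝ (fun w => fderiv ℝ φ w (Complex.I • bv n j)) z)) z :=
      (Complex.ofRealCLM.hasFDerivAt).comp z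
        (((hs (Complex.I • bv n j)).differentiable (by simp)) z).hasFDerivAt
    have d3 := (d1.sub (d2.const_mul Complex.I)).mul_const ((2 : ℂ)⁻¹)
    have e3 : (fun w => (((fderiv ℝ φ w (bv n j) : ℝ) : ℂ) -
        Complex.I * ((fderiv ℝ φ w (Complex.I • bv n j) : ℝ) : ℂ)) / 2) =
        fun w => (((fderiv ℝ φ w (bv n j) : ℝ) : ℂ) -
        Complex.I * ((fderiv ℝ φ w (Complex.I • bv n j) : ℝ) : ℂ)) * (2 : ℂ)⁻¹ := by
      funext w; rw [div_eq_mul_inv]
    rw [e3]
    have d4 := d3.fderiv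
    have d5 := congrArg (fun L : Cn n →L[ℝ] ℂ => L v) d4
    refine Eq.trans d5 ?_
    simp only [smul_apply, sub_apply,
      ContinuousLinearMap.comp_apply, Complex.ofRealCLM_apply, smul_eq_mul]
    rw [dbar2_fd2 hφ, dbar2_fd2 hφ]
    ring
  rw [db, e2, e2]
  push_cast
  have hI : Complex.I * Complex.I = -1 := Complex.I_mul_I
  linear_combination (-(((fderiv ℝ (fderiv ℝ φ) z (Complex.I • bv n k) (Complex.I • bv n j) : ℝ) : ℂ)) / 4) * hI

theorem dbar2_expand (ξ : Cn n) :
    ξ = ∑ j, ((ξ j).re • bv n j + (ξ j).im • (Complex.I • bv n j)) := by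
  have h1 : ξ = ∑ j, (ξ j) • bv n j := by
    ext k
    simp [bv, Finset.sum_apply, Pi.single_apply]
  conv_lhs => rw [h1]
  apply Finset.sum_congr rfl
  intro j _
  ext k
  simp [bv]
  by_cases hk : k = j
  · subst hk
    simp
  · simp [hk]

theorem dbar2_expand' (ξ : Cn n) :
    Complex.I • ξ = ∑ j, ((-(ξ j).im) • bv n j + (ξ j).re • (Complex.I • bv n j)) := by
  have h := dbar2_expand (Complex.I • ξ)
  simpa using h

theorem dbar2_bilin (B : Cn n →L[ℝ] Cn n →L[ℝ] ℝ) (a b : Fin n → ℝ) :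
    B (∑ j, (a j • bv n j + b j • (Complex.I • bv n j)))
      (∑ j, (a j • bv n j + b j • (Complex.I • bv n j))) =
    ∑ j, ∑ k, (a j * a k * B (bv n k) (bv n j) + b j * a k * B (bv n k) (Complex.I • bv n j) +
      a j * b k * B (Complex.I • bv n k) (bv n j) +
      b j * b k * B (Complex.I • bv n k) (Complex.I • bv n j)) := by
  have hgen : ∀ u : Fin n → Cn n, B (∑ j, u j) (∑ j, u j) = ∑ j, ∑ k, B (u k) (u j) := by
    intro u
    rw [map_sum]
    apply Finset.sum_congr rfl
    intro j _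
    have h1 : B (∑ k, u k) = ∑ k, B (u k) := map_sum B _ _
    rw [h1]
    simp
  rw [hgen]
  apply Finset.sum_congr rfl
  intro j _
  apply Finset.sum_congr rfl
  intro k _
  simp only [map_add, map_smul, add_apply, smul_apply, smul_eq_mul]
  ring

theorem lev_eq {φ : Cn n → ℝ} (hφ : ContDiff ℝ ∞ φ) (z ξ : Cn n) :
    (lev φ z ξ : ℂ) = ∑ j, ∑ k, db k (dd j (fun w => (φ w : ℂ))) z * ξ j *
      (starRingEnd ℂ) (ξ k) := by
  set B := fderiv ℝ (fderiv ℝ φ) z with hB
  have hlev : lev φ z ξ = (B ξ ξ + B (Complex.I • ξ) (Complex.I • ξ)) / 4 := by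
    rw [lev, dbar2_fd2 hφ, dbar2_fd2 hφ]
  have e1 : B ξ ξ = _ :=
    (by rw [← dbar2_expand ξ] :
      B ξ ξ = B (∑ j, ((ξ j).re • bv n j + (ξ j).im • (Complex.I • bv n j)))
      (∑ j, ((ξ j).re • bv n j + (ξ j).im • (Complex.I • bv n j)))).trans
      (dbar2_bilin B (fun j => (ξ j).re) (fun j => (ξ j).im))
  have e2 : B (Complex.I • ξ) (Complex.I • ξ) = _ :=
    (by rw [← dbar2_expand' ξ] :
      B (Complex.I • ξ) (Complex.I • ξ) =
        B (∑ j, ((-(ξ j).im) • bv n j + (ξ j).re • (Complex.I • bv n j)))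
      (∑ j, ((-(ξ j).im) • bv n j + (ξ j).re • (Complex.I • bv n j)))).trans
      (dbar2_bilin B (fun j => -(ξ j).im) (fun j => (ξ j).re))
  simp only at e1 e2
  have hterm : ∀ j k : Fin n, db k (dd j (fun w => (φ w : ℂ))) z * ξ j *
      (starRingEnd ℂ) (ξ k) =
      ((((B (bv n k) (bv n j) + B (Complex.I • bv n k) (Complex.I • bv n j)) *
          ((ξ j).re * (ξ k).re + (ξ j).im * (ξ k).im) -
        (B (Complex.I • bv n k) (bv n j) - B (bv n k) (Complex.I • bv n j)) *
          ((ξ j).im * (ξ k).re - (ξ j).re * (ξ k).im)) / 4 : ℝ) : ℂ) +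
      Complex.I * ((((B (bv n k) (bv n j) + B (Complex.I • bv n k) (Complex.I • bv n j)) *
          ((ξ j).im * (ξ k).re - (ξ j).re * (ξ k).im) +
        (B (Complex.I • bv n k) (bv n j) - B (bv n k) (Complex.I • bv n j)) *
          ((ξ j).re * (ξ k).re + (ξ j).im * (ξ k).im)) / 4 : ℝ) : ℂ) := by
    intro j k
    rw [dbar2_dd hφ z j k]
    apply Complex.ext
    · simp [Complex.mul_re, Complex.mul_im]
      ring
    · simp [Complex.mul_re, Complex.mul_im]
      ring
  have hsum0 : ∑ j, ∑ k, (((B (bv n k) (bv n j) + B (Complex.I • bv n k) (Complex.I • bv n j)) *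
          ((ξ j).im * (ξ k).re - (ξ j).re * (ξ k).im) +
        (B (Complex.I • bv n k) (bv n j) - B (bv n k) (Complex.I • bv n j)) *
          ((ξ j).re * (ξ k).re + (ξ j).im * (ξ k).im)) / 4 : ℝ) = 0 := by
    have hanti : ∀ j k : Fin n,
        (((B (bv n k) (bv n j) + B (Complex.I • bv n k) (Complex.I • bv n j)) *
          ((ξ j).im * (ξ k).re - (ξ j).re * (ξ k).im) +
        (B (Complex.I • bv n k) (bv n j) - B (bv n k) (Complex.I • bv n j)) *
          ((ξ j).re * (ξ k).re + (ξ j).im * (ξ k).im)) / 4 : ℝ) =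
        - (((B (bv n j) (bv n k) + B (Complex.I • bv n j) (Complex.I • bv n k)) *
          ((ξ k).im * (ξ j).re - (ξ k).re * (ξ j).im) +
        (B (Complex.I • bv n j) (bv n k) - B (bv n j) (Complex.I • bv n k)) *
          ((ξ k).re * (ξ j).re + (ξ k).im * (ξ j).im)) / 4 : ℝ) := by
      intro j k
      have s1 : B (bv n k) (bv n j) = B (bv n j) (bv n k) := dbar2_symm hφ z _ _
      have s2 : B (Complex.I • bv n k) (Complex.I • bv n j) =
        B (Complex.I • bv n j) (Complex.I • bv n k) := dbar2_symm hφ z _ _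
      have s3 : B (Complex.I • bv n k) (bv n j) = B (bv n j) (Complex.I • bv n k) :=
        dbar2_symm hφ z _ _
      have s4 : B (bv n k) (Complex.I • bv n j) = B (Complex.I • bv n j) (bv n k) :=
        dbar2_symm hφ z _ _
      rw [s1, s2, s3, s4]
      ring
    set S := ∑ j, ∑ k, (((B (bv n k) (bv n j) + B (Complex.I • bv n k) (Complex.I • bv n j)) *
          ((ξ j).im * (ξ k).re - (ξ j).re * (ξ k).im) +
        (B (Complex.I • bv n k) (bv n j) - B (bv n k) (Complex.I • bv n j)) *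
          ((ξ j).re * (ξ k).re + (ξ j).im * (ξ k).im)) / 4 : ℝ) with hS
    have h1 : S = -S := by
      conv_lhs => rw [hS]
      rw [Finset.sum_congr rfl (fun j _ => Finset.sum_congr rfl (fun k _ => hanti j k))]
      simp only [Finset.sum_neg_distrib]
      rw [Finset.sum_comm]
    linarith
  have hR : ∑ j, ∑ k, db k (dd j (fun w => (φ w : ℂ))) z * ξ j * (starRingEnd ℂ) (ξ k) =
      ((∑ j, ∑ k, (((B (bv n k) (bv n j) + B (Complex.I • bv n k) (Complex.I • bv n j)) *
          ((ξ j).re * (ξ k).re + (ξ j).im * (ξ k).im) -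
        (B (Complex.I • bv n k) (bv n j) - B (bv n k) (Complex.I • bv n j)) *
          ((ξ j).im * (ξ k).re - (ξ j).re * (ξ k).im)) / 4 : ℝ) : ℝ) : ℂ) +
      Complex.I * ((∑ j, ∑ k,
        (((B (bv n k) (bv n j) + B (Complex.I • bv n k) (Complex.I • bv n j)) *
          ((ξ j).im * (ξ k).re - (ξ j).re * (ξ k).im) +
        (B (Complex.I • bv n k) (bv n j) - B (bv n k) (Complex.I • bv n j)) *
          ((ξ j).re * (ξ k).re + (ξ j).im * (ξ k).im)) / 4 : ℝ) : ℝ) : ℂ) := by
    rw [Finset.sum_congr rfl (fun j _ => Finset.sum_congr rfl (fun k _ => hterm j k))]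
    simp only [Finset.sum_add_distrib, ← Finset.mul_sum, Complex.ofReal_sum]
  rw [hR, hsum0, hlev, e1, e2]
  simp only [Complex.ofReal_zero, mul_zero, add_zero]
  congr 1
  rw [← Finset.sum_add_distrib, Finset.sum_div]
  apply Finset.sum_congr rfl
  intro j _
  rw [← Finset.sum_add_distrib, Finset.sum_div]
  apply Finset.sum_congr rfl
  intro k _
  ring

theorem dbar2_sm {φ : Cn n → ℝ} (hφ : ContDiff ℝ ∞ φ) (u : Cn n) :
    ContDiff ℝ ∞ (fun w => fderiv ℝ φ w u) :=
  (hφ.fderiv_right (m := ∞) (by simp)).clm_apply contDiff_const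

theorem dbar2_add {φ ψ : Cn n → ℝ} (hφ : ContDiff ℝ ∞ φ) (hψ : ContDiff ℝ ∞ ψ) (z u v : Cn n) :
    fderiv ℝ (fun w => fderiv ℝ (fun w => φ w + ψ w) w u) z v =
      fderiv ℝ (fun w => fderiv ℝ φ w u) z v + fderiv ℝ (fun w => fderiv ℝ ψ w u) z v := by
  have e1 : (fun w => fderiv ℝ (fun w => φ w + ψ w) w u) =
      fun w => fderiv ℝ φ w u + fderiv ℝ ψ w u := by
    funext w
    have := fderiv_fun_add ((hφ.differentiable (by simp)) w) ((hψ.differentiable (by simp)) w)
    rw [this]; simp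
  rw [e1]
  have := fderiv_fun_add (((dbar2_sm hφ u).differentiable (by simp)) z)
    (((dbar2_sm hψ u).differentiable (by simp)) z)
  rw [this]; simp

theorem dbar2_cmul {φ : Cn n → ℝ} (hφ : ContDiff ℝ ∞ φ) (c : ℝ) (z u v : Cn n) :
    fderiv ℝ (fun w => fderiv ℝ (fun w => c * φ w) w u) z v =
      c * fderiv ℝ (fun w => fderiv ℝ φ w u) z v := by
  have e1 : (fun w => fderiv ℝ (fun w => c * φ w) w u) =
      fun w => c * fderiv ℝ φ w u := by
    funext w
    have := fderiv_const_mul ((hφ.differentiable (by simp)) w) c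
    rw [this]; simp
  rw [e1]
  have := fderiv_const_mul (((dbar2_sm hφ u).differentiable (by simp)) z) c
  rw [this]; simp

theorem lev_add {φ ψ : Cn n → ℝ} (hφ : ContDiff ℝ ∞ φ) (hψ : ContDiff ℝ ∞ ψ) (z ξ : Cn n) :
    lev (fun w => φ w + ψ w) z ξ = lev φ z ξ + lev ψ z ξ := by
  simp only [lev]
  rw [dbar2_add hφ hψ, dbar2_add hφ hψ]
  ring

theorem lev_const_mul {φ : Cn n → ℝ} (hφ : ContDiff ℝ ∞ φ) (c : ℝ) (z ξ : Cn n) :
    lev (fun w => c * φ w) z ξ = c * lev φ z ξ := by
  simp only [lev]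
  rw [dbar2_cmul hφ, dbar2_cmul hφ]
  ring

/-- a smooth function with `∂bar f = 0` is holomorphic -/
theorem differentiable_of_db {f : Cn n → ℂ} (hf : ContDiff ℝ ∞ f) (h : ∀ j z, db j f z = 0) :
    Differentiable ℂ f := by
  intro z
  have hd : DifferentiableAt ℝ f z := (hf.differentiable (by simp)) z
  set L := fderiv ℝ f z with hL
  have hj : ∀ j, L (Complex.I • bv n j) = Complex.I * L (bv n j) := by
    intro j
    have h1 := h j z
    rw [db, ← hL] at h1
    have h2 : L (bv n j) + Complex.I * L (Complex.I • bv n j) = 0 := by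
      have : (2 : ℂ) ≠ 0 := two_ne_zero
      field_simp at h1
      simpa using h1
    have hI : Complex.I * Complex.I = -1 := Complex.I_mul_I
    linear_combination (-Complex.I) * h2 + (L (Complex.I • bv n j)) * hI
  have hj' : ∀ j, L (Complex.I • (Complex.I • bv n j)) =
      Complex.I * L (Complex.I • bv n j) := by
    intro j
    rw [hj j, smul_smul, Complex.I_mul_I, neg_one_smul, map_neg, ← mul_assoc, Complex.I_mul_I]
    ring
  have hr : ∀ (r : ℝ) (v : Cn n), L (r • v) = (r : ℂ) * L v := by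
    intro r v
    rw [L.map_smul, Complex.real_smul]
  have hI : ∀ v, L (Complex.I • v) = Complex.I * L v := by
    intro v
    have h3 := dbar2_expand v
    conv_lhs => rw [h3]
    conv_rhs => rw [h3]
    rw [Finset.smul_sum, map_sum, map_sum, Finset.mul_sum]
    apply Finset.sum_congr rfl
    intro j _
    rw [smul_add, smul_comm Complex.I (v j).re (bv n j),
      smul_comm Complex.I (v j).im (Complex.I • bv n j), map_add, map_add, hr, hr, hr, hr,
      hj', hj]
    ring
  have hc : ∀ (c : ℂ) (v : Cn n), L (c • v) = c • L v := by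
    intro c v
    have h4 : c • v = (c.re : ℝ) • v + (c.im : ℝ) • (Complex.I • v) := by
      conv_lhs => rw [← Complex.re_add_im c]
      rw [add_smul, mul_smul]
      rfl
    rw [h4, map_add, hr, hr, hI, smul_eq_mul]
    conv_rhs => rw [← Complex.re_add_im c]
    ring
  let L' : Cn n →L[ℂ] ℂ :=
    { toFun := fun v => L v
      map_add' := fun u v => map_add L u v
      map_smul' := fun c v => hc c v
      cont := L.continuous }
  have : HasFDerivAt f L' z := by
    apply hasFDerivAt_of_restrictScalars ℝ (hd.hasFDerivAt)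
    ext v
    rfl
  exact this.differentiableAt

theorem db_of_differentiable {f : Cn n → ℂ} (hf : Differentiable ℂ f) (j : Fin n) (z : Cn n) :
    db j f z = 0 := by
  have h1 : fderiv ℝ f z = (fderiv ℂ f z).restrictScalars ℝ :=
    ((hf z).hasFDerivAt.restrictScalars ℝ).fderiv
  rw [db, h1]
  simp only [ContinuousLinearMap.coe_restrictScalars', map_smul, smul_eq_mul]
  rw [← mul_assoc, Complex.I_mul_I]
  ring

end HMA
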