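import Pool.Agent.H85.MA.Dbar2

/-! # Module MOLL: mollification in `L²` with compact support -/

open MeasureTheory Metric Set
open scoped ENNReal Topology ContDiff Convolution

namespace HMA

section MollAux

variable {n : ℕ}

/-- bump functions of radius `1 / (k + 1)` -/
noncomputable def Moll_bump (n : ℕ) (k : ℕ) : ContDiffBump (0 : Cn n) where
  rIn := 1 / (2 * ((k : ℝ) + 1))
  rOut := 1 / ((k : ℝ) + 1)
  rIn_pos := by positivity
  rIn_lt_rOut := by
    apply one_div_lt_one_div_of_lt (by positivity)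
    have : (0 : ℝ) < (k : ℝ) + 1 := by positivity
    linarith

/-- the mollifier -/
noncomputable def Moll_eta (n : ℕ) (k : ℕ) : Cn n → ℝ := (Moll_bump n k).normed volume

theorem Moll_eta_smooth (k : ℕ) : ContDiff ℝ ∞ (Moll_eta n k) :=
  (Moll_bump n k).contDiff_normed

theorem Moll_eta_supp (k : ℕ) : HasCompactSupport (Moll_eta n k) :=
  (Moll_bump n k).hasCompactSupport_normed

theorem Moll_eta_nonneg (k : ℕ) (x : Cn n) : 0 ≤ Moll_eta n k x :=
  (Moll_bump n k).nonneg_normed x

theorem Moll_eta_zero (k : ℕ) {x : Cn n} (hx : 1 / ((k : ℝ) + 1) ≤ ‖x‖) : Moll_eta n k x = 0 := by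
  have h := (Moll_bump n k).support_normed_eq (μ := (volume : Measure (Cn n)))
  by_contra hne
  have h1 : x ∈ Function.support ((Moll_bump n k).normed volume) := hne
  rw [h, mem_ball_zero_iff] at h1
  exact absurd h1 (not_lt.2 hx)

theorem Moll_eta_zero' (k : ℕ) {x : Cn n} (hx : 1 ≤ ‖x‖) : Moll_eta n k x = 0 := by
  apply Moll_eta_zero
  refine le_trans ?_ hx
  rw [div_le_one (by positivity)]
  have : (0 : ℝ) ≤ (k : ℝ) := by positivity
  linarith

/-- mollification -/
noncomputable def Moll_mol (k : ℕ) (G : Cn n → ℂ) : Cn n → ℂ :=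
  Moll_eta n k ⋆[ContinuousLinearMap.lsmul ℝ ℝ, volume] G

theorem Moll_mol_eq (k : ℕ) (G : Cn n → ℂ) (z : Cn n) :
    Moll_mol k G z = ∫ t, Moll_eta n k t • G (z - t) := rfl

theorem Moll_mol_eq' (k : ℕ) (G : Cn n → ℂ) (z : Cn n) :
    Moll_mol k G z = ∫ x, Moll_eta n k (z - x) • G x := by
  unfold Moll_mol
  rw [convolution_eq_swap]
  rfl

theorem Moll_smooth (k : ℕ) {G : Cn n → ℂ} (hG : LocallyIntegrable G volume) :
    ContDiff ℝ ∞ (Moll_mol k G) :=
  (Moll_eta_supp k).contDiff_convolution_left _ (Moll_eta_smooth k) hG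

theorem Moll_mol_zero (k : ℕ) {G : Cn n → ℂ} {K : Set (Cn n)} (hG : ∀ z ∉ K, G z = 0) {z : Cn n}
    (hz : z ∉ cthickening 1 K) : Moll_mol k G z = 0 := by
  rw [Moll_mol_eq]
  have : ∀ t, Moll_eta n k t • G (z - t) = 0 := by
    intro t
    by_cases ht : 1 ≤ ‖t‖
    · rw [Moll_eta_zero' k ht, zero_smul]
    · rw [hG, smul_zero]
      intro hK
      apply hz
      apply mem_cthickening_of_dist_le z (z - t) 1 K hK
      rw [dist_eq_norm, sub_sub_cancel]
      linarith
  simp [this]

/-- the test function `x ↦ η (z - x)` -/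
noncomputable def Moll_tf (n : ℕ) (k : ℕ) (z : Cn n) : Cn n → ℂ :=
  fun x => (Moll_eta n k (z - x) : ℂ)

theorem Moll_tf_tst (k : ℕ) (z : Cn n) : Tst (Moll_tf n k z) := by
  constructor
  · exact Complex.ofRealCLM.contDiff.comp
      ((Moll_eta_smooth k).comp (contDiff_const.sub contDiff_id))
  · apply HasCompactSupport.intro (isCompact_closedBall z 1)
    intro x hx
    unfold Moll_tf
    rw [Moll_eta_zero' k, Complex.ofReal_zero]
    rw [mem_closedBall, not_le, dist_comm, dist_eq_norm] at hx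
    exact hx.le

theorem Moll_mol_tf (k : ℕ) (G : Cn n → ℂ) (z : Cn n) :
    Moll_mol k G z = ∫ x, G x * Moll_tf n k z x := by
  rw [Moll_mol_eq']
  congr 1
  funext x
  rw [Complex.real_smul, mul_comm]
  rfl

theorem Moll_tf_fderiv (k : ℕ) (z x v : Cn n) :
    fderiv ℝ (Moll_tf n k z) x v = -((fderiv ℝ (Moll_eta n k) (z - x) v : ℝ) : ℂ) := by
  have h1 : HasFDerivAt (Moll_eta n k) (fderiv ℝ (Moll_eta n k) (z - x)) (z - x) :=
    (((Moll_eta_smooth k).differentiable (by simp)).differentiableAt).hasFDerivAt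
  have h2 : HasFDerivAt (fun x => z - x) (-(ContinuousLinearMap.id ℝ (Cn n))) x :=
    (hasFDerivAt_id x).const_sub z
  have h3 := Complex.ofRealCLM.hasFDerivAt.comp x (h1.comp x h2)
  have h4 : HasFDerivAt (Moll_tf n k z) _ x := h3
  rw [h4.fderiv]
  simp

theorem Moll_deriv (k : ℕ) {G : Cn n → ℂ} (hG : LocallyIntegrable G volume) (z v : Cn n) :
    fderiv ℝ (Moll_mol k G) z v = -∫ x, G x * fderiv ℝ (Moll_tf n k z) x v := by
  have hs : ContDiff ℝ 1 (Moll_eta n k) := (Moll_eta_smooth k).of_le (by simp)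
  have h1 := (Moll_eta_supp k).hasFDerivAt_convolution_left (ContinuousLinearMap.lsmul ℝ ℝ)
    hs hG z
  have h2 : HasFDerivAt (Moll_mol k G) _ z := h1
  rw [h2.fderiv, convolution_eq_swap]
  have h3 : ConvolutionExistsAt (fderiv ℝ (Moll_eta n k)) G z
      ((ContinuousLinearMap.lsmul ℝ ℝ : ℝ →L[ℝ] ℂ →L[ℝ] ℂ).precompL (Cn n)) volume :=
    (Moll_eta_supp k).fderiv ℝ |>.convolutionExists_left _
      (hs.continuous_fderiv (by simp)) hG z
  have h4 := convolutionExistsAt_iff_integrable_swap.1 h3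
  rw [ContinuousLinearMap.integral_apply h4, ← integral_neg]
  congr 1
  funext x
  rw [ContinuousLinearMap.precompL_apply, Moll_tf_fderiv]
  simp [mul_comm]

theorem Moll_int {G : Cn n → ℂ} (hG : LocallyIntegrable G volume) {f : Cn n → ℂ}
    (hf : Continuous f) (hf' : HasCompactSupport f) : Integrable (fun x => G x * f x) volume := by
  have := hG.integrable_smul_left_of_hasCompactSupport hf hf'
  refine this.congr ?_
  filter_upwards with x
  rw [smul_eq_mul, mul_comm]

theorem Moll_int_fderiv (k : ℕ) {G : Cn n → ℂ} (hG : LocallyIntegrable G volume) (z v : Cn n) :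
    Integrable (fun x => G x * fderiv ℝ (Moll_tf n k z) x v) volume := by
  have h := Moll_tf_tst (n := n) k z
  apply Moll_int hG
  · exact (h.smooth.continuous_fderiv (by simp)).clm_apply continuous_const
  · exact HasCompactSupport.fderiv_apply ℝ h.supp v

theorem Moll_dd (k : ℕ) {G : Cn n → ℂ} (hG : LocallyIntegrable G volume) (j : Fin n) (z : Cn n) :
    dd j (Moll_mol k G) z = -∫ x, G x * dd j (Moll_tf n k z) x := by
  have h1 := Moll_int_fderiv k hG z (bv n j)
  have h2 := Moll_int_fderiv k hG z (Complex.I • bv n j)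
  have h3 : ∀ x, G x * dd j (Moll_tf n k z) x =
      (1 / 2 : ℂ) * (G x * fderiv ℝ (Moll_tf n k z) x (bv n j)) -
        (Complex.I / 2) * (G x * fderiv ℝ (Moll_tf n k z) x (Complex.I • bv n j)) := by
    intro x
    unfold dd
    ring
  simp_rw [h3]
  rw [integral_sub (h1.const_mul _) (h2.const_mul _), integral_const_mul, integral_const_mul]
  unfold dd
  rw [Moll_deriv k hG, Moll_deriv k hG]
  ring

theorem Moll_db (k : ℕ) {G : Cn n → ℂ} (hG : LocallyIntegrable G volume) (j : Fin n) (z : Cn n) :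
    db j (Moll_mol k G) z = -∫ x, G x * db j (Moll_tf n k z) x := by
  have h1 := Moll_int_fderiv k hG z (bv n j)
  have h2 := Moll_int_fderiv k hG z (Complex.I • bv n j)
  have h3 : ∀ x, G x * db j (Moll_tf n k z) x =
      (1 / 2 : ℂ) * (G x * fderiv ℝ (Moll_tf n k z) x (bv n j)) +
        (Complex.I / 2) * (G x * fderiv ℝ (Moll_tf n k z) x (Complex.I • bv n j)) := by
    intro x
    unfold db
    ring
  simp_rw [h3]
  rw [integral_add (h1.const_mul _) (h2.const_mul _), integral_const_mul, integral_const_mul]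
  unfold db
  rw [Moll_deriv k hG, Moll_deriv k hG]
  ring

/-! ### `L²` estimates -/

/-- the probability measure `η_k dλ` -/
noncomputable def Moll_nu (n : ℕ) (k : ℕ) : Measure (Cn n) :=
  volume.withDensity fun t => ENNReal.ofReal (Moll_eta n k t)

instance Moll_nu_prob (k : ℕ) : IsProbabilityMeasure (Moll_nu n k) := by
  constructor
  unfold Moll_nu
  rw [withDensity_apply _ MeasurableSet.univ, Measure.restrict_univ,
    ← ofReal_integral_eq_lintegral_ofReal]
  · have : ∫ t, Moll_eta n k t = 1 := (Moll_bump n k).integral_normed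
    rw [this, ENNReal.ofReal_one]
  · exact (Moll_bump n k).integrable_normed
  · filter_upwards with t using Moll_eta_nonneg k t

theorem Moll_mol_nu (k : ℕ) (G : Cn n → ℂ) (z : Cn n) :
    Moll_mol k G z = ∫ t, G (z - t) ∂(Moll_nu n k) := by
  rw [Moll_mol_eq]
  unfold Moll_nu
  rw [integral_withDensity_eq_integral_toReal_smul]
  · congr 1
    funext t
    rw [ENNReal.toReal_ofReal (Moll_eta_nonneg k t)]
  · exact (Moll_eta_smooth k).continuous.measurable.ennreal_ofReal
  · filter_upwards with t using ENNReal.ofReal_lt_top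

theorem Moll_pointwise (k : ℕ) {F : Cn n → ℂ} (hF : AEStronglyMeasurable F volume) (z : Cn n) :
    ‖Moll_mol k F z‖ₑ ^ (2 : ℝ) ≤ ∫⁻ t, ‖F (z - t)‖ₑ ^ (2 : ℝ) ∂(Moll_nu n k) := by
  have hac : Moll_nu n k ≪ volume := withDensity_absolutelyContinuous _ _
  have hm : AEStronglyMeasurable (fun t => F (z - t)) (Moll_nu n k) :=
    (hF.comp_quasiMeasurePreserving (quasiMeasurePreserving_sub_left volume z)).mono_ac hac
  have h1 : ‖Moll_mol k F z‖ₑ ≤ eLpNorm (fun t => F (z - t)) 2 (Moll_nu n k) := by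
    rw [Moll_mol_nu]
    refine le_trans (enorm_integral_le_lintegral_enorm _) ?_
    rw [← eLpNorm_one_eq_lintegral_enorm]
    exact eLpNorm_le_eLpNorm_of_exponent_le (by norm_num) hm
  have h2 : eLpNorm (fun t => F (z - t)) 2 (Moll_nu n k) ^ (2 : ℝ) =
      ∫⁻ t, ‖F (z - t)‖ₑ ^ (2 : ℝ) ∂(Moll_nu n k) := by
    rw [eLpNorm_eq_lintegral_rpow_enorm_toReal (by norm_num) (by norm_num)]
    simp only [ENNReal.toReal_ofNat, one_div]
    rw [← ENNReal.rpow_mul]
    norm_num
  rw [← h2]
  exact ENNReal.rpow_le_rpow h1 (by norm_num)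

theorem Moll_young (k : ℕ) {F : Cn n → ℂ} (hF : AEStronglyMeasurable F volume) :
    eLpNorm (Moll_mol k F) 2 volume ≤ eLpNorm F 2 volume := by
  have h2 : ∀ H : Cn n → ℂ, eLpNorm H 2 volume = (∫⁻ z, ‖H z‖ₑ ^ (2 : ℝ)) ^ (1 / 2 : ℝ) := by
    intro H
    rw [eLpNorm_eq_lintegral_rpow_enorm_toReal (by norm_num) (by norm_num)]
    simp only [ENNReal.toReal_ofNat]
  rw [h2, h2]
  apply ENNReal.rpow_le_rpow _ (by norm_num)
  calc ∫⁻ z, ‖Moll_mol k F z‖ₑ ^ (2 : ℝ)
      ≤ ∫⁻ z, (∫⁻ t, ‖F (z - t)‖ₑ ^ (2 : ℝ) ∂(Moll_nu n k)) :=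
        lintegral_mono fun z => Moll_pointwise k hF z
    _ = ∫⁻ t, (∫⁻ z, ‖F (z - t)‖ₑ ^ (2 : ℝ)) ∂(Moll_nu n k) := by
        apply lintegral_lintegral_swap
        have h3 : AEStronglyMeasurable (fun p : Cn n × Cn n => F (p.1 - p.2))
            ((volume : Measure (Cn n)).prod (Moll_nu n k)) :=
          hF.comp_quasiMeasurePreserving
            (quasiMeasurePreserving_sub_of_right_invariant volume (Moll_nu n k))
        exact (h3.enorm.pow_const _)
    _ = ∫⁻ t, (∫⁻ z, ‖F z‖ₑ ^ (2 : ℝ)) ∂(Moll_nu n k) := by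
        congr 1
        funext t
        exact lintegral_sub_right_eq_self (fun z => ‖F z‖ₑ ^ (2 : ℝ)) t
    _ = ∫⁻ z, ‖F z‖ₑ ^ (2 : ℝ) := by
        rw [lintegral_const, measure_univ, mul_one]

theorem Moll_locint {G : Cn n → ℂ} (hG : MemLp G 2 volume) : LocallyIntegrable G volume :=
  hG.locallyIntegrable (by norm_num)

theorem Moll_sub (k : ℕ) {G H : Cn n → ℂ} (hG : LocallyIntegrable G volume)
    (hH : LocallyIntegrable H volume) (z : Cn n) :
    Moll_mol k (fun z => G z - H z) z = Moll_mol k G z - Moll_mol k H z := by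
  have h := Moll_tf_tst (n := n) k z
  rw [Moll_mol_tf, Moll_mol_tf, Moll_mol_tf, ← integral_sub
    (Moll_int hG h.smooth.continuous h.supp) (Moll_int hH h.smooth.continuous h.supp)]
  congr 1
  funext x
  ring

/-- uniform convergence for continuous compactly supported functions -/
theorem Moll_unif {g : Cn n → ℂ} (hg : Continuous g) (hg' : HasCompactSupport g) :
    Filter.Tendsto (fun k => eLpNorm (fun z => Moll_mol k g z - g z) 2 volume)
      Filter.atTop (𝓝 0) := by
  set S : Set (Cn n) := cthickening 1 (tsupport g) with hS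
  have hSc : IsCompact S := hg'.cthickening
  have hgK : ∀ z ∉ tsupport g, g z = 0 := fun z hz => image_eq_zero_of_notMem_tsupport hz
  have hgS : Function.support g ⊆ S := by
    intro z hz
    exact self_subset_cthickening _ (subset_tsupport g hz)
  have hmS : ∀ k, Function.support (Moll_mol k g) ⊆ S := by
    intro k z hz
    by_contra hzS
    exact hz (Moll_mol_zero k hgK hzS)
  have hu := hg'.uniformContinuous_of_continuous hg
  rw [Metric.uniformContinuous_iff] at hu
  have key : ∀ δ : ℝ, 0 < δ → ∀ᶠ k in Filter.atTop,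
      eLpNorm (fun z => Moll_mol k g z - g z) 2 volume ≤
        ENNReal.ofReal δ * volume S ^ (1 / (2 : ℝ≥0∞).toReal) := by
    intro δ hδ
    obtain ⟨r, hr, hr'⟩ := hu δ hδ
    have h1 : ∀ᶠ k : ℕ in Filter.atTop, 1 / ((k : ℝ) + 1) < r :=
      (tendsto_one_div_add_atTop_nhds_zero_nat).eventually (gt_mem_nhds hr)
    filter_upwards [h1] with k hk
    have h2 : ∀ z, dist (Moll_mol k g z) (g z) ≤ δ := by
      intro z
      apply (Moll_bump n k).dist_normed_convolution_le hg.aestronglyMeasurable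
      intro x hx
      rw [mem_ball] at hx
      exact (hr' (lt_trans hx hk)).le
    exact eLpNorm_sub_le_of_dist_bdd volume (by norm_num) hSc.measurableSet hδ.le h2 (hmS k) hgS
  have hfin : volume S ^ (1 / (2 : ℝ≥0∞).toReal) ≠ (⊤ : ℝ≥0∞) := by
    apply ENNReal.rpow_ne_top_of_nonneg (by simp) hSc.measure_lt_top.ne
  rw [ENNReal.tendsto_nhds_zero]
  intro ε hε
  have h3 : Filter.Tendsto (fun δ : ℝ => ENNReal.ofReal δ * volume S ^ (1 / (2 : ℝ≥0∞).toReal))
      (𝓝 0) (𝓝 0) := by
    have h4 : Filter.Tendsto (fun δ : ℝ => ENNReal.ofReal δ) (𝓝 0) (𝓝 0) := by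
      have := ENNReal.tendsto_ofReal (Filter.tendsto_id (α := ℝ) (x := 𝓝 0))
      simpa using this
    have h5 := ENNReal.Tendsto.mul_const (b := volume S ^ (1 / (2 : ℝ≥0∞).toReal)) h4
      (Or.inr hfin)
    simpa using h5
  have h6 : ∀ᶠ δ : ℝ in 𝓝 0, ENNReal.ofReal δ * volume S ^ (1 / (2 : ℝ≥0∞).toReal) ≤ ε :=
    (h3.eventually (gt_mem_nhds hε)).mono fun _ h => h.le
  obtain ⟨δ, hδ, hδ0⟩ := ((h6.filter_mono nhdsWithin_le_nhds).and
    (self_mem_nhdsWithin (s := Ioi (0 : ℝ)) (a := 0))).exists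
  filter_upwards [key δ hδ0] with k hk using hk.trans hδ

theorem Moll_conv {G : Cn n → ℂ} (hG : MemLp G 2 volume) :
    Filter.Tendsto (fun k => eLpNorm (fun z => Moll_mol k G z - G z) 2 volume)
      Filter.atTop (𝓝 0) := by
  rw [ENNReal.tendsto_nhds_zero]
  intro ε hε
  have hε3 : ε / 3 ≠ 0 := (ENNReal.div_pos hε.ne' (by norm_num)).ne'
  obtain ⟨g, hg1, hg2, hg3, hg4⟩ := hG.exists_hasCompactSupport_eLpNorm_sub_le (by norm_num) hε3
  have hu := Moll_unif hg3 hg1
  rw [ENNReal.tendsto_nhds_zero] at hu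
  filter_upwards [hu (ε / 3) (pos_iff_ne_zero.2 hε3)] with k hk
  have h1 : (fun z => Moll_mol k G z - G z) =
      (Moll_mol k (fun z => G z - g z)) + ((fun z => Moll_mol k g z - g z) - (G - g)) := by
    funext z
    simp only [Pi.add_apply, Pi.sub_apply]
    rw [Moll_sub k (Moll_locint hG) (Moll_locint hg4)]
    ring
  have hGg : MemLp (G - g) 2 volume := hG.sub hg4
  have m1 : AEStronglyMeasurable (Moll_mol k (fun z => G z - g z)) volume :=
    (Moll_smooth k (Moll_locint hGg)).continuous.aestronglyMeasurable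
  have m2 : AEStronglyMeasurable (fun z => Moll_mol k g z - g z) volume :=
    ((Moll_smooth k (Moll_locint hg4)).continuous.sub hg3).aestronglyMeasurable
  have h2 : eLpNorm (Moll_mol k (fun z => G z - g z)) 2 volume ≤ ε / 3 :=
    (Moll_young k hGg.1).trans hg2
  rw [h1]
  calc eLpNorm ((Moll_mol k (fun z => G z - g z)) +
        ((fun z => Moll_mol k g z - g z) - (G - g))) 2 volume
      ≤ eLpNorm (Moll_mol k (fun z => G z - g z)) 2 volume +
          eLpNorm ((fun z => Moll_mol k g z - g z) - (G - g)) 2 volume :=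
        eLpNorm_add_le m1 (m2.sub hGg.1) (by norm_num)
    _ ≤ ε / 3 + (ε / 3 + ε / 3) := by
        refine add_le_add h2 (le_trans (eLpNorm_sub_le m2 hGg.1 (by norm_num)) ?_)
        exact add_le_add hk hg2
    _ = ε := by
        rw [← add_assoc]
        exact ENNReal.add_thirds ε

end MollAux

/-- Mollification operators `mol k` for compactly supported square integrable functions. -/
theorem moll_exists (n : ℕ) : ∃ mol : ℕ → (Cn n → ℂ) → (Cn n → ℂ),
    ∀ K : Set (Cn n), IsCompact K → ∃ K' : Set (Cn n), IsCompact K' ∧ K ⊆ K' ∧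
      (∀ G : Cn n → ℂ, MemLp G 2 volume → (∀ z ∉ K, G z = 0) → ∀ k,
        Tst (mol k G) ∧ ∀ z ∉ K', mol k G z = 0) ∧
      (∀ G : Cn n → ℂ, MemLp G 2 volume → (∀ z ∉ K, G z = 0) →
        Filter.Tendsto (fun k => eLpNorm (fun z => mol k G z - G z) 2 volume) Filter.atTop (𝓝 0)) ∧
      /- derivatives: if `∑ ∂_j G_j = W` weakly then `∑ ∂_j (mol k G_j) = mol k W` -/
      (∀ (G : Fin n → Cn n → ℂ) (W : Cn n → ℂ), (∀ j, MemLp (G j) 2 volume) → MemLp W 2 volume →
        (∀ j, ∀ z ∉ K, G j z = 0) → (∀ z ∉ K, W z = 0) →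
        (∀ f : Cn n → ℂ, Tst f → ∫ z, ∑ j, G j z * dd j f z = - ∫ z, W z * f z) →
        ∀ k z, ∑ j, dd j (mol k (G j)) z = mol k W z) ∧
      (∀ (G G' : Cn n → ℂ) (W : Cn n → ℂ) (j l : Fin n), MemLp G 2 volume → MemLp G' 2 volume →
        MemLp W 2 volume → (∀ z ∉ K, G z = 0) → (∀ z ∉ K, G' z = 0) → (∀ z ∉ K, W z = 0) →
        (∀ f : Cn n → ℂ, Tst f →
          ∫ z, (G z * db j f z - G' z * db l f z) = - ∫ z, W z * f z) →
        ∀ k z, db j (mol k G) z - db l (mol k G') z = mol k W z) := by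
  refine ⟨Moll_mol, fun K hK => ⟨cthickening 1 K, hK.cthickening, self_subset_cthickening K,
    ?_, ?_, ?_, ?_⟩⟩
  · intro G hG hGK k
    refine ⟨⟨Moll_smooth k (Moll_locint hG), ?_⟩, fun z hz => Moll_mol_zero k hGK hz⟩
    exact HasCompactSupport.intro hK.cthickening fun z hz => Moll_mol_zero k hGK hz
  · intro G hG _
    exact Moll_conv hG
  · intro G W hG hW _ _ h k z
    have h1 := h _ (Moll_tf_tst k z)
    have h2 : ∀ j, Integrable (fun x => G j x * dd j (Moll_tf n k z) x) volume := by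
      intro j
      have ht := (Moll_tf_tst (n := n) k z).dd j
      exact Moll_int (Moll_locint (hG j)) ht.smooth.continuous ht.supp
    rw [integral_finsetSum _ (fun j _ => h2 j), ← Moll_mol_tf] at h1
    simp_rw [Moll_dd k (Moll_locint (hG _))]
    rw [Finset.sum_neg_distrib, h1, neg_neg]
  · intro G G' W j l hG hG' hW _ _ _ h k z
    have h1 := h _ (Moll_tf_tst k z)
    have ht := (Moll_tf_tst (n := n) k z).db j
    have ht' := (Moll_tf_tst (n := n) k z).db l
    rw [integral_sub (Moll_int (Moll_locint hG) ht.smooth.continuous ht.supp)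
      (Moll_int (Moll_locint hG') ht'.smooth.continuous ht'.supp), ← Moll_mol_tf] at h1
    rw [Moll_db k (Moll_locint hG), Moll_db k (Moll_locint hG')]
    linear_combination -h1

end HMA
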