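import Pool.Agent.H85.MA.Defs

/-! # Module JENSEN: truncated Jensen inequality for polynomials in one variable -/

open MeasureTheory Metric Set
open scoped ENNReal Topology ContDiff

namespace HMA

theorem Jensen_cont (q : Polynomial ℂ) {s δ : ℝ} (hs : 0 < s) (hδ : 0 < δ) :
    Continuous (fun z : ℂ => Real.log (max (‖q.eval z‖ ^ s) δ)) := by
  have h1 : Continuous (fun z : ℂ => ‖q.eval z‖ ^ s) := by
    have := (q.continuous.norm).rpow_const (p := s) (fun z => Or.inr hs.le)
    simpa using this
  exact Continuous.log (h1.max continuous_const) (fun z => (lt_max_of_lt_right hδ).ne')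

theorem Jensen_avg (q : Polynomial ℂ) (h0 : q.eval 0 ≠ 0) :
    Real.log ‖q.eval 0‖ ≤ Real.circleAverage (fun z => Real.log ‖q.eval z‖) 0 1 := by
  have h1 : AnalyticOnNhd ℂ (fun z : ℂ => q.eval z) (closedBall 0 |(1 : ℝ)|) := by
    intro z _
    exact AnalyticOnNhd.eval_polynomial q z (mem_univ z)
  rw [h1.circleAverage_log_norm (R := 1) one_ne_zero (f := fun z : ℂ => q.eval z) h0]
  have h2 : 0 ≤ ∑ᶠ u, MeromorphicOn.divisor (fun z : ℂ => q.eval z) (closedBall 0 |(1 : ℝ)|) u *
      Real.log (1 * ‖(0 : ℂ) - u‖⁻¹) := by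
    apply finsum_nonneg
    intro u
    by_cases hu : u ∈ closedBall (0 : ℂ) |(1 : ℝ)|
    · apply mul_nonneg
      · exact_mod_cast MeromorphicOn.AnalyticOnNhd.divisor_nonneg h1 u
      · rw [one_mul, zero_sub, norm_neg]
        rcases eq_or_ne u 0 with rfl | hne
        · simp
        · apply Real.log_nonneg
          rw [abs_one, mem_closedBall, dist_zero_right] at hu
          exact (one_le_inv₀ (norm_pos_iff.mpr hne)).mpr hu
    · rw [Function.locallyFinsuppWithin.apply_eq_zero_of_notMem _ hu]
      simp
  linarith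

theorem jensen_poly (q : Polynomial ℂ) {s δ : ℝ} (hs : 0 < s) (hδ : 0 < δ) :
    Real.log (max (‖q.eval 0‖ ^ s) δ) ≤ (2 * Real.pi)⁻¹ *
      ∫ θ in (0 : ℝ)..(2 * Real.pi),
        Real.log (max (‖q.eval (Complex.exp (θ * Complex.I))‖ ^ s) δ) := by
  set g : ℂ → ℝ := fun z => Real.log (max (‖q.eval z‖ ^ s) δ) with hg
  have hgc : Continuous g := Jensen_cont q hs hδ
  have hav : (2 * Real.pi)⁻¹ * ∫ θ in (0 : ℝ)..(2 * Real.pi),
        Real.log (max (‖q.eval (Complex.exp (θ * Complex.I))‖ ^ s) δ) =
      Real.circleAverage g 0 1 := by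
    rw [Real.circleAverage_def]
    simp [hg, circleMap]
  rw [hav]
  have hgi : CircleIntegrable g 0 1 := hgc.continuousOn.circleIntegrable (by norm_num)
  have hlow : Real.log δ ≤ Real.circleAverage g 0 1 := by
    have := Real.circleAverage_mono (c := 0) (R := 1) (f₁ := fun _ => Real.log δ) (f₂ := g)
      (circleIntegrable_const _ _ _) hgi
      (fun x _ => Real.log_le_log hδ (le_max_right _ _))
    rwa [Real.circleAverage_const] at this
  by_cases h0 : q.eval 0 = 0
  · rw [h0, norm_zero, Real.zero_rpow hs.ne', max_eq_right hδ.le]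
    exact hlow
  · have hq : q ≠ 0 := by
      rintro rfl
      simp at h0
    rcases le_total (‖q.eval 0‖ ^ s) δ with hle | hle
    · rw [max_eq_right hle]
      exact hlow
    · rw [max_eq_left hle, Real.log_rpow (norm_pos_iff.mpr h0)]
      have h1 := Jensen_avg q h0
      have hli : CircleIntegrable (fun z => Real.log ‖q.eval z‖) 0 1 := by
        apply MeromorphicOn.circleIntegrable_log_norm
        intro z _
        exact (AnalyticOnNhd.eval_polynomial q z (mem_univ z)).meromorphicAt
      calc s * Real.log ‖q.eval 0‖ ≤ s * Real.circleAverage (fun z => Real.log ‖q.eval z‖) 0 1 :=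
            mul_le_mul_of_nonneg_left h1 hs.le
        _ = (2 * Real.pi)⁻¹ * ∫ θ in (0 : ℝ)..(2 * Real.pi),
              s * Real.log ‖q.eval (circleMap 0 1 θ)‖ := by
            rw [Real.circleAverage_def, intervalIntegral.integral_const_mul, smul_eq_mul]
            ring
        _ ≤ (2 * Real.pi)⁻¹ * ∫ θ in (0 : ℝ)..(2 * Real.pi), g (circleMap 0 1 θ) := by
            apply mul_le_mul_of_nonneg_left _ (by positivity)
            apply intervalIntegral.integral_mono_ae Real.two_pi_pos.le
              (hli.const_mul s) hgi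
            have hfin : Set.Finite {z : ℂ | q.IsRoot z} := Polynomial.finite_setOfPred_isRoot hq
            have hc : Set.Countable (circleMap 0 1 ⁻¹' {z : ℂ | q.IsRoot z}) :=
              hfin.countable.preimage_circleMap 0 one_ne_zero
            have hae : ∀ᵐ θ : ℝ, θ ∉ circleMap 0 1 ⁻¹' {z : ℂ | q.IsRoot z} :=
              measure_eq_zero_iff_ae_notMem.mp (hc.measure_zero _)
            filter_upwards [hae] with θ hθ
            have hne : q.eval (circleMap 0 1 θ) ≠ 0 := hθ
            simp only [hg]
            rw [← Real.log_rpow (norm_pos_iff.mpr hne)]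
            exact Real.log_le_log (Real.rpow_pos_of_pos (norm_pos_iff.mpr hne) _)
              (le_max_left _ _)
        _ = Real.circleAverage g 0 1 := by
            rw [Real.circleAverage_def, smul_eq_mul]

end HMA
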