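import Pool.Agent.H85.MA.PshBall
import Pool.Agent.H85.MA.Jensen

/-! # Module LEXT: extension of bounded psh functions from the ball to the whole space -/

open MeasureTheory Metric Set
open scoped ENNReal Topology ContDiff

namespace HMA

theorem PshOn.max_const {n : ℕ} {Ω : Set (Cn n)} {F : Cn n → ℝ} (hF : PshOn Ω F) {c : ℝ}
    (hc : 0 < c) : PshOn Ω (fun z => max (F z) c) := by
  refine ⟨fun x _ => hc.le.trans (le_max_right _ _), ?_, ?_⟩
  · have h := hF.usc
    have hg : Continuous (fun x : ℝ => max x c) := continuous_id.max continuous_const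
    exact hg.comp_upperSemicontinuousOn h (fun x y hxy => max_le_max_right c hxy)
  · intro δ hδ a b hab
    have h := hF.submean (max c δ) (lt_max_of_lt_right hδ) a b hab
    simp only [max_assoc]
    exact h

theorem lext_ecirc_norm (θ : ℝ) : ‖Complex.exp (θ * Complex.I)‖ = 1 :=
  Complex.norm_exp_ofReal_mul_I θ

theorem lext_circ_cont {n : ℕ} (a b : Cn n) :
    Continuous (fun θ : ℝ => a + Complex.exp (θ * Complex.I) • b) := by
  fun_prop

theorem lext_q_cont {n : ℕ} :
    Continuous (fun z : Cn n => Real.log (max (‖z‖ / (17 / 10)) (1 / 2))) := by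
  refine Continuous.log ?_ ?_
  · exact (continuous_norm.div_const _).max continuous_const
  · intro z
    exact (lt_max_of_lt_right (by norm_num : (0 : ℝ) < 1 / 2)).ne'

/-- the outer function satisfies the sub-mean value inequality -/
theorem lext_q_submean {n : ℕ} (a b : Cn n) :
    Real.log (max (‖a‖ / (17 / 10)) (1 / 2)) ≤ (2 * Real.pi)⁻¹ *
      ∫ θ in (0 : ℝ)..(2 * Real.pi),
        Real.log (max (‖a + Complex.exp (θ * Complex.I) • b‖ / (17 / 10)) (1 / 2)) := by
  set e : Cn n := ((‖a‖⁻¹ : ℝ) : ℂ) • a with he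
  have hen : ‖e‖ ≤ 1 := by
    rw [he, norm_smul, Complex.norm_real, Real.norm_eq_abs, abs_of_nonneg (by positivity)]
    exact inv_mul_le_one
  have hea : inner ℂ e a = ((‖a‖ : ℝ) : ℂ) := by
    rw [he, inner_smul_left, Complex.conj_ofReal, inner_self_eq_norm_sq_to_K]
    rcases eq_or_ne a 0 with rfl | ha
    · simp
    · have : ‖a‖ ≠ 0 := norm_ne_zero_iff.2 ha
      push_cast
      have h2 : ((‖a‖ : ℝ) : ℂ) ≠ 0 := by exact_mod_cast this
      change ((‖a‖ : ℝ) : ℂ)⁻¹ * ((‖a‖ : ℝ) : ℂ) ^ 2 = _
      field_simp
  set p : Polynomial ℂ := Polynomial.C (((‖a‖ / (17 / 10) : ℝ)) : ℂ) +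
    Polynomial.C (inner ℂ e b / (17 / 10)) * Polynomial.X with hp
  have hpe : ∀ ζ : ℂ, p.eval ζ = inner ℂ e (a + ζ • b) / (17 / 10) := by
    intro ζ
    rw [hp, inner_add_right, inner_smul_right, hea]
    simp only [Polynomial.eval_add, Polynomial.eval_C, Polynomial.eval_mul, Polynomial.eval_X]
    push_cast
    ring
  have h := jensen_poly p (s := 1) (δ := 1 / 2) one_pos (by norm_num)
  simp only [Real.rpow_one] at h
  have h0 : ‖p.eval 0‖ = ‖a‖ / (17 / 10) := by
    rw [hpe, zero_smul, add_zero, hea, norm_div, Complex.norm_real, Real.norm_eq_abs,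
      abs_of_nonneg (norm_nonneg a)]
    norm_num
  rw [h0] at h
  refine h.trans ?_
  refine mul_le_mul_of_nonneg_left ?_ (by positivity)
  refine intervalIntegral.integral_mono_on Real.two_pi_pos.le ?_ ?_ ?_
  · apply Continuous.intervalIntegrable
    have h1 := Jensen_cont p (s := 1) (δ := 1 / 2) one_pos (by norm_num)
    simp only [Real.rpow_one] at h1
    exact h1.comp (by fun_prop : Continuous (fun θ : ℝ => Complex.exp (θ * Complex.I)))
  · apply Continuous.intervalIntegrable
    exact lext_q_cont.comp (lext_circ_cont a b)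
  · intro θ _
    apply Real.log_le_log (lt_max_of_lt_right (by norm_num))
    apply max_le_max_right
    rw [hpe, norm_div]
    have h17 : ‖(17 / 10 : ℂ)‖ = 17 / 10 := by norm_num
    rw [h17]
    apply div_le_div_of_nonneg_right _ (by norm_num)
    calc ‖inner ℂ e (a + Complex.exp (θ * Complex.I) • b)‖
        ≤ ‖e‖ * ‖a + Complex.exp (θ * Complex.I) • b‖ := norm_inner_le_norm _ _
      _ ≤ 1 * ‖a + Complex.exp (θ * Complex.I) • b‖ :=
          mul_le_mul_of_nonneg_right hen (norm_nonneg _)
      _ = _ := one_mul _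

/-- glue with `q z = 16 t log (max (‖z‖ / (17/10)) (1/2))`: `16 t g = max (log F) (-t)` on the
ball of radius `3/2` -/
theorem psh_ext {n : ℕ} {F : Cn n → ℝ} (hF : PshOn (ball 0 2) F) (h1 : ∀ x ∈ ball 0 2, F x ≤ 1)
    {t : ℝ} (ht : 1 ≤ t) : ∃ g : Cn n → ℝ, PshS g ∧ (∀ z, -1 ≤ g z) ∧
      (∀ z, g z ≤ Real.log (1 + ‖z‖ ^ 2) / 2) ∧
      ∀ z, ‖z‖ < 3 / 2 → 16 * t * g z = Real.log (max (F z) (Real.exp (-t))) := by
  classical
  have ht0 : 0 < t := by linarith
  have h16 : 0 < 16 * t := by linarith
  set v : Cn n → ℝ := fun z => Real.log (max (F z) (Real.exp (-t))) with hv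
  set q : Cn n → ℝ := fun z => Real.log (max (‖z‖ / (17 / 10)) (1 / 2)) with hq
  have hqc : Continuous q := lext_q_cont
  have hvlo : ∀ z, -t ≤ v z := by
    intro z
    have := Real.log_le_log (Real.exp_pos (-t)) (le_max_right (F z) (Real.exp (-t)))
    rwa [Real.log_exp] at this
  have hvhi : ∀ z ∈ ball (0 : Cn n) 2, v z ≤ 0 := by
    intro z hz
    apply Real.log_nonpos
    · exact (Real.exp_pos _).le.trans (le_max_right _ _)
    · exact max_le (h1 z hz) (Real.exp_le_one_iff.2 (by linarith))
  have hqlo : ∀ z, -1 ≤ q z := by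
    intro z
    have h2 : Real.log (1 / 2) ≤ q z :=
      Real.log_le_log (by norm_num) (le_max_right _ _)
    have h3 : (-1 : ℝ) ≤ Real.log (1 / 2) := by
      rw [one_div, Real.log_inv]
      have := Real.log_two_lt_d9
      linarith
    linarith
  have hqhi : ∀ z, q z ≤ Real.log (1 + ‖z‖ ^ 2) / 2 := by
    intro z
    have h2 : Real.log (1 + ‖z‖ ^ 2) / 2 = Real.log (Real.sqrt (1 + ‖z‖ ^ 2)) := by
      rw [Real.log_sqrt (by positivity)]
    rw [h2]
    apply Real.log_le_log (lt_max_of_lt_right (by norm_num))
    apply max_le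
    · apply Real.le_sqrt_of_sq_le
      have := norm_nonneg z
      nlinarith
    · apply Real.le_sqrt_of_sq_le
      have := norm_nonneg z
      nlinarith
  have hqpos : ∀ z : Cn n, 9 / 5 < ‖z‖ → 0 ≤ q z := by
    intro z hz
    apply Real.log_nonneg
    apply le_max_of_le_left
    rw [le_div_iff₀ (by norm_num)]
    linarith
  have hqneg : ∀ z : Cn n, ‖z‖ < 3 / 2 → 16 * t * q z ≤ -t := by
    intro z hz
    have h2 : q z ≤ Real.log (15 / 17) := by
      apply Real.log_le_log (lt_max_of_lt_right (by norm_num))
      apply max_le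
      · rw [div_le_iff₀ (by norm_num)]
        linarith
      · norm_num
    have h3 : Real.log (15 / 17) ≤ 15 / 17 - 1 := Real.log_le_sub_one_of_pos (by norm_num)
    nlinarith
  set g : Cn n → ℝ := fun z => if ‖z‖ < 2 then max (v z / (16 * t)) (q z) else q z with hg
  have hg1 : ∀ z, ‖z‖ < 2 → g z = max (v z / (16 * t)) (q z) := by
    intro z hz
    simp only [hg, if_pos hz]
  have hg2 : ∀ z, 9 / 5 < ‖z‖ → g z = q z := by
    intro z hz
    by_cases h : ‖z‖ < 2
    · rw [hg1 z h]
      apply max_eq_right
      have h2 := hvhi z (by simpa using h)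
      have h3 : v z / (16 * t) ≤ 0 := div_nonpos_of_nonpos_of_nonneg h2 h16.le
      exact h3.trans (hqpos z hz)
    · simp only [hg, if_neg h]
  have hgq : ∀ z, q z ≤ g z := by
    intro z
    by_cases h : ‖z‖ < 2
    · rw [hg1 z h]; exact le_max_right _ _
    · simp only [hg, if_neg h]; exact le_rfl
  have hvusc : UpperSemicontinuousOn v (ball 0 2) := by
    have hgc : Continuous (fun x : ℝ => Real.log (max x (Real.exp (-t)))) :=
      Continuous.log (continuous_id.max continuous_const)
        (fun x => (lt_max_of_lt_right (Real.exp_pos _)).ne')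
    exact hgc.comp_upperSemicontinuousOn hF.usc (fun x y hxy =>
      Real.log_le_log (lt_max_of_lt_right (Real.exp_pos _)) (max_le_max_right _ hxy))
  have hopen : IsOpen (ball (0 : Cn n) 2) := isOpen_ball
  have hv16 : UpperSemicontinuousOn (fun z => max (v z / (16 * t)) (q z)) (ball 0 2) := by
    have hm : UpperSemicontinuousOn (fun z => v z / (16 * t)) (ball 0 2) :=
      (continuous_id.div_const (16 * t)).comp_upperSemicontinuousOn hvusc
        (fun x y hxy => div_le_div_of_nonneg_right hxy h16.le)
    exact hm.sup (hqc.upperSemicontinuous.upperSemicontinuousOn _)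
  have husc : UpperSemicontinuous g := by
    intro z
    by_cases h : ‖z‖ < 2
    · have hz : z ∈ ball (0 : Cn n) 2 := by simpa using h
      have h2 : UpperSemicontinuousAt (fun z => max (v z / (16 * t)) (q z)) z := by
        have := hv16 z hz
        intro y hy
        have h3 := this y hy
        rwa [hopen.nhdsWithin_eq hz] at h3
      intro y hy
      rw [hg1 z h] at hy
      filter_upwards [h2 y hy, hopen.mem_nhds hz] with w hw hw2
      rw [hg1 w (by simpa using hw2)]
      exact hw
    · have hz : 9 / 5 < ‖z‖ := by linarith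
      intro y hy
      rw [hg2 z hz] at hy
      have ho : IsOpen {w : Cn n | 9 / 5 < ‖w‖} := isOpen_lt continuous_const continuous_norm
      filter_upwards [(hqc.upperSemicontinuous z) y hy, ho.mem_nhds hz] with w hw hw2
      rw [hg2 w hw2]
      exact hw
  refine ⟨g, ⟨husc, ⟨1, fun z => (hqlo z).trans (hgq z)⟩, ?_⟩, fun z => (hqlo z).trans (hgq z),
    ?_, ?_⟩
  · intro a b hb
    have hcirc : ∀ θ : ℝ, ‖Complex.exp (θ * Complex.I) • b‖ ≤ 1 / 16 := by
      intro θ
      rw [norm_smul, lext_ecirc_norm, one_mul]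
      exact hb
    by_cases ha : ‖a‖ < 19 / 10
    · -- everything happens in the ball of radius 2
      have hin : ∀ ζ : ℂ, ‖ζ‖ ≤ 1 → a + ζ • b ∈ ball (0 : Cn n) 2 := by
        intro ζ hζ
        rw [mem_ball_zero_iff]
        have h2 : ‖ζ • b‖ ≤ 1 / 16 := by
          rw [norm_smul]
          nlinarith [norm_nonneg ζ, norm_nonneg b]
        have := norm_add_le a (ζ • b)
        linarith
      have hin' : ∀ θ : ℝ, a + Complex.exp (θ * Complex.I) • b ∈ ball (0 : Cn n) 2 :=
        fun θ => hin _ (lext_ecirc_norm θ).le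
      have hvs := hF.submean (Real.exp (-t)) (Real.exp_pos _) a b hin
      have hqs := lext_q_submean a b
      -- integrability
      have hvi : IntervalIntegrable (fun θ : ℝ => v (a + Complex.exp (θ * Complex.I) • b))
          volume 0 (2 * Real.pi) := by
        have hu : UpperSemicontinuous (fun θ : ℝ => v (a + Complex.exp (θ * Complex.I) • b)) := by
          intro θ y hy
          have h3 := hvusc _ (hin' θ) y hy
          rw [hopen.nhdsWithin_eq (hin' θ)] at h3
          exact ((lext_circ_cont a b).tendsto θ).eventually h3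
        have hmeas : Measurable (fun θ : ℝ => v (a + Complex.exp (θ * Complex.I) • b)) :=
          hu.measurable
        rw [intervalIntegrable_iff]
        refine Measure.integrableOn_of_bounded (M := t) ?_ hmeas.aestronglyMeasurable ?_
        · rw [uIoc_of_le Real.two_pi_pos.le]
          exact measure_Ioc_lt_top.ne
        · refine ae_of_all _ (fun θ => ?_)
          rw [Real.norm_eq_abs, abs_le]
          exact ⟨hvlo _, (hvhi _ (hin' θ)).trans ht0.le⟩
      have hqi : IntervalIntegrable (fun θ : ℝ => q (a + Complex.exp (θ * Complex.I) • b))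
          volume 0 (2 * Real.pi) := (hqc.comp (lext_circ_cont a b)).intervalIntegrable _ _
      have hgi : IntervalIntegrable (fun θ : ℝ => g (a + Complex.exp (θ * Complex.I) • b))
          volume 0 (2 * Real.pi) := by
        have e : (fun θ : ℝ => g (a + Complex.exp (θ * Complex.I) • b)) =
            fun θ : ℝ => max (v (a + Complex.exp (θ * Complex.I) • b) / (16 * t))
              (q (a + Complex.exp (θ * Complex.I) • b)) := by
          funext θ
          exact hg1 _ (by simpa using hin' θ)
        rw [e]
        have h3 := hvi.div_const (16 * t)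
        exact ⟨h3.1.sup hqi.1, h3.2.sup hqi.2⟩
      have ha2 : ‖a‖ < 2 := by linarith
      rw [hg1 a ha2]
      apply max_le
      · have h3 : (2 * Real.pi)⁻¹ * ∫ θ in (0 : ℝ)..(2 * Real.pi),
            v (a + Complex.exp (θ * Complex.I) • b) / (16 * t) ≤ (2 * Real.pi)⁻¹ *
            ∫ θ in (0 : ℝ)..(2 * Real.pi), g (a + Complex.exp (θ * Complex.I) • b) := by
          refine mul_le_mul_of_nonneg_left ?_ (by positivity)
          refine intervalIntegral.integral_mono_on Real.two_pi_pos.le (hvi.div_const _) hgi ?_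
          intro θ _
          rw [hg1 _ (by simpa using hin' θ)]
          exact le_max_left _ _
        refine le_trans ?_ h3
        rw [intervalIntegral.integral_div, ← mul_div_assoc]
        exact div_le_div_of_nonneg_right hvs h16.le
      · refine hqs.trans ?_
        refine mul_le_mul_of_nonneg_left ?_ (by positivity)
        refine intervalIntegral.integral_mono_on Real.two_pi_pos.le hqi hgi ?_
        intro θ _
        exact hgq _
    · have hout : ∀ θ : ℝ, 9 / 5 < ‖a + Complex.exp (θ * Complex.I) • b‖ := by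
        intro θ
        have h2 := hcirc θ
        have h3 := norm_sub_norm_le a (-(Complex.exp (θ * Complex.I) • b))
        rw [norm_neg, sub_neg_eq_add] at h3
        linarith
      have ha5 : 9 / 5 < ‖a‖ := by linarith
      rw [hg2 a ha5]
      have e : (fun θ : ℝ => g (a + Complex.exp (θ * Complex.I) • b)) =
          fun θ : ℝ => q (a + Complex.exp (θ * Complex.I) • b) := by
        funext θ
        exact hg2 _ (hout θ)
      rw [e]
      exact lext_q_submean a b
  · intro z
    by_cases h : ‖z‖ < 2
    · rw [hg1 z h]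
      apply max_le
      · have h2 := hvhi z (by simpa using h)
        have h3 : v z / (16 * t) ≤ 0 := div_nonpos_of_nonpos_of_nonneg h2 h16.le
        have h4 : 0 ≤ Real.log (1 + ‖z‖ ^ 2) := Real.log_nonneg (by nlinarith [norm_nonneg z])
        linarith
      · exact hqhi z
    · simp only [hg, if_neg h]
      exact hqhi z
  · intro z hz
    have h2 : ‖z‖ < 2 := by linarith
    rw [hg1 z h2]
    have h3 : q z ≤ v z / (16 * t) := by
      rw [le_div_iff₀ h16]
      have := hqneg z hz
      have := hvlo z
      linarith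
    rw [max_eq_left h3]
    field_simp
    rfl

end HMA
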