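import Pool.Agent.H85.MA.Defs

/-! # Module PSHB: sub-mean value inequality on balls -/

open MeasureTheory Metric Set
open scoped ENNReal Topology ContDiff

namespace HMA

theorem PshR.toS {n : ℕ} {u : Cn n → ℝ} (hu : PshR u) : PshS u := by
  exact ⟨hu.usc, hu.bdd, fun a b _ => hu.submean a b⟩

theorem PshR.const_mul {n : ℕ} {u : Cn n → ℝ} (hu : PshR u) {c : ℝ} (hc : 0 < c) :
    PshR (fun z => c * u z) := by
  refine ⟨?_, ?_, ?_⟩
  · have hg : Continuous (fun t : ℝ => c * t) := continuous_const.mul continuous_id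
    exact hg.comp_upperSemicontinuous hu.usc (fun x y h => mul_le_mul_of_nonneg_left h hc.le)
  · obtain ⟨L, hL⟩ := hu.bdd
    refine ⟨c * L, fun z => ?_⟩
    have := mul_le_mul_of_nonneg_left (hL z) hc.le
    linarith
  · intro a b
    rw [intervalIntegral.integral_const_mul]
    have := mul_le_mul_of_nonneg_left (hu.submean a b) hc.le
    linarith

theorem pshR_log_max {n : ℕ} {F : Cn n → ℝ} (hF : LogPsh F) {δ : ℝ} (hδ : 0 < δ) :
    PshR (fun z => Real.log (max (F z) δ)) := by
  refine ⟨?_, ?_, ?_⟩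
  · have hg : Continuous (fun t : ℝ => Real.log (max t δ)) := by
      refine Continuous.log (continuous_id.max continuous_const) (fun x => ?_)
      exact (lt_max_of_lt_right hδ).ne'
    exact hg.comp_upperSemicontinuous hF.usc (fun x y h =>
      Real.log_le_log (lt_max_of_lt_right hδ) (max_le_max h le_rfl))
  · refine ⟨- Real.log δ, fun z => ?_⟩
    rw [neg_neg]
    exact Real.log_le_log hδ (le_max_right _ _)
  · intro a b
    exact hF.submean δ hδ a b

theorem PshBall_bdd {n : ℕ} {u : Cn n → ℝ} (hu : UpperSemicontinuous u)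
    (hb : ∃ L : ℝ, ∀ z, -L ≤ u z) {K : Set (Cn n)} (hK : IsCompact K) :
    ∃ B : ℝ, 0 ≤ B ∧ ∀ z ∈ K, ‖u z‖ ≤ B := by
  obtain ⟨L, hL⟩ := hb
  obtain ⟨M, hM⟩ := (hu.upperSemicontinuousOn K).bddAbove_of_isCompact hK
  refine ⟨max |L| |M|, le_max_of_le_left (abs_nonneg _), fun z hz => ?_⟩
  rw [Real.norm_eq_abs, abs_le]
  have h1 := hM (mem_image_of_mem u hz)
  have h2 := hL z
  constructor
  · have : L ≤ max |L| |M| := (le_abs_self L).trans (le_max_left _ _)
    linarith
  · exact h1.trans ((le_abs_self M).trans (le_max_right _ _))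

theorem usc_locInt {n : ℕ} {u : Cn n → ℝ} (hu : UpperSemicontinuous u)
    (hb : ∃ L : ℝ, ∀ z, -L ≤ u z) : LocallyIntegrable u volume := by
  rw [locallyIntegrable_iff]
  intro k hk
  obtain ⟨B, _, hB⟩ := PshBall_bdd hu hb hk
  refine Measure.integrableOn_of_bounded (M := B) hk.measure_lt_top.ne
    hu.measurable.aestronglyMeasurable ?_
  exact (ae_restrict_iff' hk.measurableSet).2 (Filter.Eventually.of_forall hB)

/-- multiplication by `exp (iθ)` preserves the volume -/
theorem PshBall_mp {n : ℕ} (θ : ℝ) : MeasurePreserving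
    (fun x : Cn n => Complex.exp (θ * Complex.I) • x) volume volume := by
  have h1 : ‖Complex.exp (θ * Complex.I)‖ = 1 := Complex.norm_exp_ofReal_mul_I θ
  have h0 : Complex.exp (θ * Complex.I) ≠ 0 := Complex.exp_ne_zero _
  let L : Cn n ≃ₗ[ℝ] Cn n :=
    (LinearEquiv.smulOfNeZero ℂ (Cn n) (Complex.exp (θ * Complex.I)) h0).restrictScalars ℝ
  let e : Cn n ≃ₗᵢ[ℝ] Cn n := ⟨L, fun x => by
    change ‖Complex.exp (θ * Complex.I) • x‖ = ‖x‖
    rw [norm_smul, h1, one_mul]⟩
  exact e.measurePreserving

/-- if the sub-mean value inequality holds on complex circles of radius `≤ ρ`, it holds for all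
bounded weights with support in the ball of radius `ρ`, invariant under `x ↦ exp (iθ) x` -/
theorem submean_weight {n : ℕ} {u : Cn n → ℝ} (hu : UpperSemicontinuous u)
    (hb : ∃ L : ℝ, ∀ z, -L ≤ u z) {ρ : ℝ} (hρ : 0 < ρ)
    (hs : ∀ a b : Cn n, ‖b‖ ≤ ρ → u a ≤ (2 * Real.pi)⁻¹ *
      ∫ θ in (0 : ℝ)..(2 * Real.pi), u (a + Complex.exp (θ * Complex.I) • b))
    (w : Cn n → ℝ) (hwm : Measurable w) (hw0 : ∀ x, 0 ≤ w x) (hwb : ∃ M, ∀ x, w x ≤ M)
    (hws : ∀ x, ρ < ‖x‖ → w x = 0)
    (hwr : ∀ (θ : ℝ) (x : Cn n), w (Complex.exp (θ * Complex.I) • x) = w x) (a : Cn n) :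
    Integrable (fun x => u (a + x) * w x) volume ∧ u a * ∫ x, w x ≤ ∫ x, u (a + x) * w x := by
  obtain ⟨M, hM⟩ := hwb
  have hM0 : 0 ≤ M := (hw0 0).trans (hM 0)
  obtain ⟨B, hB0, hB⟩ := PshBall_bdd hu hb (isCompact_closedBall a ρ)
  set g : Cn n → ℝ := (closedBall (0 : Cn n) ρ).indicator (fun _ => B * M) with hg
  have hgi : Integrable g volume :=
    (integrable_indicator_iff measurableSet_closedBall).2
      (integrableOn_const (measure_closedBall_lt_top).ne)
  have hbound : ∀ x y : Cn n, ‖x‖ = ‖y‖ → ‖u (a + x) * w y‖ ≤ g y := by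
    intro x y hxy
    by_cases hx : ‖y‖ ≤ ρ
    · have hyB : y ∈ closedBall (0 : Cn n) ρ := by simpa using hx
      rw [hg, indicator_of_mem hyB, norm_mul]
      refine mul_le_mul (hB _ ?_) ?_ (norm_nonneg _) hB0
      · rw [mem_closedBall, dist_eq_norm, add_sub_cancel_left, hxy]; exact hx
      · rw [Real.norm_of_nonneg (hw0 y)]; exact hM y
    · have hyB : y ∉ closedBall (0 : Cn n) ρ := by simpa using lt_of_not_ge hx
      rw [hg, indicator_of_notMem hyB, hws y (lt_of_not_ge hx), mul_zero, norm_zero]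
  have hwi : Integrable w volume := by
    have h1 : Integrable ((closedBall (0 : Cn n) ρ).indicator (fun _ => M)) volume :=
      (integrable_indicator_iff measurableSet_closedBall).2
        (integrableOn_const (measure_closedBall_lt_top).ne)
    refine h1.mono' hwm.aestronglyMeasurable (Filter.Eventually.of_forall fun y => ?_)
    by_cases hx : ‖y‖ ≤ ρ
    · have hyB : y ∈ closedBall (0 : Cn n) ρ := by simpa using hx
      rw [indicator_of_mem hyB, Real.norm_of_nonneg (hw0 y)]; exact hM y
    · have hyB : y ∉ closedBall (0 : Cn n) ρ := by simpa using lt_of_not_ge hx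
      rw [indicator_of_notMem hyB, hws y (lt_of_not_ge hx), norm_zero]
  have hint : Integrable (fun x => u (a + x) * w x) volume := by
    refine hgi.mono' ?_ (Filter.Eventually.of_forall fun y => hbound y y rfl)
    exact ((hu.measurable.comp (measurable_const_add a)).mul hwm).aestronglyMeasurable
  refine ⟨hint, ?_⟩
  set F : ℝ → Cn n → ℝ := fun θ x => u (a + Complex.exp (θ * Complex.I) • x) * w x with hF
  have hnorm : ∀ (θ : ℝ) (x : Cn n), ‖Complex.exp (θ * Complex.I) • x‖ = ‖x‖ := fun θ x => by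
    rw [norm_smul, Complex.norm_exp_ofReal_mul_I, one_mul]
  have hFint : Integrable (Function.uncurry F)
      ((volume.restrict (Ioc 0 (2 * Real.pi))).prod volume) := by
    have h1 : Integrable (fun p : ℝ × Cn n => g p.2)
      ((volume.restrict (Ioc 0 (2 * Real.pi))).prod volume) := hgi.comp_snd _
    refine h1.mono' ?_ (Filter.Eventually.of_forall fun p => hbound _ _ (hnorm p.1 p.2))
    have hc : Continuous (fun p : ℝ × Cn n => a + Complex.exp (p.1 * Complex.I) • p.2) := by
      fun_prop
    exact ((hu.measurable.comp hc.measurable).mul (hwm.comp measurable_snd)).aestronglyMeasurable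
  have hrot : ∀ θ : ℝ, ∫ x, F θ x = ∫ x, u (a + x) * w x := by
    intro θ
    have h1 := (PshBall_mp (n := n) θ).integral_comp' (g := fun x => u (a + x) * w x)
      (f := (MeasurableEquiv.smul₀ (Complex.exp (θ * Complex.I)) (Complex.exp_ne_zero _)))
    rw [← h1]
    refine integral_congr_ae (Filter.Eventually.of_forall fun x => ?_)
    simp only [hF]
    change _ = u (a + Complex.exp (θ * Complex.I) • x) * w (Complex.exp (θ * Complex.I) • x)
    rw [hwr]
  have hswap := integral_integral_swap (f := F) hFint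
  have hpi : 0 < 2 * Real.pi := by positivity
  have h2 : ∫ x, u (a + x) * w x = (2 * Real.pi)⁻¹ * ∫ x, ∫ θ in Ioc 0 (2 * Real.pi), F θ x := by
    rw [← hswap]
    simp_rw [hrot]
    rw [integral_const]
    simp only [measureReal_restrict_apply_univ, Real.volume_real_Ioc, smul_eq_mul]
    rw [sub_zero, max_eq_left hpi.le, ← mul_assoc, inv_mul_cancel₀ hpi.ne', one_mul]
  rw [h2, ← integral_const_mul, ← integral_const_mul]
  refine integral_mono (hwi.const_mul _) (hFint.integral_prod_right.const_mul _) (fun x => ?_)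
  by_cases hx : ‖x‖ ≤ ρ
  · have h3 := hs a x hx
    rw [intervalIntegral.integral_of_le hpi.le] at h3
    have h4 : ∫ θ in Ioc 0 (2 * Real.pi), F θ x
        = (∫ θ in Ioc 0 (2 * Real.pi), u (a + Complex.exp (θ * Complex.I) • x)) * w x := by
      rw [← integral_mul_const]
    simp only
    rw [h4, ← mul_assoc]
    exact mul_le_mul_of_nonneg_right h3 (hw0 x)
  · have hw : w x = 0 := hws x (lt_of_not_ge hx)
    simp only [hF, hw, mul_zero, integral_zero, le_refl]

theorem submean_ball {n : ℕ} {u : Cn n → ℝ} (hu : UpperSemicontinuous u)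
    (hb : ∃ L : ℝ, ∀ z, -L ≤ u z) {ρ : ℝ} (hρ : 0 < ρ)
    (hs : ∀ a b : Cn n, ‖b‖ ≤ ρ → u a ≤ (2 * Real.pi)⁻¹ *
      ∫ θ in (0 : ℝ)..(2 * Real.pi), u (a + Complex.exp (θ * Complex.I) • b)) (a : Cn n) :
    IntegrableOn u (ball a ρ) volume ∧
      u a * volume.real (ball a ρ) ≤ ∫ x in ball a ρ, u x := by
  set w : Cn n → ℝ := (ball (0 : Cn n) ρ).indicator (fun _ => 1) with hw
  obtain ⟨h1, h2⟩ := submean_weight hu hb hρ hs w
    (measurable_const.indicator measurableSet_ball)
    (fun x => indicator_nonneg (fun _ _ => zero_le_one) x)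
    ⟨1, fun x => indicator_le_self' (fun _ _ => zero_le_one) x⟩
    (fun x hx => indicator_of_notMem (by simpa using hx.le) _)
    (fun θ x => by
      have hn : ‖Complex.exp (θ * Complex.I) • x‖ = ‖x‖ := by
        rw [norm_smul, Complex.norm_exp_ofReal_mul_I, one_mul]
      simp only [hw, indicator, mem_ball_zero_iff, hn]) a
  have hf : ∀ x, u (a + x) * w x = (ball a ρ).indicator u (a + x) := by
    intro x
    by_cases hx : x ∈ ball (0 : Cn n) ρ
    · have hx' : a + x ∈ ball a ρ := by
        rw [mem_ball, dist_eq_norm, add_sub_cancel_left]; simpa using hx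
      rw [hw, indicator_of_mem hx, indicator_of_mem hx', mul_one]
    · have hx' : a + x ∉ ball a ρ := by
        rw [mem_ball, dist_eq_norm, add_sub_cancel_left]; simpa using hx
      rw [hw, indicator_of_notMem hx, indicator_of_notMem hx', mul_zero]
  simp_rw [hf] at h1 h2
  constructor
  · rw [← integrable_indicator_iff measurableSet_ball]
    have := (measurePreserving_add_left volume (-a)).integrable_comp_of_integrable h1
    simpa [Function.comp_def] using this
  · have h3 : ∫ x, w x = volume.real (ball a ρ) := by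
      rw [hw, integral_indicator measurableSet_ball, setIntegral_const, smul_eq_mul, mul_one,
        measureReal_def, measureReal_def, Measure.addHaar_ball_center volume a]
    have h4 : ∫ x, (ball a ρ).indicator u (a + x) = ∫ x in ball a ρ, u x := by
      rw [integral_add_left_eq_self (fun x => (ball a ρ).indicator u x) a,
        integral_indicator measurableSet_ball]
    rw [h3, h4] at h2
    exact h2

end HMA
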