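import Pool.Agent.H85.MA.Dbar2

/-! # Module SMOOTH1: smooth sub-mean functions have nonnegative Levi form -/

open MeasureTheory Metric Set
open scoped ENNReal Topology ContDiff

namespace HMA

/-- the mean of a trigonometric polynomial of degree two -/
theorem Smooth1_mean (c0 t L1 L2 A B C e : ℝ) :
    ∫ θ in (0 : ℝ)..(2 * Real.pi), (c0 + t * (Real.cos θ * L1 + Real.sin θ * L2) +
      t ^ 2 / 2 * (Real.cos θ ^ 2 * A + Real.cos θ * Real.sin θ * C + Real.sin θ ^ 2 * B + e)) =
      2 * Real.pi * (c0 + t ^ 2 / 2 * ((A + B) / 2 + e)) := by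
  have h := intervalIntegral.integral_eq_sub_of_hasDerivAt (a := 0) (b := 2 * Real.pi)
    (f := fun θ => c0 * θ + t * (Real.sin θ * L1 - Real.cos θ * L2) +
      t ^ 2 / 2 * ((θ / 2 + Real.sin θ * Real.cos θ / 2) * A + Real.sin θ ^ 2 / 2 * C +
        (θ / 2 - Real.sin θ * Real.cos θ / 2) * B + e * θ))
    (f' := fun θ => c0 + t * (Real.cos θ * L1 + Real.sin θ * L2) +
      t ^ 2 / 2 * (Real.cos θ ^ 2 * A + Real.cos θ * Real.sin θ * C + Real.sin θ ^ 2 * B + e))
    (fun θ _ => ?_) (Continuous.intervalIntegrable (by fun_prop) _ _)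
  · rw [h]
    simp only [Real.sin_two_pi, Real.cos_two_pi, Real.sin_zero, Real.cos_zero]
    ring
  · have hs := Real.hasDerivAt_sin θ
    have hc := Real.hasDerivAt_cos θ
    have hi := hasDerivAt_id θ
    have h1 := (((hi.const_mul c0).add (((hs.mul_const L1).sub (hc.mul_const L2)).const_mul t)).add
      ((((((hi.div_const 2).add ((hs.mul hc).div_const 2)).mul_const A).add
        (((hs.pow 2).div_const 2).mul_const C)).add
        (((hi.div_const 2).sub ((hs.mul hc).div_const 2)).mul_const B)).add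
          (hi.const_mul e) |>.const_mul (t ^ 2 / 2)))
    refine h1.congr_deriv ?_
    have := Real.sin_sq_add_cos_sq θ
    simp only [Nat.cast_ofNat, Nat.add_one_sub_one, pow_one]
    linear_combination (t ^ 2 / 2 * (- A / 2 - B / 2)) * this

theorem lev_nonneg {n : ℕ} {v : Cn n → ℝ} (hv : ContDiff ℝ ∞ v) {r₀ : ℝ} (hr₀ : 0 < r₀)
    (hs : ∀ a b : Cn n, ‖b‖ ≤ r₀ → v a ≤ (2 * Real.pi)⁻¹ *
      ∫ θ in (0 : ℝ)..(2 * Real.pi), v (a + Complex.exp (θ * Complex.I) • b)) (z ξ : Cn n) :
    0 ≤ lev v z ξ := by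
  have hv1 : ContDiff ℝ ∞ (fderiv ℝ v) := hv.fderiv_right (m := ∞) le_rfl
  have hd0 : Differentiable ℝ v := hv.differentiable (by simp)
  have hd1 : Differentiable ℝ (fderiv ℝ v) := hv1.differentiable (by simp)
  set D2 := fderiv ℝ (fderiv ℝ v) with hD2
  have hD2c : Continuous D2 := hv1.continuous_fderiv (by simp)
  have hsec : ∀ w η : Cn n, fderiv ℝ (fun w => fderiv ℝ v w η) w η = D2 w η η := by
    intro w η
    have h1 : HasFDerivAt (fun w => fderiv ℝ v w η)
        ((ContinuousLinearMap.apply ℝ ℝ η).comp (D2 w)) w :=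
      (ContinuousLinearMap.apply ℝ ℝ η).hasFDerivAt.comp w (hd1 w).hasFDerivAt
    rw [h1.fderiv]
    rfl
  set A := D2 z ξ ξ with hA
  set B := D2 z (Complex.I • ξ) (Complex.I • ξ) with hB
  set C := D2 z ξ (Complex.I • ξ) + D2 z (Complex.I • ξ) ξ with hC
  have hlev : lev v z ξ = (A + B) / 4 := by
    unfold lev
    rw [hsec, hsec]
  -- decomposition of the rotated vector
  have hrot : ∀ θ : ℝ, Complex.exp (θ * Complex.I) • ξ =
      Real.cos θ • ξ + Real.sin θ • (Complex.I • ξ) := by
    intro θ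
    rw [Complex.exp_mul_I, add_smul, ← Complex.ofReal_cos, ← Complex.ofReal_sin, mul_smul]
    rfl
  -- second order estimate
  have key : ∀ ε : ℝ, 0 < ε → 0 ≤ (A + B) / 2 + ε := by
    intro ε hε
    -- choose δ
    have hcont : Continuous (fun w => ‖D2 w - D2 z‖) :=
      (continuous_norm (E := (Cn n →L[ℝ] Cn n →L[ℝ] ℝ))).comp (hD2c.sub continuous_const)
    have hM : 0 < ‖ξ‖ ^ 2 + 1 := by positivity
    have hev : ∀ᶠ w in 𝓝 z, ‖D2 w - D2 z‖ < ε / (‖ξ‖ ^ 2 + 1) :=
      hcont.continuousAt.eventually_lt continuousAt_const (by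
        rw [sub_self]
        have h0 : ‖(0 : Cn n →L[ℝ] Cn n →L[ℝ] ℝ)‖ = 0 :=
          norm_zero (E := (Cn n →L[ℝ] Cn n →L[ℝ] ℝ))
        rw [h0]
        positivity)
    obtain ⟨δ, hδ, hδ'⟩ := Metric.eventually_nhds_iff.1 hev
    set t : ℝ := min (r₀ / (‖ξ‖ + 1)) (δ / (2 * (‖ξ‖ + 1))) with ht
    have hξ1 : 0 < ‖ξ‖ + 1 := by positivity
    have ht0 : 0 < t := lt_min (by positivity) (by positivity)
    have ht1 : t * (‖ξ‖ + 1) ≤ r₀ := by
      have := min_le_left (r₀ / (‖ξ‖ + 1)) (δ / (2 * (‖ξ‖ + 1)))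
      rw [← ht, le_div_iff₀ hξ1] at this
      exact this
    have ht2 : t * (‖ξ‖ + 1) ≤ δ / 2 := by
      have := min_le_right (r₀ / (‖ξ‖ + 1)) (δ / (2 * (‖ξ‖ + 1)))
      rw [← ht, le_div_iff₀ (by positivity)] at this
      linarith
    have hnorm : ∀ θ : ℝ, ‖Complex.exp (θ * Complex.I) • ξ‖ = ‖ξ‖ := by
      intro θ
      rw [norm_smul, Complex.norm_exp_ofReal_mul_I, one_mul]
    -- pointwise bound
    have hpt : ∀ θ : ℝ, v (z + Complex.exp (θ * Complex.I) • (t • ξ)) ≤
        v z + t * (Real.cos θ * fderiv ℝ v z ξ + Real.sin θ * fderiv ℝ v z (Complex.I • ξ)) +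
        t ^ 2 / 2 * (Real.cos θ ^ 2 * A + Real.cos θ * Real.sin θ * C + Real.sin θ ^ 2 * B +
          ε) := by
      intro θ
      set η := Complex.exp (θ * Complex.I) • ξ with hη
      have e1 : Complex.exp (θ * Complex.I) • (t • ξ) = t • η := by
        rw [hη, smul_comm]
      rw [e1]
      have hline : ∀ s : ℝ, HasDerivAt (fun s : ℝ => z + s • η) η s := by
        intro s
        simpa using ((hasDerivAt_id s).smul_const η).const_add z
      have hh : ∀ s : ℝ, HasDerivAt (fun s : ℝ => v (z + s • η)) (fderiv ℝ v (z + s • η) η) s :=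
        fun s => (hd0 (z + s • η)).hasFDerivAt.comp_hasDerivAt s (hline s)
      have hh' : ∀ s : ℝ, HasDerivAt (fun s : ℝ => fderiv ℝ v (z + s • η) η)
          (D2 (z + s • η) η η) s := by
        intro s
        have h1 : HasDerivAt (fun s : ℝ => fderiv ℝ v (z + s • η)) (D2 (z + s • η) η) s :=
          (hd1 (z + s • η)).hasFDerivAt.comp_hasDerivAt s (hline s)
        exact ((ContinuousLinearMap.apply ℝ ℝ η).hasFDerivAt.comp_hasDerivAt s h1)
      set K := D2 z η η + ε with hK
      have hK' : ∀ s ∈ Ico (0 : ℝ) t, D2 (z + s • η) η η ≤ K := by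
        intro s hs'
        have h1 : dist (z + s • η) z < δ := by
          rw [dist_eq_norm, add_sub_cancel_left, norm_smul, hη, hnorm, Real.norm_eq_abs,
            abs_of_nonneg hs'.1]
          have : s * ‖ξ‖ ≤ t * (‖ξ‖ + 1) := by
            have := hs'.2.le
            gcongr
            linarith
          linarith
        have h2 := hδ' h1
        have h3 : ‖(D2 (z + s • η) - D2 z) η η‖ ≤ ‖D2 (z + s • η) - D2 z‖ * ‖η‖ * ‖η‖ :=
          ContinuousLinearMap.le_opNorm₂ _ _ _
        have h4 : ‖η‖ = ‖ξ‖ := hnorm θ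
        rw [h4] at h3
        have h5 : ‖D2 (z + s • η) - D2 z‖ * ‖ξ‖ * ‖ξ‖ ≤ ε := by
          calc ‖D2 (z + s • η) - D2 z‖ * ‖ξ‖ * ‖ξ‖
              ≤ (ε / (‖ξ‖ ^ 2 + 1)) * (‖ξ‖ ^ 2 + 1) := by
                rw [mul_assoc, ← pow_two]
                gcongr
                linarith
            _ = ε := by field_simp
        have h6 : (D2 (z + s • η) - D2 z) η η = D2 (z + s • η) η η - D2 z η η := rfl
        have h7 := (Real.le_norm_self _).trans (h3.trans h5)
        rw [h6] at h7
        linarith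
      have hstep1 : ∀ s ∈ Icc (0 : ℝ) t, fderiv ℝ v (z + s • η) η ≤ fderiv ℝ v z η + K * s := by
        intro s hs'
        refine image_le_of_deriv_right_le_deriv_boundary (a := 0) (b := t)
          (f := fun s : ℝ => fderiv ℝ v (z + s • η) η) (f' := fun s => D2 (z + s • η) η η)
          (B := fun s => fderiv ℝ v z η + K * s) (B' := fun _ => K)
          (fun s _ => (hh' s).continuousAt.continuousWithinAt)
          (fun s _ => (hh' s).hasDerivWithinAt) (by simp)
          (Continuous.continuousOn (by fun_prop)) (fun s _ => ?_) hK' hs'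
        have := ((hasDerivAt_id s).const_mul K).const_add (fderiv ℝ v z η)
        simpa using this.hasDerivWithinAt
      have hstep2 : v (z + t • η) ≤ v z + t * fderiv ℝ v z η + K * t ^ 2 / 2 := by
        have := image_le_of_deriv_right_le_deriv_boundary (a := 0) (b := t)
          (f := fun s : ℝ => v (z + s • η)) (f' := fun s => fderiv ℝ v (z + s • η) η)
          (B := fun s => v z + s * fderiv ℝ v z η + K * s ^ 2 / 2)
          (B' := fun s => fderiv ℝ v z η + K * s)
          (fun s _ => (hh s).continuousAt.continuousWithinAt)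
          (fun s _ => (hh s).hasDerivWithinAt) (by simp)
          (Continuous.continuousOn (by fun_prop)) (fun s _ => ?_)
          (fun s hs' => hstep1 s ⟨hs'.1, hs'.2.le⟩) (right_mem_Icc.2 ht0.le)
        · exact this
        · have h1 := (((hasDerivAt_id s).mul_const (fderiv ℝ v z η)).const_add (v z)).add
            (((hasDerivAt_pow 2 s).const_mul K).div_const 2)
          refine (h1.congr_deriv ?_).hasDerivWithinAt
          simp only [Nat.cast_ofNat, Nat.add_one_sub_one, pow_one]
          ring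
      refine hstep2.trans (le_of_eq ?_)
      have hL : fderiv ℝ v z η = Real.cos θ * fderiv ℝ v z ξ +
          Real.sin θ * fderiv ℝ v z (Complex.I • ξ) := by
        rw [hη, hrot, map_add, map_smul, map_smul]
        rfl
      have hQ : D2 z η η = Real.cos θ ^ 2 * A + Real.cos θ * Real.sin θ * C +
          Real.sin θ ^ 2 * B := by
        rw [hη, hrot]
        simp only [map_add, map_smul, add_apply, smul_apply,
          smul_eq_mul]
        rw [hA, hB, hC]
        ring
      rw [hK, hL, hQ]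
      ring
    -- integrate
    have hb : ‖t • ξ‖ ≤ r₀ := by
      rw [norm_smul, Real.norm_eq_abs, abs_of_pos ht0]
      have : t * ‖ξ‖ ≤ t * (‖ξ‖ + 1) := by gcongr; linarith
      linarith
    have h1 := hs z (t • ξ) hb
    have hvc : Continuous v := hd0.continuous
    have h2 : ∫ θ in (0 : ℝ)..(2 * Real.pi), v (z + Complex.exp (θ * Complex.I) • (t • ξ)) ≤
        ∫ θ in (0 : ℝ)..(2 * Real.pi), (v z + t * (Real.cos θ * fderiv ℝ v z ξ +
          Real.sin θ * fderiv ℝ v z (Complex.I • ξ)) +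
        t ^ 2 / 2 * (Real.cos θ ^ 2 * A + Real.cos θ * Real.sin θ * C + Real.sin θ ^ 2 * B +
          ε)) := by
      refine intervalIntegral.integral_mono (by positivity)
        (Continuous.intervalIntegrable (by fun_prop) _ _)
        (Continuous.intervalIntegrable (by fun_prop) _ _) hpt
    rw [Smooth1_mean] at h2
    have hpi : 0 < 2 * Real.pi := by positivity
    have h3 : v z ≤ v z + t ^ 2 / 2 * ((A + B) / 2 + ε) := by
      refine h1.trans ?_
      calc (2 * Real.pi)⁻¹ * _ ≤ (2 * Real.pi)⁻¹ * (2 * Real.pi *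
            (v z + t ^ 2 / 2 * ((A + B) / 2 + ε))) := by gcongr
        _ = _ := by field_simp
    have h4 : 0 ≤ t ^ 2 / 2 * ((A + B) / 2 + ε) := by linarith
    exact nonneg_of_mul_nonneg_right h4 (by positivity)
  rw [hlev]
  have h0 : 0 ≤ (A + B) / 2 := by
    refine le_of_forall_pos_le_add fun ε hε => ?_
    have := key ε hε
    linarith
  linarith

end HMA
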