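import Pool.Agent.H85.MA.Dbar2

/-! # Module WEYL: weakly holomorphic functions are holomorphic -/

open MeasureTheory Metric Set
open scoped ENNReal Topology ContDiff

namespace HMA

open ContinuousLinearMap in
/-- convolution of a real function and a complex function -/
noncomputable abbrev Weyl_C {n : ℕ} (φ : Cn n → ℝ) (h : Cn n → ℂ) : Cn n → ℂ :=
  convolution φ h (lsmul ℝ ℝ) volume

/-- multiplication by `exp (iθ)` -/
noncomputable def Weyl_rot (n : ℕ) (θ : ℝ) : Cn n ≃ₗᵢ[ℝ] Cn n where
  toLinearEquiv := (LinearEquiv.smulOfNeZero ℂ (Cn n) (Complex.exp (θ * Complex.I))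
    (Complex.exp_ne_zero _)).restrictScalars ℝ
  norm_map' x := by
    show ‖Complex.exp (θ * Complex.I) • x‖ = ‖x‖
    rw [norm_smul, Complex.norm_exp_ofReal_mul_I, one_mul]

theorem Weyl_rot_apply (n : ℕ) (θ : ℝ) (x : Cn n) :
    Weyl_rot n θ x = Complex.exp (θ * Complex.I) • x := rfl

theorem Weyl_mean {n : ℕ} {G : Cn n → ℂ} (hG : Differentiable ℂ G) {ρ : Cn n → ℝ}
    (hc : Continuous ρ) (hs : HasCompactSupport ρ)
    (hr : ∀ (θ : ℝ) (x : Cn n), ρ (Complex.exp (θ * Complex.I) • x) = ρ x) (h1 : ∫ x, ρ x = 1)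
    (z : Cn n) : Weyl_C ρ G z = G z := by
  have hrot : ∀ θ : ℝ, ∫ t, ρ t • G (z - Complex.exp (θ * Complex.I) • t) = Weyl_C ρ G z := by
    intro θ
    have h2 := (Weyl_rot n θ).measurePreserving.integral_comp
      (Weyl_rot n θ).toHomeomorph.measurableEmbedding (fun t => ρ t • G (z - t))
    simp only [Weyl_rot_apply, hr] at h2
    rw [h2]
    rfl
  have hcont : Continuous (Function.uncurry fun (θ : ℝ) (t : Cn n) =>
      ρ t • G (z - Complex.exp (θ * Complex.I) • t)) := by
    have := hG.continuous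
    unfold Function.uncurry
    fun_prop
  have hint : Integrable (Function.uncurry fun (θ : ℝ) (t : Cn n) =>
      ρ t • G (z - Complex.exp (θ * Complex.I) • t))
      ((volume.restrict (uIoc 0 (2 * Real.pi))).prod volume) := by
    have hsupp : Function.support (Function.uncurry fun (θ : ℝ) (t : Cn n) =>
        ρ t • G (z - Complex.exp (θ * Complex.I) • t)) ⊆ (univ : Set ℝ) ×ˢ tsupport ρ := by
      rintro ⟨θ, t⟩ ht
      refine ⟨mem_univ _, subset_tsupport _ ?_⟩
      intro h0
      apply ht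
      show ρ t • _ = 0
      rw [h0, zero_smul]
    rw [← integrableOn_iff_integrable_of_support_subset hsupp]
    have h3 : IntegrableOn (Function.uncurry fun (θ : ℝ) (t : Cn n) =>
        ρ t • G (z - Complex.exp (θ * Complex.I) • t)) (uIcc 0 (2 * Real.pi) ×ˢ tsupport ρ)
        (volume.prod volume) :=
      hcont.continuousOn.integrableOn_compact (isCompact_uIcc.prod hs)
    have h4 := h3.mono_set (prod_mono_left uIoc_subset_uIcc)
    rw [IntegrableOn, ← Measure.prod_restrict] at h4
    rw [IntegrableOn, ← Measure.prod_restrict, Measure.restrict_univ]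
    exact h4
  have hswap := intervalIntegral_integral_swap hint
  simp only [hrot] at hswap
  rw [intervalIntegral.integral_const, sub_zero] at hswap
  have hinner : ∀ t : Cn n, ∫ θ in (0 : ℝ)..(2 * Real.pi),
      ρ t • G (z - Complex.exp (θ * Complex.I) • t) = (2 * Real.pi) • (ρ t • G z) := by
    intro t
    rw [intervalIntegral.integral_smul]
    have h5 : Real.circleAverage (fun w : ℂ => G (z - w • t)) 0 1 = G (z - (0 : ℂ) • t) := by
      apply DiffContOnCl.circleAverage
      apply Differentiable.diffContOnCl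
      exact hG.comp ((differentiable_const _).sub (differentiable_id.smul_const _))
    rw [Real.circleAverage_def] at h5
    simp only [circleMap, zero_add, Complex.ofReal_one, one_mul, zero_smul, sub_zero] at h5
    have h6 : (2 * Real.pi) ≠ 0 := by positivity
    rw [inv_smul_eq_iff₀ h6] at h5
    rw [h5, smul_comm]
  simp only [hinner] at hswap
  rw [integral_smul, integral_smul_const, h1, one_smul] at hswap
  have h6 : (2 * Real.pi) ≠ 0 := by positivity
  exact smul_right_injective _ h6 hswap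

theorem Weyl_hol {n : ℕ} {h : Cn n → ℂ} (hh : LocallyIntegrable h volume)
    (h0 : ∀ j : Fin n, ∀ f : Cn n → ℂ, Tst f → ∫ z, h z * db j f z = 0) {φ : Cn n → ℝ}
    (hφ : ContDiff ℝ ∞ φ) (hc : HasCompactSupport φ) : Differentiable ℂ (Weyl_C φ h) := by
  have hsm : ContDiff ℝ ∞ (Weyl_C φ h) :=
    HasCompactSupport.contDiff_convolution_left _ hc hφ hh
  refine differentiable_of_db hsm fun j z => ?_
  have hφ1 : ContDiff ℝ 1 φ := hφ.of_le (by exact_mod_cast le_top)
  have hd : ∀ v, fderiv ℝ (Weyl_C φ h) z v = ∫ t, (fderiv ℝ φ (z - t) v) • h t := by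
    intro v
    have h1 : Weyl_C φ h = convolution h φ (ContinuousLinearMap.lsmul ℝ ℝ : ℝ →L[ℝ] ℂ →L[ℝ] ℂ).flip
      volume := by
      rw [convolution_flip]
    rw [h1, (HasCompactSupport.hasFDerivAt_convolution_right _ hc hh hφ1 z).fderiv]
    rw [convolution_precompR_apply _ hh (hc.fderiv ℝ) (hφ1.continuous_fderiv (by norm_num))]
    rfl
  have hI : ∀ v, Integrable (fun t => ((fderiv ℝ φ (z - t) v : ℝ) : ℂ) * h t) volume := by
    intro v
    have hcv : HasCompactSupport (fun t => fderiv ℝ φ t v) :=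
      (hc.fderiv ℝ).comp_left (g := fun L : Cn n →L[ℝ] ℝ => L v) rfl
    have hcc : Continuous (fun t => fderiv ℝ φ t v) :=
      (hφ1.continuous_fderiv (by norm_num)).clm_apply continuous_const
    have h2 := (HasCompactSupport.convolutionExists_right
      (ContinuousLinearMap.lsmul ℝ ℝ : ℝ →L[ℝ] ℂ →L[ℝ] ℂ).flip hcv hh hcc z)
    have h3 : Integrable (fun t => (fderiv ℝ φ (z - t) v) • h t) volume := h2
    simpa only [Complex.real_smul] using h3
  have hT : Tst (fun t => ((φ (z - t) : ℝ) : ℂ)) := by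
    refine ⟨?_, ?_⟩
    · exact Complex.ofRealCLM.contDiff.comp (hφ.comp (contDiff_const.sub contDiff_id))
    · have h4 : HasCompactSupport (fun t => φ (z - t)) := by
        have := hc.comp_homeomorph (Homeomorph.subLeft z)
        exact this
      exact h4.comp_left (g := fun x : ℝ => (x : ℂ)) Complex.ofReal_zero
  have hfd : ∀ t v, fderiv ℝ (fun t => ((φ (z - t) : ℝ) : ℂ)) t v = -((fderiv ℝ φ (z - t) v : ℝ) : ℂ) := by
    intro t v
    have h5 : HasFDerivAt φ (fderiv ℝ φ (z - t)) (z - t) :=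
      (hφ1.differentiable (by norm_num) _).hasFDerivAt
    have h6 : HasFDerivAt (fun t : Cn n => z - t) (-(ContinuousLinearMap.id ℝ (Cn n))) t :=
      (hasFDerivAt_id t).const_sub z
    have h7 := (Complex.ofRealCLM.hasFDerivAt (x := φ (z - t))).comp t (h5.comp t h6)
    have h8 : fderiv ℝ (fun t => ((φ (z - t) : ℝ) : ℂ)) t = _ := h7.fderiv
    rw [h8]
    simp
  have key := h0 j _ hT
  unfold db at key ⊢
  rw [hd, hd]
  simp only [hfd] at key
  have h9 : ∀ t, h t * ((-((fderiv ℝ φ (z - t) (bv n j) : ℝ) : ℂ) +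
      Complex.I * -((fderiv ℝ φ (z - t) (Complex.I • bv n j) : ℝ) : ℂ)) / 2) =
      (-1 / 2) * (((fderiv ℝ φ (z - t) (bv n j) : ℝ) : ℂ) * h t) +
      (-Complex.I / 2) * (((fderiv ℝ φ (z - t) (Complex.I • bv n j) : ℝ) : ℂ) * h t) := by
    intro t; ring
  simp only [h9] at key
  rw [integral_add ((hI _).const_mul _) ((hI _).const_mul _), integral_const_mul,
    integral_const_mul] at key
  simp only [Complex.real_smul]
  linear_combination -key

theorem Weyl_norm {n : ℕ} {h : Cn n → ℂ} (hh : LocallyIntegrable h volume) :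
    LocallyIntegrable (fun x => ‖h x‖) volume :=
  hh.mono hh.aestronglyMeasurable.norm (Filter.Eventually.of_forall fun x => by simp)

theorem Weyl_comm {n : ℕ} {h : Cn n → ℂ} (hh : LocallyIntegrable h volume) {φ ρ : Cn n → ℝ}
    (hφ : Continuous φ) (hc : HasCompactSupport φ) (hρ : Continuous ρ) (hcρ : HasCompactSupport ρ) :
    Weyl_C ρ (Weyl_C φ h) = Weyl_C φ (Weyl_C ρ h) := by
  have key : ∀ {φ ρ : Cn n → ℝ}, Continuous φ → HasCompactSupport φ → Continuous ρ →
      HasCompactSupport ρ → Weyl_C ρ (Weyl_C φ h) =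
      Weyl_C (convolution ρ φ (ContinuousLinearMap.lsmul ℝ ℝ) volume) h := by
    intro φ ρ hφ hc hρ hcρ
    funext x₀
    symm
    refine convolution_assoc _ _ _ _ ?_ hρ.aestronglyMeasurable hφ.aestronglyMeasurable
      hh.aestronglyMeasurable ?_ ?_ ?_
    · intro x y z
      simp [mul_assoc]
    · exact Filter.Eventually.of_forall fun y =>
        HasCompactSupport.convolutionExists_left _ hcρ hρ hφ.locallyIntegrable y
    · exact Filter.Eventually.of_forall fun y =>
        HasCompactSupport.convolutionExists_left _ hc.norm hφ.norm (Weyl_norm hh) y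
    · refine HasCompactSupport.convolutionExists_left _ hcρ.norm hρ.norm ?_ x₀
      exact (HasCompactSupport.continuous_convolution_left _ hc.norm hφ.norm (Weyl_norm hh)).locallyIntegrable
  rw [key hφ hc hρ hcρ, key hρ hcρ hφ hc]
  have : (ContinuousLinearMap.lsmul ℝ ℝ : ℝ →L[ℝ] ℝ →L[ℝ] ℝ).flip = ContinuousLinearMap.lsmul ℝ ℝ := by
    ext; simp
  rw [← convolution_flip (f := ρ) (g := φ), this]

theorem Weyl_bump (n : ℕ) : ∃ ρ : Cn n → ℝ, ContDiff ℝ ∞ ρ ∧ HasCompactSupport ρ ∧
    (∀ (θ : ℝ) (x : Cn n), ρ (Complex.exp (θ * Complex.I) • x) = ρ x) ∧ ∫ x, ρ x = 1 := by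
  set b : Cn n → ℝ := fun x => Real.smoothTransition (1 - ‖x‖ ^ 2) with hb
  have hbs : ContDiff ℝ ∞ b := Real.smoothTransition.contDiff.comp
    (contDiff_const.sub (contDiff_norm_sq ℝ))
  have hbc : HasCompactSupport b := by
    refine HasCompactSupport.intro (isCompact_closedBall 0 1) fun x hx => ?_
    have : 1 < ‖x‖ := by simpa using hx
    exact Real.smoothTransition.zero_of_nonpos (by nlinarith)
  have hpos : 0 < ∫ x, b x := by
    refine (integral_pos_iff_support_of_nonneg (fun x => Real.smoothTransition.nonneg _)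
      (hbs.continuous.integrable_of_hasCompactSupport hbc)).2 ?_
    refine (measure_ball_pos volume (0 : Cn n) one_pos).trans_le (measure_mono ?_)
    intro x hx
    have : ‖x‖ < 1 := by simpa using hx
    exact (Real.smoothTransition.pos_of_pos (by nlinarith [norm_nonneg x])).ne'
  refine ⟨fun x => (∫ x, b x)⁻¹ * b x, contDiff_const.mul hbs, ?_, ?_, ?_⟩
  · exact hbc.mul_left
  · intro θ x
    simp only [hb, norm_smul, Complex.norm_exp_ofReal_mul_I, one_mul]
  · rw [integral_const_mul, inv_mul_cancel₀ hpos.ne']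

theorem weyl {n : ℕ} {h : Cn n → ℂ} (hh : LocallyIntegrable h volume)
    (h0 : ∀ j : Fin n, ∀ f : Cn n → ℂ, Tst f → ∫ z, h z * db j f z = 0) :
    ∃ H : Cn n → ℂ, Differentiable ℂ H ∧ h =ᵐ[volume] H := by
  obtain ⟨ρ, hρ, hρc, hρr, hρ1⟩ := Weyl_bump n
  refine ⟨Weyl_C ρ h, Weyl_hol hh h0 hρ hρc, ?_⟩
  -- a sequence of bumps
  let φ : ℕ → ContDiffBump (0 : Cn n) := fun k =>
    { rIn := 1 / ((k : ℝ) + 1), rOut := 2 / ((k : ℝ) + 1), rIn_pos := by positivity,
      rIn_lt_rOut := by
        rw [div_lt_div_iff_of_pos_right (by positivity)]; norm_num }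
  have hφ0 : Filter.Tendsto (fun k => (φ k).rOut) Filter.atTop (𝓝 0) := by
    have := (tendsto_one_div_add_atTop_nhds_zero_nat (𝕜 := ℝ)).const_mul 2
    simpa [φ, div_eq_mul_inv] using this
  have hK : ∀ᶠ k in Filter.atTop, (φ k).rOut ≤ 2 * (φ k).rIn := by
    refine Filter.Eventually.of_forall fun k => ?_
    show 2 / ((k : ℝ) + 1) ≤ 2 * (1 / ((k : ℝ) + 1))
    rw [mul_one_div]
  have hae := ContDiffBump.ae_convolution_tendsto_right_of_locallyIntegrable hφ0 hK hh
  have hcont : Continuous (Weyl_C ρ h) := (Weyl_hol hh h0 hρ hρc).continuous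
  filter_upwards [hae] with x hx
  have h2 := ContDiffBump.convolution_tendsto_right_of_continuous (μ := (volume : Measure (Cn n)))
    hφ0 hcont x
  refine tendsto_nhds_unique hx ?_
  refine h2.congr fun k => ?_
  have hs : ContDiff ℝ ∞ ((φ k).normed volume) := (φ k).contDiff_normed
  have hsc : HasCompactSupport ((φ k).normed volume) := (φ k).hasCompactSupport_normed
  have h3 := Weyl_mean (Weyl_hol hh h0 hs hsc) hρ.continuous hρc hρr hρ1 x
  rw [Weyl_comm hh hs.continuous hsc hρ.continuous hρc] at h3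
  exact h3

end HMA
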