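import Pool.Agent.H85.MA.Dbar2

/-! # Module LEVLOG: the Levi form of `log (τ + ‖z - y‖^2)` -/

open MeasureTheory Metric Set
open scoped ENNReal Topology ContDiff

namespace HMA

theorem LevLog_pos {n : ℕ} {τ : ℝ} (hτ : 0 < τ) (x : Cn n) : 0 < τ + ‖x‖ ^ 2 := by
  positivity

theorem LevLog_sq {n : ℕ} (y : Cn n) : ContDiff ℝ ∞ (fun z : Cn n => ‖z - y‖ ^ 2) :=
  (contDiff_norm_sq ℂ).comp (contDiff_id.sub contDiff_const)

theorem smooth_log {n : ℕ} {τ : ℝ} (hτ : 0 < τ) (y : Cn n) :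
    ContDiff ℝ ∞ (fun z : Cn n => Real.log (τ + ‖z - y‖ ^ 2)) := by
  refine ContDiff.log (contDiff_const.add (LevLog_sq y)) ?_
  intro x
  exact (LevLog_pos hτ _).ne'

theorem LevLog_re {n : ℕ} (y η : Cn n) :
    ContDiff ℝ ∞ (fun z : Cn n => (inner ℂ (z - y) η).re) := by
  have h1 : (fun z : Cn n => (inner ℂ (z - y) η).re) = fun z : Cn n =>
      (‖(z - y) + η‖ ^ 2 - ‖z - y‖ ^ 2 - ‖η‖ ^ 2) / 2 := by
    funext z
    have := norm_add_sq (𝕜 := ℂ) (z - y) η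
    simp only [RCLike.re_eq_complex_re] at this
    rw [this]; ring
  rw [h1]
  have h2 : ContDiff ℝ ∞ (fun z : Cn n => ‖(z - y) + η‖ ^ 2) :=
    (contDiff_norm_sq ℂ).comp ((contDiff_id.sub contDiff_const).add contDiff_const)
  exact ((h2.sub (LevLog_sq y)).sub contDiff_const).div_const 2

theorem LevLog_norm_line {n : ℕ} (y w η : Cn n) (t : ℝ) :
    ‖w + t • η - y‖ ^ 2 = ‖w - y‖ ^ 2 + 2 * t * (inner ℂ (w - y) η).re + t ^ 2 * ‖η‖ ^ 2 := by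
  have h1 : w + t • η - y = (w - y) + (t : ℂ) • η := by
    rw [← Complex.coe_smul]; abel
  rw [h1, norm_add_sq (𝕜 := ℂ), inner_smul_right, norm_smul, mul_pow]
  simp only [RCLike.re_eq_complex_re, Complex.re_ofReal_mul, Complex.norm_real, Real.norm_eq_abs,
    sq_abs]
  ring

theorem LevLog_re_line {n : ℕ} (y w η : Cn n) (t : ℝ) :
    (inner ℂ (w + t • η - y) η).re = (inner ℂ (w - y) η).re + t * ‖η‖ ^ 2 := by
  have h1 : w + t • η - y = (w - y) + (t : ℂ) • η := by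
    rw [← Complex.coe_smul]; abel
  rw [h1, inner_add_left, inner_smul_left, Complex.add_re, Complex.conj_ofReal,
    Complex.re_ofReal_mul, inner_self_eq_norm_sq_to_K]
  norm_cast

theorem LevLog_fderiv {n : ℕ} {τ : ℝ} (hτ : 0 < τ) (y w η : Cn n) :
    fderiv ℝ (fun z : Cn n => Real.log (τ + ‖z - y‖ ^ 2)) w η =
      2 * (inner ℂ (w - y) η).re / (τ + ‖w - y‖ ^ 2) := by
  have hd : DifferentiableAt ℝ (fun z : Cn n => Real.log (τ + ‖z - y‖ ^ 2)) w :=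
    (smooth_log hτ y).differentiable (by simp) w
  rw [← hd.lineDeriv_eq_fderiv]
  unfold lineDeriv
  have h1 : (fun t : ℝ => Real.log (τ + ‖w + t • η - y‖ ^ 2)) = fun t : ℝ =>
      Real.log (τ + (‖w - y‖ ^ 2 + 2 * t * (inner ℂ (w - y) η).re + t ^ 2 * ‖η‖ ^ 2)) := by
    funext t
    rw [LevLog_norm_line]
  rw [h1]
  have hT := LevLog_pos hτ (w - y)
  have h2 : HasDerivAt (fun t : ℝ => τ + (‖w - y‖ ^ 2 + 2 * t * (inner ℂ (w - y) η).re +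
      t ^ 2 * ‖η‖ ^ 2)) (2 * (inner ℂ (w - y) η).re) 0 := by
    have a1 : HasDerivAt (fun t : ℝ => 2 * t * (inner ℂ (w - y) η).re)
        (2 * (inner ℂ (w - y) η).re) 0 := by
      have := ((hasDerivAt_id (0 : ℝ)).const_mul 2).mul_const ((inner ℂ (w - y) η).re)
      simpa using this
    have a2 : HasDerivAt (fun t : ℝ => t ^ 2 * ‖η‖ ^ 2) 0 0 := by
      have := (hasDerivAt_pow 2 (0 : ℝ)).mul_const (‖η‖ ^ 2)
      simpa using this
    have a3 := ((a1.const_add (‖w - y‖ ^ 2)).add a2).const_add τ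
    simpa using a3
  have h3 := h2.log (by simpa using hT.ne')
  rw [h3.deriv]
  simp

theorem LevLog_second {n : ℕ} {τ : ℝ} (hτ : 0 < τ) (y z η : Cn n) :
    fderiv ℝ (fun w => fderiv ℝ (fun z : Cn n => Real.log (τ + ‖z - y‖ ^ 2)) w η) z η =
      (2 * ‖η‖ ^ 2 * (τ + ‖z - y‖ ^ 2) - 4 * (inner ℂ (z - y) η).re ^ 2) /
        (τ + ‖z - y‖ ^ 2) ^ 2 := by
  have h0 : (fun w => fderiv ℝ (fun z : Cn n => Real.log (τ + ‖z - y‖ ^ 2)) w η) =
      fun w => 2 * (inner ℂ (w - y) η).re / (τ + ‖w - y‖ ^ 2) := by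
    funext w
    exact LevLog_fderiv hτ y w η
  rw [h0]
  have hT := LevLog_pos hτ (z - y)
  have hd : DifferentiableAt ℝ
      (fun w : Cn n => 2 * (inner ℂ (w - y) η).re / (τ + ‖w - y‖ ^ 2)) z := by
    have b1 : ContDiff ℝ ∞ (fun w : Cn n => 2 * (inner ℂ (w - y) η).re) :=
      contDiff_const.mul (LevLog_re y η)
    have b2 : ContDiff ℝ ∞ (fun w : Cn n => τ + ‖w - y‖ ^ 2) :=
      contDiff_const.add (LevLog_sq y)
    exact (b1.div b2 (fun x => (LevLog_pos hτ (x - y)).ne')).differentiable (by simp) z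
  rw [← hd.lineDeriv_eq_fderiv]
  unfold lineDeriv
  have h1 : (fun t : ℝ => 2 * (inner ℂ (z + t • η - y) η).re / (τ + ‖z + t • η - y‖ ^ 2)) =
      fun t : ℝ => 2 * ((inner ℂ (z - y) η).re + t * ‖η‖ ^ 2) /
      (τ + (‖z - y‖ ^ 2 + 2 * t * (inner ℂ (z - y) η).re + t ^ 2 * ‖η‖ ^ 2)) := by
    funext t
    rw [LevLog_norm_line, LevLog_re_line]
  rw [h1]
  have h2 : HasDerivAt (fun t : ℝ => τ + (‖z - y‖ ^ 2 + 2 * t * (inner ℂ (z - y) η).re +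
      t ^ 2 * ‖η‖ ^ 2)) (2 * (inner ℂ (z - y) η).re) 0 := by
    have a1 : HasDerivAt (fun t : ℝ => 2 * t * (inner ℂ (z - y) η).re)
        (2 * (inner ℂ (z - y) η).re) 0 := by
      have := ((hasDerivAt_id (0 : ℝ)).const_mul 2).mul_const ((inner ℂ (z - y) η).re)
      simpa using this
    have a2 : HasDerivAt (fun t : ℝ => t ^ 2 * ‖η‖ ^ 2) 0 0 := by
      have := (hasDerivAt_pow 2 (0 : ℝ)).mul_const (‖η‖ ^ 2)
      simpa using this
    have a3 := ((a1.const_add (‖z - y‖ ^ 2)).add a2).const_add τ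
    simpa using a3
  have h3 : HasDerivAt (fun t : ℝ => 2 * ((inner ℂ (z - y) η).re + t * ‖η‖ ^ 2))
      (2 * ‖η‖ ^ 2) 0 := by
    have a1 := (((hasDerivAt_id (0 : ℝ)).mul_const (‖η‖ ^ 2)).const_add
      ((inner ℂ (z - y) η).re)).const_mul 2
    simpa using a1
  have h4 := h3.div h2 (by simpa using hT.ne')
  refine h4.deriv.trans ?_
  simp only [mul_zero, zero_mul, add_zero, ne_eq, OfNat.ofNat_ne_zero, not_false_eq_true, zero_pow]
  congr 1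
  ring

theorem lev_log {n : ℕ} {τ : ℝ} (hτ : 0 < τ) (y z ξ : Cn n) :
    lev (fun z : Cn n => Real.log (τ + ‖z - y‖ ^ 2)) z ξ =
      ‖ξ‖ ^ 2 / (τ + ‖z - y‖ ^ 2) - ‖inner ℂ (z - y) ξ‖ ^ 2 / (τ + ‖z - y‖ ^ 2) ^ 2 := by
  unfold lev
  rw [LevLog_second hτ, LevLog_second hτ]
  have hT := LevLog_pos hτ (z - y)
  have h1 : ‖Complex.I • ξ‖ = ‖ξ‖ := by rw [norm_smul, Complex.norm_I, one_mul]
  have h2 : (inner ℂ (z - y) (Complex.I • ξ)).re = - (inner ℂ (z - y) ξ).im := by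
    rw [inner_smul_right, Complex.mul_re, Complex.I_re, Complex.I_im]; ring
  have h3 : ‖inner ℂ (z - y) ξ‖ ^ 2 = (inner ℂ (z - y) ξ).re ^ 2 + (inner ℂ (z - y) ξ).im ^ 2 := by
    rw [Complex.sq_norm, Complex.normSq_apply]; ring
  rw [h1, h2, h3]
  field_simp
  ring

theorem lev_log_ge {n : ℕ} {τ : ℝ} (hτ : 0 < τ) (y z ξ : Cn n) :
    τ * ‖ξ‖ ^ 2 / (τ + ‖z - y‖ ^ 2) ^ 2 ≤
      lev (fun z : Cn n => Real.log (τ + ‖z - y‖ ^ 2)) z ξ := by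
  rw [lev_log hτ]
  have hT := LevLog_pos hτ (z - y)
  have h1 : ‖inner ℂ (z - y) ξ‖ ^ 2 ≤ ‖z - y‖ ^ 2 * ‖ξ‖ ^ 2 := by
    rw [← mul_pow]
    exact pow_le_pow_left₀ (norm_nonneg _) (norm_inner_le_norm _ _) 2
  have h2 : ‖ξ‖ ^ 2 / (τ + ‖z - y‖ ^ 2) =
      ‖ξ‖ ^ 2 * (τ + ‖z - y‖ ^ 2) / (τ + ‖z - y‖ ^ 2) ^ 2 := by
    field_simp
  rw [h2, ← sub_div]
  gcongr
  nlinarith

end HMA
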