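import Pool.Agent.H85.MA.LTail

/-! # Module LFIN: the local Hölder estimate -/

open MeasureTheory Metric Set
open scoped ENNReal Topology ContDiff

namespace HMA

/-- functions which are upper semicontinuous on an open set are measurable there -/
theorem LFin_meas {n : ℕ} {Ω : Set (Cn n)} (hΩ : IsOpen Ω) {F : Cn n → ℝ}
    (hF : UpperSemicontinuousOn F Ω) : Measurable (Ω.indicator F) := by
  classical
  refine measurable_of_Iio fun a => ?_
  obtain ⟨u, hu, hus⟩ := upperSemicontinuousOn_iff_preimage_Iio.1 hF a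
  have hmeas : MeasurableSet (Ω ∩ F ⁻¹' Iio a) := by
    rw [hus]
    exact (hΩ.inter hu).measurableSet
  by_cases ha : 0 < a
  · have h1 : (Ω.indicator F) ⁻¹' Iio a = (Ω ∩ F ⁻¹' Iio a) ∪ Ωᶜ := by
      ext x
      by_cases hx : x ∈ Ω
      · simp [hx]
      · simp [hx, ha]
    rw [h1]
    exact hmeas.union hΩ.measurableSet.compl
  · have h1 : (Ω.indicator F) ⁻¹' Iio a = Ω ∩ F ⁻¹' Iio a := by
      ext x
      by_cases hx : x ∈ Ω
      · simp [hx]
      · simp [hx]
        exact not_lt.1 ha
    rw [h1]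
    exact hmeas

theorem LFin_ae {n : ℕ} {ν : Measure (Cn n)} (hν0 : ν {z | 1 < ‖z‖} = 0) :
    ∀ᵐ z ∂ν, ‖z‖ ≤ 1 := by
  rw [ae_iff]
  simpa using hν0

/-- the layer cake estimate for functions with exponentially small sublevel sets -/
theorem LFin_tail {n : ℕ} {m : Measure (Cn n)} {F : Cn n → ℝ} (hFm : AEMeasurable F m)
    (_h0 : ∀ᵐ z ∂m, 0 ≤ F z) (h1 : ∀ᵐ z ∂m, F z ≤ 1) {c K : ℝ} (hc : 0 < c) (hK : 0 < K)
    (hdec : ∀ t : ℝ, 0 < t → m {z | F z < Real.exp (-t)} ≤ ENNReal.ofReal (K * Real.exp (-c * t))) :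
    (∀ᵐ z ∂m, 0 < F z) ∧ Integrable (fun z => Real.log (F z)) m ∧
    ∀ t : ℝ, 0 ≤ t → Integrable (fun z => Real.log (max (F z) (Real.exp (-t)))) m ∧
      |(∫ z, Real.log (F z) ∂m) - ∫ z, Real.log (max (F z) (Real.exp (-t))) ∂m| ≤
        K / c * Real.exp (-c * t) := by
  -- positivity
  have hpos : ∀ᵐ z ∂m, 0 < F z := by
    have hz : m {z | F z ≤ 0} = 0 := by
      have hb : ∀ t : ℝ, 0 < t → m {z | F z ≤ 0} ≤ ENNReal.ofReal (K * Real.exp (-c * t)) := by
        intro t ht
        refine le_trans (measure_mono fun z hz => ?_) (hdec t ht)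
        exact lt_of_le_of_lt hz (Real.exp_pos _)
      have hlim : Filter.Tendsto (fun t : ℝ => ENNReal.ofReal (K * Real.exp (-c * t))) Filter.atTop
          (𝓝 0) := by
        rw [← ENNReal.ofReal_zero]
        refine ENNReal.tendsto_ofReal ?_
        have h2 : Filter.Tendsto (fun t : ℝ => Real.exp (-c * t)) Filter.atTop (𝓝 0) := by
          refine Real.tendsto_exp_atBot.comp ?_
          exact Filter.tendsto_id.const_mul_atTop_of_neg (by linarith)
        simpa using h2.const_mul K
      refine le_antisymm (ge_of_tendsto hlim ?_) bot_le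
      filter_upwards [Filter.eventually_gt_atTop 0] with t ht
      exact hb t ht
    rw [ae_iff]
    simpa using hz
  have hlm : AEMeasurable (fun z => Real.log (F z)) m := Real.measurable_log.comp_aemeasurable hFm
  -- the tails
  have htail : ∀ t : ℝ, 0 ≤ t →
      ∫⁻ z, ENNReal.ofReal (max (-Real.log (F z) - t) 0) ∂m ≤
        ENNReal.ofReal (K / c * Real.exp (-c * t)) := by
    intro t ht
    have hgm : AEMeasurable (fun z => max (-Real.log (F z) - t) 0) m :=
      (hlm.neg.sub_const t).max aemeasurable_const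
    rw [lintegral_eq_lintegral_meas_lt m (f := fun z => max (-Real.log (F z) - t) 0)
      (Filter.Eventually.of_forall fun z => le_max_right _ _) hgm]
    have hb : ∀ s ∈ Ioi (0 : ℝ), m {z | s < max (-Real.log (F z) - t) 0} ≤
        ENNReal.ofReal (K * Real.exp (-c * t) * Real.exp (-c * s)) := by
      intro s hs
      rw [mem_Ioi] at hs
      have h2 : m {z | s < max (-Real.log (F z) - t) 0} ≤ m {z | F z < Real.exp (-(s + t))} := by
        refine measure_mono_ae ?_
        filter_upwards [hpos] with z hz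
        intro (h3 : s < max (-Real.log (F z) - t) 0)
        show F z < Real.exp (-(s + t))
        rcases lt_max_iff.1 h3 with h4 | h4
        · rw [← Real.log_lt_iff_lt_exp hz]
          linarith
        · linarith
      refine le_trans h2 (le_trans (hdec (s + t) (by linarith)) ?_)
      apply ENNReal.ofReal_le_ofReal
      rw [mul_assoc, ← Real.exp_add]
      apply le_of_eq
      congr 2
      ring
    refine le_trans (setLIntegral_mono_ae' measurableSet_Ioi (Filter.Eventually.of_forall hb)) ?_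
    rw [← ofReal_integral_eq_lintegral_ofReal]
    · apply ENNReal.ofReal_le_ofReal
      rw [integral_const_mul]
      have h3 : ∫ s in Ioi (0 : ℝ), Real.exp (-c * s) = 1 / c := by
        have := integral_exp_mul_Ioi (a := -c) (by linarith) 0
        rw [this]
        simp
      rw [h3]
      apply le_of_eq
      ring
    · exact ((integrableOn_exp_mul_Ioi (by linarith) 0)).const_mul _
    · exact Filter.Eventually.of_forall fun s => by positivity
  have hint : Integrable (fun z => Real.log (F z)) m := by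
    have h2 : Integrable (fun z => -Real.log (F z)) m := by
      refine ⟨hlm.neg.aestronglyMeasurable, ?_⟩
      rw [hasFiniteIntegral_iff_ofReal]
      · refine lt_of_le_of_lt ?_ (lt_of_le_of_lt (htail 0 le_rfl) ENNReal.ofReal_lt_top)
        refine lintegral_mono fun z => ENNReal.ofReal_le_ofReal ?_
        rw [sub_zero]
        exact le_max_left _ _
      · filter_upwards [hpos, h1] with z hz hz1
        show 0 ≤ -Real.log (F z)
        have := Real.log_nonpos hz.le hz1
        linarith
    have h3 := h2.neg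
    simpa using h3
  refine ⟨hpos, hint, fun t ht => ?_⟩
  have hcomp : ∀ᵐ z ∂m, Real.log (max (F z) (Real.exp (-t))) - Real.log (F z) =
      max (-Real.log (F z) - t) 0 ∧ |Real.log (max (F z) (Real.exp (-t)))| ≤ |Real.log (F z)| := by
    filter_upwards [hpos, h1] with z hz hz1
    have hl := Real.log_nonpos hz.le hz1
    rcases le_total (F z) (Real.exp (-t)) with h | h
    · rw [max_eq_right h, Real.log_exp]
      have h2 : Real.log (F z) ≤ -t := by
        rw [← Real.log_exp (-t)]
        exact Real.log_le_log hz h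
      rw [max_eq_left (by linarith)]
      refine ⟨by ring, ?_⟩
      rw [abs_of_nonpos (by linarith), abs_of_nonpos hl]
      linarith
    · rw [max_eq_left h]
      have h2 : -t ≤ Real.log (F z) := by
        rw [← Real.log_exp (-t)]
        exact Real.log_le_log (Real.exp_pos _) h
      rw [max_eq_right (by linarith)]
      exact ⟨by ring, le_rfl⟩
  have hint2 : Integrable (fun z => Real.log (max (F z) (Real.exp (-t)))) m := by
    refine Integrable.mono hint
      (Real.measurable_log.comp_aemeasurable (hFm.max aemeasurable_const)).aestronglyMeasurable ?_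
    filter_upwards [hcomp] with z hz
    exact hz.2
  refine ⟨hint2, ?_⟩
  rw [abs_sub_comm, ← integral_sub hint2 hint]
  have h2 : ∫ z, (Real.log (max (F z) (Real.exp (-t))) - Real.log (F z)) ∂m =
      ∫ z, max (-Real.log (F z) - t) 0 ∂m := by
    refine integral_congr_ae ?_
    filter_upwards [hcomp] with z hz
    exact hz.1
  rw [h2, abs_of_nonneg (integral_nonneg fun z => le_max_right _ _),
    integral_eq_lintegral_of_nonneg_ae (f := fun z => max (-Real.log (F z) - t) 0)
      (Filter.Eventually.of_forall fun z => le_max_right _ _)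
      ((hlm.neg.sub_const t).max aemeasurable_const).aestronglyMeasurable]
  exact ENNReal.toReal_le_of_le_ofReal (by positivity) (htail t ht)

/-- `t δ ^ α` is small for a suitable `t` -/
theorem LFin_opt {α c K₁ K₂ δ D : ℝ} (hα : 0 < α) (hc : 0 < c) (hK₁ : 0 < K₁)
    (hK₂ : 0 < K₂) (hδ : 0 ≤ δ) (h0 : D ≤ 2 * K₁)
    (h : ∀ t : ℝ, 1 ≤ t → D ≤ 2 * (K₁ * Real.exp (-c * t)) + K₂ * t * δ ^ α) :
    D ≤ (2 * K₁ + K₂ * (1 + 2 / c)) * δ ^ (α / 2) := by
  rcases eq_or_lt_of_le hδ with h1 | hpos
  · rw [← h1, Real.zero_rpow (by positivity), mul_zero]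
    have hlim : Filter.Tendsto (fun t : ℝ => 2 * (K₁ * Real.exp (-c * t))) Filter.atTop
        (𝓝 (2 * (K₁ * 0))) := by
      refine (Filter.Tendsto.const_mul K₁ ?_).const_mul 2
      refine Real.tendsto_exp_atBot.comp ?_
      exact Filter.tendsto_id.const_mul_atTop_of_neg (by linarith)
    rw [mul_zero, mul_zero] at hlim
    refine ge_of_tendsto hlim ?_
    filter_upwards [Filter.eventually_ge_atTop 1] with t ht
    have h2 := h t ht
    rw [← h1, Real.zero_rpow hα.ne', mul_zero, add_zero] at h2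
    exact h2
  · have hp2 : 0 < δ ^ (α / 2) := by positivity
    by_cases hδ1 : 1 ≤ δ
    · have h2 : 1 ≤ δ ^ (α / 2) := Real.one_le_rpow hδ1 (by positivity)
      have h3 : 0 ≤ K₂ * (1 + 2 / c) * δ ^ (α / 2) := by positivity
      nlinarith
    · push Not at hδ1
      have hlog : Real.log δ < 0 := Real.log_neg hpos hδ1
      set t := 1 + α / c * (-Real.log δ) with ht
      have ht1 : 1 ≤ t := by
        rw [ht]
        have : 0 ≤ α / c * (-Real.log δ) := mul_nonneg (by positivity) (by linarith)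
        linarith
      have h2 := h t ht1
      have hexp : Real.exp (-c * t) ≤ δ ^ (α / 2) := by
        rw [Real.rpow_def_of_pos hpos]
        apply Real.exp_le_exp.2
        rw [ht]
        have h3 : -c * (1 + α / c * (-Real.log δ)) = -c + α * Real.log δ := by
          field_simp
          ring
        rw [h3]
        nlinarith
      have hsq : δ ^ α = δ ^ (α / 2) * δ ^ (α / 2) := by
        rw [← Real.rpow_add hpos]
        congr 1
        ring
      have hδle : δ ^ (α / 2) ≤ 1 := Real.rpow_le_one hpos.le hδ1.le (by positivity)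
      have hlogb : (-Real.log δ) * δ ^ (α / 2) ≤ 2 / α := by
        have h3 := Real.log_le_rpow_div (x := δ⁻¹) (by positivity) (by positivity : 0 < α / 2)
        rw [Real.log_inv, Real.inv_rpow hpos.le] at h3
        calc (-Real.log δ) * δ ^ (α / 2) ≤ (δ ^ (α / 2))⁻¹ / (α / 2) * δ ^ (α / 2) :=
              mul_le_mul_of_nonneg_right h3 hp2.le
          _ = 2 / α := by
              field_simp
      have htb : t * δ ^ α ≤ (1 + 2 / c) * δ ^ (α / 2) := by
        rw [hsq, ← mul_assoc]
        refine mul_le_mul_of_nonneg_right ?_ hp2.le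
        rw [ht, add_mul, one_mul, mul_assoc]
        have h4 : α / c * (-Real.log δ * δ ^ (α / 2)) ≤ α / c * (2 / α) :=
          mul_le_mul_of_nonneg_left hlogb (by positivity)
        have h5 : α / c * (2 / α) = 2 / c := by
          field_simp
        linarith
      have h6 : K₂ * t * δ ^ α ≤ K₂ * ((1 + 2 / c) * δ ^ (α / 2)) := by
        rw [mul_assoc]
        exact mul_le_mul_of_nonneg_left htb hK₂.le
      have h7 : 2 * (K₁ * Real.exp (-c * t)) ≤ 2 * (K₁ * δ ^ (α / 2)) := by
        have := mul_le_mul_of_nonneg_left hexp hK₁.le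
        linarith
      calc D ≤ 2 * (K₁ * Real.exp (-c * t)) + K₂ * t * δ ^ α := h2
        _ ≤ 2 * (K₁ * δ ^ (α / 2)) + K₂ * ((1 + 2 / c) * δ ^ (α / 2)) := by linarith
        _ = _ := by ring

theorem loc_holder (n : ℕ) (hn : 1 ≤ n) {C c : ℝ} (hC : 0 < C) (hc : 0 < c) : ∃ α : ℝ, 0 < α ∧
    ∀ A : ℝ, 0 ≤ A → ∃ K : ℝ, 0 < K ∧
    ∀ (ν : Measure (Cn n)), ν univ ≤ 1 → ν {z | 1 < ‖z‖} = 0 → AffN n ν C c →
      ∀ F G : Cn n → ℝ, PshOn (ball 0 2) F → PshOn (ball 0 2) G → (∀ x ∈ ball 0 2, F x ≤ 1) →
        (∀ x ∈ ball 0 2, G x ≤ 1) → (∃ x, ‖x‖ ≤ 1 ∧ Real.exp (-A) ≤ F x) →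
        (∃ x, ‖x‖ ≤ 1 ∧ Real.exp (-A) ≤ G x) →
        Integrable (fun z => Real.log (F z)) ν ∧
        |(∫ z, Real.log (F z) ∂ν) - ∫ z, Real.log (G z) ∂ν| ≤
          K * (∫ x in ball (0 : Cn n) (3 / 2), |Real.log (F x) - Real.log (G x)|) ^ α := by
  obtain ⟨α, hα, -, K₂, hK₂, Hcomp⟩ := loc_comp n hn hC hc
  refine ⟨α / 2, by positivity, fun A hA => ?_⟩
  obtain ⟨c', K, hc', hK, Htail⟩ := loc_tail n hn hC hc hA
  obtain ⟨c'', K'', hc'', hK'', Hdec⟩ := psh_decay n hn hA
  refine ⟨2 * (K / c') + K₂ * (1 + 2 / c'), by positivity, ?_⟩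
  intro ν hν hν0 hAff F G hF hG hF1 hG1 hFA hGA
  have hballν : ∀ᵐ z ∂ν, z ∈ ball (0 : Cn n) 2 := by
    filter_upwards [LFin_ae hν0] with z hz
    rw [mem_ball_zero_iff]
    linarith
  set m := (volume : Measure (Cn n)).restrict (ball 0 (3 / 2)) with hm
  have hballm : ∀ᵐ z ∂m, z ∈ ball (0 : Cn n) 2 := by
    filter_upwards [ae_restrict_mem measurableSet_ball] with z hz
    exact ball_subset_ball (by norm_num) hz
  have hFν : ∀ {H : Cn n → ℝ}, PshOn (ball 0 2) H → (∀ x ∈ ball 0 2, H x ≤ 1) →
      (∃ x, ‖x‖ ≤ 1 ∧ Real.exp (-A) ≤ H x) → _ := fun {H} hH hH1 hHA =>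
    LFin_tail (m := ν) (F := H) (c := c') (K := K)
      (⟨(ball 0 2).indicator H, LFin_meas isOpen_ball hH.usc, by
        filter_upwards [hballν] with z hz
        rw [indicator_of_mem hz]⟩)
      (by filter_upwards [hballν] with z hz; exact hH.nonneg z hz)
      (by filter_upwards [hballν] with z hz; exact hH1 z hz) hc' hK
      (Htail ν hν hν0 hAff H hH hH1 hHA)
  have hFm : ∀ {H : Cn n → ℝ}, PshOn (ball 0 2) H → (∀ x ∈ ball 0 2, H x ≤ 1) →
      (∃ x, ‖x‖ ≤ 1 ∧ Real.exp (-A) ≤ H x) → _ := fun {H} hH hH1 hHA =>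
    LFin_tail (m := m) (F := H) (c := c'') (K := K'')
      (⟨(ball 0 2).indicator H, LFin_meas isOpen_ball hH.usc, by
        filter_upwards [hballm] with z hz
        rw [indicator_of_mem hz]⟩)
      (by filter_upwards [hballm] with z hz; exact hH.nonneg z hz)
      (by filter_upwards [hballm] with z hz; exact hH1 z hz) hc'' hK''
      (fun t ht => by
        refine le_trans (le_of_eq ?_) (Hdec H hH hH1 hHA t ht)
        rw [hm, Measure.restrict_apply' measurableSet_ball]
        congr 1
        ext z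
        simp only [mem_inter_iff, mem_ball_zero_iff]
        exact and_comm)
  obtain ⟨hFpos, hFint, hFt⟩ := hFν hF hF1 hFA
  obtain ⟨hGpos, hGint, hGt⟩ := hFν hG hG1 hGA
  obtain ⟨hFpos', hFint', hFt'⟩ := hFm hF hF1 hFA
  obtain ⟨hGpos', hGint', hGt'⟩ := hFm hG hG1 hGA
  refine ⟨hFint, ?_⟩
  set δ := ∫ x in ball (0 : Cn n) (3 / 2), |Real.log (F x) - Real.log (G x)| with hδ
  have hδ0 : 0 ≤ δ := integral_nonneg fun _ => abs_nonneg _
  -- comparison of the truncated distances
  have hδt : ∀ t : ℝ, 0 ≤ t → (∫ x in ball (0 : Cn n) (3 / 2),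
      |Real.log (max (F x) (Real.exp (-t))) - Real.log (max (G x) (Real.exp (-t)))|) ≤ δ := by
    intro t ht
    refine integral_mono_ae ((hFt' t ht).1.sub (hGt' t ht).1).abs (hFint'.sub hGint').abs ?_
    filter_upwards [hFpos', hGpos'] with z hz1 hz2
    have hmax : ∀ a : ℝ, 0 < a → Real.log (max a (Real.exp (-t))) = max (Real.log a) (-t) := by
      intro a ha
      rcases le_total a (Real.exp (-t)) with h | h
      · rw [max_eq_right h, Real.log_exp, max_eq_right]
        rw [← Real.log_exp (-t)]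
        exact Real.log_le_log ha h
      · rw [max_eq_left h, max_eq_left]
        rw [← Real.log_exp (-t)]
        exact Real.log_le_log (Real.exp_pos _) h
    show |Real.log (max (F z) (Real.exp (-t))) - Real.log (max (G z) (Real.exp (-t)))| ≤
      |Real.log (F z) - Real.log (G z)|
    rw [hmax _ hz1, hmax _ hz2]
    exact abs_max_sub_max_le_abs _ _ _
  have hδt0 : ∀ t : ℝ, 0 ≤ (∫ x in ball (0 : Cn n) (3 / 2),
      |Real.log (max (F x) (Real.exp (-t))) - Real.log (max (G x) (Real.exp (-t)))|) := fun t =>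
    integral_nonneg fun _ => abs_nonneg _
  have hcomp : ∀ t : ℝ, 1 ≤ t → |(∫ z, Real.log (max (F z) (Real.exp (-t))) ∂ν) -
      ∫ z, Real.log (max (G z) (Real.exp (-t))) ∂ν| ≤ K₂ * t * δ ^ α := by
    intro t ht
    have h1 := Hcomp ν hν hν0 hAff F G hF hG hF1 hG1 t ht
    have h2 := Hcomp ν hν hν0 hAff G F hG hF hG1 hF1 t ht
    have h3 : (∫ x in ball (0 : Cn n) (3 / 2),
        |Real.log (max (G x) (Real.exp (-t))) - Real.log (max (F x) (Real.exp (-t)))|) =
        ∫ x in ball (0 : Cn n) (3 / 2),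
        |Real.log (max (F x) (Real.exp (-t))) - Real.log (max (G x) (Real.exp (-t)))| := by
      refine integral_congr_ae (Filter.Eventually.of_forall fun x => ?_)
      exact abs_sub_comm _ _
    rw [h3] at h2
    have h4 : K₂ * t * (∫ x in ball (0 : Cn n) (3 / 2),
        |Real.log (max (F x) (Real.exp (-t))) - Real.log (max (G x) (Real.exp (-t)))|) ^ α ≤
        K₂ * t * δ ^ α :=
      mul_le_mul_of_nonneg_left (Real.rpow_le_rpow (hδt0 t) (hδt t (by linarith)) hα.le)
        (by positivity)
    rw [abs_le]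
    constructor
    · linarith
    · linarith
  refine LFin_opt hα hc' (by positivity) hK₂ hδ0 ?_ ?_
  · -- the trivial bound
    have h1 := (hFt 0 le_rfl).2
    have h2 := (hGt 0 le_rfl).2
    have h3 : ∀ {H : Cn n → ℝ}, (∀ x ∈ ball 0 2, H x ≤ 1) →
        ∫ z, Real.log (max (H z) (Real.exp (-0))) ∂ν = 0 := by
      intro H hH1
      rw [integral_eq_zero_of_ae]
      filter_upwards [hballν] with z hz
      rw [neg_zero, Real.exp_zero, max_eq_right (hH1 z hz), Real.log_one]
      rfl
    rw [h3 hF1, sub_zero, mul_zero, Real.exp_zero, mul_one] at h1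
    rw [h3 hG1, sub_zero, mul_zero, Real.exp_zero, mul_one] at h2
    have h4 := abs_sub (∫ z, Real.log (F z) ∂ν) (∫ z, Real.log (G z) ∂ν)
    linarith
  · intro t ht
    have h1 := (hFt t (by linarith)).2
    have h2 := (hGt t (by linarith)).2
    have h3 := hcomp t ht
    rw [abs_le] at h1 h2 h3 ⊢
    constructor
    · linarith
    · linarith

end HMA
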