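import Pool.Agent.H85.MA.Sko1

/-! # Module SKO2: exponential decay of the sublevel sets of psh functions -/

open MeasureTheory Metric Set
open scoped ENNReal Topology ContDiff

namespace HMA

/-- multiplication by `ζ` with `0 < ‖ζ‖ ≤ 1`: preimages have larger volume -/
theorem Sko2_smul {n : ℕ} {ζ : ℂ} (h0 : ζ ≠ 0) (h1 : ‖ζ‖ ≤ 1) (S : Set (Cn n)) :
    volume S ≤ volume ((fun x : Cn n => ζ • x) ⁻¹' S) := by
  set f : Cn n →ₗ[ℝ] Cn n :=
    (LinearMap.lsmul ℂ (Cn n) ζ).restrictScalars ℝ with hf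
  have hfx : ∀ x, f x = ζ • x := fun x => rfl
  have hdet : LinearMap.det f ≠ 0 := by
    have hinj : Function.Injective f := by
      intro x y hxy
      rw [hfx, hfx] at hxy
      exact smul_right_injective _ h0 hxy
    intro hd
    have hk := LinearMap.bot_lt_ker_of_det_eq_zero hd
    rw [LinearMap.ker_eq_bot.mpr hinj] at hk
    exact lt_irrefl _ hk
  have key := Measure.addHaar_preimage_linearMap (volume : Measure (Cn n)) hdet
  have hball : ball (0 : Cn n) 1 ⊆ f ⁻¹' ball (0 : Cn n) 1 := by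
    intro x hx
    rw [mem_preimage, hfx, mem_ball_zero_iff, norm_smul]
    rw [mem_ball_zero_iff] at hx
    have := norm_nonneg x
    nlinarith [norm_nonneg ζ]
  have h2 : volume (ball (0 : Cn n) 1) ≤
      ENNReal.ofReal |(LinearMap.det f)⁻¹| * volume (ball (0 : Cn n) 1) := by
    rw [← key]; exact measure_mono hball
  have hpos : volume (ball (0 : Cn n) 1) ≠ 0 := (measure_ball_pos _ _ one_pos).ne'
  have hfin : volume (ball (0 : Cn n) 1) ≠ ⊤ := measure_ball_lt_top.ne
  have h3 : 1 ≤ ENNReal.ofReal |(LinearMap.det f)⁻¹| := by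
    by_contra hlt
    rw [not_le] at hlt
    have h4 := ENNReal.mul_lt_mul_left hpos hfin hlt
    rw [one_mul] at h4
    exact absurd h2 (not_le.mpr h4)
  have h5 := key S
  have e : (fun x : Cn n => ζ • x) ⁻¹' S = f ⁻¹' S := rfl
  rw [e, h5]
  calc volume S = 1 * volume S := (one_mul _).symm
    _ ≤ _ := mul_le_mul_left h3 _

theorem Sko2_open {n : ℕ} {F : Cn n → ℝ} (hF : PshOn (ball 0 2) F) (b : ℝ) :
    IsOpen {y : Cn n | y ∈ ball (0 : Cn n) 2 ∧ F y < b} := by
  obtain ⟨u, hu, he⟩ := upperSemicontinuousOn_iff_preimage_Iio.mp hF.usc b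
  have e : {y : Cn n | y ∈ ball (0 : Cn n) 2 ∧ F y < b} = ball 0 2 ∩ F ⁻¹' Iio b := by
    ext y; rfl
  rw [e, he]
  exact isOpen_ball.inter hu

/-- decay on a smaller ball around a point where `F` is not small -/
theorem Sko2_step (n : ℕ) {ρ ρ' κ : ℝ} (hρ' : 0 < ρ') (hρ : ρ' < ρ) (hκ : 0 < κ) (hκ1 : κ < 1)
    {A : ℝ} (hA : 0 ≤ A) : ∃ c K : ℝ, 0 < c ∧ 0 < K ∧
    ∀ (F : Cn n → ℝ) (z : Cn n), PshOn (ball 0 2) F → (∀ x ∈ ball 0 2, F x ≤ 1) →
      ball z ρ ⊆ ball 0 2 → Real.exp (-A) ≤ F z → ∀ t : ℝ, 0 < t →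
        volume {y : Cn n | ‖y‖ < (1 - κ) * ρ' ∧ F (z + y) < Real.exp (-t)} ≤
          ENNReal.ofReal (K * Real.exp (-c * t)) := by
  have hR1 : (1 : ℝ) < ρ / ρ' := by rw [lt_div_iff₀ hρ']; linarith
  obtain ⟨c, K, hc, hK, hdec⟩ := sub_decay one_pos hR1
  set ann : Set ℂ := ball (0 : ℂ) 1 \ closedBall 0 (1 - κ) with hann
  have hannO : IsOpen ann := isOpen_ball.sdiff isClosed_closedBall
  have hannN : ann.Nonempty := by
    refine ⟨((1 - κ / 2 : ℝ) : ℂ), ?_, ?_⟩
    · rw [mem_ball_zero_iff, Complex.norm_real, Real.norm_eq_abs, abs_of_pos (by linarith)]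
      linarith
    · rw [mem_closedBall_zero_iff, Complex.norm_real, Real.norm_eq_abs, abs_of_pos (by linarith)]
      linarith
  have hann0 : volume ann ≠ 0 := (hannO.measure_pos volume hannN).ne'
  have hannT : volume ann ≠ ⊤ :=
    ((measure_mono sdiff_subset).trans_lt (measure_ball_lt_top (μ := volume) (x := (0 : ℂ)) (r := 1))).ne
  have hBT : volume (ball (0 : Cn n) ρ') ≠ ⊤ := measure_ball_lt_top.ne
  have hB0 : volume (ball (0 : Cn n) ρ') ≠ 0 := (measure_ball_pos _ _ hρ').ne'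
  set M : ℝ := (volume (ball (0 : Cn n) ρ') / volume ann).toReal with hM
  have hMT : volume (ball (0 : Cn n) ρ') / volume ann ≠ ⊤ := ENNReal.div_ne_top hBT hann0
  have hM0 : 0 < M := ENNReal.toReal_pos (ENNReal.div_ne_zero.mpr ⟨hB0, hannT⟩) hMT
  refine ⟨c / (1 + A), K * M, by positivity, by positivity, ?_⟩
  intro F z hF hF1 hz hFz t ht
  -- the open set `U`
  set U : Set (Cn n) := {y : Cn n | y ∈ ball (0 : Cn n) 2 ∧ F y < Real.exp (-t)} with hU
  have hUo : IsOpen U := Sko2_open hF _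
  set O : Set (ℂ × Cn n) :=
    {p | ‖p.1‖ < 1 ∧ ‖p.2‖ < ρ' ∧ z + p.1 • p.2 ∈ U} with hO
  have hOo : IsOpen O := by
    have o1 : IsOpen {p : ℂ × Cn n | ‖p.1‖ < 1} :=
      isOpen_lt (continuous_norm.comp continuous_fst) continuous_const
    have o2 : IsOpen {p : ℂ × Cn n | ‖p.2‖ < ρ'} :=
      isOpen_lt (continuous_norm.comp continuous_snd) continuous_const
    have o3 : IsOpen {p : ℂ × Cn n | z + p.1 • p.2 ∈ U} :=
      hUo.preimage (continuous_const.add (continuous_fst.smul continuous_snd))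
    exact o1.inter (o2.inter o3)
  have hOm : MeasurableSet O := hOo.measurableSet
  have e1 := Measure.prod_apply (μ := (volume : Measure ℂ)) (ν := (volume : Measure (Cn n))) hOm
  have e2 := Measure.prod_apply_symm (μ := (volume : Measure ℂ)) (ν := (volume : Measure (Cn n))) hOm
  -- upper bound
  have hup : (∫⁻ x : Cn n, volume ((fun ζ : ℂ => (ζ, x)) ⁻¹' O)) ≤
      ENNReal.ofReal (K * Real.exp (-(c / (1 + A)) * t)) * volume (ball (0 : Cn n) ρ') := by
    rw [← setLIntegral_const, ← lintegral_indicator measurableSet_ball]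
    refine lintegral_mono ?_
    intro x
    by_cases hx : x ∈ ball (0 : Cn n) ρ'
    · rw [indicator_of_mem hx]
      have hxn : ‖x‖ < ρ' := by simpa using hx
      have hin : ∀ ζ : ℂ, ζ ∈ ball (0 : ℂ) (ρ / ρ') → z + ζ • x ∈ ball (0 : Cn n) 2 := by
        intro ζ hζ
        apply hz
        rw [mem_ball_iff_norm, add_sub_cancel_left, norm_smul]
        have h1 : ‖ζ‖ < ρ / ρ' := by simpa using hζ
        rcases (norm_nonneg x).eq_or_lt with h2 | h2
        · rw [← h2, mul_zero]; linarith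
        · calc ‖ζ‖ * ‖x‖ < ρ / ρ' * ‖x‖ := by gcongr
            _ ≤ ρ / ρ' * ρ' := by gcongr
            _ = ρ := div_mul_cancel₀ _ hρ'.ne'
      refine (measure_mono ?_).trans (hdec (fun ζ => F (z + ζ • x)) A hA ?_ ?_ ?_ ?_ ?_ t ht)
      · intro ζ hζ
        exact ⟨hζ.1, hζ.2.2.2⟩
      · intro ζ hζ
        exact hF.nonneg _ (hin ζ hζ)
      · exact hF.usc.comp (by fun_prop : Continuous (fun ζ : ℂ => z + ζ • x)).continuousOn
          (fun ζ hζ => hin ζ hζ)
      · intro δ hδ a s hs hsub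
        have h := hF.submean δ hδ (z + a • x) ((s : ℂ) • x) ?_
        · refine h.trans (le_of_eq ?_)
          congr 1
          refine intervalIntegral.integral_congr (fun θ _ => ?_)
          have e4 : z + a • x + Complex.exp (θ * Complex.I) • (s : ℂ) • x =
              z + (a + Complex.exp (θ * Complex.I) * s) • x := by
            rw [add_smul, mul_smul, add_assoc]
          show Real.log (max (F (z + a • x + Complex.exp (θ * Complex.I) • (s : ℂ) • x)) δ) = _
          rw [e4]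
        · intro ζ hζ
          have h3 : a + ζ * s ∈ closedBall a s := by
            rw [mem_closedBall_iff_norm, add_sub_cancel_left, norm_mul, Complex.norm_real,
              Real.norm_eq_abs, abs_of_pos hs]
            nlinarith
          have h4 := hin _ (hsub h3)
          rwa [add_smul, mul_smul, ← add_assoc] at h4
      · intro ζ hζ
        exact hF1 _ (hin ζ hζ)
      · simpa using hFz
    · rw [indicator_of_notMem hx]
      have : (fun ζ : ℂ => (ζ, x)) ⁻¹' O = ∅ := by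
        ext ζ
        simp only [mem_preimage, mem_empty_iff_false, iff_false]
        intro hζ
        exact hx (by simpa using hζ.2.1)
      show volume ((fun ζ : ℂ => (ζ, x)) ⁻¹' O) ≤ 0
      rw [this, measure_empty]
  -- lower bound
  have hlow : volume ann * volume {y : Cn n | ‖y‖ < (1 - κ) * ρ' ∧ F (z + y) < Real.exp (-t)} ≤
      ∫⁻ ζ : ℂ, volume (Prod.mk ζ ⁻¹' O) := by
    rw [mul_comm, ← setLIntegral_const, ← lintegral_indicator hannO.measurableSet]
    refine lintegral_mono ?_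
    intro ζ
    by_cases hζ : ζ ∈ ann
    · rw [indicator_of_mem hζ]
      have h1 : ‖ζ‖ < 1 := by simpa using hζ.1
      have h2 : 1 - κ < ‖ζ‖ := by simpa using hζ.2
      have h0 : ζ ≠ 0 := by
        intro h; rw [h, norm_zero] at h2; linarith
      refine (Sko2_smul h0 h1.le _).trans (measure_mono ?_)
      rintro x ⟨hx1, hx2⟩
      simp only at hx1 hx2
      have h3 : ‖x‖ < ρ' := by
        by_contra hge
        rw [not_lt] at hge
        rw [norm_smul] at hx1
        nlinarith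
      refine ⟨h1, h3, ?_, hx2⟩
      apply hz
      rw [mem_ball_iff_norm, add_sub_cancel_left]
      nlinarith
    · rw [indicator_of_notMem hζ]
      exact zero_le
  have hfin : volume ann * volume {y : Cn n | ‖y‖ < (1 - κ) * ρ' ∧ F (z + y) < Real.exp (-t)} ≤
      ENNReal.ofReal (K * Real.exp (-(c / (1 + A)) * t)) * volume (ball (0 : Cn n) ρ') := by
    refine hlow.trans ?_
    rw [← e1, e2]
    exact hup
  have hres : volume {y : Cn n | ‖y‖ < (1 - κ) * ρ' ∧ F (z + y) < Real.exp (-t)} ≤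
      ENNReal.ofReal (K * Real.exp (-(c / (1 + A)) * t)) *
        (volume (ball (0 : Cn n) ρ') / volume ann) := by
    rw [← mul_div_assoc, ENNReal.le_div_iff_mul_le (Or.inl hann0) (Or.inl hannT), mul_comm]
    exact hfin
  refine hres.trans (le_of_eq ?_)
  rw [← ENNReal.ofReal_toReal hMT, ← hM, ← ENNReal.ofReal_mul (by positivity)]
  congr 1
  ring

theorem psh_decay (n : ℕ) (hn : 1 ≤ n) {A : ℝ} (hA : 0 ≤ A) : ∃ c K : ℝ, 0 < c ∧ 0 < K ∧
    ∀ F : Cn n → ℝ, PshOn (ball 0 2) F → (∀ x ∈ ball 0 2, F x ≤ 1) →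
      (∃ x, ‖x‖ ≤ 1 ∧ Real.exp (-A) ≤ F x) → ∀ t : ℝ, 0 < t →
        volume {x : Cn n | ‖x‖ < 3 / 2 ∧ F x < Real.exp (-t)} ≤
          ENNReal.ofReal (K * Real.exp (-c * t)) := by
  -- step 1
  obtain ⟨c₀, K₀, hc₀, hK₀, h₀⟩ := Sko2_step n (ρ := 1) (ρ' := 99 / 100) (κ := 1 / 50)
    (by norm_num) (by norm_num) (by norm_num) (by norm_num) hA
  have hv : 0 < volume (ball (0 : Cn n) (1 / 100)) := measure_ball_pos _ _ (by norm_num)
  obtain ⟨A₁, hA₁, hA₁'⟩ : ∃ A₁ : ℝ, 0 < A₁ ∧
      ENNReal.ofReal (K₀ * Real.exp (-c₀ * A₁)) < volume (ball (0 : Cn n) (1 / 100)) := by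
    have hlim : Filter.Tendsto (fun a : ℝ => ENNReal.ofReal (K₀ * Real.exp (-c₀ * a)))
        Filter.atTop (𝓝 0) := by
      rw [← ENNReal.ofReal_zero]
      refine ENNReal.tendsto_ofReal ?_
      have h1 : Filter.Tendsto (fun a : ℝ => -c₀ * a) Filter.atTop Filter.atBot :=
        Filter.tendsto_id.const_mul_atTop_of_neg (by linarith)
      have h2 := (Real.tendsto_exp_atBot.comp h1).const_mul K₀
      simpa using h2
    have h3 := (hlim.eventually_lt_const hv).and (Filter.eventually_gt_atTop (0 : ℝ))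
    obtain ⟨a, ha1, ha2⟩ := h3.exists
    exact ⟨a, ha2, ha1⟩
  -- step 2
  obtain ⟨c₁, K₁, hc₁, hK₁, h₁⟩ := Sko2_step n (ρ := 193 / 100) (ρ' := 17 / 10) (κ := 1 / 20)
    (by norm_num) (by norm_num) (by norm_num) (by norm_num) hA₁.le
  refine ⟨c₁, K₁, hc₁, hK₁, ?_⟩
  rintro F hF hF1 ⟨z₀, hz₀, hFz₀⟩ t ht
  obtain ⟨z₁, hz₁, hFz₁⟩ : ∃ z₁ : Cn n, ‖z₁‖ ≤ 7 / 100 ∧ Real.exp (-A₁) ≤ F z₁ := by
    by_contra hcon
    push Not at hcon
    have hsub : ball z₀ 1 ⊆ ball (0 : Cn n) 2 := by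
      intro x hx
      rw [mem_ball_iff_norm] at hx
      rw [mem_ball_zero_iff]
      have := norm_le_norm_add_norm_sub' x z₀
      linarith
    have h2 := h₀ F z₀ hF hF1 hsub hFz₀ A₁ hA₁
    have h3 : volume (ball (0 : Cn n) (1 / 100)) ≤
        volume {y : Cn n | ‖y‖ < (1 - 1 / 50) * (99 / 100) ∧ F (z₀ + y) < Real.exp (-A₁)} := by
      have e : ball (-(47 / 50 : ℝ) • z₀) (1 / 100) ⊆
          {y : Cn n | ‖y‖ < (1 - 1 / 50) * (99 / 100) ∧ F (z₀ + y) < Real.exp (-A₁)} := by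
        intro y hy
        rw [mem_ball_iff_norm] at hy
        have n1 : ‖(-(47 / 50 : ℝ)) • z₀‖ = 47 / 50 * ‖z₀‖ := by
          rw [norm_smul, norm_neg, Real.norm_eq_abs, abs_of_pos (by norm_num)]
        constructor
        · have := norm_le_norm_add_norm_sub' y ((-(47 / 50 : ℝ)) • z₀)
          rw [n1] at this
          linarith
        · apply hcon
          have e2 : z₀ + y = (3 / 50 : ℝ) • z₀ + (y - (-(47 / 50 : ℝ)) • z₀) := by
            module
          rw [e2]
          refine (norm_add_le _ _).trans ?_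
          rw [norm_smul, Real.norm_eq_abs, abs_of_pos (by norm_num : (0 : ℝ) < 3 / 50)]
          linarith
      have e3 : volume (ball (-(47 / 50 : ℝ) • z₀) (1 / 100)) =
          volume (ball (0 : Cn n) (1 / 100)) :=
        Measure.addHaar_ball_center _ _ _
      rw [← e3]
      exact measure_mono e
    exact absurd (h3.trans h2) (not_le.mpr hA₁')
  have hsub : ball z₁ (193 / 100) ⊆ ball (0 : Cn n) 2 := by
    intro x hx
    rw [mem_ball_iff_norm] at hx
    rw [mem_ball_zero_iff]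
    have := norm_le_norm_add_norm_sub' x z₁
    linarith
  have h2 := h₁ F z₁ hF hF1 hsub hFz₁ t ht
  refine le_trans ?_ h2
  rw [← measure_preimage_add volume z₁]
  refine measure_mono ?_
  rintro y ⟨hy1, hy2⟩
  refine ⟨?_, hy2⟩
  have h3 : ‖y‖ ≤ ‖z₁ + y‖ + ‖z₁‖ := by
    have := norm_sub_le (z₁ + y) z₁
    rwa [add_sub_cancel_left] at this
  linarith

end HMA
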