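import Pool.Agent.H85.MA.HPTop

/-! # Module STEPA: coisometries, dimension one, total mass -/

open MeasureTheory Metric Set
open scoped ENNReal Topology ContDiff

namespace HMA

theorem StepA_norm_inner_self {E : Type} [NormedAddCommGroup E] [InnerProductSpace ℂ E] (x : E) :
    ‖(inner ℂ x x : ℂ)‖ = ‖x‖ * ‖x‖ := by
  rw [inner_self_eq_norm_sq_to_K, norm_pow, RCLike.norm_ofReal, abs_of_nonneg (norm_nonneg x), sq]

section

variable {V W : Type} [NormedAddCommGroup V] [InnerProductSpace ℂ V] [NormedAddCommGroup W]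
  [InnerProductSpace ℂ W] {L : V →ₗ[ℂ] W}

theorem coi_id : Coi (LinearMap.id : V →ₗ[ℂ] V) :=
  ⟨LinearIsometry.id, fun _ _ => rfl⟩

theorem Coi.norm_le (h : Coi L) (x : V) : ‖L x‖ ≤ ‖x‖ := by
  obtain ⟨J, hJ⟩ := h
  have h1 : ‖L x‖ * ‖L x‖ ≤ ‖x‖ * ‖L x‖ := by
    calc ‖L x‖ * ‖L x‖ = ‖inner ℂ (L x) (L x)‖ := by
          rw [StepA_norm_inner_self]
      _ = ‖inner ℂ x (J (L x))‖ := by rw [hJ]
      _ ≤ ‖x‖ * ‖J (L x)‖ := norm_inner_le_norm _ _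
      _ = ‖x‖ * ‖L x‖ := by rw [J.norm_map]
  rcases eq_or_lt_of_le (norm_nonneg (L x)) with h0 | h0
  · rw [← h0]
    exact norm_nonneg x
  · exact le_of_mul_le_mul_right h1 h0

theorem Coi.exists_norm_eq (h : Coi L) (y : W) : ∃ x : V, L x = y ∧ ‖x‖ = ‖y‖ := by
  obtain ⟨J, hJ⟩ := h
  refine ⟨J y, ?_, J.norm_map y⟩
  apply ext_inner_right ℂ
  intro y'
  rw [hJ, J.inner_map_map]

theorem Coi.finrank_le [FiniteDimensional ℂ V] (h : Coi L) :
    Module.finrank ℂ W ≤ Module.finrank ℂ V := by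
  obtain ⟨J, hJ⟩ := h
  exact LinearMap.finrank_le_finrank_of_injective (f := J.toLinearMap) J.injective

/-- composition with the orthogonal projection to the complement of `p` -/
theorem Coi.proj [FiniteDimensional ℂ W] (h : Coi L) (p : W) :
    ∃ L' : V →ₗ[ℂ] ↥(ℂ ∙ p)ᗮ, Coi L' ∧
      ∀ x, L' x = (ℂ ∙ p)ᗮ.orthogonalProjectionOnto (L x) := by
  obtain ⟨J, hJ⟩ := h
  refine ⟨((ℂ ∙ p)ᗮ.orthogonalProjectionOnto : W →L[ℂ] ↥(ℂ ∙ p)ᗮ).toLinearMap.comp L, ?_,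
    fun x => rfl⟩
  refine ⟨J.comp (ℂ ∙ p)ᗮ.subtypeₗᵢ, ?_⟩
  intro x y
  show inner ℂ ((ℂ ∙ p)ᗮ.orthogonalProjectionOnto (L x)) y = inner ℂ x (J (y : W))
  rw [← hJ]
  exact Submodule.inner_orthogonalProjectionOnto_eq_of_mem_right y (L x)

end

theorem rem_total {V : Type} [NormedAddCommGroup V] [InnerProductSpace ℂ V] [Nontrivial V]
    [MeasurableSpace V] {μ : Measure V} {C ε : ℝ} (h : Rem V μ C ε) :
    μ {x | x ≠ 0} ≤ ENNReal.ofReal C := by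
  obtain ⟨v, hv⟩ := exists_ne (0 : V)
  have hv0 : (0 : ℝ) < ‖v‖ := norm_pos_iff.2 hv
  set e : V := ((‖v‖ : ℂ)⁻¹) • v with he
  have he1 : ‖e‖ = 1 := by
    rw [he, norm_smul, norm_inv, Complex.norm_real, norm_norm, inv_mul_cancel₀ hv0.ne']
  have h1 := h 1 le_rfl (fun x => inner ℂ e x) ?_ ?_ 1 one_pos le_rfl
  · rw [Real.one_rpow, mul_one] at h1
    refine le_trans (measure_mono ?_) h1
    intro x hx
    refine ⟨hx, ?_⟩
    rw [one_pow, one_mul, pow_one]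
    calc ‖inner ℂ e x‖ ≤ ‖e‖ * ‖x‖ := norm_inner_le_norm _ _
      _ = ‖x‖ := by rw [he1, one_mul]
  · exact HP.linear ((innerSL ℂ e : V →L[ℂ] ℂ).toLinearMap)
  · refine ⟨e, he1.le, ?_⟩
    show 1 ≤ ‖inner ℂ e e‖
    rw [StepA_norm_inner_self, he1, one_mul]

theorem stN_one (N : ℕ) (C Λ : ℝ) : StN 1 N C Λ 1 1 := by
  intro V _ _ _ μ W _ _ _ L _ hW _ _ d hd P hP hPne r hr hr1
  obtain ⟨x0, hx0⟩ := hPne
  have hx0' : x0 ≠ 0 := by
    rintro rfl
    exact hx0 (hP.map_zero hd)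
  have hall : ∀ y : W, ∃ c : ℂ, c • x0 = y := by
    intro y
    exact exists_smul_eq_of_finrank_eq_one hW hx0' y
  have hzero : ∀ y, P y = 0 → y = 0 := by
    intro y hy
    obtain ⟨c, rfl⟩ := hall y
    rw [hP.hom] at hy
    rcases mul_eq_zero.1 hy with h | h
    · rw [pow_eq_zero_iff (by omega)] at h
      rw [h, zero_smul]
    · exact absurd h hx0
  have hempty : {x | L x ∈ nearZ P r} = (∅ : Set V) := by
    apply Set.eq_empty_of_forall_notMem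
    rintro x ⟨hx, y, hy, hyx⟩
    rw [hzero y hy, zero_sub, norm_neg] at hyx
    have h0 : 0 < ‖L x‖ := norm_pos_iff.2 hx
    nlinarith
  rw [hempty, measure_empty]
  exact bot_le

end HMA
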