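import Pool.Agent.H85.MA.Chart
import Pool.Agent.H85.MA.StepA

/-! # Module NAFF: homogenisation of polynomials; affine form of theorem N -/

open MeasureTheory Metric Set
open scoped ENNReal Topology ContDiff Pointwise

namespace HMA

/-- the coordinate functional -/
noncomputable def NAff_co {m : ℕ} (j : Fin m) : Cn m →ₗ[ℂ] ℂ where
  toFun := fun x => x j
  map_add' := fun x y => by simp
  map_smul' := fun c x => by simp

/-- homogenisation of degree `D` with respect to the coordinate `i` -/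
noncomputable def NAff_hom {n : ℕ} (D : ℕ) (i : Fin (n + 1)) (P : MvPolynomial (Fin n) ℂ)
    (x : Cn (n + 1)) : ℂ :=
  ∑ m ∈ P.support, P.coeff m * (x i ^ (D - ∑ j, m j) * ∏ j, x (i.succAbove j) ^ m j)

theorem NAff_deg {n : ℕ} {D : ℕ} {P : MvPolynomial (Fin n) ℂ} (hP : P.totalDegree ≤ D)
    {m : Fin n →₀ ℕ} (hm : m ∈ P.support) : ∑ j, m j ≤ D := by
  have h := MvPolynomial.le_totalDegree hm
  have h2 : (m.sum fun _ e => e) = ∑ j, m j := Finsupp.sum_fintype _ _ (fun _ => rfl)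
  omega

theorem NAff_HP {n : ℕ} {D : ℕ} (i : Fin (n + 1)) {P : MvPolynomial (Fin n) ℂ}
    (hP : P.totalDegree ≤ D) : HP (Cn (n + 1)) D (NAff_hom D i P) := by
  unfold NAff_hom
  apply HP.sum
  intro m hm
  apply HP.const_mul
  have hd := NAff_deg hP hm
  have h1 : HP (Cn (n + 1)) (1 * (D - ∑ j, m j)) (fun x => x i ^ (D - ∑ j, m j)) :=
    HP.pow (HP.linear (NAff_co i)) _
  have h2 : HP (Cn (n + 1)) (∑ j ∈ (Finset.univ : Finset (Fin n)), 1 * m j)
      (fun x => ∏ j ∈ (Finset.univ : Finset (Fin n)), x (i.succAbove j) ^ m j) := by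
    apply HP.prod
    intro j _
    exact HP.pow (HP.linear (NAff_co (i.succAbove j))) _
  have h3 := h1.mul h2
  have h4 : 1 * (D - ∑ j, m j) + ∑ j ∈ (Finset.univ : Finset (Fin n)), 1 * m j = D := by
    simp only [one_mul]
    omega
  rw [h4] at h3
  exact h3

theorem NAff_cha {n : ℕ} (D : ℕ) (i : Fin (n + 1)) (P : MvPolynomial (Fin n) ℂ) (z : Cn n) :
    NAff_hom D i P (cha i z) = ev P z := by
  unfold NAff_hom ev
  rw [MvPolynomial.eval_eq]
  apply Finset.sum_congr rfl
  intro m _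
  rw [Chart_cha_self, one_pow, one_mul]
  congr 1
  rw [Finset.prod_subset (Finset.subset_univ m.support)]
  · apply Finset.prod_congr rfl
    intro j _
    rw [Chart_cha_above]
  · intro j _ hj
    rw [Finsupp.notMem_support_iff.mp hj, pow_zero]

theorem NAff_ev_ne {n : ℕ} {P : MvPolynomial (Fin n) ℂ} (hP : P ≠ 0) : ∃ z : Cn n, ev P z ≠ 0 := by
  by_contra hcon
  push Not at hcon
  apply hP
  apply MvPolynomial.funext
  intro x
  have := hcon (WithLp.toLp 2 x)
  simpa [ev] using this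

theorem NAff_ev_cont {n : ℕ} (P : MvPolynomial (Fin n) ℂ) : Continuous (fun z : Cn n => ev P z) := by
  unfold ev
  have h := MvPolynomial.continuous_eval P
  exact h.comp (continuous_pi fun i => Chart_cont_apply i)

theorem NAff_closed {n : ℕ} (P : MvPolynomial (Fin n) ℂ) (r : ℝ) : IsClosed (affZ P r) := by
  have h1 : affZ P r = {z : Cn n | ev P z = 0} + closedBall (0 : Cn n) r := by
    ext z
    rw [Set.mem_add]
    constructor
    · rintro ⟨z', hz', hr⟩
      refine ⟨z', hz', z - z', ?_, by abel⟩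
      rw [mem_closedBall_zero_iff, norm_sub_rev]
      exact hr
    · rintro ⟨z', hz', w, hw, rfl⟩
      refine ⟨z', hz', ?_⟩
      rw [mem_closedBall_zero_iff] at hw
      have : z' - (z' + w) = -w := by abel
      rw [this, norm_neg]
      exact hw
  rw [h1]
  apply IsClosed.add_right_of_isCompact
  · exact isClosed_eq (NAff_ev_cont P) continuous_const
  · exact isCompact_closedBall _ _

theorem affN_of_stN {n N : ℕ} {μ : Measure (Cn (n + 1))} {C Λ C' c : ℝ} (hC' : 0 < C')
    (hc : 0 < c) (hμ : μ {x | x ≠ 0} ≤ ENNReal.ofReal C) (hT : Tub (Cn (n + 1)) μ N C Λ)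
    (hN : StN (n + 1) N C Λ C' c) (i : Fin (n + 1)) :
    AffN n ((μ.restrict (part i)).map (aff i)) C' c := by
  intro D P hD hP hdeg r hr hr1
  have hmeas : MeasurableSet (affZ P r) := (NAff_closed P r).measurableSet
  rw [Measure.map_apply (aff_meas i) hmeas, Measure.restrict_apply (aff_meas i hmeas)]
  obtain ⟨z0, hz0⟩ := NAff_ev_ne hP
  have hmain := hN (Cn (n + 1)) μ (Cn (n + 1)) LinearMap.id coi_id (by simp) hμ hT D hD
    (NAff_hom D i P) (NAff_HP i hdeg) ⟨cha i z0, by rw [NAff_cha]; exact hz0⟩ r hr hr1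
  refine le_trans (measure_mono ?_) hmain
  rintro x ⟨⟨z', hz', hr'⟩, hx⟩
  obtain ⟨hxi, -, -⟩ := aff_bound hx
  refine ⟨hx.1, x i • cha i z', ?_, ?_⟩
  · rw [(NAff_HP i hdeg).hom, NAff_cha, hz', mul_zero]
  · have h1 : x i • cha i z' - (LinearMap.id : Cn (n + 1) →ₗ[ℂ] Cn (n + 1)) x
        = x i • (cha i z' - cha i (aff i x)) := by
      rw [smul_sub, ← cha_aff hxi]
      rfl
    rw [h1, norm_smul, cha_sub]
    have h2 : ‖x i‖ ≤ ‖x‖ := Chart_apply_norm x i
    calc ‖x i‖ * ‖z' - aff i x‖ ≤ ‖x‖ * r := mul_le_mul h2 hr' (norm_nonneg _) (norm_nonneg _)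
      _ = r * ‖(LinearMap.id : Cn (n + 1) →ₗ[ℂ] Cn (n + 1)) x‖ := by
        rw [mul_comm]
        rfl

end HMA
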