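import Pool.Agent.H85.MA.Defs

/-! # Module CHART: affine charts of projective space -/

open MeasureTheory Metric Set
open scoped ENNReal Topology ContDiff

namespace HMA

theorem Chart_cont_apply {m : ℕ} (j : Fin m) : Continuous (fun x : Cn m => x j) := by
  fun_prop

/-- the coordinates other than `i` -/
noncomputable def Chart_rem {n : ℕ} (i : Fin (n + 1)) (x : Cn (n + 1)) : Cn n :=
  WithLp.toLp 2 (fun j => x (i.succAbove j))

theorem Chart_rem_norm {n : ℕ} (i : Fin (n + 1)) (x : Cn (n + 1)) : ‖Chart_rem i x‖ ≤ ‖x‖ := by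
  rw [EuclideanSpace.norm_eq, EuclideanSpace.norm_eq]
  apply Real.sqrt_le_sqrt
  rw [Fin.sum_univ_succAbove _ i]
  have : 0 ≤ ‖x i‖ ^ 2 := by positivity
  simp only [Chart_rem]
  linarith

theorem Chart_apply_norm {m : ℕ} (x : Cn m) (i : Fin m) : ‖x i‖ ≤ ‖x‖ :=
  PiLp.norm_apply_le x i

theorem part_meas {n : ℕ} (i : Fin (n + 1)) : MeasurableSet (part i) := by
  unfold part
  have h1 : {x : Cn (n + 1) | x ≠ 0 ∧ ∀ j, ‖x j‖ ≤ ‖x i‖}
      = {0}ᶜ ∩ ⋂ j, {x : Cn (n + 1) | ‖x j‖ ≤ ‖x i‖} := by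
    ext x
    simp
  rw [h1]
  refine (measurableSet_singleton 0).compl.inter (MeasurableSet.iInter fun j => ?_)
  exact measurableSet_le (Chart_cont_apply j).norm.measurable (Chart_cont_apply i).norm.measurable

theorem aff_meas {n : ℕ} (i : Fin (n + 1)) : Measurable (aff (n := n) i) := by
  unfold aff
  refine (PiLp.continuous_toLp 2 _).measurable.comp (measurable_pi_lambda _ fun j => ?_)
  exact (Chart_cont_apply _).measurable.div (Chart_cont_apply i).measurable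

theorem iUnion_part {n : ℕ} : (⋃ i, part (n := n) i) = {0}ᶜ := by
  ext x
  simp only [mem_iUnion, mem_compl_iff, mem_singleton_iff, part, mem_ofPred_eq]
  constructor
  · rintro ⟨i, h, _⟩
    exact h
  · intro h
    obtain ⟨i, hi⟩ := Finite.exists_max (fun j => ‖x j‖)
    exact ⟨i, h, hi⟩

theorem Chart_cha_self {n : ℕ} (i : Fin (n + 1)) (z : Cn n) : (cha i z) i = 1 := by
  simp [cha]

theorem Chart_cha_above {n : ℕ} (i : Fin (n + 1)) (z : Cn n) (j : Fin n) :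
    (cha i z) (i.succAbove j) = z j := by
  simp [cha]

theorem cha_aff {n : ℕ} {i : Fin (n + 1)} {x : Cn (n + 1)} (hx : x i ≠ 0) :
    x = x i • cha i (aff i x) := by
  ext j
  refine Fin.succAboveCases i ?_ (fun k => ?_) j
  · rw [PiLp.smul_apply, Chart_cha_self, smul_eq_mul, mul_one]
  · rw [PiLp.smul_apply, Chart_cha_above, smul_eq_mul]
    simp only [aff]
    field_simp

theorem aff_bound {n : ℕ} {i : Fin (n + 1)} {x : Cn (n + 1)} (hx : x ∈ part i) :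
    x i ≠ 0 ∧ ‖aff i x‖ ≤ n + 1 ∧ ‖x‖ ≤ (n + 1) * ‖x i‖ := by
  obtain ⟨h0, hmax⟩ := hx
  have hi : x i ≠ 0 := by
    intro hi
    apply h0
    ext j
    have := hmax j
    rw [hi, norm_zero] at this
    simpa using this
  have hpos : 0 < ‖x i‖ := norm_pos_iff.mpr hi
  refine ⟨hi, ?_, ?_⟩
  · rw [EuclideanSpace.norm_eq, Real.sqrt_le_left (by positivity)]
    have h1 : ∑ j, ‖(aff i x) j‖ ^ 2 ≤ ∑ _j : Fin n, (1 : ℝ) := by
      apply Finset.sum_le_sum
      intro j _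
      simp only [aff, norm_div]
      have : ‖x (i.succAbove j)‖ / ‖x i‖ ≤ 1 := by
        rw [div_le_one hpos]
        exact hmax _
      exact pow_le_one₀ (by positivity) this
    rw [Finset.sum_const, Finset.card_univ, Fintype.card_fin, nsmul_eq_mul, mul_one] at h1
    have h2 : (0 : ℝ) ≤ n := Nat.cast_nonneg n
    nlinarith
  · rw [EuclideanSpace.norm_eq, Real.sqrt_le_left (by positivity)]
    have h1 : ∑ j, ‖x j‖ ^ 2 ≤ ∑ _j : Fin (n + 1), ‖x i‖ ^ 2 := by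
      apply Finset.sum_le_sum
      intro j _
      exact pow_le_pow_left₀ (norm_nonneg _) (hmax j) 2
    rw [Finset.sum_const, Finset.card_univ, Fintype.card_fin, nsmul_eq_mul] at h1
    push_cast at h1
    have h2 : (0 : ℝ) ≤ n := Nat.cast_nonneg n
    have h3 : 0 ≤ ‖x i‖ ^ 2 := by positivity
    nlinarith [mul_nonneg h2 h3, mul_nonneg (mul_nonneg h2 h2) h3]

theorem norm_cha {n : ℕ} (i : Fin (n + 1)) (z : Cn n) : ‖cha i z‖ = Real.sqrt (1 + ‖z‖ ^ 2) := by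
  rw [EuclideanSpace.norm_eq, Fin.sum_univ_succAbove _ i, Chart_cha_self]
  congr 1
  rw [EuclideanSpace.norm_sq_eq]
  simp only [Chart_cha_above, norm_one, one_pow]

theorem cha_sub {n : ℕ} (i : Fin (n + 1)) (z z' : Cn n) : ‖cha i z - cha i z'‖ = ‖z - z'‖ := by
  rw [EuclideanSpace.norm_eq, EuclideanSpace.norm_eq, Fin.sum_univ_succAbove _ i]
  simp only [PiLp.sub_apply, Chart_cha_self, Chart_cha_above]
  simp

theorem Chart_cha_cont {n : ℕ} (i : Fin (n + 1)) : Continuous (cha (n := n) i) := by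
  apply Isometry.continuous
  apply Isometry.of_dist_eq
  intro z z'
  rw [dist_eq_norm, dist_eq_norm, cha_sub]

/-- the linear part of the chart -/
theorem Chart_cha_line {n : ℕ} (i : Fin (n + 1)) (b : Cn n) : ∃ b' : Cn (n + 1),
    ∀ (a : Cn n) (c : ℂ), cha i (a + c • b) = cha i a + c • b' := by
  refine ⟨WithLp.toLp 2 (Fin.insertNth (α := fun _ => ℂ) i (0 : ℂ) (fun j => b j)), fun a c => ?_⟩
  ext j
  refine Fin.succAboveCases i ?_ (fun k => ?_) j
  · simp [Chart_cha_self]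
  · simp [Chart_cha_above]

theorem logPsh_cha {n : ℕ} (i : Fin (n + 1)) {F : Cn (n + 1) → ℝ} (hF : LogPsh F) :
    LogPsh (fun z => F (cha i z)) := by
  refine ⟨fun z => hF.nonneg _, ?_, ?_⟩
  · exact UpperSemicontinuous.comp hF.usc (Chart_cha_cont i)
  · intro δ hδ a b
    obtain ⟨b', hb'⟩ := Chart_cha_line i b
    simp only [hb']
    exact hF.submean δ hδ _ _

/-- nearby points in homogeneous and affine coordinates -/
theorem aff_near {n : ℕ} {i : Fin (n + 1)} {x y : Cn (n + 1)} (hx : x ∈ part i) {r : ℝ}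
    (hr : 0 < r) (hr1 : 2 * (n + 1) * r ≤ 1) (hxy : ‖y - x‖ ≤ r * ‖x‖) :
    y i ≠ 0 ∧ ‖y i‖ ≤ (1 + (n + 1) * r) * ‖x i‖ ∧ ‖aff i y - aff i x‖ ≤ 8 * (n + 1) ^ 2 * r := by
  obtain ⟨hi, -, hxn⟩ := aff_bound hx
  have hpos : 0 < ‖x i‖ := norm_pos_iff.mpr hi
  have hn : (0 : ℝ) ≤ n := Nat.cast_nonneg n
  have h1 : ‖y i - x i‖ ≤ r * (n + 1) * ‖x i‖ := by
    calc ‖y i - x i‖ = ‖(y - x) i‖ := by rw [PiLp.sub_apply]
      _ ≤ ‖y - x‖ := Chart_apply_norm _ _
      _ ≤ r * ‖x‖ := hxy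
      _ ≤ r * ((n + 1) * ‖x i‖) := by gcongr
      _ = r * (n + 1) * ‖x i‖ := by ring
  have h2 : ‖y i - x i‖ ≤ ‖x i‖ / 2 := by nlinarith
  have h3 : ‖x i‖ / 2 ≤ ‖y i‖ := by
    have : ‖x i‖ ≤ ‖y i‖ + ‖y i - x i‖ := by
      have h4 := norm_sub_le (y i) (y i - x i)
      simpa using h4
    linarith
  have hyi : 0 < ‖y i‖ := by linarith
  have hy0 : y i ≠ 0 := norm_pos_iff.mp hyi
  refine ⟨hy0, ?_, ?_⟩
  · have h4 : ‖y i‖ ≤ ‖y i - x i‖ + ‖x i‖ := by simpa using norm_add_le (y i - x i) (x i)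
    nlinarith
  · have hid : aff i y - aff i x = (y i)⁻¹ • Chart_rem i (y - x)
        + ((x i - y i) / (x i * y i)) • Chart_rem i x := by
      ext j
      simp only [aff, Chart_rem, PiLp.sub_apply, PiLp.add_apply, PiLp.smul_apply, smul_eq_mul]
      field_simp
      ring
    rw [hid]
    refine (norm_add_le _ _).trans ?_
    rw [norm_smul, norm_smul, norm_inv, norm_div, norm_mul]
    have h5 : ‖Chart_rem i (y - x)‖ ≤ r * ((n + 1) * ‖x i‖) :=
      ((Chart_rem_norm i _).trans hxy).trans (by gcongr)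
    have h6 : ‖Chart_rem i x‖ ≤ (n + 1) * ‖x i‖ := (Chart_rem_norm i _).trans hxn
    have h7 : ‖y i‖⁻¹ ≤ 2 / ‖x i‖ := by
      rw [inv_eq_one_div, div_le_div_iff₀ hyi hpos]
      linarith
    have h8 : ‖y i‖⁻¹ * ‖Chart_rem i (y - x)‖ ≤ 2 * r * (n + 1) := by
      calc ‖y i‖⁻¹ * ‖Chart_rem i (y - x)‖ ≤ 2 / ‖x i‖ * (r * ((n + 1) * ‖x i‖)) :=
            mul_le_mul h7 h5 (norm_nonneg _) (by positivity)
        _ = 2 * r * (n + 1) := by field_simp
    have h9 : ‖x i - y i‖ / (‖x i‖ * ‖y i‖) ≤ 2 * r * (n + 1) / ‖x i‖ := by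
      rw [div_le_div_iff₀ (mul_pos hpos hyi) hpos, norm_sub_rev]
      have h10 : r * (n + 1) * ‖x i‖ * ‖x i‖ ≤ 2 * r * (n + 1) * (‖x i‖ * ‖y i‖) := by
        have : 0 ≤ r * (n + 1) * ‖x i‖ := by positivity
        nlinarith
      calc ‖y i - x i‖ * ‖x i‖ ≤ r * (n + 1) * ‖x i‖ * ‖x i‖ := by gcongr
        _ ≤ 2 * r * (n + 1) * (‖x i‖ * ‖y i‖) := h10
    have h11 : ‖x i - y i‖ / (‖x i‖ * ‖y i‖) * ‖Chart_rem i x‖ ≤ 2 * r * (n + 1) * (n + 1) := by
      calc ‖x i - y i‖ / (‖x i‖ * ‖y i‖) * ‖Chart_rem i x‖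
          ≤ 2 * r * (n + 1) / ‖x i‖ * ((n + 1) * ‖x i‖) :=
            mul_le_mul h9 h6 (norm_nonneg _) (by positivity)
        _ = 2 * r * (n + 1) * (n + 1) := by field_simp
    nlinarith [mul_nonneg hn hr.le, mul_nonneg (mul_nonneg hn hn) hr.le]

end HMA
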