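import Pool.Agent.H85.MA.StepA
import Pool.Agent.H85.MA.Chart

/-! # Module PTUB1: the defining function of a tube in affine coordinates -/

open MeasureTheory Metric Set
open scoped ENNReal Topology ContDiff

namespace HMA

/-- the function `G y = ⟪p, y⟫ / ⟪e, y⟫ - h (π y / ⟪e, y⟫)`, `π` the projection to `p^⊥` -/
noncomputable def tg {W : Type} [NormedAddCommGroup W] [InnerProductSpace ℂ W]
    [FiniteDimensional ℂ W] (p : W) (e : ↥(ℂ ∙ p)ᗮ) (h : ↥(ℂ ∙ p)ᗮ → ℂ) (y : W) : ℂ :=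
  inner ℂ p y / inner ℂ (e : W) y -
    h ((inner ℂ (e : W) y)⁻¹ • (ℂ ∙ p)ᗮ.orthogonalProjectionOnto y)

variable {W : Type} [NormedAddCommGroup W] [InnerProductSpace ℂ W] [FiniteDimensional ℂ W]
  {p : W} {e : ↥(ℂ ∙ p)ᗮ} {h : ↥(ℂ ∙ p)ᗮ → ℂ} {ρ R : ℝ}

theorem PTub1_ep (e : ↥(ℂ ∙ p)ᗮ) : inner ℂ (e : W) p = 0 :=
  Submodule.mem_orthogonal_singleton_iff_inner_left.1 e.2

theorem PTub1_pe (e : ↥(ℂ ∙ p)ᗮ) : inner ℂ p (e : W) = 0 :=
  Submodule.mem_orthogonal_singleton_iff_inner_right.1 e.2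

theorem PTub1_ratio {c : ℂ} (hc : c ≠ 0) (y : W) :
    (inner ℂ (e : W) (c • y))⁻¹ • (ℂ ∙ p)ᗮ.orthogonalProjectionOnto (c • y) =
      (inner ℂ (e : W) y)⁻¹ • (ℂ ∙ p)ᗮ.orthogonalProjectionOnto y := by
  rw [inner_smul_right, map_smul, smul_smul, mul_inv, mul_right_comm, inv_mul_cancel₀ hc, one_mul]

theorem PTub1_smul {c : ℂ} (hc : c ≠ 0) (y : W) : tg p e h (c • y) = tg p e h y := by
  unfold tg
  rw [PTub1_ratio hc, inner_smul_right, inner_smul_right, mul_div_mul_left _ _ hc]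

theorem PTub1_add {y : W} (hp : ‖p‖ = 1) (τ : ℂ) :
    tg p e h (y + τ • p) = tg p e h y + τ / inner ℂ (e : W) y := by
  unfold tg
  have h1 : (ℂ ∙ p)ᗮ.orthogonalProjectionOnto p = 0 :=
    Submodule.orthogonalProjectionOnto_orthogonalComplement_singleton_eq_zero p
  rw [inner_add_right, inner_add_right, inner_smul_right, inner_smul_right, PTub1_ep,
    inner_self_eq_norm_sq_to_K, hp, map_add, map_smul, h1]
  simp only [mul_zero, add_zero, smul_zero]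
  push_cast
  ring

/-- Lipschitz estimate for `h` -/
theorem PTub1_lip (hρ : 0 < ρ) (hh : ∀ z ∈ ball e ρ, AnalyticAt ℂ h z)
    (hb : ∀ z ∈ ball e ρ, ‖h z‖ ≤ R) {z z' : ↥(ℂ ∙ p)ᗮ} (hz : ‖z - e‖ ≤ ρ / 2)
    (hz' : ‖z' - z‖ < ρ / 2) : ‖h z' - h z‖ ≤ 4 * R / ρ * ‖z' - z‖ := by
  have hsub : ball z (ρ / 2) ⊆ ball e ρ := by
    apply ball_subset_ball'
    rw [dist_eq_norm]
    linarith
  have h1 := Complex.dist_le_div_mul_dist_of_mapsTo_ball (f := h) (c := z) (R₁ := ρ / 2)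
    (R₂ := 2 * R) (z := z') (fun w hw => (hh w (hsub hw)).differentiableAt.differentiableWithinAt)
    (by
      intro w hw
      rw [mem_closedBall, dist_eq_norm]
      have e1 := hb w (hsub hw)
      have e2 := hb z (hsub (mem_ball_self (by positivity)))
      calc ‖h w - h z‖ ≤ ‖h w‖ + ‖h z‖ := norm_sub_le _ _
        _ ≤ 2 * R := by linarith)
    (by rw [mem_ball, dist_eq_norm]; exact hz')
  rw [dist_eq_norm, dist_eq_norm] at h1
  refine h1.trans (le_of_eq ?_)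
  field_simp
  ring

theorem PTub1_num1 {ρ R q A : ℝ} (hA : 0 < A) (hq : q = A * ρ) (hρ : 0 < ρ) (hρ1 : ρ ≤ 1 / 4)
    (hR : 1 ≤ R) : (q + q * R) * (64 / 63) ≤ 3 * R * A := by
  have e1 : q ≤ A := by rw [hq]; nlinarith
  nlinarith [mul_nonneg hA.le (by linarith : (0 : ℝ) ≤ R - 1), mul_nonneg
    (by linarith : (0 : ℝ) ≤ A - q) (by linarith : (0 : ℝ) ≤ R)]

theorem PTub1_num2 {ρ R q A : ℝ} (hq : q = A * ρ) (hρ : 0 < ρ) :
    4 * R / ρ * (3 * q) = 12 * R * A := by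
  rw [hq]; field_simp; ring

theorem PTub1_num3 {ρ R q B : ℝ} (hB : 63 / 64 ≤ B) (hq : q ≤ ρ / 16) (hρ : 0 < ρ)
    (hρ1 : ρ ≤ 1 / 4) (hR : 1 ≤ R) : 1 + ρ ^ 2 + R + q ≤ 4 * R * B := by
  nlinarith

theorem PTub1_num4 {ρ q : ℝ} (hq : q ≤ ρ ^ 3) (hρ : 0 < ρ) (hρ1 : ρ ≤ 1 / 4) :
    64 / 63 * (ρ ^ 2 + 2 * q) ≤ ρ / 2 := by
  nlinarith [mul_pos hρ hρ]

/-- points of the tube -/
theorem tg_tube (hp : ‖p‖ = 1) (he : ‖e‖ = 1) (hρ : 0 < ρ) (hρ1 : ρ ≤ 1 / 4) (hR : 1 ≤ R)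
    (hh : ∀ z ∈ ball e ρ, AnalyticAt ℂ h z) (hb : ∀ z ∈ ball e ρ, ‖h z‖ ≤ R) {N : ℕ} (hN : 3 ≤ N)
    {y : W} (hy : y ∈ tube p e h (ρ ^ 2) (ρ ^ N)) :
    inner ℂ (e : W) y ≠ 0 ∧ ‖y‖ ≤ 4 * R * ‖inner ℂ (e : W) y‖ ∧
      ‖(inner ℂ (e : W) y)⁻¹ • (ℂ ∙ p)ᗮ.orthogonalProjectionOnto y - e‖ ≤ ρ / 2 ∧
      ‖tg p e h y‖ ≤ 32 * R * ρ ^ (N - 1) := by
  obtain ⟨hy0, c, hc, u, hu, hun, hX⟩ := hy
  have heW : ‖(e : W)‖ = 1 := he
  -- numerical facts
  have hq1 : ρ ^ N ≤ ρ ^ 3 := pow_le_pow_of_le_one hρ.le (by linarith) hN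
  have hq2 : ρ ^ 3 ≤ ρ / 16 := by nlinarith [mul_pos hρ hρ]
  have hq0 : 0 < ρ ^ N := by positivity
  have hq3 : ρ ^ N = ρ ^ (N - 1) * ρ := by
    rw [← pow_succ]; congr 1; omega
  have hq4 : 0 < ρ ^ (N - 1) := by positivity
  set q : ℝ := ρ ^ N with hq
  set err : W := c • y - ((e + u : ↥(ℂ ∙ p)ᗮ) : W) - h (e + u) • p with herr
  have hXe : c • y = ((e + u : ↥(ℂ ∙ p)ᗮ) : W) + h (e + u) • p + err := by
    rw [herr]; abel
  have hr2 : ρ ^ 2 ≤ ρ / 4 := by nlinarith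
  have hmem : e + u ∈ ball e ρ := by
    rw [mem_ball, dist_eq_norm, add_sub_cancel_left]
    linarith
  have hhR : ‖h (e + u)‖ ≤ R := hb _ hmem
  -- `a`
  set a : ℂ := inner ℂ (e : W) (c • y) with ha
  have ha1 : a = 1 + inner ℂ (e : W) err := by
    rw [ha, hXe, inner_add_right, inner_add_right, inner_smul_right, PTub1_ep,
      Submodule.coe_add, inner_add_right, inner_self_eq_norm_sq_to_K, heW]
    have : inner ℂ (e : W) (u : W) = 0 := hu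
    rw [this]
    push_cast
    ring
  have ha2 : ‖a - 1‖ ≤ q := by
    rw [ha1, add_sub_cancel_left]
    calc ‖inner ℂ (e : W) err‖ ≤ ‖(e : W)‖ * ‖err‖ := norm_inner_le_norm _ _
      _ ≤ q := by rw [heW, one_mul]; exact hX
  have ha3 : 63 / 64 ≤ ‖a‖ := by
    have h1 : ‖(1 : ℂ)‖ ≤ ‖a‖ + ‖a - 1‖ := by
      have := norm_sub_le a (a - 1)
      rwa [sub_sub_cancel] at this
    rw [norm_one] at h1
    linarith
  have ha0 : a ≠ 0 := by
    intro h0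
    rw [h0, norm_zero] at ha3
    norm_num at ha3
  have hinv : ‖a⁻¹‖ ≤ 64 / 63 := by
    rw [norm_inv]
    rw [inv_le_comm₀ (by linarith) (by norm_num)]
    linarith
  have hay : a = c * inner ℂ (e : W) y := by rw [ha, inner_smul_right]
  have hy1 : inner ℂ (e : W) y ≠ 0 := by
    intro h0
    rw [h0, mul_zero] at hay
    exact ha0 hay
  -- projection
  have hπ : (ℂ ∙ p)ᗮ.orthogonalProjectionOnto (c • y) =
      e + u + (ℂ ∙ p)ᗮ.orthogonalProjectionOnto err := by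
    rw [hXe, map_add, map_add, map_smul,
      Submodule.orthogonalProjectionOnto_orthogonalComplement_singleton_eq_zero, smul_zero,
      add_zero, Submodule.orthogonalProjectionOnto_mem_subspace_eq_self]
  set err' := (ℂ ∙ p)ᗮ.orthogonalProjectionOnto err with herr'
  have herrn : ‖err'‖ ≤ q :=
    (Submodule.norm_orthogonalProjectionOnto_apply_le _ _).trans hX
  have hratio : (inner ℂ (e : W) y)⁻¹ • (ℂ ∙ p)ᗮ.orthogonalProjectionOnto y =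
      a⁻¹ • (e + u + err') := by
    rw [← PTub1_ratio hc, ← ha, hπ]
  refine ⟨hy1, ?_, ?_, ?_⟩
  · have h1 : ‖c • y‖ ≤ 1 + ρ ^ 2 + R + q := by
      rw [hXe]
      calc ‖((e + u : ↥(ℂ ∙ p)ᗮ) : W) + h (e + u) • p + err‖
          ≤ ‖((e + u : ↥(ℂ ∙ p)ᗮ) : W) + h (e + u) • p‖ + ‖err‖ := norm_add_le _ _
        _ ≤ ‖((e + u : ↥(ℂ ∙ p)ᗮ) : W)‖ + ‖h (e + u) • p‖ + ‖err‖ := by
            gcongr; exact norm_add_le _ _
        _ ≤ (‖(e : W)‖ + ‖(u : W)‖) + ‖h (e + u) • p‖ + ‖err‖ := by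
            gcongr; rw [Submodule.coe_add]; exact norm_add_le _ _
        _ ≤ 1 + ρ ^ 2 + R + q := by
            rw [norm_smul, hp, mul_one, heW]
            have : ‖(u : W)‖ ≤ ρ ^ 2 := hun
            linarith
    have h2 : ‖c • y‖ ≤ 4 * R * ‖a‖ := h1.trans (PTub1_num3 ha3 (hq1.trans hq2) hρ hρ1 hR)
    rw [norm_smul, hay, norm_mul] at h2
    have hcpos : 0 < ‖c‖ := norm_pos_iff.2 hc
    have h3 : ‖c‖ * ‖y‖ ≤ ‖c‖ * (4 * R * ‖inner ℂ (e : W) y‖) := by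
      refine h2.trans (le_of_eq ?_)
      ring
    exact le_of_mul_le_mul_left h3 hcpos
  · rw [hratio]
    have h1 : a⁻¹ • (e + u + err') - e = a⁻¹ • (u + err' + (1 - a) • e) := by
      have : e = a⁻¹ • a • e := by rw [smul_smul, inv_mul_cancel₀ ha0, one_smul]
      calc a⁻¹ • (e + u + err') - e = a⁻¹ • (e + u + err') - a⁻¹ • a • e := by rw [← this]
        _ = a⁻¹ • (u + err' + (1 - a) • e) := by
          rw [← smul_sub]
          congr 1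
          rw [sub_smul, one_smul]
          abel
    rw [h1, norm_smul]
    have h2 : ‖u + err' + (1 - a) • e‖ ≤ ρ ^ 2 + 2 * q := by
      calc ‖u + err' + (1 - a) • e‖ ≤ ‖u + err'‖ + ‖(1 - a) • e‖ := norm_add_le _ _
        _ ≤ ‖u‖ + ‖err'‖ + ‖(1 - a) • e‖ := by gcongr; exact norm_add_le _ _
        _ ≤ ρ ^ 2 + 2 * q := by
          rw [norm_smul, he, mul_one, norm_sub_rev]
          linarith
    calc ‖a⁻¹‖ * ‖u + err' + (1 - a) • e‖ ≤ 64 / 63 * (ρ ^ 2 + 2 * q) := by gcongr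
      _ ≤ ρ / 2 := PTub1_num4 hq1 hρ hρ1
  · rw [← PTub1_smul hc]
    unfold tg
    rw [← ha, hπ]
    have h1 : inner ℂ p (c • y) = h (e + u) + inner ℂ p err := by
      rw [hXe, inner_add_right, inner_add_right, inner_smul_right, PTub1_pe,
        inner_self_eq_norm_sq_to_K, hp]
      push_cast
      ring
    have h2 : ‖inner ℂ p err‖ ≤ q := by
      calc ‖inner ℂ p err‖ ≤ ‖p‖ * ‖err‖ := norm_inner_le_norm _ _
        _ ≤ q := by rw [hp, one_mul]; exact hX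
    have h3 : a⁻¹ • (e + u + err') - (e + u) = a⁻¹ • (err' + (1 - a) • (e + u)) := by
      have : e + u = a⁻¹ • a • (e + u) := by rw [smul_smul, inv_mul_cancel₀ ha0, one_smul]
      calc a⁻¹ • (e + u + err') - (e + u) = a⁻¹ • (e + u + err') - a⁻¹ • a • (e + u) := by
            rw [← this]
        _ = a⁻¹ • (err' + (1 - a) • (e + u)) := by
          rw [← smul_sub]
          congr 1
          rw [sub_smul, one_smul]
          abel
    have heu : ‖e + u‖ ≤ 17 / 16 := by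
      calc ‖e + u‖ ≤ ‖e‖ + ‖u‖ := norm_add_le _ _
        _ ≤ 17 / 16 := by rw [he]; nlinarith
    have h4 : ‖a⁻¹ • (e + u + err') - (e + u)‖ ≤ 3 * q := by
      rw [h3, norm_smul]
      have : ‖err' + (1 - a) • (e + u)‖ ≤ q + q * (17 / 16) := by
        calc ‖err' + (1 - a) • (e + u)‖ ≤ ‖err'‖ + ‖(1 - a) • (e + u)‖ := norm_add_le _ _
          _ ≤ q + q * (17 / 16) := by
            rw [norm_smul, norm_sub_rev]
            gcongr
      calc ‖a⁻¹‖ * ‖err' + (1 - a) • (e + u)‖ ≤ 64 / 63 * (q + q * (17 / 16)) := by gcongr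
        _ ≤ 3 * q := by linarith
    have h5 : ‖h (a⁻¹ • (e + u + err')) - h (e + u)‖ ≤ 4 * R / ρ * (3 * q) := by
      refine (PTub1_lip hρ hh hb (z := e + u) (z' := a⁻¹ • (e + u + err')) ?_ ?_).trans ?_
      · rw [add_sub_cancel_left]; linarith
      · linarith
      · gcongr
    have h6 : (h (e + u) + inner ℂ p err) / a - h (a⁻¹ • (e + u + err')) =
        (inner ℂ p err + (1 - a) * h (e + u)) * a⁻¹ -
          (h (a⁻¹ • (e + u + err')) - h (e + u)) := by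
      field_simp
      ring
    rw [h1, h6]
    have h7 : ‖(inner ℂ p err + (1 - a) * h (e + u)) * a⁻¹‖ ≤ (q + q * R) * (64 / 63) := by
      rw [norm_mul]
      gcongr
      calc ‖inner ℂ p err + (1 - a) * h (e + u)‖ ≤ ‖inner ℂ p err‖ + ‖(1 - a) * h (e + u)‖ :=
            norm_add_le _ _
        _ ≤ q + q * R := by
          rw [norm_mul, norm_sub_rev]
          gcongr
    have h8 : 4 * R / ρ * (3 * q) = 12 * R * ρ ^ (N - 1) := PTub1_num2 hq3 hρ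
    have h9 : (q + q * R) * (64 / 63) ≤ 3 * R * ρ ^ (N - 1) := PTub1_num1 hq4 hq3 hρ hρ1 hR
    calc ‖(inner ℂ p err + (1 - a) * h (e + u)) * a⁻¹ -
          (h (a⁻¹ • (e + u + err')) - h (e + u))‖
        ≤ ‖(inner ℂ p err + (1 - a) * h (e + u)) * a⁻¹‖ +
          ‖h (a⁻¹ • (e + u + err')) - h (e + u)‖ := norm_sub_le _ _
      _ ≤ 3 * R * ρ ^ (N - 1) + 12 * R * ρ ^ (N - 1) := by
          rw [← h8]
          exact add_le_add (h7.trans h9) h5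
      _ = 15 * (R * ρ ^ (N - 1)) := by ring
      _ ≤ 32 * (R * ρ ^ (N - 1)) := by
          gcongr
          norm_num
      _ = 32 * R * ρ ^ (N - 1) := by ring

theorem PTub1_cha_zero {n : ℕ} (z : Cn n) : (cha 0 z) 0 = 1 := by
  simp [cha]

theorem PTub1_cha_succ {n : ℕ} (z : Cn n) (j : Fin n) : (cha 0 z) j.succ = z j := by
  simp [cha]

theorem PTub1_cha_diff {n : ℕ} : Differentiable ℂ (fun z : Cn n => cha 0 z) := by
  rw [differentiable_euclidean]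
  intro i
  refine Fin.cases ?_ (fun j => ?_) i
  · simp only [PTub1_cha_zero]
    exact differentiable_const _
  · simp only [PTub1_cha_succ]
    fun_prop

theorem PTub1_Y_diff {n : ℕ} (L : Cn (n + 1) →ₗ[ℂ] W) :
    Differentiable ℂ (fun z : Cn n => L (cha 0 z)) := by
  have h1 : (fun z : Cn n => L (cha 0 z)) =
      fun z : Cn n => (LinearMap.toContinuousLinearMap L) (cha 0 z) := rfl
  rw [h1]
  exact (LinearMap.toContinuousLinearMap L).differentiable.comp PTub1_cha_diff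

theorem PTub1_inner_diff {n : ℕ} (L : Cn (n + 1) →ₗ[ℂ] W) (q : W) :
    Differentiable ℂ (fun z : Cn n => inner ℂ q (L (cha 0 z))) := by
  have h1 : (fun z : Cn n => inner ℂ q (L (cha 0 z))) =
      fun z : Cn n => (innerSL ℂ q) (L (cha 0 z)) := by
    funext z
    rw [innerSL_apply_apply]
  rw [h1]
  exact (innerSL ℂ q).differentiable.comp (PTub1_Y_diff L)

theorem PTub1_K_diff {n : ℕ} (L : Cn (n + 1) →ₗ[ℂ] W) :
    Differentiable ℂ (fun z : Cn n => (ℂ ∙ p)ᗮ.orthogonalProjectionOnto (L (cha 0 z))) :=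
  ((ℂ ∙ p)ᗮ.orthogonalProjectionOnto).differentiable.comp (PTub1_Y_diff L)

theorem PTub1_near {n : ℕ} {L : Cn (n + 1) →ₗ[ℂ] W} (hL : Coi L) (he : ‖e‖ = 1)
    (hρ : 0 < ρ) (hρ1 : ρ ≤ 1 / 4) {t s : ℝ} (ht : 0 < t) (hs : 0 < s)
    (hs1 : 64 * s ≤ t * ρ) {z₀ : Cn n}
    (h0 : t ≤ ‖inner ℂ (e : W) (L (cha 0 z₀))‖)
    (h1 : ‖(inner ℂ (e : W) (L (cha 0 z₀)))⁻¹ •
      (ℂ ∙ p)ᗮ.orthogonalProjectionOnto (L (cha 0 z₀)) - e‖ ≤ ρ / 2) {z : Cn n}
    (hz : z ∈ ball z₀ s) : t / 2 ≤ ‖inner ℂ (e : W) (L (cha 0 z))‖ ∧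
      (inner ℂ (e : W) (L (cha 0 z)))⁻¹ •
      (ℂ ∙ p)ᗮ.orthogonalProjectionOnto (L (cha 0 z)) ∈ ball e ρ := by
  have heW : ‖(e : W)‖ = 1 := he
  have hY : ‖L (cha 0 z) - L (cha 0 z₀)‖ < s := by
    rw [← map_sub]
    refine (hL.norm_le _).trans_lt ?_
    rw [cha_sub, ← dist_eq_norm]
    exact hz
  set y := L (cha 0 z) with hy
  set y₀ := L (cha 0 z₀) with hy₀
  have hb : ‖inner ℂ (e : W) y - inner ℂ (e : W) y₀‖ < s := by
    rw [← inner_sub_right]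
    calc ‖inner ℂ (e : W) (y - y₀)‖ ≤ ‖(e : W)‖ * ‖y - y₀‖ := norm_inner_le_norm _ _
      _ < s := by rw [heW, one_mul]; exact hY
  have hst : s ≤ t / 256 := by nlinarith
  have hb2 : t / 2 ≤ ‖inner ℂ (e : W) y‖ := by
    have := norm_sub_norm_le (inner ℂ (e : W) y₀) (inner ℂ (e : W) y)
    rw [norm_sub_rev] at this
    linarith
  refine ⟨hb2, ?_⟩
  have hbne : inner ℂ (e : W) y ≠ 0 := by
    intro h
    rw [h, norm_zero] at hb2
    linarith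
  have hb0ne : inner ℂ (e : W) y₀ ≠ 0 := by
    intro h
    rw [h, norm_zero] at h0
    linarith
  set b := inner ℂ (e : W) y with hbdef
  set b₀ := inner ℂ (e : W) y₀ with hb₀def
  set K₀ := b₀⁻¹ • (ℂ ∙ p)ᗮ.orthogonalProjectionOnto y₀ with hK₀
  have hK : b⁻¹ • (ℂ ∙ p)ᗮ.orthogonalProjectionOnto y - K₀ =
      b⁻¹ • ((ℂ ∙ p)ᗮ.orthogonalProjectionOnto (y - y₀) - (b - b₀) • K₀) := by
    have e1 : K₀ = b⁻¹ • b • K₀ := by rw [smul_smul, inv_mul_cancel₀ hbne, one_smul]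
    have e2 : b₀ • K₀ = (ℂ ∙ p)ᗮ.orthogonalProjectionOnto y₀ := by
      rw [hK₀, smul_smul, mul_inv_cancel₀ hb0ne, one_smul]
    calc b⁻¹ • (ℂ ∙ p)ᗮ.orthogonalProjectionOnto y - K₀
        = b⁻¹ • (ℂ ∙ p)ᗮ.orthogonalProjectionOnto y - b⁻¹ • b • K₀ := by rw [← e1]
      _ = b⁻¹ • ((ℂ ∙ p)ᗮ.orthogonalProjectionOnto (y - y₀) - (b - b₀) • K₀) := by
          rw [← smul_sub, sub_smul, e2, map_sub]
          congr 1
          abel
  have hK₀n : ‖K₀‖ ≤ 9 / 8 := by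
    calc ‖K₀‖ = ‖(K₀ - e) + e‖ := by rw [sub_add_cancel]
      _ ≤ ‖K₀ - e‖ + ‖e‖ := norm_add_le _ _
      _ ≤ 9 / 8 := by rw [he]; linarith
  have hinv : ‖b⁻¹‖ ≤ 2 / t := by
    rw [norm_inv, inv_le_comm₀ (by linarith) (by positivity), inv_div]
    exact hb2
  have hKn : ‖b⁻¹ • (ℂ ∙ p)ᗮ.orthogonalProjectionOnto y - K₀‖ < ρ / 2 := by
    rw [hK, norm_smul]
    have e1 : ‖(ℂ ∙ p)ᗮ.orthogonalProjectionOnto (y - y₀) - (b - b₀) • K₀‖ ≤
        s + s * (9 / 8) := by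
      calc ‖(ℂ ∙ p)ᗮ.orthogonalProjectionOnto (y - y₀) - (b - b₀) • K₀‖
          ≤ ‖(ℂ ∙ p)ᗮ.orthogonalProjectionOnto (y - y₀)‖ + ‖(b - b₀) • K₀‖ := norm_sub_le _ _
        _ ≤ s + s * (9 / 8) := by
          rw [norm_smul]
          have := Submodule.norm_orthogonalProjectionOnto_apply_le (ℂ ∙ p)ᗮ (y - y₀)
          have e3 : ‖b - b₀‖ * ‖K₀‖ ≤ s * (9 / 8) := by gcongr
          linarith
    calc ‖b⁻¹‖ * ‖(ℂ ∙ p)ᗮ.orthogonalProjectionOnto (y - y₀) - (b - b₀) • K₀‖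
        ≤ 2 / t * (s + s * (9 / 8)) := by gcongr
      _ < ρ / 2 := by
        rw [div_mul_eq_mul_div, div_lt_iff₀ ht]
        nlinarith
  rw [mem_ball, dist_eq_norm]
  calc ‖b⁻¹ • (ℂ ∙ p)ᗮ.orthogonalProjectionOnto y - e‖
      = ‖(b⁻¹ • (ℂ ∙ p)ᗮ.orthogonalProjectionOnto y - K₀) + (K₀ - e)‖ := by
        rw [sub_add_sub_cancel]
    _ ≤ ‖b⁻¹ • (ℂ ∙ p)ᗮ.orthogonalProjectionOnto y - K₀‖ + ‖K₀ - e‖ := norm_add_le _ _
    _ < ρ := by linarith

theorem PTub1_diffAt {n : ℕ} {L : Cn (n + 1) →ₗ[ℂ] W} (hh : ∀ z ∈ ball e ρ, AnalyticAt ℂ h z)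
    {z : Cn n} (hb : inner ℂ (e : W) (L (cha 0 z)) ≠ 0)
    (hK : (inner ℂ (e : W) (L (cha 0 z)))⁻¹ •
      (ℂ ∙ p)ᗮ.orthogonalProjectionOnto (L (cha 0 z)) ∈ ball e ρ) :
    DifferentiableAt ℂ (fun z => tg p e h (L (cha 0 z))) z := by
  unfold tg
  have h1 : DifferentiableAt ℂ (fun z : Cn n => inner ℂ p (L (cha 0 z))) z :=
    (PTub1_inner_diff L p).differentiableAt
  have h2 : DifferentiableAt ℂ (fun z : Cn n => inner ℂ (e : W) (L (cha 0 z))) z :=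
    (PTub1_inner_diff L (e : W)).differentiableAt
  have h3 : DifferentiableAt ℂ (fun z : Cn n => (inner ℂ (e : W) (L (cha 0 z)))⁻¹ •
      (ℂ ∙ p)ᗮ.orthogonalProjectionOnto (L (cha 0 z))) z :=
    (h2.inv hb).smul (PTub1_K_diff L).differentiableAt
  have h4 : DifferentiableAt ℂ (fun z : Cn n => h ((inner ℂ (e : W) (L (cha 0 z)))⁻¹ •
      (ℂ ∙ p)ᗮ.orthogonalProjectionOnto (L (cha 0 z)))) z :=
    DifferentiableAt.comp (g := h) (f := fun z : Cn n => (inner ℂ (e : W) (L (cha 0 z)))⁻¹ •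
      (ℂ ∙ p)ᗮ.orthogonalProjectionOnto (L (cha 0 z))) z (hh _ hK).differentiableAt h3
  have h5 : DifferentiableAt ℂ (fun z : Cn n => inner ℂ p (L (cha 0 z)) *
      (inner ℂ (e : W) (L (cha 0 z)))⁻¹) z := h1.mul (h2.inv hb)
  simp only [div_eq_mul_inv]
  exact h5.sub h4

theorem PTub1_grad {n : ℕ} {L : Cn (n + 1) →ₗ[ℂ] W} (hL : Coi L) (hp : ‖p‖ = 1)
    {z₀ : Cn n} (hz₀ : ‖z₀‖ ≤ 1)
    (h0 : inner ℂ (e : W) (L (cha 0 z₀)) ≠ 0) (he : ‖e‖ = 1)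
    (hd : DifferentiableAt ℂ (fun z => tg p e h (L (cha 0 z))) z₀) :
      1 / 4 ≤ ‖fderiv ℂ (fun z => tg p e h (L (cha 0 z))) z₀‖ := by
  have hL' := hL
  obtain ⟨J, hJ⟩ := hL'
  have heW : ‖(e : W)‖ = 1 := he
  have hLJ : ∀ y, L (J y) = y := by
    intro y
    refine ext_inner_right ℂ fun v => ?_
    rw [hJ, LinearIsometry.inner_map_map]
  have hJp : ‖J p‖ = 1 := by rw [LinearIsometry.norm_map, hp]
  set a : ℂ := (J p) 0 with ha
  have han : ‖a‖ ≤ 1 := by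
    rw [← hJp]
    exact PiLp.norm_apply_le (J p) 0
  set w : Cn n := WithLp.toLp 2 (fun j => (J p) j.succ - a * z₀ j) with hw
  have hline : ∀ τ : ℂ, cha 0 (z₀ + τ • w) = (1 - τ * a) • cha 0 z₀ + τ • J p := by
    intro τ
    ext i
    refine Fin.cases ?_ (fun j => ?_) i
    · rw [PTub1_cha_zero]
      simp only [PiLp.add_apply, PiLp.smul_apply, PTub1_cha_zero, smul_eq_mul]
      rw [← ha]
      ring
    · rw [PTub1_cha_succ]
      simp only [PiLp.add_apply, PiLp.smul_apply, PTub1_cha_succ, smul_eq_mul, hw]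
      ring
  have hx₀ : ‖cha 0 z₀‖ ≤ 3 / 2 := by
    rw [norm_cha]
    rw [Real.sqrt_le_left (by norm_num)]
    nlinarith [norm_nonneg z₀]
  have hwn : ‖w‖ ≤ 5 / 2 := by
    have h1 := cha_sub 0 (z₀ + (1 : ℂ) • w) z₀
    rw [hline 1, add_sub_cancel_left, one_smul ℂ w] at h1
    rw [← h1]
    have h2 : (1 - 1 * a) • cha 0 z₀ + (1 : ℂ) • J p - cha 0 z₀ = J p - a • cha 0 z₀ := by
      rw [one_mul, sub_smul, one_smul, one_smul]
      abel
    rw [h2]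
    calc ‖J p - a • cha 0 z₀‖ ≤ ‖J p‖ + ‖a • cha 0 z₀‖ := norm_sub_le _ _
      _ ≤ 1 + 1 * (3 / 2) := by
        rw [hJp, norm_smul]
        gcongr
      _ = 5 / 2 := by norm_num
  set b₀ := inner ℂ (e : W) (L (cha 0 z₀)) with hb₀
  have hb₀n : ‖b₀‖ ≤ 3 / 2 := by
    calc ‖b₀‖ ≤ ‖(e : W)‖ * ‖L (cha 0 z₀)‖ := norm_inner_le_norm _ _
      _ ≤ 3 / 2 := by
        rw [heW, one_mul]
        exact (hL.norm_le _).trans hx₀
  -- the derivative along `w`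
  set F : Cn n → ℂ := fun z => tg p e h (L (cha 0 z)) with hF
  have hd1 : HasDerivAt (fun τ : ℂ => F (z₀ + τ • w)) (fderiv ℂ F z₀ w) 0 := by
    have h1 : HasDerivAt (fun τ : ℂ => z₀ + τ • w) w 0 := by
      have := ((hasDerivAt_id (0 : ℂ)).smul_const w).const_add z₀
      simpa using this
    have h2 : HasFDerivAt F (fderiv ℂ F z₀) ((fun τ : ℂ => z₀ + τ • w) 0) := by
      simp only [zero_smul, add_zero]
      exact hd.hasFDerivAt
    exact h2.comp_hasDerivAt (0 : ℂ) h1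
  have hne : ∀ᶠ τ : ℂ in nhds 0, 1 - τ * a ≠ 0 := by
    have : ContinuousAt (fun τ : ℂ => 1 - τ * a) 0 := by fun_prop
    apply this.eventually_ne
    simp
  have hev : (fun τ : ℂ => F (z₀ + τ • w)) =ᶠ[nhds 0]
      fun τ : ℂ => tg p e h (L (cha 0 z₀)) + (τ / (1 - τ * a)) / b₀ := by
    filter_upwards [hne] with τ hτ
    show tg p e h (L (cha 0 (z₀ + τ • w))) = _
    rw [hline, map_add, map_smul, map_smul, hLJ]
    have e1 : (1 - τ * a) • L (cha 0 z₀) + τ • p =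
        (1 - τ * a) • (L (cha 0 z₀) + (τ / (1 - τ * a)) • p) := by
      rw [smul_add, smul_smul, mul_div_cancel₀ _ hτ]
    rw [e1, PTub1_smul hτ, PTub1_add hp]
  have hd2 : HasDerivAt (fun τ : ℂ => tg p e h (L (cha 0 z₀)) + (τ / (1 - τ * a)) / b₀)
      (1 / b₀) 0 := by
    have h1 : HasDerivAt (fun τ : ℂ => 1 - τ * a) (-a) 0 := by
      have := ((hasDerivAt_id (0 : ℂ)).mul_const a).const_sub 1
      simpa using this
    have h2 := ((hasDerivAt_id (0 : ℂ)).div h1 (by simp)).div_const b₀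
    have h3 := h2.const_add (tg p e h (L (cha 0 z₀)))
    simpa using h3
  have hd3 := hd1.unique (hd2.congr_of_eventuallyEq hev)
  have h4 : 2 / 3 ≤ ‖fderiv ℂ F z₀ w‖ := by
    rw [hd3, norm_div, norm_one, le_div_iff₀ (norm_pos_iff.2 h0)]
    linarith
  have h5 := (fderiv ℂ F z₀).le_opNorm w
  have h6 : ‖fderiv ℂ F z₀‖ * ‖w‖ ≤ ‖fderiv ℂ F z₀‖ * (5 / 2) := by gcongr
  linarith

/-- the local function near a point `z₀` of the chart, for `t ≤ |⟪e, y₀⟫|` -/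
theorem tg_local {n : ℕ} {L : Cn (n + 1) →ₗ[ℂ] W} (hL : Coi L) (hp : ‖p‖ = 1) (he : ‖e‖ = 1)
    (hρ : 0 < ρ) (hρ1 : ρ ≤ 1 / 4) (hR : 1 ≤ R) (hh : ∀ z ∈ ball e ρ, AnalyticAt ℂ h z)
    (hb : ∀ z ∈ ball e ρ, ‖h z‖ ≤ R) {t s : ℝ} (ht : 0 < t) (ht1 : t ≤ 1) (hs : 0 < s)
    (hs1 : 64 * R * s ≤ t ^ 2 * ρ) {z₀ : Cn n} (hz₀ : ‖z₀‖ ≤ 1)
    (h0 : t ≤ ‖inner ℂ (e : W) (L (cha 0 z₀))‖)
    (h1 : ‖(inner ℂ (e : W) (L (cha 0 z₀)))⁻¹ •
      (ℂ ∙ p)ᗮ.orthogonalProjectionOnto (L (cha 0 z₀)) - e‖ ≤ ρ / 2) :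
    DifferentiableOn ℂ (fun z => tg p e h (L (cha 0 z))) (ball z₀ s) ∧
      (∀ z ∈ ball z₀ s, ‖tg p e h (L (cha 0 z))‖ ≤ s⁻¹) ∧
      1 / 4 ≤ ‖fderiv ℂ (fun z => tg p e h (L (cha 0 z))) z₀‖ := by
  have ht2 : t ^ 2 ≤ t := by nlinarith
  have h64 : 64 * s ≤ 64 * R * s := by nlinarith
  have hst : 64 * s ≤ t * ρ := by nlinarith
  have hnear := fun z hz => PTub1_near (z := z) hL he hρ hρ1 ht hs hst h0 h1 hz
  have hbne : ∀ z ∈ ball z₀ s, inner ℂ (e : W) (L (cha 0 z)) ≠ 0 := by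
    intro z hz h
    have := (hnear z hz).1
    rw [h, norm_zero] at this
    linarith
  refine ⟨fun z hz => (PTub1_diffAt hh (hbne z hz) (hnear z hz).2).differentiableWithinAt, ?_, ?_⟩
  · intro z hz
    obtain ⟨h2, h3⟩ := hnear z hz
    have hs4 : s ≤ 1 / 256 := by nlinarith
    have hzn : ‖z‖ ≤ 1 + s := by
      have e1 : ‖z - z₀‖ < s := by rw [← dist_eq_norm]; exact hz
      have := norm_add_le (z - z₀) z₀
      rw [sub_add_cancel] at this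
      linarith
    have hx : ‖cha 0 z‖ ≤ 3 := by
      rw [norm_cha, Real.sqrt_le_left (by norm_num)]
      nlinarith [norm_nonneg z]
    have hy : ‖inner ℂ p (L (cha 0 z))‖ ≤ 3 := by
      calc ‖inner ℂ p (L (cha 0 z))‖ ≤ ‖p‖ * ‖L (cha 0 z)‖ := norm_inner_le_norm _ _
        _ ≤ 3 := by rw [hp, one_mul]; exact (hL.norm_le _).trans hx
    have h4 : ‖tg p e h (L (cha 0 z))‖ ≤ 3 / (t / 2) + R := by
      unfold tg
      refine (norm_sub_le _ _).trans (add_le_add ?_ (hb _ h3))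
      rw [norm_div]
      gcongr
    refine h4.trans ?_
    have h5 : 3 / (t / 2) + R ≤ 7 * R / t := by
      rw [le_div_iff₀ ht]
      have : (3 / (t / 2) + R) * t = 6 + R * t := by field_simp; ring
      rw [this]
      nlinarith
    refine h5.trans ?_
    rw [div_le_iff₀ ht, ← div_eq_inv_mul, le_div_iff₀ hs]
    nlinarith [mul_pos hs (by linarith : (0 : ℝ) < R)]
  · exact PTub1_grad hL hp hz₀ (hbne z₀ (mem_ball_self hs)) he
      (PTub1_diffAt hh (hbne z₀ (mem_ball_self hs)) (hnear z₀ (mem_ball_self hs)).2)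

end HMA
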