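import Pool.Agent.H85.MA.Slab2
import Pool.Agent.H85.MA.PTub1

/-! # Module PTUB2: the capacity type condition implies the tube property -/

open MeasureTheory Metric Set
open scoped ENNReal Topology ContDiff

namespace HMA

theorem cha_embedding {n : ℕ} (i : Fin (n + 1)) : MeasurableEmbedding (cha (n := n) i) := by
  have h : Isometry (cha (n := n) i) := by
    refine Isometry.of_dist_eq fun z z' => ?_
    rw [dist_eq_norm, dist_eq_norm, cha_sub]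
  exact h.isClosedEmbedding.measurableEmbedding

/-- numerical inequality for the parameter `s` -/
theorem PTub2_num1 {ρ R : ℝ} (hρ : 0 < ρ) (hρ1 : ρ ≤ 1 / 4) (hR : 1 ≤ R) (M : ℕ) :
    64 * R * (ρ / (4 * R)) ^ (2 * M + 6) ≤ ((ρ / (4 * R)) ^ M) ^ 2 * ρ := by
  have hR0 : 0 < R := by linarith
  set q : ℝ := ρ / (4 * R) with hq
  have hq0 : 0 < q := by positivity
  have hq1 : q ≤ 1 / 16 := by
    rw [hq, div_le_iff₀ (by positivity)]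
    nlinarith
  have hqR : 4 * R * q = ρ := by
    rw [hq]
    field_simp
  have h1 : q ^ 5 ≤ 1 / 16 := by
    calc q ^ 5 ≤ q ^ 1 := pow_le_pow_of_le_one hq0.le (by linarith) (by norm_num)
      _ = q := pow_one q
      _ ≤ 1 / 16 := hq1
  have h2 : 64 * R * q ^ (2 * M + 6) = (q ^ M) ^ 2 * (4 * R * q) * (16 * q ^ 5) := by ring
  rw [h2, hqR]
  have h3 : 16 * q ^ 5 ≤ 1 := by linarith
  calc (q ^ M) ^ 2 * ρ * (16 * q ^ 5) ≤ (q ^ M) ^ 2 * ρ * 1 :=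
        mul_le_mul_of_nonneg_left h3 (by positivity)
    _ = _ := mul_one _

theorem PTub2_num2 {ρ R : ℝ} (hρ : 0 < ρ) (hρ1 : ρ ≤ 1 / 4) (hR : 1 ≤ R) (hR1 : R ≤ 1 / ρ)
    (κ M : ℕ) :
    64 * R * ρ ^ (3 * (κ * M) + 8 - 1) ≤ ((ρ / (4 * R)) ^ κ) ^ M := by
  have hR0 : 0 < R := by linarith
  have hRρ : R * ρ ≤ 1 := by
    rwa [le_div_iff₀ hρ] at hR1
  have h0 : 3 * (κ * M) + 8 - 1 = 3 * (κ * M) + 7 := by omega
  have h1 : ρ ^ 3 ≤ ρ / (4 * R) := by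
    rw [le_div_iff₀ (by positivity)]
    have : ρ ^ 3 * (4 * R) = (4 * ρ) * ρ * (R * ρ) := by ring
    rw [this]
    have h2 : 4 * ρ ≤ 1 := by linarith
    calc (4 * ρ) * ρ * (R * ρ) ≤ 1 * ρ * 1 := by
          apply mul_le_mul _ hRρ (by positivity) (by positivity)
          exact mul_le_mul_of_nonneg_right h2 hρ.le
      _ = ρ := by ring
  rw [h0, ← pow_mul]
  calc 64 * R * ρ ^ (3 * (κ * M) + 7) = (R * ρ) * (64 * ρ ^ 3) * ρ ^ 3 * (ρ ^ 3) ^ (κ * M) := by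
        rw [← pow_mul]
        ring
    _ ≤ 1 * 1 * 1 * (ρ ^ 3) ^ (κ * M) := by
        have h3 : ρ ^ 3 ≤ (1 / 4) ^ 3 := pow_le_pow_left₀ hρ.le hρ1 3
        have h4 : 64 * ρ ^ 3 ≤ 1 := by
          norm_num at h3
          linarith
        have h5 : ρ ^ 3 ≤ 1 := by
          norm_num at h3
          linarith
        gcongr
    _ = (ρ ^ 3) ^ (κ * M) := by ring
    _ ≤ (ρ / (4 * R)) ^ (κ * M) := pow_le_pow_left₀ (by positivity) h1 _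

theorem tub_of_polyB (n : ℕ) (hn : 1 ≤ n) {C ε Λ : ℝ} (hC : 0 < C) (hε : 0 < ε) (hΛ : 0 ≤ Λ) :
    ∃ (N : ℕ) (C₁ : ℝ), 3 ≤ N ∧ 0 < C₁ ∧
    ∀ (μ : Measure (Cn n)), μ univ ≤ ENNReal.ofReal C → μ {z | 1 < ‖z‖} = 0 → PolyB n μ C ε →
      (μ.map (cha 0)) {x | x ≠ 0} ≤ ENNReal.ofReal C₁ ∧ Tub (Cn (n + 1)) (μ.map (cha 0)) N C₁ Λ := by
  obtain ⟨M₂, C₂, hC₂, hlin⟩ := slab_lin n hn hC hε hΛ
  obtain ⟨M₃, C₃, hM₃, hC₃, hslab⟩ := slab n hn (C := C) (ε := ε) (Λ := 16 * n + Λ) hC hε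
    (by positivity)
  obtain ⟨B, hB, hnet⟩ := net n
  set κ : ℕ := 2 * M₂ + 6 with hκ
  set C₁ : ℝ := C + Λ + C₂ + B ^ (2 * n) * C₃ + 1 with hC₁
  have hBC : 0 < B ^ (2 * n) * C₃ := by positivity
  have hC₁0 : 0 < C₁ := by positivity
  refine ⟨3 * (κ * M₃) + 8, C₁, by omega, hC₁0, ?_⟩
  intro μ hμ hμ1 hP
  constructor
  · calc (μ.map (cha 0)) {x | x ≠ 0} ≤ (μ.map (cha 0)) univ := measure_mono (subset_univ _)
      _ = μ univ := by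
        rw [(cha_embedding 0).map_apply, preimage_univ]
      _ ≤ ENNReal.ofReal C := hμ
      _ ≤ ENNReal.ofReal C₁ := ENNReal.ofReal_le_ofReal (by rw [hC₁]; linarith)
  intro W _ _ _ L hL p e h ρ R hp he hρ hρ1 hR hh hb
  rw [(cha_embedding 0).map_apply]
  have hR0 : 0 < R := by linarith
  have hRC : 1 ≤ R ^ C₁ := Real.one_le_rpow hR hC₁0.le
  have hρΛ : 0 < ρ ^ Λ := Real.rpow_pos_of_pos hρ Λ
  rcases lt_or_ge (1 / ρ) R with hRρ | hRρ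
  · -- trivial bound
    refine (measure_mono (subset_univ _)).trans (hμ.trans (ENNReal.ofReal_le_ofReal ?_))
    have h1 : 1 ≤ R * ρ := by
      rw [div_lt_iff₀ hρ] at hRρ
      exact hRρ.le
    have h2 : R ^ Λ ≤ R ^ C₁ := Real.rpow_le_rpow_of_exponent_le hR (by rw [hC₁]; linarith)
    have h3 : 1 ≤ R ^ Λ * ρ ^ Λ := by
      rw [← Real.mul_rpow hR0.le hρ.le]
      exact Real.one_le_rpow h1 hΛ
    calc C ≤ C₁ * 1 := by rw [hC₁]; linarith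
      _ ≤ C₁ * (R ^ Λ * ρ ^ Λ) := mul_le_mul_of_nonneg_left h3 hC₁0.le
      _ ≤ C₁ * (R ^ C₁ * ρ ^ Λ) := by gcongr
      _ = C₁ * R ^ C₁ * ρ ^ Λ := by ring
  set q : ℝ := ρ / (4 * R) with hq
  have hq0 : 0 < q := by positivity
  have hq1 : q ≤ 1 / 16 := by
    rw [hq, div_le_iff₀ (by positivity)]
    nlinarith
  have hqρ : q ≤ ρ := by
    rw [hq]
    exact div_le_self hρ.le (by linarith)
  set t : ℝ := q ^ M₂ with ht
  set s : ℝ := q ^ κ with hs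
  have ht0 : 0 < t := by positivity
  have ht1 : t ≤ 1 := pow_le_one₀ hq0.le (by linarith)
  have hs0 : 0 < s := by positivity
  have hsq : s ≤ q := by
    calc s = q ^ κ := rfl
      _ ≤ q ^ 1 := pow_le_pow_of_le_one hq0.le (by linarith) (by omega)
      _ = q := pow_one q
  obtain ⟨J, hJ⟩ := hL
  -- the two cases
  set SA : Set (Cn n) := {z | ‖z‖ ≤ 1 ∧ ‖inner ℂ (J (e : W)) (cha 0 z)‖ ≤ q ^ M₂} with hSA
  set SB : Set (Cn n) := {z | ‖z‖ ≤ 1 ∧ L (cha 0 z) ∈ tube p e h (ρ ^ 2) (ρ ^ (3 * (κ * M₃) + 8)) ∧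
    t ≤ ‖inner ℂ (e : W) (L (cha 0 z))‖} with hSB
  have hinner : ∀ x : Cn (n + 1), ‖inner ℂ (J (e : W)) x‖ = ‖inner ℂ (e : W) (L x)‖ := by
    intro x
    rw [← norm_inner_symm (L x) (e : W), hJ x (e : W), norm_inner_symm]
  have hcover : (cha 0 ⁻¹' {x | L x ∈ tube p e h (ρ ^ 2) (ρ ^ (3 * (κ * M₃) + 8))}) ⊆
      {z | 1 < ‖z‖} ∪ (SA ∪ SB) := by
    intro z hz
    rcases lt_or_ge 1 ‖z‖ with h1 | h1
    · exact Or.inl h1
    · refine Or.inr ?_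
      rcases le_total ‖inner ℂ (e : W) (L (cha 0 z))‖ t with h2 | h2
      · refine Or.inl ⟨h1, ?_⟩
        rw [hinner]
        exact h2
      · exact Or.inr ⟨h1, hz, h2⟩
  have hA : μ SA ≤ ENNReal.ofReal (C₂ * ρ ^ Λ) := by
    refine (hlin μ hμ hP (J (e : W)) q ?_ hq0 (by linarith)).trans (ENNReal.ofReal_le_ofReal ?_)
    · rw [J.norm_map]
      exact he
    · exact mul_le_mul_of_nonneg_left (Real.rpow_le_rpow hq0.le hqρ hΛ) hC₂.le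
  have hBm : μ SB ≤ ENNReal.ofReal (B ^ (2 * n) * C₃ * ρ ^ Λ) := by
    obtain ⟨T, hTS, hTc, hTn⟩ := hnet (Cn n) (by simp) SB (fun z hz => hz.1) (s ^ 8)
      (by positivity) (pow_le_one₀ hs0.le (by linarith))
    have hsub : SB ⊆ ⋃ z₀ ∈ T, {z | ‖z - z₀‖ ≤ s ^ 8 ∧
        ‖tg p e h (L (cha 0 z)) - tg p e h (L (cha 0 z₀))‖ ≤ s ^ M₃} := by
      intro z hz
      obtain ⟨z₀, hz₀T, hz₀⟩ := hTn z hz
      have hz₀S : z₀ ∈ SB := hTS hz₀T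
      simp only [mem_iUnion, exists_prop]
      refine ⟨z₀, hz₀T, hz₀, ?_⟩
      have h1 := (tg_tube hp he hρ hρ1 hR hh hb (by omega) hz.2.1).2.2.2
      have h2 := (tg_tube hp he hρ hρ1 hR hh hb (by omega) hz₀S.2.1).2.2.2
      calc ‖tg p e h (L (cha 0 z)) - tg p e h (L (cha 0 z₀))‖
          ≤ ‖tg p e h (L (cha 0 z))‖ + ‖tg p e h (L (cha 0 z₀))‖ := norm_sub_le _ _
        _ ≤ 32 * R * ρ ^ (3 * (κ * M₃) + 8 - 1) + 32 * R * ρ ^ (3 * (κ * M₃) + 8 - 1) :=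
            add_le_add h1 h2
        _ = 64 * R * ρ ^ (3 * (κ * M₃) + 8 - 1) := by ring
        _ ≤ s ^ M₃ := PTub2_num2 hρ hρ1 hR hRρ κ M₃
    have hone : ∀ z₀ ∈ T, μ {z | ‖z - z₀‖ ≤ s ^ 8 ∧
        ‖tg p e h (L (cha 0 z)) - tg p e h (L (cha 0 z₀))‖ ≤ s ^ M₃} ≤
          ENNReal.ofReal (C₃ * s ^ (16 * (n : ℝ) + Λ)) := by
      intro z₀ hz₀T
      have hz₀S : z₀ ∈ SB := hTS hz₀T
      have h1 := (tg_tube hp he hρ hρ1 hR hh hb (by omega) hz₀S.2.1).2.2.1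
      obtain ⟨h2, h3, h4⟩ := tg_local ⟨J, hJ⟩ hp he hρ hρ1 hR hh hb ht0 ht1 hs0
        (PTub2_num1 hρ hρ1 hR M₂) hz₀S.1 hz₀S.2.2 h1
      exact hslab μ hμ hP z₀ (fun z => tg p e h (L (cha 0 z))) s hz₀S.1 hs0 (by linarith) h2 h3
        (by linarith)
    calc μ SB ≤ μ (⋃ z₀ ∈ T, {z | ‖z - z₀‖ ≤ s ^ 8 ∧
          ‖tg p e h (L (cha 0 z)) - tg p e h (L (cha 0 z₀))‖ ≤ s ^ M₃}) := measure_mono hsub
      _ ≤ ∑ z₀ ∈ T, μ {z | ‖z - z₀‖ ≤ s ^ 8 ∧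
          ‖tg p e h (L (cha 0 z)) - tg p e h (L (cha 0 z₀))‖ ≤ s ^ M₃} :=
          measure_biUnion_finset_le _ _
      _ ≤ ∑ _z₀ ∈ T, ENNReal.ofReal (C₃ * s ^ (16 * (n : ℝ) + Λ)) := Finset.sum_le_sum hone
      _ = (T.card : ℝ≥0∞) * ENNReal.ofReal (C₃ * s ^ (16 * (n : ℝ) + Λ)) := by
          rw [Finset.sum_const, nsmul_eq_mul]
      _ = ENNReal.ofReal ((T.card : ℝ) * (C₃ * s ^ (16 * (n : ℝ) + Λ))) := by
          rw [ENNReal.ofReal_mul (Nat.cast_nonneg _), ENNReal.ofReal_natCast]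
      _ ≤ ENNReal.ofReal (B ^ (2 * n) * C₃ * ρ ^ Λ) := by
          refine ENNReal.ofReal_le_ofReal ?_
          have h5 : s ^ (16 * (n : ℝ) + Λ) = s ^ (16 * n) * s ^ Λ := by
            rw [Real.rpow_add hs0, ← Real.rpow_natCast s (16 * n)]
            push_cast
            rfl
          have h6 : (B / s ^ 8) ^ (2 * n) * s ^ (16 * n) = B ^ (2 * n) := by
            rw [div_pow, ← pow_mul, show 8 * (2 * n) = 16 * n by ring]
            field_simp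
          have h7 : s ^ Λ ≤ ρ ^ Λ := Real.rpow_le_rpow hs0.le (hsq.trans hqρ) hΛ
          calc (T.card : ℝ) * (C₃ * s ^ (16 * (n : ℝ) + Λ))
              ≤ (B / s ^ 8) ^ (2 * n) * (C₃ * s ^ (16 * (n : ℝ) + Λ)) :=
                mul_le_mul_of_nonneg_right hTc (by positivity)
            _ = ((B / s ^ 8) ^ (2 * n) * s ^ (16 * n)) * C₃ * s ^ Λ := by
                rw [h5]
                ring
            _ = B ^ (2 * n) * C₃ * s ^ Λ := by rw [h6]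
            _ ≤ B ^ (2 * n) * C₃ * ρ ^ Λ := mul_le_mul_of_nonneg_left h7 hBC.le
  calc μ (cha 0 ⁻¹' {x | L x ∈ tube p e h (ρ ^ 2) (ρ ^ (3 * (κ * M₃) + 8))})
      ≤ μ ({z | 1 < ‖z‖} ∪ (SA ∪ SB)) := measure_mono hcover
    _ ≤ μ {z | 1 < ‖z‖} + (μ SA + μ SB) :=
        (measure_union_le _ _).trans (add_le_add le_rfl (measure_union_le _ _))
    _ ≤ 0 + (ENNReal.ofReal (C₂ * ρ ^ Λ) + ENNReal.ofReal (B ^ (2 * n) * C₃ * ρ ^ Λ)) := by
        rw [hμ1]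
        gcongr
    _ = ENNReal.ofReal ((C₂ + B ^ (2 * n) * C₃) * ρ ^ Λ) := by
        rw [zero_add, ← ENNReal.ofReal_add (by positivity) (by positivity)]
        congr 1
        ring
    _ ≤ ENNReal.ofReal (C₁ * R ^ C₁ * ρ ^ Λ) := by
        refine ENNReal.ofReal_le_ofReal ?_
        refine mul_le_mul_of_nonneg_right ?_ hρΛ.le
        calc C₂ + B ^ (2 * n) * C₃ ≤ C₁ * 1 := by rw [hC₁]; linarith
          _ ≤ C₁ * R ^ C₁ := mul_le_mul_of_nonneg_left hRC hC₁0.le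

end HMA
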