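import Pool.Agent.H85.MA.StepC

/-! # Theorem N (assembled) -/

open MeasureTheory Metric Set
open scoped ENNReal Topology ContDiff

namespace HMA

theorem thmN (n N : ℕ) {C Λ : ℝ} (hC : 0 < C) (hN : 3 ≤ N) (hΛ : 4 * n + 1 ≤ Λ) :
    ∃ C₁ c₁ : ℝ, 0 < C₁ ∧ 0 < c₁ ∧ StN (n + 1) N C Λ C₁ c₁ := by
  induction n with
  | zero => exact ⟨1, 1, one_pos, one_pos, stN_one N C Λ⟩
  | succ m ih =>
    have h1 : 4 * ((m : ℝ) + 1) + 1 ≤ Λ := by push_cast at hΛ; linarith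
    obtain ⟨C₀, c₀, h1', h2, h3⟩ := ih (by linarith)
    exact stN_succ m N hC hN h1 h1' h2 h3

end HMA
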