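import Pool.Agent.H85.MA.LFin
import Pool.Agent.H85.MA.PTub2
import Pool.Agent.H85.MA.ThmN
import Pool.Agent.H85.MA.NAff

/-! # Module LMAIN: the local theorem -/

open MeasureTheory Metric Set
open scoped ENNReal Topology ContDiff

namespace HMA

theorem LMain_cha_same {n : ℕ} (i : Fin (n + 1)) (z : Cn n) : cha i z i = 1 := by
  unfold cha
  simp

theorem LMain_cha_succ {n : ℕ} (i : Fin (n + 1)) (z : Cn n) (j : Fin n) :
    cha i z (i.succAbove j) = z j := by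
  unfold cha
  simp

theorem LMain_aff_cha {n : ℕ} (i : Fin (n + 1)) (z : Cn n) : aff i (cha i z) = z := by
  ext j
  unfold aff
  simp only [LMain_cha_same, LMain_cha_succ, div_one]

theorem LMain_cha_part {n : ℕ} (i : Fin (n + 1)) (z : Cn n) (hz : ‖z‖ ≤ 1) : cha i z ∈ part i := by
  refine ⟨?_, fun j => ?_⟩
  · intro h
    have h1 := LMain_cha_same i z
    rw [h] at h1
    simp at h1
  · rw [LMain_cha_same, norm_one]
    rcases Fin.eq_self_or_eq_succAbove i j with rfl | ⟨k, rfl⟩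
    · rw [LMain_cha_same, norm_one]
    · rw [LMain_cha_succ]
      exact le_trans (PiLp.norm_apply_le z k) hz

theorem LMain_map {n : ℕ} {ν : Measure (Cn n)} (hν : ν {z | 1 < ‖z‖} = 0) :
    ((ν.map (cha 0)).restrict (part 0)).map (aff 0) = ν := by
  have hc : Measurable (cha (n := n) 0) := (cha_embedding 0).measurable
  have hae : ∀ᵐ x ∂(ν.map (cha 0)), x ∈ part (n := n) 0 := by
    refine (ae_map_iff (p := fun x => x ∈ part (n := n) 0) hc.aemeasurable (part_meas 0)).2 ?_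
    have h1 : ∀ᵐ z ∂ν, ¬ (1 < ‖z‖) := by
      rw [ae_iff]
      simpa using hν
    filter_upwards [h1] with z hz
    exact LMain_cha_part 0 z (not_lt.1 hz)
  rw [Measure.restrict_eq_self_of_ae_mem hae, Measure.map_map (aff_meas 0) hc]
  have e : aff (n := n) 0 ∘ cha 0 = id := by
    funext z
    exact LMain_aff_cha 0 z
  rw [e, Measure.map_id]

theorem LMain_polyB {n : ℕ} {μ ν : Measure (Cn n)} {C C' ε : ℝ} (hC : C ≤ C') (hν : ν ≤ μ)
    (hP : PolyB n μ C ε) : PolyB n ν C' ε := by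
  intro Φ s h1 h2 h3 h4 h5
  refine le_trans (hν _) (le_trans (hP Φ s h1 h2 h3 h4 h5) ?_)
  exact ENNReal.ofReal_le_ofReal (mul_le_mul_of_nonneg_right hC (Real.exp_pos _).le)

theorem local_holder {n : ℕ} (hn : 1 ≤ n) {μ : Measure (Cn n)} [IsFiniteMeasure μ]
    (hμ : μ {z | 1 < ‖z‖} = 0) {C ε : ℝ} (hC : 0 < C) (hε : 0 < ε) (hP : PolyB n μ C ε) :
    ∃ α : ℝ, 0 < α ∧ ∀ A : ℝ, 0 ≤ A → ∃ K : ℝ, 0 < K ∧
      ∀ F G : Cn n → ℝ, PshOn (ball 0 2) F → PshOn (ball 0 2) G → (∀ x ∈ ball 0 2, F x ≤ 1) →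
        (∀ x ∈ ball 0 2, G x ≤ 1) → (∃ x, ‖x‖ ≤ 1 ∧ Real.exp (-A) ≤ F x) →
        (∃ x, ‖x‖ ≤ 1 ∧ Real.exp (-A) ≤ G x) →
        Integrable (fun z => Real.log (F z)) μ ∧
        |(∫ z, Real.log (F z) ∂μ) - ∫ z, Real.log (G z) ∂μ| ≤
          K * (∫ x in ball (0 : Cn n) (3 / 2), |Real.log (F x) - Real.log (G x)|) ^ α := by
  obtain ⟨N, C₁, hN, hC₁, hT⟩ := tub_of_polyB n hn (C := max C 1) (ε := ε) (Λ := 4 * n + 1)
    (lt_max_of_lt_left hC) hε (by positivity)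
  obtain ⟨C₂, c₂, hC₂, hc₂, hSt⟩ := thmN n N (C := C₁) (Λ := 4 * n + 1) hC₁ hN le_rfl
  obtain ⟨α, hα, hA⟩ := loc_holder n hn hC₂ hc₂
  -- the scaling factor
  set c : ℝ≥0∞ := (1 + μ univ)⁻¹ with hcdef
  have hμt : 1 + μ univ ≠ ⊤ := ENNReal.add_ne_top.2 ⟨ENNReal.one_ne_top, measure_ne_top μ univ⟩
  have hμ1 : (1 : ℝ≥0∞) ≤ 1 + μ univ := le_self_add
  have hc0 : c ≠ 0 := ENNReal.inv_ne_zero.2 hμt
  have hc1 : c ≤ 1 := by
    rw [hcdef, ENNReal.inv_le_one]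
    exact hμ1
  have hct : c ≠ ⊤ := ne_top_of_le_ne_top ENNReal.one_ne_top hc1
  have hcr : 0 < c.toReal := ENNReal.toReal_pos hc0 hct
  set ν : Measure (Cn n) := c • μ with hν
  have hνle : ν ≤ μ := by
    intro s
    rw [hν, Measure.smul_apply, smul_eq_mul]
    calc c * μ s ≤ 1 * μ s := by gcongr
      _ = μ s := one_mul _
  have hν1 : ν univ ≤ 1 := by
    rw [hν, Measure.smul_apply, smul_eq_mul, hcdef, mul_comm, ← div_eq_mul_inv]
    exact ENNReal.div_le_of_le_mul (by rw [one_mul]; exact le_add_self)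
  have hν0 : ν {z | 1 < ‖z‖} = 0 := le_antisymm (le_trans (hνle _) (le_of_eq hμ)) zero_le
  have hνP : PolyB n ν (max C 1) ε := LMain_polyB (le_max_left C 1) hνle hP
  obtain ⟨hm, htub⟩ := hT ν (le_trans hν1 (by
    rw [← ENNReal.ofReal_one]
    exact ENNReal.ofReal_le_ofReal (le_max_right C 1))) hν0 hνP
  have hAff : AffN n ν C₂ c₂ := by
    have h := affN_of_stN hC₂ hc₂ hm htub hSt 0
    rwa [LMain_map hν0] at h
  refine ⟨α, hα, fun A hA0 => ?_⟩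
  obtain ⟨K, hK, hKK⟩ := hA A hA0
  refine ⟨c.toReal⁻¹ * K, by positivity, ?_⟩
  intro F G hF hG hF1 hG1 hFA hGA
  obtain ⟨hi, hb⟩ := hKK ν hν1 hν0 hAff F G hF hG hF1 hG1 hFA hGA
  refine ⟨(integrable_smul_measure hc0 hct).1 hi, ?_⟩
  rw [hν, integral_smul_measure, integral_smul_measure, smul_eq_mul, smul_eq_mul, ← mul_sub,
    abs_mul, abs_of_pos hcr] at hb
  rw [mul_assoc, inv_mul_eq_div, le_div_iff₀ hcr, mul_comm]
  exact hb

end HMA
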