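import Pool.Agent.H85.MA.OmegaL1
import Pool.Agent.H85.MA.Jensen

/-! # Module PRODP: infinite geometric means of `ω`-psh functions -/

open MeasureTheory Metric Set
open scoped ENNReal Topology ContDiff

namespace HMA

section ProdPshAux

open Filter

variable {V : Type} [NormedAddCommGroup V] [NormedSpace ℂ V]

/-- limits of sub-mean value inequalities -/
theorem ProdPsh_lim {f : ℕ → ℝ → ℝ} {g : ℝ → ℝ} {x : ℕ → ℝ} {y C : ℝ}
    (hm : ∀ k, Measurable (f k)) (hC : ∀ k θ, |f k θ| ≤ C)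
    (hlim : ∀ θ, Tendsto (fun k => f k θ) atTop (𝓝 (g θ))) (hx : Tendsto x atTop (𝓝 y))
    (h : ∀ k, x k ≤ (2 * Real.pi)⁻¹ * ∫ θ in (0 : ℝ)..(2 * Real.pi), f k θ) :
    y ≤ (2 * Real.pi)⁻¹ * ∫ θ in (0 : ℝ)..(2 * Real.pi), g θ := by
  have h1 : Tendsto (fun k => ∫ θ in (0 : ℝ)..(2 * Real.pi), f k θ) atTop
      (𝓝 (∫ θ in (0 : ℝ)..(2 * Real.pi), g θ)) := by
    apply intervalIntegral.tendsto_integral_filter_of_dominated_convergence (fun _ => C)
    · exact Eventually.of_forall fun k => (hm k).aestronglyMeasurable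
    · exact Eventually.of_forall fun k => Eventually.of_forall fun θ _ => hC k θ
    · exact intervalIntegrable_const
    · exact Eventually.of_forall fun θ _ => hlim θ
  exact le_of_tendsto_of_tendsto' hx (h1.const_mul _) h

theorem ProdPsh_int {f : ℝ → ℝ} {C : ℝ} (hm : Measurable f) (hC : ∀ θ, |f θ| ≤ C) :
    IntervalIntegrable f volume 0 (2 * Real.pi) := by
  refine (intervalIntegrable_const (c := C)).mono_fun hm.aestronglyMeasurable ?_
  refine Eventually.of_forall fun θ => ?_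
  show ‖f θ‖ ≤ ‖C‖
  rw [Real.norm_eq_abs, Real.norm_eq_abs]
  exact (hC θ).trans (le_abs_self C)

theorem ProdPsh_mono {f g : ℝ → ℝ} {C C' : ℝ} (hm : Measurable f) (hC : ∀ θ, |f θ| ≤ C)
    (hm' : Measurable g) (hC' : ∀ θ, |g θ| ≤ C') (h : ∀ θ, f θ ≤ g θ) :
    (2 * Real.pi)⁻¹ * ∫ θ in (0 : ℝ)..(2 * Real.pi), f θ ≤
      (2 * Real.pi)⁻¹ * ∫ θ in (0 : ℝ)..(2 * Real.pi), g θ := by
  refine mul_le_mul_of_nonneg_left ?_ (by positivity)
  exact intervalIntegral.integral_mono (by positivity) (ProdPsh_int hm hC) (ProdPsh_int hm' hC') h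

theorem ProdPsh_mean_const (c : ℝ) :
    (2 * Real.pi)⁻¹ * ∫ _θ in (0 : ℝ)..(2 * Real.pi), c = c := by
  rw [intervalIntegral.integral_const, smul_eq_mul, sub_zero, ← mul_assoc,
    inv_mul_cancel₀ (by positivity), one_mul]

theorem ProdPsh_bdd {F : V → ℝ} (hF : UpperSemicontinuous F) (a b : V) :
    ∃ M : ℝ, 1 ≤ M ∧ ∀ θ : ℝ, F (a + Complex.exp (θ * Complex.I) • b) ≤ M := by
  have hK : IsCompact ((fun ζ : ℂ => a + ζ • b) '' sphere 0 1) :=
    (isCompact_sphere 0 1).image (by fun_prop)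
  obtain ⟨M, hM⟩ := (hF.upperSemicontinuousOn _).bddAbove_of_isCompact hK
  refine ⟨max M 1, le_max_right _ _, fun θ => le_max_of_le_left (hM ⟨_, ⟨_, ?_, rfl⟩, rfl⟩)⟩
  rw [mem_sphere_zero_iff_norm, Complex.norm_exp_ofReal_mul_I]

theorem ProdPsh_meas {F : V → ℝ} (hF : UpperSemicontinuous F) (a b : V) :
    Measurable (fun θ : ℝ => F (a + Complex.exp (θ * Complex.I) • b)) :=
  (hF.comp (g := fun θ : ℝ => a + Complex.exp (θ * Complex.I) • b) (by fun_prop)).measurable

theorem ProdPsh_logb {t η M : ℝ} (hη : 0 < η) (ht : t ≤ M) :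
    |Real.log (max t η)| ≤ |Real.log η| + |Real.log (max M η)| := by
  have h1 : Real.log (max t η) ≤ Real.log (max M η) :=
    Real.log_le_log (lt_of_lt_of_le hη (le_max_right _ _)) (max_le_max_right η ht)
  have h2 : Real.log η ≤ Real.log (max t η) := Real.log_le_log hη (le_max_right _ _)
  have h3 := neg_abs_le (Real.log η)
  have h4 := le_abs_self (Real.log (max M η))
  have h5 := abs_nonneg (Real.log η)
  have h6 := abs_nonneg (Real.log (max M η))
  rw [abs_le]
  constructor <;> linarith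

omit [NormedSpace ℂ V] in
theorem ProdPsh_usc_mul {F F' : V → ℝ} (hF : UpperSemicontinuous F)
    (hF' : UpperSemicontinuous F') (h0 : ∀ x, 0 ≤ F x) (h0' : ∀ x, 0 ≤ F' x) :
    UpperSemicontinuous (fun x => F x * F' x) := by
  intro x y hy
  have hc : Continuous (fun ε : ℝ => (F x + ε) * (F' x + ε)) := by fun_prop
  have hev : ∀ᶠ ε in 𝓝 (0 : ℝ), (F x + ε) * (F' x + ε) < y := by
    apply hc.continuousAt.eventually_lt continuousAt_const
    simpa using hy
  obtain ⟨ε, hε', hε⟩ := ((hev.filter_mono nhdsWithin_le_nhds).and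
    (self_mem_nhdsWithin : Ioi (0 : ℝ) ∈ 𝓝[>] 0)).exists
  have hε0 : 0 < ε := hε
  filter_upwards [hF x (F x + ε) (by linarith), hF' x (F' x + ε) (by linarith)] with z hz hz'
  calc F z * F' z ≤ (F x + ε) * (F' x + ε) :=
        mul_le_mul hz.le hz'.le (h0' z) (by linarith [h0 x])
    _ < y := hε'

omit [NormedSpace ℂ V] in
theorem ProdPsh_usc_rpow {F : V → ℝ} (hF : UpperSemicontinuous F) (h0 : ∀ x, 0 ≤ F x) {c : ℝ}
    (hc : 0 < c) : UpperSemicontinuous (fun x => F x ^ c) := by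
  have h1 : (fun x => F x ^ c) = (fun t : ℝ => (max t 0) ^ c) ∘ F := by
    funext x
    simp only [Function.comp_apply]
    rw [max_eq_left (h0 x)]
  rw [h1]
  refine Continuous.comp_upperSemicontinuous ?_ hF ?_
  · exact (continuous_id.max continuous_const).rpow_const (fun _ => Or.inr hc.le)
  · intro s t hst
    exact Real.rpow_le_rpow (le_max_right _ _) (max_le_max_right 0 hst) hc.le

/-- truncated sub-mean value inequality for a product of powers -/
theorem ProdPsh_trunc {F F' : V → ℝ} (hF : LogPsh F) (hF' : LogPsh F') {c c' : ℝ} (hc : 0 < c)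
    (hc' : 0 < c') {δ η : ℝ} (hδ : 0 < δ) (hη : 0 < η) (a b : V) :
    Real.log (max (max (F a) η ^ c * max (F' a) η ^ c') δ) ≤ (2 * Real.pi)⁻¹ *
      ∫ θ in (0 : ℝ)..(2 * Real.pi), Real.log (max (max (F (a + Complex.exp (θ * Complex.I) • b)) η ^ c *
        max (F' (a + Complex.exp (θ * Complex.I) • b)) η ^ c') δ) := by
  obtain ⟨M, hM1, hM⟩ := ProdPsh_bdd hF.usc a b
  obtain ⟨M', hM1', hM'⟩ := ProdPsh_bdd hF'.usc a b
  have hpos : ∀ z, 0 < max (F z) η := fun z => lt_of_lt_of_le hη (le_max_right _ _)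
  have hpos' : ∀ z, 0 < max (F' z) η := fun z => lt_of_lt_of_le hη (le_max_right _ _)
  have hform : ∀ z, Real.log (max (max (F z) η ^ c * max (F' z) η ^ c') δ) =
      max (c * Real.log (max (F z) η) + c' * Real.log (max (F' z) η)) (Real.log δ) := by
    intro z
    have h1 : 0 < max (F z) η ^ c * max (F' z) η ^ c' :=
      mul_pos (Real.rpow_pos_of_pos (hpos z) _) (Real.rpow_pos_of_pos (hpos' z) _)
    have h2 : Real.log (max (F z) η ^ c * max (F' z) η ^ c') =
        c * Real.log (max (F z) η) + c' * Real.log (max (F' z) η) := by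
      rw [Real.log_mul (Real.rpow_pos_of_pos (hpos z) _).ne'
        (Real.rpow_pos_of_pos (hpos' z) _).ne', Real.log_rpow (hpos z), Real.log_rpow (hpos' z)]
    rw [← h2]
    rcases le_total (max (F z) η ^ c * max (F' z) η ^ c') δ with h | h
    · rw [max_eq_right h, max_eq_right (Real.log_le_log h1 h)]
    · rw [max_eq_left h, max_eq_left (Real.log_le_log hδ h)]
  have hm : Measurable (fun θ : ℝ => F (a + Complex.exp (θ * Complex.I) • b)) :=
    ProdPsh_meas hF.usc a b
  have hm' : Measurable (fun θ : ℝ => F' (a + Complex.exp (θ * Complex.I) • b)) :=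
    ProdPsh_meas hF'.usc a b
  simp only [hform]
  have hu : Measurable (fun θ : ℝ =>
      Real.log (max (F (a + Complex.exp (θ * Complex.I) • b)) η)) :=
    Real.measurable_log.comp (hm.max measurable_const)
  have hu' : Measurable (fun θ : ℝ =>
      Real.log (max (F' (a + Complex.exp (θ * Complex.I) • b)) η)) :=
    Real.measurable_log.comp (hm'.max measurable_const)
  have hub : ∀ θ : ℝ, |Real.log (max (F (a + Complex.exp (θ * Complex.I) • b)) η)| ≤
      |Real.log η| + |Real.log (max M η)| := fun θ => ProdPsh_logb hη (hM θ)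
  have hub' : ∀ θ : ℝ, |Real.log (max (F' (a + Complex.exp (θ * Complex.I) • b)) η)| ≤
      |Real.log η| + |Real.log (max M' η)| := fun θ => ProdPsh_logb hη (hM' θ)
  set B := |Real.log η| + |Real.log (max M η)| with hB
  set B' := |Real.log η| + |Real.log (max M' η)| with hB'
  -- the function `v`
  have hv : Measurable (fun θ : ℝ =>
      c * Real.log (max (F (a + Complex.exp (θ * Complex.I) • b)) η) +
        c' * Real.log (max (F' (a + Complex.exp (θ * Complex.I) • b)) η)) :=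
    (hu.const_mul c).add (hu'.const_mul c')
  have hvb : ∀ θ : ℝ, |c * Real.log (max (F (a + Complex.exp (θ * Complex.I) • b)) η) +
        c' * Real.log (max (F' (a + Complex.exp (θ * Complex.I) • b)) η)| ≤ c * B + c' * B' := by
    intro θ
    refine (abs_add_le _ _).trans (add_le_add ?_ ?_)
    · rw [abs_mul, abs_of_pos hc]
      exact mul_le_mul_of_nonneg_left (hub θ) hc.le
    · rw [abs_mul, abs_of_pos hc']
      exact mul_le_mul_of_nonneg_left (hub' θ) hc'.le
  have hwb : ∀ θ : ℝ, |max (c * Real.log (max (F (a + Complex.exp (θ * Complex.I) • b)) η) +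
        c' * Real.log (max (F' (a + Complex.exp (θ * Complex.I) • b)) η)) (Real.log δ)| ≤
        max (c * B + c' * B') |Real.log δ| := fun θ =>
    (abs_max_le_max_abs_abs).trans (max_le_max_right _ (hvb θ))
  refine max_le ?_ ?_
  · have h1 := hF.submean η hη a b
    have h2 := hF'.submean η hη a b
    have h3 : (2 * Real.pi)⁻¹ * ∫ θ in (0 : ℝ)..(2 * Real.pi),
        (c * Real.log (max (F (a + Complex.exp (θ * Complex.I) • b)) η) +
        c' * Real.log (max (F' (a + Complex.exp (θ * Complex.I) • b)) η)) =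
        c * ((2 * Real.pi)⁻¹ * ∫ θ in (0 : ℝ)..(2 * Real.pi),
          Real.log (max (F (a + Complex.exp (θ * Complex.I) • b)) η)) +
        c' * ((2 * Real.pi)⁻¹ * ∫ θ in (0 : ℝ)..(2 * Real.pi),
          Real.log (max (F' (a + Complex.exp (θ * Complex.I) • b)) η)) := by
      rw [intervalIntegral.integral_add ((ProdPsh_int hu hub).const_mul c)
        ((ProdPsh_int hu' hub').const_mul c'), intervalIntegral.integral_const_mul,
        intervalIntegral.integral_const_mul]
      ring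
    have h4 := mul_le_mul_of_nonneg_left h1 hc.le
    have h5 := mul_le_mul_of_nonneg_left h2 hc'.le
    refine le_trans (add_le_add h4 h5) ?_
    rw [← h3]
    exact ProdPsh_mono hv hvb (hv.max measurable_const) hwb fun θ => le_max_left _ _
  · have h1 := ProdPsh_mean_const (Real.log δ)
    rw [← h1]
    conv_rhs => rw [h1]
    exact ProdPsh_mono measurable_const (fun _ => le_refl |Real.log δ|)
      (hv.max measurable_const) hwb fun θ => le_max_right _ _

theorem ProdPsh_mul {F F' : V → ℝ} (hF : LogPsh F) (hF' : LogPsh F') {c c' : ℝ} (hc : 0 < c)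
    (hc' : 0 < c') : LogPsh (fun x => F x ^ c * F' x ^ c') where
  nonneg x := mul_nonneg (Real.rpow_nonneg (hF.nonneg x) _) (Real.rpow_nonneg (hF'.nonneg x) _)
  usc := ProdPsh_usc_mul (ProdPsh_usc_rpow hF.usc hF.nonneg hc)
    (ProdPsh_usc_rpow hF'.usc hF'.nonneg hc') (fun x => Real.rpow_nonneg (hF.nonneg x) _)
    (fun x => Real.rpow_nonneg (hF'.nonneg x) _)
  submean := by
    intro δ hδ a b
    obtain ⟨M, hM1, hM⟩ := ProdPsh_bdd hF.usc a b
    obtain ⟨M', hM1', hM'⟩ := ProdPsh_bdd hF'.usc a b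
    have hη : ∀ m : ℕ, (0 : ℝ) < 1 / ((m : ℝ) + 1) := fun m => Nat.one_div_pos_of_nat
    have hη1 : ∀ m : ℕ, 1 / ((m : ℝ) + 1) ≤ 1 := fun m => by
      rw [div_le_one (by positivity)]
      have : (0 : ℝ) ≤ m := Nat.cast_nonneg m
      linarith
    have hlim : ∀ z, Tendsto (fun m : ℕ => Real.log (max (max (F z) (1 / ((m : ℝ) + 1)) ^ c *
        max (F' z) (1 / ((m : ℝ) + 1)) ^ c') δ)) atTop
        (𝓝 (Real.log (max (F z ^ c * F' z ^ c') δ))) := by
      intro z
      have h1 : Tendsto (fun m : ℕ => max (F z) (1 / ((m : ℝ) + 1))) atTop (𝓝 (F z)) := by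
        have h2 : Tendsto (fun m : ℕ => max (F z) (1 / ((m : ℝ) + 1))) atTop
            (𝓝 (max (F z) 0)) := tendsto_const_nhds.max tendsto_one_div_add_atTop_nhds_zero_nat
        rwa [max_eq_left (hF.nonneg z)] at h2
      have h1' : Tendsto (fun m : ℕ => max (F' z) (1 / ((m : ℝ) + 1))) atTop (𝓝 (F' z)) := by
        have h2 : Tendsto (fun m : ℕ => max (F' z) (1 / ((m : ℝ) + 1))) atTop
            (𝓝 (max (F' z) 0)) := tendsto_const_nhds.max tendsto_one_div_add_atTop_nhds_zero_nat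
        rwa [max_eq_left (hF'.nonneg z)] at h2
      have h3 := (h1.rpow_const (p := c) (Or.inr hc.le)).mul
        (h1'.rpow_const (p := c') (Or.inr hc'.le))
      have h4 := h3.max (tendsto_const_nhds (x := δ))
      exact h4.log (ne_of_gt (lt_of_lt_of_le hδ (le_max_right _ _)))
    refine ProdPsh_lim (C := |Real.log δ| + |Real.log (max (M ^ c * M' ^ c') δ)|) ?_ ?_
      (fun θ => hlim (a + Complex.exp (θ * Complex.I) • b)) (hlim a)
      (fun m => ProdPsh_trunc hF hF' hc hc' hδ (hη m) a b)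
    · intro m
      have h1 := (ProdPsh_meas hF.usc a b).max (measurable_const (a := 1 / ((m : ℝ) + 1)))
      have h2 := (ProdPsh_meas hF'.usc a b).max (measurable_const (a := 1 / ((m : ℝ) + 1)))
      exact Real.measurable_log.comp
        (((h1.pow_const c).mul (h2.pow_const c')).max measurable_const)
    · intro m θ
      refine ProdPsh_logb hδ (mul_le_mul ?_ ?_ ?_ ?_)
      · exact Real.rpow_le_rpow ((hη m).le.trans (le_max_right _ _))
          (max_le (hM θ) ((hη1 m).trans hM1)) hc.le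
      · exact Real.rpow_le_rpow ((hη m).le.trans (le_max_right _ _))
          (max_le (hM' θ) ((hη1 m).trans hM1')) hc'.le
      · exact Real.rpow_nonneg ((hη m).le.trans (le_max_right _ _)) _
      · exact Real.rpow_nonneg (zero_le_one.trans hM1) _

theorem ProdPsh_inf {F : ℕ → V → ℝ} (hF : ∀ k, LogPsh (F k))
    (ha : ∀ x, Antitone (fun k => F k x)) : LogPsh (fun x => ⨅ k, F k x) where
  nonneg x := Real.iInf_nonneg fun k => (hF k).nonneg x
  usc := upperSemicontinuous_ciInf (fun x => ⟨0, by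
    rintro _ ⟨k, rfl⟩
    exact (hF k).nonneg x⟩) fun k => (hF k).usc
  submean := by
    intro δ hδ a b
    obtain ⟨M, hM1, hM⟩ := ProdPsh_bdd (hF 0).usc a b
    have hlim : ∀ z, Tendsto (fun k : ℕ => Real.log (max (F k z) δ)) atTop
        (𝓝 (Real.log (max (⨅ k, F k z) δ))) := by
      intro z
      have h1 : Tendsto (fun k => F k z) atTop (𝓝 (⨅ k, F k z)) :=
        tendsto_atTop_ciInf (ha z) ⟨0, by
          rintro _ ⟨k, rfl⟩
          exact (hF k).nonneg z⟩
      have h4 := h1.max (tendsto_const_nhds (x := δ))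
      exact h4.log (ne_of_gt (lt_of_lt_of_le hδ (le_max_right _ _)))
    refine ProdPsh_lim (C := |Real.log δ| + |Real.log (max M δ)|) ?_ ?_
      (fun θ => hlim (a + Complex.exp (θ * Complex.I) • b)) (hlim a)
      (fun k => (hF k).submean δ hδ a b)
    · intro k
      exact Real.measurable_log.comp ((ProdPsh_meas (hF k).usc a b).max measurable_const)
    · intro k θ
      exact ProdPsh_logb hδ ((ha _ (Nat.zero_le k)).trans (hM θ))

theorem ProdPsh_one : LogPsh (fun _ : V => (1 : ℝ)) where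
  nonneg _ := zero_le_one
  usc := upperSemicontinuous_const
  submean := by
    intro δ _ a b
    rw [ProdPsh_mean_const]

theorem ProdPsh_norm (n : ℕ) : LogPsh (fun x : Cn n => ‖x‖) where
  nonneg x := norm_nonneg x
  usc := continuous_norm.upperSemicontinuous
  submean := by
    intro δ hδ a b
    obtain ⟨e, he, he'⟩ : ∃ e : Cn n, ‖e‖ ≤ 1 ∧ ‖inner ℂ e a‖ = ‖a‖ := by
      by_cases h : a = 0
      · exact ⟨0, by simp, by simp [h]⟩
      · have h0 : ‖a‖ ≠ 0 := norm_ne_zero_iff.2 h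
        refine ⟨((‖a‖⁻¹ : ℝ) : ℂ) • a, ?_, ?_⟩
        · rw [norm_smul, Complex.norm_real, norm_inv, norm_norm, inv_mul_cancel₀ h0]
        · rw [inner_smul_left, inner_self_eq_norm_sq_to_K]
          simp only [Complex.conj_ofReal, norm_mul, Complex.norm_real, norm_inv, norm_norm,
            norm_pow, Complex.coe_algebraMap]
          field_simp
    have h1 := jensen_poly (Polynomial.C (inner ℂ e a) + Polynomial.C (inner ℂ e b) * Polynomial.X)
      (s := 1) one_pos hδ
    simp only [Polynomial.eval_add, Polynomial.eval_mul, Polynomial.eval_C, Polynomial.eval_X,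
      mul_zero, add_zero, Real.rpow_one, he'] at h1
    refine h1.trans ?_
    obtain ⟨M, hM1, hM⟩ := ProdPsh_bdd (continuous_norm (E := Cn n)).upperSemicontinuous a b
    have hle : ∀ θ : ℝ, ‖inner ℂ e a + inner ℂ e b * Complex.exp (θ * Complex.I)‖ ≤
        ‖a + Complex.exp (θ * Complex.I) • b‖ := by
      intro θ
      have h2 : inner ℂ e a + inner ℂ e b * Complex.exp (θ * Complex.I) =
          inner ℂ e (a + Complex.exp (θ * Complex.I) • b) := by
        rw [inner_add_right, inner_smul_right, mul_comm]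
      rw [h2]
      refine (norm_inner_le_norm _ _).trans ?_
      exact mul_le_of_le_one_left (norm_nonneg _) he
    refine ProdPsh_mono (C := |Real.log δ| + |Real.log (max M δ)|)
      (C' := |Real.log δ| + |Real.log (max M δ)|) ?_ ?_ ?_ ?_ ?_
    · have : Continuous fun θ : ℝ =>
          ‖inner ℂ e a + inner ℂ e b * Complex.exp (θ * Complex.I)‖ := by fun_prop
      exact Real.measurable_log.comp (this.measurable.max measurable_const)
    · intro θ
      exact ProdPsh_logb hδ ((hle θ).trans (hM θ))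
    · have : Continuous fun θ : ℝ => ‖a + Complex.exp (θ * Complex.I) • b‖ := by fun_prop
      exact Real.measurable_log.comp (this.measurable.max measurable_const)
    · intro θ
      exact ProdPsh_logb hδ (hM θ)
    · intro θ
      exact Real.log_le_log (lt_of_lt_of_le hδ (le_max_right _ _)) (max_le_max_right δ (hle θ))

end ProdPshAux

section ProdPshMain

open Filter

variable {n : ℕ}

/-- partial products -/
noncomputable def ProdPshD (F : ℕ → Cn (n + 1) → ℝ) (k : ℕ) (x : Cn (n + 1)) : ℝ :=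
  ‖x‖ * ∏ j ∈ Finset.range k, (F j x / ‖x‖) ^ ((1 / 2 : ℝ) ^ (j + 1))

theorem ProdPsh_D_form (F : ℕ → Cn (n + 1) → ℝ) (h0 : ∀ j x, 0 ≤ F j x) (k : ℕ)
    (x : Cn (n + 1)) : ProdPshD F k x = ‖x‖ ^ ((1 / 2 : ℝ) ^ k) *
      (∏ j ∈ Finset.range k, F j x ^ ((1 / 2 : ℝ) ^ (j + 1))) ^ (1 : ℝ) := by
  rw [Real.rpow_one]
  by_cases hx : ‖x‖ = 0
  · unfold ProdPshD
    rw [hx, zero_mul, Real.zero_rpow (by positivity), zero_mul]
  · have hx0 : 0 < ‖x‖ := lt_of_le_of_ne (norm_nonneg x) (Ne.symm hx)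
    induction k with
    | zero => simp [ProdPshD]
    | succ k ih =>
      have h1 : ProdPshD F (k + 1) x =
          ProdPshD F k x * (F k x / ‖x‖) ^ ((1 / 2 : ℝ) ^ (k + 1)) := by
        unfold ProdPshD
        rw [Finset.prod_range_succ, mul_assoc]
      have h2 : ‖x‖ ^ ((1 / 2 : ℝ) ^ k) =
          ‖x‖ ^ ((1 / 2 : ℝ) ^ (k + 1)) * ‖x‖ ^ ((1 / 2 : ℝ) ^ (k + 1)) := by
        rw [← Real.rpow_add hx0]
        congr 1
        rw [pow_succ]
        ring
      have h3 : 0 < ‖x‖ ^ ((1 / 2 : ℝ) ^ (k + 1)) := Real.rpow_pos_of_pos hx0 _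
      rw [h1, ih, h2, Finset.prod_range_succ, Real.div_rpow (h0 k x) (norm_nonneg x)]
      field_simp

theorem ProdPsh_D_psh (F : ℕ → Cn (n + 1) → ℝ) (hF : ∀ j, LogPsh (F j)) (k : ℕ) :
    LogPsh (ProdPshD F k) := by
  have h1 : LogPsh (fun x => ∏ j ∈ Finset.range k, F j x ^ ((1 / 2 : ℝ) ^ (j + 1))) := by
    induction k with
    | zero =>
      simp only [Finset.range_zero, Finset.prod_empty]
      exact ProdPsh_one
    | succ k ih =>
      have h2 := ProdPsh_mul ih (hF k) one_pos (c' := (1 / 2 : ℝ) ^ (k + 1)) (by positivity)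
      simp only [Real.rpow_one] at h2
      simp only [Finset.prod_range_succ]
      exact h2
  have h2 := ProdPsh_mul (ProdPsh_norm (n + 1)) h1 (c := (1 / 2 : ℝ) ^ k) (by positivity) one_pos
  have h3 : ProdPshD F k = fun x => ‖x‖ ^ ((1 / 2 : ℝ) ^ k) *
      (∏ j ∈ Finset.range k, F j x ^ ((1 / 2 : ℝ) ^ (j + 1))) ^ (1 : ℝ) :=
    funext fun x => ProdPsh_D_form F (fun j => (hF j).nonneg) k x
  rw [h3]
  exact h2

theorem ProdPsh_ratio {F : ℕ → Cn (n + 1) → ℝ} (hF : ∀ j, OmegaPsh n (F j))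
    (hN : ∀ j, Nrm 1 (F j)) (j : ℕ) (x : Cn (n + 1)) :
    0 ≤ (F j x / ‖x‖) ^ ((1 / 2 : ℝ) ^ (j + 1)) ∧
      (F j x / ‖x‖) ^ ((1 / 2 : ℝ) ^ (j + 1)) ≤ 1 := by
  have h1 : 0 ≤ F j x / ‖x‖ := div_nonneg ((hF j).psh.nonneg x) (norm_nonneg x)
  have h2 : F j x / ‖x‖ ≤ 1 := by
    apply div_le_one_of_le₀ _ (norm_nonneg x)
    have := (hN j).le x
    rwa [one_mul] at this
  exact ⟨Real.rpow_nonneg h1 _, Real.rpow_le_one h1 h2 (by positivity)⟩

theorem ProdPsh_D_succ (F : ℕ → Cn (n + 1) → ℝ) (k : ℕ) (x : Cn (n + 1)) :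
    ProdPshD F (k + 1) x = ProdPshD F k x * (F k x / ‖x‖) ^ ((1 / 2 : ℝ) ^ (k + 1)) := by
  unfold ProdPshD
  rw [Finset.prod_range_succ, mul_assoc]

theorem ProdPsh_D_anti {F : ℕ → Cn (n + 1) → ℝ} (hF : ∀ j, OmegaPsh n (F j))
    (hN : ∀ j, Nrm 1 (F j)) (x : Cn (n + 1)) : Antitone (fun k => ProdPshD F k x) := by
  apply antitone_nat_of_succ_le
  intro k
  rw [ProdPsh_D_succ]
  exact mul_le_of_le_one_right ((ProdPsh_D_psh F (fun j => (hF j).psh) k).nonneg x)
    (ProdPsh_ratio hF hN k x).2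

theorem ProdPsh_D_hom {F : ℕ → Cn (n + 1) → ℝ} (hF : ∀ j, OmegaPsh n (F j)) (k : ℕ) (c : ℂ)
    (x : Cn (n + 1)) : ProdPshD F k (c • x) = ‖c‖ * ProdPshD F k x := by
  unfold ProdPshD
  by_cases hc : c = 0
  · rw [hc]
    simp
  · have h1 : ‖c‖ ≠ 0 := norm_ne_zero_iff.2 hc
    rw [norm_smul, mul_assoc]
    congr 2
    refine Finset.prod_congr rfl fun j _ => ?_
    rw [(hF j).hom, mul_div_mul_left _ _ h1]

theorem ProdPsh_nontrivial {F : ℕ → Cn (n + 1) → ℝ} (hF : ∀ j, OmegaPsh n (F j))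
    (hN : ∀ j, Nrm 1 (F j)) : ∃ x, (⨅ k, ProdPshD F k x) ≠ 0 := by
  obtain ⟨C, hC0, hC⟩ := omega_L1 n (A := 1) le_rfl
  have hint : ∀ j, Integrable (fun x => (1 / 2 : ℝ) ^ (j + 1) * |Real.log (F j x)|)
      (volume.restrict (ball (0 : Cn (n + 1)) 1)) := fun j =>
    (omega_intOn (hF j) 0 1).abs.const_mul _
  have hj : ∀ j, ∫⁻ x in ball (0 : Cn (n + 1)) 1,
      ENNReal.ofReal ((1 / 2 : ℝ) ^ (j + 1) * |Real.log (F j x)|) ≤
        ENNReal.ofReal ((1 / 2 : ℝ) ^ (j + 1) * C) := by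
    intro j
    rw [← ofReal_integral_eq_lintegral_ofReal (hint j)
      (Eventually.of_forall fun x => by positivity), integral_const_mul]
    exact ENNReal.ofReal_le_ofReal
      (mul_le_mul_of_nonneg_left (hC (F j) (hF j) (hN j)) (by positivity))
  have hmeas : ∀ j, AEMeasurable
      (fun x => ENNReal.ofReal ((1 / 2 : ℝ) ^ (j + 1) * |Real.log (F j x)|))
      (volume.restrict (ball (0 : Cn (n + 1)) 1)) := fun j =>
    (hint j).aestronglyMeasurable.aemeasurable.ennreal_ofReal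
  have hsum : ∫⁻ x in ball (0 : Cn (n + 1)) 1,
      ∑' j, ENNReal.ofReal ((1 / 2 : ℝ) ^ (j + 1) * |Real.log (F j x)|) ≠ ⊤ := by
    rw [lintegral_tsum hmeas]
    refine ne_top_of_le_ne_top ?_ (ENNReal.tsum_le_tsum hj)
    apply Summable.tsum_ofReal_ne_top
    exact ((summable_geometric_of_lt_one (by norm_num) (by norm_num : (1 / 2 : ℝ) < 1)).comp_injective
      (add_left_injective 1)).mul_right C
  have hae1 : ∀ᵐ x ∂(volume.restrict (ball (0 : Cn (n + 1)) 1)),
      ∑' j, ENNReal.ofReal ((1 / 2 : ℝ) ^ (j + 1) * |Real.log (F j x)|) < ⊤ :=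
    ae_lt_top' (AEMeasurable.tsum hmeas) hsum
  have hae2 : ∀ᵐ x ∂(volume.restrict (ball (0 : Cn (n + 1)) 1)), ∀ j, F j x ≠ 0 := by
    rw [ae_all_iff]
    intro j
    apply ae_restrict_of_ae
    exact measure_eq_zero_iff_ae_notMem.1 (omega_null (hF j))
  have hae3 : ∀ᵐ x ∂(volume.restrict (ball (0 : Cn (n + 1)) 1)), x ∈ ball (0 : Cn (n + 1)) 1 :=
    ae_restrict_mem measurableSet_ball
  have hne : NeBot (ae (volume.restrict (ball (0 : Cn (n + 1)) 1))) := by
    rw [ae_neBot]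
    intro h
    rw [Measure.restrict_eq_zero] at h
    exact (measure_ball_pos volume (0 : Cn (n + 1)) one_pos).ne' h
  obtain ⟨x, hx1, hx2, hx3⟩ := (hae1.and (hae2.and hae3)).exists
  refine ⟨x, ?_⟩
  have hpos : ∀ j, 0 < F j x := fun j =>
    lt_of_le_of_ne ((hF j).psh.nonneg x) (Ne.symm (hx2 j))
  have hxn : 0 < ‖x‖ := by
    have h1 := (hN 0).le x
    have h2 := hpos 0
    linarith
  have hxn1 : ‖x‖ ≤ 1 := by
    rw [mem_ball_zero_iff] at hx3
    exact hx3.le
  set S : ℝ := (∑' j, ENNReal.ofReal ((1 / 2 : ℝ) ^ (j + 1) * |Real.log (F j x)|)).toReal with hS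
  have hpart : ∀ k, ∑ j ∈ Finset.range k, (1 / 2 : ℝ) ^ (j + 1) * |Real.log (F j x)| ≤ S := by
    intro k
    rw [hS, ← ENNReal.ofReal_le_iff_le_toReal hx1.ne,
      ENNReal.ofReal_sum_of_nonneg fun j _ => by positivity]
    exact ENNReal.sum_le_tsum _
  have hlow : ∀ k, ‖x‖ * Real.exp (-S) ≤ ProdPshD F k x := by
    intro k
    rw [ProdPsh_D_form F (fun j => (hF j).psh.nonneg), Real.rpow_one]
    refine mul_le_mul ?_ ?_ (Real.exp_pos _).le (by positivity)
    · have h1 := Real.rpow_le_rpow_of_exponent_ge hxn hxn1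
        (pow_le_one₀ (n := k) (by norm_num) (by norm_num : (1 / 2 : ℝ) ≤ 1))
      rwa [Real.rpow_one] at h1
    · calc Real.exp (-S) ≤ Real.exp (∑ j ∈ Finset.range k,
            -((1 / 2 : ℝ) ^ (j + 1) * |Real.log (F j x)|)) := by
            apply Real.exp_le_exp.2
            rw [Finset.sum_neg_distrib]
            exact neg_le_neg (hpart k)
        _ = ∏ j ∈ Finset.range k, Real.exp (-((1 / 2 : ℝ) ^ (j + 1) * |Real.log (F j x)|)) :=
            Real.exp_sum _ _
        _ ≤ _ := by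
            refine Finset.prod_le_prod (fun j _ => (Real.exp_pos _).le) fun j _ => ?_
            rw [Real.rpow_def_of_pos (hpos j)]
            apply Real.exp_le_exp.2
            have h1 := neg_abs_le (Real.log (F j x))
            have h2 : (0 : ℝ) ≤ (1 / 2) ^ (j + 1) := by positivity
            nlinarith
  have h1 : ‖x‖ * Real.exp (-S) ≤ ⨅ k, ProdPshD F k x := le_ciInf hlow
  have h2 : 0 < ‖x‖ * Real.exp (-S) := by positivity
  exact (lt_of_lt_of_le h2 h1).ne'

end ProdPshMain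

/-- `G = ‖x‖ * ∏ (F_j / ‖x‖) ^ (2^(-j-1))` -/
theorem omega_prod {n : ℕ} (F : ℕ → Cn (n + 1) → ℝ) (hF : ∀ j, OmegaPsh n (F j))
    (hN : ∀ j, Nrm 1 (F j)) : ∃ G : Cn (n + 1) → ℝ, OmegaPsh n G ∧
      ∀ j x, x ≠ 0 → G x / ‖x‖ ≤ (F j x / ‖x‖) ^ ((1 / 2 : ℝ) ^ (j + 1)) := by
  refine ⟨fun x => ⨅ k, ProdPshD F k x, ⟨?_, ?_, ProdPsh_nontrivial hF hN⟩, ?_⟩
  · exact ProdPsh_inf (fun k => ProdPsh_D_psh F (fun j => (hF j).psh) k) (ProdPsh_D_anti hF hN)
  · intro c x
    show (⨅ k, ProdPshD F k (c • x)) = ‖c‖ * ⨅ k, ProdPshD F k x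
    rw [Real.mul_iInf_of_nonneg (norm_nonneg c)]
    exact iInf_congr fun k => ProdPsh_D_hom hF k c x
  · intro j x hx
    have hx0 : 0 < ‖x‖ := norm_pos_iff.2 hx
    rw [div_le_iff₀ hx0]
    have hb : BddBelow (range fun k => ProdPshD F k x) := ⟨0, by
      rintro _ ⟨k, rfl⟩
      exact (ProdPsh_D_psh F (fun j => (hF j).psh) k).nonneg x⟩
    refine (ciInf_le hb (j + 1)).trans ?_
    rw [ProdPsh_D_succ, mul_comm]
    refine mul_le_mul_of_nonneg_left ?_ (ProdPsh_ratio hF hN j x).1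
    unfold ProdPshD
    exact mul_le_of_le_one_right (norm_nonneg x)
      (Finset.prod_le_one (fun i _ => (ProdPsh_ratio hF hN i x).1)
        fun i _ => (ProdPsh_ratio hF hN i x).2)

end HMA
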