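import Pool.Agent.H85.MA.ProdPsh

/-! # Module UNIF: uniform integrability -/

open MeasureTheory Metric Set
open scoped ENNReal Topology ContDiff

namespace HMA

theorem Unif_pow (y : ℝ≥0∞) {a b : ℝ} (ha : 0 ≤ a) (hab : a ≤ b) : y ^ (-a) ≤ 1 + y ^ (-b) := by
  rcases le_total y 1 with h | h
  · have h1 : 1 ≤ y⁻¹ := ENNReal.one_le_inv.mpr h
    rw [ENNReal.rpow_neg, ENNReal.rpow_neg, ← ENNReal.inv_rpow, ← ENNReal.inv_rpow]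
    exact (ENNReal.rpow_le_rpow_of_exponent_le h1 hab).trans le_add_self
  · have h1 : y⁻¹ ≤ 1 := ENNReal.inv_le_one.mpr h
    rw [ENNReal.rpow_neg, ← ENNReal.inv_rpow]
    exact (ENNReal.rpow_le_one h1 ha).trans le_self_add

theorem Unif_one {n : ℕ} {μ : Measure (Cn (n + 1))} [IsProbabilityMeasure μ] (h0 : μ {0} = 0)
    (hm : Moderate n μ) : ∃ ε : ℝ, 0 < ε ∧ ε ≤ 1 ∧ ∃ C : ℝ, 0 < C ∧
      ∀ F : Cn (n + 1) → ℝ, OmegaPsh n F → Nrm 1 F →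
        ∫⁻ x, (ENNReal.ofReal (F x / ‖x‖)) ^ (-ε) ∂μ ≤ ENNReal.ofReal C := by
  obtain ⟨ε₀, hε₀, hmod⟩ := hm
  set ε₁ : ℝ := min ε₀ 1 with hε₁
  have h1pos : 0 < ε₁ := lt_min hε₀ one_pos
  have h1le : ε₁ ≤ 1 := min_le_right _ _
  have h1le0 : ε₁ ≤ ε₀ := min_le_left _ _
  have hfin : ∀ F : Cn (n + 1) → ℝ, OmegaPsh n F →
      ∫⁻ x, (ENNReal.ofReal (F x / ‖x‖)) ^ (-ε₁) ∂μ < ⊤ := by
    intro F hF
    calc ∫⁻ x, (ENNReal.ofReal (F x / ‖x‖)) ^ (-ε₁) ∂μ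
        ≤ ∫⁻ x, (1 + (ENNReal.ofReal (F x / ‖x‖)) ^ (-ε₀)) ∂μ :=
          lintegral_mono (fun x => Unif_pow _ h1pos.le h1le0)
      _ = 1 + ∫⁻ x, (ENNReal.ofReal (F x / ‖x‖)) ^ (-ε₀) ∂μ := by
          rw [lintegral_add_left measurable_const, lintegral_const, measure_univ, mul_one]
      _ < ⊤ := ENNReal.add_lt_top.mpr ⟨ENNReal.one_lt_top, hmod F hF⟩
  by_contra hcon
  push Not at hcon
  have hex : ∀ j : ℕ, ∃ F : Cn (n + 1) → ℝ, OmegaPsh n F ∧ Nrm 1 F ∧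
      ENNReal.ofReal ((j : ℝ) + 1) <
        ∫⁻ x, (ENNReal.ofReal (F x / ‖x‖)) ^ (-(ε₁ * (1 / 2 : ℝ) ^ (j + 1))) ∂μ := by
    intro j
    refine hcon (ε₁ * (1 / 2 : ℝ) ^ (j + 1)) (by positivity) ?_ ((j : ℝ) + 1) (by positivity)
    have h2 : (1 / 2 : ℝ) ^ (j + 1) ≤ 1 := pow_le_one₀ (by norm_num) (by norm_num)
    calc ε₁ * (1 / 2 : ℝ) ^ (j + 1) ≤ 1 * 1 := by
          apply mul_le_mul h1le h2 (by positivity) zero_le_one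
      _ = 1 := one_mul _
  choose F hF hN hI using hex
  obtain ⟨G, hG, hGF⟩ := omega_prod F hF hN
  have hlow : ∀ j : ℕ, ENNReal.ofReal ((j : ℝ) + 1) ≤
      ∫⁻ x, (ENNReal.ofReal (G x / ‖x‖)) ^ (-ε₁) ∂μ := by
    intro j
    refine (hI j).le.trans (lintegral_mono_ae ?_)
    have hae : ∀ᵐ x ∂μ, x ≠ 0 := by
      rw [ae_iff]
      simpa using h0
    filter_upwards [hae] with x hx
    have h3 := hGF j x hx
    have h4 : 0 ≤ F j x / ‖x‖ := div_nonneg ((hF j).psh.nonneg x) (norm_nonneg x)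
    have h5 : (0 : ℝ) ≤ (1 / 2 : ℝ) ^ (j + 1) := by positivity
    have h6 : ENNReal.ofReal (G x / ‖x‖) ≤ ENNReal.ofReal (F j x / ‖x‖) ^ ((1 / 2 : ℝ) ^ (j + 1)) := by
      rw [ENNReal.ofReal_rpow_of_nonneg h4 h5]
      exact ENNReal.ofReal_le_ofReal h3
    rw [ENNReal.rpow_neg, ENNReal.rpow_neg, ENNReal.inv_le_inv, mul_comm ε₁, ENNReal.rpow_mul]
    exact ENNReal.rpow_le_rpow h6 h1pos.le
  have htop := hfin G hG
  obtain ⟨N, hNat⟩ := ENNReal.exists_nat_gt htop.ne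
  have h7 := hlow N
  have h8 : ((N : ℕ) : ℝ≥0∞) ≤ ENNReal.ofReal ((N : ℝ) + 1) := by
    rw [← ENNReal.ofReal_natCast]
    exact ENNReal.ofReal_le_ofReal (by linarith)
  exact absurd (h8.trans h7) (not_le.mpr hNat)

theorem unif {n : ℕ} {μ : Measure (Cn (n + 1))} [IsProbabilityMeasure μ] (h0 : μ {0} = 0)
    (hm : Moderate n μ) : ∃ ε : ℝ, 0 < ε ∧ ε ≤ 1 ∧ ∀ A : ℝ, 1 ≤ A → ∃ C : ℝ, 0 < C ∧
      ∀ F : Cn (n + 1) → ℝ, OmegaPsh n F → Nrm A F →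
        ∫⁻ x, (ENNReal.ofReal (F x / ‖x‖)) ^ (-ε) ∂μ ≤ ENNReal.ofReal C := by
  obtain ⟨ε, hε, hε1, C, hC, hU⟩ := Unif_one h0 hm
  refine ⟨ε, hε, hε1, fun A hA => ?_⟩
  have hA0 : 0 < A := by linarith
  have hAε : 0 < A ^ ε := Real.rpow_pos_of_pos hA0 _
  refine ⟨A ^ ε * C, by positivity, ?_⟩
  intro F hF hN
  obtain ⟨p, hp, hpos, hmax⟩ := omega_max hF
  have hMinv : 0 < (F p)⁻¹ := inv_pos.mpr hpos
  have hF' : OmegaPsh n (fun x => (F p)⁻¹ * F x) := omega_smul hF hMinv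
  have hN' : Nrm 1 (fun x => (F p)⁻¹ * F x) := by
    constructor
    · intro x
      calc (F p)⁻¹ * F x ≤ (F p)⁻¹ * (F p * ‖x‖) := mul_le_mul_of_nonneg_left (hmax x) hMinv.le
        _ = 1 * ‖x‖ := by rw [← mul_assoc, inv_mul_cancel₀ hpos.ne']
    · refine ⟨p, ?_, ?_⟩
      · intro h
        rw [h, norm_zero] at hp
        exact zero_ne_one hp
      · show (1 : ℝ)⁻¹ * ‖p‖ ≤ (F p)⁻¹ * F p
        rw [inv_mul_cancel₀ hpos.ne', hp]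
        norm_num
  have hMA : (F p)⁻¹ ≤ A := by
    obtain ⟨x, hx, hge⟩ := hN.ge
    have hxn : 0 < ‖x‖ := norm_pos_iff.mpr hx
    have h1 : A⁻¹ * ‖x‖ ≤ F p * ‖x‖ := hge.trans (hmax x)
    have h2 : A⁻¹ ≤ F p := le_of_mul_le_mul_right h1 hxn
    exact inv_le_of_inv_le₀ hA0 h2
  have hpt : ∀ x, (ENNReal.ofReal (F x / ‖x‖)) ^ (-ε) ≤
      ENNReal.ofReal (A ^ ε) * (ENNReal.ofReal (((F p)⁻¹ * F x) / ‖x‖)) ^ (-ε) := by
    intro x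
    have h1 : ((F p)⁻¹ * F x) / ‖x‖ ≤ A * (F x / ‖x‖) := by
      rw [mul_div_assoc]
      exact mul_le_mul_of_nonneg_right hMA (div_nonneg (hF.psh.nonneg x) (norm_nonneg x))
    have h2 : ENNReal.ofReal (((F p)⁻¹ * F x) / ‖x‖) ≤
        ENNReal.ofReal A * ENNReal.ofReal (F x / ‖x‖) := by
      rw [← ENNReal.ofReal_mul hA0.le]
      exact ENNReal.ofReal_le_ofReal h1
    have hA1 : ENNReal.ofReal A ≠ 0 := by
      rw [Ne, ENNReal.ofReal_eq_zero, not_le]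
      exact hA0
    have hA2 : ENNReal.ofReal A ≠ ⊤ := ENNReal.ofReal_ne_top
    have h3 : (ENNReal.ofReal (F x / ‖x‖))⁻¹ ≤
        ENNReal.ofReal A * (ENNReal.ofReal (((F p)⁻¹ * F x) / ‖x‖))⁻¹ := by
      have h4 : (ENNReal.ofReal A * ENNReal.ofReal (F x / ‖x‖))⁻¹ ≤
          (ENNReal.ofReal (((F p)⁻¹ * F x) / ‖x‖))⁻¹ := ENNReal.inv_le_inv.mpr h2
      rw [ENNReal.mul_inv (Or.inl hA1) (Or.inl hA2)] at h4
      calc (ENNReal.ofReal (F x / ‖x‖))⁻¹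
          = ENNReal.ofReal A * ((ENNReal.ofReal A)⁻¹ * (ENNReal.ofReal (F x / ‖x‖))⁻¹) := by
            rw [← mul_assoc, ENNReal.mul_inv_cancel hA1 hA2, one_mul]
        _ ≤ _ := by gcongr
    rw [ENNReal.rpow_neg, ENNReal.rpow_neg, ← ENNReal.inv_rpow, ← ENNReal.inv_rpow,
      ← ENNReal.ofReal_rpow_of_pos hA0, ← ENNReal.mul_rpow_of_nonneg _ _ hε.le]
    exact ENNReal.rpow_le_rpow h3 hε.le
  calc ∫⁻ x, (ENNReal.ofReal (F x / ‖x‖)) ^ (-ε) ∂μ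
      ≤ ∫⁻ x, ENNReal.ofReal (A ^ ε) * (ENNReal.ofReal (((F p)⁻¹ * F x) / ‖x‖)) ^ (-ε) ∂μ :=
        lintegral_mono hpt
    _ = ENNReal.ofReal (A ^ ε) * ∫⁻ x, (ENNReal.ofReal (((F p)⁻¹ * F x) / ‖x‖)) ^ (-ε) ∂μ :=
        lintegral_const_mul' _ _ ENNReal.ofReal_ne_top
    _ ≤ ENNReal.ofReal (A ^ ε) * ENNReal.ofReal C := by
        gcongr
        exact hU _ hF' hN'
    _ = ENNReal.ofReal (A ^ ε * C) := (ENNReal.ofReal_mul hAε.le).symm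

end HMA
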