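import Pool.Agent.H85.MA.PshBall
import Pool.Agent.H85.MA.Smooth1

/-! # Module SMOOTH2: smoothing of plurisubharmonic functions -/

open MeasureTheory Metric Set
open scoped ENNReal Topology ContDiff

namespace HMA

/-- radial bump -/
noncomputable def Smooth2_b {n : ℕ} (x : Cn n) : ℝ := Real.smoothTransition (1 - ‖x‖ ^ 2)

theorem Smooth2_b_smooth {n : ℕ} : ContDiff ℝ ∞ (Smooth2_b (n := n)) := by
  unfold Smooth2_b
  refine Real.smoothTransition.contDiff.comp (contDiff_const.sub ?_)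
  exact contDiff_norm_sq ℂ

theorem Smooth2_b_nonneg {n : ℕ} (x : Cn n) : 0 ≤ Smooth2_b x := Real.smoothTransition.nonneg _

theorem Smooth2_b_zero {n : ℕ} {x : Cn n} (h : 1 ≤ ‖x‖) : Smooth2_b x = 0 := by
  unfold Smooth2_b
  apply Real.smoothTransition.zero_of_nonpos
  nlinarith

theorem Smooth2_b_supp {n : ℕ} : HasCompactSupport (Smooth2_b (n := n)) := by
  refine HasCompactSupport.intro (isCompact_closedBall (0 : Cn n) 1) ?_
  intro x hx
  apply Smooth2_b_zero
  rw [mem_closedBall_zero_iff, not_le] at hx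
  exact hx.le

theorem Smooth2_b_int {n : ℕ} : 0 < ∫ x : Cn n, Smooth2_b x := by
  refine Continuous.integral_pos_of_hasCompactSupport_nonneg_nonzero (x := (0 : Cn n))
    Smooth2_b_smooth.continuous Smooth2_b_supp (fun x => Smooth2_b_nonneg x) ?_
  unfold Smooth2_b
  rw [norm_zero]
  norm_num [Real.smoothTransition.one_of_one_le]

/-- the normalised bump of radius `s` -/
noncomputable def Smooth2_w {n : ℕ} (s : ℝ) (x : Cn n) : ℝ :=
  ((s ^ (2 * n))⁻¹ * (∫ x : Cn n, Smooth2_b x)⁻¹) * Smooth2_b (s⁻¹ • x)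

theorem Smooth2_w_nonneg {n : ℕ} {s : ℝ} (hs : 0 < s) (x : Cn n) : 0 ≤ Smooth2_w s x := by
  unfold Smooth2_w
  exact mul_nonneg (mul_nonneg (inv_nonneg.2 (pow_nonneg hs.le _))
    (inv_nonneg.2 (Smooth2_b_int (n := n)).le)) (Smooth2_b_nonneg (s⁻¹ • x))

theorem Smooth2_w_smooth {n : ℕ} (s : ℝ) : ContDiff ℝ ∞ (Smooth2_w (n := n) s) := by
  unfold Smooth2_w
  refine contDiff_const.mul ?_
  exact Smooth2_b_smooth.comp (contDiff_const_smul s⁻¹)

theorem Smooth2_w_zero {n : ℕ} {s : ℝ} (hs : 0 < s) {x : Cn n} (h : s ≤ ‖x‖) :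
    Smooth2_w s x = 0 := by
  unfold Smooth2_w
  rw [Smooth2_b_zero, mul_zero]
  rw [norm_smul, norm_inv, Real.norm_of_nonneg hs.le, ← div_eq_inv_mul]
  exact (one_le_div hs).2 h

theorem Smooth2_w_norm {n : ℕ} (s : ℝ) {x y : Cn n} (h : ‖x‖ = ‖y‖) :
    Smooth2_w s x = Smooth2_w s y := by
  unfold Smooth2_w Smooth2_b
  rw [norm_smul, norm_smul, h]

theorem Smooth2_w_supp {n : ℕ} {s : ℝ} (hs : 0 < s) : HasCompactSupport (Smooth2_w (n := n) s) := by
  refine HasCompactSupport.intro (isCompact_closedBall (0 : Cn n) s) ?_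
  intro x hx
  apply Smooth2_w_zero hs
  rw [mem_closedBall_zero_iff, not_le] at hx
  exact hx.le

theorem Smooth2_w_int {n : ℕ} {s : ℝ} (hs : 0 < s) : ∫ x : Cn n, Smooth2_w s x = 1 := by
  unfold Smooth2_w
  rw [integral_const_mul, Measure.integral_comp_smul, finrank_real_of_complex,
    finrank_euclideanSpace_fin, smul_eq_mul]
  have h1 := Smooth2_b_int (n := n)
  have h2 : |((s⁻¹ ^ (2 * n))⁻¹ : ℝ)| = s ^ (2 * n) := by
    rw [inv_pow, inv_inv, abs_of_pos (by positivity)]
  rw [h2]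
  have h3 : s ^ (2 * n) ≠ 0 := by positivity
  field_simp

theorem Smooth2_w_integrable {n : ℕ} {s : ℝ} (hs : 0 < s) :
    Integrable (Smooth2_w (n := n) s) volume :=
  (Smooth2_w_smooth s).continuous.integrable_of_hasCompactSupport (Smooth2_w_supp hs)

/-- the smoothed function -/
noncomputable def Smooth2_v {n : ℕ} (u : Cn n → ℝ) (s : ℝ) (z : Cn n) : ℝ :=
  ∫ x, u (z + x) * Smooth2_w s x

theorem Smooth2_v_eq {n : ℕ} (u : Cn n → ℝ) (s : ℝ) (z : Cn n) :
    Smooth2_v u s z = ∫ y, u y * Smooth2_w s (z - y) := by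
  unfold Smooth2_v
  rw [← integral_add_left_eq_self (fun y => u y * Smooth2_w s (z - y)) z]
  refine integral_congr_ae (Filter.Eventually.of_forall fun x => ?_)
  simp only
  congr 1
  apply Smooth2_w_norm
  rw [← norm_neg]
  congr 1
  abel

theorem Smooth2_v_smooth {n : ℕ} {u : Cn n → ℝ} (hu : LocallyIntegrable u volume) {s : ℝ}
    (hs : 0 < s) : ContDiff ℝ ∞ (Smooth2_v u s) := by
  have h := HasCompactSupport.contDiff_convolution_right (μ := (volume : Measure (Cn n)))
    (ContinuousLinearMap.mul ℝ ℝ) (n := (⊤ : ℕ∞)) (Smooth2_w_supp hs) hu (Smooth2_w_smooth s)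
  have h2 : Smooth2_v u s = convolution u (Smooth2_w s) (ContinuousLinearMap.mul ℝ ℝ)
      (volume : Measure (Cn n)) := by
    funext z
    rw [Smooth2_v_eq]
    rfl
  rw [h2]
  exact h

/-- bound on compact sets -/
theorem Smooth2_bdd {n : ℕ} {u : Cn n → ℝ} (hu : UpperSemicontinuous u)
    (hb : ∃ L : ℝ, ∀ z, -L ≤ u z) (a : Cn n) (r : ℝ) : ∃ M : ℝ, 0 ≤ M ∧ ∀ z, ‖z - a‖ ≤ r → |u z| ≤ M := by
  obtain ⟨L, hL⟩ := hb
  rcases lt_or_ge r 0 with hr | hr
  · exact ⟨0, le_refl _, fun z hz => absurd (norm_nonneg (z - a)) (by linarith)⟩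
  · obtain ⟨z₁, hz₁, hmax⟩ := UpperSemicontinuousOn.exists_isMaxOn
      (s := closedBall a r) (nonempty_closedBall.2 hr) (isCompact_closedBall a r)
      (hu.upperSemicontinuousOn _)
    refine ⟨max (|u z₁|) (|L|), by positivity, fun z hz => ?_⟩
    have h1 : u z ≤ u z₁ := hmax (by rw [mem_closedBall_iff_norm]; exact hz)
    rw [abs_le]
    constructor
    · have := hL z
      have h2 : |L| ≤ max (|u z₁|) (|L|) := le_max_right _ _
      have h3 := le_abs_self L
      linarith
    · exact h1.trans ((le_abs_self _).trans (le_max_left _ _))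

/-- Fubini -/
theorem Smooth2_fub {n : ℕ} {u : Cn n → ℝ} (hu : UpperSemicontinuous u)
    (hb : ∃ L : ℝ, ∀ z, -L ≤ u z) {s : ℝ} (hs : 0 < s) (a b : Cn n) :
    Integrable (Function.uncurry fun (θ : ℝ) (x : Cn n) =>
      u (a + x + Complex.exp (θ * Complex.I) • b) * Smooth2_w s x)
      ((volume.restrict (Ioc 0 (2 * Real.pi))).prod volume) := by
  obtain ⟨M, hM0, hM⟩ := Smooth2_bdd hu hb a (s + ‖b‖)
  have hg : Integrable (fun p : ℝ × Cn n => M * Smooth2_w s p.2)
      ((volume.restrict (Ioc 0 (2 * Real.pi))).prod volume) := by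
    have h1 : Integrable (fun p : ℝ × Cn n => M * Smooth2_w s p.2)
      ((volume.restrict (Ioc 0 (2 * Real.pi))).prod volume) :=
      Integrable.mul_prod (f := fun _ : ℝ => M) (g := Smooth2_w s) (integrable_const M)
        (Smooth2_w_integrable hs)
    exact h1
  refine hg.mono' ?_ (Filter.Eventually.of_forall ?_)
  · refine Measurable.aestronglyMeasurable ?_
    have hc : Continuous fun p : ℝ × Cn n => a + p.2 + Complex.exp (p.1 * Complex.I) • b := by
      fun_prop
    have hc2 : Continuous fun p : ℝ × Cn n => Smooth2_w s p.2 :=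
      (Smooth2_w_smooth s).continuous.comp continuous_snd
    exact (hu.measurable.comp hc.measurable).mul hc2.measurable
  · rintro ⟨θ, x⟩
    simp only [Function.uncurry_apply_pair]
    rw [norm_mul, Real.norm_of_nonneg (Smooth2_w_nonneg hs x)]
    rcases le_or_gt s ‖x‖ with hx | hx
    · rw [Smooth2_w_zero hs hx, mul_zero, mul_zero]
    · refine mul_le_mul_of_nonneg_right ?_ (Smooth2_w_nonneg hs x)
      rw [Real.norm_eq_abs]
      apply hM
      have h2 : a + x + Complex.exp (θ * Complex.I) • b - a = x + Complex.exp (θ * Complex.I) • b := by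
        abel
      rw [h2]
      refine (norm_add_le _ _).trans ?_
      rw [norm_smul, Complex.norm_exp_ofReal_mul_I, one_mul]
      linarith

theorem Smooth2_v_submean {n : ℕ} {u : Cn n → ℝ} (hu : PshS u) {s : ℝ} (hs : 0 < s) (a b : Cn n)
    (hb : ‖b‖ ≤ 1 / 16) : Smooth2_v u s a ≤ (2 * Real.pi)⁻¹ *
      ∫ θ in (0 : ℝ)..(2 * Real.pi), Smooth2_v u s (a + Complex.exp (θ * Complex.I) • b) := by
  have hpi : (0 : ℝ) ≤ 2 * Real.pi := by positivity
  have hF := Smooth2_fub hu.usc hu.bdd hs a b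
  have hswap := integral_integral_swap hF
  have hint := hF.integral_prod_right
  simp only [Function.uncurry_apply_pair] at hint
  have h1 : (∫ θ in (0 : ℝ)..(2 * Real.pi), Smooth2_v u s (a + Complex.exp (θ * Complex.I) • b)) =
      ∫ x, ∫ θ in Ioc 0 (2 * Real.pi),
        u (a + x + Complex.exp (θ * Complex.I) • b) * Smooth2_w s x := by
    rw [intervalIntegral.integral_of_le hpi, ← hswap]
    refine integral_congr_ae (Filter.Eventually.of_forall fun θ => ?_)
    simp only
    unfold Smooth2_v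
    refine integral_congr_ae (Filter.Eventually.of_forall fun x => ?_)
    simp only
    rw [add_right_comm]
  rw [h1, ← integral_const_mul]
  unfold Smooth2_v
  have hF0 := Smooth2_fub hu.usc hu.bdd hs a 0
  have hint0 := hF0.integral_prod_right
  simp only [Function.uncurry_apply_pair] at hint0
  refine integral_mono ?_ (hint.const_mul _) ?_
  · -- integrability of `u (a + x) * w x`
    obtain ⟨M, hM0, hM⟩ := Smooth2_bdd hu.usc hu.bdd a s
    refine ((Smooth2_w_integrable hs).const_mul M).mono' ?_ (Filter.Eventually.of_forall ?_)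
    · refine Measurable.aestronglyMeasurable ?_
      have hc : Continuous fun x : Cn n => a + x := by fun_prop
      exact (hu.usc.measurable.comp hc.measurable).mul (Smooth2_w_smooth s).continuous.measurable
    · intro x
      rw [norm_mul, Real.norm_of_nonneg (Smooth2_w_nonneg hs x)]
      rcases le_or_gt s ‖x‖ with hx | hx
      · rw [Smooth2_w_zero hs hx, mul_zero, mul_zero]
      · refine mul_le_mul_of_nonneg_right ?_ (Smooth2_w_nonneg hs x)
        rw [Real.norm_eq_abs]
        apply hM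
        rw [add_sub_cancel_left]
        exact hx.le
  · intro x
    simp only
    have h2 := hu.submean (a + x) b hb
    rw [intervalIntegral.integral_of_le hpi] at h2
    rw [integral_mul_const, ← mul_assoc]
    exact mul_le_mul_of_nonneg_right h2 (Smooth2_w_nonneg hs x)

theorem Smooth2_int_one {n : ℕ} {u : Cn n → ℝ} (hu : UpperSemicontinuous u)
    (hb : ∃ L : ℝ, ∀ z, -L ≤ u z) {s : ℝ} (hs : 0 < s) (z : Cn n) :
    Integrable (fun x => u (z + x) * Smooth2_w s x) volume := by
  obtain ⟨M, hM0, hM⟩ := Smooth2_bdd hu hb z s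
  refine ((Smooth2_w_integrable hs).const_mul M).mono' ?_ (Filter.Eventually.of_forall ?_)
  · refine Measurable.aestronglyMeasurable ?_
    have hc : Continuous fun x : Cn n => z + x := by fun_prop
    exact (hu.measurable.comp hc.measurable).mul (Smooth2_w_smooth s).continuous.measurable
  · intro x
    rw [norm_mul, Real.norm_of_nonneg (Smooth2_w_nonneg hs x)]
    rcases le_or_gt s ‖x‖ with hx | hx
    · rw [Smooth2_w_zero hs hx, mul_zero, mul_zero]
    · refine mul_le_mul_of_nonneg_right ?_ (Smooth2_w_nonneg hs x)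
      rw [Real.norm_eq_abs]
      apply hM
      rw [add_sub_cancel_left]
      exact hx.le

theorem Smooth2_le_max {n : ℕ} {u : Cn n → ℝ} (hu : UpperSemicontinuous u)
    (hb : ∃ L : ℝ, ∀ z, -L ≤ u z) {s : ℝ} (hs : 0 < s) (z : Cn n) :
    ∃ z', ‖z' - z‖ ≤ s ∧ Smooth2_v u s z ≤ u z' := by
  obtain ⟨z₁, hz₁, hmax⟩ := UpperSemicontinuousOn.exists_isMaxOn
    (s := closedBall z s) (nonempty_closedBall.2 hs.le) (isCompact_closedBall z s)
    (hu.upperSemicontinuousOn _)
  refine ⟨z₁, by rw [← mem_closedBall_iff_norm]; exact hz₁, ?_⟩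
  unfold Smooth2_v
  calc ∫ x, u (z + x) * Smooth2_w s x ≤ ∫ x, u z₁ * Smooth2_w s x := by
        refine integral_mono (Smooth2_int_one hu hb hs z) ((Smooth2_w_integrable hs).const_mul _) ?_
        intro x
        simp only
        rcases le_or_gt s ‖x‖ with hx | hx
        · rw [Smooth2_w_zero hs hx, mul_zero, mul_zero]
        · refine mul_le_mul_of_nonneg_right ?_ (Smooth2_w_nonneg hs x)
          apply hmax
          rw [mem_closedBall_iff_norm, add_sub_cancel_left]
          exact hx.le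
    _ = u z₁ := by rw [integral_const_mul, Smooth2_w_int hs, mul_one]

theorem Smooth2_log {x y : ℝ} (hx : 0 ≤ x) (hy : 0 ≤ y) (h : y ≤ x + 1) :
    Real.log (1 + y ^ 2) / 2 ≤ Real.log (1 + x ^ 2) / 2 + 1 := by
  have h1 : 1 + y ^ 2 ≤ 3 * (1 + x ^ 2) := by nlinarith [sq_nonneg (x - 1)]
  have h2 : Real.log (1 + y ^ 2) ≤ Real.log (3 * (1 + x ^ 2)) :=
    Real.log_le_log (by positivity) h1
  rw [Real.log_mul (by norm_num) (by positivity)] at h2
  have h3 : Real.log 3 ≤ 2 := by
    have := Real.log_le_sub_one_of_pos (show (0 : ℝ) < 3 by norm_num)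
    linarith
  linarith

/-- Lipschitz constant of the weight -/
theorem Smooth2_lip (n : ℕ) : ∃ C : ℝ, 0 ≤ C ∧ ∀ s : ℝ, 0 < s → ∀ x y : Cn n,
    |Smooth2_w s x - Smooth2_w s y| ≤ C * (s ^ (2 * n + 1))⁻¹ * ‖x - y‖ := by
  obtain ⟨C, hC⟩ := ContDiff.lipschitzWith_of_hasCompactSupport (𝕂 := ℝ)
    (Smooth2_b_supp (n := n)) Smooth2_b_smooth (by simp)
  have hI := Smooth2_b_int (n := n)
  refine ⟨(∫ x : Cn n, Smooth2_b x)⁻¹ * C, by positivity, ?_⟩
  intro s hs x y
  unfold Smooth2_w
  rw [← mul_sub, abs_mul, abs_of_pos (by positivity)]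
  have h1 := hC.dist_le_mul (s⁻¹ • x) (s⁻¹ • y)
  rw [Real.dist_eq, dist_eq_norm, ← smul_sub, norm_smul, norm_inv, Real.norm_of_nonneg hs.le] at h1
  calc (s ^ (2 * n))⁻¹ * (∫ x : Cn n, Smooth2_b x)⁻¹ * |Smooth2_b (s⁻¹ • x) - Smooth2_b (s⁻¹ • y)|
      ≤ (s ^ (2 * n))⁻¹ * (∫ x : Cn n, Smooth2_b x)⁻¹ * (C * (s⁻¹ * ‖x - y‖)) :=
        mul_le_mul_of_nonneg_left h1 (by positivity)
    _ = _ := by
      rw [pow_succ, mul_inv]; ring

/-- convolution with a smooth radial bump of radius `s` -/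
theorem smoothing (n : ℕ) (R : ℝ) (hR : 1 ≤ R) : ∃ K : ℝ, 1 ≤ K ∧
    ∀ (u : Cn n → ℝ) (L a s : ℝ), PshS u → 0 ≤ L → 0 ≤ a → 0 < s → s ≤ 1 / 16 →
      (∀ z, -L ≤ u z) → (∀ z, u z ≤ Real.log (1 + ‖z‖ ^ 2) / 2 + a) →
      ∃ v : Cn n → ℝ, ContDiff ℝ ∞ v ∧ (∀ z ξ, 0 ≤ lev v z ξ) ∧ (∀ z, u z ≤ v z) ∧
        (∀ z, ∃ z', ‖z' - z‖ ≤ s ∧ v z ≤ u z') ∧
        (∀ z, v z ≤ Real.log (1 + ‖z‖ ^ 2) / 2 + a + 1) ∧
        ∀ z z', ‖z‖ ≤ R + 1 → ‖z'‖ ≤ R + 1 →
          |v z - v z'| ≤ K * (L + a + 1) * (s ^ (2 * n + 1))⁻¹ * ‖z - z'‖ := by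
  obtain ⟨C, hC0, hC⟩ := Smooth2_lip n
  set B : ℝ := Real.log (1 + (R + 2) ^ 2) / 2 with hB
  have hB0 : 0 ≤ B := by
    rw [hB]
    have := Real.log_nonneg (show (1 : ℝ) ≤ 1 + (R + 2) ^ 2 by nlinarith)
    linarith
  set V : ℝ := volume.real (closedBall (0 : Cn n) (R + 2)) with hV
  have hV0 : 0 ≤ V := measureReal_nonneg
  refine ⟨max 1 ((1 + B) * V * C), le_max_left _ _, ?_⟩
  intro u L a s hu hL ha hs hs1 hlow hup
  have hli : LocallyIntegrable u volume := usc_locInt hu.usc hu.bdd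
  refine ⟨Smooth2_v u s, Smooth2_v_smooth hli hs, ?_, ?_, ?_, ?_, ?_⟩
  · intro z ξ
    exact lev_nonneg (Smooth2_v_smooth hli hs) (r₀ := 1 / 16) (by norm_num)
      (fun a b hb => Smooth2_v_submean hu hs a b hb) z ξ
  · intro z
    have h1 := (submean_weight hu.usc hu.bdd hs (fun a b hb => hu.submean a b (hb.trans hs1))
      (Smooth2_w s) (Smooth2_w_smooth s).continuous.measurable (Smooth2_w_nonneg hs)
      (by
        obtain ⟨C', hC'⟩ := (Smooth2_w_smooth (n := n) s).continuous.bounded_above_of_compact_support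
          (Smooth2_w_supp hs)
        exact ⟨C', fun x => (le_abs_self _).trans (hC' x)⟩)
      (fun x hx => Smooth2_w_zero hs hx.le)
      (fun θ x => Smooth2_w_norm s (by rw [norm_smul, Complex.norm_exp_ofReal_mul_I, one_mul])) z).2
    rw [Smooth2_w_int hs, mul_one] at h1
    exact h1
  · intro z
    exact Smooth2_le_max hu.usc hu.bdd hs z
  · intro z
    obtain ⟨z', hz', hv⟩ := Smooth2_le_max hu.usc hu.bdd hs z
    have h1 := hup z'
    have h2 : ‖z'‖ ≤ ‖z‖ + 1 := by
      have := norm_le_norm_add_norm_sub z z'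
      have h3 : ‖z - z'‖ ≤ s := by rw [norm_sub_rev]; exact hz'
      have := norm_le_norm_add_norm_sub' z' z
      linarith
    have h3 := Smooth2_log (norm_nonneg z) (norm_nonneg z') h2
    linarith
  · intro z z' hz hz'
    rw [Smooth2_v_eq, Smooth2_v_eq]
    have hint : ∀ z : Cn n, Integrable (fun y => u y * Smooth2_w s (z - y)) volume := by
      intro z
      have h1 := Smooth2_int_one hu.usc hu.bdd hs z
      have h2 : Integrable (fun x => (fun y => u y * Smooth2_w s (z - y)) (z + x)) volume := by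
        refine h1.congr (Filter.Eventually.of_forall fun x => ?_)
        simp only
        congr 1
        apply Smooth2_w_norm
        rw [← norm_neg]
        congr 1
        abel
      have h3 := h2.comp_add_left (-z)
      simpa only [add_neg_cancel_left] using h3
    rw [← integral_sub (hint z) (hint z')]
    have hM : 0 ≤ L + a + B := by linarith
    have hbound : ∀ y : Cn n, ‖u y * Smooth2_w s (z - y) - u y * Smooth2_w s (z' - y)‖ ≤
        (closedBall (0 : Cn n) (R + 2)).indicator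
          (fun _ => (L + a + B) * (C * (s ^ (2 * n + 1))⁻¹ * ‖z - z'‖)) y := by
      intro y
      by_cases hy : y ∈ closedBall (0 : Cn n) (R + 2)
      · rw [indicator_of_mem hy, ← mul_sub, norm_mul, Real.norm_eq_abs, Real.norm_eq_abs]
        refine mul_le_mul ?_ ?_ (abs_nonneg _) hM
        · have h1 := hlow y
          have h2 := hup y
          have h3 : Real.log (1 + ‖y‖ ^ 2) / 2 ≤ B := by
            rw [hB]
            have h4 : ‖y‖ ≤ R + 2 := mem_closedBall_zero_iff.1 hy
            have h5 : 1 + ‖y‖ ^ 2 ≤ 1 + (R + 2) ^ 2 := by nlinarith [norm_nonneg y]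
            have := Real.log_le_log (by positivity) h5
            linarith
          rw [abs_le]
          constructor <;> linarith
        · have h1 := hC s hs (z - y) (z' - y)
          have h2 : z - y - (z' - y) = z - z' := by abel
          rw [h2] at h1
          exact h1
      · rw [indicator_of_notMem hy]
        rw [mem_closedBall_zero_iff, not_le] at hy
        have h1 : ∀ z : Cn n, ‖z‖ ≤ R + 1 → Smooth2_w s (z - y) = 0 := by
          intro z hz
          apply Smooth2_w_zero hs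
          have := norm_sub_norm_le y z
          rw [norm_sub_rev y z] at this
          linarith
        rw [h1 z hz, h1 z' hz', mul_zero, sub_self, norm_zero]
    have hfin : IntegrableOn (fun _ : Cn n => (L + a + B) * (C * (s ^ (2 * n + 1))⁻¹ * ‖z - z'‖))
        (closedBall (0 : Cn n) (R + 2)) volume := by
      refine integrableOn_const ?_
      exact (isCompact_closedBall _ _).measure_lt_top.ne
    have h1 := norm_integral_le_of_norm_le (hfin.integrable_indicator measurableSet_closedBall)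
      (Filter.Eventually.of_forall hbound)
    rw [Real.norm_eq_abs] at h1
    refine h1.trans ?_
    rw [integral_indicator measurableSet_closedBall, setIntegral_const, smul_eq_mul]
    have h2 : L + a + B ≤ (1 + B) * (L + a + 1) := by nlinarith
    have h3 : 0 ≤ C * (s ^ (2 * n + 1))⁻¹ * ‖z - z'‖ := by positivity
    calc V * ((L + a + B) * (C * (s ^ (2 * n + 1))⁻¹ * ‖z - z'‖))
        ≤ V * (((1 + B) * (L + a + 1)) * (C * (s ^ (2 * n + 1))⁻¹ * ‖z - z'‖)) := by
          exact mul_le_mul_of_nonneg_left (mul_le_mul_of_nonneg_right h2 h3) hV0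
      _ = ((1 + B) * V * C) * (L + a + 1) * (s ^ (2 * n + 1))⁻¹ * ‖z - z'‖ := by ring
      _ ≤ max 1 ((1 + B) * V * C) * (L + a + 1) * (s ^ (2 * n + 1))⁻¹ * ‖z - z'‖ := by
          have h4 : (1 + B) * V * C ≤ max 1 ((1 + B) * V * C) := le_max_right _ _
          have h5 : 0 ≤ L + a + 1 := by linarith
          have h6 : 0 ≤ (s ^ (2 * n + 1))⁻¹ := by positivity
          exact mul_le_mul_of_nonneg_right (mul_le_mul_of_nonneg_right
            (mul_le_mul_of_nonneg_right h4 h5) h6) (norm_nonneg _)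

end HMA
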