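import Pool.Agent.H85.MA.Defs

/-! # Module SUPB: suprema over closed balls of upper semicontinuous functions -/

open MeasureTheory Metric Set
open scoped ENNReal Topology ContDiff

namespace HMA

variable {n : ℕ} {f : Cn n → ℝ}

theorem SupB_max (hf : UpperSemicontinuous f) {r : ℝ} (hr : 0 ≤ r) (z : Cn n) :
    ∃ z' ∈ closedBall z r, ∀ x ∈ closedBall z r, f x ≤ f z' := by
  have h1 : IsCompact (closedBall z r) := isCompact_closedBall z r
  have h2 : (closedBall z r).Nonempty := ⟨z, mem_closedBall_self hr⟩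
  obtain ⟨z', hz', hm⟩ := (hf.upperSemicontinuousOn _).exists_isMaxOn h2 h1
  exact ⟨z', hz', fun x hx => hm hx⟩

theorem supB_attained (hf : UpperSemicontinuous f) {r : ℝ} (hr : 0 ≤ r) (z : Cn n) :
    ∃ z', ‖z' - z‖ ≤ r ∧ supB f r z = f z' := by
  obtain ⟨z', hz', hm⟩ := SupB_max hf hr z
  refine ⟨z', by rwa [mem_closedBall, dist_eq_norm] at hz', ?_⟩
  unfold supB
  apply le_antisymm
  · apply csSup_le (Set.Nonempty.image f ⟨z', hz'⟩)
    rintro _ ⟨x, hx, rfl⟩
    exact hm x hx
  · apply le_csSup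
    · refine ⟨f z', ?_⟩
      rintro _ ⟨x, hx, rfl⟩
      exact hm x hx
    · exact ⟨z', hz', rfl⟩

theorem le_supB (hf : UpperSemicontinuous f) {r : ℝ} {z z' : Cn n} (h : ‖z' - z‖ ≤ r) :
    f z' ≤ supB f r z := by
  have hr : 0 ≤ r := le_trans (norm_nonneg _) h
  obtain ⟨w, hw, hm⟩ := SupB_max hf hr z
  unfold supB
  apply le_csSup
  · refine ⟨f w, ?_⟩
    rintro _ ⟨x, hx, rfl⟩
    exact hm x hx
  · exact ⟨z', by rwa [mem_closedBall, dist_eq_norm], rfl⟩

theorem supB_usc (hf : UpperSemicontinuous f) {r : ℝ} (hr : 0 ≤ r) :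
    UpperSemicontinuous (supB f r) := by
  intro z y hy
  have hU : IsOpen {x | f x < y} := hf.isOpen_preimage y
  have hsub : closedBall z r ⊆ {x | f x < y} := by
    intro x hx
    rw [mem_closedBall, dist_eq_norm] at hx
    exact lt_of_le_of_lt (le_supB hf hx) hy
  obtain ⟨δ, hδ, hδU⟩ := (isCompact_closedBall z r).exists_thickening_subset_open hU hsub
  filter_upwards [Metric.ball_mem_nhds z hδ] with z' hz'
  obtain ⟨w, hw, hwe⟩ := supB_attained hf hr z'
  rw [hwe]
  apply hδU
  rw [mem_thickening_iff]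
  refine ⟨w - (z' - z), ?_, ?_⟩
  · rw [mem_closedBall, dist_eq_norm]
    have e : w - (z' - z) - z = w - z' := by abel
    rw [e]
    exact hw
  · rw [dist_eq_norm]
    have e : w - (w - (z' - z)) = z' - z := by abel
    rw [e, ← dist_eq_norm]
    exact hz'

theorem supB_tendsto (hf : UpperSemicontinuous f) (z : Cn n) :
    Filter.Tendsto (fun r => supB f r z) (𝓝[>] 0) (𝓝 (f z)) := by
  rw [tendsto_order]
  constructor
  · intro a ha
    filter_upwards [self_mem_nhdsWithin] with r hr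
    have hr' : (0 : ℝ) < r := hr
    have h1 : f z ≤ supB f r z := le_supB hf (by rw [sub_self, norm_zero]; exact hr'.le)
    exact lt_of_lt_of_le ha h1
  · intro a ha
    obtain ⟨δ, hδ, hδU⟩ := Metric.eventually_nhds_iff_ball.1 (hf z a ha)
    filter_upwards [self_mem_nhdsWithin, mem_nhdsWithin_of_mem_nhds (Iio_mem_nhds hδ)] with r hr hr2
    have hr' : (0 : ℝ) < r := hr
    have hr2' : r < δ := hr2
    obtain ⟨w, hw, hwe⟩ := supB_attained hf hr'.le z
    rw [hwe]
    apply hδU
    rw [mem_ball, dist_eq_norm]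
    exact lt_of_le_of_lt hw hr2'

end HMA
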