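import Pool.Agent.H85.MA.Liouv

/-! # Module BERG: orthonormal basis of the entire `L²` functions -/

open MeasureTheory Metric Set
open scoped ENNReal Topology ContDiff

namespace HMA

theorem Berg_ev_add {n : ℕ} (P Q : MvPolynomial (Fin n) ℂ) (z : Cn n) :
    ev (P + Q) z = ev P z + ev Q z := map_add _ _ _

theorem Berg_ev_smul {n : ℕ} (c : ℂ) (P : MvPolynomial (Fin n) ℂ) (z : Cn n) :
    ev (c • P) z = c * ev P z := MvPolynomial.smul_eval _ _ _

theorem Berg_ev_sum {n : ℕ} {ι : Type} (s : Finset ι) (P : ι → MvPolynomial (Fin n) ℂ) (z : Cn n) :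
    ev (∑ i ∈ s, P i) z = ∑ i ∈ s, ev (P i) z := map_sum _ _ _

theorem Berg_ev_cont {n : ℕ} (P : MvPolynomial (Fin n) ℂ) : Continuous (fun z : Cn n => ev P z) := by
  unfold ev
  exact (MvPolynomial.continuous_eval P).comp (continuous_pi fun i => by fun_prop)

/-- the square integrable polynomials -/
def Berg_E (n M : ℕ) (w : Cn n → ℝ) (hwc : Continuous w) (hw0 : ∀ z, 0 < w z) :
    Submodule ℂ (MvPolynomial (Fin n) ℂ) where
  carrier := {P | P.totalDegree ≤ M ∧ Integrable (fun z : Cn n => ‖ev P z‖ ^ 2 * w z) volume}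
  add_mem' := by
    rintro P Q ⟨hP, hP'⟩ ⟨hQ, hQ'⟩
    refine ⟨(MvPolynomial.totalDegree_add _ _).trans (max_le hP hQ), ?_⟩
    refine Integrable.mono' ((hP'.const_mul 2).add (hQ'.const_mul 2)) ?_ ?_
    · exact (((Berg_ev_cont (P + Q)).norm.pow 2).mul hwc).aestronglyMeasurable
    · refine Filter.Eventually.of_forall fun z => ?_
      have h1 : 0 ≤ ‖ev (P + Q) z‖ ^ 2 * w z := mul_nonneg (sq_nonneg _) (hw0 z).le
      rw [Real.norm_of_nonneg h1]
      have h2 : ‖ev (P + Q) z‖ ≤ ‖ev P z‖ + ‖ev Q z‖ := by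
        rw [Berg_ev_add]
        exact norm_add_le _ _
      have h3 : ‖ev (P + Q) z‖ ^ 2 ≤ 2 * ‖ev P z‖ ^ 2 + 2 * ‖ev Q z‖ ^ 2 := by
        have h4 : ‖ev (P + Q) z‖ ^ 2 ≤ (‖ev P z‖ + ‖ev Q z‖) ^ 2 := by gcongr
        nlinarith [sq_nonneg (‖ev P z‖ - ‖ev Q z‖)]
      have h5 := mul_le_mul_of_nonneg_right h3 (hw0 z).le
      show ‖ev (P + Q) z‖ ^ 2 * w z ≤ 2 * (‖ev P z‖ ^ 2 * w z) + 2 * (‖ev Q z‖ ^ 2 * w z)
      linarith
  zero_mem' := by
    refine ⟨by simp, ?_⟩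
    have : (fun z : Cn n => ‖ev (0 : MvPolynomial (Fin n) ℂ) z‖ ^ 2 * w z) = fun _ => 0 := by
      funext z
      unfold ev
      simp
    rw [this]
    exact integrable_zero _ _ _
  smul_mem' := by
    rintro c P ⟨hP, hP'⟩
    refine ⟨(MvPolynomial.totalDegree_smul_le _ _).trans hP, ?_⟩
    have : (fun z : Cn n => ‖ev (c • P) z‖ ^ 2 * w z) =
        fun z => ‖c‖ ^ 2 * (‖ev P z‖ ^ 2 * w z) := by
      funext z
      rw [Berg_ev_smul, norm_mul]
      ring
    rw [this]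
    exact hP'.const_mul _

theorem Berg_int_mul {n M : ℕ} {w : Cn n → ℝ} (hwc : Continuous w) (hw0 : ∀ z, 0 < w z)
    (P Q : Berg_E n M w hwc hw0) :
    Integrable (fun z : Cn n => (starRingEnd ℂ) (ev P.1 z) * ev Q.1 z * (w z : ℂ)) volume := by
  refine Integrable.mono' (P.2.2.add Q.2.2) ?_ ?_
  · exact (((Complex.continuous_conj.comp (Berg_ev_cont P.1)).mul (Berg_ev_cont Q.1)).mul
      (Complex.continuous_ofReal.comp hwc)).aestronglyMeasurable
  · refine Filter.Eventually.of_forall fun z => ?_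
    rw [norm_mul, norm_mul, Complex.norm_conj, Complex.norm_real, Real.norm_of_nonneg (hw0 z).le]
    show _ ≤ ‖ev P.1 z‖ ^ 2 * w z + ‖ev Q.1 z‖ ^ 2 * w z
    rw [← add_mul]
    refine mul_le_mul_of_nonneg_right ?_ (hw0 z).le
    nlinarith [sq_nonneg (‖ev P.1 z‖ - ‖ev Q.1 z‖), sq_nonneg (‖ev P.1 z‖ + ‖ev Q.1 z‖)]

/-- the inner product -/
noncomputable def Berg_in {n M : ℕ} {w : Cn n → ℝ} {hwc : Continuous w} {hw0 : ∀ z, 0 < w z}
    (P Q : Berg_E n M w hwc hw0) : ℂ :=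
  ∫ z : Cn n, (starRingEnd ℂ) (ev P.1 z) * ev Q.1 z * (w z : ℂ)

theorem Berg_in_self {n M : ℕ} {w : Cn n → ℝ} {hwc : Continuous w} {hw0 : ∀ z, 0 < w z}
    (P : Berg_E n M w hwc hw0) :
    Berg_in P P = ((∫ z : Cn n, ‖ev P.1 z‖ ^ 2 * w z : ℝ) : ℂ) := by
  unfold Berg_in
  rw [← integral_complex_ofReal]
  congr 1
  funext z
  rw [Complex.conj_mul']
  push_cast
  ring

theorem Berg_definite {n M : ℕ} {w : Cn n → ℝ} {hwc : Continuous w} {hw0 : ∀ z, 0 < w z}
    (P : Berg_E n M w hwc hw0) (h : Berg_in P P = 0) : P = 0 := by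
  rw [Berg_in_self] at h
  have h1 : ∫ z : Cn n, ‖ev P.1 z‖ ^ 2 * w z = 0 := by exact_mod_cast h
  rw [integral_eq_zero_iff_of_nonneg (fun z => mul_nonneg (sq_nonneg _) (hw0 z).le) P.2.2] at h1
  have h2 := (Continuous.ae_eq_iff_eq volume (((Berg_ev_cont P.1).norm.pow 2).mul hwc)
    continuous_const).mp h1
  refine Subtype.ext ?_
  refine MvPolynomial.funext fun x => ?_
  have h3 := congrFun h2 (WithLp.toLp 2 x)
  have h4 : ‖ev P.1 (WithLp.toLp 2 x)‖ ^ 2 = 0 := by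
    rcases mul_eq_zero.mp h3 with h | h
    · exact h
    · exact absurd h (hw0 _).ne'
  have h5 : ev P.1 (WithLp.toLp 2 x) = 0 := by simpa using h4
  have h6 : ev P.1 (WithLp.toLp 2 x) = MvPolynomial.eval x P.1 := rfl
  rw [← h6, h5]
  simp

/-- the inner product structure -/
@[instance_reducible]
noncomputable def Berg_core (n M : ℕ) (w : Cn n → ℝ) (hwc : Continuous w) (hw0 : ∀ z, 0 < w z) :
    InnerProductSpace.Core ℂ (Berg_E n M w hwc hw0) where
  inner := Berg_in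
  conj_inner_symm := by
    intro x y
    show (starRingEnd ℂ) (Berg_in y x) = Berg_in x y
    unfold Berg_in
    rw [← integral_conj]
    congr 1
    funext z
    simp only [map_mul, Complex.conj_conj, Complex.conj_ofReal]
    ring
  re_inner_nonneg := by
    intro x
    show 0 ≤ RCLike.re (Berg_in x x)
    rw [Berg_in_self]
    have h1 : 0 ≤ ∫ z : Cn n, ‖ev x.1 z‖ ^ 2 * w z :=
      integral_nonneg fun z => mul_nonneg (sq_nonneg _) (hw0 z).le
    have h2 : RCLike.re ((∫ z : Cn n, ‖ev x.1 z‖ ^ 2 * w z : ℝ) : ℂ) =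
      ∫ z : Cn n, ‖ev x.1 z‖ ^ 2 * w z := Complex.ofReal_re _
    rw [h2]
    exact h1
  add_left := by
    intro x y z
    show Berg_in (x + y) z = Berg_in x z + Berg_in y z
    unfold Berg_in
    rw [← integral_add (Berg_int_mul hwc hw0 x z) (Berg_int_mul hwc hw0 y z)]
    congr 1
    funext t
    have : ev (x + y : Berg_E n M w hwc hw0).1 t = ev x.1 t + ev y.1 t := Berg_ev_add _ _ _
    rw [this, map_add]
    ring
  smul_left := by
    intro x y r
    show Berg_in (r • x) y = (starRingEnd ℂ) r * Berg_in x y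
    unfold Berg_in
    rw [← integral_const_mul]
    congr 1
    funext t
    have : ev (r • x : Berg_E n M w hwc hw0).1 t = r * ev x.1 t := Berg_ev_smul _ _ _
    rw [this, map_mul]
    ring
  definite := fun x h => Berg_definite x h

/-- the coefficients -/
noncomputable def Berg_coef (n M : ℕ) (w : Cn n → ℝ) (hwc : Continuous w) (hw0 : ∀ z, 0 < w z) :
    Berg_E n M w hwc hw0 →ₗ[ℂ] ((Fin n → Fin (M + 1)) → ℂ) where
  toFun P := fun α => MvPolynomial.coeff (Finsupp.equivFunOnFinite.symm fun i => (α i : ℕ)) P.1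
  map_add' := by
    intro x y
    funext α
    exact MvPolynomial.coeff_add _ _ _
  map_smul' := by
    intro c x
    funext α
    exact MvPolynomial.coeff_smul _ _ _

theorem Berg_coef_inj (n M : ℕ) (w : Cn n → ℝ) (hwc : Continuous w) (hw0 : ∀ z, 0 < w z) :
    Function.Injective (Berg_coef n M w hwc hw0) := by
  rw [← LinearMap.ker_eq_bot, LinearMap.ker_eq_bot']
  intro P hP
  refine Subtype.ext ?_
  refine MvPolynomial.ext _ _ fun m => ?_
  rw [ZeroMemClass.coe_zero, MvPolynomial.coeff_zero]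
  by_contra hne
  have h1 : m ∈ P.1.support := MvPolynomial.mem_support_iff.mpr hne
  have h2 := (MvPolynomial.le_totalDegree h1).trans P.2.1
  have h3 : ∀ i, m i < M + 1 := by
    intro i
    have h4 : m i ≤ m.sum fun _ e => e := by
      rw [Finsupp.sum_fintype _ _ (fun _ => rfl)]
      exact Finset.single_le_sum (fun _ _ => Nat.zero_le _) (Finset.mem_univ i)
    omega
  have h5 := congrFun hP (fun i => ⟨m i, h3 i⟩)
  apply hne
  have h6 : (Finsupp.equivFunOnFinite.symm fun i => m i) = m := by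
    ext i
    rfl
  have h7 : Berg_coef n M w hwc hw0 P (fun i => ⟨m i, h3 i⟩) =
      MvPolynomial.coeff (Finsupp.equivFunOnFinite.symm fun i => m i) P.1 := rfl
  rw [h7, h6] at h5
  exact h5

theorem bergman {n M : ℕ} {w : Cn n → ℝ} (hwc : Continuous w) (hw0 : ∀ z, 0 < w z)
    (hwM : ∃ c : ℝ, 0 < c ∧ ∀ z, c * ((1 + ‖z‖ ^ 2) ^ M)⁻¹ ≤ w z) :
    ∃ (N : ℕ) (P : Fin N → MvPolynomial (Fin n) ℂ), N ≤ (M + 1) ^ n ∧
      (∀ j, (P j).totalDegree ≤ M) ∧
      (∀ j, Integrable (fun z : Cn n => ‖ev (P j) z‖ ^ 2 * w z) volume ∧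
        ∫ z : Cn n, ‖ev (P j) z‖ ^ 2 * w z = 1) ∧
      ∀ f : Cn n → ℂ, Differentiable ℂ f → Integrable (fun z => ‖f z‖ ^ 2 * w z) volume →
        ∀ z, ‖f z‖ ^ 2 ≤ (∫ x, ‖f x‖ ^ 2 * w x) * ∑ j, ‖ev (P j) z‖ ^ 2 := by
  have hfin : FiniteDimensional ℂ (Berg_E n M w hwc hw0) :=
    FiniteDimensional.of_injective _ (Berg_coef_inj n M w hwc hw0)
  let core := Berg_core n M w hwc hw0
  let _ : NormedAddCommGroup (Berg_E n M w hwc hw0) := core.toNormedAddCommGroup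
  let _ : InnerProductSpace ℂ (Berg_E n M w hwc hw0) := InnerProductSpace.ofCore core.toCore
  set b := stdOrthonormalBasis ℂ (Berg_E n M w hwc hw0) with hb
  have hinner : ∀ x y : Berg_E n M w hwc hw0, inner ℂ x y = Berg_in x y := fun _ _ => rfl
  have hnorm : ∀ x : Berg_E n M w hwc hw0, ‖x‖ ^ 2 = ∫ z : Cn n, ‖ev x.1 z‖ ^ 2 * w z := by
    intro x
    have h1 : (inner ℂ x x : ℂ) = ((‖x‖ ^ 2 : ℝ) : ℂ) := by
      rw [inner_self_eq_norm_sq_to_K]
      push_cast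
      rfl
    rw [hinner, Berg_in_self] at h1
    exact_mod_cast h1.symm
  refine ⟨Module.finrank ℂ (Berg_E n M w hwc hw0), fun j => (b j).1, ?_, ?_, ?_, ?_⟩
  · refine (LinearMap.finrank_le_finrank_of_injective (Berg_coef_inj n M w hwc hw0)).trans ?_
    rw [Module.finrank_fintype_fun_eq_card]
    simp
  · exact fun j => (b j).2.1
  · intro j
    refine ⟨(b j).2.2, ?_⟩
    rw [← hnorm, b.orthonormal.1 j]
    norm_num
  · intro f hf hfi z
    obtain ⟨c, hc, hcw⟩ := hwM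
    obtain ⟨P, hPM, hPf⟩ := entire_poly (M := M) hf (by
      refine Integrable.mono' (hfi.const_mul c⁻¹) ?_ ?_
      · refine ((hf.continuous.norm.pow 2).mul ?_).aestronglyMeasurable
        refine Continuous.inv₀ (by fun_prop) (fun z => ?_)
        positivity
      · refine Filter.Eventually.of_forall fun z => ?_
        have h1 : 0 ≤ ‖f z‖ ^ 2 * ((1 + ‖z‖ ^ 2) ^ M)⁻¹ := by positivity
        rw [Real.norm_of_nonneg h1]
        have h2 : ((1 + ‖z‖ ^ 2) ^ M)⁻¹ ≤ c⁻¹ * w z := by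
          rw [← mul_le_mul_iff_right₀ hc, mul_inv_cancel_left₀ hc.ne']
          exact hcw z
        calc ‖f z‖ ^ 2 * ((1 + ‖z‖ ^ 2) ^ M)⁻¹ ≤ ‖f z‖ ^ 2 * (c⁻¹ * w z) := by gcongr
          _ = c⁻¹ * (‖f z‖ ^ 2 * w z) := by ring)
    have hev : f = fun z => ev P z := funext hPf
    subst hev
    set x : Berg_E n M w hwc hw0 := ⟨P, hPM, hfi⟩ with hx
    have h1 := b.sum_repr' x
    have h2 : ev P z = ∑ j, inner ℂ (b j) x * ev (b j).1 z := by
      have h3 : P = ∑ j, inner ℂ (b j) x • (b j).1 := by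
        have h4 : (∑ j, inner ℂ (b j) x • b j : Berg_E n M w hwc hw0).1 = P :=
          congrArg Subtype.val h1
        conv_lhs => rw [← h4]
        rw [AddSubmonoidClass.coe_finsetSum]
        rfl
      conv_lhs => rw [h3]
      rw [Berg_ev_sum]
      exact Finset.sum_congr rfl fun j _ => Berg_ev_smul _ _ _
    have h5 : ‖x‖ ^ 2 = ∫ z : Cn n, ‖ev P z‖ ^ 2 * w z := hnorm x
    have h6 := b.sum_sq_norm_inner_right x
    have h7 : ‖ev P z‖ ≤ ∑ j, ‖inner ℂ (b j) x‖ * ‖ev (b j).1 z‖ := by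
      rw [h2]
      refine (norm_sum_le _ _).trans (le_of_eq ?_)
      exact Finset.sum_congr rfl fun j _ => norm_mul _ _
    have h8 := Finset.sum_mul_sq_le_sq_mul_sq Finset.univ (fun j => ‖inner ℂ (b j) x‖)
      (fun j => ‖ev (b j).1 z‖)
    calc ‖ev P z‖ ^ 2 ≤ (∑ j, ‖inner ℂ (b j) x‖ * ‖ev (b j).1 z‖) ^ 2 := by gcongr
      _ ≤ (∑ j, ‖inner ℂ (b j) x‖ ^ 2) * ∑ j, ‖ev (b j).1 z‖ ^ 2 := h8
      _ = (∫ x : Cn n, ‖ev P x‖ ^ 2 * w x) * ∑ j, ‖ev (b j).1 z‖ ^ 2 := by rw [h6, h5]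

end HMA
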