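import Pool.Agent.H85.MA.Defs

/-! # Module RADINT: integrals of `(‖z‖² + τ)^(-n)` over balls and shells -/

open MeasureTheory Metric Set
open scoped ENNReal Topology ContDiff

namespace HMA

theorem RadInt_finrank (n : ℕ) : Module.finrank ℝ (Cn n) = 2 * n := by
  have h := Module.finrank_mul_finrank ℝ ℂ (Cn n)
  rw [Complex.finrank_real_complex, finrank_euclideanSpace, Fintype.card_fin] at h
  exact h.symm

/-- the volume of balls -/
theorem RadInt_vol (n : ℕ) (y : Cn n) (r : ℝ) (hr : 0 < r) :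
    (volume (ball y r)).toReal = r ^ (2 * n) * (volume (ball (0 : Cn n) 1)).toReal := by
  rw [Measure.addHaar_ball_of_pos volume y hr, RadInt_finrank, ENNReal.toReal_mul,
    ENNReal.toReal_ofReal (by positivity)]

theorem RadInt_cont (n : ℕ) (y : Cn n) (τ : ℝ) (hτ : 0 < τ) :
    Continuous fun z : Cn n => ((‖z - y‖ ^ 2 + τ) ^ n)⁻¹ := by
  apply Continuous.inv₀
  · fun_prop
  · intro z
    positivity

theorem RadInt_int (n : ℕ) (y x : Cn n) (r τ : ℝ) (hτ : 0 < τ) :
    IntegrableOn (fun z : Cn n => ((‖z - y‖ ^ 2 + τ) ^ n)⁻¹) (ball x r) :=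
  ((RadInt_cont n y τ hτ).continuousOn.integrableOn_compact
    (isCompact_closedBall x r)).mono_set ball_subset_closedBall

/-- lower bound on one shell -/
theorem RadInt_shell (n : ℕ) (y : Cn n) (r τ : ℝ) (hr : 0 < r) (hτ : 0 < τ) (h : τ ≤ r ^ 2) :
    (2 ^ n)⁻¹ * ((1 - (4 ^ n)⁻¹) * (volume (ball (0 : Cn n) 1)).toReal) ≤
      ∫ z in ball y r \ ball y (r / 2), ((‖z - y‖ ^ 2 + τ) ^ n)⁻¹ := by
  have hfin : ∀ s : ℝ, volume (ball y s) ≠ ⊤ := fun s => measure_ball_lt_top.ne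
  have hsub : ball y (r / 2) ⊆ ball y r := ball_subset_ball (by linarith)
  have hfin' : volume (ball y r \ ball y (r / 2)) ≠ ⊤ :=
    ne_top_of_le_ne_top (hfin r) (measure_mono sdiff_subset)
  have hvol : (volume (ball y r \ ball y (r / 2))).toReal =
      r ^ (2 * n) * ((1 - (4 ^ n)⁻¹) * (volume (ball (0 : Cn n) 1)).toReal) := by
    rw [measure_sdiff hsub measurableSet_ball.nullMeasurableSet (hfin _),
      ENNReal.toReal_sub_of_le (measure_mono hsub) (hfin _), RadInt_vol n y r hr,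
      RadInt_vol n y (r / 2) (by positivity), div_pow, pow_mul (2 : ℝ) 2 n]
    norm_num
    field_simp
  have h1 : ∫ z in ball y r \ ball y (r / 2), ((2 * r ^ 2) ^ n)⁻¹ ≤
      ∫ z in ball y r \ ball y (r / 2), ((‖z - y‖ ^ 2 + τ) ^ n)⁻¹ := by
    apply setIntegral_mono_on
    · exact integrableOn_const hfin'
    · exact (RadInt_int n y y r τ hτ).mono_set sdiff_subset
    · exact measurableSet_ball.diff measurableSet_ball
    · intro z hz
      have hz1 : ‖z - y‖ < r := by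
        have := hz.1
        rwa [mem_ball_iff_norm] at this
      apply inv_anti₀ (by positivity)
      apply pow_le_pow_left₀ (by positivity)
      nlinarith [norm_nonneg (z - y)]
  rw [setIntegral_const, smul_eq_mul, Measure.real, hvol] at h1
  refine le_trans (le_of_eq ?_) h1
  rw [mul_pow, ← pow_mul]
  field_simp

/-- induction over dyadic shells -/
theorem RadInt_dyadic (n : ℕ) (y : Cn n) (τ : ℝ) (hτ : 0 < τ) (N : ℕ) :
    ∀ r : ℝ, 0 < r → 4 ^ N * τ ≤ 4 * r ^ 2 →
      (2 ^ n)⁻¹ * ((1 - (4 ^ n)⁻¹) * (volume (ball (0 : Cn n) 1)).toReal) * N ≤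
        ∫ z in ball y r, ((‖z - y‖ ^ 2 + τ) ^ n)⁻¹ := by
  induction N with
  | zero =>
    intro r hr h
    simp only [Nat.cast_zero, mul_zero]
    apply setIntegral_nonneg measurableSet_ball
    intro z hz
    positivity
  | succ N ih =>
    intro r hr h
    have h4 : (1 : ℝ) ≤ 4 ^ N := one_le_pow₀ (by norm_num)
    have h' : 4 ^ N * τ ≤ r ^ 2 := by
      rw [pow_succ] at h
      linarith
    have h1 := ih (r / 2) (by positivity) (by rw [div_pow]; linarith)
    have hτr : τ ≤ r ^ 2 := by nlinarith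
    have h2 := RadInt_shell n y r τ hr hτ hτr
    have hsub : ball y (r / 2) ⊆ ball y r := ball_subset_ball (by linarith)
    have h3 : ∫ z in ball y r, ((‖z - y‖ ^ 2 + τ) ^ n)⁻¹ =
        (∫ z in ball y r \ ball y (r / 2), ((‖z - y‖ ^ 2 + τ) ^ n)⁻¹) +
        ∫ z in ball y (r / 2), ((‖z - y‖ ^ 2 + τ) ^ n)⁻¹ := by
      rw [← setIntegral_union disjoint_sdiff_left measurableSet_ball
        ((RadInt_int n y y r τ hτ).mono_set sdiff_subset) (RadInt_int n y y (r / 2) τ hτ),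
        sdiff_union_of_subset hsub]
    rw [h3]
    push_cast
    linarith

/-- upper bound on the shell and logarithmic lower bound on the ball -/
theorem rad_int (n : ℕ) (hn : 1 ≤ n) : ∃ c K : ℝ, 0 < c ∧ 0 < K ∧ ∀ (ρ τ : ℝ) (y : Cn n),
    0 < ρ → ρ ≤ 1 → 0 < τ → τ ≤ ρ ^ 2 →
      (∫ z in ball y ρ \ ball y (ρ / 2), ((‖z - y‖ ^ 2 + τ) ^ n)⁻¹ ≤ K) ∧
      (c * Real.log (ρ ^ 2 / τ) - K ≤ ∫ z in ball y (ρ / 2), ((‖z - y‖ ^ 2 + τ) ^ n)⁻¹) := by
  set V : ℝ := (volume (ball (0 : Cn n) 1)).toReal with hV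
  have hVpos : 0 < V := by
    rw [hV]
    exact ENNReal.toReal_pos (measure_ball_pos _ _ one_pos).ne' measure_ball_lt_top.ne
  set c₀ : ℝ := (2 ^ n)⁻¹ * ((1 - (4 ^ n)⁻¹) * V) with hc₀
  have h4n : (4 ^ n : ℝ)⁻¹ < 1 := by
    apply inv_lt_one_of_one_lt₀
    exact one_lt_pow₀ (by norm_num) (by omega)
  have hc₀pos : 0 < c₀ := by
    rw [hc₀]
    have : 0 < 1 - (4 ^ n : ℝ)⁻¹ := by linarith
    positivity
  have hlog4 : 0 < Real.log 4 := Real.log_pos (by norm_num)
  refine ⟨c₀ / Real.log 4, c₀ + 4 ^ n * V, by positivity, by positivity, ?_⟩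
  intro ρ τ y hρ hρ1 hτ hτρ
  constructor
  · have hfin' : volume (ball y ρ \ ball y (ρ / 2)) ≠ ⊤ :=
      ne_top_of_le_ne_top measure_ball_lt_top.ne (measure_mono sdiff_subset : _ ≤ volume (ball y ρ))
    have h1 : ∫ z in ball y ρ \ ball y (ρ / 2), ((‖z - y‖ ^ 2 + τ) ^ n)⁻¹ ≤
        ∫ z in ball y ρ \ ball y (ρ / 2), (((ρ / 2) ^ 2) ^ n)⁻¹ := by
      apply setIntegral_mono_on
      · exact (RadInt_int n y y ρ τ hτ).mono_set sdiff_subset
      · exact integrableOn_const hfin'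
      · exact measurableSet_ball.diff measurableSet_ball
      · intro z hz
        have hz1 : ρ / 2 ≤ ‖z - y‖ := by
          have := hz.2
          rw [mem_ball_iff_norm] at this
          exact not_lt.mp this
        apply inv_anti₀ (by positivity)
        apply pow_le_pow_left₀ (by positivity)
        nlinarith
    rw [setIntegral_const, smul_eq_mul, Measure.real] at h1
    have h2 : (volume (ball y ρ \ ball y (ρ / 2))).toReal ≤ ρ ^ (2 * n) * V := by
      rw [hV, ← RadInt_vol n y ρ hρ]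
      exact ENNReal.toReal_mono measure_ball_lt_top.ne (measure_mono sdiff_subset)
    have h3 : (volume (ball y ρ \ ball y (ρ / 2))).toReal * (((ρ / 2) ^ 2) ^ n)⁻¹ ≤
        ρ ^ (2 * n) * V * (((ρ / 2) ^ 2) ^ n)⁻¹ := by
      apply mul_le_mul_of_nonneg_right h2
      positivity
    have h4 : ρ ^ (2 * n) * V * (((ρ / 2) ^ 2) ^ n)⁻¹ = 4 ^ n * V := by
      rw [div_pow, div_pow, ← pow_mul ρ 2 n]
      norm_num
      field_simp
    linarith
  · have hq : 1 ≤ ρ ^ 2 / τ := by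
      rw [le_div_iff₀ hτ]
      linarith
    have hlq : 0 ≤ Real.log (ρ ^ 2 / τ) := Real.log_nonneg hq
    set N : ℕ := ⌊Real.log (ρ ^ 2 / τ) / Real.log 4⌋₊ with hN
    have hN1 : (N : ℝ) ≤ Real.log (ρ ^ 2 / τ) / Real.log 4 :=
      Nat.floor_le (by positivity)
    have hN2 : Real.log (ρ ^ 2 / τ) / Real.log 4 < N + 1 := Nat.lt_floor_add_one _
    have h4N : (4 : ℝ) ^ N ≤ ρ ^ 2 / τ := by
      rw [← Real.log_le_log_iff (by positivity) (by positivity), Real.log_pow]
      rw [le_div_iff₀ hlog4] at hN1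
      exact hN1
    have h5 := RadInt_dyadic n y τ hτ N (ρ / 2) (by positivity) (by
      rw [le_div_iff₀ hτ] at h4N
      rw [div_pow]
      linarith)
    have h6 : c₀ / Real.log 4 * Real.log (ρ ^ 2 / τ) ≤ c₀ * (N + 1) := by
      rw [div_mul_eq_mul_div, mul_div_assoc]
      exact mul_le_mul_of_nonneg_left hN2.le hc₀pos.le
    have h7 : 0 < 4 ^ n * V := by positivity
    rw [← hV, ← hc₀] at h5
    linarith

end HMA
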