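import Pool.Agent.H85.MA.Defs

/-! # Module SUBM: weighted sub-mean value inequality for `|f|²`, `f` entire -/

open MeasureTheory Metric Set
open scoped ENNReal Topology ContDiff

namespace HMA

/-- multiplication by `exp (iθ)` as a real linear isometry -/
noncomputable def Submean_rot (n : ℕ) (θ : ℝ) : Cn n ≃ₗᵢ[ℝ] Cn n :=
  { (LinearEquiv.smulOfNeZero ℂ (Cn n) (Complex.exp (θ * Complex.I))
      (Complex.exp_ne_zero _)).restrictScalars ℝ with
    norm_map' := by
      intro x
      show ‖Complex.exp (θ * Complex.I) • x‖ = ‖x‖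
      rw [norm_smul, Complex.norm_exp_ofReal_mul_I, one_mul] }

theorem Submean_rot_apply (n : ℕ) (θ : ℝ) (x : Cn n) :
    Submean_rot n θ x = Complex.exp (θ * Complex.I) • x := rfl

theorem Submean_lintegral_rot {n : ℕ} (θ : ℝ) {G : Cn n → ℝ≥0∞} (hG : Measurable G) :
    ∫⁻ x, G (Complex.exp (θ * Complex.I) • x) = ∫⁻ x, G x :=
  (Submean_rot n θ).measurePreserving.lintegral_comp hG

theorem Submean_circle {n : ℕ} {f : Cn n → ℂ} {y x : Cn n} {ρ : ℝ}
    (hf : DifferentiableOn ℂ f (ball y ρ)) (hx : ‖x‖ < ρ) :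
    ENNReal.ofReal (‖f y‖ ^ 2) * ENNReal.ofReal (2 * Real.pi) ≤
      ∫⁻ θ in Ioc (0 : ℝ) (2 * Real.pi),
        ENNReal.ofReal (‖f (y + Complex.exp (θ * Complex.I) • x)‖ ^ 2) := by
  have hmem : ∀ ζ : ℂ, ‖ζ‖ ≤ 1 → y + ζ • x ∈ ball y ρ := by
    intro ζ hζ
    rw [mem_ball, dist_eq_norm, add_sub_cancel_left, norm_smul]
    have h1 : ‖ζ‖ * ‖x‖ ≤ 1 * ‖x‖ := mul_le_mul_of_nonneg_right hζ (norm_nonneg x)
    linarith
  have hd : DifferentiableOn ℂ (fun ζ : ℂ => f (y + ζ • x) ^ 2) (closedBall 0 1) := by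
    apply DifferentiableOn.pow
    refine hf.comp ?_ ?_
    · exact (differentiable_const y).differentiableOn.add
        ((differentiable_id.smul_const x).differentiableOn)
    · intro ζ hζ
      exact hmem ζ (by simpa using hζ)
  have hdc : DiffContOnCl ℂ (fun ζ : ℂ => f (y + ζ • x) ^ 2) (ball 0 |1|) := by
    apply DifferentiableOn.diffContOnCl
    rw [abs_one, closure_ball _ one_ne_zero]
    exact hd
  have hav := hdc.circleAverage
  have hpi : (0 : ℝ) < 2 * Real.pi := by positivity
  have hcm : ∀ θ : ℝ, circleMap 0 1 θ = Complex.exp (θ * Complex.I) := by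
    intro θ
    simp [circleMap]
  have hcont : Continuous fun θ : ℝ => f (y + Complex.exp (θ * Complex.I) • x) := by
    rw [← continuousOn_univ]
    refine hf.continuousOn.comp (Continuous.continuousOn (by fun_prop)) ?_
    intro θ _
    exact hmem _ (by rw [Complex.norm_exp_ofReal_mul_I])
  have hreal : ‖f y‖ ^ 2 * (2 * Real.pi) ≤
      ∫ θ in (0 : ℝ)..(2 * Real.pi), ‖f (y + Complex.exp (θ * Complex.I) • x)‖ ^ 2 := by
    have h1 : f y ^ 2 = (2 * Real.pi)⁻¹ • ∫ θ in (0 : ℝ)..(2 * Real.pi),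
        f (y + Complex.exp (θ * Complex.I) • x) ^ 2 := by
      have h2 := hav
      unfold Real.circleAverage at h2
      simp only [hcm, zero_smul, add_zero] at h2
      exact h2.symm
    have h3 : ‖f y‖ ^ 2 = (2 * Real.pi)⁻¹ * ‖∫ θ in (0 : ℝ)..(2 * Real.pi),
        f (y + Complex.exp (θ * Complex.I) • x) ^ 2‖ := by
      rw [← norm_pow, h1, norm_smul, Real.norm_of_nonneg (by positivity)]
    have h4 : ‖∫ θ in (0 : ℝ)..(2 * Real.pi), f (y + Complex.exp (θ * Complex.I) • x) ^ 2‖ ≤
        ∫ θ in (0 : ℝ)..(2 * Real.pi), ‖f (y + Complex.exp (θ * Complex.I) • x)‖ ^ 2 := by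
      refine (intervalIntegral.norm_integral_le_integral_norm hpi.le).trans (le_of_eq ?_)
      simp only [norm_pow]
    rw [h3, inv_mul_eq_div, div_mul_cancel₀ _ hpi.ne']
    exact h4
  rw [← ENNReal.ofReal_mul (by positivity)]
  refine (ENNReal.ofReal_le_ofReal hreal).trans (le_of_eq ?_)
  rw [intervalIntegral.integral_of_le hpi.le]
  apply ofReal_integral_eq_lintegral_ofReal
  · exact ((hcont.norm.pow 2).integrableOn_Icc).mono_set Ioc_subset_Icc_self
  · exact Filter.Eventually.of_forall fun θ => by positivity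

/-- `|f y|² ∫_{B(y,ρ)} w(|z-y|) ≤ ∫_{B(y,ρ)} |f|² w(|z-y|)` for `f` holomorphic on the ball -/
theorem sq_submean {n : ℕ} (f : Cn n → ℂ) (y : Cn n) {ρ : ℝ} (hρ : 0 < ρ)
    (hf : DifferentiableOn ℂ f (ball y ρ)) (w : ℝ → ℝ) (hw : Continuous w) (hw0 : ∀ t, 0 ≤ w t)
    (hi : IntegrableOn (fun z => ‖f z‖ ^ 2 * w ‖z - y‖) (ball y ρ) volume) :
    ‖f y‖ ^ 2 * (∫ z in ball y ρ, w ‖z - y‖) ≤ ∫ z in ball y ρ, ‖f z‖ ^ 2 * w ‖z - y‖ := by
  have hpre : (fun x : Cn n => y + x) ⁻¹' ball y ρ = ball 0 ρ := by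
    ext x
    simp [dist_eq_norm]
  have hmp : MeasurePreserving (fun x : Cn n => y + x) volume volume :=
    measurePreserving_add_left volume y
  have hme : MeasurableEmbedding (fun x : Cn n => y + x) := measurableEmbedding_addLeft y
  have h1 : ∫ z in ball y ρ, ‖f z‖ ^ 2 * w ‖z - y‖ =
      ∫ x in ball (0 : Cn n) ρ, ‖f (y + x)‖ ^ 2 * w ‖x‖ := by
    rw [← hmp.setIntegral_preimage_emb hme, hpre]
    simp only [add_sub_cancel_left]
  have h2 : ∫ z in ball y ρ, w ‖z - y‖ = ∫ x in ball (0 : Cn n) ρ, w ‖x‖ := by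
    rw [← hmp.setIntegral_preimage_emb hme, hpre]
    simp only [add_sub_cancel_left]
  have hi' : IntegrableOn (fun x => ‖f (y + x)‖ ^ 2 * w ‖x‖) (ball (0 : Cn n) ρ) volume := by
    have h3 := (hmp.integrableOn_comp_preimage hme).2 hi
    rw [hpre] at h3
    refine h3.congr_fun (fun x _ => ?_) measurableSet_ball
    simp only [Function.comp_apply, add_sub_cancel_left]
  have hiw : IntegrableOn (fun x : Cn n => w ‖x‖) (ball (0 : Cn n) ρ) volume := by
    have h3 : IntegrableOn (fun x : Cn n => w ‖x‖) (closedBall (0 : Cn n) ρ) volume :=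
      (hw.comp continuous_norm).continuousOn.integrableOn_compact (isCompact_closedBall 0 ρ)
    exact h3.mono_set ball_subset_closedBall
  rw [h1, h2]
  -- the extended function
  have hF : Measurable ((ball (0 : Cn n) ρ).indicator fun x => ‖f (y + x)‖ ^ 2) := by
    have hc : ContinuousOn (fun x => ‖f (y + x)‖ ^ 2) (ball (0 : Cn n) ρ) := by
      apply ContinuousOn.pow
      apply ContinuousOn.norm
      refine hf.continuousOn.comp (Continuous.continuousOn (by fun_prop)) ?_
      intro x hx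
      have : x ∈ (fun x : Cn n => y + x) ⁻¹' ball y ρ := by rw [hpre]; exact hx
      exact this
    classical
    have h3 := hc.measurable_piecewise (g := fun _ => (0 : ℝ)) continuousOn_const
      measurableSet_ball
    exact h3
  set F : Cn n → ℝ := (ball (0 : Cn n) ρ).indicator fun x => ‖f (y + x)‖ ^ 2 with hFdef
  have hG : Measurable fun x => ENNReal.ofReal (F x) * ENNReal.ofReal (w ‖x‖) :=
    (ENNReal.measurable_ofReal.comp hF).mul
      (ENNReal.measurable_ofReal.comp (hw.comp continuous_norm).measurable)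
  set G : Cn n → ℝ≥0∞ := fun x => ENNReal.ofReal (F x) * ENNReal.ofReal (w ‖x‖) with hGdef
  have hpi : (0 : ℝ) < 2 * Real.pi := by positivity
  have key : ENNReal.ofReal (‖f y‖ ^ 2) * ∫⁻ x in ball (0 : Cn n) ρ, ENNReal.ofReal (w ‖x‖) ≤
      ∫⁻ x, G x := by
    have h3 : ENNReal.ofReal (2 * Real.pi) * ∫⁻ x, G x =
        ∫⁻ x, ∫⁻ θ in Ioc (0 : ℝ) (2 * Real.pi), G (Complex.exp (θ * Complex.I) • x) := by
      rw [lintegral_lintegral_swap]
      · simp only [Submean_lintegral_rot _ hG]
        rw [lintegral_const, Measure.restrict_apply MeasurableSet.univ, univ_inter,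
          Real.volume_Ioc, sub_zero, mul_comm]
      · apply Measurable.aemeasurable
        apply hG.comp
        have : Continuous fun q : Cn n × ℝ => Complex.exp (q.2 * Complex.I) • q.1 := by fun_prop
        exact this.measurable
    have h4 : ∀ x : Cn n, (ball (0 : Cn n) ρ).indicator (fun x => ENNReal.ofReal (w ‖x‖) *
        (ENNReal.ofReal (‖f y‖ ^ 2) * ENNReal.ofReal (2 * Real.pi))) x ≤
        ∫⁻ θ in Ioc (0 : ℝ) (2 * Real.pi), G (Complex.exp (θ * Complex.I) • x) := by
      intro x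
      by_cases hx : x ∈ ball (0 : Cn n) ρ
      · rw [indicator_of_mem hx]
        have hx' : ‖x‖ < ρ := by simpa using hx
        have h5 : ∀ θ : ℝ, G (Complex.exp (θ * Complex.I) • x) =
            ENNReal.ofReal (‖f (y + Complex.exp (θ * Complex.I) • x)‖ ^ 2) *
              ENNReal.ofReal (w ‖x‖) := by
          intro θ
          have hn : ‖Complex.exp (θ * Complex.I) • x‖ = ‖x‖ := by
            rw [norm_smul, Complex.norm_exp_ofReal_mul_I, one_mul]
          rw [hGdef]
          simp only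
          rw [hFdef, indicator_of_mem (by simpa [hn] using hx'), hn]
        simp only [h5]
        rw [lintegral_mul_const' _ _ ENNReal.ofReal_ne_top, mul_comm]
        exact mul_le_mul_left (Submean_circle hf hx') _
      · rw [indicator_of_notMem hx]
        exact zero_le
    have h6 := lintegral_mono (μ := (volume : Measure (Cn n))) h4
    rw [← h3, lintegral_indicator measurableSet_ball, lintegral_mul_const' _ _
      (ENNReal.mul_ne_top ENNReal.ofReal_ne_top ENNReal.ofReal_ne_top)] at h6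
    have h7 : ENNReal.ofReal (2 * Real.pi) ≠ 0 := by
      rw [Ne, ENNReal.ofReal_eq_zero]
      push Not
      exact hpi
    rw [← ENNReal.mul_le_mul_iff_right h7 ENNReal.ofReal_ne_top]
    refine le_trans (le_of_eq ?_) h6
    ring
  have h8 : ∫⁻ x, G x = ∫⁻ x in ball (0 : Cn n) ρ, ENNReal.ofReal (‖f (y + x)‖ ^ 2 * w ‖x‖) := by
    rw [← lintegral_indicator measurableSet_ball]
    apply lintegral_congr
    intro x
    by_cases hx : x ∈ ball (0 : Cn n) ρ
    · rw [indicator_of_mem hx, hGdef]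
      simp only
      rw [hFdef, indicator_of_mem hx, ← ENNReal.ofReal_mul (by positivity)]
    · rw [indicator_of_notMem hx, hGdef]
      simp only
      rw [hFdef, indicator_of_notMem hx, ENNReal.ofReal_zero, zero_mul]
  rw [h8] at key
  rw [integral_eq_lintegral_of_nonneg_ae (Filter.Eventually.of_forall fun x => hw0 _)
    hiw.aestronglyMeasurable, integral_eq_lintegral_of_nonneg_ae
    (Filter.Eventually.of_forall fun x => mul_nonneg (by positivity) (hw0 _))
    hi'.aestronglyMeasurable]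
  have h9 := ENNReal.toReal_mono (Integrable.lintegral_lt_top hi').ne key
  rw [ENNReal.toReal_mul, ENNReal.toReal_ofReal (by positivity)] at h9
  exact h9

theorem sq_le_ball (n : ℕ) : ∃ K : ℝ, 0 < K ∧ ∀ (f : Cn n → ℂ) (z : Cn n) (ρ : ℝ),
    Differentiable ℂ f → 0 < ρ → ‖f z‖ ^ 2 ≤ K * (ρ ^ (2 * n))⁻¹ * ∫ x in ball z ρ, ‖f x‖ ^ 2 := by
  have hv : 0 < volume.real (ball (0 : Cn n) 1) := by
    rw [Measure.real, ENNReal.toReal_pos_iff]
    exact ⟨measure_ball_pos _ _ one_pos, measure_ball_lt_top⟩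
  refine ⟨(volume.real (ball (0 : Cn n) 1))⁻¹, inv_pos.2 hv, fun f z ρ hf hρ => ?_⟩
  have hfc : Continuous f := hf.continuous
  have h1 := sq_submean f z hρ hf.differentiableOn (fun _ => 1) continuous_const
    (fun _ => zero_le_one) (by
      simp only [mul_one]
      have h3 : IntegrableOn (fun x : Cn n => ‖f x‖ ^ 2) (closedBall z ρ) volume :=
        (hfc.norm.pow 2).continuousOn.integrableOn_compact (isCompact_closedBall z ρ)
      exact h3.mono_set ball_subset_closedBall)
  simp only [mul_one] at h1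
  rw [setIntegral_const, smul_eq_mul, mul_one] at h1
  have h2 : volume.real (ball z ρ) = ρ ^ (2 * n) * volume.real (ball (0 : Cn n) 1) := by
    have h3 := Measure.addHaar_ball_of_pos (volume : Measure (Cn n)) z hρ
    rw [Measure.real, h3, ENNReal.toReal_mul, ENNReal.toReal_ofReal (by positivity),
      finrank_real_of_complex, finrank_euclideanSpace_fin]
    rfl
  rw [h2] at h1
  have hρn : 0 < ρ ^ (2 * n) := by positivity
  have h4 : ‖f z‖ ^ 2 = (volume.real (ball (0 : Cn n) 1))⁻¹ * (ρ ^ (2 * n))⁻¹ *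
      (‖f z‖ ^ 2 * (ρ ^ (2 * n) * volume.real (ball (0 : Cn n) 1))) := by
    field_simp
  rw [h4]
  exact mul_le_mul_of_nonneg_left h1 (by positivity)

end HMA
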