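import Pool.Agent.H85.MA.Horm
import Pool.Agent.H85.MA.LevLog
import Pool.Agent.H85.MA.Submean
import Pool.Agent.H85.MA.RadInt

/-! # Module PEAK: entire functions with prescribed size at a point -/

open MeasureTheory Metric Set
open scoped ENNReal Topology ContDiff

namespace HMA

theorem peak_fderiv_zero {n : ℕ} {χ : Cn n → ℂ} {z : Cn n} (h : fderiv ℝ χ z = 0) :
    ∑ j, ‖db j χ z‖ ^ 2 = 0 := by
  apply Finset.sum_eq_zero
  intro j _
  unfold db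
  rw [h]
  simp

theorem peak_cut (n : ℕ) : ∃ C : ℝ, 0 ≤ C ∧ ∀ (y : Cn n) (ρ : ℝ), 0 < ρ →
    ∃ χ : Cn n → ℂ, Tst χ ∧ (∀ z, ‖χ z‖ ≤ 1) ∧ (∀ z ∈ ball y (ρ / 2), χ z = 1) ∧
      (∀ z, z ∉ ball y ρ → χ z = 0) ∧ (∀ z, ∑ j, ‖db j χ z‖ ^ 2 ≤ C * (ρ ^ 2)⁻¹) ∧
      (∀ z, z ∉ ball y ρ \ ball y (ρ / 2) → ∑ j, ‖db j χ z‖ ^ 2 = 0) := by
  let b : ContDiffBump (0 : Cn n) := ⟨1 / 2, 3 / 4, by norm_num, by norm_num⟩
  have hb1 : ContDiff ℝ ∞ (fun x : Cn n => (b x : ℂ)) :=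
    Complex.ofRealCLM.contDiff.comp b.contDiff
  have hb2 : HasCompactSupport (fun x : Cn n => (b x : ℂ)) :=
    b.hasCompactSupport.comp_left (g := fun t : ℝ => (t : ℂ)) (by simp)
  have hb : Tst (fun x : Cn n => (b x : ℂ)) := ⟨hb1, hb2⟩
  have hbd : ∀ j : Fin n, ∃ C : ℝ, ∀ x, ‖db j (fun x : Cn n => (b x : ℂ)) x‖ ≤ C := fun j =>
    (hb.db j).supp.exists_bound_of_continuous (hb.db j).smooth.continuous
  choose Cj hCj using hbd
  refine ⟨∑ j, Cj j ^ 2, Finset.sum_nonneg (fun j _ => sq_nonneg _), ?_⟩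
  intro y ρ hρ
  have hρ' : 0 < ρ⁻¹ := inv_pos.2 hρ
  set χ : Cn n → ℂ := fun z => (b (ρ⁻¹ • (z - y)) : ℂ) with hχ
  have hder : ∀ z, fderiv ℝ χ z = (fderiv ℝ (fun x : Cn n => (b x : ℂ)) (ρ⁻¹ • (z - y))).comp
      (ρ⁻¹ • ContinuousLinearMap.id ℝ (Cn n)) := by
    intro z
    have h1 : HasFDerivAt (fun z : Cn n => ρ⁻¹ • (z - y))
        (ρ⁻¹ • ContinuousLinearMap.id ℝ (Cn n)) z :=
      ((hasFDerivAt_id z).sub_const y).const_smul ρ⁻¹
    have h2 : HasFDerivAt (fun x : Cn n => (b x : ℂ))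
        (fderiv ℝ (fun x : Cn n => (b x : ℂ)) (ρ⁻¹ • (z - y))) (ρ⁻¹ • (z - y)) :=
      (hb1.differentiable (by simp) _).hasFDerivAt
    exact (h2.comp z h1).fderiv
  have hdb : ∀ j z, ‖db j χ z‖ = ρ⁻¹ * ‖db j (fun x : Cn n => (b x : ℂ)) (ρ⁻¹ • (z - y))‖ := by
    intro j z
    have h1 : db j χ z = (ρ⁻¹ : ℝ) • db j (fun x : Cn n => (b x : ℂ)) (ρ⁻¹ • (z - y)) := by
      unfold db
      rw [hder z]
      simp only [ContinuousLinearMap.comp_smul, ContinuousLinearMap.comp_id,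
        _root_.smul_apply, Complex.real_smul]
      ring
    rw [h1, norm_smul, Real.norm_of_nonneg hρ'.le]
  have hnorm : ∀ z, ‖ρ⁻¹ • (z - y)‖ = ρ⁻¹ * dist z y := by
    intro z
    rw [norm_smul, Real.norm_of_nonneg hρ'.le, dist_eq_norm]
  have hone : ∀ z ∈ ball y (ρ / 2), χ z = 1 := by
    intro z hz
    rw [mem_ball] at hz
    have : b (ρ⁻¹ • (z - y)) = 1 := by
      apply b.one_of_mem_closedBall
      rw [mem_closedBall, dist_zero_right, hnorm]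
      show ρ⁻¹ * dist z y ≤ 1 / 2
      rw [inv_mul_le_iff₀ hρ]
      linarith
    rw [hχ]
    simp only
    rw [this, Complex.ofReal_one]
  have hzero : ∀ z, 3 / 4 * ρ < dist z y → χ z = 0 := by
    intro z hz
    have : b (ρ⁻¹ • (z - y)) = 0 := by
      apply b.zero_of_le_dist
      rw [dist_zero_right, hnorm]
      show 3 / 4 ≤ ρ⁻¹ * dist z y
      rw [le_inv_mul_iff₀ hρ]
      linarith
    rw [hχ]
    simp only
    rw [this, Complex.ofReal_zero]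
  refine ⟨χ, ⟨?_, ?_⟩, ?_, hone, ?_, ?_, ?_⟩
  · exact hb1.comp ((contDiff_id.sub contDiff_const).const_smul ρ⁻¹)
  · apply HasCompactSupport.of_support_subset_isCompact (isCompact_closedBall y ρ)
    intro z hz
    rw [Function.mem_support] at hz
    rw [mem_closedBall]
    by_contra hcon
    exact hz (hzero z (by linarith))
  · intro z
    rw [hχ]
    simp only
    rw [Complex.norm_real, Real.norm_of_nonneg b.nonneg]
    exact b.le_one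
  · intro z hz
    rw [mem_ball, not_lt] at hz
    exact hzero z (by linarith)
  · intro z
    rw [Finset.sum_mul]
    refine Finset.sum_le_sum (fun j _ => ?_)
    rw [hdb j z, mul_pow, inv_pow, mul_comm]
    apply mul_le_mul_of_nonneg_right _ (by positivity)
    exact pow_le_pow_left₀ (norm_nonneg _) (hCj j _) 2
  · intro z hz
    apply peak_fderiv_zero
    by_cases h1 : z ∈ ball y (ρ / 2)
    · have h2 : χ =ᶠ[𝓝 z] fun _ => (1 : ℂ) := by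
        filter_upwards [isOpen_ball.mem_nhds h1] with w hw using hone w hw
      rw [h2.fderiv_eq]
      simp
    · have h3 : z ∉ ball y ρ := fun h => hz ⟨h, h1⟩
      rw [mem_ball, not_lt] at h3
      have h4 : {w : Cn n | 3 / 4 * ρ < dist w y} ∈ 𝓝 z :=
        (isOpen_lt continuous_const (continuous_id.dist continuous_const)).mem_nhds
          (show 3 / 4 * ρ < dist z y by linarith)
      have h2 : χ =ᶠ[𝓝 z] fun _ => (0 : ℂ) := by
        filter_upwards [h4] with w hw using hzero w hw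
      rw [h2.fderiv_eq]
      simp

theorem peak_weight {n : ℕ} (a A D : ℝ) (hA : 0 < A) (hD : 0 < D) :
    Real.exp (-(a + ((n : ℝ) * Real.log A + Real.log D))) =
      Real.exp (-a) * (A ^ n)⁻¹ * D⁻¹ := by
  have h1 : -(a + ((n : ℝ) * Real.log A + Real.log D)) =
      -a + -((n : ℝ) * Real.log A) + -Real.log D := by ring
  rw [h1, Real.exp_add, Real.exp_add, Real.exp_neg (Real.log D), Real.exp_log hD,
    Real.exp_neg ((n : ℝ) * Real.log A), Real.exp_nat_mul, Real.exp_log hA]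

theorem peak_norm_sq_sub {n : ℕ} (z y : Cn n) : ‖z - y‖ ^ 2 ≤ 2 * ‖z‖ ^ 2 + 2 * ‖y‖ ^ 2 := by
  have h1 := norm_sub_le z y
  have h2 : ‖z - y‖ ^ 2 ≤ (‖z‖ + ‖y‖) ^ 2 := pow_le_pow_left₀ (norm_nonneg _) h1 2
  nlinarith [sq_nonneg (‖z‖ - ‖y‖)]

/-- smooth weight with positive Levi form -/
theorem peak_lev {n : ℕ} {φ : Cn n → ℝ} (hφ : ContDiff ℝ ∞ φ) (hlev : ∀ z ξ, 0 ≤ lev φ z ξ)
    {τ : ℝ} (hτ : 0 < τ) (y : Cn n) :
    ContDiff ℝ ∞ (fun z : Cn n => φ z + ((n : ℝ) * Real.log (τ + ‖z - y‖ ^ 2) +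
      Real.log (1 + ‖z - 0‖ ^ 2))) ∧
    ∀ z ξ, ((1 + ‖z‖ ^ 2) ^ 2)⁻¹ * ‖ξ‖ ^ 2 ≤ lev (fun z : Cn n => φ z +
      ((n : ℝ) * Real.log (τ + ‖z - y‖ ^ 2) + Real.log (1 + ‖z - 0‖ ^ 2))) z ξ := by
  have h1 : ContDiff ℝ ∞ (fun z : Cn n => Real.log (τ + ‖z - y‖ ^ 2)) := smooth_log hτ y
  have h2 : ContDiff ℝ ∞ (fun z : Cn n => Real.log (1 + ‖z - 0‖ ^ 2)) :=
    smooth_log one_pos (0 : Cn n)
  have h3 : ContDiff ℝ ∞ (fun z : Cn n => (n : ℝ) * Real.log (τ + ‖z - y‖ ^ 2)) :=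
    contDiff_const.mul h1
  have h4 : ContDiff ℝ ∞ (fun z : Cn n => (n : ℝ) * Real.log (τ + ‖z - y‖ ^ 2) +
      Real.log (1 + ‖z - 0‖ ^ 2)) := h3.add h2
  refine ⟨hφ.add h4, ?_⟩
  intro z ξ
  rw [lev_add hφ h4, lev_add h3 h2, lev_const_mul h1]
  have h5 := lev_log_ge hτ y z ξ
  have h6 := lev_log_ge one_pos (0 : Cn n) z ξ
  have h7 : 0 ≤ τ * ‖ξ‖ ^ 2 / (τ + ‖z - y‖ ^ 2) ^ 2 := by positivity
  have h8 : 0 ≤ (n : ℝ) * lev (fun z : Cn n => Real.log (τ + ‖z - y‖ ^ 2)) z ξ :=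
    mul_nonneg (Nat.cast_nonneg n) (h7.trans h5)
  have h9 : ((1 + ‖z‖ ^ 2) ^ 2)⁻¹ * ‖ξ‖ ^ 2 = 1 * ‖ξ‖ ^ 2 / (1 + ‖z - 0‖ ^ 2) ^ 2 := by
    rw [sub_zero, one_mul, div_eq_inv_mul]
  rw [h9]
  have h10 := hlev z ξ
  linarith

/-- the solution of the dbar equation, with all constants -/
theorem peak_solve {n : ℕ} {c K₀ C R : ℝ} (hK₀ : 0 < K₀) (hC : 0 ≤ C) (hR : 1 ≤ R)
    (φ : Cn n → ℝ) (y : Cn n) (ρ τ : ℝ) (hφ : ContDiff ℝ ∞ φ) (hlev : ∀ z ξ, 0 ≤ lev φ z ξ)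
    (hy : ‖y‖ ≤ R) (hρ : 0 < ρ) (hρ1 : ρ ≤ 1) (hball : ∀ z ∈ ball y ρ, |φ z - φ y| ≤ 1)
    (hτ : 0 < τ)
    (hrad1 : ∫ z in ball y ρ \ ball y (ρ / 2), ((‖z - y‖ ^ 2 + τ) ^ n)⁻¹ ≤ K₀)
    (hrad2 : c * Real.log (ρ ^ 2 / τ) - K₀ ≤ ∫ z in ball y (ρ / 2), ((‖z - y‖ ^ 2 + τ) ^ n)⁻¹)
    (χ : Cn n → ℂ) (hχ : Tst χ) (hχ1 : ∀ z ∈ ball y (ρ / 2), χ z = 1)
    (hχ3 : ∀ z, ∑ j, ‖db j χ z‖ ^ 2 ≤ C * (ρ ^ 2)⁻¹)
    (hχ4 : ∀ z, z ∉ ball y ρ \ ball y (ρ / 2) → ∑ j, ‖db j χ z‖ ^ 2 = 0) :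
    ∃ f : Cn n → ℂ, Differentiable ℂ f ∧
      Integrable (fun z => ‖χ z - f z‖ ^ 2 * (Real.exp (-φ z) *
        ((τ + ‖z - y‖ ^ 2) ^ n)⁻¹ * (1 + ‖z‖ ^ 2)⁻¹)) volume ∧
      ∫ z, ‖χ z - f z‖ ^ 2 * (Real.exp (-φ z) * ((τ + ‖z - y‖ ^ 2) ^ n)⁻¹ * (1 + ‖z‖ ^ 2)⁻¹) ≤
        C * (1 + (R + 1) ^ 2) * Real.exp 1 * K₀ * ((ρ ^ 2)⁻¹ * Real.exp (-φ y)) ∧
      ‖χ y - f y‖ ^ 2 * (c * Real.log (ρ ^ 2 / τ) - K₀) ≤
        (1 + (R + 1) ^ 2) * Real.exp 1 * (C * (1 + (R + 1) ^ 2) * Real.exp 1 * K₀) *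
          (ρ ^ 2)⁻¹ := by
  obtain ⟨hΦ, hΦlev⟩ := peak_lev hφ hlev hτ y
  have hκc : Continuous (fun z : Cn n => ((1 + ‖z‖ ^ 2) ^ 2)⁻¹) := by
    apply Continuous.inv₀
    · fun_prop
    · intro z
      positivity
  obtain ⟨f, hf, hI, hle⟩ := hormander hΦ hκc (fun z => by positivity) hΦlev hχ
  have hW : ∀ z : Cn n, Real.exp (-(φ z + ((n : ℝ) * Real.log (τ + ‖z - y‖ ^ 2) +
      Real.log (1 + ‖z - 0‖ ^ 2)))) = Real.exp (-φ z) * ((τ + ‖z - y‖ ^ 2) ^ n)⁻¹ *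
        (1 + ‖z‖ ^ 2)⁻¹ := by
    intro z
    rw [sub_zero]
    exact peak_weight _ _ _ (by positivity) (by positivity)
  simp only [hW] at hI hle
  have hMpos : (0 : ℝ) < 1 + (R + 1) ^ 2 := by positivity
  have hzR : ∀ z ∈ ball y ρ, 1 + ‖z‖ ^ 2 ≤ 1 + (R + 1) ^ 2 := by
    intro z hz
    rw [mem_ball, dist_eq_norm] at hz
    have h1 : ‖z‖ ≤ R + 1 := by
      have : ‖z‖ ≤ ‖z - y‖ + ‖y‖ := by
        have := norm_add_le (z - y) y
        rwa [sub_add_cancel] at this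
      linarith
    have := pow_le_pow_left₀ (norm_nonneg z) h1 2
    linarith
  have hexp : ∀ z ∈ ball y ρ, Real.exp (-φ z) ≤ Real.exp 1 * Real.exp (-φ y) := by
    intro z hz
    rw [← Real.exp_add]
    apply Real.exp_le_exp.2
    have := abs_le.1 (hball z hz)
    linarith
  have hexp2 : ∀ z ∈ ball y ρ, Real.exp (-φ y) ≤ Real.exp 1 * Real.exp (-φ z) := by
    intro z hz
    rw [← Real.exp_add]
    apply Real.exp_le_exp.2
    have := abs_le.1 (hball z hz)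
    linarith
  have hmeas : MeasurableSet (ball y ρ \ ball y (ρ / 2)) := measurableSet_ball.diff
    measurableSet_ball
  have hwc : Continuous (fun z : Cn n => ((‖z - y‖ ^ 2 + τ) ^ n)⁻¹) := by
    apply Continuous.inv₀
    · fun_prop
    · intro z
      positivity
  have hA1 : ∫ z, ‖χ z - f z‖ ^ 2 * (Real.exp (-φ z) * ((τ + ‖z - y‖ ^ 2) ^ n)⁻¹ *
      (1 + ‖z‖ ^ 2)⁻¹) ≤
        C * (1 + (R + 1) ^ 2) * Real.exp 1 * K₀ * ((ρ ^ 2)⁻¹ * Real.exp (-φ y)) := by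
    refine hle.trans ?_
    have hg : Integrable ((ball y ρ \ ball y (ρ / 2)).indicator (fun z : Cn n =>
        (C * (1 + (R + 1) ^ 2) * Real.exp 1 * ((ρ ^ 2)⁻¹ * Real.exp (-φ y))) *
          ((‖z - y‖ ^ 2 + τ) ^ n)⁻¹)) volume := by
      rw [integrable_indicator_iff hmeas]
      exact ((continuous_const.mul hwc).continuousOn.integrableOn_compact
        (isCompact_closedBall y ρ)).mono_set (sdiff_subset.trans ball_subset_closedBall)
    calc ∫ z, (((1 + ‖z‖ ^ 2) ^ 2)⁻¹)⁻¹ * (∑ j, ‖db j χ z‖ ^ 2) * (Real.exp (-φ z) *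
          ((τ + ‖z - y‖ ^ 2) ^ n)⁻¹ * (1 + ‖z‖ ^ 2)⁻¹)
        ≤ ∫ z, (ball y ρ \ ball y (ρ / 2)).indicator (fun z : Cn n =>
          (C * (1 + (R + 1) ^ 2) * Real.exp 1 * ((ρ ^ 2)⁻¹ * Real.exp (-φ y))) *
          ((‖z - y‖ ^ 2 + τ) ^ n)⁻¹) z := by
          apply integral_mono_of_nonneg _ hg
          · refine Filter.Eventually.of_forall (fun z => ?_)
            by_cases hz : z ∈ ball y ρ \ ball y (ρ / 2)
            · simp only
              rw [indicator_of_mem hz, inv_inv]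
              have hD : (0 : ℝ) < 1 + ‖z‖ ^ 2 := by positivity
              have e1 : (1 + ‖z‖ ^ 2) ^ 2 * (∑ j, ‖db j χ z‖ ^ 2) * (Real.exp (-φ z) *
                  ((τ + ‖z - y‖ ^ 2) ^ n)⁻¹ * (1 + ‖z‖ ^ 2)⁻¹) =
                  ((∑ j, ‖db j χ z‖ ^ 2) * ((1 + ‖z‖ ^ 2) * Real.exp (-φ z))) *
                    ((‖z - y‖ ^ 2 + τ) ^ n)⁻¹ := by
                rw [add_comm τ]
                field_simp
              rw [e1]
              apply mul_le_mul_of_nonneg_right _ (by positivity)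
              calc (∑ j, ‖db j χ z‖ ^ 2) * ((1 + ‖z‖ ^ 2) * Real.exp (-φ z))
                  ≤ (C * (ρ ^ 2)⁻¹) * ((1 + (R + 1) ^ 2) * (Real.exp 1 * Real.exp (-φ y))) := by
                    apply mul_le_mul (hχ3 z) _ (by positivity) (by positivity)
                    exact mul_le_mul (hzR z hz.1) (hexp z hz.1) (Real.exp_pos _).le hMpos.le
                _ = _ := by ring
            · simp only
              rw [indicator_of_notMem hz, hχ4 z hz]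
              simp
          · refine Filter.Eventually.of_forall (fun z => ?_)
            simp only [Pi.zero_apply]
            positivity
      _ = (C * (1 + (R + 1) ^ 2) * Real.exp 1 * ((ρ ^ 2)⁻¹ * Real.exp (-φ y))) *
          ∫ z in ball y ρ \ ball y (ρ / 2), ((‖z - y‖ ^ 2 + τ) ^ n)⁻¹ := by
          rw [integral_indicator hmeas, integral_const_mul]
      _ ≤ (C * (1 + (R + 1) ^ 2) * Real.exp 1 * ((ρ ^ 2)⁻¹ * Real.exp (-φ y))) * K₀ :=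
          mul_le_mul_of_nonneg_left hrad1 (by positivity)
      _ = _ := by ring
  refine ⟨f, hf, hI, hA1, ?_⟩
  -- the value at `y`
  have hρ2 : (0 : ℝ) < ρ / 2 := by linarith
  have hsub : ball y (ρ / 2) ⊆ ball y ρ := ball_subset_ball (by linarith)
  have hvc : Continuous (fun z => χ z - f z) := hχ.smooth.continuous.sub hf.continuous
  have hvd : DifferentiableOn ℂ (fun z => χ z - f z) (ball y (ρ / 2)) := by
    have h1 : DifferentiableOn ℂ (fun z => 1 - f z) (ball y (ρ / 2)) :=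
      ((differentiable_const 1).sub hf).differentiableOn
    refine h1.congr (fun z hz => ?_)
    rw [hχ1 z hz]
  have hwR : Continuous (fun t : ℝ => ((t ^ 2 + τ) ^ n)⁻¹) := by
    apply Continuous.inv₀
    · fun_prop
    · intro t
      positivity
  have hIw : IntegrableOn (fun z => ‖χ z - f z‖ ^ 2 * ((‖z - y‖ ^ 2 + τ) ^ n)⁻¹)
      (ball y (ρ / 2)) volume :=
    (((hvc.norm.pow 2).mul hwc).continuousOn.integrableOn_compact
      (isCompact_closedBall y (ρ / 2))).mono_set ball_subset_closedBall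
  have hsq := sq_submean (fun z => χ z - f z) y hρ2 hvd (fun t => ((t ^ 2 + τ) ^ n)⁻¹) hwR
    (fun t => by positivity) hIw
  have hle2 : ∫ z in ball y (ρ / 2), ‖χ z - f z‖ ^ 2 * ((‖z - y‖ ^ 2 + τ) ^ n)⁻¹ ≤
      (1 + (R + 1) ^ 2) * Real.exp 1 * Real.exp (φ y) *
        ∫ z, ‖χ z - f z‖ ^ 2 * (Real.exp (-φ z) * ((τ + ‖z - y‖ ^ 2) ^ n)⁻¹ *
          (1 + ‖z‖ ^ 2)⁻¹) := by
    calc ∫ z in ball y (ρ / 2), ‖χ z - f z‖ ^ 2 * ((‖z - y‖ ^ 2 + τ) ^ n)⁻¹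
        ≤ ∫ z in ball y (ρ / 2), (1 + (R + 1) ^ 2) * Real.exp 1 * Real.exp (φ y) *
          (‖χ z - f z‖ ^ 2 * (Real.exp (-φ z) * ((τ + ‖z - y‖ ^ 2) ^ n)⁻¹ *
          (1 + ‖z‖ ^ 2)⁻¹)) := by
          apply setIntegral_mono_on hIw (hI.const_mul _).integrableOn measurableSet_ball
          intro z hz
          have hz' := hsub hz
          have hD : (0 : ℝ) < 1 + ‖z‖ ^ 2 := by positivity
          have e2 : (1 + (R + 1) ^ 2) * Real.exp 1 * Real.exp (φ y) *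
              (‖χ z - f z‖ ^ 2 * (Real.exp (-φ z) * ((τ + ‖z - y‖ ^ 2) ^ n)⁻¹ *
              (1 + ‖z‖ ^ 2)⁻¹)) = (‖χ z - f z‖ ^ 2 * ((‖z - y‖ ^ 2 + τ) ^ n)⁻¹) *
              (((1 + (R + 1) ^ 2) * (1 + ‖z‖ ^ 2)⁻¹) *
                ((Real.exp 1 * Real.exp (-φ z)) * Real.exp (φ y))) := by
            rw [add_comm τ]
            ring
          rw [e2]
          apply le_mul_of_one_le_right (by positivity)
          have e3 : 1 ≤ (1 + (R + 1) ^ 2) * (1 + ‖z‖ ^ 2)⁻¹ := by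
            rw [← div_eq_mul_inv, one_le_div hD]
            exact hzR z hz'
          have e4 : 1 ≤ (Real.exp 1 * Real.exp (-φ z)) * Real.exp (φ y) := by
            have := mul_le_mul_of_nonneg_right (hexp2 z hz') (Real.exp_pos (φ y)).le
            rwa [← Real.exp_add, neg_add_cancel, Real.exp_zero] at this
          calc (1 : ℝ) = 1 * 1 := by ring
            _ ≤ _ := mul_le_mul e3 e4 zero_le_one (by positivity)
      _ = (1 + (R + 1) ^ 2) * Real.exp 1 * Real.exp (φ y) *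
          ∫ z in ball y (ρ / 2), ‖χ z - f z‖ ^ 2 * (Real.exp (-φ z) *
            ((τ + ‖z - y‖ ^ 2) ^ n)⁻¹ * (1 + ‖z‖ ^ 2)⁻¹) := by
          rw [integral_const_mul]
      _ ≤ _ := by
          apply mul_le_mul_of_nonneg_left _ (by positivity)
          apply setIntegral_le_integral hI
          refine Filter.Eventually.of_forall (fun z => ?_)
          simp only [Pi.zero_apply]
          positivity
  calc ‖χ y - f y‖ ^ 2 * (c * Real.log (ρ ^ 2 / τ) - K₀)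
      ≤ ‖χ y - f y‖ ^ 2 * ∫ z in ball y (ρ / 2), ((‖z - y‖ ^ 2 + τ) ^ n)⁻¹ :=
        mul_le_mul_of_nonneg_left hrad2 (by positivity)
    _ ≤ ∫ z in ball y (ρ / 2), ‖χ z - f z‖ ^ 2 * ((‖z - y‖ ^ 2 + τ) ^ n)⁻¹ := hsq
    _ ≤ _ := hle2
    _ ≤ (1 + (R + 1) ^ 2) * Real.exp 1 * Real.exp (φ y) *
        (C * (1 + (R + 1) ^ 2) * Real.exp 1 * K₀ * ((ρ ^ 2)⁻¹ * Real.exp (-φ y))) :=
        mul_le_mul_of_nonneg_left hA1 (by positivity)
    _ = (1 + (R + 1) ^ 2) * Real.exp 1 * (C * (1 + (R + 1) ^ 2) * Real.exp 1 * K₀) *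
          (ρ ^ 2)⁻¹ * (Real.exp (φ y) * Real.exp (-φ y)) := by ring
    _ = _ := by
        rw [← Real.exp_add, add_neg_cancel, Real.exp_zero, mul_one]

theorem peak (n : ℕ) (hn : 1 ≤ n) (R : ℝ) (hR : 1 ≤ R) : ∃ K : ℝ, 1 ≤ K ∧
    ∀ (φ : Cn n → ℝ) (y : Cn n) (ρ : ℝ), ContDiff ℝ ∞ φ → (∀ z ξ, 0 ≤ lev φ z ξ) → ‖y‖ ≤ R →
      0 < ρ → ρ ≤ 1 → (∀ z ∈ ball y ρ, |φ z - φ y| ≤ 1) →
      ∃ f : Cn n → ℂ, Differentiable ℂ f ∧ 1 / 2 ≤ ‖f y‖ ∧
        Integrable (fun z => ‖f z‖ ^ 2 * (Real.exp (-φ z) * ((1 + ‖z‖ ^ 2) ^ (n + 1))⁻¹)) volume ∧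
        ∫ z, ‖f z‖ ^ 2 * (Real.exp (-φ z) * ((1 + ‖z‖ ^ 2) ^ (n + 1))⁻¹) ≤
          K * (ρ ^ 2)⁻¹ * Real.exp (-φ y) := by
  obtain ⟨c, K₀, hc, hK₀, hrad⟩ := rad_int n hn
  obtain ⟨C, hC, hcut⟩ := peak_cut n
  set M : ℝ := 1 + (R + 1) ^ 2 with hM
  have hMpos : 0 < M := by positivity
  set A₁ : ℝ := C * M * Real.exp 1 * K₀ with hA₁
  have hA₁0 : 0 ≤ A₁ := by positivity
  set A₂ : ℝ := M * Real.exp 1 * A₁ + 1 with hA₂
  have hA₂0 : 0 < A₂ := by positivity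
  set B : ℝ := (4 * A₂ + K₀) / c with hB
  have hB0 : 0 < B := by positivity
  set V : ℝ := volume.real (ball (0 : Cn n) 1) with hV
  have hV0 : 0 ≤ V := measureReal_nonneg
  refine ⟨2 * (2 * R ^ 2 + 2) ^ n * A₁ + 2 * Real.exp 1 * V + 1, ?_, ?_⟩
  · have : 0 ≤ 2 * (2 * R ^ 2 + 2) ^ n * A₁ + 2 * Real.exp 1 * V := by positivity
    linarith
  intro φ y ρ hφ hlev hy hρ hρ1 hball
  have hρ2 : (1 : ℝ) ≤ (ρ ^ 2)⁻¹ := by
    rw [one_le_inv₀ (by positivity)]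
    exact pow_le_one₀ hρ.le hρ1
  set τ : ℝ := ρ ^ 2 * Real.exp (-(B * (ρ ^ 2)⁻¹)) with hτdef
  have hτ : 0 < τ := by positivity
  have hτle : τ ≤ ρ ^ 2 := by
    apply mul_le_of_le_one_right (by positivity)
    rw [Real.exp_le_one_iff, neg_nonpos]
    positivity
  have hlog : Real.log (ρ ^ 2 / τ) = B * (ρ ^ 2)⁻¹ := by
    rw [hτdef]
    have h1 : ρ ^ 2 / (ρ ^ 2 * Real.exp (-(B * (ρ ^ 2)⁻¹))) = Real.exp (B * (ρ ^ 2)⁻¹) := by
      rw [Real.exp_neg]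
      field_simp
    rw [h1, Real.log_exp]
  obtain ⟨hr1, hr2⟩ := hrad ρ τ y hρ hρ1 hτ hτle
  obtain ⟨χ, hχ, hχn, hχ1, hχ0, hχ3, hχ4⟩ := hcut y ρ hρ
  obtain ⟨f, hf, hI, hle, hval⟩ := peak_solve (c := c) hK₀ hC hR φ y ρ τ hφ hlev hy hρ hρ1 hball hτ
    hr1 hr2 χ hχ hχ1 hχ3 hχ4
  have hyb : y ∈ ball y (ρ / 2) := mem_ball_self (by linarith)
  refine ⟨f, hf, ?_, ?_⟩
  · rw [hlog, hχ1 y hyb] at hval
    have h1 : 4 * A₂ * (ρ ^ 2)⁻¹ ≤ c * (B * (ρ ^ 2)⁻¹) - K₀ := by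
      have h2 : c * (B * (ρ ^ 2)⁻¹) = (4 * A₂ + K₀) * (ρ ^ 2)⁻¹ := by
        rw [hB]
        field_simp
      rw [h2]
      nlinarith
    have h3 : ‖1 - f y‖ ^ 2 * (4 * A₂ * (ρ ^ 2)⁻¹) ≤ A₂ * (ρ ^ 2)⁻¹ := by
      calc ‖1 - f y‖ ^ 2 * (4 * A₂ * (ρ ^ 2)⁻¹)
          ≤ ‖1 - f y‖ ^ 2 * (c * (B * (ρ ^ 2)⁻¹) - K₀) :=
            mul_le_mul_of_nonneg_left h1 (by positivity)
        _ ≤ M * Real.exp 1 * A₁ * (ρ ^ 2)⁻¹ := hval
        _ ≤ A₂ * (ρ ^ 2)⁻¹ := by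
            apply mul_le_mul_of_nonneg_right _ (by positivity)
            rw [hA₂]
            linarith
    have h4 : ‖1 - f y‖ ^ 2 ≤ 1 / 4 := by
      have h5 : 0 < A₂ * (ρ ^ 2)⁻¹ := by positivity
      have h6 : (‖1 - f y‖ ^ 2 * 4) * (A₂ * (ρ ^ 2)⁻¹) ≤ 1 * (A₂ * (ρ ^ 2)⁻¹) := by
        calc (‖1 - f y‖ ^ 2 * 4) * (A₂ * (ρ ^ 2)⁻¹) =
            ‖1 - f y‖ ^ 2 * (4 * A₂ * (ρ ^ 2)⁻¹) := by ring
          _ ≤ _ := h3
          _ = _ := by ring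
      have h7 := le_of_mul_le_mul_right h6 h5
      linarith
    have h8 : ‖1 - f y‖ ≤ 1 / 2 := by
      nlinarith [norm_nonneg (1 - f y)]
    have h9 : (1 : ℝ) ≤ ‖1 - f y‖ + ‖f y‖ := by
      have := norm_add_le (1 - f y) (f y)
      rwa [sub_add_cancel, norm_one] at this
    linarith
  · -- the weighted norm
    have hpt : ∀ z : Cn n, ‖f z‖ ^ 2 * (Real.exp (-φ z) * ((1 + ‖z‖ ^ 2) ^ (n + 1))⁻¹) ≤
        2 * (2 * R ^ 2 + 2) ^ n * (‖χ z - f z‖ ^ 2 * (Real.exp (-φ z) *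
          ((τ + ‖z - y‖ ^ 2) ^ n)⁻¹ * (1 + ‖z‖ ^ 2)⁻¹)) +
        (ball y ρ).indicator (fun _ => 2 * (Real.exp 1 * Real.exp (-φ y))) z := by
      intro z
      have hD : (1 : ℝ) ≤ 1 + ‖z‖ ^ 2 := by
        have : 0 ≤ ‖z‖ ^ 2 := by positivity
        linarith
      have hA : 0 < τ + ‖z - y‖ ^ 2 := by positivity
      have hAD : τ + ‖z - y‖ ^ 2 ≤ (2 * R ^ 2 + 2) * (1 + ‖z‖ ^ 2) := by
        have h1 := peak_norm_sq_sub z y
        have h2 : ‖y‖ ^ 2 ≤ R ^ 2 := pow_le_pow_left₀ (norm_nonneg _) hy 2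
        have h3 : τ ≤ 1 := hτle.trans (pow_le_one₀ hρ.le hρ1)
        have h4 : 0 ≤ ‖z‖ ^ 2 := by positivity
        have h5 : 0 ≤ R ^ 2 := by positivity
        nlinarith
      have h1 : ‖f z‖ ^ 2 ≤ 2 * ‖χ z - f z‖ ^ 2 + 2 * ‖χ z‖ ^ 2 := by
        have h2 : ‖f z‖ ≤ ‖χ z - f z‖ + ‖χ z‖ := by
          have := norm_sub_le (χ z) (χ z - f z)
          rw [sub_sub_cancel] at this
          linarith
        have h3 := pow_le_pow_left₀ (norm_nonneg (f z)) h2 2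
        nlinarith [sq_nonneg (‖χ z - f z‖ - ‖χ z‖)]
      have h2 : Real.exp (-φ z) * ((1 + ‖z‖ ^ 2) ^ (n + 1))⁻¹ ≤
          (2 * R ^ 2 + 2) ^ n * (Real.exp (-φ z) *
          ((τ + ‖z - y‖ ^ 2) ^ n)⁻¹ * (1 + ‖z‖ ^ 2)⁻¹) := by
        have h3 : ((1 + ‖z‖ ^ 2) ^ n)⁻¹ ≤ (2 * R ^ 2 + 2) ^ n * ((τ + ‖z - y‖ ^ 2) ^ n)⁻¹ := by
          rw [← div_eq_mul_inv, inv_eq_one_div, div_le_div_iff₀ (by positivity) (by positivity),
            one_mul, ← mul_pow]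
          exact pow_le_pow_left₀ hA.le hAD n
        calc Real.exp (-φ z) * ((1 + ‖z‖ ^ 2) ^ (n + 1))⁻¹ =
            (Real.exp (-φ z) * (1 + ‖z‖ ^ 2)⁻¹) * ((1 + ‖z‖ ^ 2) ^ n)⁻¹ := by
              rw [pow_succ, mul_inv]
              ring
          _ ≤ (Real.exp (-φ z) * (1 + ‖z‖ ^ 2)⁻¹) *
              ((2 * R ^ 2 + 2) ^ n * ((τ + ‖z - y‖ ^ 2) ^ n)⁻¹) :=
              mul_le_mul_of_nonneg_left h3 (by positivity)
          _ = _ := by ring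
      have h3 : 2 * ‖χ z‖ ^ 2 * (Real.exp (-φ z) * ((1 + ‖z‖ ^ 2) ^ (n + 1))⁻¹) ≤
          (ball y ρ).indicator (fun _ => 2 * (Real.exp 1 * Real.exp (-φ y))) z := by
        by_cases hz : z ∈ ball y ρ
        · rw [indicator_of_mem hz]
          have h4 : ‖χ z‖ ^ 2 ≤ 1 := pow_le_one₀ (norm_nonneg _) (hχn z)
          have h5 : ((1 + ‖z‖ ^ 2) ^ (n + 1))⁻¹ ≤ 1 := inv_le_one_of_one_le₀ (one_le_pow₀ hD)
          have h6 : Real.exp (-φ z) ≤ Real.exp 1 * Real.exp (-φ y) := by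
            rw [← Real.exp_add]
            apply Real.exp_le_exp.2
            have := abs_le.1 (hball z hz)
            linarith
          have h7 : Real.exp (-φ z) * ((1 + ‖z‖ ^ 2) ^ (n + 1))⁻¹ ≤
              (Real.exp 1 * Real.exp (-φ y)) * 1 :=
            mul_le_mul h6 h5 (by positivity) (by positivity)
          calc 2 * ‖χ z‖ ^ 2 * (Real.exp (-φ z) * ((1 + ‖z‖ ^ 2) ^ (n + 1))⁻¹)
              ≤ 2 * 1 * ((Real.exp 1 * Real.exp (-φ y)) * 1) := by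
                apply mul_le_mul _ h7 (by positivity) (by norm_num)
                linarith
            _ = _ := by ring
        · rw [indicator_of_notMem hz, hχ0 z hz]
          simp
      have hpos : 0 ≤ Real.exp (-φ z) * ((1 + ‖z‖ ^ 2) ^ (n + 1))⁻¹ := by positivity
      calc ‖f z‖ ^ 2 * (Real.exp (-φ z) * ((1 + ‖z‖ ^ 2) ^ (n + 1))⁻¹)
          ≤ (2 * ‖χ z - f z‖ ^ 2 + 2 * ‖χ z‖ ^ 2) *
            (Real.exp (-φ z) * ((1 + ‖z‖ ^ 2) ^ (n + 1))⁻¹) :=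
            mul_le_mul_of_nonneg_right h1 hpos
        _ = 2 * ‖χ z - f z‖ ^ 2 * (Real.exp (-φ z) * ((1 + ‖z‖ ^ 2) ^ (n + 1))⁻¹) +
            2 * ‖χ z‖ ^ 2 * (Real.exp (-φ z) * ((1 + ‖z‖ ^ 2) ^ (n + 1))⁻¹) := by ring
        _ ≤ 2 * ‖χ z - f z‖ ^ 2 * ((2 * R ^ 2 + 2) ^ n * (Real.exp (-φ z) *
          ((τ + ‖z - y‖ ^ 2) ^ n)⁻¹ * (1 + ‖z‖ ^ 2)⁻¹)) +
            (ball y ρ).indicator (fun _ => 2 * (Real.exp 1 * Real.exp (-φ y))) z :=
            add_le_add (mul_le_mul_of_nonneg_left h2 (by positivity)) h3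
        _ = _ := by ring
    have hind : Integrable ((ball y ρ).indicator
        (fun _ : Cn n => 2 * (Real.exp 1 * Real.exp (-φ y)))) volume := by
      rw [integrable_indicator_iff measurableSet_ball]
      exact integrableOn_const measure_ball_lt_top.ne
    have hgint := (hI.const_mul (2 * (2 * R ^ 2 + 2) ^ n)).add hind
    have hGc : Continuous (fun z : Cn n => ‖f z‖ ^ 2 *
        (Real.exp (-φ z) * ((1 + ‖z‖ ^ 2) ^ (n + 1))⁻¹)) := by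
      apply Continuous.mul (hf.continuous.norm.pow 2)
      apply Continuous.mul
      · exact Real.continuous_exp.comp hφ.continuous.neg
      · apply Continuous.inv₀
        · fun_prop
        · intro z
          positivity
    refine ⟨?_, ?_⟩
    · refine Integrable.mono' hgint hGc.aestronglyMeasurable
        (Filter.Eventually.of_forall (fun z => ?_))
      rw [Real.norm_of_nonneg (by positivity)]
      exact hpt z
    · calc ∫ z, ‖f z‖ ^ 2 * (Real.exp (-φ z) * ((1 + ‖z‖ ^ 2) ^ (n + 1))⁻¹)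
          ≤ ∫ z, (2 * (2 * R ^ 2 + 2) ^ n * (‖χ z - f z‖ ^ 2 * (Real.exp (-φ z) *
          ((τ + ‖z - y‖ ^ 2) ^ n)⁻¹ * (1 + ‖z‖ ^ 2)⁻¹)) +
        (ball y ρ).indicator (fun _ => 2 * (Real.exp 1 * Real.exp (-φ y))) z) := by
            apply integral_mono_of_nonneg _ hgint
            · exact Filter.Eventually.of_forall hpt
            · refine Filter.Eventually.of_forall (fun z => ?_)
              simp only [Pi.zero_apply]
              positivity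
        _ = 2 * (2 * R ^ 2 + 2) ^ n * (∫ z, ‖χ z - f z‖ ^ 2 * (Real.exp (-φ z) *
          ((τ + ‖z - y‖ ^ 2) ^ n)⁻¹ * (1 + ‖z‖ ^ 2)⁻¹)) +
            2 * (Real.exp 1 * Real.exp (-φ y)) * volume.real (ball y ρ) := by
            rw [integral_add (hI.const_mul _) hind, integral_const_mul,
              integral_indicator measurableSet_ball, setIntegral_const, smul_eq_mul]
            ring
        _ ≤ 2 * (2 * R ^ 2 + 2) ^ n * (A₁ * ((ρ ^ 2)⁻¹ * Real.exp (-φ y))) +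
            2 * (Real.exp 1 * Real.exp (-φ y)) * (V * (ρ ^ 2)⁻¹) := by
            apply add_le_add
            · exact mul_le_mul_of_nonneg_left hle (by positivity)
            · apply mul_le_mul_of_nonneg_left _ (by positivity)
              have h1 : volume.real (ball y ρ) ≤ V := by
                have h2 : volume (ball y ρ) ≤ volume (ball (0 : Cn n) 1) := by
                  rw [Measure.addHaar_ball_center volume y ρ]
                  exact measure_mono (ball_subset_ball hρ1)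
                exact ENNReal.toReal_mono measure_ball_lt_top.ne h2
              exact h1.trans (le_mul_of_one_le_right hV0 hρ2)
        _ ≤ _ := by
            have h1 : 0 ≤ (ρ ^ 2)⁻¹ * Real.exp (-φ y) := by positivity
            nlinarith

end HMA
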