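import Pool.Agent.H85.MA.Smooth2
import Pool.Agent.H85.MA.Peak
import Pool.Agent.H85.MA.Berg

/-! # Module APPROX: quantitative approximation of psh functions by logarithms of polynomials -/

open MeasureTheory Metric Set
open scoped ENNReal Topology ContDiff

namespace HMA

/-- absorbing constants -/
theorem Approx_const {C X s : ℝ} {K p q : ℕ} (hCK : C ≤ K) (hK : 1 ≤ K) (hp : p ≤ K)
    (hq : q ≤ K) (hX : 1 ≤ X) (hs : 0 < s) (hs1 : s ≤ 1) :
    C * X ^ p * (s ^ q)⁻¹ ≤ (K * X / s) ^ K := by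
  have hK1 : (1 : ℝ) ≤ K := by exact_mod_cast hK
  have hsi : 1 ≤ s⁻¹ := (one_le_inv₀ hs).mpr hs1
  have h1 : (K * X / s) ^ K = (K : ℝ) ^ K * X ^ K * (s⁻¹) ^ K := by
    rw [div_eq_mul_inv, mul_pow, mul_pow]
  have h2 : (K : ℝ) ≤ (K : ℝ) ^ K := le_self_pow₀ hK1 (by omega)
  have h3 : X ^ p ≤ X ^ K := pow_le_pow_right₀ hX hp
  have h4 : (s ^ q)⁻¹ ≤ (s⁻¹) ^ K := by
    rw [← inv_pow]
    exact pow_le_pow_right₀ hsi hq
  rw [h1]
  have h5 : C * X ^ p ≤ (K : ℝ) ^ K * X ^ K :=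
    mul_le_mul (hCK.trans h2) h3 (by positivity) (by positivity)
  exact mul_le_mul h5 h4 (by positivity) (by positivity)

theorem Approx_ev_diff {n : ℕ} (P : MvPolynomial (Fin n) ℂ) :
    Differentiable ℂ (fun z : Cn n => ev P z) := by
  unfold ev
  induction P using MvPolynomial.induction_on with
  | C a => simp only [MvPolynomial.eval_C]; exact differentiable_const a
  | add p q hp hq => simp only [map_add]; exact hp.add hq
  | mul_X p i hp =>
    simp only [map_mul, MvPolynomial.eval_X]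
    refine hp.mul ?_
    exact (EuclideanSpace.proj (𝕜 := ℂ) i : Cn n →L[ℂ] ℂ).differentiable

theorem Approx_ev_cont {n : ℕ} (P : MvPolynomial (Fin n) ℂ) :
    Continuous (fun z : Cn n => ev P z) := (Approx_ev_diff P).continuous

/-- maximum of an usc function on a closed ball -/
theorem Approx_max {n : ℕ} {u : Cn n → ℝ} (hu : UpperSemicontinuous u) (z : Cn n) {r : ℝ}
    (hr : 0 ≤ r) : ∃ z', ‖z' - z‖ ≤ r ∧ ∀ x, ‖x - z‖ ≤ r → u x ≤ u z' := by
  have hne : (closedBall z r).Nonempty := ⟨z, mem_closedBall_self hr⟩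
  obtain ⟨z', hz', hmax⟩ := UpperSemicontinuousOn.exists_isMaxOn hne (isCompact_closedBall z r)
    (hu.upperSemicontinuousOn _)
  refine ⟨z', by rwa [mem_closedBall, dist_eq_norm] at hz', fun x hx => ?_⟩
  exact hmax (by rwa [mem_closedBall, dist_eq_norm])

/-- the weight -/
noncomputable def ApproxW {n : ℕ} (m : ℕ) (v : Cn n → ℝ) (z : Cn n) : ℝ :=
  Real.exp (-(2 * m * v z)) * ((1 + ‖z‖ ^ 2) ^ (n + 1))⁻¹

theorem ApproxW_pos {n : ℕ} (m : ℕ) (v : Cn n → ℝ) (z : Cn n) : 0 < ApproxW m v z := by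
  unfold ApproxW
  positivity

theorem ApproxW_cont {n : ℕ} (m : ℕ) {v : Cn n → ℝ} (hv : Continuous v) :
    Continuous (ApproxW m v) := by
  unfold ApproxW
  refine (Real.continuous_exp.comp (by fun_prop)).mul ?_
  refine Continuous.inv₀ (by fun_prop) (fun z => by positivity)

/-- lower bound of the weight -/
theorem ApproxW_low {n : ℕ} (m : ℕ) {v : Cn n → ℝ} {a : ℝ}
    (hv : ∀ z, v z ≤ Real.log (1 + ‖z‖ ^ 2) / 2 + a + 1) (z : Cn n) :
    Real.exp (-(2 * m * (a + 1))) * ((1 + ‖z‖ ^ 2) ^ (m + n + 1))⁻¹ ≤ ApproxW m v z := by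
  unfold ApproxW
  have h0 : 0 < 1 + ‖z‖ ^ 2 := by positivity
  have h1 : ((1 + ‖z‖ ^ 2) ^ (m + n + 1))⁻¹ =
      Real.exp (-(m * Real.log (1 + ‖z‖ ^ 2))) * ((1 + ‖z‖ ^ 2) ^ (n + 1))⁻¹ := by
    rw [add_assoc, pow_add, mul_inv, Real.exp_neg, mul_comm (m : ℝ), Real.exp_mul,
      Real.exp_log h0, Real.rpow_natCast]
  rw [h1, ← mul_assoc, ← Real.exp_add]
  refine mul_le_mul_of_nonneg_right ?_ (by positivity)
  apply Real.exp_le_exp.mpr
  have h2 := hv z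
  have h3 : (m : ℝ) * v z ≤ m * (Real.log (1 + ‖z‖ ^ 2) / 2 + a + 1) :=
    mul_le_mul_of_nonneg_left h2 (Nat.cast_nonneg m)
  linarith

/-- inverse of the weight, upper bound -/
theorem ApproxW_up {n : ℕ} (m : ℕ) {v : Cn n → ℝ} {x : Cn n} {R t : ℝ} (_hR : 0 ≤ R)
    (hx : ‖x‖ ≤ R) (ht : v x ≤ t) (y : ℝ) (hy : 0 ≤ y) :
    y ≤ Real.exp (2 * m * t) * (1 + R ^ 2) ^ (n + 1) * (y * ApproxW m v x) := by
  have h1 : 1 ≤ Real.exp (2 * m * t) * (1 + R ^ 2) ^ (n + 1) * ApproxW m v x := by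
    unfold ApproxW
    have h2 : 1 ≤ Real.exp (2 * m * t) * Real.exp (-(2 * m * v x)) := by
      rw [← Real.exp_add]
      apply Real.one_le_exp
      have : (m : ℝ) * v x ≤ m * t := mul_le_mul_of_nonneg_left ht (Nat.cast_nonneg m)
      linarith
    have h3 : 1 ≤ (1 + R ^ 2) ^ (n + 1) * ((1 + ‖x‖ ^ 2) ^ (n + 1))⁻¹ := by
      rw [← div_eq_mul_inv, one_le_div (by positivity)]
      gcongr
    calc (1 : ℝ) = 1 * 1 := by ring
      _ ≤ (Real.exp (2 * m * t) * Real.exp (-(2 * m * v x))) *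
          ((1 + R ^ 2) ^ (n + 1) * ((1 + ‖x‖ ^ 2) ^ (n + 1))⁻¹) :=
          mul_le_mul h2 h3 (by norm_num) (by positivity)
      _ = _ := by ring
  calc y = y * 1 := by ring
    _ ≤ y * (Real.exp (2 * m * t) * (1 + R ^ 2) ^ (n + 1) * ApproxW m v x) :=
        mul_le_mul_of_nonneg_left h1 hy
    _ = _ := by ring

theorem approx (n : ℕ) (hn : 1 ≤ n) (R : ℝ) (hR : 1 ≤ R) : ∃ K : ℕ, 1 ≤ K ∧
    ∀ (u : Cn n → ℝ) (L a s : ℝ) (m : ℕ), PshS u → 0 ≤ L → 0 ≤ a → 0 < s → s ≤ 1 / 16 → 1 ≤ m →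
      (∀ z, -L ≤ u z) → (∀ z, u z ≤ Real.log (1 + ‖z‖ ^ 2) / 2 + a) →
      ∃ (N : ℕ) (P : Fin N → MvPolynomial (Fin n) ℂ), N ≤ (m + K) ^ n ∧
        (∀ j, P j ≠ 0 ∧ (P j).totalDegree ≤ m + K) ∧
        ∀ z : Cn n, ‖z‖ ≤ R →
          Real.exp (2 * m * u z) ≤ (K * (m + L + a + 1) / s) ^ K * ∑ j, ‖ev (P j) z‖ ^ 2 ∧
          ∃ z' : Cn n, ‖z' - z‖ ≤ 2 * s ∧ ∑ j, ‖ev (P j) z‖ ^ 2 ≤
            (K * (m + L + a + 1) / s) ^ K * Real.exp (2 * m * u z') := by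
  obtain ⟨K₁, hK₁, hsm⟩ := smoothing n R hR
  obtain ⟨K₂, hK₂, hpk⟩ := peak n hn R hR
  obtain ⟨K₃, hK₃, hsq⟩ := sq_le_ball n
  obtain ⟨Ka, hKa⟩ := exists_nat_ge (16 * K₁ ^ 2 * K₂)
  obtain ⟨Kb, hKb⟩ := exists_nat_ge ((n + 3 : ℝ) ^ n * K₃ * (1 + (R + 1) ^ 2) ^ (n + 1))
  refine ⟨Ka + Kb + (4 * n + 6), by omega, ?_⟩
  intro u L a s m hu hL ha hs hs16 hm hlow hup
  set K : ℕ := Ka + Kb + (4 * n + 6) with hK
  have hKr : (K : ℝ) = Ka + Kb + (4 * n + 6) := by rw [hK]; push_cast; ring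
  have hKa0 : (0 : ℝ) ≤ Ka := Nat.cast_nonneg _
  have hKb0 : (0 : ℝ) ≤ Kb := Nat.cast_nonneg _
  have hn0 : (0 : ℝ) ≤ n := Nat.cast_nonneg _
  have hm1 : (1 : ℝ) ≤ m := by exact_mod_cast hm
  set X : ℝ := m + L + a + 1 with hX
  have hX1 : 1 ≤ X := by rw [hX]; linarith
  obtain ⟨v, hvs, hvl, huv, hvu, hvb, hvL⟩ := hsm u L a s hu hL ha hs hs16 hlow hup
  have hvc : Continuous v := hvs.continuous
  obtain ⟨N, P, hN, hdeg, hone, hber⟩ := bergman (n := n) (M := m + n + 1) (ApproxW_cont m hvc)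
    (ApproxW_pos m v) ⟨Real.exp (-(2 * m * (a + 1))), Real.exp_pos _, ApproxW_low m hvb⟩
  refine ⟨N, P, hN.trans (Nat.pow_le_pow_left (by omega) n), ?_, ?_⟩
  · intro j
    refine ⟨?_, (hdeg j).trans (by omega)⟩
    intro h0
    have h1 := (hone j).2
    rw [h0] at h1
    simp [ev] at h1
  intro z hz
  have hs1 : s ≤ 1 := by linarith
  constructor
  · -- lower estimate
    set ρ : ℝ := s ^ (2 * n + 1) / (2 * m * K₁ * (L + a + 1)) with hρ
    have hLa : 1 ≤ L + a + 1 := by linarith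
    have hden : 1 ≤ 2 * m * K₁ * (L + a + 1) := by
      calc (1 : ℝ) ≤ 1 * 1 * 1 * 1 := by norm_num
        _ ≤ 2 * m * K₁ * (L + a + 1) := by gcongr; norm_num
    have hsp : 0 < s ^ (2 * n + 1) := pow_pos hs _
    have hρ0 : 0 < ρ := by rw [hρ]; positivity
    have hρ1 : ρ ≤ 1 := by
      rw [hρ, div_le_one (by linarith)]
      exact (pow_le_one₀ hs.le hs1).trans hden
    have hφs : ContDiff ℝ ∞ (fun w => 2 * m * v w) := contDiff_const.mul hvs
    have hφl : ∀ z ξ, 0 ≤ lev (fun w => 2 * m * v w) z ξ := by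
      intro z ξ
      rw [lev_const_mul hvs]
      exact mul_nonneg (by positivity) (hvl z ξ)
    obtain ⟨f, hfd, hf2, hfi, hfb⟩ := hpk (fun w => 2 * m * v w) z ρ hφs hφl hz hρ0 hρ1 (by
      intro y hy
      have hyz : ‖y - z‖ < ρ := by rwa [mem_ball, dist_eq_norm] at hy
      have hyR : ‖y‖ ≤ R + 1 := by
        have : ‖y‖ ≤ ‖y - z‖ + ‖z‖ := by
          calc ‖y‖ = ‖(y - z) + z‖ := by rw [sub_add_cancel]
            _ ≤ _ := norm_add_le _ _
        linarith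
      have h1 := hvL y z hyR (by linarith)
      rw [← mul_sub, abs_mul, abs_of_nonneg (by positivity : (0 : ℝ) ≤ 2 * m)]
      calc 2 * m * |v y - v z| ≤ 2 * m * (K₁ * (L + a + 1) * (s ^ (2 * n + 1))⁻¹ * ‖y - z‖) :=
            mul_le_mul_of_nonneg_left h1 (by positivity)
        _ ≤ 2 * m * (K₁ * (L + a + 1) * (s ^ (2 * n + 1))⁻¹ * ρ) := by gcongr
        _ = 1 := by
            rw [hρ]
            field_simp)
    have hb := hber f hfd hfi z
    have hS0 : 0 ≤ ∑ j, ‖ev (P j) z‖ ^ 2 := Finset.sum_nonneg (fun j _ => sq_nonneg _)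
    have h1 : (1 / 4 : ℝ) ≤ K₂ * (ρ ^ 2)⁻¹ * Real.exp (-(2 * m * v z)) *
        ∑ j, ‖ev (P j) z‖ ^ 2 := by
      have h2 : (1 / 4 : ℝ) ≤ ‖f z‖ ^ 2 := by nlinarith
      refine h2.trans (hb.trans ?_)
      exact mul_le_mul_of_nonneg_right hfb hS0
    have h2 : Real.exp (2 * m * v z) ≤ 4 * K₂ * (ρ ^ 2)⁻¹ * ∑ j, ‖ev (P j) z‖ ^ 2 := by
      have h3 := mul_le_mul_of_nonneg_left h1 (Real.exp_pos (2 * m * v z)).le
      have h4 : Real.exp (2 * m * v z) * Real.exp (-(2 * m * v z)) = 1 := by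
        rw [← Real.exp_add, add_neg_cancel, Real.exp_zero]
      have h5 : Real.exp (2 * m * v z) * (K₂ * (ρ ^ 2)⁻¹ * Real.exp (-(2 * m * v z)) *
          ∑ j, ‖ev (P j) z‖ ^ 2) = (Real.exp (2 * m * v z) * Real.exp (-(2 * m * v z))) *
          (K₂ * (ρ ^ 2)⁻¹ * ∑ j, ‖ev (P j) z‖ ^ 2) := by ring
      rw [h5, h4, one_mul] at h3
      linarith
    have h3 : Real.exp (2 * m * u z) ≤ Real.exp (2 * m * v z) := by
      apply Real.exp_le_exp.mpr
      exact mul_le_mul_of_nonneg_left (huv z) (by positivity)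
    refine h3.trans (h2.trans (mul_le_mul_of_nonneg_right ?_ hS0))
    have h6 : 4 * K₂ * (ρ ^ 2)⁻¹ = 16 * K₁ ^ 2 * K₂ * (m ^ 2 * (L + a + 1) ^ 2) *
        (s ^ (2 * (2 * n + 1)))⁻¹ := by
      rw [hρ]
      have hne : s ^ (2 * n + 1) ≠ 0 := hsp.ne'
      have hne2 : (m : ℝ) ≠ 0 := by positivity
      have hne3 : (L + a + 1) ≠ 0 := by positivity
      have hne4 : K₁ ≠ 0 := by positivity
      rw [mul_comm 2 (2 * n + 1), pow_mul]
      field_simp
      ring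
    rw [h6]
    have h7 : (m : ℝ) ^ 2 * (L + a + 1) ^ 2 ≤ X ^ 4 := by
      have h8 : (m : ℝ) ≤ X := by rw [hX]; linarith
      have h9 : L + a + 1 ≤ X := by rw [hX]; linarith
      calc (m : ℝ) ^ 2 * (L + a + 1) ^ 2 ≤ X ^ 2 * X ^ 2 := by gcongr
        _ = X ^ 4 := by ring
    calc 16 * K₁ ^ 2 * K₂ * (m ^ 2 * (L + a + 1) ^ 2) * (s ^ (2 * (2 * n + 1)))⁻¹
        ≤ 16 * K₁ ^ 2 * K₂ * X ^ 4 * (s ^ (2 * (2 * n + 1)))⁻¹ := by gcongr
      _ ≤ (K * X / s) ^ K := Approx_const (by rw [hKr]; linarith) (by omega) (by omega) (by omega)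
          hX1 hs hs1
  · -- upper estimate
    obtain ⟨z', hz', hmax⟩ := Approx_max hu.usc z (show (0 : ℝ) ≤ 2 * s by linarith)
    refine ⟨z', hz', ?_⟩
    set B : ℝ := Real.exp (2 * m * u z') * (1 + (R + 1) ^ 2) ^ (n + 1) with hB
    have hB0 : 0 ≤ B := by rw [hB]; positivity
    have hterm : ∀ j, ‖ev (P j) z‖ ^ 2 ≤ K₃ * (s ^ (2 * n))⁻¹ * B := by
      intro j
      have h1 := hsq (fun x => ev (P j) x) z s (Approx_ev_diff (P j)) hs
      refine h1.trans (mul_le_mul_of_nonneg_left ?_ (by positivity))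
      obtain ⟨hi, hi1⟩ := hone j
      have hpt : ∀ x ∈ ball z s, ‖ev (P j) x‖ ^ 2 ≤ B * (‖ev (P j) x‖ ^ 2 * ApproxW m v x) := by
        intro x hx
        have hxz : ‖x - z‖ < s := by rwa [mem_ball, dist_eq_norm] at hx
        obtain ⟨x', hx', hvx⟩ := hvu x
        have hx'z : ‖x' - z‖ ≤ 2 * s := by
          calc ‖x' - z‖ = ‖(x' - x) + (x - z)‖ := by congr 1; abel
            _ ≤ ‖x' - x‖ + ‖x - z‖ := norm_add_le _ _
            _ ≤ 2 * s := by linarith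
        have hxR : ‖x‖ ≤ R + 1 := by
          have : ‖x‖ ≤ ‖x - z‖ + ‖z‖ := by
            calc ‖x‖ = ‖(x - z) + z‖ := by rw [sub_add_cancel]
              _ ≤ _ := norm_add_le _ _
          linarith
        exact ApproxW_up m (by linarith) hxR (hvx.trans (hmax x' hx'z)) _ (sq_nonneg _)
      have hBi : Integrable (fun x => B * (‖ev (P j) x‖ ^ 2 * ApproxW m v x)) volume :=
        hi.const_mul B
      have hnn : ∀ x : Cn n, 0 ≤ B * (‖ev (P j) x‖ ^ 2 * ApproxW m v x) := fun x =>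
        mul_nonneg hB0 (mul_nonneg (sq_nonneg _) (ApproxW_pos m v x).le)
      have hii : IntegrableOn (fun x => ‖ev (P j) x‖ ^ 2) (ball z s) volume := by
        refine Integrable.mono' hBi.integrableOn
          ((Approx_ev_cont (P j)).norm.pow 2).aestronglyMeasurable ?_
        refine (ae_restrict_mem measurableSet_ball).mono (fun x hx => ?_)
        rw [Real.norm_eq_abs, abs_of_nonneg (sq_nonneg _)]
        exact hpt x hx
      calc ∫ x in ball z s, ‖ev (P j) x‖ ^ 2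
          ≤ ∫ x in ball z s, B * (‖ev (P j) x‖ ^ 2 * ApproxW m v x) :=
            setIntegral_mono_on hii hBi.integrableOn measurableSet_ball hpt
        _ ≤ ∫ x, B * (‖ev (P j) x‖ ^ 2 * ApproxW m v x) :=
            setIntegral_le_integral hBi (Filter.Eventually.of_forall hnn)
        _ = B := by rw [integral_const_mul, hi1, mul_one]
    have hsum : ∑ j, ‖ev (P j) z‖ ^ 2 ≤ N * (K₃ * (s ^ (2 * n))⁻¹ * B) := by
      calc ∑ j, ‖ev (P j) z‖ ^ 2 ≤ ∑ _j : Fin N, K₃ * (s ^ (2 * n))⁻¹ * B :=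
            Finset.sum_le_sum (fun j _ => hterm j)
        _ = N * (K₃ * (s ^ (2 * n))⁻¹ * B) := by simp
    have hNr : (N : ℝ) ≤ (n + 3 : ℝ) ^ n * X ^ n := by
      have h1 : (N : ℝ) ≤ ((m + n + 1 + 1 : ℕ) : ℝ) ^ n := by exact_mod_cast hN
      refine h1.trans ?_
      rw [← mul_pow]
      apply pow_le_pow_left₀ (by positivity)
      push_cast
      have h8 : (m : ℝ) ≤ X := by rw [hX]; linarith
      nlinarith
    refine hsum.trans ?_
    calc (N : ℝ) * (K₃ * (s ^ (2 * n))⁻¹ * B)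
        ≤ ((n + 3 : ℝ) ^ n * X ^ n) * (K₃ * (s ^ (2 * n))⁻¹ * B) := by
          refine mul_le_mul_of_nonneg_right hNr ?_
          positivity
      _ = ((n + 3 : ℝ) ^ n * K₃ * (1 + (R + 1) ^ 2) ^ (n + 1)) * X ^ n * (s ^ (2 * n))⁻¹ *
          Real.exp (2 * m * u z') := by rw [hB]; ring
      _ ≤ (K * X / s) ^ K * Real.exp (2 * m * u z') := by
          refine mul_le_mul_of_nonneg_right ?_ (Real.exp_pos _).le
          exact Approx_const (by rw [hKr]; linarith) (by omega) (by omega) (by omega) hX1 hs hs1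

end HMA
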