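import Pool.Agent.H85.MA.Dbar2

/-! # Module BASIC: the Bochner-Kodaira-Hörmander inequality for test forms -/

open MeasureTheory Metric Set
open scoped ENNReal Topology ContDiff

namespace HMA

section BasicAux

variable {n : ℕ}

theorem BasicIneq_int {f : Cn n → ℂ} (hf : Tst f) : Integrable f volume :=
  hf.smooth.continuous.integrable_of_hasCompactSupport hf.supp

theorem BasicIneq_sub {f g : Cn n → ℂ} (hf : ContDiff ℝ ∞ f) (hg : ContDiff ℝ ∞ g) (j : Fin n)
    (z : Cn n) : db j (fun z => f z - g z) z = db j f z - db j g z := by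
  have h1 : DifferentiableAt ℝ f z := (hf.differentiable (by simp)).differentiableAt
  have h2 : DifferentiableAt ℝ g z := (hg.differentiable (by simp)).differentiableAt
  unfold db
  rw [fderiv_fun_sub h1 h2]
  simp only [sub_apply]
  ring

/-- the real function as a complex function -/
theorem BasicIneq_smoothPhi {φ : Cn n → ℝ} (hφ : ContDiff ℝ ∞ φ) :
    ContDiff ℝ ∞ (fun w => (φ w : ℂ)) :=
  Complex.ofRealCLM.contDiff.comp hφ

theorem BasicIneq_smoothE {φ : Cn n → ℝ} (hφ : ContDiff ℝ ∞ φ) :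
    ContDiff ℝ ∞ (fun w => Complex.exp (-(φ w : ℂ))) :=
  (BasicIneq_smoothPhi hφ).neg.cexp

theorem BasicIneq_key1 {φ : Cn n → ℝ} (hφ : ContDiff ℝ ∞ φ) {f : Cn n → ℂ}
    (hf : ContDiff ℝ ∞ f) (k : Fin n) (z : Cn n) :
    dd k (fun w => f w * Complex.exp (-(φ w : ℂ))) z =
      (dd k f z - dd k (fun w => (φ w : ℂ)) z * f z) * Complex.exp (-(φ z : ℂ)) := by
  have h1 := BasicIneq_smoothPhi hφ
  have h2 : ContDiff ℝ ∞ (fun w => -(φ w : ℂ)) := h1.neg
  rw [dd_mul hf (BasicIneq_smoothE hφ), dd_exp h2]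
  have h3 : dd k (fun w => -(φ w : ℂ)) z = - dd k (fun w => (φ w : ℂ)) z := by
    unfold dd
    rw [fderiv_fun_neg]
    simp only [neg_apply]
    ring
  rw [h3]
  ring

theorem BasicIneq_conjE (x : ℝ) :
    (starRingEnd ℂ) (Complex.exp (-(x : ℂ))) = Complex.exp (-(x : ℂ)) := by
  rw [← Complex.exp_conj, map_neg, Complex.conj_ofReal]

theorem BasicIneq_key2 {φ : Cn n → ℝ} (hφ : ContDiff ℝ ∞ φ) {f : Cn n → ℂ}
    (hf : ContDiff ℝ ∞ f) (k : Fin n) (z : Cn n) :
    db k (fun w => (starRingEnd ℂ) (f w) * Complex.exp (-(φ w : ℂ))) z =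
      (starRingEnd ℂ) (dd k f z - dd k (fun w => (φ w : ℂ)) z * f z) *
        Complex.exp (-(φ z : ℂ)) := by
  have h1 : (fun w => (starRingEnd ℂ) (f w) * Complex.exp (-(φ w : ℂ))) =
      fun w => (starRingEnd ℂ) (f w * Complex.exp (-(φ w : ℂ))) := by
    funext w
    rw [map_mul, BasicIneq_conjE]
  rw [h1, db_conj (hf.mul (BasicIneq_smoothE hφ)), BasicIneq_key1 hφ hf, map_mul,
    BasicIneq_conjE]

theorem BasicIneq_term {φ : Cn n → ℝ} (hφ : ContDiff ℝ ∞ φ) {a b : Cn n → ℂ} (ha : Tst a)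
    (hb : Tst b) (j k : Fin n) :
    ∫ z, (dd j a z - dd j (fun w => (φ w : ℂ)) z * a z) *
        ((starRingEnd ℂ) (dd k b z - dd k (fun w => (φ w : ℂ)) z * b z) *
          Complex.exp (-(φ z : ℂ))) =
      (∫ z, db k a z * (starRingEnd ℂ) (db j b z) * Complex.exp (-(φ z : ℂ))) +
        ∫ z, db k (dd j (fun w => (φ w : ℂ))) z * a z * (starRingEnd ℂ) (b z) *
          Complex.exp (-(φ z : ℂ)) := by
  have hΦ := BasicIneq_smoothPhi hφ
  have hE := BasicIneq_smoothE hφ
  have hbE : Tst (fun z => (starRingEnd ℂ) (b z) * Complex.exp (-(φ z : ℂ))) :=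
    hb.conj.mul_smooth hE
  have hddΦ := smooth_dd hΦ j
  have hdda := smooth_dd ha.smooth j
  have hu : ContDiff ℝ ∞ (fun z => dd j a z - dd j (fun w => (φ w : ℂ)) z * a z) :=
    hdda.sub (hddΦ.mul ha.smooth)
  have hdbΦ : ContDiff ℝ ∞ (db k (dd j (fun w => (φ w : ℂ)))) := smooth_db hddΦ k
  have hdba : Tst (db k a) := ha.db k
  -- first integration by parts
  have e1 : ∫ z, (dd j a z - dd j (fun w => (φ w : ℂ)) z * a z) *
        ((starRingEnd ℂ) (dd k b z - dd k (fun w => (φ w : ℂ)) z * b z) *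
          Complex.exp (-(φ z : ℂ))) =
      - ∫ z, db k (fun z => dd j a z - dd j (fun w => (φ w : ℂ)) z * a z) z *
        ((starRingEnd ℂ) (b z) * Complex.exp (-(φ z : ℂ))) := by
    rw [ibp_db hu hbE k, neg_neg]
    congr 1
    funext z
    rw [BasicIneq_key2 hφ hb.smooth]
  -- the commutator
  have e2 : ∀ z, db k (fun z => dd j a z - dd j (fun w => (φ w : ℂ)) z * a z) z =
      (dd j (db k a) z - dd j (fun w => (φ w : ℂ)) z * db k a z) -
        db k (dd j (fun w => (φ w : ℂ))) z * a z := by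
    intro z
    rw [BasicIneq_sub hdda (hddΦ.mul ha.smooth), db_mul hddΦ ha.smooth,
      db_dd_comm ha.smooth k j z]
    ring
  -- second integration by parts
  have e3 : ∫ z, (dd j (db k a) z - dd j (fun w => (φ w : ℂ)) z * db k a z) *
        Complex.exp (-(φ z : ℂ)) * (starRingEnd ℂ) (b z) =
      - ∫ z, db k a z * Complex.exp (-(φ z : ℂ)) * (starRingEnd ℂ) (db j b z) := by
    have h1 := ibp_dd (f := fun z => db k a z * Complex.exp (-(φ z : ℂ)))
      (hdba.smooth.mul hE) hb.conj j
    have h2 : ∫ z, db k a z * Complex.exp (-(φ z : ℂ)) *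
        dd j (fun z => (starRingEnd ℂ) (b z)) z =
        ∫ z, db k a z * Complex.exp (-(φ z : ℂ)) * (starRingEnd ℂ) (db j b z) := by
      apply integral_congr_ae
      filter_upwards with z
      rw [dd_conj hb.smooth]
    rw [h2] at h1
    rw [← h1]
    apply integral_congr_ae
    filter_upwards with z
    rw [BasicIneq_key1 hφ hdba.smooth]
  -- integrability
  have i1 : Integrable (fun z => (dd j (db k a) z - dd j (fun w => (φ w : ℂ)) z * db k a z) *
        Complex.exp (-(φ z : ℂ)) * (starRingEnd ℂ) (b z)) volume := by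
    have : Tst (fun z => (starRingEnd ℂ) (b z) *
        ((dd j (db k a) z - dd j (fun w => (φ w : ℂ)) z * db k a z) *
        Complex.exp (-(φ z : ℂ)))) :=
      hb.conj.mul_smooth (((smooth_dd hdba.smooth j).sub (hddΦ.mul hdba.smooth)).mul hE)
    refine (BasicIneq_int this).congr ?_
    filter_upwards with z
    ring
  have i2 : Integrable (fun z => db k (dd j (fun w => (φ w : ℂ))) z * a z *
        (starRingEnd ℂ) (b z) * Complex.exp (-(φ z : ℂ))) volume := by
    have : Tst (fun z => (starRingEnd ℂ) (b z) *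
        (db k (dd j (fun w => (φ w : ℂ))) z * a z * Complex.exp (-(φ z : ℂ)))) :=
      hb.conj.mul_smooth ((hdbΦ.mul ha.smooth).mul hE)
    refine (BasicIneq_int this).congr ?_
    filter_upwards with z
    ring
  have e4 : ∫ z, db k (fun z => dd j a z - dd j (fun w => (φ w : ℂ)) z * a z) z *
        ((starRingEnd ℂ) (b z) * Complex.exp (-(φ z : ℂ))) =
      (∫ z, (dd j (db k a) z - dd j (fun w => (φ w : ℂ)) z * db k a z) *
        Complex.exp (-(φ z : ℂ)) * (starRingEnd ℂ) (b z)) -
      ∫ z, db k (dd j (fun w => (φ w : ℂ))) z * a z *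
        (starRingEnd ℂ) (b z) * Complex.exp (-(φ z : ℂ)) := by
    rw [← integral_sub i1 i2]
    apply integral_congr_ae
    filter_upwards with z
    rw [e2]
    ring
  rw [e1, e4, e3]
  have e5 : ∫ z, db k a z * Complex.exp (-(φ z : ℂ)) * (starRingEnd ℂ) (db j b z) =
      ∫ z, db k a z * (starRingEnd ℂ) (db j b z) * Complex.exp (-(φ z : ℂ)) := by
    apply integral_congr_ae
    filter_upwards with z
    ring
  rw [e5]
  ring

end BasicAux

theorem basic_ineq {n : ℕ} {φ : Cn n → ℝ} (hφ : ContDiff ℝ ∞ φ) {α : Fin n → Cn n → ℂ}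
    (hα : ∀ j, Tst (α j)) :
    ∫ z, lev φ z (vec (fun j => α j z)) * Real.exp (-φ z) ≤
      (∫ z, ‖adj φ α z‖ ^ 2 * Real.exp (-φ z)) +
        (1 / 2) * ∑ j, ∑ k, ∫ z, ‖db j (α k) z - db k (α j) z‖ ^ 2 * Real.exp (-φ z) := by
  have hΦ := BasicIneq_smoothPhi hφ
  have hE := BasicIneq_smoothE hφ
  have hEr : ∀ z, Complex.exp (-(φ z : ℂ)) = ((Real.exp (-φ z) : ℝ) : ℂ) := by
    intro z; push_cast; rfl
  -- the three families of integrable functions
  have i1 : ∀ j k, Integrable (fun z => (dd j (α j) z - dd j (fun w => (φ w : ℂ)) z * α j z) *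
        ((starRingEnd ℂ) (dd k (α k) z - dd k (fun w => (φ w : ℂ)) z * α k z) *
          Complex.exp (-(φ z : ℂ)))) volume := by
    intro j k
    have h1 : ContDiff ℝ ∞ (fun z => dd k (α k) z - dd k (fun w => (φ w : ℂ)) z * α k z) :=
      (smooth_dd (hα k).smooth k).sub ((smooth_dd hΦ k).mul (hα k).smooth)
    have h2 : ContDiff ℝ ∞ (fun z => (starRingEnd ℂ)
        (dd k (α k) z - dd k (fun w => (φ w : ℂ)) z * α k z)) :=
      Complex.conjCLE.contDiff.comp h1
    have h3 : Tst (fun z => dd j (α j) z * 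
      ((starRingEnd ℂ) (dd k (α k) z - dd k (fun w => (φ w : ℂ)) z * α k z) *
          Complex.exp (-(φ z : ℂ)))) := ((hα j).dd j).mul_smooth (h2.mul hE)
    have h4 : Tst (fun z => α j z * (dd j (fun w => (φ w : ℂ)) z * 
      ((starRingEnd ℂ) (dd k (α k) z - dd k (fun w => (φ w : ℂ)) z * α k z) *
          Complex.exp (-(φ z : ℂ))))) := (hα j).mul_smooth ((smooth_dd hΦ j).mul (h2.mul hE))
    refine ((BasicIneq_int h3).sub (BasicIneq_int h4)).congr ?_
    filter_upwards with z
    simp only [Pi.sub_apply]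
    ring
  have i2 : ∀ j k, Integrable (fun z => db k (α j) z * (starRingEnd ℂ) (db j (α k) z) *
      Complex.exp (-(φ z : ℂ))) volume := by
    intro j k
    have h2 : ContDiff ℝ ∞ (fun z => (starRingEnd ℂ) (db j (α k) z)) :=
      Complex.conjCLE.contDiff.comp (smooth_db (hα k).smooth j)
    refine (BasicIneq_int (((hα j).db k).mul_smooth (h2.mul hE))).congr ?_
    filter_upwards with z
    ring
  have i3 : ∀ j k, Integrable (fun z => db k (dd j (fun w => (φ w : ℂ))) z * α j z *
        (starRingEnd ℂ) (α k z) * Complex.exp (-(φ z : ℂ))) volume := by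
    intro j k
    have h2 : ContDiff ℝ ∞ (fun z => (starRingEnd ℂ) (α k z)) :=
      Complex.conjCLE.contDiff.comp (hα k).smooth
    refine (BasicIneq_int ((hα j).mul_smooth
      (((smooth_db (smooth_dd hΦ j) k).mul h2).mul hE))).congr ?_
    filter_upwards with z
    ring
  -- the complex identity
  have A : ((∫ z, ‖adj φ α z‖ ^ 2 * Real.exp (-φ z) : ℝ) : ℂ) =
      ∑ j, ∑ k, ∫ z, (dd j (α j) z - dd j (fun w => (φ w : ℂ)) z * α j z) *
        ((starRingEnd ℂ) (dd k (α k) z - dd k (fun w => (φ w : ℂ)) z * α k z) *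
          Complex.exp (-(φ z : ℂ))) := by
    rw [← integral_complex_ofReal]
    simp_rw [← integral_finsetSum _ (fun k _ => i1 _ k)]
    rw [← integral_finsetSum _ (fun j _ => integrable_finsetSum _ (fun k _ => i1 j k))]
    apply integral_congr_ae
    filter_upwards with z
    have h1 : ((‖adj φ α z‖ ^ 2 * Real.exp (-φ z) : ℝ) : ℂ) =
        adj φ α z * (starRingEnd ℂ) (adj φ α z) * Complex.exp (-(φ z : ℂ)) := by
      rw [hEr, Complex.mul_conj, Complex.normSq_eq_norm_sq]
      push_cast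
      ring
    rw [h1]
    unfold adj
    rw [map_neg, neg_mul_neg, map_sum, Finset.sum_mul_sum, Finset.sum_mul]
    apply Finset.sum_congr rfl
    intro j _
    rw [Finset.sum_mul]
    apply Finset.sum_congr rfl
    intro k _
    ring
  have B : ((∫ z, lev φ z (vec (fun j => α j z)) * Real.exp (-φ z) : ℝ) : ℂ) =
      ∑ j, ∑ k, ∫ z, db k (dd j (fun w => (φ w : ℂ))) z * α j z *
        (starRingEnd ℂ) (α k z) * Complex.exp (-(φ z : ℂ)) := by
    rw [← integral_complex_ofReal]
    simp_rw [← integral_finsetSum _ (fun k _ => i3 _ k)]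
    rw [← integral_finsetSum _ (fun j _ => integrable_finsetSum _ (fun k _ => i3 j k))]
    apply integral_congr_ae
    filter_upwards with z
    push_cast
    rw [lev_eq hφ, Finset.sum_mul]
    apply Finset.sum_congr rfl
    intro j _
    rw [Finset.sum_mul]
    apply Finset.sum_congr rfl
    intro k _
    simp [vec]
  have C : ((∫ z, ‖adj φ α z‖ ^ 2 * Real.exp (-φ z) : ℝ) : ℂ) =
      (∑ j, ∑ k, ∫ z, db k (α j) z * (starRingEnd ℂ) (db j (α k) z) *
        Complex.exp (-(φ z : ℂ))) +
      ((∫ z, lev φ z (vec (fun j => α j z)) * Real.exp (-φ z) : ℝ) : ℂ) := by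
    rw [A, B, ← Finset.sum_add_distrib]
    apply Finset.sum_congr rfl
    intro j _
    rw [← Finset.sum_add_distrib]
    apply Finset.sum_congr rfl
    intro k _
    exact BasicIneq_term hφ (hα j) (hα k) j k
  have C' := congrArg Complex.re C
  rw [Complex.add_re, Complex.ofReal_re, Complex.ofReal_re, Complex.re_sum] at C'
  simp_rw [Complex.re_sum] at C'
  -- the inequality for the mixed terms
  have D : ∀ j k, -(∫ z, db k (α j) z * (starRingEnd ℂ) (db j (α k) z) *
        Complex.exp (-(φ z : ℂ))).re ≤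
      (1 / 2) * ∫ z, ‖db j (α k) z - db k (α j) z‖ ^ 2 * Real.exp (-φ z) := by
    intro j k
    have h0 : (∫ z, db k (α j) z * (starRingEnd ℂ) (db j (α k) z) *
        Complex.exp (-(φ z : ℂ))).re = ∫ z, (db k (α j) z * (starRingEnd ℂ) (db j (α k) z) *
        Complex.exp (-(φ z : ℂ))).re := (integral_re (i2 j k)).symm
    rw [h0, ← integral_neg, ← integral_const_mul]
    apply integral_mono
    · exact (i2 j k).re.neg
    · have h1 : ContDiff ℝ ∞ (fun z => db j (α k) z - db k (α j) z) :=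
        (smooth_db (hα k).smooth j).sub (smooth_db (hα j).smooth k)
      have h2 : HasCompactSupport (fun z => db j (α k) z - db k (α j) z) :=
        HasCompactSupport.sub ((hα k).db j).supp ((hα j).db k).supp
      apply Continuous.integrable_of_hasCompactSupport
      · exact continuous_const.mul ((h1.continuous.norm.pow 2).mul
          (Real.continuous_exp.comp hφ.continuous.neg))
      · apply HasCompactSupport.intro h2
        intro z hz
        have := image_eq_zero_of_notMem_tsupport hz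
        simp [this]
    · intro z
      simp only
      rw [hEr, Complex.re_mul_ofReal]
      have hexp := Real.exp_pos (-φ z)
      set a := db j (α k) z
      set b := db k (α j) z
      have h3 : ‖a - b‖ ^ 2 = ‖a‖ ^ 2 + ‖b‖ ^ 2 - 2 * (b * (starRingEnd ℂ) a).re := by
        rw [← Complex.normSq_eq_norm_sq, ← Complex.normSq_eq_norm_sq, ← Complex.normSq_eq_norm_sq,
          Complex.normSq_sub]
        congr 2
        rw [← Complex.conj_re, map_mul, Complex.conj_conj, mul_comm]
      rw [h3]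
      nlinarith [sq_nonneg ‖a‖, sq_nonneg ‖b‖, mul_nonneg (sq_nonneg ‖a‖) hexp.le,
        mul_nonneg (sq_nonneg ‖b‖) hexp.le]
  have D' : -∑ j, ∑ k, (∫ z, db k (α j) z * (starRingEnd ℂ) (db j (α k) z) *
        Complex.exp (-(φ z : ℂ))).re ≤
      (1 / 2) * ∑ j, ∑ k, ∫ z, ‖db j (α k) z - db k (α j) z‖ ^ 2 * Real.exp (-φ z) := by
    rw [← Finset.sum_neg_distrib, Finset.mul_sum]
    apply Finset.sum_le_sum
    intro j _
    rw [← Finset.sum_neg_distrib, Finset.mul_sum]
    apply Finset.sum_le_sum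
    intro k _
    exact D j k
  linarith

end HMA
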