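import Pool.Agent.H85.MA.BasicIneq
import Pool.Agent.H85.MA.Moll

/-! # Module CLOSED: the inequality for weakly closed `L²` forms (cut off and mollify) -/

set_option autoImplicit false
open MeasureTheory Metric Set
open scoped ENNReal Topology ContDiff

namespace HMA

/-- `L²` convergence of functions supported in `K` -/
private structure Cvl {n : ℕ} (K : Set (Cn n)) (u : ℕ → Cn n → ℂ) (v : Cn n → ℂ) : Prop where
  mu : ∀ k, MemLp (u k) 2 volume
  mv : MemLp v 2 volume
  sk : ∀ k, ∀ z ∉ K, u k z = 0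
  sv : ∀ z ∉ K, v z = 0
  lim : Filter.Tendsto (fun k => eLpNorm (fun z => u k z - v z) 2 volume) Filter.atTop (𝓝 0)

private theorem Cvl.add {n : ℕ} {K : Set (Cn n)} {u u' : ℕ → Cn n → ℂ} {v v' : Cn n → ℂ}
    (h : Cvl K u v) (h' : Cvl K u' v') :
    Cvl K (fun k z => u k z + u' k z) (fun z => v z + v' z) where
  mu k := (h.mu k).add (h'.mu k)
  mv := h.mv.add h'.mv
  sk k z hz := by rw [h.sk k z hz, h'.sk k z hz, add_zero]
  sv z hz := by rw [h.sv z hz, h'.sv z hz, add_zero]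
  lim := by
    have h0 : Filter.Tendsto (fun k => eLpNorm (fun z => u k z - v z) 2 volume +
        eLpNorm (fun z => u' k z - v' z) 2 volume) Filter.atTop (𝓝 0) := by
      simpa using h.lim.add h'.lim
    refine tendsto_of_tendsto_of_tendsto_of_le_of_le tendsto_const_nhds h0 (fun _ => zero_le)
      (fun k => ?_)
    have h1 : (fun z => u k z + u' k z - (v z + v' z)) =
        (fun z => u k z - v z) + (fun z => u' k z - v' z) := by
      ext z; simp only [Pi.add_apply]; ring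
    show eLpNorm (fun z => u k z + u' k z - (v z + v' z)) 2 volume ≤ _
    rw [h1]
    exact eLpNorm_add_le ((h.mu k).sub h.mv).1 ((h'.mu k).sub h'.mv).1 (by norm_num)

private theorem Cvl.mul {n : ℕ} {K : Set (Cn n)} (hK : IsCompact K) {u : ℕ → Cn n → ℂ}
    {v : Cn n → ℂ} (h : Cvl K u v) {c : Cn n → ℂ} (hc : Continuous c) :
    Cvl K (fun k z => c z * u k z) (fun z => c z * v z) := by
  obtain ⟨C, hC⟩ := hK.exists_bound_of_continuousOn hc.continuousOn
  have hb : ∀ {f : Cn n → ℂ}, (∀ z ∉ K, f z = 0) → ∀ z, ‖c z * f z‖ ≤ C * ‖f z‖ := by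
    intro f hf z
    by_cases hz : z ∈ K
    · rw [norm_mul]; exact mul_le_mul_of_nonneg_right (hC z hz) (norm_nonneg _)
    · rw [hf z hz]; simp
  refine ⟨fun k => ?_, ?_, fun k z hz => by rw [h.sk k z hz, mul_zero], fun z hz => by
    rw [h.sv z hz, mul_zero], ?_⟩
  · exact MemLp.of_le_mul (h.mu k) (hc.aestronglyMeasurable.mul (h.mu k).1)
      (Filter.Eventually.of_forall (hb (h.sk k)))
  · exact MemLp.of_le_mul h.mv (hc.aestronglyMeasurable.mul h.mv.1)
      (Filter.Eventually.of_forall (hb h.sv))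
  · have h0 : Filter.Tendsto (fun k => ENNReal.ofReal C * eLpNorm (fun z => u k z - v z) 2 volume)
        Filter.atTop (𝓝 0) := by
      have := ENNReal.Tendsto.const_mul (a := ENNReal.ofReal C) h.lim (Or.inr ENNReal.ofReal_ne_top)
      simpa using this
    refine tendsto_of_tendsto_of_tendsto_of_le_of_le tendsto_const_nhds h0 (fun _ => zero_le)
      (fun k => ?_)
    apply eLpNorm_le_mul_eLpNorm_of_ae_le_mul
    refine Filter.Eventually.of_forall fun z => ?_
    have h1 := hb (f := fun z => u k z - v z) (fun z hz => by rw [h.sk k z hz, h.sv z hz, sub_zero]) z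
    rwa [mul_sub] at h1

private theorem Cvl.zero {n : ℕ} (K : Set (Cn n)) : Cvl K (fun _ _ => 0) (fun _ => 0) where
  mu _ := MemLp.zero
  mv := MemLp.zero
  sk _ _ _ := rfl
  sv _ _ := rfl
  lim := by simp

private theorem Cvl.sum {n : ℕ} {K : Set (Cn n)} {ι : Type*} (s : Finset ι)
    {u : ι → ℕ → Cn n → ℂ} {v : ι → Cn n → ℂ} (h : ∀ i ∈ s, Cvl K (u i) (v i)) :
    Cvl K (fun k z => ∑ i ∈ s, u i k z) (fun z => ∑ i ∈ s, v i z) := by
  classical
  induction s using Finset.induction_on with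
  | empty => simpa using Cvl.zero K
  | insert a s ha ih =>
    simp only [Finset.sum_insert ha]
    exact (h a (Finset.mem_insert_self a s)).add
      (ih fun i hi => h i (Finset.mem_insert_of_mem hi))

private theorem Cvl.sq {n : ℕ} {K : Set (Cn n)} {u : ℕ → Cn n → ℂ}
    {v : Cn n → ℂ} (h : Cvl K u v) :
    Filter.Tendsto (fun k => ∫ z, ‖u k z‖ ^ 2) Filter.atTop (𝓝 (∫ z, ‖v z‖ ^ 2)) := by
  have hn : ∀ {f : Cn n → ℂ} (hf : MemLp f 2 volume), ‖hf.toLp f‖ ^ 2 = ∫ z, ‖f z‖ ^ 2 := by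
    intro f hf
    rw [← @inner_self_eq_norm_sq ℂ, L2.inner_def]
    have h1 : ∫ a, inner ℂ ((hf.toLp f : Cn n → ℂ) a) ((hf.toLp f : Cn n → ℂ) a) =
        ((∫ z, ‖f z‖ ^ 2 : ℝ) : ℂ) := by
      rw [← integral_complex_ofReal]
      apply integral_congr_ae
      filter_upwards [hf.coeFn_toLp] with z hz
      rw [hz, inner_self_eq_norm_sq_to_K]
      push_cast
      rfl
    rw [h1]
    simp
  have h2 := (Lp.tendsto_Lp_iff_tendsto_eLpNorm'' (fi := Filter.atTop) u h.mu v h.mv).2 h.lim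
  have h3 := (h2.norm).pow 2
  simpa only [hn] using h3

/-- integrability of weighted squares -/
private theorem cl_int {n : ℕ} {K : Set (Cn n)} (hK : IsCompact K) {v : Cn n → ℂ}
    (hv : MemLp v 2 volume) (hs : ∀ z ∉ K, v z = 0) {w : Cn n → ℝ} (hw : Continuous w) :
    Integrable (fun z => w z * ‖v z‖ ^ 2) volume := by
  obtain ⟨C, hC⟩ := hK.exists_bound_of_continuousOn hw.continuousOn
  have h1 : Integrable (fun z => ‖v z‖ ^ 2) volume := by
    have := hv.norm.integrable_sq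
    exact this
  refine Integrable.mono' (h1.const_mul C) (hw.aestronglyMeasurable.mul h1.1) ?_
  refine Filter.Eventually.of_forall fun z => ?_
  by_cases hz : z ∈ K
  · rw [norm_mul, Real.norm_eq_abs (‖v z‖ ^ 2), abs_of_nonneg (by positivity)]
    exact mul_le_mul_of_nonneg_right (hC z hz) (by positivity)
  · rw [hs z hz]; simp

private theorem Cvl.wsq {n : ℕ} {K : Set (Cn n)} (hK : IsCompact K) {u : ℕ → Cn n → ℂ}
    {v : Cn n → ℂ} (h : Cvl K u v) {w : Cn n → ℝ} (hw : Continuous w) (hw0 : ∀ z, 0 ≤ w z) :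
    Filter.Tendsto (fun k => ∫ z, w z * ‖u k z‖ ^ 2) Filter.atTop
      (𝓝 (∫ z, w z * ‖v z‖ ^ 2)) := by
  have h1 := (h.mul hK (c := fun z => ((Real.sqrt (w z) : ℝ) : ℂ))
    (Complex.continuous_ofReal.comp (Real.continuous_sqrt.comp hw))).sq
  have h2 : ∀ (f : Cn n → ℂ) (z : Cn n), ‖((Real.sqrt (w z) : ℝ) : ℂ) * f z‖ ^ 2 =
      w z * ‖f z‖ ^ 2 := by
    intro f z
    rw [norm_mul, mul_pow, Complex.norm_real, Real.norm_eq_abs, sq_abs, Real.sq_sqrt (hw0 z)]
  simpa only [h2] using h1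

/-- locally square integrable times test function -/
private theorem cl_memLp {n : ℕ} {φ : Cn n → ℝ} (hφ : Continuous φ) {b : Cn n → ℂ}
    (hbm : AEStronglyMeasurable b volume)
    (hb : Integrable (fun z => ‖b z‖ ^ 2 * Real.exp (-φ z)) volume) {c : Cn n → ℂ}
    (hc : Continuous c) (hcs : HasCompactSupport c) : MemLp (fun z => b z * c z) 2 volume := by
  have hE : Continuous (fun z => Real.exp (-φ z / 2)) := by fun_prop
  have h1 : MemLp (fun z => ‖b z‖ * Real.exp (-φ z / 2)) 2 volume := by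
    refine (memLp_two_iff_integrable_sq (f := fun z => ‖b z‖ * Real.exp (-φ z / 2))
      (hbm.norm.mul hE.aestronglyMeasurable)).2 ?_
    refine hb.congr (Filter.Eventually.of_forall fun z => ?_)
    show ‖b z‖ ^ 2 * Real.exp (-φ z) = (‖b z‖ * Real.exp (-φ z / 2)) ^ 2
    rw [mul_pow, ← Real.exp_nat_mul]
    congr 2
    push_cast
    ring
  have hcc : Continuous (fun z => c z * ((Real.exp (φ z / 2) : ℝ) : ℂ)) := by fun_prop
  have hccs : HasCompactSupport (fun z => c z * ((Real.exp (φ z / 2) : ℝ) : ℂ)) := hcs.mul_right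
  obtain ⟨C, hC⟩ := hccs.exists_bound_of_continuous hcc
  refine MemLp.of_le_mul (c := C) h1 (hbm.mul hc.aestronglyMeasurable)
    (Filter.Eventually.of_forall fun z => ?_)
  have h2 : ‖b z * c z‖ = ‖c z * ((Real.exp (φ z / 2) : ℝ) : ℂ)‖ * (‖b z‖ * Real.exp (-φ z / 2)) := by
    rw [norm_mul, norm_mul, Complex.norm_real, Real.norm_eq_abs, abs_of_pos (Real.exp_pos _)]
    have h3 : Real.exp (φ z / 2) * Real.exp (-φ z / 2) = 1 := by
      rw [← Real.exp_add, show φ z / 2 + -φ z / 2 = 0 by ring, Real.exp_zero]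
    calc ‖b z‖ * ‖c z‖ = ‖c z‖ * ‖b z‖ * 1 := by ring
      _ = ‖c z‖ * ‖b z‖ * (Real.exp (φ z / 2) * Real.exp (-φ z / 2)) := by rw [h3]
      _ = _ := by ring
  rw [h2, Real.norm_eq_abs, abs_of_nonneg (by positivity)]
  exact mul_le_mul_of_nonneg_right (hC z) (by positivity)

private theorem cl_comp_int {n : ℕ} {φ : Cn n → ℝ} (hφ : Continuous φ) {β : Cn n → Cn n}
    (hβm : AEStronglyMeasurable β volume)
    (hβ : Integrable (fun z => ‖β z‖ ^ 2 * Real.exp (-φ z)) volume) (j : Fin n) :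
    AEStronglyMeasurable (fun z => β z j) volume ∧
      Integrable (fun z => ‖β z j‖ ^ 2 * Real.exp (-φ z)) volume := by
  have h1 : AEStronglyMeasurable (fun z => β z j) volume := by
    have h2 : Continuous (fun x : Cn n => x j) := by fun_prop
    exact h2.comp_aestronglyMeasurable hβm
  have hE : Continuous (fun z => Real.exp (-φ z)) := by fun_prop
  refine ⟨h1, hβ.mono' ((h1.norm.pow 2).mul hE.aestronglyMeasurable)
    (Filter.Eventually.of_forall fun z => ?_)⟩
  rw [Real.norm_eq_abs, abs_of_nonneg (by positivity)]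
  have h3 : ‖β z j‖ ≤ ‖β z‖ := PiLp.norm_apply_le (β z) j
  exact mul_le_mul_of_nonneg_right (pow_le_pow_left₀ (norm_nonneg _) h3 2) (Real.exp_pos _).le

private theorem cl_lev_cont {n : ℕ} {φ : Cn n → ℝ} (hφ : ContDiff ℝ ∞ φ) {α : Fin n → Cn n → ℂ}
    (hα : ∀ j, Continuous (α j)) : Continuous (fun z => lev φ z (vec (fun j => α j z))) := by
  have hφc : ContDiff ℝ ∞ (fun w => (φ w : ℂ)) := Complex.ofRealCLM.contDiff.comp hφ
  have h1 : Continuous (fun z => ((lev φ z (vec (fun j => α j z)) : ℝ) : ℂ)) := by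
    simp only [lev_eq hφ]
    refine continuous_finsetSum _ fun j _ => continuous_finsetSum _ fun k _ => ?_
    have h2 : Continuous (db k (dd j (fun w => (φ w : ℂ)))) := (smooth_db (smooth_dd hφc j) k).continuous
    have h3 : ∀ i, Continuous (fun z => (vec (fun j => α j z) : Cn n) i) := fun i => hα i
    exact (h2.mul (h3 j)).mul (Complex.continuous_conj.comp (h3 k))
  have h4 := Complex.continuous_re.comp h1
  exact h4

/-- the inequality after cutting off -/
private theorem cl_cut {n : ℕ} {φ : Cn n → ℝ} (hφ : ContDiff ℝ ∞ φ) {κ : Cn n → ℝ}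
    (hκc : Continuous κ) (hκ0 : ∀ z, 0 < κ z) (hκ : ∀ z ξ, κ z * ‖ξ‖ ^ 2 ≤ lev φ z ξ)
    {β : Cn n → Cn n} (hβm : AEStronglyMeasurable β volume)
    (hβ : Integrable (fun z => ‖β z‖ ^ 2 * Real.exp (-φ z)) volume)
    (hcl : ∀ j k : Fin n, ∀ f : Cn n → ℂ, Tst f →
      ∫ z, (β z k * db j f z - β z j * db k f z) = 0)
    {g : Cn n → ℂ} (hgm : AEStronglyMeasurable g volume)
    (hg : Integrable (fun z => ‖g z‖ ^ 2 * Real.exp (-φ z)) volume)
    (hadj : ∀ f : Cn n → ℂ, Tst f →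
      ∫ z, ∑ j, β z j * (dd j f z + dd j (fun w => (φ w : ℂ)) z * f z) = ∫ z, g z * f z)
    {θ : Cn n → ℂ} (hθ : Tst θ) :
    (∀ j, Integrable (fun z => (κ z * Real.exp (-φ z)) * ‖β z j * θ z‖ ^ 2) volume) ∧
    Integrable (fun z => Real.exp (-φ z) * ‖g z * θ z - ∑ j, β z j * dd j θ z‖ ^ 2) volume ∧
    (∀ j k, Integrable (fun z => Real.exp (-φ z) *
      ‖β z k * db j θ z - β z j * db k θ z‖ ^ 2) volume) ∧
    ∑ j, ∫ z, (κ z * Real.exp (-φ z)) * ‖β z j * θ z‖ ^ 2 ≤
      (∫ z, Real.exp (-φ z) * ‖g z * θ z - ∑ j, β z j * dd j θ z‖ ^ 2) +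
      (1 / 2) * ∑ j, ∑ k, ∫ z, Real.exp (-φ z) * ‖β z k * db j θ z - β z j * db k θ z‖ ^ 2 := by
  classical
  have hφ0 : Continuous φ := hφ.continuous
  have hE : Continuous (fun z => Real.exp (-φ z)) := by fun_prop
  have hφc : ContDiff ℝ ∞ (fun w => (φ w : ℂ)) := Complex.ofRealCLM.contDiff.comp hφ
  have hθc : Continuous θ := hθ.smooth.continuous
  have hddθ : ∀ j, Tst (dd j θ) := fun j => hθ.dd j
  have hdbθ : ∀ j, Tst (db j θ) := fun j => hθ.db j
  have hφj : ∀ j, Continuous (dd j (fun w => (φ w : ℂ))) := fun j => (smooth_dd hφc j).continuous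
  have hβj := fun j => cl_comp_int hφ0 hβm hβ j
  -- the compact set
  set K : Set (Cn n) := tsupport θ with hKdef
  have hK : IsCompact K := hθ.supp
  have hθ0 : ∀ z ∉ K, θ z = 0 := fun z hz => image_eq_zero_of_notMem_tsupport hz
  have hdd0 : ∀ j, ∀ z ∉ K, dd j θ z = 0 := by
    intro j z hz
    have h1 : fderiv ℝ θ z = 0 := by
      have : z ∉ tsupport (fderiv ℝ θ) := fun h => hz (tsupport_fderiv_subset ℝ h)
      exact image_eq_zero_of_notMem_tsupport this
    simp [dd, h1]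
  have hdb0 : ∀ j, ∀ z ∉ K, db j θ z = 0 := by
    intro j z hz
    have h1 : fderiv ℝ θ z = 0 := by
      have : z ∉ tsupport (fderiv ℝ θ) := fun h => hz (tsupport_fderiv_subset ℝ h)
      exact image_eq_zero_of_notMem_tsupport this
    simp [db, h1]
  -- square integrability
  have mG : ∀ j, MemLp (fun z => β z j * θ z) 2 volume := fun j =>
    cl_memLp hφ0 (hβj j).1 (hβj j).2 hθc hθ.supp
  have mg : MemLp (fun z => g z * θ z) 2 volume := cl_memLp hφ0 hgm hg hθc hθ.supp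
  have mD : ∀ i j, MemLp (fun z => β z i * dd j θ z) 2 volume := fun i j =>
    cl_memLp hφ0 (hβj i).1 (hβj i).2 (hddθ j).smooth.continuous (hddθ j).supp
  have mB : ∀ i j, MemLp (fun z => β z i * db j θ z) 2 volume := fun i j =>
    cl_memLp hφ0 (hβj i).1 (hβj i).2 (hdbθ j).smooth.continuous (hdbθ j).supp
  have mP : ∀ j, MemLp (fun z => β z j * (θ z * dd j (fun w => (φ w : ℂ)) z)) 2 volume := fun j =>
    cl_memLp hφ0 (hβj j).1 (hβj j).2 (hθc.mul (hφj j)) (hθ.supp.mul_right)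
  set W : Cn n → ℂ := fun z => - (g z * θ z) +
    (∑ j, β z j * (θ z * dd j (fun w => (φ w : ℂ)) z) + ∑ j, β z j * dd j θ z) with hW
  have mW : MemLp W 2 volume := mg.neg.add
    ((memLp_finsetSum _ fun j _ => mP j).add (memLp_finsetSum _ fun j _ => mD j j))
  have sG : ∀ j, ∀ z ∉ K, β z j * θ z = 0 := fun j z hz => by rw [hθ0 z hz, mul_zero]
  have sW : ∀ z ∉ K, W z = 0 := by
    intro z hz
    simp only [hW, hθ0 z hz, hdd0 _ z hz, zero_mul, mul_zero, Finset.sum_const_zero, neg_zero, add_zero]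
  have mV : ∀ j k, MemLp (fun z => β z k * db j θ z - β z j * db k θ z) 2 volume := fun j k =>
    (mB k j).sub (mB j k)
  have sV : ∀ j k, ∀ z ∉ K, β z k * db j θ z - β z j * db k θ z = 0 := fun j k z hz => by
    rw [hdb0 j z hz, hdb0 k z hz]; ring
  -- weak identities
  have wk1 : ∀ f : Cn n → ℂ, Tst f →
      ∫ z, ∑ j, (β z j * θ z) * dd j f z = - ∫ z, W z * f z := by
    intro f hf
    have hff : MemLp f 2 volume := hf.smooth.continuous.memLp_of_hasCompactSupport hf.supp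
    have hdf : ∀ j, MemLp (dd j f) 2 volume := fun j =>
      (hf.dd j).smooth.continuous.memLp_of_hasCompactSupport (hf.dd j).supp
    have i1 : Integrable (fun z => ∑ j, (β z j * θ z) * dd j f z) volume :=
      integrable_finsetSum _ fun j _ => (mG j).integrable_mul (hdf j)
    have i2 : Integrable (fun z => W z * f z) volume := mW.integrable_mul hff
    have i3 : Integrable (fun z => g z * (θ z * f z)) volume := by
      have := mg.integrable_mul hff
      refine this.congr (Filter.Eventually.of_forall fun z => ?_)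
      show g z * θ z * f z = g z * (θ z * f z)
      ring
    have h1 := hadj (fun z => θ z * f z) (hθ.mul_smooth hf.smooth)
    have h2 : ∀ z, ∑ j, β z j * (dd j (fun z => θ z * f z) z +
        dd j (fun w => (φ w : ℂ)) z * (θ z * f z)) =
        (∑ j, (β z j * θ z) * dd j f z + W z * f z) + g z * (θ z * f z) := by
      intro z
      simp only [dd_mul hθ.smooth hf.smooth, hW]
      rw [add_mul, add_mul, Finset.sum_mul, Finset.sum_mul]
      have h3 : ∀ j, β z j * (dd j θ z * f z + θ z * dd j f z +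
          dd j (fun w => (φ w : ℂ)) z * (θ z * f z)) =
          β z j * θ z * dd j f z + (β z j * (θ z * dd j (fun w => (φ w : ℂ)) z) * f z +
          β z j * dd j θ z * f z) := by intro j; ring
      simp only [h3]
      rw [Finset.sum_add_distrib, Finset.sum_add_distrib]
      ring
    simp only [h2] at h1
    have i12 : Integrable (fun z => ∑ j, (β z j * θ z) * dd j f z + W z * f z) volume := i1.add i2
    rw [integral_add i12 i3] at h1
    have h4 : ∫ z, (∑ j, (β z j * θ z) * dd j f z + W z * f z) = 0 := by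
      simpa using h1
    rw [integral_add i1 i2] at h4
    exact eq_neg_of_add_eq_zero_left h4
  have wk2 : ∀ j k, ∀ f : Cn n → ℂ, Tst f →
      ∫ z, ((β z k * θ z) * db j f z - (β z j * θ z) * db k f z) =
        - ∫ z, (β z k * db j θ z - β z j * db k θ z) * f z := by
    intro j k f hf
    have hff : MemLp f 2 volume := hf.smooth.continuous.memLp_of_hasCompactSupport hf.supp
    have hdf : ∀ j, MemLp (db j f) 2 volume := fun j =>
      (hf.db j).smooth.continuous.memLp_of_hasCompactSupport (hf.db j).supp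
    have i1 : Integrable (fun z => (β z k * θ z) * db j f z - (β z j * θ z) * db k f z) volume :=
      ((mG k).integrable_mul (hdf j)).sub ((mG j).integrable_mul (hdf k))
    have i2 : Integrable (fun z => (β z k * db j θ z - β z j * db k θ z) * f z) volume :=
      (mV j k).integrable_mul hff
    have h1 := hcl j k (fun z => θ z * f z) (hθ.mul_smooth hf.smooth)
    have h2 : ∀ z, β z k * db j (fun z => θ z * f z) z - β z j * db k (fun z => θ z * f z) z =
        ((β z k * θ z) * db j f z - (β z j * θ z) * db k f z) +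
        (β z k * db j θ z - β z j * db k θ z) * f z := by
      intro z
      simp only [db_mul hθ.smooth hf.smooth]
      ring
    simp only [h2] at h1
    rw [integral_add i1 i2] at h1
    exact eq_neg_of_add_eq_zero_left h1
  -- mollification
  obtain ⟨mol, hmol⟩ := moll_exists n
  obtain ⟨K', hK', hKK', m1, m2, m3, m4⟩ := hmol K hK
  have cv : ∀ G : Cn n → ℂ, MemLp G 2 volume → (∀ z ∉ K, G z = 0) → Cvl K' (fun k => mol k G) G := by
    intro G hG hs
    exact ⟨fun k => (m1 G hG hs k).1.smooth.continuous.memLp_of_hasCompactSupport (m1 G hG hs k).1.supp,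
      hG, fun k => (m1 G hG hs k).2, fun z hz => hs z fun h => hz (hKK' h), m2 G hG hs⟩
  have cG := fun j => cv _ (mG j) (sG j)
  have cW := cv _ mW sW
  have cV := fun j k => cv _ (mV j k) (sV j k)
  have cA : Cvl K' (fun m z => (-1 : ℂ) * mol m W z +
      ∑ j, dd j (fun w => (φ w : ℂ)) z * mol m (fun z => β z j * θ z) z)
      (fun z => (-1 : ℂ) * W z + ∑ j, dd j (fun w => (φ w : ℂ)) z * (β z j * θ z)) :=
    (cW.mul hK' continuous_const).add (Cvl.sum _ fun j _ => (cG j).mul hK' (hφj j))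
  have hlimval : ∀ z, (-1 : ℂ) * W z + ∑ j, dd j (fun w => (φ w : ℂ)) z * (β z j * θ z) =
      g z * θ z - ∑ j, β z j * dd j θ z := by
    intro z
    simp only [hW]
    have : ∑ j, dd j (fun w => (φ w : ℂ)) z * (β z j * θ z) =
      ∑ j, β z j * (θ z * dd j (fun w => (φ w : ℂ)) z) := Finset.sum_congr rfl fun j _ => by ring
    rw [this]; ring
  have hwc : Continuous (fun z => κ z * Real.exp (-φ z)) := hκc.mul hE
  have hw0 : ∀ z, 0 ≤ κ z * Real.exp (-φ z) := fun z => (mul_pos (hκ0 z) (Real.exp_pos _)).le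
  refine ⟨fun j => cl_int hK (mG j) (sG j) hwc, ?_, fun j k => cl_int hK (mV j k) (sV j k) hE, ?_⟩
  · have := cl_int hK' cA.mv cA.sv hE
    simpa only [hlimval] using this
  have L1 := tendsto_finsetSum Finset.univ (fun j _ => (cG j).wsq hK' hwc hw0)
  have L2 := cA.wsq hK' hE (fun z => (Real.exp_pos _).le)
  have L3 := tendsto_finsetSum Finset.univ (fun j _ => tendsto_finsetSum Finset.univ
    (fun k _ => (cV j k).wsq hK' hE (fun z => (Real.exp_pos _).le)))
  simp only [hlimval] at L2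
  refine le_of_tendsto_of_tendsto' L1 (L2.add (L3.const_mul (1 / 2 : ℝ))) fun m => ?_
  have hT : ∀ j, Tst (mol m (fun z => β z j * θ z)) := fun j => (m1 _ (mG j) (sG j) m).1
  have hB := basic_ineq hφ hT
  have e1 : ∀ z, adj φ (fun j => mol m (fun z => β z j * θ z)) z = (-1 : ℂ) * mol m W z +
      ∑ j, dd j (fun w => (φ w : ℂ)) z * mol m (fun z => β z j * θ z) z := by
    intro z
    unfold adj
    rw [Finset.sum_sub_distrib, m3 (fun j z => β z j * θ z) W mG mW sG sW wk1 m z]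
    ring
  have e2 : ∀ j k z, db j (mol m (fun z => β z k * θ z)) z - db k (mol m (fun z => β z j * θ z)) z =
      mol m (fun z => β z k * db j θ z - β z j * db k θ z) z := by
    intro j k z
    exact m4 _ _ _ j k (mG k) (mG j) (mV j k) (sG k) (sG j) (sV j k) (wk2 j k) m z
  simp only [e1, e2] at hB
  have e3 : ∑ j, ∫ z, (κ z * Real.exp (-φ z)) * ‖mol m (fun z => β z j * θ z) z‖ ^ 2 ≤
      ∫ z, lev φ z (vec (fun j => mol m (fun z => β z j * θ z) z)) * Real.exp (-φ z) := by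
    have i4 : ∀ j, Integrable (fun z => (κ z * Real.exp (-φ z)) *
        ‖mol m (fun z => β z j * θ z) z‖ ^ 2) volume := fun j =>
      cl_int hK' ((cG j).mu m) ((cG j).sk m) hwc
    rw [← integral_finsetSum _ fun j _ => i4 j]
    refine integral_mono (integrable_finsetSum _ fun j _ => i4 j) ?_ ?_
    · have hcont : Continuous (fun z => lev φ z (vec (fun j => mol m (fun z => β z j * θ z) z)) *
          Real.exp (-φ z)) := (cl_lev_cont hφ fun j => (hT j).smooth.continuous).mul hE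
      refine hcont.integrable_of_hasCompactSupport ?_
      refine HasCompactSupport.intro hK' fun z hz => ?_
      have h5 : vec (fun j => mol m (fun z => β z j * θ z) z) = (0 : Cn n) := by
        have h6 : (fun j => mol m (fun z => β z j * θ z) z) = fun _ => (0 : ℂ) := by
          funext j; exact (cG j).sk m z hz
        rw [h6]; rfl
      rw [h5]
      simp [lev]
    · intro z
      show ∑ j, (κ z * Real.exp (-φ z)) * ‖mol m (fun z => β z j * θ z) z‖ ^ 2 ≤ _
      have h7 := hκ z (vec (fun j => mol m (fun z => β z j * θ z) z))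
      have h8 : ‖(vec (fun j => mol m (fun z => β z j * θ z) z) : Cn n)‖ ^ 2 =
          ∑ j, ‖mol m (fun z => β z j * θ z) z‖ ^ 2 := by
        rw [EuclideanSpace.norm_sq_eq]
        rfl
      rw [h8] at h7
      rw [← Finset.mul_sum]
      calc κ z * Real.exp (-φ z) * ∑ j, ‖mol m (fun z => β z j * θ z) z‖ ^ 2 =
          (κ z * ∑ j, ‖mol m (fun z => β z j * θ z) z‖ ^ 2) * Real.exp (-φ z) := by ring
        _ ≤ _ := mul_le_mul_of_nonneg_right h7 (Real.exp_pos _).le
  refine e3.trans (hB.trans (le_of_eq ?_))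
  simp only [mul_comm (Real.exp _)]

private theorem cl_norm_dd {n : ℕ} (θ : Cn n → ℂ) (j : Fin n) (z : Cn n) :
    ‖dd j θ z‖ ≤ ‖fderiv ℝ θ z‖ ∧ ‖db j θ z‖ ≤ ‖fderiv ℝ θ z‖ := by
  have hb : ‖bv n j‖ = 1 := by simp [bv]
  have h1 : ‖fderiv ℝ θ z (bv n j)‖ ≤ ‖fderiv ℝ θ z‖ := by
    have := (fderiv ℝ θ z).le_opNorm (bv n j)
    rwa [hb, mul_one] at this
  have h2 : ‖fderiv ℝ θ z (Complex.I • bv n j)‖ ≤ ‖fderiv ℝ θ z‖ := by
    have := (fderiv ℝ θ z).le_opNorm (Complex.I • bv n j)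
    rwa [norm_smul, Complex.norm_I, one_mul, hb, mul_one] at this
  have h3 : ‖Complex.I * fderiv ℝ θ z (Complex.I • bv n j)‖ ≤ ‖fderiv ℝ θ z‖ := by
    rw [norm_mul, Complex.norm_I, one_mul]; exact h2
  constructor
  · unfold dd
    rw [norm_div, Complex.norm_ofNat]
    have := norm_sub_le (fderiv ℝ θ z (bv n j)) (Complex.I * fderiv ℝ θ z (Complex.I • bv n j))
    linarith
  · unfold db
    rw [norm_div, Complex.norm_ofNat]
    have := norm_add_le (fderiv ℝ θ z (bv n j)) (Complex.I * fderiv ℝ θ z (Complex.I • bv n j))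
    linarith

private theorem cl_cutoff (n : ℕ) : ∃ C : ℝ, 0 ≤ C ∧ ∀ r : ℝ, 0 < r → ∃ θ : Cn n → ℂ, Tst θ ∧
    (∀ z, ‖θ z‖ ≤ 1) ∧ (∀ z, ‖z‖ ≤ 1 / r → θ z = 1) ∧
    ∀ j z, ‖dd j θ z‖ ≤ C * r ∧ ‖db j θ z‖ ≤ C * r := by
  let f : ContDiffBump (0 : Cn n) := ⟨1, 2, by norm_num, by norm_num⟩
  let χ : Cn n → ℂ := fun z => ((f z : ℝ) : ℂ)
  have hχ : ContDiff ℝ ∞ χ := Complex.ofRealCLM.contDiff.comp f.contDiff
  have hχs : HasCompactSupport χ := f.hasCompactSupport.comp_left (g := fun x : ℝ => (x : ℂ)) rfl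
  obtain ⟨C, hC⟩ := (hχs.fderiv ℝ).exists_bound_of_continuous (hχ.continuous_fderiv (by simp))
  refine ⟨C, (norm_nonneg _).trans (hC 0), fun r hr => ?_⟩
  refine ⟨fun z => χ (r • z), ⟨hχ.comp (contDiff_const_smul r), ?_⟩, ?_, ?_, ?_⟩
  · refine HasCompactSupport.intro (isCompact_closedBall (0 : Cn n) (2 / r)) fun z hz => ?_
    have h1 : 2 / r < ‖z‖ := by simpa using hz
    have h2 : (2 : ℝ) ≤ dist (r • z) 0 := by
      rw [dist_zero_right, norm_smul, Real.norm_eq_abs, abs_of_pos hr]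
      rw [div_lt_iff₀ hr] at h1
      linarith
    have h3 : f (r • z) = 0 := f.zero_of_le_dist h2
    show ((f (r • z) : ℝ) : ℂ) = 0
    rw [h3]; rfl
  · intro z
    show ‖((f (r • z) : ℝ) : ℂ)‖ ≤ 1
    rw [Complex.norm_real, Real.norm_eq_abs, abs_of_nonneg f.nonneg]
    exact f.le_one
  · intro z hz
    have h1 : r • z ∈ closedBall (0 : Cn n) 1 := by
      rw [mem_closedBall, dist_zero_right, norm_smul, Real.norm_eq_abs, abs_of_pos hr]
      rw [le_div_iff₀ hr] at hz
      linarith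
    show ((f (r • z) : ℝ) : ℂ) = 1
    rw [f.one_of_mem_closedBall h1]; rfl
  · have key : ∀ z, ‖fderiv ℝ (fun z => χ (r • z)) z‖ ≤ C * r := by
      intro z
      have h1 : HasFDerivAt χ (fderiv ℝ χ (r • z)) (r • z) :=
        (hχ.differentiable (by simp) (r • z)).hasFDerivAt
      have h2 : HasFDerivAt (fun z : Cn n => r • z) (r • ContinuousLinearMap.id ℝ (Cn n)) z :=
        (hasFDerivAt_id z).const_smul r
      have h3 := h1.comp z h2
      have h4 : fderiv ℝ (fun z => χ (r • z)) z =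
          (fderiv ℝ χ (r • z)).comp (r • ContinuousLinearMap.id ℝ (Cn n)) := h3.fderiv
      rw [h4]
      refine (ContinuousLinearMap.opNorm_comp_le _ _).trans ?_
      refine mul_le_mul (hC _) ?_ (norm_nonneg _) ((norm_nonneg _).trans (hC 0))
      rw [norm_smul, Real.norm_eq_abs, abs_of_pos hr]
      have := ContinuousLinearMap.norm_id_le (𝕜 := ℝ) (E := Cn n)
      nlinarith
    intro j z
    exact ⟨(cl_norm_dd _ j z).1.trans (key z), (cl_norm_dd _ j z).2.trans (key z)⟩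

private theorem cl_bound {n : ℕ} {φ : Cn n → ℝ} (hφ : ContDiff ℝ ∞ φ) {κ : Cn n → ℝ}
    (hκc : Continuous κ) (hκ0 : ∀ z, 0 < κ z) (hκ : ∀ z ξ, κ z * ‖ξ‖ ^ 2 ≤ lev φ z ξ)
    {β : Cn n → Cn n} (hβm : AEStronglyMeasurable β volume)
    (hβ : Integrable (fun z => ‖β z‖ ^ 2 * Real.exp (-φ z)) volume)
    (hcl : ∀ j k : Fin n, ∀ f : Cn n → ℂ, Tst f →
      ∫ z, (β z k * db j f z - β z j * db k f z) = 0)
    {g : Cn n → ℂ} (hgm : AEStronglyMeasurable g volume)
    (hg : Integrable (fun z => ‖g z‖ ^ 2 * Real.exp (-φ z)) volume)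
    (hadj : ∀ f : Cn n → ℂ, Tst f →
      ∫ z, ∑ j, β z j * (dd j f z + dd j (fun w => (φ w : ℂ)) z * f z) = ∫ z, g z * f z) :
    ∃ T : ℝ, ∀ r : ℝ, 0 < r → r ≤ 1 →
      ∫⁻ z in closedBall (0 : Cn n) (1 / r), ENNReal.ofReal (κ z * ‖β z‖ ^ 2 * Real.exp (-φ z)) ≤
        ENNReal.ofReal ((∫ z, ‖g z‖ ^ 2 * Real.exp (-φ z)) + r * T) := by
  obtain ⟨C, hC, hcut⟩ := cl_cutoff n
  set Ig := ∫ z, ‖g z‖ ^ 2 * Real.exp (-φ z) with hIg
  set Ib := ∫ z, ‖β z‖ ^ 2 * Real.exp (-φ z) with hIb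
  have hIb0 : 0 ≤ Ib := integral_nonneg fun z => by positivity
  have hIg0 : 0 ≤ Ig := integral_nonneg fun z => by positivity
  refine ⟨Ig + 4 * ((n : ℝ) * C) ^ 2 * Ib, fun r hr hr1 => ?_⟩
  obtain ⟨θ, hθ, hθ1, hθb, hθd⟩ := hcut r hr
  obtain ⟨i1, i2, i3, hmain⟩ := cl_cut hφ hκc hκ0 hκ hβm hβ hcl hgm hg hadj hθ
  -- right-hand side
  have b1 : ∫ z, Real.exp (-φ z) * ‖g z * θ z - ∑ j, β z j * dd j θ z‖ ^ 2 ≤
      (1 + r) * Ig + 2 * ((n : ℝ) * C) ^ 2 * r * Ib := by
    have h1 : ∫ z, Real.exp (-φ z) * ‖g z * θ z - ∑ j, β z j * dd j θ z‖ ^ 2 ≤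
        ∫ z, ((1 + r) * (‖g z‖ ^ 2 * Real.exp (-φ z)) +
          2 * ((n : ℝ) * C) ^ 2 * r * (‖β z‖ ^ 2 * Real.exp (-φ z))) := by
      refine integral_mono i2 ((hg.const_mul _).add (hβ.const_mul _)) fun z => ?_
      have h2 : ‖∑ j, β z j * dd j θ z‖ ≤ (n : ℝ) * C * r * ‖β z‖ := by
        refine (norm_sum_le _ _).trans ?_
        have h3 : ∀ j ∈ (Finset.univ : Finset (Fin n)), ‖β z j * dd j θ z‖ ≤ ‖β z‖ * (C * r) := by
          intro j _
          rw [norm_mul]
          exact mul_le_mul (PiLp.norm_apply_le (β z) j) (hθd j z).1 (norm_nonneg _) (norm_nonneg _)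
        refine (Finset.sum_le_sum h3).trans (le_of_eq ?_)
        rw [Finset.sum_const, Finset.card_univ, Fintype.card_fin, nsmul_eq_mul]
        ring
      have h4 : ‖g z * θ z‖ ≤ ‖g z‖ := by
        rw [norm_mul]; exact mul_le_of_le_one_right (norm_nonneg _) (hθ1 z)
      have h5 : ‖g z * θ z - ∑ j, β z j * dd j θ z‖ ≤ ‖g z‖ + (n : ℝ) * C * r * ‖β z‖ :=
        (norm_sub_le _ _).trans (add_le_add h4 h2)
      have h6 : ‖g z * θ z - ∑ j, β z j * dd j θ z‖ ^ 2 ≤
          (1 + r) * ‖g z‖ ^ 2 + 2 * ((n : ℝ) * C) ^ 2 * r * ‖β z‖ ^ 2 := by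
        refine (pow_le_pow_left₀ (norm_nonneg _) h5 2).trans ?_
        have h7 : 0 ≤ r * (‖g z‖ - (n : ℝ) * C * ‖β z‖) ^ 2 := by positivity
        have h8 : (n : ℝ) * C * r * ‖β z‖ * ((n : ℝ) * C * r * ‖β z‖) ≤
            ((n : ℝ) * C) ^ 2 * r * ‖β z‖ ^ 2 := by
          have : (n : ℝ) * C * r * ‖β z‖ * ((n : ℝ) * C * r * ‖β z‖) =
            (((n : ℝ) * C) ^ 2 * r * ‖β z‖ ^ 2) * r := by ring
          rw [this]
          exact mul_le_of_le_one_right (by positivity) hr1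
        nlinarith
      have h9 := mul_le_mul_of_nonneg_left h6 (Real.exp_pos (-φ z)).le
      show Real.exp (-φ z) * ‖g z * θ z - ∑ j, β z j * dd j θ z‖ ^ 2 ≤ _
      refine h9.trans (le_of_eq ?_)
      ring
    refine h1.trans (le_of_eq ?_)
    rw [integral_add (hg.const_mul _) (hβ.const_mul _), integral_const_mul, integral_const_mul]
  have b2 : ∀ j k, ∫ z, Real.exp (-φ z) * ‖β z k * db j θ z - β z j * db k θ z‖ ^ 2 ≤
      4 * C ^ 2 * r * Ib := by
    intro j k
    have h1 : ∫ z, Real.exp (-φ z) * ‖β z k * db j θ z - β z j * db k θ z‖ ^ 2 ≤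
        ∫ z, 4 * C ^ 2 * r * (‖β z‖ ^ 2 * Real.exp (-φ z)) := by
      refine integral_mono (i3 j k) (hβ.const_mul _) fun z => ?_
      have h3 : ∀ i i', ‖β z i * db i' θ z‖ ≤ ‖β z‖ * (C * r) := by
        intro i i'
        rw [norm_mul]
        exact mul_le_mul (PiLp.norm_apply_le (β z) i) (hθd i' z).2 (norm_nonneg _) (norm_nonneg _)
      have h4 : ‖β z k * db j θ z - β z j * db k θ z‖ ≤ 2 * (‖β z‖ * (C * r)) :=
        (norm_sub_le _ _).trans (by linarith [h3 k j, h3 j k])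
      have h5 : ‖β z k * db j θ z - β z j * db k θ z‖ ^ 2 ≤ 4 * C ^ 2 * r * ‖β z‖ ^ 2 := by
        refine (pow_le_pow_left₀ (norm_nonneg _) h4 2).trans ?_
        have : (2 * (‖β z‖ * (C * r))) ^ 2 = (4 * C ^ 2 * r * ‖β z‖ ^ 2) * r := by ring
        rw [this]
        exact mul_le_of_le_one_right (by positivity) hr1
      have h9 := mul_le_mul_of_nonneg_left h5 (Real.exp_pos (-φ z)).le
      show Real.exp (-φ z) * ‖β z k * db j θ z - β z j * db k θ z‖ ^ 2 ≤
        4 * C ^ 2 * r * (‖β z‖ ^ 2 * Real.exp (-φ z))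
      refine h9.trans (le_of_eq ?_)
      ring
    refine h1.trans (le_of_eq ?_)
    rw [integral_const_mul]
  have b3 : ∑ j : Fin n, ∑ k : Fin n, ∫ z, Real.exp (-φ z) *
      ‖β z k * db j θ z - β z j * db k θ z‖ ^ 2 ≤ (n : ℝ) * ((n : ℝ) * (4 * C ^ 2 * r * Ib)) := by
    refine (Finset.sum_le_sum fun j _ => Finset.sum_le_sum fun k _ => b2 j k).trans (le_of_eq ?_)
    simp [Finset.sum_const, Finset.card_univ, nsmul_eq_mul]
  have b4 : ∑ j, ∫ z, (κ z * Real.exp (-φ z)) * ‖β z j * θ z‖ ^ 2 ≤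
      Ig + r * (Ig + 4 * ((n : ℝ) * C) ^ 2 * Ib) := by
    refine hmain.trans ?_
    have h1 : (1 / 2 : ℝ) * ((n : ℝ) * ((n : ℝ) * (4 * C ^ 2 * r * Ib))) =
        2 * ((n : ℝ) * C) ^ 2 * r * Ib := by ring
    nlinarith [b1, b3]
  -- left-hand side
  have iS : Integrable (fun z => ∑ j, (κ z * Real.exp (-φ z)) * ‖β z j * θ z‖ ^ 2) volume :=
    integrable_finsetSum _ fun j _ => i1 j
  have hS0 : ∀ z, 0 ≤ ∑ j, (κ z * Real.exp (-φ z)) * ‖β z j * θ z‖ ^ 2 := fun z =>
    Finset.sum_nonneg fun j _ => mul_nonneg (mul_pos (hκ0 z) (Real.exp_pos _)).le (by positivity)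
  have c1 : ∫⁻ z in closedBall (0 : Cn n) (1 / r),
      ENNReal.ofReal (κ z * ‖β z‖ ^ 2 * Real.exp (-φ z)) ≤
      ∫⁻ z in closedBall (0 : Cn n) (1 / r),
        ENNReal.ofReal (∑ j, (κ z * Real.exp (-φ z)) * ‖β z j * θ z‖ ^ 2) := by
    refine setLIntegral_mono_ae' measurableSet_closedBall
      (Filter.Eventually.of_forall fun z hz => ENNReal.ofReal_le_ofReal (le_of_eq ?_))
    have h1 : θ z = 1 := hθb z (by simpa using hz)
    rw [h1]
    simp only [mul_one]
    rw [← Finset.mul_sum, ← EuclideanSpace.norm_sq_eq]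
    ring
  refine c1.trans ((setLIntegral_le_lintegral _ _).trans ?_)
  rw [← ofReal_integral_eq_lintegral_ofReal iS (Filter.Eventually.of_forall hS0),
    integral_finsetSum _ fun j _ => i1 j]
  exact ENNReal.ofReal_le_ofReal b4

theorem closed_ineq {n : ℕ} {φ : Cn n → ℝ} (hφ : ContDiff ℝ ∞ φ) {κ : Cn n → ℝ}
    (hκc : Continuous κ) (hκ0 : ∀ z, 0 < κ z) (hκ : ∀ z ξ, κ z * ‖ξ‖ ^ 2 ≤ lev φ z ξ)
    {β : Cn n → Cn n} (hβm : AEStronglyMeasurable β volume)
    (hβ : Integrable (fun z => ‖β z‖ ^ 2 * Real.exp (-φ z)) volume)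
    (hcl : ∀ j k : Fin n, ∀ f : Cn n → ℂ, Tst f →
      ∫ z, (β z k * db j f z - β z j * db k f z) = 0)
    {g : Cn n → ℂ} (hgm : AEStronglyMeasurable g volume)
    (hg : Integrable (fun z => ‖g z‖ ^ 2 * Real.exp (-φ z)) volume)
    (hadj : ∀ f : Cn n → ℂ, Tst f →
      ∫ z, ∑ j, β z j * (dd j f z + dd j (fun w => (φ w : ℂ)) z * f z) = ∫ z, g z * f z) :
    Integrable (fun z => κ z * ‖β z‖ ^ 2 * Real.exp (-φ z)) volume ∧
      ∫ z, κ z * ‖β z‖ ^ 2 * Real.exp (-φ z) ≤ ∫ z, ‖g z‖ ^ 2 * Real.exp (-φ z) := by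
  obtain ⟨T, hT⟩ := cl_bound hφ hκc hκ0 hκ hβm hβ hcl hgm hg hadj
  set Ig := ∫ z, ‖g z‖ ^ 2 * Real.exp (-φ z) with hIg
  have hIg0 : 0 ≤ Ig := integral_nonneg fun z => by positivity
  have hE : Continuous (fun z => Real.exp (-φ z)) := by
    have := hφ.continuous
    fun_prop
  have hm : AEStronglyMeasurable (fun z => κ z * ‖β z‖ ^ 2 * Real.exp (-φ z)) volume :=
    (hκc.aestronglyMeasurable.mul (hβm.norm.pow 2)).mul hE.aestronglyMeasurable
  have h0 : ∀ z, 0 ≤ κ z * ‖β z‖ ^ 2 * Real.exp (-φ z) := fun z =>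
    mul_nonneg (mul_nonneg (hκ0 z).le (by positivity)) (Real.exp_pos _).le
  have h1 : ∀ m : ℕ, ∫⁻ z in closedBall (0 : Cn n) m,
      ENNReal.ofReal (κ z * ‖β z‖ ^ 2 * Real.exp (-φ z)) ≤ ENNReal.ofReal Ig := by
    intro m
    have hlim : Filter.Tendsto (fun k : ℕ => ENNReal.ofReal (Ig + 1 / ((k : ℝ) + 1) * T))
        Filter.atTop (𝓝 (ENNReal.ofReal Ig)) := by
      apply ENNReal.tendsto_ofReal
      have := (tendsto_one_div_add_atTop_nhds_zero_nat (𝕜 := ℝ)).mul_const T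
      simpa using (tendsto_const_nhds (x := Ig)).add this
    refine ge_of_tendsto hlim ?_
    filter_upwards [Filter.eventually_ge_atTop m] with k hk
    have hk0 : (0 : ℝ) < (k : ℝ) + 1 := by positivity
    refine le_trans ?_ (hT (1 / ((k : ℝ) + 1)) (by positivity) (by
      rw [div_le_one hk0]; linarith [Nat.cast_nonneg (α := ℝ) k]))
    apply lintegral_mono_set
    apply closedBall_subset_closedBall
    rw [one_div_one_div]
    have : (m : ℝ) ≤ k := by exact_mod_cast hk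
    linarith
  have h2 : ∫⁻ z, ENNReal.ofReal (κ z * ‖β z‖ ^ 2 * Real.exp (-φ z)) ≤ ENNReal.ofReal Ig := by
    rw [← setLIntegral_univ, ← iUnion_closedBall_nat (0 : Cn n),
      setLIntegral_iUnion_of_directed]
    · exact iSup_le h1
    · intro a b
      refine ⟨max a b, closedBall_subset_closedBall ?_, closedBall_subset_closedBall ?_⟩
      · exact_mod_cast le_max_left a b
      · exact_mod_cast le_max_right a b
  have h3 : Integrable (fun z => κ z * ‖β z‖ ^ 2 * Real.exp (-φ z)) volume := by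
    refine ⟨hm, ?_⟩
    rw [hasFiniteIntegral_iff_ofReal (Filter.Eventually.of_forall h0)]
    exact lt_of_le_of_lt h2 ENNReal.ofReal_lt_top
  refine ⟨h3, ?_⟩
  rw [integral_eq_lintegral_of_nonneg_ae (Filter.Eventually.of_forall h0) hm]
  exact ENNReal.toReal_le_of_le_ofReal hIg0 h2

end HMA
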