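import Pool.Agent.H85.MA.Defs

/-! # Module DBAR1: Wirtinger calculus on `Cn n`, algebra -/

open MeasureTheory Metric Set
open scoped ENNReal Topology ContDiff

namespace HMA

variable {n : ℕ}

theorem Dbar1_smooth_fderiv {f : Cn n → ℂ} (hf : ContDiff ℝ ∞ f) (v : Cn n) :
    ContDiff ℝ ∞ (fun z => fderiv ℝ f z v) :=
  (hf.fderiv_right (m := ∞) le_rfl).clm_apply contDiff_const

theorem Dbar1_differentiableAt {f : Cn n → ℂ} (hf : ContDiff ℝ ∞ f) (z : Cn n) :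
    DifferentiableAt ℝ f z :=
  (hf.differentiable (by simp)).differentiableAt

theorem smooth_db {f : Cn n → ℂ} (hf : ContDiff ℝ ∞ f) (j : Fin n) : ContDiff ℝ ∞ (db j f) := by
  unfold db
  exact ((Dbar1_smooth_fderiv hf _).add
    (contDiff_const.mul (Dbar1_smooth_fderiv hf _))).div_const 2

theorem smooth_dd {f : Cn n → ℂ} (hf : ContDiff ℝ ∞ f) (j : Fin n) : ContDiff ℝ ∞ (dd j f) := by
  unfold dd
  exact ((Dbar1_smooth_fderiv hf _).sub
    (contDiff_const.mul (Dbar1_smooth_fderiv hf _))).div_const 2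

theorem Tst.mul_smooth {f g : Cn n → ℂ} (hf : Tst f) (hg : ContDiff ℝ ∞ g) :
    Tst (fun z => f z * g z) :=
  ⟨hf.smooth.mul hg, hf.supp.mul_right⟩

theorem Tst.db {f : Cn n → ℂ} (hf : Tst f) (j : Fin n) : Tst (HMA.db j f) := by
  refine ⟨smooth_db hf.smooth j, ?_⟩
  have h := (hf.supp.fderiv (𝕜 := ℝ)).comp_left
    (g := fun L : Cn n →L[ℝ] ℂ => (L (bv n j) + Complex.I * L (Complex.I • bv n j)) / 2)
    (by simp)
  exact h

theorem Tst.dd {f : Cn n → ℂ} (hf : Tst f) (j : Fin n) : Tst (HMA.dd j f) := by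
  refine ⟨smooth_dd hf.smooth j, ?_⟩
  have h := (hf.supp.fderiv (𝕜 := ℝ)).comp_left
    (g := fun L : Cn n →L[ℝ] ℂ => (L (bv n j) - Complex.I * L (Complex.I • bv n j)) / 2)
    (by simp)
  exact h

theorem Dbar1_smooth_conj {f : Cn n → ℂ} (hf : ContDiff ℝ ∞ f) :
    ContDiff ℝ ∞ (fun z => (starRingEnd ℂ) (f z)) :=
  Complex.conjCLE.contDiff.comp hf

theorem Tst.conj {f : Cn n → ℂ} (hf : Tst f) : Tst (fun z => (starRingEnd ℂ) (f z)) :=
  ⟨Dbar1_smooth_conj hf.smooth, hf.supp.comp_left (g := fun w => (starRingEnd ℂ) w) (map_zero _)⟩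

theorem Dbar1_fderiv_conj {f : Cn n → ℂ} (hf : ContDiff ℝ ∞ f) (z v : Cn n) :
    fderiv ℝ (fun z => (starRingEnd ℂ) (f z)) z v = (starRingEnd ℂ) (fderiv ℝ f z v) := by
  have h1 := (Complex.conjCLE.toContinuousLinearMap.hasFDerivAt (x := f z)).comp z
    (Dbar1_differentiableAt hf z).hasFDerivAt
  have h2 : HasFDerivAt (fun z => (starRingEnd ℂ) (f z))
      (Complex.conjCLE.toContinuousLinearMap.comp (fderiv ℝ f z)) z := h1
  rw [h2.fderiv]
  rfl

theorem db_conj {f : Cn n → ℂ} (hf : ContDiff ℝ ∞ f) (j : Fin n) (z : Cn n) :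
    db j (fun z => (starRingEnd ℂ) (f z)) z = (starRingEnd ℂ) (dd j f z) := by
  unfold db dd
  rw [Dbar1_fderiv_conj hf, Dbar1_fderiv_conj hf, map_div₀, map_sub, map_mul, Complex.conj_I,
    Complex.conj_ofNat]
  ring

theorem dd_conj {f : Cn n → ℂ} (hf : ContDiff ℝ ∞ f) (j : Fin n) (z : Cn n) :
    dd j (fun z => (starRingEnd ℂ) (f z)) z = (starRingEnd ℂ) (db j f z) := by
  unfold db dd
  rw [Dbar1_fderiv_conj hf, Dbar1_fderiv_conj hf, map_div₀, map_add, map_mul, Complex.conj_I,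
    Complex.conj_ofNat]
  ring

theorem Dbar1_fderiv_mul {f g : Cn n → ℂ} (hf : ContDiff ℝ ∞ f) (hg : ContDiff ℝ ∞ g)
    (z v : Cn n) : fderiv ℝ (fun z => f z * g z) z v =
      fderiv ℝ f z v * g z + f z * fderiv ℝ g z v := by
  have h1 := (Dbar1_differentiableAt hf z).hasFDerivAt.mul (Dbar1_differentiableAt hg z).hasFDerivAt
  have h2 : HasFDerivAt (fun z => f z * g z) (f z • fderiv ℝ g z + g z • fderiv ℝ f z) z := h1
  rw [h2.fderiv]
  simp only [_root_.add_apply, _root_.smul_apply, smul_eq_mul]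
  ring

theorem db_mul {f g : Cn n → ℂ} (hf : ContDiff ℝ ∞ f) (hg : ContDiff ℝ ∞ g) (j : Fin n)
    (z : Cn n) : db j (fun z => f z * g z) z = db j f z * g z + f z * db j g z := by
  unfold db
  rw [Dbar1_fderiv_mul hf hg, Dbar1_fderiv_mul hf hg]
  ring

theorem dd_mul {f g : Cn n → ℂ} (hf : ContDiff ℝ ∞ f) (hg : ContDiff ℝ ∞ g) (j : Fin n)
    (z : Cn n) : dd j (fun z => f z * g z) z = dd j f z * g z + f z * dd j g z := by
  unfold dd
  rw [Dbar1_fderiv_mul hf hg, Dbar1_fderiv_mul hf hg]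
  ring

theorem Dbar1_fderiv_add {f g : Cn n → ℂ} (hf : ContDiff ℝ ∞ f) (hg : ContDiff ℝ ∞ g)
    (z v : Cn n) : fderiv ℝ (fun z => f z + g z) z v = fderiv ℝ f z v + fderiv ℝ g z v := by
  have h1 := (Dbar1_differentiableAt hf z).hasFDerivAt.add (Dbar1_differentiableAt hg z).hasFDerivAt
  have h2 : HasFDerivAt (fun z => f z + g z) (fderiv ℝ f z + fderiv ℝ g z) z := h1
  rw [h2.fderiv, _root_.add_apply]

theorem db_add {f g : Cn n → ℂ} (hf : ContDiff ℝ ∞ f) (hg : ContDiff ℝ ∞ g) (j : Fin n)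
    (z : Cn n) : db j (fun z => f z + g z) z = db j f z + db j g z := by
  unfold db
  rw [Dbar1_fderiv_add hf hg, Dbar1_fderiv_add hf hg]
  ring

theorem dd_add {f g : Cn n → ℂ} (hf : ContDiff ℝ ∞ f) (hg : ContDiff ℝ ∞ g) (j : Fin n)
    (z : Cn n) : dd j (fun z => f z + g z) z = dd j f z + dd j g z := by
  unfold dd
  rw [Dbar1_fderiv_add hf hg, Dbar1_fderiv_add hf hg]
  ring

theorem Dbar1_fderiv_exp {f : Cn n → ℂ} (hf : ContDiff ℝ ∞ f) (z v : Cn n) :
    fderiv ℝ (fun z => Complex.exp (f z)) z v = Complex.exp (f z) * fderiv ℝ f z v := by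
  have h1 := (Dbar1_differentiableAt hf z).hasFDerivAt.cexp
  rw [h1.fderiv]
  simp only [_root_.smul_apply, smul_eq_mul]

theorem dd_exp {f : Cn n → ℂ} (hf : ContDiff ℝ ∞ f) (j : Fin n) (z : Cn n) :
    dd j (fun z => Complex.exp (f z)) z = Complex.exp (f z) * dd j f z := by
  unfold dd
  rw [Dbar1_fderiv_exp hf, Dbar1_fderiv_exp hf]
  ring

theorem db_exp {f : Cn n → ℂ} (hf : ContDiff ℝ ∞ f) (j : Fin n) (z : Cn n) :
    db j (fun z => Complex.exp (f z)) z = Complex.exp (f z) * db j f z := by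
  unfold db
  rw [Dbar1_fderiv_exp hf, Dbar1_fderiv_exp hf]
  ring

theorem Dbar1_fderiv_comb {f : Cn n → ℂ} (hf : ContDiff ℝ ∞ f) (a b z v : Cn n) (c : ℂ) :
    fderiv ℝ (fun z => (fderiv ℝ f z a + c * fderiv ℝ f z b) / 2) z v =
      (fderiv ℝ (fderiv ℝ f) z v a + c * fderiv ℝ (fderiv ℝ f) z v b) / 2 := by
  have h0 : ContDiff ℝ ∞ (fderiv ℝ f) := hf.fderiv_right (m := ∞) le_rfl
  have h1 : HasFDerivAt (fderiv ℝ f) (fderiv ℝ (fderiv ℝ f) z) z :=
    (h0.differentiable (by simp)).differentiableAt.hasFDerivAt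
  have h2 : ∀ w : Cn n, HasFDerivAt (fun z => fderiv ℝ f z w)
      ((fderiv ℝ (fderiv ℝ f) z).flip w) z := by
    intro w
    have h3 := h1.clm_apply (hasFDerivAt_const w z)
    refine h3.congr_fderiv ?_
    ext u
    simp
  have h4 := (((h2 a).add ((h2 b).const_mul c)).mul_const ((2 : ℂ)⁻¹))
  have h5 : HasFDerivAt (fun z => (fderiv ℝ f z a + c * fderiv ℝ f z b) / 2)
      ((2 : ℂ)⁻¹ • ((fderiv ℝ (fderiv ℝ f) z).flip a + c • (fderiv ℝ (fderiv ℝ f) z).flip b)) z := by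
    refine h4.congr_of_eventuallyEq (Filter.Eventually.of_forall fun w => ?_)
    simp only [div_eq_mul_inv]
    rfl
  rw [h5.fderiv]
  simp only [_root_.smul_apply, _root_.add_apply,
    ContinuousLinearMap.flip_apply, smul_eq_mul]
  ring

theorem Dbar1_symm {f : Cn n → ℂ} (hf : ContDiff ℝ ∞ f) (z v w : Cn n) :
    fderiv ℝ (fderiv ℝ f) z v w = fderiv ℝ (fderiv ℝ f) z w v := by
  have h : IsSymmSndFDerivAt ℝ f z := (hf.contDiffAt).isSymmSndFDerivAt (by
    rw [minSmoothness_of_isRCLikeNormedField]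
    exact WithTop.coe_le_coe.2 (le_top (a := (2 : ℕ∞))))
  exact h v w

theorem Dbar1_dd_eq (j : Fin n) (f : Cn n → ℂ) : dd j f = fun z =>
    (fderiv ℝ f z (bv n j) + (-Complex.I) * fderiv ℝ f z (Complex.I • bv n j)) / 2 := by
  funext z
  unfold dd
  ring

theorem Dbar1_db_eq (j : Fin n) (f : Cn n → ℂ) : db j f = fun z =>
    (fderiv ℝ f z (bv n j) + Complex.I * fderiv ℝ f z (Complex.I • bv n j)) / 2 := rfl

theorem db_dd_comm {f : Cn n → ℂ} (hf : ContDiff ℝ ∞ f) (j k : Fin n) (z : Cn n) :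
    db j (dd k f) z = dd k (db j f) z := by
  rw [Dbar1_db_eq j (dd k f), Dbar1_dd_eq k (db j f), Dbar1_dd_eq k f, Dbar1_db_eq j f]
  simp only [Dbar1_fderiv_comb hf]
  rw [Dbar1_symm hf z (bv n j) (bv n k), Dbar1_symm hf z (bv n j) (Complex.I • bv n k),
    Dbar1_symm hf z (Complex.I • bv n j) (bv n k),
    Dbar1_symm hf z (Complex.I • bv n j) (Complex.I • bv n k)]
  ring

theorem db_db_comm {f : Cn n → ℂ} (hf : ContDiff ℝ ∞ f) (j k : Fin n) (z : Cn n) :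
    db j (db k f) z = db k (db j f) z := by
  rw [Dbar1_db_eq j (db k f), Dbar1_db_eq k (db j f), Dbar1_db_eq k f, Dbar1_db_eq j f]
  simp only [Dbar1_fderiv_comb hf]
  rw [Dbar1_symm hf z (bv n j) (bv n k), Dbar1_symm hf z (bv n j) (Complex.I • bv n k),
    Dbar1_symm hf z (Complex.I • bv n j) (bv n k),
    Dbar1_symm hf z (Complex.I • bv n j) (Complex.I • bv n k)]
  ring

end HMA
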