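import Mathlib

/-!
# Moderate measures on complex projective space: definitions

A function `ψ` on `P^n` is `ω_FS`-plurisubharmonic iff `F x = exp (ψ [x]) * ‖x‖` (on `C^(n+1)`) is upper
semicontinuous, `F (c x) = |c| F x`, `log F` is plurisubharmonic and `F` is not identically zero.
-/

open MeasureTheory Metric Set
open scoped ENNReal Topology ContDiff

namespace HMA

/-- the complex Euclidean space of dimension `n` -/
abbrev Cn (n : ℕ) : Type := EuclideanSpace ℂ (Fin n)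

/-- `F ≥ 0` is upper semicontinuous and `log F` is plurisubharmonic: every truncation
`max (log F) (log δ)` satisfies the sub-mean value inequality on complex circles. -/
structure LogPsh {V : Type} [NormedAddCommGroup V] [NormedSpace ℂ V] (F : V → ℝ) : Prop where
  nonneg : ∀ x, 0 ≤ F x
  usc : UpperSemicontinuous F
  submean : ∀ δ : ℝ, 0 < δ → ∀ a b : V,
    Real.log (max (F a) δ) ≤ (2 * Real.pi)⁻¹ *
      ∫ θ in (0 : ℝ)..(2 * Real.pi), Real.log (max (F (a + Complex.exp (θ * Complex.I) • b)) δ)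

/-- `F = exp ψ * ‖x‖` for an `ω_FS`-plurisubharmonic function `ψ` on `P^n` -/
structure OmegaPsh (n : ℕ) (F : Cn (n + 1) → ℝ) : Prop where
  psh : LogPsh F
  hom : ∀ (c : ℂ) (x : Cn (n + 1)), F (c • x) = ‖c‖ * F x
  nontrivial : ∃ x, F x ≠ 0

/-- `ψ ≤ log A` everywhere and `ψ ≥ - log A` somewhere -/
structure Nrm {n : ℕ} (A : ℝ) (F : Cn (n + 1) → ℝ) : Prop where
  le : ∀ x, F x ≤ A * ‖x‖
  ge : ∃ x, x ≠ 0 ∧ A⁻¹ * ‖x‖ ≤ F x

/-- `exp (- ε PSH (P^n, ω_FS)) ⊂ L^1 (μ)` for some `ε > 0` -/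
def Moderate (n : ℕ) (μ : Measure (Cn (n + 1))) : Prop :=
  ∃ ε : ℝ, 0 < ε ∧ ∀ F : Cn (n + 1) → ℝ, OmegaPsh n F →
    ∫⁻ x, (ENNReal.ofReal (F x / ‖x‖)) ^ (-ε) ∂μ < ⊤

/-- polynomial functions on a complex vector space -/
def PF (V : Type) [AddCommGroup V] [Module ℂ V] : Subalgebra ℂ (V → ℂ) :=
  Algebra.adjoin ℂ (Set.range fun l : V →ₗ[ℂ] ℂ => (fun x => l x))

/-- homogeneous polynomial functions of degree `d` -/
structure HP (V : Type) [AddCommGroup V] [Module ℂ V] (d : ℕ) (f : V → ℂ) : Prop where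
  poly : f ∈ PF V
  hom : ∀ (c : ℂ) (x : V), f (c • x) = c ^ d * f x

/-- the Remez type property of a measure -/
def Rem (V : Type) [NormedAddCommGroup V] [InnerProductSpace ℂ V] [MeasurableSpace V]
    (μ : Measure V) (C ε : ℝ) : Prop :=
  ∀ k : ℕ, 1 ≤ k → ∀ f : V → ℂ, HP V k f → (∃ x, ‖x‖ ≤ 1 ∧ 1 ≤ ‖f x‖) →
    ∀ t : ℝ, 0 < t → t ≤ 1 → μ {x | x ≠ 0 ∧ ‖f x‖ ≤ t ^ k * ‖x‖ ^ k} ≤ ENNReal.ofReal (C * t ^ ε)

/-- the conical `r`-neighbourhood of the zero set of `P` -/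
def nearZ {V : Type} [NormedAddCommGroup V] (P : V → ℂ) (r : ℝ) : Set V :=
  {x | x ≠ 0 ∧ ∃ y, P y = 0 ∧ ‖y - x‖ ≤ r * ‖x‖}

/-- the polynomial `∑ c_k X^k`, `k ≤ d` -/
noncomputable def pol (d : ℕ) (c : ℕ → ℂ) : Polynomial ℂ :=
  ∑ k ∈ Finset.range (d + 1), Polynomial.C (c k) * Polynomial.X ^ k

/-- the tube of width `r₁` around the part `‖u‖ ≤ ρ₁`, `u ⊥ e`, of the graph of `h` over `e + u`
(conical set) -/
def tube {V : Type} [NormedAddCommGroup V] [InnerProductSpace ℂ V] (p : V) (e : ↥(ℂ ∙ p)ᗮ)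
    (h : ↥(ℂ ∙ p)ᗮ → ℂ) (ρ₁ r₁ : ℝ) : Set V :=
  {x | x ≠ 0 ∧ ∃ c : ℂ, c ≠ 0 ∧ ∃ u : ↥(ℂ ∙ p)ᗮ, inner ℂ e u = 0 ∧ ‖u‖ ≤ ρ₁ ∧
    ‖c • x - ((e + u : ↥(ℂ ∙ p)ᗮ) : V) - h (e + u) • p‖ ≤ r₁}

/-- coisometries: `L = J^*` for an isometric embedding `J` -/
def Coi {V W : Type} [NormedAddCommGroup V] [InnerProductSpace ℂ V] [NormedAddCommGroup W]
    [InnerProductSpace ℂ W] (L : V →ₗ[ℂ] W) : Prop :=
  ∃ J : W →ₗᵢ[ℂ] V, ∀ x y, inner ℂ (L x) y = inner ℂ x (J y)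

/-- tubes around graphs have small measure, for all images under coisometries -/
def Tub (V : Type) [NormedAddCommGroup V] [InnerProductSpace ℂ V] [MeasurableSpace V]
    (μ : Measure V) (N : ℕ) (C Λ : ℝ) : Prop :=
  ∀ (W : Type) [NormedAddCommGroup W] [InnerProductSpace ℂ W] [FiniteDimensional ℂ W]
    (L : V →ₗ[ℂ] W), Coi L →
    ∀ (p : W) (e : ↥(ℂ ∙ p)ᗮ) (h : ↥(ℂ ∙ p)ᗮ → ℂ) (ρ R : ℝ), ‖p‖ = 1 → ‖e‖ = 1 → 0 < ρ →
      ρ ≤ 1 / 4 → 1 ≤ R → (∀ z ∈ ball e ρ, AnalyticAt ℂ h z) → (∀ z ∈ ball e ρ, ‖h z‖ ≤ R) →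
      μ {x | L x ∈ tube p e h (ρ ^ 2) (ρ ^ N)} ≤ ENNReal.ofReal (C * R ^ C * ρ ^ Λ)

/-- the estimate for neighbourhoods of hypersurfaces in dimension `n` with constants `C'`, `c` -/
def StN (n N : ℕ) (C Λ C' c : ℝ) : Prop :=
  ∀ (V : Type) [NormedAddCommGroup V] [InnerProductSpace ℂ V] [MeasurableSpace V]
    (μ : Measure V) (W : Type) [NormedAddCommGroup W] [InnerProductSpace ℂ W]
    [FiniteDimensional ℂ W] (L : V →ₗ[ℂ] W), Coi L → Module.finrank ℂ W = n →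
    μ {x | x ≠ 0} ≤ ENNReal.ofReal C → Tub V μ N C Λ →
    ∀ d : ℕ, 1 ≤ d → ∀ P : W → ℂ, HP W d P → (∃ x, P x ≠ 0) → ∀ r : ℝ, 0 < r → r < 1 →
      μ {x | L x ∈ nearZ P r} ≤ ENNReal.ofReal (C' * (d : ℝ) ^ C' * r ^ c)

/-- real valued plurisubharmonic functions bounded from below -/
structure PshR {n : ℕ} (u : Cn n → ℝ) : Prop where
  usc : UpperSemicontinuous u
  bdd : ∃ L : ℝ, ∀ z, -L ≤ u z
  submean : ∀ a b : Cn n, u a ≤ (2 * Real.pi)⁻¹ *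
    ∫ θ in (0 : ℝ)..(2 * Real.pi), u (a + Complex.exp (θ * Complex.I) • b)

/-- the same with circles of radius at most `1/16` only -/
structure PshS {n : ℕ} (u : Cn n → ℝ) : Prop where
  usc : UpperSemicontinuous u
  bdd : ∃ L : ℝ, ∀ z, -L ≤ u z
  submean : ∀ a b : Cn n, ‖b‖ ≤ 1 / 16 → u a ≤ (2 * Real.pi)⁻¹ *
    ∫ θ in (0 : ℝ)..(2 * Real.pi), u (a + Complex.exp (θ * Complex.I) • b)

/-- `F = exp u` with `u` plurisubharmonic (or `-∞`) on the open set `Ω` -/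
structure PshOn {n : ℕ} (Ω : Set (Cn n)) (F : Cn n → ℝ) : Prop where
  nonneg : ∀ x ∈ Ω, 0 ≤ F x
  usc : UpperSemicontinuousOn F Ω
  submean : ∀ δ : ℝ, 0 < δ → ∀ a b : Cn n, (∀ ζ : ℂ, ‖ζ‖ ≤ 1 → a + ζ • b ∈ Ω) →
    Real.log (max (F a) δ) ≤ (2 * Real.pi)⁻¹ *
      ∫ θ in (0 : ℝ)..(2 * Real.pi), Real.log (max (F (a + Complex.exp (θ * Complex.I) • b)) δ)

/-- the unit polydisc -/
def pdisc (n : ℕ) : Set (Cn n) := {ζ | ∀ i, ‖ζ i‖ < 1}

/-- capacity type domination of a measure, tested on embedded polydiscs of `ball 0 2` -/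
def PolyB (n : ℕ) (μ : Measure (Cn n)) (C ε : ℝ) : Prop :=
  ∀ (Φ : Cn n → Cn n) (s : Fin n → ℝ), DifferentiableOn ℂ Φ (pdisc n) → InjOn Φ (pdisc n) →
    (∀ ζ ∈ pdisc n, Function.Injective (fderiv ℂ Φ ζ)) →
    MapsTo Φ (pdisc n) (ball 0 2) → (∀ i, 0 < s i ∧ s i < 1) →
      μ (Φ '' {ζ | ∀ i, ‖ζ i‖ ≤ s i}) ≤
        ENNReal.ofReal (C * Real.exp (-ε * (∏ i, Real.log (1 / s i)) ^ ((n : ℝ)⁻¹)))

/-! ### Wirtinger calculus on `Cn n` -/

/-- coordinate vector -/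
noncomputable def bv (n : ℕ) (j : Fin n) : Cn n := EuclideanSpace.single j 1

/-- `∂/∂z_j` -/
noncomputable def dd {n : ℕ} (j : Fin n) (f : Cn n → ℂ) (z : Cn n) : ℂ :=
  (fderiv ℝ f z (bv n j) - Complex.I * fderiv ℝ f z (Complex.I • bv n j)) / 2

/-- `∂/∂\bar z_j` -/
noncomputable def db {n : ℕ} (j : Fin n) (f : Cn n → ℂ) (z : Cn n) : ℂ :=
  (fderiv ℝ f z (bv n j) + Complex.I * fderiv ℝ f z (Complex.I • bv n j)) / 2

/-- the Levi form of a real function -/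
noncomputable def lev {n : ℕ} (φ : Cn n → ℝ) (z ξ : Cn n) : ℝ :=
  (fderiv ℝ (fun w => fderiv ℝ φ w ξ) z ξ +
    fderiv ℝ (fun w => fderiv ℝ φ w (Complex.I • ξ)) z (Complex.I • ξ)) / 4

/-- smooth compactly supported complex functions -/
structure Tst {n : ℕ} (f : Cn n → ℂ) : Prop where
  smooth : ContDiff ℝ ∞ f
  supp : HasCompactSupport f

/-- the formal adjoint of `∂bar` in `L^2 (exp (-φ))` -/
noncomputable def adj {n : ℕ} (φ : Cn n → ℝ) (α : Fin n → Cn n → ℂ) (z : Cn n) : ℂ :=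
  - ∑ j, (dd j (α j) z - dd j (fun w => (φ w : ℂ)) z * α j z)

/-- the vector with given components -/
noncomputable def vec {n : ℕ} (a : Fin n → ℂ) : Cn n := WithLp.toLp 2 a

/-- value of a polynomial in `n` variables at a point of `Cn n` -/
noncomputable def ev {n : ℕ} (P : MvPolynomial (Fin n) ℂ) (z : Cn n) : ℂ :=
  P.eval (fun i => z i)

/-- the affine neighbourhood of the zero set of a polynomial -/
def affZ {n : ℕ} (P : MvPolynomial (Fin n) ℂ) (r : ℝ) : Set (Cn n) :=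
  {z | ∃ z' : Cn n, ev P z' = 0 ∧ ‖z' - z‖ ≤ r}

/-- measures for which neighbourhoods of algebraic hypersurfaces are small -/
def AffN (n : ℕ) (ν : Measure (Cn n)) (C c : ℝ) : Prop :=
  ∀ (D : ℕ) (P : MvPolynomial (Fin n) ℂ), 1 ≤ D → P ≠ 0 → P.totalDegree ≤ D → ∀ r : ℝ, 0 < r →
    r < 1 → ν (affZ P r) ≤ ENNReal.ofReal (C * (D : ℝ) ^ C * r ^ c)

/-- the supremum over closed balls -/
noncomputable def supB {n : ℕ} (f : Cn n → ℝ) (r : ℝ) (z : Cn n) : ℝ :=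
  sSup (f '' closedBall z r)

/-- the affine chart `x_i = 1` -/
noncomputable def cha {n : ℕ} (i : Fin (n + 1)) (z : Cn n) : Cn (n + 1) :=
  WithLp.toLp 2 (Fin.insertNth (α := fun _ => ℂ) i (1 : ℂ) (fun j => z j))

/-- the affine coordinates with respect to `x_i` -/
noncomputable def aff {n : ℕ} (i : Fin (n + 1)) (x : Cn (n + 1)) : Cn n :=
  WithLp.toLp 2 (fun j => x (i.succAbove j) / x i)

/-- the part of space where `|x_i|` is maximal -/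
def part {n : ℕ} (i : Fin (n + 1)) : Set (Cn (n + 1)) := {x | x ≠ 0 ∧ ∀ j, ‖x j‖ ≤ ‖x i‖}

end HMA
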