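import Pool.Agent.H85.MA.HPBasic

/-! # Module DISC1: the discriminant as a homogeneous polynomial function -/

open MeasureTheory Metric Set
open scoped ENNReal Topology ContDiff

namespace HMA

variable {W : Type} [AddCommGroup W] [Module ℂ W]

theorem pol_eval (d : ℕ) (c : ℕ → ℂ) (w : ℂ) :
    (pol d c).eval w = ∑ k ∈ Finset.range (d + 1), c k * w ^ k := by
  simp [pol, Polynomial.eval_finsetSum]

theorem Disc1_coeff (d : ℕ) (c : ℕ → ℂ) (i : ℕ) :
    (pol d c).coeff i = if i ≤ d then c i else 0 := by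
  simp only [pol, Polynomial.finsetSum_coeff, Polynomial.coeff_C_mul_X_pow]
  rw [Finset.sum_ite_eq]
  simp [Nat.lt_succ_iff]

theorem Disc1_zero (e : ℕ) : HP W e (fun _ => 0) :=
  ⟨(PF W).zero_mem, by intro c x; simp⟩

/-- degrees of the columns of the Sylvester matrix -/
def Disc1_beta (d : ℕ) (j : Fin (d + (d - 1))) : ℕ := if (j : ℕ) < d then (d - 1) + j else j

theorem Disc1_sum (d : ℕ) (σ : Equiv.Perm (Fin (d + (d - 1))))
    (h : ∀ j, (σ j : ℕ) ≤ Disc1_beta d j) :
    ∑ j, (Disc1_beta d j - (σ j : ℕ)) = d * (d - 1) := by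
  have h1 : ∑ j, (Disc1_beta d j - (σ j : ℕ)) + ∑ j, (σ j : ℕ) = ∑ j, Disc1_beta d j := by
    rw [← Finset.sum_add_distrib]
    exact Finset.sum_congr rfl fun j _ => Nat.sub_add_cancel (h j)
  have h2 : ∑ j, (σ j : ℕ) = ∑ j : Fin (d + (d - 1)), (j : ℕ) :=
    Equiv.sum_comp σ (fun j : Fin (d + (d - 1)) => (j : ℕ))
  have h3 : ∑ j, Disc1_beta d j = ∑ j : Fin (d + (d - 1)), (j : ℕ) + d * (d - 1) := by
    rw [Fin.sum_univ_add, Fin.sum_univ_add]
    have e1 : ∀ i : Fin d, Disc1_beta d (Fin.castAdd (d - 1) i) = (d - 1) + i := by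
      intro i
      simp [Disc1_beta]
    have e2 : ∀ i : Fin (d - 1), Disc1_beta d (Fin.natAdd d i) = d + i := by
      intro i
      simp [Disc1_beta]
    simp only [e1, e2, Fin.val_castAdd, Fin.val_natAdd, Finset.sum_add_distrib, Finset.sum_const,
      Finset.card_univ, Fintype.card_fin, smul_eq_mul]
    ring
  omega

theorem Disc1_entry {d : ℕ} (hd : 1 ≤ d) (f : ℕ → W → ℂ) (hf : ∀ k ≤ d, HP W (d - k) (f k))
    (i j : Fin (d + (d - 1))) :
    (fun z => Polynomial.sylvester (pol d (fun k => f k z))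
      (Polynomial.derivative (pol d (fun k => f k z))) d (d - 1) i j) = (fun _ => 0) ∨
    ((i : ℕ) ≤ Disc1_beta d j ∧ HP W (Disc1_beta d j - i)
      (fun z => Polynomial.sylvester (pol d (fun k => f k z))
      (Polynomial.derivative (pol d (fun k => f k z))) d (d - 1) i j)) := by
  refine Fin.addCases (fun j₁ => ?_) (fun j₁ => ?_) j
  · have e1 : Disc1_beta d (Fin.castAdd (d - 1) j₁) = (d - 1) + j₁ := by simp [Disc1_beta]
    rw [e1]
    by_cases h : (i : ℕ) ∈ Set.Icc (j₁ : ℕ) (j₁ + (d - 1))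
    · right
      obtain ⟨h1, h2⟩ := h
      refine ⟨by omega, ?_⟩
      have e2 : (fun z => Polynomial.sylvester (pol d (fun k => f k z))
          (Polynomial.derivative (pol d (fun k => f k z))) d (d - 1) i (Fin.castAdd (d - 1) j₁)) =
          fun z => (((i : ℕ) - (j₁ : ℕ) : ℕ) + 1 : ℂ) * f ((i : ℕ) - j₁ + 1) z := by
        funext z
        simp only [Polynomial.sylvester, Matrix.of_apply, Fin.addCases_left]
        rw [if_pos ⟨h1, h2⟩, Polynomial.coeff_derivative, Disc1_coeff, if_pos (by omega), mul_comm]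
      rw [e2]
      have h3 := (hf ((i : ℕ) - j₁ + 1) (by omega)).const_mul (((i : ℕ) - (j₁ : ℕ) : ℕ) + 1 : ℂ)
      have h4 : d - 1 + (j₁ : ℕ) - i = d - ((i : ℕ) - j₁ + 1) := by omega
      rw [h4]
      exact h3
    · left
      funext z
      simp only [Polynomial.sylvester, Matrix.of_apply, Fin.addCases_left]
      rw [if_neg h]
  · have e1 : Disc1_beta d (Fin.natAdd d j₁) = d + j₁ := by simp [Disc1_beta]
    rw [e1]
    by_cases h : (i : ℕ) ∈ Set.Icc (j₁ : ℕ) (j₁ + d)
    · right
      obtain ⟨h1, h2⟩ := h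
      refine ⟨by omega, ?_⟩
      have e2 : (fun z => Polynomial.sylvester (pol d (fun k => f k z))
          (Polynomial.derivative (pol d (fun k => f k z))) d (d - 1) i (Fin.natAdd d j₁)) =
          fun z => f ((i : ℕ) - j₁) z := by
        funext z
        simp only [Polynomial.sylvester, Matrix.of_apply, Fin.addCases_right]
        rw [if_pos ⟨h1, h2⟩, Disc1_coeff, if_pos (by omega)]
      rw [e2]
      have h3 := hf ((i : ℕ) - j₁) (by omega)
      have h4 : d + (j₁ : ℕ) - i = d - ((i : ℕ) - j₁) := by omega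
      rw [h4]
      exact h3
    · left
      funext z
      simp only [Polynomial.sylvester, Matrix.of_apply, Fin.addCases_right]
      rw [if_neg h]

theorem disc_hp {d : ℕ} (hd : 1 ≤ d) (f : ℕ → W → ℂ) (hf : ∀ k ≤ d, HP W (d - k) (f k))
    {a : ℂ} (ha : a ≠ 0) (hfd : ∀ z, f d z = a) :
    HP W (d * (d - 1)) (fun z => Polynomial.resultant (pol d (fun k => f k z))
      (Polynomial.derivative (pol d (fun k => f k z))) d (d - 1)) := by
  simp only [Polynomial.resultant, Matrix.det_apply']
  refine HP.sum Finset.univ fun σ _ => ?_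
  refine HP.const_mul ?_ _
  by_cases h : ∃ j, (fun z => Polynomial.sylvester (pol d (fun k => f k z))
      (Polynomial.derivative (pol d (fun k => f k z))) d (d - 1) (σ j) j) = (fun _ => 0)
  · obtain ⟨j, hj⟩ := h
    have h0 : (fun z => ∏ j, Polynomial.sylvester (pol d (fun k => f k z))
      (Polynomial.derivative (pol d (fun k => f k z))) d (d - 1) (σ j) j) = fun _ => 0 := by
      funext z
      exact Finset.prod_eq_zero (Finset.mem_univ j) (congrFun hj z)
    rw [h0]
    exact Disc1_zero _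
  · push Not at h
    have h1 : ∀ j, (σ j : ℕ) ≤ Disc1_beta d j ∧ HP W (Disc1_beta d j - σ j)
        (fun z => Polynomial.sylvester (pol d (fun k => f k z))
        (Polynomial.derivative (pol d (fun k => f k z))) d (d - 1) (σ j) j) := fun j =>
      (Disc1_entry hd f hf (σ j) j).resolve_left (h j)
    rw [← Disc1_sum d σ fun j => (h1 j).1]
    exact HP.prod Finset.univ fun j _ => (h1 j).2

end HMA
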