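import Pool.Agent.H85.MA.Defs

/-! # Module DISC2: nonzero discriminant and simple roots; pencils -/

open MeasureTheory Metric Set
open scoped ENNReal Topology ContDiff

namespace HMA

theorem Disc2_natDegree_le (d : ℕ) (c : ℕ → ℂ) : (pol d c).natDegree ≤ d := by
  unfold pol
  refine Polynomial.natDegree_sum_le_of_forall_le _ _ ?_
  intro k hk
  refine (Polynomial.natDegree_C_mul_X_pow_le _ _).trans ?_
  have := Finset.mem_range.1 hk
  omega

theorem Disc2_coeff (d : ℕ) (c : ℕ → ℂ) : (pol d c).coeff d = c d := by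
  unfold pol
  rw [Polynomial.finsetSum_coeff]
  rw [Finset.sum_eq_single d]
  · simp
  · intro k _ hkd
    rw [Polynomial.coeff_C_mul, Polynomial.coeff_X_pow, if_neg (Ne.symm hkd), mul_zero]
  · intro h
    exact absurd (Finset.mem_range.2 (Nat.lt_succ_self d)) h

theorem Disc2_natDegree (d : ℕ) (c : ℕ → ℂ) (hc : c d ≠ 0) : (pol d c).natDegree = d := by
  refine le_antisymm (Disc2_natDegree_le d c) ?_
  refine Polynomial.le_natDegree_of_ne_zero ?_
  rw [Disc2_coeff]
  exact hc

theorem Disc2_iff {d : ℕ} (c : ℕ → ℂ) (hc : c d ≠ 0) :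
    Polynomial.resultant (pol d c) (Polynomial.derivative (pol d c)) d (d - 1) ≠ 0 ↔
      ∀ w, (pol d c).eval w = 0 → (Polynomial.derivative (pol d c)).eval w ≠ 0 := by
  have hn := Disc2_natDegree d c hc
  have hne : pol d c ≠ 0 := by
    intro h0
    have := Disc2_coeff d c
    rw [h0, Polynomial.coeff_zero] at this
    exact hc this.symm
  have h1 := Polynomial.resultant_eq_prod_eval (pol d c) (Polynomial.derivative (pol d c)) (d - 1)
    ((Polynomial.natDegree_derivative_le _).trans (by rw [hn])) (IsAlgClosed.splits _)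
  rw [hn] at h1
  rw [h1]
  have hl : (pol d c).leadingCoeff ≠ 0 := Polynomial.leadingCoeff_ne_zero.2 hne
  constructor
  · intro h w hw hw'
    refine h ?_
    have : (Polynomial.derivative (pol d c)).eval w ∈
        (pol d c).roots.map (Polynomial.derivative (pol d c)).eval :=
      Multiset.mem_map_of_mem _ ((Polynomial.mem_roots hne).2 hw)
    rw [hw'] at this
    rw [Multiset.prod_eq_zero this, mul_zero]
  · intro h
    refine mul_ne_zero (pow_ne_zero _ hl) ?_
    intro h0
    rw [Multiset.prod_eq_zero_iff, Multiset.mem_map] at h0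
    obtain ⟨w, hw, hw0⟩ := h0
    exact h w ((Polynomial.mem_roots hne).1 hw) hw0

theorem disc_simple {d : ℕ} (hd : 1 ≤ d) (c : ℕ → ℂ) (hc : c d ≠ 0)
    (h : Polynomial.resultant (pol d c) (Polynomial.derivative (pol d c)) d (d - 1) ≠ 0) (w : ℂ)
    (hw : (pol d c).eval w = 0) : (Polynomial.derivative (pol d c)).eval w ≠ 0 := by
  exact (Disc2_iff c hc).1 h w hw

/-- discriminant of a pencil `p + s q`, `q` with simple roots: nonzero for arbitrarily small `s` -/
theorem disc_pencil {d : ℕ} (hd : 1 ≤ d) (c e : ℕ → ℂ) (he : e d ≠ 0)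
    (hs : ∀ w, (pol d e).eval w = 0 → (Polynomial.derivative (pol d e)).eval w ≠ 0) {τ : ℝ}
    (hτ : 0 < τ) : ∃ s : ℂ, ‖s‖ < τ ∧ Polynomial.resultant (pol d (fun k => c k + s * e k))
      (Polynomial.derivative (pol d (fun k => c k + s * e k))) d (d - 1) ≠ 0 := by
  classical
  set Q : Polynomial (Polynomial ℂ) := ∑ k ∈ Finset.range (d + 1),
    Polynomial.C (Polynomial.X * Polynomial.C (c k) + Polynomial.C (e k)) * Polynomial.X ^ k
    with hQ
  set S : Polynomial ℂ := Polynomial.resultant Q (Polynomial.derivative Q) d (d - 1) with hS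
  have hmap : ∀ t : ℂ, Q.map (Polynomial.evalRingHom t) = pol d (fun k => t * c k + e k) := by
    intro t
    rw [hQ, Polynomial.map_sum]
    unfold pol
    refine Finset.sum_congr rfl fun k _ => ?_
    simp
    ring
  have hSt : ∀ t : ℂ, S.eval t = Polynomial.resultant (pol d (fun k => t * c k + e k))
      (Polynomial.derivative (pol d (fun k => t * c k + e k))) d (d - 1) := by
    intro t
    rw [← hmap t, Polynomial.derivative_map, Polynomial.resultant_map_map]
    rfl
  have hS0 : S.eval 0 ≠ 0 := by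
    rw [hSt 0]
    have h1 : (fun k => (0 : ℂ) * c k + e k) = e := by
      funext k
      ring
    rw [h1]
    exact (Disc2_iff e he).2 hs
  have hSne : S ≠ 0 := by
    intro h0
    rw [h0] at hS0
    simp at hS0
  obtain ⟨t, ht1, ht2⟩ : ∃ t : ℂ, τ⁻¹ < ‖t‖ ∧ S.eval t ≠ 0 := by
    by_contra hcon
    push Not at hcon
    have hinf : (Set.range fun n : ℕ => ((n : ℂ) + (⌈τ⁻¹⌉₊ + 1 : ℕ))).Infinite := by
      refine Set.infinite_range_of_injective ?_
      intro a b hab
      have h2 : (a : ℂ) = b := by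
        have h3 : (a : ℂ) + (⌈τ⁻¹⌉₊ + 1 : ℕ) = (b : ℂ) + (⌈τ⁻¹⌉₊ + 1 : ℕ) := hab
        exact add_right_cancel h3
      exact_mod_cast h2
    refine hinf (Set.Finite.subset (Polynomial.finite_setOfPred_isRoot hSne) ?_)
    rintro _ ⟨n, rfl⟩
    refine hcon _ ?_
    have h1 : ((n : ℂ) + (⌈τ⁻¹⌉₊ + 1 : ℕ)) = ((n + (⌈τ⁻¹⌉₊ + 1) : ℕ) : ℂ) := by
      push_cast
      ring
    simp only []
    rw [h1, Complex.norm_natCast]
    have h2 := Nat.le_ceil τ⁻¹
    push_cast
    have h3 : (0 : ℝ) ≤ n := Nat.cast_nonneg n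
    linarith
  have ht0 : t ≠ 0 := by
    intro h0
    rw [h0, norm_zero] at ht1
    exact absurd ht1 (not_lt.2 (inv_pos.2 hτ).le)
  refine ⟨t⁻¹, ?_, ?_⟩
  · rw [norm_inv]
    exact inv_lt_of_inv_lt₀ hτ ht1
  · have h1 : pol d (fun k => c k + t⁻¹ * e k) =
        Polynomial.C t⁻¹ * pol d (fun k => t * c k + e k) := by
      unfold pol
      rw [Finset.mul_sum]
      refine Finset.sum_congr rfl fun k _ => ?_
      rw [← mul_assoc, ← Polynomial.C_mul]
      congr 2
      field_simp
    rw [h1, Polynomial.derivative_C_mul, Polynomial.resultant_C_mul_left,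
      Polynomial.resultant_C_mul_right, ← hSt t]
    exact mul_ne_zero (pow_ne_zero _ (inv_ne_zero ht0))
      (mul_ne_zero (pow_ne_zero _ (inv_ne_zero ht0)) ht2)

end HMA
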