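import Pool.Agent.H85.MA.Modulus

/-! # Module FINAL: moderate measures define Hölder continuous functionals -/

open MeasureTheory Metric Set
open scoped ENNReal Topology ContDiff

namespace HMA

theorem Final_log_bound {y A ε : ℝ} (hy : 0 ≤ y) (hyA : y ≤ A) (hε : 0 < ε) :
    ENNReal.ofReal |Real.log y| ≤
      ENNReal.ofReal A + ENNReal.ofReal (1 / ε) * (ENNReal.ofReal y) ^ (-ε) := by
  rcases hy.eq_or_lt with rfl | hy0
  · simp
  rcases le_or_gt 1 y with h1 | h1
  · refine le_trans ?_ (le_add_right (le_refl _))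
    apply ENNReal.ofReal_le_ofReal
    rw [abs_of_nonneg (Real.log_nonneg h1)]
    have := Real.log_le_sub_one_of_pos hy0
    linarith
  · refine le_trans ?_ (le_add_left (le_refl _))
    rw [ENNReal.ofReal_rpow_of_pos hy0, ← ENNReal.ofReal_mul (by positivity)]
    apply ENNReal.ofReal_le_ofReal
    rw [abs_of_nonpos (Real.log_nonpos hy h1.le), ← Real.log_inv, Real.rpow_neg hy,
      ← Real.inv_rpow hy]
    have := Real.log_le_rpow_div (inv_nonneg.2 hy) hε
    calc Real.log y⁻¹ ≤ y⁻¹ ^ ε / ε := this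
      _ = 1 / ε * y⁻¹ ^ ε := by ring

theorem Final_meas {n : ℕ} {F : Cn (n + 1) → ℝ} (hF : OmegaPsh n F) :
    Measurable (fun x => Real.log (F x / ‖x‖)) :=
  Real.measurable_log.comp (hF.psh.usc.measurable.div measurable_norm)

theorem Final_div_nonneg {n : ℕ} {F : Cn (n + 1) → ℝ} (hF : OmegaPsh n F) (x : Cn (n + 1)) :
    0 ≤ F x / ‖x‖ := div_nonneg (hF.psh.nonneg x) (norm_nonneg x)

theorem Final_div_le {n : ℕ} {F : Cn (n + 1) → ℝ} {A : ℝ} (hA : 1 ≤ A) (hN : Nrm A F)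
    (x : Cn (n + 1)) : F x / ‖x‖ ≤ A := by
  rcases eq_or_ne x 0 with rfl | hx
  · simp only [norm_zero, div_zero]
    linarith
  · rw [div_le_iff₀ (norm_pos_iff.2 hx)]
    exact hN.le x

theorem Final_lint {n : ℕ} {μ : Measure (Cn (n + 1))} [IsProbabilityMeasure μ]
    {F : Cn (n + 1) → ℝ} {A ε C : ℝ} (hA : 1 ≤ A) (hε : 0 < ε)
    (hF : OmegaPsh n F) (hN : Nrm A F)
    (h : ∫⁻ x, (ENNReal.ofReal (F x / ‖x‖)) ^ (-ε) ∂μ ≤ ENNReal.ofReal C) :
    ∫⁻ x, ENNReal.ofReal |Real.log (F x / ‖x‖)| ∂μ ≤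
      ENNReal.ofReal A + ENNReal.ofReal (1 / ε) * ENNReal.ofReal C := by
  calc ∫⁻ x, ENNReal.ofReal |Real.log (F x / ‖x‖)| ∂μ
      ≤ ∫⁻ x, (ENNReal.ofReal A + ENNReal.ofReal (1 / ε) *
          (ENNReal.ofReal (F x / ‖x‖)) ^ (-ε)) ∂μ := by
        refine lintegral_mono fun x => ?_
        exact Final_log_bound (Final_div_nonneg hF x) (Final_div_le hA hN x) hε
    _ = ENNReal.ofReal A + ENNReal.ofReal (1 / ε) *
          ∫⁻ x, (ENNReal.ofReal (F x / ‖x‖)) ^ (-ε) ∂μ := by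
        rw [lintegral_add_left measurable_const, lintegral_const, measure_univ, mul_one,
          lintegral_const_mul]
        exact ((hF.psh.usc.measurable.div measurable_norm).ennreal_ofReal).pow_const _
    _ ≤ _ := by gcongr

theorem Final_integrable {n : ℕ} {μ : Measure (Cn (n + 1))} [IsProbabilityMeasure μ]
    {F : Cn (n + 1) → ℝ} {A ε C : ℝ} (hA : 1 ≤ A) (hε : 0 < ε)
    (hF : OmegaPsh n F) (hN : Nrm A F)
    (h : ∫⁻ x, (ENNReal.ofReal (F x / ‖x‖)) ^ (-ε) ∂μ ≤ ENNReal.ofReal C) :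
    Integrable (fun x => Real.log (F x / ‖x‖)) μ := by
  refine ⟨(Final_meas hF).aestronglyMeasurable, ?_⟩
  rw [hasFiniteIntegral_iff_norm]
  refine lt_of_le_of_lt (Final_lint hA hε hF hN h) ?_
  exact ENNReal.add_lt_top.2 ⟨ENNReal.ofReal_lt_top,
    ENNReal.mul_lt_top ENNReal.ofReal_lt_top ENNReal.ofReal_lt_top⟩

theorem Final_abs {n : ℕ} {μ : Measure (Cn (n + 1))} [IsProbabilityMeasure μ]
    {F : Cn (n + 1) → ℝ} {A ε C : ℝ} (hA : 1 ≤ A) (hε : 0 < ε) (hC : 0 < C)
    (hF : OmegaPsh n F) (hN : Nrm A F)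
    (h : ∫⁻ x, (ENNReal.ofReal (F x / ‖x‖)) ^ (-ε) ∂μ ≤ ENNReal.ofReal C) :
    |∫ x, Real.log (F x / ‖x‖) ∂μ| ≤ A + C / ε := by
  refine (norm_integral_le_integral_norm (μ := μ) (fun x => Real.log (F x / ‖x‖))).trans ?_
  simp only [Real.norm_eq_abs]
  rw [integral_eq_lintegral_of_nonneg_ae (Filter.Eventually.of_forall fun x => abs_nonneg _)
    (Final_meas hF).norm.aestronglyMeasurable]
  have h1 := Final_lint hA hε hF hN h
  have h2 : ENNReal.ofReal A + ENNReal.ofReal (1 / ε) * ENNReal.ofReal C =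
      ENNReal.ofReal (A + C / ε) := by
    rw [← ENNReal.ofReal_mul (by positivity), ← ENNReal.ofReal_add (by linarith) (by positivity)]
    congr 1
    ring
  rw [h2] at h1
  exact ENNReal.toReal_le_of_le_ofReal (by positivity) h1

theorem Final_pos {n : ℕ} {μ : Measure (Cn (n + 1))}
    {F : Cn (n + 1) → ℝ} {ε C : ℝ} (hε : 0 < ε)
    (hF : OmegaPsh n F)
    (h : ∫⁻ x, (ENNReal.ofReal (F x / ‖x‖)) ^ (-ε) ∂μ ≤ ENNReal.ofReal C) :
    ∀ᵐ x ∂μ, x ≠ 0 ∧ 0 < F x := by
  have h1 : ∀ᵐ x ∂μ, (ENNReal.ofReal (F x / ‖x‖)) ^ (-ε) < ⊤ := by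
    refine ae_lt_top ?_ (ne_top_of_le_ne_top ENNReal.ofReal_ne_top h)
    exact ((hF.psh.usc.measurable.div measurable_norm).ennreal_ofReal).pow_const _
  filter_upwards [h1] with x hx
  have h2 : 0 < F x / ‖x‖ := by
    by_contra hcon
    push Not at hcon
    rw [ENNReal.ofReal_of_nonpos hcon, ENNReal.zero_rpow_of_neg (by linarith)] at hx
    exact lt_irrefl _ hx
  have h3 : x ≠ 0 := by
    rintro rfl
    simp at h2
  exact ⟨h3, by
    have := mul_pos h2 (norm_pos_iff.2 h3)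
    rwa [div_mul_cancel₀ _ (norm_ne_zero_iff.2 h3)] at this⟩

theorem Final_vol (n : ℕ) : ∃ c : ℝ, 0 < c ∧ ∀ (y : Cn (n + 1)) (ρ : ℝ), 0 < ρ →
    volume.real (ball y ρ) = c * ρ ^ (2 * (n + 1)) := by
  refine ⟨volume.real (ball (0 : Cn (n + 1)) 1), ?_, ?_⟩
  · rw [measureReal_def]
    exact ENNReal.toReal_pos (measure_ball_pos volume _ one_pos).ne' measure_ball_lt_top.ne
  · intro y ρ hρ
    have hfr : Module.finrank ℝ (Cn (n + 1)) = 2 * (n + 1) := by
      rw [finrank_real_of_complex, finrank_euclideanSpace_fin]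
    rw [measureReal_def, Measure.addHaar_ball volume y hρ.le, hfr, ENNReal.toReal_mul,
      ENNReal.toReal_ofReal (by positivity), measureReal_def, mul_comm]

theorem Final_pt (n : ℕ) : ∃ C₁ : ℝ, 0 < C₁ ∧ ∀ (F G : Cn (n + 1) → ℝ) (A : ℝ), OmegaPsh n F →
    OmegaPsh n G → 1 ≤ A → (∀ x, G x ≤ A * ‖x‖) → ∀ x : Cn (n + 1), x ≠ 0 → 0 < F x →
    ∀ r : ℝ, 0 < r → r ≤ 1 / 2 →
      Real.log (F x / ‖x‖) ≤ Real.log (max (sSup (G '' closedBall x (r * ‖x‖)) / ‖x‖) r) +
        C₁ / r ^ (2 * (n + 1)) *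
          ∫ z in ball (0 : Cn (n + 1)) 1, |Real.log (F z) - Real.log (G z)| := by
  obtain ⟨c, hc, hvol⟩ := Final_vol n
  refine ⟨2 ^ (2 * (n + 1)) / c, by positivity, ?_⟩
  intro F G A hF hG hA hGA x hx hFx r hr hr2
  set δ := ∫ z in ball (0 : Cn (n + 1)) 1, |Real.log (F z) - Real.log (G z)| with hδ
  set S := sSup (G '' closedBall x (r * ‖x‖)) with hS
  have hxn : 0 < ‖x‖ := norm_pos_iff.2 hx
  have hbdd : BddAbove (G '' closedBall x (r * ‖x‖)) := by
    refine ⟨A * (‖x‖ + r * ‖x‖), ?_⟩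
    rintro _ ⟨z, hz, rfl⟩
    refine (hGA z).trans ?_
    have : ‖z‖ ≤ ‖x‖ + r * ‖x‖ := by
      rw [mem_closedBall, dist_eq_norm] at hz
      calc ‖z‖ = ‖x + (z - x)‖ := by congr 1; abel
        _ ≤ ‖x‖ + ‖z - x‖ := norm_add_le _ _
        _ ≤ _ := by linarith
    exact mul_le_mul_of_nonneg_left this (by linarith)
  set t : ℝ := (2 * ‖x‖)⁻¹ with ht
  have htp : 0 < t := by positivity
  set y : Cn (n + 1) := (t : ℂ) • x with hy
  have htx : t * ‖x‖ = 1 / 2 := by
    rw [ht]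
    field_simp
  have hyn : ‖y‖ = 1 / 2 := by
    rw [hy, norm_smul, Complex.norm_real, Real.norm_eq_abs, abs_of_pos htp, htx]
  have hFy : F y = t * F x := by
    rw [hy, hF.hom, Complex.norm_real, Real.norm_eq_abs, abs_of_pos htp]
  have hFy0 : 0 < F y := by rw [hFy]; positivity
  have hr2' : 0 < r / 2 := by positivity
  have hsub : ball y (r / 2) ⊆ ball (0 : Cn (n + 1)) 1 := by
    intro z hz
    rw [mem_ball, dist_eq_norm] at hz
    rw [mem_ball_zero_iff]
    calc ‖z‖ = ‖y + (z - y)‖ := by congr 1; abel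
      _ ≤ ‖y‖ + ‖z - y‖ := norm_add_le _ _
      _ < 1 := by rw [hyn]; linarith
  -- bound for `G`
  have hGz : ∀ z ∈ ball y (r / 2), t⁻¹ * G z ≤ S := by
    intro z hz
    have h1 : t⁻¹ * G z = G ((t⁻¹ : ℝ) • z) := by
      have : ((t⁻¹ : ℝ) • z) = ((t⁻¹ : ℝ) : ℂ) • z := by
        rw [Complex.coe_smul]
      rw [this, hG.hom, Complex.norm_real, Real.norm_eq_abs, abs_of_pos (by positivity)]
    rw [h1]
    refine le_csSup hbdd ⟨_, ?_, rfl⟩
    rw [mem_closedBall, dist_eq_norm]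
    have h2 : (t⁻¹ : ℝ) • z - x = (t⁻¹ : ℝ) • (z - y) := by
      rw [smul_sub, hy, Complex.coe_smul, smul_smul, inv_mul_cancel₀ htp.ne', one_smul]
    rw [h2, norm_smul, Real.norm_eq_abs, abs_of_pos (by positivity)]
    rw [mem_ball, dist_eq_norm] at hz
    have h3 : t⁻¹ = 2 * ‖x‖ := by rw [ht, inv_inv]
    rw [h3]
    nlinarith
  have hae : ∀ᵐ z ∂(volume.restrict (ball y (r / 2))), 0 < G z := by
    have h0 : ∀ᵐ z : Cn (n + 1) ∂volume, G z ≠ 0 := by
      rw [ae_iff]
      simpa using omega_null hG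
    filter_upwards [ae_restrict_of_ae h0] with z hz
    exact lt_of_le_of_ne (hG.psh.nonneg z) (Ne.symm hz)
  have hvolp : 0 < volume.real (ball y (r / 2)) := by
    rw [hvol y _ hr2']
    positivity
  have hne : ∃ z ∈ ball y (r / 2), 0 < G z := by
    by_contra hcon
    push Not at hcon
    have h1 : ∀ᵐ z ∂(volume.restrict (ball y (r / 2))), False := by
      filter_upwards [hae, ae_restrict_mem measurableSet_ball] with z hz hz'
      exact absurd hz (not_lt.2 (hcon z hz'))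
    rw [Filter.eventually_false_iff_eq_bot, ae_eq_bot, Measure.restrict_eq_zero] at h1
    exact (measure_ball_pos volume y hr2').ne' h1
  obtain ⟨z0, hz0, hGz0⟩ := hne
  have hSpos : 0 < S := lt_of_lt_of_le (by positivity) (hGz z0 hz0)
  have hlogG : ∀ᵐ z ∂(volume.restrict (ball y (r / 2))), Real.log (G z) ≤ Real.log (t * S) := by
    filter_upwards [hae, ae_restrict_mem measurableSet_ball] with z hz hz'
    apply Real.log_le_log hz
    have := hGz z hz'
    rw [inv_mul_le_iff₀ htp] at this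
    exact this
  have hint : IntegrableOn (fun z => Real.log (F z)) (ball y (r / 2)) := omega_intOn hF _ _
  have hintG : IntegrableOn (fun z => Real.log (G z)) (ball y (r / 2)) := omega_intOn hG _ _
  have h1 := omega_ball hF hFy0 hr2'
  have h2 : ∫ z in ball y (r / 2), Real.log (F z) =
      (∫ z in ball y (r / 2), Real.log (G z)) +
        ∫ z in ball y (r / 2), (Real.log (F z) - Real.log (G z)) := by
    rw [integral_sub hint hintG]
    ring
  have h3 : ∫ z in ball y (r / 2), Real.log (G z) ≤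
      Real.log (t * S) * volume.real (ball y (r / 2)) := by
    have hcst : IntegrableOn (fun _ : Cn (n + 1) => Real.log (t * S)) (ball y (r / 2)) volume :=
      integrableOn_const measure_ball_lt_top.ne
    have := integral_mono_ae hintG hcst hlogG
    rw [setIntegral_const, smul_eq_mul, mul_comm] at this
    exact this
  have h4 : ∫ z in ball y (r / 2), (Real.log (F z) - Real.log (G z)) ≤ δ := by
    have hI : IntegrableOn (fun z => |Real.log (F z) - Real.log (G z)|)
        (ball (0 : Cn (n + 1)) 1) :=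
      ((omega_intOn hF _ _).sub (omega_intOn hG _ _)).abs
    calc ∫ z in ball y (r / 2), (Real.log (F z) - Real.log (G z))
        ≤ ∫ z in ball y (r / 2), |Real.log (F z) - Real.log (G z)| :=
          integral_mono (hint.sub hintG) (hI.mono_set hsub) (fun z => le_abs_self _)
      _ ≤ δ := by
          refine setIntegral_mono_set hI ?_ (LE.le.eventuallyLE hsub)
          exact Filter.Eventually.of_forall fun z => abs_nonneg _
  have h5 : Real.log (F y) ≤ Real.log (t * S) + δ / volume.real (ball y (r / 2)) := by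
    have : Real.log (F y) * volume.real (ball y (r / 2)) ≤
        Real.log (t * S) * volume.real (ball y (r / 2)) + δ := by linarith
    rw [← sub_le_iff_le_add', le_div_iff₀ hvolp]
    linarith
  rw [hFy, Real.log_mul htp.ne' hFx.ne', Real.log_mul htp.ne' hSpos.ne'] at h5
  have h6 : Real.log (F x) ≤ Real.log S + δ / volume.real (ball y (r / 2)) := by linarith
  have h7 : δ / volume.real (ball y (r / 2)) = 2 ^ (2 * (n + 1)) / c / r ^ (2 * (n + 1)) * δ := by
    rw [hvol y _ hr2', div_pow]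
    field_simp
  rw [h7] at h6
  have h8 : Real.log (S / ‖x‖) ≤ Real.log (max (S / ‖x‖) r) :=
    Real.log_le_log (by positivity) (le_max_left _ _)
  rw [Real.log_div hSpos.ne' hxn.ne'] at h8
  rw [Real.log_div hFx.ne' hxn.ne']
  linarith

theorem Final_side {n : ℕ} {μ : Measure (Cn (n + 1))} [IsProbabilityMeasure μ]
    {b K r C₁ : ℝ} (hr : 0 < r) (hK : 0 < K) (hC₁ : 0 < C₁)
    {F G : Cn (n + 1) → ℝ}
    (hFi : Integrable (fun x => Real.log (F x / ‖x‖)) μ)
    (hGi : Integrable (fun x => Real.log (G x / ‖x‖)) μ)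
    (hpt : ∀ᵐ x ∂μ, Real.log (F x / ‖x‖) ≤
      Real.log (max (sSup (G '' closedBall x (r * ‖x‖)) / ‖x‖) r) +
        C₁ / r ^ (2 * (n + 1)) *
          ∫ z in ball (0 : Cn (n + 1)) 1, |Real.log (F z) - Real.log (G z)|)
    (hmod : ∫⁻ x, ENNReal.ofReal (Real.log (max (sSup (G '' closedBall x (r * ‖x‖)) / ‖x‖) r) -
          Real.log (G x / ‖x‖)) ∂μ ≤ ENNReal.ofReal (K * r ^ b)) :
    (∫ x, Real.log (F x / ‖x‖) ∂μ) - ∫ x, Real.log (G x / ‖x‖) ∂μ ≤
      K * r ^ b + C₁ / r ^ (2 * (n + 1)) *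
          ∫ z in ball (0 : Cn (n + 1)) 1, |Real.log (F z) - Real.log (G z)| := by
  set δ := ∫ z in ball (0 : Cn (n + 1)) 1, |Real.log (F z) - Real.log (G z)| with hδ
  have hδ0 : 0 ≤ δ := integral_nonneg fun z => abs_nonneg _
  set E := C₁ / r ^ (2 * (n + 1)) * δ with hE
  have hE0 : 0 ≤ E := by positivity
  rw [← integral_sub hFi hGi]
  have hi : Integrable (fun x => Real.log (F x / ‖x‖) - Real.log (G x / ‖x‖)) μ := hFi.sub hGi
  have hip : Integrable (fun x => max (Real.log (F x / ‖x‖) - Real.log (G x / ‖x‖)) 0) μ :=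
    hi.pos_part
  have h1 : ∫ x, (Real.log (F x / ‖x‖) - Real.log (G x / ‖x‖)) ∂μ ≤
      ∫ x, max (Real.log (F x / ‖x‖) - Real.log (G x / ‖x‖)) 0 ∂μ := by
    exact integral_mono hi hip fun x => le_max_left _ _
  refine h1.trans ?_
  have hnn : 0 ≤ᵐ[μ] (fun x => max (Real.log (F x / ‖x‖) - Real.log (G x / ‖x‖)) 0) :=
    Filter.Eventually.of_forall fun x => le_max_right _ _
  rw [integral_eq_lintegral_of_nonneg_ae hnn hip.aestronglyMeasurable]
  refine ENNReal.toReal_le_of_le_ofReal (by positivity) ?_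
  calc ∫⁻ x, ENNReal.ofReal (max (Real.log (F x / ‖x‖) - Real.log (G x / ‖x‖)) 0) ∂μ
      ≤ ∫⁻ x, (ENNReal.ofReal (Real.log (max (sSup (G '' closedBall x (r * ‖x‖)) / ‖x‖) r) -
          Real.log (G x / ‖x‖)) + ENNReal.ofReal E) ∂μ := by
        refine lintegral_mono_ae ?_
        filter_upwards [hpt] with x hx
        refine (ENNReal.ofReal_le_ofReal (q := max (Real.log (max (sSup (G '' closedBall x
          (r * ‖x‖)) / ‖x‖) r) - Real.log (G x / ‖x‖)) 0 + E) ?_).trans ?_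
        · refine max_le ?_ ?_
          · have := le_max_left (Real.log (max (sSup (G '' closedBall x
              (r * ‖x‖)) / ‖x‖) r) - Real.log (G x / ‖x‖)) 0
            linarith
          · have := le_max_right (Real.log (max (sSup (G '' closedBall x
              (r * ‖x‖)) / ‖x‖) r) - Real.log (G x / ‖x‖)) 0
            linarith
        · rw [ENNReal.ofReal_add (le_max_right _ _) hE0]
          refine add_le_add_left (le_of_eq ?_) _
          rw [ENNReal.ofReal_max, ENNReal.ofReal_zero, max_eq_left zero_le]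
    _ = ∫⁻ x, ENNReal.ofReal (Real.log (max (sSup (G '' closedBall x (r * ‖x‖)) / ‖x‖) r) -
          Real.log (G x / ‖x‖)) ∂μ + ENNReal.ofReal E := by
        rw [lintegral_add_right _ measurable_const, lintegral_const, measure_univ, mul_one]
    _ ≤ ENNReal.ofReal (K * r ^ b) + ENNReal.ofReal E := by gcongr
    _ = ENNReal.ofReal (K * r ^ b + E) := by
        rw [ENNReal.ofReal_add (by positivity) hE0]

/-- choice of the radius -/
theorem Final_opt {b K C₁ r₀ T δ I : ℝ} {N : ℕ} (hb : 0 < b) (hK : 0 < K) (hC₁ : 0 < C₁)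
    (hr₀ : 0 < r₀) (hT : 0 ≤ T) (hδ : 0 ≤ δ) (hI : I ≤ T)
    (h : ∀ r : ℝ, 0 < r → r ≤ r₀ → I ≤ K * r ^ b + C₁ / r ^ N * δ) :
    I ≤ (K + C₁ + T / r₀ ^ b) * δ ^ (b / (N + b)) := by
  have hN : (0 : ℝ) ≤ N := Nat.cast_nonneg N
  have hNb : 0 < (N : ℝ) + b := by linarith
  have hα : 0 < b / (N + b) := by positivity
  rcases hδ.eq_or_lt with h0 | hpos
  · rw [← h0, Real.zero_rpow hα.ne', mul_zero]
    rw [← h0] at h
    by_contra hcon
    push Not at hcon
    -- choose r with K r^b < I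
    set r := min r₀ ((I / (2 * K)) ^ (1 / b)) with hr
    have hIK : 0 < I / (2 * K) := by positivity
    have hrp : 0 < r := lt_min hr₀ (Real.rpow_pos_of_pos hIK _)
    have h1 := h r hrp (min_le_left _ _)
    rw [mul_zero, add_zero] at h1
    have h2 : r ^ b ≤ I / (2 * K) := by
      calc r ^ b ≤ ((I / (2 * K)) ^ (1 / b)) ^ b :=
            Real.rpow_le_rpow hrp.le (min_le_right _ _) hb.le
        _ = I / (2 * K) := by
            rw [← Real.rpow_mul hIK.le, one_div, inv_mul_cancel₀ hb.ne', Real.rpow_one]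
    have h3 : K * r ^ b ≤ K * (I / (2 * K)) := mul_le_mul_of_nonneg_left h2 hK.le
    have h4 : K * (I / (2 * K)) = I / 2 := by
      field_simp
    linarith
  · set r := δ ^ (1 / ((N : ℝ) + b)) with hr
    have hrp : 0 < r := Real.rpow_pos_of_pos hpos _
    have hrb : r ^ b = δ ^ (b / (N + b)) := by
      rw [hr, ← Real.rpow_mul hpos.le]
      congr 1
      ring
    rcases le_or_gt r r₀ with hle | hgt
    · have h1 := h r hrp hle
      have h2 : C₁ / r ^ N * δ = C₁ * δ ^ (b / (N + b)) := by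
        rw [← hrb]
        have h3 : δ = r ^ (N : ℕ) * r ^ b := by
          rw [← Real.rpow_natCast r N, ← Real.rpow_add hrp, hr, ← Real.rpow_mul hpos.le,
            one_div, inv_mul_cancel₀ hNb.ne', Real.rpow_one]
        conv_lhs => rw [h3]
        field_simp
      rw [h2, hrb] at h1
      have h5 : 0 ≤ T / r₀ ^ b * δ ^ (b / (N + b)) := by positivity
      nlinarith
    · have h1 : r₀ ^ b ≤ δ ^ (b / (N + b)) := by
        rw [← hrb]
        exact Real.rpow_le_rpow hr₀.le hgt.le hb.le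
      have hr0b : 0 < r₀ ^ b := Real.rpow_pos_of_pos hr₀ _
      have h2 : T ≤ T / r₀ ^ b * δ ^ (b / (N + b)) := by
        rw [div_mul_eq_mul_div, le_div_iff₀ hr0b]
        exact mul_le_mul_of_nonneg_left h1 hT
      have h3 : 0 ≤ (K + C₁) * δ ^ (b / (N + b)) := by positivity
      nlinarith

theorem moderate_holder {n : ℕ} (hn : 1 ≤ n) {μ : Measure (Cn (n + 1))} [IsProbabilityMeasure μ]
    (h0 : μ {0} = 0) (hm : Moderate n μ) : ∃ α : ℝ, 0 < α ∧ ∀ A : ℝ, 1 ≤ A → ∃ C : ℝ, 0 < C ∧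
      ∀ F G : Cn (n + 1) → ℝ, OmegaPsh n F → OmegaPsh n G → Nrm A F → Nrm A G →
        Integrable (fun x => Real.log (F x / ‖x‖)) μ ∧
        |(∫ x, Real.log (F x / ‖x‖) ∂μ) - ∫ x, Real.log (G x / ‖x‖) ∂μ| ≤
          C * (∫ x in ball (0 : Cn (n + 1)) 1, |Real.log (F x) - Real.log (G x)|) ^ α := by
  obtain ⟨ε, hε, hε1, hunif⟩ := unif h0 hm
  obtain ⟨b, hb, hmod⟩ := modulus hn h0 hm
  obtain ⟨C₁, hC₁, hpt⟩ := Final_pt n
  refine ⟨b / ((2 * (n + 1) : ℕ) + b), by positivity, ?_⟩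
  intro A hA
  obtain ⟨CA, hCA, hunifA⟩ := hunif A hA
  obtain ⟨K, r₀, hK, hr₀, hr₀2, hmodA⟩ := hmod A hA
  have hT : 0 ≤ 2 * (A + CA / ε) := by positivity
  refine ⟨K + C₁ + 2 * (A + CA / ε) / r₀ ^ b, by positivity, ?_⟩
  intro F G hF hG hNF hNG
  have hFi := Final_integrable (μ := μ) hA hε hF hNF (hunifA F hF hNF)
  have hGi := Final_integrable (μ := μ) hA hε hG hNG (hunifA G hG hNG)
  have hFa := Final_abs (μ := μ) hA hε hCA hF hNF (hunifA F hF hNF)
  have hGa := Final_abs (μ := μ) hA hε hCA hG hNG (hunifA G hG hNG)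
  have hFp := Final_pos (μ := μ) hε hF (hunifA F hF hNF)
  have hGp := Final_pos (μ := μ) hε hG (hunifA G hG hNG)
  refine ⟨hFi, ?_⟩
  have hδ0 : 0 ≤ ∫ x in ball (0 : Cn (n + 1)) 1, |Real.log (F x) - Real.log (G x)| :=
    integral_nonneg fun z => abs_nonneg _
  have hcomm : ∫ x in ball (0 : Cn (n + 1)) 1, |Real.log (G x) - Real.log (F x)| =
      ∫ x in ball (0 : Cn (n + 1)) 1, |Real.log (F x) - Real.log (G x)| := by
    congr 1
    funext x
    exact abs_sub_comm _ _
  have h1 := abs_le.1 hFa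
  have h2 := abs_le.1 hGa
  rw [abs_le]
  constructor
  · have key := Final_opt (I := (∫ x, Real.log (G x / ‖x‖) ∂μ) - ∫ x, Real.log (F x / ‖x‖) ∂μ)
      (N := 2 * (n + 1)) hb hK hC₁ hr₀ hT hδ0 (by linarith) (by
        intro r hr hr'
        have := Final_side (μ := μ) (b := b) (K := K) (r := r) (C₁ := C₁) (F := G) (G := F) hr hK
          hC₁ hGi hFi (by
            filter_upwards [hGp] with x hx
            exact hpt G F A hG hF hA hNF.le x hx.1 hx.2 r hr (by linarith))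
          (hmodA F hF hNF r hr hr')
        rwa [hcomm] at this)
    linarith
  · exact Final_opt (N := 2 * (n + 1)) hb hK hC₁ hr₀ hT hδ0 (by linarith) (by
        intro r hr hr'
        exact Final_side (μ := μ) (b := b) (K := K) (r := r) (C₁ := C₁) (F := F) (G := G) hr hK
          hC₁ hFi hGi (by
            filter_upwards [hFp] with x hx
            exact hpt F G A hF hG hA hNG.le x hx.1 hx.2 r hr (by linarith))
          (hmodA G hG hNG r hr hr'))

end HMA
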