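import Pool.Agent.H85.MA.RBnd

/-! # Module GEO: geometry of the induction step -/

open MeasureTheory Metric Set
open scoped ENNReal Topology ContDiff

namespace HMA

theorem Geo_normalize {E : Type} [NormedAddCommGroup E] [NormedSpace ℂ E] (a b : E)
    (ha : a ≠ 0) (hb : b ≠ 0) :
    ‖((‖a‖⁻¹ : ℝ) : ℂ) • a - ((‖b‖⁻¹ : ℝ) : ℂ) • b‖ ≤ 2 * ‖a - b‖ / ‖a‖ := by
  have hna : 0 < ‖a‖ := norm_pos_iff.mpr ha
  have hnb : 0 < ‖b‖ := norm_pos_iff.mpr hb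
  have h1 : ((‖a‖⁻¹ : ℝ) : ℂ) • a - ((‖b‖⁻¹ : ℝ) : ℂ) • b =
      ((‖a‖⁻¹ : ℝ) : ℂ) • (a - b) + ((‖a‖⁻¹ - ‖b‖⁻¹ : ℝ) : ℂ) • b := by
    rw [smul_sub, Complex.ofReal_sub, sub_smul]
    abel
  rw [h1]
  refine (norm_add_le _ _).trans ?_
  rw [norm_smul, norm_smul, Complex.norm_real, Complex.norm_real, Real.norm_eq_abs,
    Real.norm_eq_abs, abs_of_pos (inv_pos.mpr hna)]
  have h2 : |‖a‖⁻¹ - ‖b‖⁻¹| * ‖b‖ = |‖b‖ - ‖a‖| / ‖a‖ := by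
    have h3 : ‖a‖⁻¹ - ‖b‖⁻¹ = (‖b‖ - ‖a‖) / (‖a‖ * ‖b‖) := by
      field_simp
    rw [h3, abs_div, abs_of_pos (mul_pos hna hnb)]
    field_simp
  rw [h2]
  have h3 : |‖b‖ - ‖a‖| ≤ ‖a - b‖ := by
    rw [abs_sub_comm]
    exact abs_norm_sub_norm_le a b
  have h4 : |‖b‖ - ‖a‖| / ‖a‖ ≤ ‖a - b‖ / ‖a‖ := div_le_div_of_nonneg_right h3 hna.le
  calc ‖a‖⁻¹ * ‖a - b‖ + |‖b‖ - ‖a‖| / ‖a‖ ≤ ‖a‖⁻¹ * ‖a - b‖ + ‖a - b‖ / ‖a‖ := by linarith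
    _ = 2 * ‖a - b‖ / ‖a‖ := by ring

/-- decomposition along `p` -/
theorem Geo_decomp {V : Type} [NormedAddCommGroup V] [InnerProductSpace ℂ V]
    [FiniteDimensional ℂ V] {p : V} (hp : ‖p‖ = 1) (y : V) :
    (((ℂ ∙ p)ᗮ.orthogonalProjectionOnto y : ↥(ℂ ∙ p)ᗮ) : V) = y - (inner ℂ p y : ℂ) • p := by
  have hmem : y - (inner ℂ p y : ℂ) • p ∈ (ℂ ∙ p)ᗮ := by
    rw [Submodule.mem_orthogonal_singleton_iff_inner_right, inner_sub_right, inner_smul_right,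
      inner_self_eq_norm_sq_to_K, hp]
    simp
  have h1 : y = ((⟨_, hmem⟩ : ↥(ℂ ∙ p)ᗮ) : V) + (inner ℂ p y : ℂ) • p := by simp
  conv_lhs => rw [h1]
  rw [map_add, map_smul, Submodule.orthogonalProjectionOnto_mem_subspace_eq_self,
    Submodule.orthogonalProjectionOnto_orthogonalComplement_singleton_eq_zero, smul_zero, add_zero]

/-- A point near the zero set of `P` whose projection is not near the zero set of `D` is, after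
scaling, near a zero of `P` over the slice `e + u`, `u ⊥ e`, for some `e` of the net. -/
theorem geo {V : Type} [NormedAddCommGroup V] [InnerProductSpace ℂ V] [FiniteDimensional ℂ V]
    {d : ℕ} (hd : 1 ≤ d) {P : V → ℂ} (hP : HP V d P) (hbd : ∀ x, ‖P x‖ ≤ 2 * ‖x‖ ^ d)
    {p : V} (hp : ‖p‖ = 1) (hPp : 1 / 2 ≤ ‖P p‖) {e' : ℕ} {D : ↥(ℂ ∙ p)ᗮ → ℂ}
    (hD : HP ↥(ℂ ∙ p)ᗮ e' D) {ρ ρ₁ r : ℝ} (hρ : 0 < ρ) (hρ1 : 0 < ρ₁) (hρ₁ : ρ₁ ≤ 1 / 16)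
    (hr : 0 < r) (hr1 : 16 * (1 + 16 * d) * r ≤ ρ₁)
    (T : Set ↥(ℂ ∙ p)ᗮ)
    (hT : ∀ e : ↥(ℂ ∙ p)ᗮ, ‖e‖ = 1 → e ∉ nearZ D ρ → ∃ e₁ ∈ T, ‖e - e₁‖ ≤ ρ₁)
    (hT1 : ∀ e ∈ T, ‖e‖ = 1)
    {x : V} (hx : x ∈ nearZ P r)
    (hx' : (ℂ ∙ p)ᗮ.orthogonalProjectionOnto x ∉ nearZ D ρ) :
    ∃ e ∈ T, ∃ c : ℂ, c ≠ 0 ∧ ∃ u : ↥(ℂ ∙ p)ᗮ, inner ℂ e u = 0 ∧ ‖u‖ ≤ 4 * ρ₁ ∧
      ∃ v : ℂ, P (((e + u : ↥(ℂ ∙ p)ᗮ) : V) + v • p) = 0 ∧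
        ‖c • x - ((e + u : ↥(ℂ ∙ p)ᗮ) : V) - v • p‖ ≤ 8 * (1 + 16 * d) * r := by
  obtain ⟨hx0, y, hy0, hyx⟩ := hx
  set z : ↥(ℂ ∙ p)ᗮ := (ℂ ∙ p)ᗮ.orthogonalProjectionOnto x with hz
  set zy : ↥(ℂ ∙ p)ᗮ := (ℂ ∙ p)ᗮ.orthogonalProjectionOnto y with hzy
  set w : ℂ := inner ℂ p y with hw
  have hdR : (1 : ℝ) ≤ d := by exact_mod_cast hd
  have hr' : 16 * 17 * r ≤ ρ₁ := by
    have : 16 * 17 * r ≤ 16 * (1 + 16 * d) * r := by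
      apply mul_le_mul_of_nonneg_right _ hr.le
      linarith
    linarith
  have hyd : y = (zy : V) + w • p := by
    rw [hzy, Geo_decomp hp y]
    simp [hw]
  have hpz : inner ℂ p (zy : V) = 0 :=
    Submodule.mem_orthogonal_singleton_iff_inner_right.mp zy.2
  have hPy : P ((zy : V) + w • p) = 0 := by rw [← hyd]; exact hy0
  have hwb : ‖w‖ ≤ 16 * d * ‖(zy : V)‖ := root_bound hd hP hbd hp hPp hpz hPy
  have hyn : ‖y‖ ≤ (1 + 16 * d) * ‖zy‖ := by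
    calc ‖y‖ = ‖(zy : V) + w • p‖ := by rw [← hyd]
      _ ≤ ‖(zy : V)‖ + ‖w • p‖ := norm_add_le _ _
      _ = ‖(zy : V)‖ + ‖w‖ := by rw [norm_smul, hp, mul_one]
      _ ≤ ‖(zy : V)‖ + 16 * d * ‖(zy : V)‖ := by linarith
      _ = (1 + 16 * d) * ‖zy‖ := by rw [Submodule.coe_norm]; ring
  have hxn : 0 < ‖x‖ := norm_pos_iff.mpr hx0
  have hxy : ‖x‖ ≤ 2 * ‖y‖ := by
    have h1 : ‖x‖ ≤ ‖y‖ + ‖y - x‖ := by
      calc ‖x‖ = ‖y - (y - x)‖ := by rw [sub_sub_cancel]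
        _ ≤ ‖y‖ + ‖y - x‖ := norm_sub_le _ _
    have h2 : r * ‖x‖ ≤ 1 / 2 * ‖x‖ := mul_le_mul_of_nonneg_right (by linarith) hxn.le
    linarith
  have hzyn : 0 < ‖zy‖ := by
    by_contra h
    have h1 : ‖zy‖ = 0 := le_antisymm (not_lt.mp h) (norm_nonneg _)
    rw [h1, mul_zero] at hyn
    linarith
  have hrx : r * ‖x‖ ≤ 2 * (1 + 16 * d) * r * ‖zy‖ := by
    have h1 : ‖x‖ ≤ 2 * ((1 + 16 * d) * ‖zy‖) := by linarith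
    calc r * ‖x‖ ≤ r * (2 * ((1 + 16 * d) * ‖zy‖)) := mul_le_mul_of_nonneg_left h1 hr.le
      _ = _ := by ring
  have hzz : ‖zy - z‖ ≤ r * ‖x‖ := by
    rw [hzy, hz, ← map_sub]
    exact (Submodule.norm_orthogonalProjectionOnto_apply_le _ _).trans hyx
  have hzz' : ‖zy - z‖ ≤ ρ₁ / 8 * ‖zy‖ := by
    have h1 : 2 * (1 + 16 * d) * r ≤ ρ₁ / 8 := by linarith
    exact hzz.trans (hrx.trans (mul_le_mul_of_nonneg_right h1 hzyn.le))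
  have hz0 : z ≠ 0 := by
    intro h
    rw [h, sub_zero] at hzz'
    nlinarith
  have hzn : 0 < ‖z‖ := norm_pos_iff.mpr hz0
  have hzy0 : zy ≠ 0 := norm_pos_iff.mp hzyn
  -- the unit vector `e₀`
  set e₀ : ↥(ℂ ∙ p)ᗮ := ((‖z‖⁻¹ : ℝ) : ℂ) • z with he₀
  have he₀n : ‖e₀‖ = 1 := by
    rw [he₀, norm_smul, Complex.norm_real, Real.norm_eq_abs, abs_of_pos (inv_pos.mpr hzn)]
    exact inv_mul_cancel₀ hzn.ne'
  have he₀D : e₀ ∉ nearZ D ρ := by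
    rintro ⟨-, y', hy', hy'2⟩
    refine hx' ⟨hz0, ((‖z‖ : ℝ) : ℂ) • y', ?_, ?_⟩
    · rw [hD.hom, hy', mul_zero]
    · have h1 : ((‖z‖ : ℝ) : ℂ) • y' - z = ((‖z‖ : ℝ) : ℂ) • (y' - e₀) := by
        rw [smul_sub, he₀, smul_smul, ← Complex.ofReal_mul, mul_inv_cancel₀ hzn.ne',
          Complex.ofReal_one, one_smul]
      rw [h1, norm_smul, Complex.norm_real, Real.norm_eq_abs, abs_of_pos hzn]
      rw [he₀n, mul_one] at hy'2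
      calc ‖z‖ * ‖y' - e₀‖ ≤ ‖z‖ * ρ := mul_le_mul_of_nonneg_left hy'2 hzn.le
        _ = ρ * ‖z‖ := mul_comm _ _
  obtain ⟨e₁, he₁T, he₁⟩ := hT e₀ he₀n he₀D
  have he₁n := hT1 e₁ he₁T
  set η : ↥(ℂ ∙ p)ᗮ := ((‖zy‖⁻¹ : ℝ) : ℂ) • zy with hη
  have hηn : ‖η‖ = 1 := by
    rw [hη, norm_smul, Complex.norm_real, Real.norm_eq_abs, abs_of_pos (inv_pos.mpr hzyn)]
    exact inv_mul_cancel₀ hzyn.ne'
  have hηe₀ : ‖η - e₀‖ ≤ ρ₁ / 4 := by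
    have h1 := Geo_normalize zy z hzy0 hz0
    have h2 : 2 * ‖zy - z‖ / ‖zy‖ ≤ ρ₁ / 4 := by
      rw [div_le_iff₀ hzyn]
      linarith
    exact h1.trans h2
  have hηe₁ : ‖η - e₁‖ ≤ 5 / 4 * ρ₁ := by
    calc ‖η - e₁‖ = ‖(η - e₀) + (e₀ - e₁)‖ := by congr 1; abel
      _ ≤ ‖η - e₀‖ + ‖e₀ - e₁‖ := norm_add_le _ _
      _ ≤ 5 / 4 * ρ₁ := by linarith
  set q : ℂ := inner ℂ e₁ η with hq
  have hq1 : ‖q - 1‖ ≤ 5 / 4 * ρ₁ := by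
    have h1 : q - 1 = inner ℂ e₁ (η - e₁) := by
      rw [inner_sub_right, inner_self_eq_norm_sq_to_K, he₁n, hq]
      simp
    rw [h1]
    calc ‖inner ℂ e₁ (η - e₁)‖ ≤ ‖e₁‖ * ‖η - e₁‖ := norm_inner_le_norm _ _
      _ ≤ 5 / 4 * ρ₁ := by rw [he₁n, one_mul]; exact hηe₁
  have hqn : 59 / 64 ≤ ‖q‖ := by
    have h1 : (1 : ℝ) ≤ ‖q‖ + ‖q - 1‖ := by
      calc (1 : ℝ) = ‖(1 : ℂ)‖ := norm_one.symm
        _ = ‖q - (q - 1)‖ := by congr 1; ring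
        _ ≤ ‖q‖ + ‖q - 1‖ := norm_sub_le _ _
    linarith
  have hqpos : 0 < ‖q‖ := by linarith
  have hq0 : q ≠ 0 := norm_pos_iff.mp hqpos
  have hc'n : ‖q⁻¹‖ ≤ 64 / 59 := by
    rw [norm_inv, inv_le_comm₀ hqpos (by norm_num)]
    linarith
  have hc'1 : ‖q⁻¹ - 1‖ ≤ 64 / 59 * (5 / 4 * ρ₁) := by
    have h1 : q⁻¹ - 1 = q⁻¹ * (1 - q) := by
      field_simp
    rw [h1, norm_mul, norm_sub_rev 1 q]
    exact mul_le_mul hc'n hq1 (norm_nonneg _) (by norm_num)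
  -- the final data
  refine ⟨e₁, he₁T, q⁻¹ * ((‖zy‖⁻¹ : ℝ) : ℂ), ?_, q⁻¹ • η - e₁, ?_, ?_,
    q⁻¹ * ((‖zy‖⁻¹ : ℝ) : ℂ) * w, ?_, ?_⟩
  · refine mul_ne_zero (inv_ne_zero hq0) ?_
    rw [Ne, Complex.ofReal_eq_zero]
    exact inv_ne_zero hzyn.ne'
  · rw [inner_sub_right, inner_smul_right, inner_self_eq_norm_sq_to_K, he₁n, ← hq,
      inv_mul_cancel₀ hq0]
    simp
  · have h1 : q⁻¹ • η - e₁ = (q⁻¹ - 1) • η + (η - e₁) := by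
      rw [sub_smul, one_smul]
      abel
    rw [h1]
    refine (norm_add_le _ _).trans ?_
    rw [norm_smul, hηn, mul_one]
    linarith
  · have h1 : ((e₁ + (q⁻¹ • η - e₁) : ↥(ℂ ∙ p)ᗮ) : V) +
        (q⁻¹ * ((‖zy‖⁻¹ : ℝ) : ℂ) * w) • p = (q⁻¹ * ((‖zy‖⁻¹ : ℝ) : ℂ)) • y := by
      rw [add_sub_cancel, hη, smul_smul]
      conv_rhs => rw [hyd]
      rw [smul_add, smul_smul]
      rfl
    rw [h1, hP.hom, hy0, mul_zero]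
  · have h1 : ((e₁ + (q⁻¹ • η - e₁) : ↥(ℂ ∙ p)ᗮ) : V) +
        (q⁻¹ * ((‖zy‖⁻¹ : ℝ) : ℂ) * w) • p = (q⁻¹ * ((‖zy‖⁻¹ : ℝ) : ℂ)) • y := by
      rw [add_sub_cancel, hη, smul_smul]
      conv_rhs => rw [hyd]
      rw [smul_add, smul_smul]
      rfl
    rw [sub_sub, h1, ← smul_sub, norm_smul, norm_mul, Complex.norm_real, Real.norm_eq_abs,
      abs_of_pos (inv_pos.mpr hzyn)]
    have h2 : ‖x - y‖ ≤ 2 * (1 + 16 * d) * r * ‖zy‖ := by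
      rw [norm_sub_rev]
      exact hyx.trans hrx
    calc ‖q⁻¹‖ * ‖zy‖⁻¹ * ‖x - y‖ ≤ 64 / 59 * ‖zy‖⁻¹ * (2 * (1 + 16 * d) * r * ‖zy‖) := by
          apply mul_le_mul _ h2 (norm_nonneg _) (by positivity)
          exact mul_le_mul_of_nonneg_right hc'n (inv_nonneg.mpr hzyn.le)
      _ = 64 / 59 * 2 * ((1 + 16 * d) * r) := by
          field_simp
      _ ≤ 8 * (1 + 16 * d) * r := by
          have h3 : 0 ≤ (1 + 16 * d) * r := by positivity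
          nlinarith

end HMA
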