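import Pool.Agent.H85.MA.Defs

/-! # Module HPB: homogeneous polynomial functions, algebra -/

open MeasureTheory Metric Set
open scoped ENNReal Topology ContDiff

namespace HMA

variable {V W : Type} [AddCommGroup V] [Module ℂ V] [AddCommGroup W] [Module ℂ W]

theorem HPBasic_const (c : ℂ) : (fun _ : V => c) ∈ PF V :=
  (PF V).algebraMap_mem c

theorem PF.linear (l : V →ₗ[ℂ] ℂ) : (fun x => l x) ∈ PF V :=
  Algebra.subset_adjoin ⟨l, rfl⟩

theorem HPBasic_induction {p : (V → ℂ) → Prop} (hlin : ∀ l : V →ₗ[ℂ] ℂ, p (fun x => l x))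
    (hconst : ∀ c : ℂ, p (fun _ => c)) (hadd : ∀ f g, p f → p g → p (fun x => f x + g x))
    (hmul : ∀ f g, p f → p g → p (fun x => f x * g x)) {f : V → ℂ} (hf : f ∈ PF V) : p f := by
  unfold PF at hf
  induction hf using Algebra.adjoin_induction with
  | mem x hx => obtain ⟨l, rfl⟩ := hx; exact hlin l
  | algebraMap c => exact hconst c
  | add x y _ _ hx hy => exact hadd x y hx hy
  | mul x y _ _ hx hy => exact hmul x y hx hy

theorem PF.comp_affine (L : W →ₗ[ℂ] V) (a : V) {f : V → ℂ} (hf : f ∈ PF V) :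
    (fun x => f (a + L x)) ∈ PF W := by
  revert f
  apply HPBasic_induction (p := fun f => (fun x => f (a + L x)) ∈ PF W)
  · intro l
    have h : (fun x => l (a + L x)) = (fun _ => l a) + (fun x => (l.comp L) x) := by
      funext x
      simp
    rw [h]
    exact (PF W).add_mem (HPBasic_const _) (PF.linear _)
  · intro c
    exact HPBasic_const c
  · intro f g hf hg
    exact (PF W).add_mem hf hg
  · intro f g hf hg
    exact (PF W).mul_mem hf hg

theorem HP.comp (L : W →ₗ[ℂ] V) {d : ℕ} {f : V → ℂ} (hf : HP V d f) :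
    HP W d (fun x => f (L x)) := by
  refine ⟨?_, ?_⟩
  · have h := PF.comp_affine L 0 hf.poly
    simpa using h
  · intro c x
    rw [map_smul, hf.hom]

theorem HP.linear (l : V →ₗ[ℂ] ℂ) : HP V 1 (fun x => l x) := by
  refine ⟨PF.linear l, ?_⟩
  intro c x
  rw [map_smul, pow_one, smul_eq_mul]

theorem HP.const (c : ℂ) : HP V 0 (fun _ => c) := by
  refine ⟨HPBasic_const c, ?_⟩
  intro c x
  rw [pow_zero, one_mul]

theorem HP.mul {d e : ℕ} {f g : V → ℂ} (hf : HP V d f) (hg : HP V e g) :
    HP V (d + e) (fun x => f x * g x) := by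
  refine ⟨(PF V).mul_mem hf.poly hg.poly, ?_⟩
  intro c x
  rw [hf.hom, hg.hom, pow_add]
  ring

theorem HP.pow {d : ℕ} {f : V → ℂ} (hf : HP V d f) (k : ℕ) :
    HP V (d * k) (fun x => f x ^ k) := by
  refine ⟨(PF V).pow_mem hf.poly k, ?_⟩
  intro c x
  rw [hf.hom, mul_pow, pow_mul]

theorem HP.add {d : ℕ} {f g : V → ℂ} (hf : HP V d f) (hg : HP V d g) :
    HP V d (fun x => f x + g x) := by
  refine ⟨(PF V).add_mem hf.poly hg.poly, ?_⟩
  intro c x
  rw [hf.hom, hg.hom, mul_add]

theorem HP.const_mul {d : ℕ} {f : V → ℂ} (hf : HP V d f) (c : ℂ) :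
    HP V d (fun x => c * f x) := by
  have h := (HP.const (V := V) c).mul hf
  rwa [zero_add] at h

theorem HPBasic_zero (d : ℕ) : HP V d (fun _ => (0 : ℂ)) := by
  refine ⟨HPBasic_const 0, ?_⟩
  intro c x
  rw [mul_zero]

theorem HP.sum {ι : Type} (s : Finset ι) {d : ℕ} {f : ι → V → ℂ} (hf : ∀ i ∈ s, HP V d (f i)) :
    HP V d (fun x => ∑ i ∈ s, f i x) := by
  classical
  induction s using Finset.induction_on with
  | empty =>
    simp only [Finset.sum_empty]
    exact HPBasic_zero d
  | insert i s hi ih =>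
    have h : (fun x => ∑ j ∈ insert i s, f j x) = fun x => f i x + ∑ j ∈ s, f j x := by
      funext x
      rw [Finset.sum_insert hi]
    rw [h]
    exact (hf i (Finset.mem_insert_self i s)).add (ih fun j hj => hf j (Finset.mem_insert_of_mem hj))

theorem HP.prod {ι : Type} (s : Finset ι) {d : ι → ℕ} {f : ι → V → ℂ}
    (hf : ∀ i ∈ s, HP V (d i) (f i)) : HP V (∑ i ∈ s, d i) (fun x => ∏ i ∈ s, f i x) := by
  classical
  induction s using Finset.induction_on with
  | empty =>
    simp only [Finset.prod_empty, Finset.sum_empty]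
    exact HP.const 1
  | insert i s hi ih =>
    have h : (fun x => ∏ j ∈ insert i s, f j x) = fun x => f i x * ∏ j ∈ s, f j x := by
      funext x
      rw [Finset.prod_insert hi]
    rw [h, Finset.sum_insert hi]
    exact (hf i (Finset.mem_insert_self i s)).mul (ih fun j hj => hf j (Finset.mem_insert_of_mem hj))

theorem HP.map_zero {d : ℕ} (hd : 1 ≤ d) {f : V → ℂ} (hf : HP V d f) : f 0 = 0 := by
  have h := hf.hom 0 0
  rw [smul_zero, zero_pow (by omega), zero_mul] at h
  exact h

theorem HP.eq_const {f : V → ℂ} (hf : HP V 0 f) (x : V) : f x = f 0 := by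
  have h := hf.hom 0 x
  rw [zero_smul, pow_zero, one_mul] at h
  exact h.symm

/-- polynomial functions restricted to lines -/
theorem HPBasic_line (b : V) {f : V → ℂ} (hf : f ∈ PF V) :
    ∃ q : Polynomial ℂ, ∀ c : ℂ, f (c • b) = q.eval c := by
  revert f
  apply HPBasic_induction (p := fun f => ∃ q : Polynomial ℂ, ∀ c : ℂ, f (c • b) = q.eval c)
  · intro l
    refine ⟨Polynomial.C (l b) * Polynomial.X, fun c => ?_⟩
    show l (c • b) = _
    rw [map_smul, Polynomial.eval_mul, Polynomial.eval_C, Polynomial.eval_X, smul_eq_mul, mul_comm]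
  · intro a
    exact ⟨Polynomial.C a, fun c => (Polynomial.eval_C).symm⟩
  · rintro f g ⟨q, hq⟩ ⟨q', hq'⟩
    exact ⟨q + q', fun c => by rw [Polynomial.eval_add, ← hq, ← hq']⟩
  · rintro f g ⟨q, hq⟩ ⟨q', hq'⟩
    exact ⟨q * q', fun c => by rw [Polynomial.eval_mul, ← hq, ← hq']⟩

/-- evaluation of polynomial functions at a point -/
def HPBasic_ev (z : W) : PF W →+* ℂ := (Pi.evalRingHom (fun _ => ℂ) z).comp (PF W).val.toRingHom

theorem HPBasic_ev_apply (z : W) (f : PF W) : HPBasic_ev z f = (f : W → ℂ) z := rfl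

theorem HPBasic_poly (L : W →ₗ[ℂ] V) (p : V) {f : V → ℂ} (hf : f ∈ PF V) :
    ∃ G : Polynomial (PF W), ∀ z w, f (L z + w • p) = G.eval₂ (HPBasic_ev z) w := by
  revert f
  apply HPBasic_induction (p := fun f => ∃ G : Polynomial (PF W), ∀ z w,
    f (L z + w • p) = G.eval₂ (HPBasic_ev z) w)
  · intro l
    refine ⟨Polynomial.C ⟨fun x => (l.comp L) x, PF.linear _⟩ +
      Polynomial.C ⟨fun _ => l p, HPBasic_const _⟩ * Polynomial.X, fun z w => ?_⟩
    rw [Polynomial.eval₂_add, Polynomial.eval₂_mul, Polynomial.eval₂_C, Polynomial.eval₂_C,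
      Polynomial.eval₂_X, HPBasic_ev_apply, HPBasic_ev_apply]
    simp only [map_add, map_smul, smul_eq_mul, LinearMap.comp_apply]
    ring
  · intro c
    refine ⟨Polynomial.C ⟨fun _ => c, HPBasic_const _⟩, fun z w => ?_⟩
    rw [Polynomial.eval₂_C, HPBasic_ev_apply]
  · rintro f g ⟨q, hq⟩ ⟨q', hq'⟩
    exact ⟨q + q', fun z w => by rw [Polynomial.eval₂_add, ← hq, ← hq']⟩
  · rintro f g ⟨q, hq⟩ ⟨q', hq'⟩
    exact ⟨q * q', fun z w => by rw [Polynomial.eval₂_mul, ← hq, ← hq']⟩

theorem HPBasic_eq_of_ne {q q' : Polynomial ℂ} (h : ∀ c : ℂ, c ≠ 0 → q.eval c = q'.eval c) :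
    q = q' := by
  apply Polynomial.eq_of_infinite_eval_eq
  apply Set.Infinite.mono (s := {c : ℂ | c ≠ 0})
  · intro c hc
    exact h c hc
  · have h1 : ({0}ᶜ : Set ℂ).Infinite := Set.Finite.infinite_compl (Set.finite_singleton 0)
    exact h1

/-- the coefficients on lines -/
theorem hp_coeff (L : W →ₗ[ℂ] V) (p : V) {d : ℕ} {P : V → ℂ} (hP : HP V d P) :
    ∃ f : ℕ → W → ℂ, (∀ k ≤ d, HP W (d - k) (f k)) ∧
      (∀ z w, P (L z + w • p) = ∑ k ∈ Finset.range (d + 1), f k z * w ^ k) ∧
      ∀ z, f d z = P p := by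
  obtain ⟨G, hG⟩ := HPBasic_poly L p hP.poly
  set f : ℕ → W → ℂ := fun k => (G.coeff k : W → ℂ) with hf
  have hfPF : ∀ k, f k ∈ PF W := fun k => (G.coeff k).2
  -- the polynomial in `w` at `z`
  have hGz : ∀ z w, P (L z + w • p) = (G.map (HPBasic_ev z)).eval w := by
    intro z w
    rw [hG, Polynomial.eval_map]
  have hcoef : ∀ z k, (G.map (HPBasic_ev z)).coeff k = f k z := by
    intro z k
    rw [Polynomial.coeff_map]
    rfl
  have key : ∀ (c : ℂ) z k, f k (c • z) * c ^ k = c ^ d * f k z := by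
    intro c z k
    have h1 : (G.map (HPBasic_ev (c • z))).comp (Polynomial.C c * Polynomial.X) =
        Polynomial.C (c ^ d) * G.map (HPBasic_ev z) := by
      apply Polynomial.funext
      intro w
      rw [Polynomial.eval_comp, Polynomial.eval_mul, Polynomial.eval_mul, Polynomial.eval_C,
        Polynomial.eval_C, Polynomial.eval_X, ← hGz, ← hGz, ← hP.hom, map_smul, smul_add, smul_smul]
    have h2 := congrArg (fun q => Polynomial.coeff q k) h1
    simp only [Polynomial.comp_C_mul_X_coeff, Polynomial.coeff_C_mul] at h2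
    rw [hcoef, hcoef] at h2
    exact h2
  have hline : ∀ z k, ∃ q : Polynomial ℂ, ∀ c : ℂ, f k (c • z) = q.eval c :=
    fun z k => HPBasic_line z (hfPF k)
  have hhom : ∀ k ≤ d, HP W (d - k) (f k) := by
    intro k hk
    refine ⟨hfPF k, ?_⟩
    intro c z
    obtain ⟨q, hq⟩ := hline z k
    have h1 : q = Polynomial.X ^ (d - k) * Polynomial.C (f k z) := by
      apply HPBasic_eq_of_ne
      intro c hc
      have h2 := key c z k
      rw [hq] at h2
      rw [Polynomial.eval_mul, Polynomial.eval_pow, Polynomial.eval_X, Polynomial.eval_C]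
      have h3 : c ^ d = c ^ (d - k) * c ^ k := by rw [← pow_add]; congr 1; omega
      rw [h3] at h2
      apply mul_right_cancel₀ (pow_ne_zero k hc)
      rw [h2]
      ring
    rw [hq, h1, Polynomial.eval_mul, Polynomial.eval_pow, Polynomial.eval_X, Polynomial.eval_C]
  have hzero : ∀ k, d < k → ∀ z, f k z = 0 := by
    intro k hk z
    obtain ⟨q, hq⟩ := hline z k
    have h1 : q * Polynomial.X ^ k = Polynomial.X ^ d * Polynomial.C (f k z) := by
      apply Polynomial.funext
      intro c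
      rw [Polynomial.eval_mul, Polynomial.eval_mul, Polynomial.eval_pow, Polynomial.eval_pow,
        Polynomial.eval_X, Polynomial.eval_C, ← hq]
      exact key c z k
    have h2 := congrArg (fun q => Polynomial.coeff q d) h1
    simp only [Polynomial.coeff_mul_X_pow', Polynomial.coeff_X_pow_mul', if_neg (not_le.2 hk),
      if_pos (le_refl d), Nat.sub_self, Polynomial.coeff_C_zero] at h2
    exact h2.symm
  have hsum : ∀ z w, P (L z + w • p) = ∑ k ∈ Finset.range (d + 1), f k z * w ^ k := by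
    intro z w
    have hdeg : (G.map (HPBasic_ev z)).natDegree < d + 1 := by
      rw [Nat.lt_succ_iff, Polynomial.natDegree_le_iff_coeff_eq_zero]
      intro k hk
      rw [hcoef]
      exact hzero k hk z
    rw [hGz, Polynomial.eval_eq_sum_range' hdeg]
    refine Finset.sum_congr rfl fun k _ => ?_
    rw [hcoef]
  refine ⟨f, hhom, hsum, ?_⟩
  intro z
  have h0 : HP W 0 (f d) := by
    have := hhom d le_rfl
    rwa [Nat.sub_self] at this
  rw [h0.eq_const z]
  have h1 := hsum 0 1
  rw [_root_.map_zero, zero_add, one_smul, Finset.sum_range_succ, Finset.sum_eq_zero, zero_add, one_pow,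
    mul_one] at h1
  · exact h1.symm
  · intro k hk
    have hk' := Finset.mem_range.1 hk
    rw [(hhom k hk'.le).map_zero (by omega), zero_mul]

end HMA
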