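import Pool.Agent.H85.MA.HPBasic

/-! # Module HPT: homogeneous polynomial functions, topology -/

open MeasureTheory Metric Set
open scoped ENNReal Topology ContDiff

namespace HMA

variable {V : Type} [NormedAddCommGroup V] [NormedSpace ℂ V] [FiniteDimensional ℂ V]

theorem PF.contDiff {f : V → ℂ} (hf : f ∈ PF V) (n : WithTop ℕ∞) : ContDiff ℂ n f := by
  unfold PF at hf
  induction hf using Algebra.adjoin_induction with
  | mem g hg =>
    obtain ⟨l, rfl⟩ := hg
    exact (LinearMap.toContinuousLinearMap l).contDiff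
  | algebraMap r => exact contDiff_const
  | add g h _ _ hg hh => exact hg.add hh
  | mul g h _ _ hg hh => exact hg.mul hh

theorem HP.continuous {d : ℕ} {f : V → ℂ} (hf : HP V d f) : Continuous f :=
  (PF.contDiff hf.poly 0).continuous

omit [FiniteDimensional ℂ V] in
theorem HPTop_scale {d : ℕ} {f : V → ℂ} (hf : HP V d f) {x : V} (hx : x ≠ 0) :
    ‖f x‖ = ‖f (((‖x‖⁻¹ : ℝ) : ℂ) • x)‖ * ‖x‖ ^ d := by
  have hx' : ‖x‖ ≠ 0 := norm_ne_zero_iff.mpr hx
  rw [hf.hom, norm_mul, norm_pow, Complex.norm_real, norm_inv, norm_norm]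
  rw [mul_comm (‖x‖⁻¹ ^ d), mul_assoc, ← mul_pow, inv_mul_cancel₀ hx', one_pow, mul_one]

omit [FiniteDimensional ℂ V] in
theorem HPTop_norm_scale {x : V} (hx : x ≠ 0) : ‖(((‖x‖⁻¹ : ℝ) : ℂ) • x)‖ = 1 := by
  have hx' : ‖x‖ ≠ 0 := norm_ne_zero_iff.mpr hx
  rw [norm_smul, Complex.norm_real, norm_inv, norm_norm, inv_mul_cancel₀ hx']

theorem HP.bound {d : ℕ} {f : V → ℂ} (hf : HP V d f) {M : ℝ}
    (hM : ∀ x, ‖x‖ ≤ 1 → ‖f x‖ ≤ M) (x : V) : ‖f x‖ ≤ M * ‖x‖ ^ d := by
  by_cases hx : x = 0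
  · subst hx
    rcases Nat.eq_zero_or_pos d with hd | hd
    · subst hd
      simpa using hM 0 (by simp)
    · have h0 : f 0 = 0 := by
        have h := hf.hom 0 0
        rw [zero_pow hd.ne', zero_mul, smul_zero] at h
        exact h
      rw [h0, norm_zero, norm_zero, zero_pow hd.ne', mul_zero]
  · rw [HPTop_scale hf hx]
    exact mul_le_mul_of_nonneg_right (hM _ (HPTop_norm_scale hx).le) (by positivity)

theorem HP.exists_max [Nontrivial V] {d : ℕ} {f : V → ℂ} (hf : HP V d f) :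
    ∃ p : V, ‖p‖ = 1 ∧ ∀ x, ‖f x‖ ≤ ‖f p‖ * ‖x‖ ^ d := by
  haveI : ProperSpace V := FiniteDimensional.proper ℂ V
  haveI : NormedSpace ℝ V := NormedSpace.restrictScalars ℝ ℂ V
  have hne : (sphere (0 : V) 1).Nonempty := by
    obtain ⟨v, hv⟩ := exists_ne (0 : V)
    exact ⟨_, by rw [mem_sphere_zero_iff_norm]; exact HPTop_norm_scale hv⟩
  obtain ⟨p, hp, hmax⟩ := (isCompact_sphere (0 : V) 1).exists_isMaxOn hne
    (hf.continuous.norm.continuousOn)
  rw [mem_sphere_zero_iff_norm] at hp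
  refine ⟨p, hp, fun x => ?_⟩
  by_cases hx : x = 0
  · subst hx
    have h := hf.hom 0 p
    rw [zero_smul] at h
    rw [h]
    rcases Nat.eq_zero_or_pos d with hd | hd
    · subst hd; simp
    · rw [zero_pow hd.ne', zero_mul, norm_zero]; positivity
  · rw [HPTop_scale hf hx]
    apply mul_le_mul_of_nonneg_right _ (by positivity)
    exact hmax (by rw [mem_sphere_zero_iff_norm]; exact HPTop_norm_scale hx)

/-- Lipschitz estimate (Schwarz lemma on complex lines) -/
theorem hp_lip {k : ℕ} {Q : V → ℂ} (hQ : HP V k Q) {M : ℝ}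
    (hM : ∀ x, ‖x‖ ≤ 1 → ‖Q x‖ ≤ M) (x y : V) (hxy : ‖y - x‖ ≤ ‖x‖) :
    ‖Q y - Q x‖ ≤ 2 ^ (k + 1) * M * ‖x‖ ^ (k - 1) * ‖y - x‖ := by
  have hM0 : 0 ≤ M := (norm_nonneg _).trans (hM 0 (by simp))
  rcases Nat.eq_zero_or_pos k with hk | hk
  · subst hk
    have hconst : ∀ z, Q z = Q 0 := by
      intro z
      have h := hQ.hom 0 z
      rw [zero_smul, pow_zero, one_mul] at h
      exact h.symm
    rw [hconst y, hconst x, sub_self, norm_zero]
    positivity
  by_cases hD : ‖y - x‖ = 0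
  · have : y = x := by rwa [norm_eq_zero, sub_eq_zero] at hD
    subst this
    rw [sub_self, sub_self, norm_zero, norm_zero]
    simp
  have hD0 : 0 < ‖y - x‖ := lt_of_le_of_ne (norm_nonneg _) (Ne.symm hD)
  have hR : 0 < ‖x‖ := lt_of_lt_of_le hD0 hxy
  set D := ‖y - x‖ with hDdef
  set R := ‖x‖ with hRdef
  have hRk : R ^ k = R ^ (k - 1) * R := by
    rw [← pow_succ]; congr 1; omega
  have hbound : ∀ z : V, ‖z - x‖ ≤ R → ‖Q z - Q x‖ ≤ 2 ^ (k + 1) * M * R ^ k := by
    intro z hz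
    have h1 : ‖z‖ ≤ 2 * R := by
      calc ‖z‖ = ‖(z - x) + x‖ := by rw [sub_add_cancel]
        _ ≤ ‖z - x‖ + ‖x‖ := norm_add_le _ _
        _ ≤ 2 * R := by linarith
    have h2 : ‖Q z‖ ≤ M * (2 * R) ^ k :=
      (hQ.bound hM z).trans (mul_le_mul_of_nonneg_left (pow_le_pow_left₀ (norm_nonneg _) h1 k) hM0)
    have h3 : ‖Q x‖ ≤ M * R ^ k := hQ.bound hM x
    have h4 : (1 : ℝ) ≤ 2 ^ k := one_le_pow₀ (by norm_num)
    have h5 : 0 ≤ M * R ^ k := by positivity
    calc ‖Q z - Q x‖ ≤ ‖Q z‖ + ‖Q x‖ := norm_sub_le _ _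
      _ ≤ M * (2 * R) ^ k + M * R ^ k := by linarith
      _ = 2 ^ k * (M * R ^ k) + 1 * (M * R ^ k) := by rw [mul_pow]; ring
      _ ≤ 2 ^ k * (M * R ^ k) + 2 ^ k * (M * R ^ k) := by
          have := mul_le_mul_of_nonneg_right h4 h5
          linarith
      _ = 2 ^ (k + 1) * M * R ^ k := by rw [pow_succ]; ring
  rcases lt_or_eq_of_le hxy with hlt | heq
  · set w : V := ((D⁻¹ : ℝ) : ℂ) • (y - x) with hw
    have hwn : ‖w‖ = 1 := by
      rw [hw, norm_smul, Complex.norm_real, norm_inv, Real.norm_of_nonneg hD0.le, ← hDdef,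
        inv_mul_cancel₀ hD]
    set g : ℂ → ℂ := fun t => Q (x + t • w) with hg
    have hgd : Differentiable ℂ g := by
      have h1 : Differentiable ℂ Q := (PF.contDiff hQ.poly 1).differentiable (by norm_num)
      exact h1.comp ((differentiable_const x).add (differentiable_id.smul_const w))
    have hg0 : g 0 = Q x := by rw [hg]; simp
    have hgD : g (D : ℂ) = Q y := by
      rw [hg]
      simp only
      rw [hw, smul_smul, ← Complex.ofReal_mul, mul_inv_cancel₀ hD, Complex.ofReal_one, one_smul,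
        add_sub_cancel]
    have key : ∀ ε : ℝ, 0 < ε → ‖Q y - Q x‖ ≤ 2 ^ (k + 1) * M * R ^ (k - 1) * D + ε := by
      intro ε hε
      have hmaps : MapsTo g (ball 0 R) (ball (g 0) (2 ^ (k + 1) * M * R ^ k + ε)) := by
        intro t ht
        rw [mem_ball_zero_iff] at ht
        rw [mem_ball, dist_eq_norm, hg0]
        refine lt_of_le_of_lt (hbound (x + t • w) ?_) (by linarith)
        rw [add_sub_cancel_left, norm_smul, hwn, mul_one]
        exact ht.le
      have hz : (D : ℂ) ∈ ball (0 : ℂ) R := by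
        rw [mem_ball_zero_iff, Complex.norm_real, Real.norm_of_nonneg hD0.le]
        exact hlt
      have h := Complex.dist_le_div_mul_dist_of_mapsTo_ball hgd.differentiableOn
        (hmaps.mono_right ball_subset_closedBall) hz
      rw [hg0, hgD, dist_eq_norm, dist_zero_right, Complex.norm_real,
        Real.norm_of_nonneg hD0.le] at h
      refine h.trans ?_
      have h6 : (2 ^ (k + 1) * M * R ^ k + ε) / R * D
          = 2 ^ (k + 1) * M * R ^ (k - 1) * D + ε * (D / R) := by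
        rw [hRk]; field_simp
      rw [h6]
      have h7 : D / R ≤ 1 := by rw [div_le_one hR]; exact hxy
      have h8 := mul_le_mul_of_nonneg_left h7 hε.le
      linarith
    exact le_of_forall_pos_le_add key
  · refine (hbound y hxy).trans ?_
    rw [hRk, heq]
    apply le_of_eq
    ring

end HMA
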