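import Pool.Agent.H85.MA.ClosedIneq
import Pool.Agent.H85.MA.Weyl

/-! # Module HORM: Hörmander theorem for `∂bar χ`, `χ` a test function -/

open MeasureTheory Metric Set
open scoped ENNReal Topology ContDiff

namespace HMA

section HormAux

variable {n : ℕ}

/-- complex valued weights -/
noncomputable def Horm_w (φ : Cn n → ℝ) (c : ℝ) (z : Cn n) : ℂ :=
  Complex.exp ((c : ℂ) * (φ z : ℂ))

theorem Horm_cast {φ : Cn n → ℝ} (hφ : ContDiff ℝ ∞ φ) :
    ContDiff ℝ ∞ (fun z => (φ z : ℂ)) :=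
  Complex.ofRealCLM.contDiff.comp hφ

theorem Horm_w_smooth {φ : Cn n → ℝ} (hφ : ContDiff ℝ ∞ φ) (c : ℝ) :
    ContDiff ℝ ∞ (Horm_w φ c) := by
  unfold Horm_w
  exact (contDiff_const.mul (Horm_cast hφ)).cexp

theorem Horm_w_eq (φ : Cn n → ℝ) (c : ℝ) (z : Cn n) :
    Horm_w φ c z = ((Real.exp (c * φ z) : ℝ) : ℂ) := by
  unfold Horm_w
  push_cast
  rfl

theorem Horm_w_ne (φ : Cn n → ℝ) (c : ℝ) (z : Cn n) : Horm_w φ c z ≠ 0 := Complex.exp_ne_zero _

theorem Horm_w_add (φ : Cn n → ℝ) (c c' : ℝ) (z : Cn n) :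
    Horm_w φ c z * Horm_w φ c' z = Horm_w φ (c + c') z := by
  unfold Horm_w
  rw [← Complex.exp_add]
  congr 1
  push_cast
  ring

theorem Horm_w_zero (φ : Cn n → ℝ) (z : Cn n) : Horm_w φ 0 z = 1 := by
  unfold Horm_w
  simp

theorem Horm_w_conj (φ : Cn n → ℝ) (c : ℝ) (z : Cn n) :
    (starRingEnd ℂ) (Horm_w φ c z) = Horm_w φ c z := by
  rw [Horm_w_eq, Complex.conj_ofReal]

theorem Horm_w_norm (φ : Cn n → ℝ) (c : ℝ) (z : Cn n) :
    ‖Horm_w φ c z‖ = Real.exp (c * φ z) := by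
  rw [Horm_w_eq, Complex.norm_real, Real.norm_of_nonneg (Real.exp_pos _).le]

theorem Horm_w_norm_sq (φ : Cn n → ℝ) (z : Cn n) (x : ℂ) :
    ‖x * Horm_w φ (-(1 / 2)) z‖ ^ 2 = ‖x‖ ^ 2 * Real.exp (-φ z) := by
  rw [norm_mul, mul_pow, Horm_w_norm, ← Real.exp_nat_mul]
  congr 2
  push_cast
  ring

theorem Horm_dd_const (c : ℂ) (j : Fin n) (z : Cn n) : dd j (fun _ => c) z = 0 := by
  unfold dd
  simp

theorem Horm_db_const (c : ℂ) (j : Fin n) (z : Cn n) : db j (fun _ => c) z = 0 := by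
  unfold db
  simp

theorem Horm_dd_w {φ : Cn n → ℝ} (hφ : ContDiff ℝ ∞ φ) (c : ℝ) (j : Fin n) (z : Cn n) :
    dd j (Horm_w φ c) z = Horm_w φ c z * ((c : ℂ) * dd j (fun w => (φ w : ℂ)) z) := by
  have h1 : dd j (Horm_w φ c) z = Horm_w φ c z * dd j (fun w => (c : ℂ) * (φ w : ℂ)) z :=
    dd_exp (contDiff_const.mul (Horm_cast hφ)) j z
  rw [h1, dd_mul contDiff_const (Horm_cast hφ), Horm_dd_const]
  ring

theorem Horm_db_w {φ : Cn n → ℝ} (hφ : ContDiff ℝ ∞ φ) (c : ℝ) (j : Fin n) (z : Cn n) :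
    db j (Horm_w φ c) z = Horm_w φ c z * ((c : ℂ) * db j (fun w => (φ w : ℂ)) z) := by
  have h1 : db j (Horm_w φ c) z = Horm_w φ c z * db j (fun w => (c : ℂ) * (φ w : ℂ)) z :=
    db_exp (contDiff_const.mul (Horm_cast hφ)) j z
  rw [h1, db_mul contDiff_const (Horm_cast hφ), Horm_db_const]
  ring

theorem Horm_db_real {φ : Cn n → ℝ} (hφ : ContDiff ℝ ∞ φ) (j : Fin n) (z : Cn n) :
    db j (fun w => (φ w : ℂ)) z = (starRingEnd ℂ) (dd j (fun w => (φ w : ℂ)) z) := by
  rw [← db_conj (Horm_cast hφ)]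
  simp only [Complex.conj_ofReal]

/-! ### test functions -/

theorem Horm_tst_int {f : Cn n → ℂ} (hf : Tst f) : Integrable f volume :=
  hf.smooth.continuous.integrable_of_hasCompactSupport hf.supp

theorem Horm_tst_memLp {f : Cn n → ℂ} (hf : Tst f) : MemLp f 2 volume :=
  hf.smooth.continuous.memLp_of_hasCompactSupport hf.supp

theorem Horm_tst_zero : Tst (fun _ : Cn n => (0 : ℂ)) :=
  ⟨contDiff_const, HasCompactSupport.zero⟩

theorem Horm_tst_add {f g : Cn n → ℂ} (hf : Tst f) (hg : Tst g) : Tst (fun z => f z + g z) :=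
  ⟨hf.smooth.add hg.smooth, hf.supp.add hg.supp⟩

theorem Horm_tst_const_mul {f : Cn n → ℂ} (hf : Tst f) (c : ℂ) : Tst (fun z => c * f z) := by
  have := hf.mul_smooth (g := fun _ => c) contDiff_const
  have h2 : (fun z => f z * c) = fun z => c * f z := by
    funext z; ring
  rwa [h2] at this

theorem Horm_tst_neg {f : Cn n → ℂ} (hf : Tst f) : Tst (fun z => - f z) := by
  have := Horm_tst_const_mul hf (-1)
  simpa using this

theorem Horm_tst_sub {f g : Cn n → ℂ} (hf : Tst f) (hg : Tst g) : Tst (fun z => f z - g z) := by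
  have := Horm_tst_add hf (Horm_tst_neg hg)
  simpa [sub_eq_add_neg] using this

theorem Horm_tst_sum {ι : Type} (s : Finset ι) {f : ι → Cn n → ℂ} (hf : ∀ i ∈ s, Tst (f i)) :
    Tst (fun z => ∑ i ∈ s, f i z) := by
  classical
  induction s using Finset.induction_on with
  | empty => simpa using Horm_tst_zero
  | insert a s ha ih =>
    have h1 : (fun z => ∑ i ∈ insert a s, f i z) = fun z => f a z + ∑ i ∈ s, f i z := by
      funext z
      rw [Finset.sum_insert ha]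
    rw [h1]
    exact Horm_tst_add (hf a (Finset.mem_insert_self a s))
      (ih fun i hi => hf i (Finset.mem_insert_of_mem hi))

theorem Horm_tst_mul {f g : Cn n → ℂ} (hf : Tst f) (hg : ContDiff ℝ ∞ g) :
    Tst (fun z => g z * f z) := by
  have h := hf.mul_smooth hg
  have h2 : (fun z => f z * g z) = fun z => g z * f z := by
    funext z; ring
  rwa [h2] at h

theorem Horm_adj_tst {φ : Cn n → ℝ} (hφ : ContDiff ℝ ∞ φ) {α : Fin n → Cn n → ℂ}
    (hα : ∀ j, Tst (α j)) : Tst (adj φ α) := by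
  unfold adj
  refine Horm_tst_neg (Horm_tst_sum _ fun j _ => Horm_tst_sub ((hα j).dd j) ?_)
  exact Horm_tst_mul (hα j) (smooth_dd (Horm_cast hφ) j)

theorem Horm_adj_add {φ : Cn n → ℝ} {α β : Fin n → Cn n → ℂ}
    (hα : ∀ j, Tst (α j)) (hβ : ∀ j, Tst (β j)) (z : Cn n) :
    adj φ (fun j z => α j z + β j z) z = adj φ α z + adj φ β z := by
  unfold adj
  rw [← neg_add, ← Finset.sum_add_distrib]
  congr 1
  refine Finset.sum_congr rfl fun j _ => ?_
  rw [dd_add (hα j).smooth (hβ j).smooth]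
  ring

theorem Horm_adj_smul {φ : Cn n → ℝ} {α : Fin n → Cn n → ℂ}
    (hα : ∀ j, Tst (α j)) (c : ℂ) (z : Cn n) :
    adj φ (fun j z => c * α j z) z = c * adj φ α z := by
  unfold adj
  rw [mul_neg, Finset.mul_sum]
  congr 1
  refine Finset.sum_congr rfl fun j _ => ?_
  rw [dd_mul contDiff_const (hα j).smooth, Horm_dd_const]
  ring

theorem Horm_adj_zero {φ : Cn n → ℝ} (z : Cn n) :
    adj φ (fun (_ : Fin n) (_ : Cn n) => (0 : ℂ)) z = 0 := by
  unfold adj
  simp [Horm_dd_const]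

theorem Horm_adj_w {φ : Cn n → ℝ} (hφ : ContDiff ℝ ∞ φ) {α : Fin n → Cn n → ℂ}
    (hα : ∀ j, Tst (α j)) (z : Cn n) :
    adj φ α z * Horm_w φ (-1) z = - ∑ j, dd j (fun z => α j z * Horm_w φ (-1) z) z := by
  unfold adj
  rw [neg_mul, Finset.sum_mul]
  congr 1
  refine Finset.sum_congr rfl fun j _ => ?_
  rw [dd_mul (hα j).smooth (Horm_w_smooth hφ _), Horm_dd_w hφ]
  push_cast
  ring

/-- the formal adjoint identity -/
theorem Horm_ibp {φ : Cn n → ℝ} (hφ : ContDiff ℝ ∞ φ) {α : Fin n → Cn n → ℂ}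
    (hα : ∀ j, Tst (α j)) {g : Cn n → ℂ} (hg : Tst g) :
    ∫ z, adj φ α z * Horm_w φ (-1) z * g z = ∫ z, ∑ j, α j z * Horm_w φ (-1) z * dd j g z := by
  have h1 : ∀ j, Tst (fun z => α j z * Horm_w φ (-1) z) := fun j =>
    (hα j).mul_smooth (Horm_w_smooth hφ _)
  have h2 : ∀ z, adj φ α z * Horm_w φ (-1) z * g z =
      - ∑ j, dd j (fun z => α j z * Horm_w φ (-1) z) z * g z := by
    intro z
    rw [Horm_adj_w hφ hα, neg_mul, Finset.sum_mul]
  simp only [h2]
  rw [integral_neg, integral_finsetSum _ fun j _ =>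
      Horm_tst_int (((h1 j).dd j).mul_smooth hg.smooth),
    integral_finsetSum _ fun j _ => Horm_tst_int ((h1 j).mul_smooth (hg.dd j).smooth),
    ← Finset.sum_neg_distrib]
  refine Finset.sum_congr rfl fun j _ => ?_
  rw [ibp_dd (h1 j).smooth hg, neg_neg]

theorem Horm_ibp_conj {φ : Cn n → ℝ} (hφ : ContDiff ℝ ∞ φ) {α : Fin n → Cn n → ℂ}
    (hα : ∀ j, Tst (α j)) {g : Cn n → ℂ} (hg : Tst g) :
    ∫ z, (starRingEnd ℂ) (adj φ α z) * Horm_w φ (-1) z * g z =
      ∫ z, ∑ j, (starRingEnd ℂ) (α j z) * Horm_w φ (-1) z * db j g z := by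
  have h := Horm_ibp hφ hα hg.conj
  have h2 := congrArg (starRingEnd ℂ) h
  rw [← integral_conj, ← integral_conj] at h2
  have h3 : ∀ z, (starRingEnd ℂ) (adj φ α z * Horm_w φ (-1) z * (starRingEnd ℂ) (g z)) =
      (starRingEnd ℂ) (adj φ α z) * Horm_w φ (-1) z * g z := by
    intro z
    rw [map_mul, map_mul, Horm_w_conj, Complex.conj_conj]
  have h4 : ∀ z, (starRingEnd ℂ) (∑ j, α j z * Horm_w φ (-1) z *
      dd j (fun z => (starRingEnd ℂ) (g z)) z) =
      ∑ j, (starRingEnd ℂ) (α j z) * Horm_w φ (-1) z * db j g z := by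
    intro z
    rw [map_sum]
    refine Finset.sum_congr rfl fun j _ => ?_
    rw [map_mul, map_mul, Horm_w_conj, dd_conj hg.smooth, Complex.conj_conj]
  simp only [h3, h4] at h2
  exact h2


/-! ### square integrable functions -/

open scoped Classical in
/-- the class of `f` in `L²` -/
noncomputable def Horm_L (f : Cn n → ℂ) : Lp ℂ 2 (volume : Measure (Cn n)) :=
  if h : MemLp f 2 volume then h.toLp f else 0

open scoped Classical in
/-- the class of the vector field with components `a j` in `L²` -/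
noncomputable def Horm_V (a : Fin n → Cn n → ℂ) : Lp (Cn n) 2 (volume : Measure (Cn n)) :=
  if h : MemLp (fun z => vec (fun j => a j z)) 2 volume then h.toLp _ else 0

theorem Horm_L_coe {f : Cn n → ℂ} (hf : Tst f) : Horm_L f =ᵐ[volume] f := by
  unfold Horm_L
  rw [dif_pos (Horm_tst_memLp hf)]
  exact MemLp.coeFn_toLp _

theorem Horm_vec_memLp {a : Fin n → Cn n → ℂ} (ha : ∀ j, Tst (a j)) :
    MemLp (fun z => vec (fun j => a j z)) 2 volume := by
  apply Continuous.memLp_of_hasCompactSupport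
  · unfold vec
    exact (PiLp.continuous_toLp 2 _).comp (continuous_pi fun j => (ha j).smooth.continuous)
  · have hK : IsCompact (⋃ j, tsupport (a j)) := isCompact_iUnion fun j => (ha j).supp
    refine HasCompactSupport.intro hK fun x hx => ?_
    have h1 : (fun j => a j x) = 0 := by
      funext j
      have : x ∉ tsupport (a j) := fun h => hx (mem_iUnion.2 ⟨j, h⟩)
      exact image_eq_zero_of_notMem_tsupport this
    rw [h1]
    unfold vec
    rfl

theorem Horm_V_coe {a : Fin n → Cn n → ℂ} (ha : ∀ j, Tst (a j)) :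
    Horm_V a =ᵐ[volume] fun z => vec (fun j => a j z) := by
  unfold Horm_V
  rw [dif_pos (Horm_vec_memLp ha)]
  exact MemLp.coeFn_toLp _

theorem Horm_inner_L {f : Cn n → ℂ} (hf : Tst f) (u : Lp ℂ 2 (volume : Measure (Cn n))) :
    inner ℂ (Horm_L f) u = ∫ z, (starRingEnd ℂ) (f z) * u z := by
  rw [L2.inner_def]
  refine integral_congr_ae ?_
  filter_upwards [Horm_L_coe hf] with z hz
  rw [hz, RCLike.inner_apply']

theorem Horm_inner_Cn (x y : Cn n) : inner ℂ x y = ∑ j, (starRingEnd ℂ) (x j) * y j := by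
  rw [PiLp.inner_apply]
  refine Finset.sum_congr rfl fun j _ => ?_
  rw [RCLike.inner_apply']

theorem Horm_inner_V {a : Fin n → Cn n → ℂ} (ha : ∀ j, Tst (a j))
    (u : Lp (Cn n) 2 (volume : Measure (Cn n))) :
    inner ℂ (Horm_V a) u = ∫ z, ∑ j, (starRingEnd ℂ) (a j z) * u z j := by
  rw [L2.inner_def]
  refine integral_congr_ae ?_
  filter_upwards [Horm_V_coe ha] with z hz
  rw [hz, Horm_inner_Cn]
  rfl

theorem Horm_norm_sq {E : Type} [NormedAddCommGroup E] [InnerProductSpace ℂ E]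
    (u : Lp E 2 (volume : Measure (Cn n))) : ‖u‖ ^ 2 = ∫ z, ‖u z‖ ^ 2 := by
  have h := inner_self_eq_norm_sq_to_K (𝕜 := ℂ) u
  rw [L2.inner_def] at h
  have h2 : ∀ z, inner ℂ (u z) (u z) = ((‖u z‖ ^ 2 : ℝ) : ℂ) := fun z => by
    rw [inner_self_eq_norm_sq_to_K]; push_cast; rfl
  simp only [h2] at h
  rw [integral_complex_ofReal] at h
  have h3 : (((∫ z, ‖u z‖ ^ 2 : ℝ)) : ℂ) = ((‖u‖ ^ 2 : ℝ) : ℂ) := by
    rw [h]; push_cast; rfl
  exact (Complex.ofReal_injective h3).symm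

theorem Horm_int_sq {E : Type} [NormedAddCommGroup E] [InnerProductSpace ℂ E]
    (u : Lp E 2 (volume : Measure (Cn n))) : Integrable (fun z => ‖u z‖ ^ 2) volume :=
  (memLp_two_iff_integrable_sq_norm (Lp.aestronglyMeasurable u)).1 (Lp.memLp u)

/-- the weighted class of a test function -/
noncomputable def Horm_G (φ : Cn n → ℝ) (f : Cn n → ℂ) : Lp ℂ 2 (volume : Measure (Cn n)) :=
  Horm_L fun z => f z * Horm_w φ (-(1 / 2)) z

/-- the weighted class of a test form -/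
noncomputable def Horm_F (φ : Cn n → ℝ) (a : Fin n → Cn n → ℂ) :
    Lp (Cn n) 2 (volume : Measure (Cn n)) :=
  Horm_V fun j z => a j z * Horm_w φ (-(1 / 2)) z

section
variable {φ : Cn n → ℝ} (hφ : ContDiff ℝ ∞ φ)
include hφ

theorem Horm_tst_w {f : Cn n → ℂ} (hf : Tst f) (c : ℝ) : Tst (fun z => f z * Horm_w φ c z) :=
  hf.mul_smooth (Horm_w_smooth hφ c)

theorem Horm_G_coe {f : Cn n → ℂ} (hf : Tst f) :
    Horm_G φ f =ᵐ[volume] fun z => f z * Horm_w φ (-(1 / 2)) z :=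
  Horm_L_coe (Horm_tst_w hφ hf _)

theorem Horm_F_coe {a : Fin n → Cn n → ℂ} (ha : ∀ j, Tst (a j)) :
    Horm_F φ a =ᵐ[volume] fun z => vec (fun j => a j z * Horm_w φ (-(1 / 2)) z) :=
  Horm_V_coe fun j => Horm_tst_w hφ (ha j) _

omit hφ in
theorem Horm_w_half (z : Cn n) :
    Horm_w φ (-(1 / 2)) z * Horm_w φ (-(1 / 2)) z = Horm_w φ (-1) z := by
  rw [Horm_w_add]
  norm_num

/-- the formal adjoint identity in `L²` -/
theorem Horm_adj_L2 {α : Fin n → Cn n → ℂ} (hα : ∀ j, Tst (α j)) {g : Cn n → ℂ} (hg : Tst g) :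
    inner ℂ (Horm_G φ (adj φ α)) (Horm_G φ g) =
      inner ℂ (Horm_F φ α) (Horm_F φ fun j => db j g) := by
  have h1 : inner ℂ (Horm_G φ (adj φ α)) (Horm_G φ g) =
      ∫ z, (starRingEnd ℂ) (adj φ α z) * Horm_w φ (-1) z * g z := by
    unfold Horm_G
    rw [Horm_inner_L (Horm_tst_w hφ (Horm_adj_tst hφ hα) _)]
    refine integral_congr_ae ?_
    filter_upwards [Horm_L_coe (Horm_tst_w hφ hg (-(1 / 2)))] with z hz
    rw [hz, map_mul, Horm_w_conj, ← Horm_w_half]
    ring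
  have h2 : inner ℂ (Horm_F φ α) (Horm_F φ fun j => db j g) =
      ∫ z, ∑ j, (starRingEnd ℂ) (α j z) * Horm_w φ (-1) z * db j g z := by
    unfold Horm_F
    rw [Horm_inner_V fun j => Horm_tst_w hφ (hα j) _]
    refine integral_congr_ae ?_
    filter_upwards [Horm_V_coe fun j => Horm_tst_w hφ (hg.db j) (-(1 / 2))] with z hz
    rw [hz]
    refine Finset.sum_congr rfl fun j _ => ?_
    show (starRingEnd ℂ) (α j z * Horm_w φ (-(1 / 2)) z) * (db j g z * Horm_w φ (-(1 / 2)) z) = _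
    rw [map_mul, Horm_w_conj, ← Horm_w_half]
    ring
  rw [h1, h2, Horm_ibp_conj hφ hα hg]

end

theorem Horm_L_add {f g : Cn n → ℂ} (hf : Tst f) (hg : Tst g) :
    Horm_L (fun z => f z + g z) = Horm_L f + Horm_L g := by
  apply Lp.ext
  filter_upwards [Horm_L_coe (Horm_tst_add hf hg), Horm_L_coe hf, Horm_L_coe hg,
    Lp.coeFn_add (Horm_L f) (Horm_L g)] with z h1 h2 h3 h4
  rw [h1, h4, Pi.add_apply, h2, h3]

theorem Horm_L_smul {f : Cn n → ℂ} (hf : Tst f) (c : ℂ) :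
    Horm_L (fun z => c * f z) = c • Horm_L f := by
  apply Lp.ext
  filter_upwards [Horm_L_coe (Horm_tst_const_mul hf c), Horm_L_coe hf,
    Lp.coeFn_smul c (Horm_L f)] with z h1 h2 h4
  rw [h1, h4, Pi.smul_apply, h2, smul_eq_mul]

theorem Horm_L_zero : Horm_L (fun _ : Cn n => (0 : ℂ)) = 0 := by
  apply Lp.ext
  filter_upwards [Horm_L_coe (Horm_tst_zero (n := n)), Lp.coeFn_zero ℂ 2 (volume : Measure (Cn n))]
    with z h1 h2
  rw [h1, h2]
  rfl

/-- the range of the formal adjoint -/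
noncomputable def Horm_S (φ : Cn n → ℝ) (hφ : ContDiff ℝ ∞ φ) :
    Submodule ℂ (Lp ℂ 2 (volume : Measure (Cn n))) where
  carrier := {x | ∃ α : Fin n → Cn n → ℂ, (∀ j, Tst (α j)) ∧ x = Horm_G φ (adj φ α)}
  add_mem' := by
    rintro x y ⟨α, hα, rfl⟩ ⟨β, hβ, rfl⟩
    refine ⟨fun j z => α j z + β j z, fun j => Horm_tst_add (hα j) (hβ j), ?_⟩
    unfold Horm_G
    rw [← Horm_L_add (Horm_tst_w hφ (Horm_adj_tst hφ hα) _) (Horm_tst_w hφ (Horm_adj_tst hφ hβ) _)]
    congr 1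
    funext z
    rw [Horm_adj_add hα hβ]
    ring
  zero_mem' := by
    refine ⟨fun _ _ => 0, fun _ => Horm_tst_zero, ?_⟩
    unfold Horm_G
    rw [← Horm_L_zero]
    congr 1
    funext z
    rw [Horm_adj_zero, zero_mul]
  smul_mem' := by
    rintro c x ⟨α, hα, rfl⟩
    refine ⟨fun j z => c * α j z, fun j => Horm_tst_const_mul (hα j) c, ?_⟩
    unfold Horm_G
    rw [← Horm_L_smul (Horm_tst_w hφ (Horm_adj_tst hφ hα) _)]
    congr 1
    funext z
    rw [Horm_adj_smul hα]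
    ring

/-- the coefficients of the test forms which test closedness -/
noncomputable def Horm_c (φ : Cn n → ℝ) (j k : Fin n) (f : Cn n → ℂ) (l : Fin n) (z : Cn n) : ℂ :=
  (if l = k then (starRingEnd ℂ) (db j f z) * Horm_w φ (1 / 2) z else 0) -
    (if l = j then (starRingEnd ℂ) (db k f z) * Horm_w φ (1 / 2) z else 0)

theorem Horm_c_tst {φ : Cn n → ℝ} (hφ : ContDiff ℝ ∞ φ) (j k : Fin n) {f : Cn n → ℂ} (hf : Tst f)
    (l : Fin n) : Tst (Horm_c φ j k f l) := by
  unfold Horm_c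
  apply Horm_tst_sub
  · by_cases h : l = k
    · simp only [if_pos h]
      exact Horm_tst_w hφ (hf.db j).conj _
    · simp only [if_neg h]
      exact Horm_tst_zero
  · by_cases h : l = j
    · simp only [if_pos h]
      exact Horm_tst_w hφ (hf.db k).conj _
    · simp only [if_neg h]
      exact Horm_tst_zero

theorem Horm_c_sum (φ : Cn n → ℝ) (j k : Fin n) (f : Cn n → ℂ) (z u : Cn n) :
    ∑ l, (starRingEnd ℂ) (Horm_c φ j k f l z) * u l =
      (Horm_w φ (1 / 2) z * u k) * db j f z - (Horm_w φ (1 / 2) z * u j) * db k f z := by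
  have h1 : ∀ l, (starRingEnd ℂ) (Horm_c φ j k f l z) * u l =
      (if l = k then db j f z * Horm_w φ (1 / 2) z * u l else 0) -
        (if l = j then db k f z * Horm_w φ (1 / 2) z * u l else 0) := by
    intro l
    unfold Horm_c
    rw [map_sub, sub_mul]
    congr 1
    · split_ifs with h
      · rw [map_mul, Complex.conj_conj, Horm_w_conj]
      · rw [map_zero, zero_mul]
    · split_ifs with h
      · rw [map_mul, Complex.conj_conj, Horm_w_conj]
      · rw [map_zero, zero_mul]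
  simp only [h1]
  rw [Finset.sum_sub_distrib, Finset.sum_ite_eq' Finset.univ k, Finset.sum_ite_eq' Finset.univ j,
    if_pos (Finset.mem_univ _), if_pos (Finset.mem_univ _)]
  ring

/-- the closed subspace of weakly closed forms -/
noncomputable def Horm_Z (φ : Cn n → ℝ) : Submodule ℂ (Lp (Cn n) 2 (volume : Measure (Cn n))) :=
  (Submodule.span ℂ {x | ∃ (j k : Fin n) (f : Cn n → ℂ), Tst f ∧ x = Horm_V (Horm_c φ j k f)})ᗮ

theorem Horm_mem_Z {φ : Cn n → ℝ} (hφ : ContDiff ℝ ∞ φ) {u : Lp (Cn n) 2 (volume : Measure (Cn n))} :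
    u ∈ Horm_Z φ ↔ ∀ (j k : Fin n) (f : Cn n → ℂ), Tst f →
      ∫ z, ((Horm_w φ (1 / 2) z * u z k) * db j f z - (Horm_w φ (1 / 2) z * u z j) * db k f z) = 0 := by
  unfold Horm_Z
  have h1 : ∀ (j k : Fin n) (f : Cn n → ℂ), Tst f → inner ℂ (Horm_V (Horm_c φ j k f)) u =
      ∫ z, ((Horm_w φ (1 / 2) z * u z k) * db j f z - (Horm_w φ (1 / 2) z * u z j) * db k f z) := by
    intro j k f hf
    rw [Horm_inner_V (Horm_c_tst hφ j k hf)]
    simp only [Horm_c_sum]
  rw [Submodule.mem_orthogonal]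
  constructor
  · intro h j k f hf
    rw [← h1 j k f hf]
    exact h _ (Submodule.subset_span ⟨j, k, f, hf, rfl⟩)
  · intro h x hx
    induction hx using Submodule.span_induction with
    | mem x hx =>
      obtain ⟨j, k, f, hf, rfl⟩ := hx
      rw [h1 j k f hf]
      exact h j k f hf
    | zero => exact inner_zero_left _
    | add x y _ _ hx hy => rw [inner_add_left, hx, hy, add_zero]
    | smul c x _ hx => rw [inner_smul_left, hx, mul_zero]

/-- `∂bar g` is weakly closed -/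
theorem Horm_db_mem_Z {φ : Cn n → ℝ} (hφ : ContDiff ℝ ∞ φ) {g : Cn n → ℂ} (hg : Tst g) :
    Horm_F φ (fun j => db j g) ∈ Horm_Z φ := by
  rw [Horm_mem_Z hφ]
  intro j k f hf
  have h1 : ∫ z, ((Horm_w φ (1 / 2) z * (Horm_F φ (fun j => db j g)) z k) * db j f z -
      (Horm_w φ (1 / 2) z * (Horm_F φ (fun j => db j g)) z j) * db k f z) =
      ∫ z, (db k g z * db j f z - db j g z * db k f z) := by
    refine integral_congr_ae ?_
    filter_upwards [Horm_F_coe hφ fun j => hg.db j] with z hz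
    rw [hz]
    show (Horm_w φ (1 / 2) z * (db k g z * Horm_w φ (-(1 / 2)) z)) * db j f z -
      (Horm_w φ (1 / 2) z * (db j g z * Horm_w φ (-(1 / 2)) z)) * db k f z = _
    have h2 : Horm_w φ (1 / 2) z * Horm_w φ (-(1 / 2)) z = 1 := by
      rw [Horm_w_add, add_neg_cancel, Horm_w_zero]
    linear_combination (db k g z * db j f z - db j g z * db k f z) * h2
  rw [h1, integral_sub (Horm_tst_int ((hg.db k).mul_smooth (hf.db j).smooth))
    (Horm_tst_int ((hg.db j).mul_smooth (hf.db k).smooth)),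
    ibp_db hg.smooth (hf.db j), ibp_db hg.smooth (hf.db k)]
  have h3 : ∀ z, db k (db j f) z = db j (db k f) z := fun z => db_db_comm hf.smooth k j z
  simp only [h3]
  ring


theorem Horm_proj_inner {H : Type} [NormedAddCommGroup H] [InnerProductSpace ℂ H]
    (P : Submodule ℂ H) [P.HasOrthogonalProjection] {x : H} (hx : x ∈ P) (y : H) :
    inner ℂ x (P.starProjection y) = inner ℂ x y := by
  rw [← Submodule.inner_starProjection_left_eq_right, Submodule.starProjection_eq_self_iff.2 hx]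

theorem Horm_proj_inner' {H : Type} [NormedAddCommGroup H] [InnerProductSpace ℂ H]
    (P : Submodule ℂ H) [P.HasOrthogonalProjection] {x : H} (hx : x ∈ P) (y : H) :
    inner ℂ (P.starProjection y) x = inner ℂ y x := by
  rw [Submodule.inner_starProjection_left_eq_right, Submodule.starProjection_eq_self_iff.2 hx]

noncomputable instance Horm_Z_proj (φ : Cn n → ℝ) : (Horm_Z φ).HasOrthogonalProjection := by
  unfold Horm_Z
  infer_instance

/-- the weak adjoint identity for the projection of a test form to the closed forms -/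
theorem Horm_weak_adj {φ : Cn n → ℝ} (hφ : ContDiff ℝ ∞ φ) {α : Fin n → Cn n → ℂ}
    (hα : ∀ j, Tst (α j)) {f : Cn n → ℂ} (hf : Tst f) :
    ∫ z, ∑ j, (Horm_w φ (1 / 2) z * ((Horm_Z φ).starProjection (Horm_F φ α)) z j) *
        (dd j f z + dd j (fun w => (φ w : ℂ)) z * f z) = ∫ z, adj φ α z * f z := by
  have hf' : Tst (fun z => (starRingEnd ℂ) (f z) * Horm_w φ 1 z) := Horm_tst_w hφ hf.conj 1
  set u := (Horm_Z φ).starProjection (Horm_F φ α) with hu
  have h1 : inner ℂ (Horm_F φ fun j => db j (fun z => (starRingEnd ℂ) (f z) * Horm_w φ 1 z)) u =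
      ∫ z, ∑ j, (Horm_w φ (1 / 2) z * u z j) *
        (dd j f z + dd j (fun w => (φ w : ℂ)) z * f z) := by
    unfold Horm_F
    rw [Horm_inner_V fun j => Horm_tst_w hφ (hf'.db j) _]
    refine integral_congr_ae (Filter.Eventually.of_forall fun z => ?_)
    refine Finset.sum_congr rfl fun j _ => ?_
    simp only []
    rw [db_mul hf.conj.smooth (Horm_w_smooth hφ 1), Horm_db_w hφ, Horm_db_real hφ,
      db_conj hf.smooth]
    simp only [map_mul, map_add, Complex.conj_conj, Horm_w_conj, Complex.conj_ofReal]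
    have h2 : Horm_w φ 1 z * Horm_w φ (-(1 / 2)) z = Horm_w φ (1 / 2) z := by
      rw [Horm_w_add]; norm_num
    rw [← h2]
    push_cast
    ring
  rw [← h1, hu, Horm_proj_inner _ (Horm_db_mem_Z hφ hf'), ← inner_conj_symm,
    ← Horm_adj_L2 hφ hα hf', inner_conj_symm]
  unfold Horm_G
  rw [Horm_inner_L (Horm_tst_w hφ hf' _)]
  refine integral_congr_ae ?_
  filter_upwards [Horm_L_coe (Horm_tst_w hφ (Horm_adj_tst hφ hα) (-(1 / 2)))] with z hz
  rw [hz]
  simp only [map_mul, Complex.conj_conj, Horm_w_conj]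
  have h3 : Horm_w φ 1 z * (Horm_w φ (-(1 / 2)) z * Horm_w φ (-(1 / 2)) z) = 1 := by
    rw [Horm_w_half, Horm_w_add, add_neg_cancel, Horm_w_zero]
  linear_combination (adj φ α z * f z) * h3

theorem Horm_norm_G {φ : Cn n → ℝ} (hφ : ContDiff ℝ ∞ φ) {f : Cn n → ℂ} (hf : Tst f) :
    ‖Horm_G φ f‖ ^ 2 = ∫ z, ‖f z‖ ^ 2 * Real.exp (-φ z) := by
  rw [Horm_norm_sq]
  refine integral_congr_ae ?_
  filter_upwards [Horm_G_coe hφ hf] with z hz
  rw [hz, Horm_w_norm_sq]

theorem Horm_int_G {φ : Cn n → ℝ} (hφ : ContDiff ℝ ∞ φ) {f : Cn n → ℂ} (hf : Tst f) :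
    Integrable (fun z => ‖f z‖ ^ 2 * Real.exp (-φ z)) volume := by
  refine (Horm_int_sq (Horm_G φ f)).congr ?_
  filter_upwards [Horm_G_coe hφ hf] with z hz
  rw [hz, Horm_w_norm_sq]

theorem Horm_half_norm (φ : Cn n → ℝ) (z x : Cn n) :
    ‖Horm_w φ (1 / 2) z • x‖ ^ 2 * Real.exp (-φ z) = ‖x‖ ^ 2 := by
  rw [norm_smul, mul_pow, Horm_w_norm, ← Real.exp_nat_mul]
  have h : Real.exp (((2 : ℕ) : ℝ) * (1 / 2 * φ z)) * Real.exp (-φ z) = 1 := by
    rw [← Real.exp_add]
    have h2 : ((2 : ℕ) : ℝ) * (1 / 2 * φ z) + -φ z = 0 := by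
      push_cast
      ring
    rw [h2, Real.exp_zero]
  calc _ = ‖x‖ ^ 2 * (Real.exp (((2 : ℕ) : ℝ) * (1 / 2 * φ z)) * Real.exp (-φ z)) := by ring
    _ = _ := by rw [h, mul_one]

/-- the inequality for the closed part of a test form -/
theorem Horm_key {φ : Cn n → ℝ} (hφ : ContDiff ℝ ∞ φ) {κ : Cn n → ℝ}
    (hκc : Continuous κ) (hκ0 : ∀ z, 0 < κ z) (hκ : ∀ z ξ, κ z * ‖ξ‖ ^ 2 ≤ lev φ z ξ)
    {α : Fin n → Cn n → ℂ} (hα : ∀ j, Tst (α j)) :
    Integrable (fun z => κ z * ‖((Horm_Z φ).starProjection (Horm_F φ α)) z‖ ^ 2) volume ∧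
      ∫ z, κ z * ‖((Horm_Z φ).starProjection (Horm_F φ α)) z‖ ^ 2 ≤
        ‖Horm_G φ (adj φ α)‖ ^ 2 := by
  set u := (Horm_Z φ).starProjection (Horm_F φ α) with hu
  have huZ : u ∈ Horm_Z φ := Submodule.starProjection_apply_mem _ _
  have hadj := Horm_adj_tst hφ hα
  have h := closed_ineq (β := fun z => Horm_w φ (1 / 2) z • u z) (g := adj φ α) hφ hκc hκ0 hκ
    ((Horm_w_smooth hφ _).continuous.aestronglyMeasurable.smul (Lp.aestronglyMeasurable u))
    (by
      simp only [Horm_half_norm]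
      exact Horm_int_sq u)
    (fun j k f hf => (Horm_mem_Z hφ).1 huZ j k f hf)
    hadj.smooth.continuous.aestronglyMeasurable
    (Horm_int_G hφ hadj)
    (fun f hf => Horm_weak_adj hφ hα hf)
  have h2 : ∀ z, κ z * ‖Horm_w φ (1 / 2) z • u z‖ ^ 2 * Real.exp (-φ z) = κ z * ‖u z‖ ^ 2 := by
    intro z
    rw [mul_assoc, Horm_half_norm]
  simp only [h2] at h
  rw [Horm_norm_G hφ hadj]
  exact h

theorem Horm_norm_vec (a : Fin n → ℂ) : ‖vec a‖ ^ 2 = ∑ j, ‖a j‖ ^ 2 := by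
  unfold vec
  rw [EuclideanSpace.norm_sq_eq]

/-- the a priori estimate -/
theorem Horm_apriori {φ : Cn n → ℝ} (hφ : ContDiff ℝ ∞ φ) {κ : Cn n → ℝ}
    (hκc : Continuous κ) (hκ0 : ∀ z, 0 < κ z) (hκ : ∀ z ξ, κ z * ‖ξ‖ ^ 2 ≤ lev φ z ξ)
    {χ : Cn n → ℂ} (hχ : Tst χ) {α : Fin n → Cn n → ℂ} (hα : ∀ j, Tst (α j)) :
    2 * (inner ℂ (Horm_G φ (adj φ α)) (Horm_G φ χ)).re ≤ ‖Horm_G φ (adj φ α)‖ ^ 2 +
      ∫ z, (κ z)⁻¹ * (∑ j, ‖db j χ z‖ ^ 2) * Real.exp (-φ z) := by
  obtain ⟨hk1, hk2⟩ := Horm_key hφ hκc hκ0 hκ hα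
  rw [Horm_adj_L2 hφ hα hχ, ← Horm_proj_inner' _ (Horm_db_mem_Z hφ hχ)]
  set u := (Horm_Z φ).starProjection (Horm_F φ α) with hu
  have hD : ∀ᵐ z, ‖(Horm_F φ fun j => db j χ) z‖ ^ 2 = (∑ j, ‖db j χ z‖ ^ 2) * Real.exp (-φ z) := by
    filter_upwards [Horm_F_coe hφ fun j => hχ.db j] with z hz
    rw [hz, Horm_norm_vec, Finset.sum_mul]
    refine Finset.sum_congr rfl fun j _ => ?_
    rw [Horm_w_norm_sq]
  have hint : Integrable (fun z => (κ z)⁻¹ * (∑ j, ‖db j χ z‖ ^ 2) * Real.exp (-φ z)) volume := by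
    apply Continuous.integrable_of_hasCompactSupport
    · refine ((hκc.inv₀ fun z => (hκ0 z).ne').mul ?_).mul (Real.continuous_exp.comp hφ.continuous.neg)
      exact continuous_finsetSum _ fun j _ => ((hχ.db j).smooth.continuous.norm.pow 2)
    · have hK : IsCompact (⋃ j, tsupport (db j χ)) := isCompact_iUnion fun j => (hχ.db j).supp
      refine HasCompactSupport.intro hK fun x hx => ?_
      have h1 : ∀ j, db j χ x = 0 := by
        intro j
        have : x ∉ tsupport (db j χ) := fun h => hx (mem_iUnion.2 ⟨j, h⟩)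
        exact image_eq_zero_of_notMem_tsupport this
      simp [h1]
  have h1 : ‖inner ℂ u (Horm_F φ fun j => db j χ)‖ ≤
      ∫ z, (1 / 2) * (κ z * ‖u z‖ ^ 2 + (κ z)⁻¹ * (∑ j, ‖db j χ z‖ ^ 2) * Real.exp (-φ z)) := by
    rw [L2.inner_def]
    refine norm_integral_le_of_norm_le ((hk1.add hint).const_mul _) ?_
    filter_upwards [hD] with z hz
    refine le_trans (norm_inner_le_norm _ _) ?_
    rw [mul_assoc, ← hz]
    set x := ‖u z‖
    set y := ‖(Horm_F φ fun j => db j χ) z‖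
    have hκz := hκ0 z
    have h2 : 0 ≤ (κ z)⁻¹ * (κ z * x - y) ^ 2 := by positivity
    have h3 : (κ z)⁻¹ * (κ z * x - y) ^ 2 = κ z * x ^ 2 + (κ z)⁻¹ * y ^ 2 - 2 * (x * y) := by
      field_simp
      ring
    linarith
  rw [integral_const_mul, integral_add hk1 hint] at h1
  have h2 := Complex.re_le_norm (inner ℂ u (Horm_F φ fun j => db j χ))
  linarith

end HormAux

theorem hormander {n : ℕ} {φ : Cn n → ℝ} (hφ : ContDiff ℝ ∞ φ) {κ : Cn n → ℝ}
    (hκc : Continuous κ) (hκ0 : ∀ z, 0 < κ z) (hκ : ∀ z ξ, κ z * ‖ξ‖ ^ 2 ≤ lev φ z ξ)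
    {χ : Cn n → ℂ} (hχ : Tst χ) :
    ∃ f : Cn n → ℂ, Differentiable ℂ f ∧
      Integrable (fun z => ‖χ z - f z‖ ^ 2 * Real.exp (-φ z)) volume ∧
      ∫ z, ‖χ z - f z‖ ^ 2 * Real.exp (-φ z) ≤
        ∫ z, (κ z)⁻¹ * (∑ j, ‖db j χ z‖ ^ 2) * Real.exp (-φ z) := by
  set A := ∫ z, (κ z)⁻¹ * (∑ j, ‖db j χ z‖ ^ 2) * Real.exp (-φ z) with hA
  set P := (Horm_S φ hφ).topologicalClosure with hP
  set v := P.starProjection (Horm_G φ χ) with hv
  have hvP : v ∈ P := Submodule.starProjection_apply_mem _ _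
  have hGP : ∀ {α : Fin n → Cn n → ℂ}, (∀ j, Tst (α j)) → Horm_G φ (adj φ α) ∈ P :=
    fun {α} hα => Submodule.le_topologicalClosure _ ⟨α, hα, rfl⟩
  -- the estimate
  have hest : ‖v‖ ^ 2 ≤ A := by
    have hcl : IsClosed {x : Lp ℂ 2 (volume : Measure (Cn n)) |
        2 * (inner ℂ x v).re ≤ ‖x‖ ^ 2 + A} := by
      refine isClosed_le ?_ ?_
      · exact continuous_const.mul (Complex.continuous_re.comp (continuous_id.inner continuous_const))
      · exact (continuous_norm.pow 2).add continuous_const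
    have hsub : (Horm_S φ hφ : Set (Lp ℂ 2 (volume : Measure (Cn n)))) ⊆
        {x | 2 * (inner ℂ x v).re ≤ ‖x‖ ^ 2 + A} := by
      rintro x ⟨α, hα, rfl⟩
      rw [Set.mem_ofPred_eq, hv, Horm_proj_inner _ (hGP hα)]
      exact Horm_apriori hφ hκc hκ0 hκ hχ hα
    have h1 : v ∈ {x : Lp ℂ 2 (volume : Measure (Cn n)) | 2 * (inner ℂ x v).re ≤ ‖x‖ ^ 2 + A} := by
      refine closure_minimal hsub hcl ?_
      rw [← Submodule.topologicalClosure_coe]
      exact hvP
    rw [Set.mem_ofPred_eq, inner_self_eq_norm_sq_to_K] at h1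
    have h2 : (((‖v‖ : ℂ)) ^ 2).re = ‖v‖ ^ 2 := by
      rw [← Complex.ofReal_pow, Complex.ofReal_re]
    have h3 : 2 * ‖v‖ ^ 2 ≤ ‖v‖ ^ 2 + A := by
      rw [← h2]
      rw [h2]
      have h4 : 2 * (((‖v‖ : ℂ)) ^ 2).re ≤ ‖v‖ ^ 2 + A := h1
      rw [h2] at h4
      exact h4
    linarith
  -- the difference is weakly holomorphic
  have hlocv : LocallyIntegrable (v : Cn n → ℂ) volume :=
    (Lp.memLp v).locallyIntegrable (by norm_num)
  have hloc : LocallyIntegrable (fun z => χ z - Horm_w φ (1 / 2) z * v z) volume := by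
    refine LocallyIntegrable.sub hχ.smooth.continuous.locallyIntegrable ?_
    exact hlocv.continuous_mul (Horm_w_smooth hφ _).continuous
  have hweak : ∀ j : Fin n, ∀ f : Cn n → ℂ, Tst f →
      ∫ z, (χ z - Horm_w φ (1 / 2) z * v z) * db j f z = 0 := by
    intro j f hf
    have hf' : Tst (fun z => (starRingEnd ℂ) (f z) * Horm_w φ 1 z) := Horm_tst_w hφ hf.conj 1
    set α : Fin n → Cn n → ℂ := fun l z => if l = j then (starRingEnd ℂ) (f z) * Horm_w φ 1 z else 0
      with hαdef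
    have hα : ∀ l, Tst (α l) := by
      intro l
      by_cases h : l = j
      · simp only [hαdef, if_pos h]
        exact hf'
      · simp only [hαdef, if_neg h]
        exact Horm_tst_zero
    have hadj : ∀ z, adj φ α z = - ((starRingEnd ℂ) (db j f z) * Horm_w φ 1 z) := by
      intro z
      unfold adj
      rw [Finset.sum_eq_single j]
      · have h1 : α j = fun z => (starRingEnd ℂ) (f z) * Horm_w φ 1 z := by
          funext z
          simp only [hαdef, if_true]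
        rw [h1]
        rw [dd_mul hf.conj.smooth (Horm_w_smooth hφ 1), Horm_dd_w hφ, dd_conj hf.smooth]
        push_cast
        ring
      · intro l _ hl
        have h1 : α l = fun _ => 0 := by
          funext z
          simp only [hαdef, if_neg hl]
        rw [h1, Horm_dd_const]
        ring
      · intro h
        exact absurd (Finset.mem_univ j) h
    have horth : inner ℂ (Horm_G φ (adj φ α)) (Horm_G φ χ - v) = 0 := by
      rw [inner_sub_right, hv, Horm_proj_inner _ (hGP hα), sub_self]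
    unfold Horm_G at horth
    rw [Horm_inner_L (Horm_tst_w hφ (Horm_adj_tst hφ hα) _)] at horth
    have h2 : ∫ z, (χ z - Horm_w φ (1 / 2) z * v z) * db j f z =
        - ∫ z, (starRingEnd ℂ) (adj φ α z * Horm_w φ (-(1 / 2)) z) *
          (Horm_L (fun z => χ z * Horm_w φ (-(1 / 2)) z) - v : Lp ℂ 2 (volume : Measure (Cn n))) z := by
      rw [← integral_neg]
      refine integral_congr_ae ?_
      filter_upwards [Horm_L_coe (Horm_tst_w hφ hχ (-(1 / 2))),
        Lp.coeFn_sub (Horm_L (fun z => χ z * Horm_w φ (-(1 / 2)) z)) v] with z h3 h4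
      rw [h4, Pi.sub_apply, h3, hadj]
      simp only [map_mul, map_neg, Complex.conj_conj, Horm_w_conj]
      have h5 : Horm_w φ 1 z * Horm_w φ (-(1 / 2)) z = Horm_w φ (1 / 2) z := by
        rw [Horm_w_add]; norm_num
      have h6 : Horm_w φ 1 z * (Horm_w φ (-(1 / 2)) z * Horm_w φ (-(1 / 2)) z) = 1 := by
        rw [Horm_w_half, Horm_w_add, add_neg_cancel, Horm_w_zero]
      linear_combination (-(χ z * db j f z)) * h6 + (db j f z * v z) * h5
    rw [h2]
    unfold Horm_G at hv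
    rw [neg_eq_zero]
    exact horth
  obtain ⟨H, hH, hae⟩ := weyl hloc hweak
  have hpt : (fun z => ‖χ z - H z‖ ^ 2 * Real.exp (-φ z)) =ᵐ[volume] fun z => ‖v z‖ ^ 2 := by
    filter_upwards [hae] with z hz
    rw [← hz]
    have h1 : χ z - (χ z - Horm_w φ (1 / 2) z * v z) = v z * Horm_w φ (1 / 2) z := by ring
    rw [h1, norm_mul, mul_pow, Horm_w_norm, ← Real.exp_nat_mul, mul_assoc, ← Real.exp_add]
    have h2 : ((2 : ℕ) : ℝ) * (1 / 2 * φ z) + -φ z = 0 := by
      push_cast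
      ring
    rw [h2, Real.exp_zero, mul_one]
  refine ⟨H, hH, (Horm_int_sq v).congr hpt.symm, ?_⟩
  rw [integral_congr_ae hpt, ← Horm_norm_sq]
  exact hest

end HMA
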