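import Pool.Agent.H85.MA.OneStep

/-! # Module LITER: iteration of the one step estimate for bounded functions -/

open MeasureTheory Metric Set
open scoped ENNReal Topology ContDiff

namespace HMA

/-- the scales `r`, `2 r ^ 2`, ... -/
noncomputable def LIter_seq (r : ℝ) : ℕ → ℝ
  | 0 => r
  | j + 1 => 2 * (LIter_seq r j) ^ 2

theorem LIter_seq_succ (r : ℝ) (j : ℕ) : LIter_seq r (j + 1) = 2 * (LIter_seq r j) ^ 2 := rfl

theorem LIter_seq_prop {r : ℝ} (h0 : 0 < r) (h1 : r ≤ 1 / 4) (j : ℕ) :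
    0 < LIter_seq r j ∧ LIter_seq r j ≤ 1 / 4 ∧ LIter_seq r j ≤ r * (1 / 2) ^ j ∧
      LIter_seq r (j + 1) ≤ LIter_seq r j := by
  induction j with
  | zero =>
    refine ⟨h0, h1, by simp [LIter_seq], ?_⟩
    rw [LIter_seq_succ]
    show 2 * r ^ 2 ≤ r
    nlinarith
  | succ j ih =>
    obtain ⟨h2, h3, h4, h5⟩ := ih
    have h6 : LIter_seq r (j + 1) ≤ LIter_seq r j / 2 := by
      rw [LIter_seq_succ]; nlinarith
    have h7 : 0 < LIter_seq r (j + 1) := by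
      rw [LIter_seq_succ]; positivity
    refine ⟨h7, by linarith, ?_, ?_⟩
    · rw [pow_succ]; linarith
    · rw [LIter_seq_succ r (j + 1)]
      nlinarith

theorem LIter_seq_tendsto {r : ℝ} (h0 : 0 < r) (h1 : r ≤ 1 / 4) :
    Filter.Tendsto (LIter_seq r) Filter.atTop (𝓝[>] 0) := by
  refine tendsto_nhdsWithin_iff.2 ⟨?_, Filter.Eventually.of_forall fun j =>
    (LIter_seq_prop h0 h1 j).1⟩
  have h2 : Filter.Tendsto (fun j : ℕ => r * (1 / 2 : ℝ) ^ j) Filter.atTop (𝓝 (r * 0)) :=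
    (tendsto_pow_atTop_nhds_zero_of_lt_one (by norm_num) (by norm_num)).const_mul r
  rw [mul_zero] at h2
  exact squeeze_zero (fun j => (LIter_seq_prop h0 h1 j).1.le)
    (fun j => (LIter_seq_prop h0 h1 j).2.2.1) h2

theorem LIter_sum {r : ℝ} (h0 : 0 < r) (h1 : r ≤ 1 / 4) {β K : ℝ} (hβ : 0 < β) (hK : 0 ≤ K) :
    ∑' j, ENNReal.ofReal (K * LIter_seq r j ^ β) ≤
      ENNReal.ofReal (K * (1 - (1 / 2) ^ β)⁻¹ * r ^ β) := by
  have hq0 : (0 : ℝ) ≤ (1 / 2) ^ β := by positivity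
  have hq1 : (1 / 2 : ℝ) ^ β < 1 := Real.rpow_lt_one (by norm_num) (by norm_num) hβ
  have h2 : ∀ j, ENNReal.ofReal (K * LIter_seq r j ^ β) ≤
      ENNReal.ofReal (K * r ^ β * ((1 / 2) ^ β) ^ j) := by
    intro j
    refine ENNReal.ofReal_le_ofReal ?_
    rw [mul_assoc]
    refine mul_le_mul_of_nonneg_left ?_ hK
    obtain ⟨h3, -, h4, -⟩ := LIter_seq_prop h0 h1 j
    refine (Real.rpow_le_rpow h3.le h4 hβ.le).trans (le_of_eq ?_)
    rw [Real.mul_rpow h0.le (by positivity), ← Real.rpow_natCast, ← Real.rpow_natCast,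
      ← Real.rpow_mul (by norm_num), ← Real.rpow_mul (by norm_num), mul_comm β]
  refine (ENNReal.tsum_le_tsum h2).trans (le_of_eq ?_)
  rw [← ENNReal.ofReal_tsum_of_nonneg (fun j => by positivity)
    ((summable_geometric_of_lt_one hq0 hq1).mul_left _), tsum_mul_left,
    tsum_geometric_of_lt_one hq0 hq1]
  congr 1
  ring

theorem LIter_supB_mono {n : ℕ} {f : Cn n → ℝ} (hf : UpperSemicontinuous f) {r r' : ℝ} (h0 : 0 ≤ r)
    (h : r ≤ r') (z : Cn n) : supB f r z ≤ supB f r' z := by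
  obtain ⟨z', h1, h2⟩ := supB_attained hf h0 z
  rw [h2]
  exact le_supB hf (h1.trans h)

theorem loc_iter (n : ℕ) (hn : 1 ≤ n) {C c : ℝ} (hC : 0 < C) (hc : 0 < c) : ∃ b : ℝ, 0 < b ∧
    ∀ R a : ℝ, 1 ≤ R → 0 ≤ a → ∃ K : ℝ, 0 < K ∧
    ∀ (ν : Measure (Cn n)), ν univ ≤ 1 → ν {z | R < ‖z‖} = 0 → AffN n ν C c →
      ∀ g : Cn n → ℝ, PshS g → (∀ z, -1 ≤ g z) → (∀ z, g z ≤ Real.log (1 + ‖z‖ ^ 2) / 2 + a) →
        ∀ r : ℝ, 0 < r → r ≤ 1 / 4 →
          ∫⁻ z, ENNReal.ofReal (supB g r z - g z) ∂ν ≤ ENNReal.ofReal (K * r ^ b) := by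
  obtain ⟨b, hb, H⟩ := one_step n hn hC hc
  have hq1 : (1 / 2 : ℝ) ^ b < 1 := Real.rpow_lt_one (by norm_num) (by norm_num) hb
  have hq2 : 0 < (1 - (1 / 2 : ℝ) ^ b)⁻¹ := inv_pos.2 (by linarith)
  refine ⟨b, hb, fun R a hR ha => ?_⟩
  obtain ⟨K, hK, H⟩ := H R a hR ha
  refine ⟨K * (1 - (1 / 2) ^ b)⁻¹, by positivity, fun ν hν1 hν2 hν3 g hg hg1 hg2 r hr0 hr1 => ?_⟩
  have hmeas : ∀ ρ : ℝ, 0 ≤ ρ → Measurable (supB g ρ) := fun ρ hρ =>
    (supB_usc hg.usc hρ).measurable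
  -- pointwise
  have hpt : ∀ z, ENNReal.ofReal (supB g r z - g z) ≤
      ∑' j, ENNReal.ofReal (supB g (LIter_seq r j) z - supB g (2 * (LIter_seq r j) ^ 2) z) := by
    intro z
    have h1 : Filter.Tendsto (fun N => ENNReal.ofReal (supB g r z - supB g (LIter_seq r N) z))
        Filter.atTop (𝓝 (ENNReal.ofReal (supB g r z - g z))) := by
      refine ENNReal.tendsto_ofReal ?_
      exact ((supB_tendsto hg.usc z).comp (LIter_seq_tendsto hr0 hr1)).const_sub _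
    refine le_of_tendsto' h1 fun N => ?_
    have h2 : supB g r z - supB g (LIter_seq r N) z =
        ∑ j ∈ Finset.range N, (supB g (LIter_seq r j) z - supB g (LIter_seq r (j + 1)) z) :=
      (Finset.sum_range_sub' (fun j => supB g (LIter_seq r j) z) N).symm
    rw [h2, ENNReal.ofReal_sum_of_nonneg]
    · exact ENNReal.sum_le_tsum _
    · intro j _
      have h3 := LIter_seq_prop hr0 hr1 j
      have h4 := LIter_seq_prop hr0 hr1 (j + 1)
      exact sub_nonneg.2 (LIter_supB_mono hg.usc h4.1.le h3.2.2.2 z)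
  refine (lintegral_mono hpt).trans ?_
  rw [lintegral_tsum]
  · refine (ENNReal.tsum_le_tsum fun j => ?_).trans (LIter_sum hr0 hr1 hb hK.le)
    obtain ⟨h3, h4, -, -⟩ := LIter_seq_prop hr0 hr1 j
    exact H ν hν1 hν2 hν3 g hg hg1 hg2 _ h3 h4
  · intro j
    obtain ⟨h3, h4, -, -⟩ := LIter_seq_prop hr0 hr1 j
    exact (((hmeas _ h3.le).sub (hmeas _ (by positivity))).ennreal_ofReal).aemeasurable

end HMA
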