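import Pool.Agent.H85.MA.OneStep
import Pool.Agent.H85.MA.PshBall
import Pool.Agent.H85.MA.LIter

/-! # Module ITER: iteration of the one step estimate -/

open MeasureTheory Metric Set
open scoped ENNReal Topology ContDiff

namespace HMA

theorem Iter_supB {n : ℕ} {f : Cn n → ℝ} (hf : UpperSemicontinuous f) {δ c : ℝ} (hδ : 0 < δ)
    (hc : 0 < c) (hg : UpperSemicontinuous (fun z => c * Real.log (max (f z) δ))) {r : ℝ}
    (hr : 0 ≤ r) (z : Cn n) :
    supB (fun z => c * Real.log (max (f z) δ)) r z = c * Real.log (max (supB f r z) δ) := by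
  apply le_antisymm
  · obtain ⟨z', h1, h2⟩ := supB_attained hg hr z
    rw [h2]
    refine mul_le_mul_of_nonneg_left ?_ hc.le
    exact Real.log_le_log (lt_max_of_lt_right hδ) (max_le_max (le_supB hf h1) le_rfl)
  · obtain ⟨z', h1, h2⟩ := supB_attained hf hr z
    rw [h2]
    exact le_supB hg h1

theorem Iter_log_bound {ρ b : ℝ} (h0 : 0 < ρ) (h1 : ρ ≤ 1) (hb : 0 < b) :
    (1 + Real.log (1 / ρ)) * ρ ^ b ≤ (1 + 2 / b) * ρ ^ (b / 2) := by
  have h2 : Real.log (1 / ρ) ≤ (1 / ρ) ^ (b / 2) / (b / 2) :=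
    Real.log_le_rpow_div (by positivity) (by positivity)
  have h3 : ρ ^ b = ρ ^ (b / 2) * ρ ^ (b / 2) := by
    rw [← Real.rpow_add h0]; congr 1; ring
  have h4 : (1 / ρ) ^ (b / 2) * ρ ^ (b / 2) = 1 := by
    rw [← Real.mul_rpow (by positivity) h0.le, one_div_mul_cancel h0.ne', Real.one_rpow]
  have h5 : 0 < ρ ^ (b / 2) := by positivity
  have h6 : ρ ^ (b / 2) ≤ 1 := Real.rpow_le_one h0.le h1 (by positivity)
  rw [h3, ← mul_assoc]
  refine mul_le_mul_of_nonneg_right ?_ h5.le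
  have h7 : Real.log (1 / ρ) * ρ ^ (b / 2) ≤ 2 / b := by
    calc Real.log (1 / ρ) * ρ ^ (b / 2) ≤ (1 / ρ) ^ (b / 2) / (b / 2) * ρ ^ (b / 2) :=
          mul_le_mul_of_nonneg_right h2 h5.le
      _ = ((1 / ρ) ^ (b / 2) * ρ ^ (b / 2)) * (2 / b) := by field_simp
      _ = 2 / b := by rw [h4, one_mul]
  linarith [add_mul 1 (Real.log (1 / ρ)) (ρ ^ (b / 2))]

/-- the tail term -/
theorem Iter_tail {A f ρ ρ' ε : ℝ} (hf : 0 ≤ f) (hA : f ≤ A) (hρ : 0 < ρ)
    (hε : 0 < ε) :
    ENNReal.ofReal (Real.log (max A ρ) - Real.log (max A ρ')) ≤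
      ENNReal.ofReal (ρ ^ ε / ε) * (ENNReal.ofReal f) ^ (-ε) := by
  rcases hf.eq_or_lt with h0 | h0
  · rw [← h0, ENNReal.ofReal_zero, ENNReal.zero_rpow_of_neg (by linarith), ENNReal.mul_top]
    · exact le_top
    · rw [Ne, ENNReal.ofReal_eq_zero, not_le]
      positivity
  · rw [ENNReal.ofReal_rpow_of_pos h0, ← ENNReal.ofReal_mul (by positivity)]
    refine ENNReal.ofReal_le_ofReal ?_
    have hA0 : 0 < A := h0.trans_le hA
    rcases le_total ρ A with h1 | h1
    · rw [max_eq_left h1]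
      have h2 : Real.log A ≤ Real.log (max A ρ') := Real.log_le_log hA0 (le_max_left _ _)
      have h3 : 0 ≤ ρ ^ ε / ε * f ^ (-ε) := by positivity
      linarith
    · rw [max_eq_right h1]
      have h2 : Real.log A ≤ Real.log (max A ρ') := Real.log_le_log hA0 (le_max_left _ _)
      have h3 : Real.log f ≤ Real.log A := Real.log_le_log h0 hA
      have h4 : Real.log (ρ / f) ≤ (ρ / f) ^ ε / ε := Real.log_le_rpow_div (by positivity) hε
      rw [Real.log_div hρ.ne' h0.ne', Real.div_rpow hρ.le h0.le] at h4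
      rw [Real.rpow_neg h0.le]
      have h5 : ρ ^ ε / ε * (f ^ ε)⁻¹ = ρ ^ ε / f ^ ε / ε := by
        field_simp
      rw [h5]
      linarith

theorem iter (n : ℕ) (hn : 1 ≤ n) {C c ε : ℝ} (hC : 0 < C) (hc : 0 < c) (hε : 0 < ε) :
    ∃ b : ℝ, 0 < b ∧ ∀ R a C₁ : ℝ, 1 ≤ R → 0 ≤ a → 0 < C₁ → ∃ K : ℝ, 0 < K ∧
    ∀ (ν : Measure (Cn n)), ν univ ≤ 1 → ν {z | R < ‖z‖} = 0 → AffN n ν C c →
      ∀ f : Cn n → ℝ, LogPsh f → (∀ z, f z ≤ Real.exp a * Real.sqrt (1 + ‖z‖ ^ 2)) →
        ∫⁻ z, (ENNReal.ofReal (f z)) ^ (-ε) ∂ν ≤ ENNReal.ofReal C₁ →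
        ∀ r : ℝ, 0 < r → r ≤ 1 / 4 →
          ∫⁻ z, ENNReal.ofReal (Real.log (max (supB f r z) r) - Real.log (f z)) ∂ν ≤
            ENNReal.ofReal (K * r ^ b) := by
  obtain ⟨b, hb, H⟩ := one_step n hn hC hc
  have hβ : 0 < min (b / 2) ε := lt_min (by positivity) hε
  have hq1 : (1 / 2 : ℝ) ^ (min (b / 2) ε) < 1 := Real.rpow_lt_one (by norm_num) (by norm_num) hβ
  have hq2 : 0 < (1 - (1 / 2 : ℝ) ^ (min (b / 2) ε))⁻¹ := inv_pos.2 (by linarith)
  refine ⟨min (b / 2) ε, hβ, fun R a C₁ hR ha hC₁ => ?_⟩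
  obtain ⟨K, hK, H⟩ := H R a hR ha
  refine ⟨(K * (1 + 2 / b) + C₁ / ε) * (1 - (1 / 2) ^ (min (b / 2) ε))⁻¹, by positivity,
    fun ν hν1 hν2 hν3 f hf hf1 hf2 r hr0 hr1 => ?_⟩
  have hmeas : ∀ ρ : ℝ, 0 ≤ ρ → Measurable (supB f ρ) := fun ρ hρ =>
    (supB_usc hf.usc hρ).measurable
  have hmf : Measurable f := hf.usc.measurable
  -- the two parts
  let T1 : ℕ → Cn n → ℝ≥0∞ := fun j z =>
    ENNReal.ofReal (Real.log (max (supB f (LIter_seq r j) z) (LIter_seq r j)) -
      Real.log (max (supB f (LIter_seq r (j + 1)) z) (LIter_seq r j)))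
  let T2 : ℕ → Cn n → ℝ≥0∞ := fun j z =>
    ENNReal.ofReal ((LIter_seq r j) ^ ε / ε) * (ENNReal.ofReal (f z)) ^ (-ε)
  have hsup0 : ∀ (ρ : ℝ), 0 ≤ ρ → ∀ z, f z ≤ supB f ρ z := fun ρ hρ z =>
    le_supB hf.usc (by simpa using hρ)
  -- pointwise
  have hpt : ∀ z, ENNReal.ofReal (Real.log (max (supB f r z) r) - Real.log (f z)) ≤
      ∑' j, (T1 j z + T2 j z) := by
    intro z
    rcases (hf.nonneg z).eq_or_lt with hz | hz
    · refine le_trans ?_ (ENNReal.le_tsum 0)
      have h1 : T2 0 z = ⊤ := by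
        show ENNReal.ofReal ((LIter_seq r 0) ^ ε / ε) * (ENNReal.ofReal (f z)) ^ (-ε) = ⊤
        rw [← hz, ENNReal.ofReal_zero, ENNReal.zero_rpow_of_neg (by linarith), ENNReal.mul_top]
        rw [Ne, ENNReal.ofReal_eq_zero, not_le]
        have := (LIter_seq_prop hr0 hr1 0).1
        positivity
      rw [h1, add_top]
      exact le_top
    · have h0 : Filter.Tendsto (fun N => max (supB f (LIter_seq r N) z) (LIter_seq r N))
          Filter.atTop (𝓝 (max (f z) 0)) :=
        ((supB_tendsto hf.usc z).comp (LIter_seq_tendsto hr0 hr1)).max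
          ((LIter_seq_tendsto hr0 hr1).mono_right nhdsWithin_le_nhds)
      rw [max_eq_left hz.le] at h0
      have h1 : Filter.Tendsto (fun N => ENNReal.ofReal (Real.log (max (supB f r z) r) -
          Real.log (max (supB f (LIter_seq r N) z) (LIter_seq r N))))
          Filter.atTop (𝓝 (ENNReal.ofReal (Real.log (max (supB f r z) r) - Real.log (f z)))) :=
        ENNReal.tendsto_ofReal ((h0.log hz.ne').const_sub _)
      refine le_of_tendsto' h1 fun N => ?_
      have h2 : Real.log (max (supB f r z) r) -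
          Real.log (max (supB f (LIter_seq r N) z) (LIter_seq r N)) =
          ∑ j ∈ Finset.range N, (Real.log (max (supB f (LIter_seq r j) z) (LIter_seq r j)) -
            Real.log (max (supB f (LIter_seq r (j + 1)) z) (LIter_seq r (j + 1)))) :=
        (Finset.sum_range_sub'
          (fun j => Real.log (max (supB f (LIter_seq r j) z) (LIter_seq r j))) N).symm
      rw [h2, ENNReal.ofReal_sum_of_nonneg]
      · refine (Finset.sum_le_sum fun j _ => ?_).trans (ENNReal.sum_le_tsum _)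
        have h3 := (LIter_seq_prop hr0 hr1 j).1
        have h4 := (LIter_seq_prop hr0 hr1 (j + 1)).1
        have h5 : Real.log (max (supB f (LIter_seq r j) z) (LIter_seq r j)) -
            Real.log (max (supB f (LIter_seq r (j + 1)) z) (LIter_seq r (j + 1))) =
            (Real.log (max (supB f (LIter_seq r j) z) (LIter_seq r j)) -
              Real.log (max (supB f (LIter_seq r (j + 1)) z) (LIter_seq r j))) +
            (Real.log (max (supB f (LIter_seq r (j + 1)) z) (LIter_seq r j)) -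
              Real.log (max (supB f (LIter_seq r (j + 1)) z) (LIter_seq r (j + 1)))) := by ring
        rw [h5]
        refine ENNReal.ofReal_add_le.trans (add_le_add le_rfl ?_)
        exact Iter_tail hz.le (hsup0 _ h4.le z) h3 hε
      · intro j _
        have h3 := LIter_seq_prop hr0 hr1 j
        have h4 := LIter_seq_prop hr0 hr1 (j + 1)
        refine sub_nonneg.2 (Real.log_le_log (lt_max_of_lt_right h4.1) ?_)
        exact max_le_max (LIter_supB_mono hf.usc h4.1.le h3.2.2.2 z) h3.2.2.2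
  -- the first part
  have hI1 : ∀ j, ∫⁻ z, T1 j z ∂ν ≤
      ENNReal.ofReal (K * (1 + 2 / b) * LIter_seq r j ^ (min (b / 2) ε)) := by
    intro j
    obtain ⟨h3, h4, -, -⟩ := LIter_seq_prop hr0 hr1 j
    set ρ := LIter_seq r j with hρ
    have hlog : 0 ≤ Real.log (1 / ρ) := Real.log_nonneg (by
      rw [le_div_iff₀ h3]; linarith)
    have hcc : 0 < (1 + Real.log (1 / ρ))⁻¹ := by positivity
    have hg : PshR (fun z => (1 + Real.log (1 / ρ))⁻¹ * Real.log (max (f z) ρ)) :=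
      (pshR_log_max hf h3).const_mul hcc
    have hlogρ : Real.log (1 / ρ) = - Real.log ρ := by
      rw [one_div, Real.log_inv]
    have h5 := H ν hν1 hν2 hν3 _ hg.toS (fun z => by
      have h6 : Real.log ρ ≤ Real.log (max (f z) ρ) := Real.log_le_log h3 (le_max_right _ _)
      rw [inv_mul_eq_div, le_div_iff₀ (by positivity)]
      rw [hlogρ] at hlog ⊢
      linarith) (fun z => by
      have h6 : Real.log (max (f z) ρ) ≤ Real.log (1 + ‖z‖ ^ 2) / 2 + a := by
        have h7 : max (f z) ρ ≤ Real.exp a * Real.sqrt (1 + ‖z‖ ^ 2) := by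
          refine max_le (hf1 z) ?_
          have h8 : 1 ≤ Real.exp a := Real.one_le_exp ha
          have h9 : 1 ≤ Real.sqrt (1 + ‖z‖ ^ 2) := Real.one_le_sqrt.2 (by nlinarith [sq_nonneg ‖z‖])
          nlinarith
        refine (Real.log_le_log (lt_max_of_lt_right h3) h7).trans (le_of_eq ?_)
        rw [Real.log_mul (Real.exp_pos a).ne' (Real.sqrt_pos.2 (by positivity)).ne', Real.log_exp,
          Real.log_sqrt (by positivity)]
        ring
      have h10 : 0 ≤ Real.log (1 + ‖z‖ ^ 2) / 2 + a := by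
        have := Real.log_nonneg (show (1 : ℝ) ≤ 1 + ‖z‖ ^ 2 by nlinarith [sq_nonneg ‖z‖])
        positivity
      rw [inv_mul_eq_div, div_le_iff₀ (by positivity)]
      nlinarith) ρ h3 h4
    have h6 : ∀ z, T1 j z = ENNReal.ofReal (1 + Real.log (1 / ρ)) *
        ENNReal.ofReal (supB (fun z => (1 + Real.log (1 / ρ))⁻¹ * Real.log (max (f z) ρ)) ρ z -
          supB (fun z => (1 + Real.log (1 / ρ))⁻¹ * Real.log (max (f z) ρ)) (2 * ρ ^ 2) z) := by
      intro z
      rw [Iter_supB hf.usc h3 hcc hg.usc h3.le, Iter_supB hf.usc h3 hcc hg.usc (by positivity),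
        ← ENNReal.ofReal_mul (by positivity)]
      show ENNReal.ofReal (Real.log (max (supB f ρ z) ρ) -
        Real.log (max (supB f (2 * ρ ^ 2) z) ρ)) = _
      congr 1
      field_simp
    rw [lintegral_congr h6, lintegral_const_mul' _ _ ENNReal.ofReal_ne_top]
    refine (mul_le_mul_right h5 _).trans ?_
    rw [← ENNReal.ofReal_mul (by positivity)]
    refine ENNReal.ofReal_le_ofReal ?_
    have h7 := Iter_log_bound h3 (by linarith) hb
    have h8 : ρ ^ (b / 2) ≤ ρ ^ (min (b / 2) ε) :=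
      Real.rpow_le_rpow_of_exponent_ge h3 (by linarith) (min_le_left _ _)
    calc (1 + Real.log (1 / ρ)) * (K * ρ ^ b) = K * ((1 + Real.log (1 / ρ)) * ρ ^ b) := by ring
      _ ≤ K * ((1 + 2 / b) * ρ ^ (b / 2)) := mul_le_mul_of_nonneg_left h7 hK.le
      _ ≤ K * ((1 + 2 / b) * ρ ^ (min (b / 2) ε)) := by gcongr
      _ = K * (1 + 2 / b) * ρ ^ (min (b / 2) ε) := by ring
  -- the second part
  have hI2 : ∀ j, ∫⁻ z, T2 j z ∂ν ≤
      ENNReal.ofReal (C₁ / ε * LIter_seq r j ^ (min (b / 2) ε)) := by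
    intro j
    obtain ⟨h3, h4, -, -⟩ := LIter_seq_prop hr0 hr1 j
    show ∫⁻ z, ENNReal.ofReal ((LIter_seq r j) ^ ε / ε) * (ENNReal.ofReal (f z)) ^ (-ε) ∂ν ≤ _
    rw [lintegral_const_mul' _ _ ENNReal.ofReal_ne_top]
    refine (mul_le_mul_right hf2 _).trans ?_
    rw [← ENNReal.ofReal_mul (by positivity)]
    refine ENNReal.ofReal_le_ofReal ?_
    have h8 : LIter_seq r j ^ ε ≤ LIter_seq r j ^ (min (b / 2) ε) :=
      Real.rpow_le_rpow_of_exponent_ge h3 (by linarith) (min_le_right _ _)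
    calc LIter_seq r j ^ ε / ε * C₁ = C₁ / ε * LIter_seq r j ^ ε := by ring
      _ ≤ C₁ / ε * LIter_seq r j ^ (min (b / 2) ε) := by gcongr
  have hm1 : ∀ j, Measurable (T1 j) := by
    intro j
    have h3 := (LIter_seq_prop hr0 hr1 j).1.le
    have h4 := (LIter_seq_prop hr0 hr1 (j + 1)).1.le
    exact ((((hmeas _ h3).max measurable_const).log).sub
      (((hmeas _ h4).max measurable_const).log)).ennreal_ofReal
  have hm2 : ∀ j, Measurable (T2 j) := by
    intro j
    exact (hmf.ennreal_ofReal.pow_const _).const_mul _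
  refine (lintegral_mono hpt).trans ?_
  rw [lintegral_tsum (f := fun j z => T1 j z + T2 j z)
    (fun j => ((hm1 j).add (hm2 j)).aemeasurable)]
  refine (ENNReal.tsum_le_tsum fun j => ?_).trans
    (LIter_sum hr0 hr1 (K := K * (1 + 2 / b) + C₁ / ε) hβ (by positivity))
  rw [lintegral_add_left (hm1 j)]
  refine (add_le_add (hI1 j) (hI2 j)).trans (le_of_eq ?_)
  have h3 := (LIter_seq_prop hr0 hr1 j).1.le
  rw [← ENNReal.ofReal_add (by positivity) (by positivity)]
  congr 1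
  ring

end HMA
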