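import Pool.Agent.H85.MA.LIter
import Pool.Agent.H85.MA.LExt

/-! # Module LCMP: Hölder estimate for bounded psh functions -/

open MeasureTheory Metric Set
open scoped ENNReal Topology ContDiff

namespace HMA

theorem LCmp_vol {n : ℕ} (a : Cn n) {r : ℝ} (hr : 0 < r) :
    volume.real (ball a r) = r ^ (2 * n) * volume.real (ball (0 : Cn n) 1) := by
  have h1 : (volume : Measure (Cn n)) (ball a r) =
      ENNReal.ofReal (r ^ Module.finrank ℝ (Cn n)) * volume (ball (0 : Cn n) 1) :=
    Measure.addHaar_ball_of_pos _ a hr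
  have h2 : Module.finrank ℝ (Cn n) = 2 * n := by
    rw [finrank_real_of_complex, finrank_euclideanSpace_fin]
  unfold Measure.real
  rw [h1, h2, ENNReal.toReal_mul, ENNReal.toReal_ofReal (by positivity)]

theorem LCmp_vol_pos (n : ℕ) : 0 < volume.real (ball (0 : Cn n) 1) :=
  ENNReal.toReal_pos (isOpen_ball.measure_pos volume ⟨0, mem_ball_self one_pos⟩).ne'
    measure_ball_lt_top.ne

/-- bounded measurable functions for measures on the unit ball -/
theorem LCmp_int {n : ℕ} {ν : Measure (Cn n)} (hν : ν univ ≤ 1) (hν0 : ν {z | 1 < ‖z‖} = 0)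
    {g : Cn n → ℝ} (hg : AEStronglyMeasurable g ν) {M : ℝ} (hM : ∀ z, ‖z‖ ≤ 1 → |g z| ≤ M) :
    Integrable g ν := by
  have : IsFiniteMeasure ν := ⟨lt_of_le_of_lt hν ENNReal.one_lt_top⟩
  refine Integrable.of_bound hg M ?_
  have h1 : ∀ᵐ z ∂ν, ¬ (1 < ‖z‖) := by
    rw [ae_iff]
    simpa using hν0
  filter_upwards [h1] with z hz
  exact hM z (not_lt.1 hz)

theorem LCmp_ae {n : ℕ} {ν : Measure (Cn n)} (hν0 : ν {z | 1 < ‖z‖} = 0) :
    ∀ᵐ z ∂ν, ‖z‖ ≤ 1 := by
  rw [ae_iff]
  simpa using hν0

/-- the estimate at scale `r` -/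
theorem LCmp_scale {n : ℕ} {ν : Measure (Cn n)} (hν : ν univ ≤ 1)
    (hν0 : ν {z | 1 < ‖z‖} = 0) {g h : Cn n → ℝ} (hg : PshS g) (hh : PshS h)
    (hg1 : ∀ z, -1 ≤ g z) (hh1 : ∀ z, -1 ≤ h z)
    (hg2 : ∀ z, g z ≤ Real.log (1 + ‖z‖ ^ 2) / 2) (hh2 : ∀ z, h z ≤ Real.log (1 + ‖z‖ ^ 2) / 2)
    {r B : ℝ} (hr : 0 < r) (hr1 : r ≤ 1 / 16) (hB : 0 ≤ B)
    (hsup : ∫⁻ z, ENNReal.ofReal (supB h r z - h z) ∂ν ≤ ENNReal.ofReal B) :
    (∫ z, g z ∂ν) - ∫ z, h z ∂ν ≤ B + (∫ x in ball (0 : Cn n) (3 / 2), |g x - h x|) /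
      (r ^ (2 * n) * volume.real (ball (0 : Cn n) 1)) := by
  have hfin : IsFiniteMeasure ν := ⟨lt_of_le_of_lt hν ENNReal.one_lt_top⟩
  have hνr : ν.real univ ≤ 1 := by
    unfold Measure.real
    exact ENNReal.toReal_le_of_le_ofReal zero_le_one (by simpa using hν)
  set δ := ∫ x in ball (0 : Cn n) (3 / 2), |g x - h x| with hδ
  have hδ0 : 0 ≤ δ := integral_nonneg fun _ => abs_nonneg _
  set V := r ^ (2 * n) * volume.real (ball (0 : Cn n) 1) with hV
  have hV0 : 0 < V := mul_pos (by positivity) (LCmp_vol_pos n)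
  -- bounds on the unit ball and measurability
  have hlog : ∀ z : Cn n, ‖z‖ ≤ 2 → Real.log (1 + ‖z‖ ^ 2) / 2 ≤ 1 := by
    intro z hz
    have h1 : Real.log (1 + ‖z‖ ^ 2) ≤ Real.log 5 := by
      apply Real.log_le_log (by positivity)
      nlinarith [norm_nonneg z]
    have h2 : Real.log 5 ≤ 2 := by
      rw [Real.log_le_iff_le_exp (by norm_num)]
      have h3 : (2.7 : ℝ) < Real.exp 1 := lt_trans (by norm_num) Real.exp_one_gt_d9
      have h4 : Real.exp 2 = Real.exp 1 * Real.exp 1 := by
        rw [← Real.exp_add]; norm_num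
      rw [h4]
      nlinarith
    linarith
  have hgint : Integrable g ν := LCmp_int hν hν0 hg.usc.measurable.aestronglyMeasurable (M := 1)
    fun z hz => abs_le.2 ⟨hg1 z, le_trans (hg2 z) (hlog z (by linarith))⟩
  have hhint : Integrable h ν := LCmp_int hν hν0 hh.usc.measurable.aestronglyMeasurable (M := 1)
    fun z hz => abs_le.2 ⟨hh1 z, le_trans (hh2 z) (hlog z (by linarith))⟩
  have hsint : Integrable (supB h r) ν := by
    refine LCmp_int hν hν0 (supB_usc hh.usc hr.le).measurable.aestronglyMeasurable (M := 1) ?_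
    intro z hz
    obtain ⟨z', hz', heq⟩ := supB_attained hh.usc hr.le z
    rw [heq]
    refine abs_le.2 ⟨hh1 z', le_trans (hh2 z') (hlog z' ?_)⟩
    have h1 := norm_le_norm_add_norm_sub' z' z
    linarith
  have hsup' : ∫ z, (supB h r z - h z) ∂ν ≤ B := by
    rw [integral_eq_lintegral_of_nonneg_ae]
    · exact ENNReal.toReal_le_of_le_ofReal hB hsup
    · refine Filter.Eventually.of_forall fun z => ?_
      have : h z ≤ supB h r z := le_supB hh.usc (by simpa using hr.le)
      show (0 : ℝ) ≤ supB h r z - h z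
      linarith
    · exact (hsint.sub hhint).aestronglyMeasurable
  -- the pointwise estimate
  have hgh : IntegrableOn (fun x => |g x - h x|) (ball (0 : Cn n) (3 / 2)) volume := by
    have h1 := usc_locInt hg.usc hg.bdd
    have h2 := usc_locInt hh.usc hh.bdd
    have h3 := ((h1.sub h2).integrableOn_isCompact (isCompact_closedBall (0 : Cn n) (3 / 2)))
    exact (h3.mono_set ball_subset_closedBall).norm
  have hpt : ∀ z, ‖z‖ ≤ 1 → g z ≤ supB h r z + δ / V := by
    intro z hz
    obtain ⟨h1, h2⟩ := submean_ball hg.usc hg.bdd hr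
      (fun a b hb => hg.submean a b (le_trans hb hr1)) z
    rw [LCmp_vol z hr, ← hV] at h2
    have hsubset : ball z r ⊆ ball (0 : Cn n) (3 / 2) := by
      intro x hx
      rw [mem_ball_zero_iff]
      rw [mem_ball, dist_eq_norm] at hx
      have := norm_le_norm_add_norm_sub' x z
      linarith
    have h3 : ∫ x in ball z r, g x ≤ ∫ x in ball z r, (supB h r z + |g x - h x|) := by
      refine setIntegral_mono_on h1 ?_ measurableSet_ball fun x hx => ?_
      · exact (integrableOn_const (by exact measure_ball_lt_top.ne)).add (hgh.mono_set hsubset)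
      · have h4 : h x ≤ supB h r z := le_supB hh.usc (by
          rw [mem_ball, dist_eq_norm] at hx
          exact hx.le)
        have h5 := le_abs_self (g x - h x)
        linarith
    have h4 : ∫ x in ball z r, (supB h r z + |g x - h x|) ≤ V * supB h r z + δ := by
      have hci : Integrable (fun _ : Cn n => supB h r z) (volume.restrict (ball z r)) :=
        integrableOn_const measure_ball_lt_top.ne
      have hgi : Integrable (fun x => |g x - h x|) (volume.restrict (ball z r)) :=
        hgh.mono_set hsubset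
      rw [integral_add hci hgi, setIntegral_const, LCmp_vol z hr, ← hV, smul_eq_mul]
      have h5 : ∫ x in ball z r, |g x - h x| ≤ δ :=
        setIntegral_mono_set hgh (Filter.Eventually.of_forall fun _ => abs_nonneg _)
          hsubset.eventuallyLE
      linarith
    have h5 : g z * V ≤ V * supB h r z + δ := by linarith
    have h6 : g z ≤ (V * supB h r z + δ) / V := by rwa [le_div_iff₀ hV0]
    rw [add_div, mul_div_cancel_left₀ _ hV0.ne'] at h6
    exact h6
  have h1 : (∫ z, g z ∂ν) ≤ ∫ z, (supB h r z + δ / V) ∂ν := by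
    refine integral_mono_ae hgint (hsint.add (integrable_const _)) ?_
    filter_upwards [LCmp_ae hν0] with z hz
    exact hpt z hz
  rw [integral_add hsint (integrable_const _), integral_const, smul_eq_mul] at h1
  rw [integral_sub hsint hhint] at hsup'
  have h2 : ν.real univ * (δ / V) ≤ δ / V := by
    have : 0 ≤ δ / V := div_nonneg hδ0 hV0.le
    nlinarith
  linarith

theorem loc_comp (n : ℕ) (hn : 1 ≤ n) {C c : ℝ} (hC : 0 < C) (hc : 0 < c) : ∃ α : ℝ, 0 < α ∧
    α ≤ 1 ∧ ∃ K : ℝ, 0 < K ∧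
    ∀ (ν : Measure (Cn n)), ν univ ≤ 1 → ν {z | 1 < ‖z‖} = 0 → AffN n ν C c →
      ∀ F G : Cn n → ℝ, PshOn (ball 0 2) F → PshOn (ball 0 2) G → (∀ x ∈ ball 0 2, F x ≤ 1) →
        (∀ x ∈ ball 0 2, G x ≤ 1) → ∀ t : ℝ, 1 ≤ t →
        (∫ z, Real.log (max (F z) (Real.exp (-t))) ∂ν) -
            (∫ z, Real.log (max (G z) (Real.exp (-t))) ∂ν) ≤
          K * t * (∫ x in ball (0 : Cn n) (3 / 2), |Real.log (max (F x) (Real.exp (-t))) -
            Real.log (max (G x) (Real.exp (-t)))|) ^ α := by
  obtain ⟨b, hb, H⟩ := loc_iter n hn hC hc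
  obtain ⟨K', hK', H'⟩ := H 1 0 le_rfl le_rfl
  set w := volume.real (ball (0 : Cn n) 1) with hw
  have hw0 : 0 < w := LCmp_vol_pos n
  have hnb : (0 : ℝ) < 2 * n + b := by positivity
  have h16 : (0 : ℝ) < 16 ^ b := by positivity
  refine ⟨b / (2 * n + b), by positivity, ?_, 16 * K' + 1 / w + 16 ^ b, by positivity, ?_⟩
  · rw [div_le_one hnb]
    have : (0 : ℝ) ≤ n := Nat.cast_nonneg n
    linarith
  intro ν hν hν0 hAff F G hF hG hF1 hG1 t ht
  have hfin : IsFiniteMeasure ν := ⟨lt_of_le_of_lt hν ENNReal.one_lt_top⟩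
  have hνr : ν.real univ ≤ 1 := by
    unfold Measure.real
    exact ENNReal.toReal_le_of_le_ofReal zero_le_one (by simpa using hν)
  obtain ⟨g, hg, hg1, hg2, hgF⟩ := psh_ext hF hF1 ht
  obtain ⟨h, hh, hh1, hh2, hhG⟩ := psh_ext hG hG1 ht
  have ht0 : (0 : ℝ) < 16 * t := by linarith
  set δ := ∫ x in ball (0 : Cn n) (3 / 2), |Real.log (max (F x) (Real.exp (-t))) -
    Real.log (max (G x) (Real.exp (-t)))| with hδ
  have hδ0 : 0 ≤ δ := integral_nonneg fun _ => abs_nonneg _
  have hδeq : δ = 16 * t * ∫ x in ball (0 : Cn n) (3 / 2), |g x - h x| := by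
    rw [hδ, ← integral_const_mul]
    refine setIntegral_congr_fun measurableSet_ball fun x hx => ?_
    rw [mem_ball_zero_iff] at hx
    show |Real.log (max (F x) (Real.exp (-t))) - Real.log (max (G x) (Real.exp (-t)))| =
      16 * t * |g x - h x|
    rw [← hgF x hx, ← hhG x hx, ← mul_sub, abs_mul, abs_of_pos ht0]
  have hFint : ∫ z, Real.log (max (F z) (Real.exp (-t))) ∂ν = 16 * t * ∫ z, g z ∂ν := by
    rw [← integral_const_mul]
    refine integral_congr_ae ?_
    filter_upwards [LCmp_ae hν0] with z hz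
    rw [hgF z (by linarith)]
  have hGint : ∫ z, Real.log (max (G z) (Real.exp (-t))) ∂ν = 16 * t * ∫ z, h z ∂ν := by
    rw [← integral_const_mul]
    refine integral_congr_ae ?_
    filter_upwards [LCmp_ae hν0] with z hz
    rw [hhG z (by linarith)]
  rw [hFint, hGint, ← mul_sub]
  -- the estimate for all scales
  have hscale : ∀ r : ℝ, 0 < r → r ≤ 1 / 16 →
      16 * t * ((∫ z, g z ∂ν) - ∫ z, h z ∂ν) ≤ 16 * t * (K' * r ^ b) + δ / (r ^ (2 * n) * w) := by
    intro r hr hr1
    have h1 := LCmp_scale hν hν0 hg hh hg1 hh1 hg2 hh2 hr hr1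
      (B := K' * r ^ b) (by positivity)
      (H' ν hν hν0 hAff h hh hh1 (fun z => by simpa using hh2 z) r hr (by linarith))
    have h2 := mul_le_mul_of_nonneg_left h1 ht0.le
    rw [mul_add, ← mul_div_assoc, ← hδeq] at h2
    exact h2
  have hα : (0 : ℝ) < b / (2 * n + b) := by positivity
  rcases eq_or_lt_of_le hδ0 with h0 | hpos
  · -- `δ = 0`
    rw [← h0, Real.zero_rpow hα.ne', mul_zero]
    have hlim : Filter.Tendsto (fun r : ℝ => 16 * t * (K' * r ^ b)) (𝓝[>] 0)
        (𝓝 (16 * t * (K' * 0))) := by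
      refine ((Filter.Tendsto.const_mul K' ?_).const_mul (16 * t))
      have h1 : Filter.Tendsto (fun r : ℝ => r ^ b) (𝓝 0) (𝓝 ((0 : ℝ) ^ b)) :=
        (Real.continuousAt_rpow_const 0 b (Or.inr hb.le)).tendsto
      rw [Real.zero_rpow hb.ne'] at h1
      exact h1.mono_left nhdsWithin_le_nhds
    rw [mul_zero, mul_zero] at hlim
    refine ge_of_tendsto hlim ?_
    have h2 : ∀ᶠ r : ℝ in 𝓝[>] 0, r ∈ Ioc (0 : ℝ) (1 / 16) := Ioc_mem_nhdsGT (by norm_num)
    filter_upwards [h2] with r hr
    have h3 := hscale r hr.1 hr.2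
    rw [← h0, zero_div, add_zero] at h3
    exact h3
  · set r := δ ^ (1 / (2 * n + b)) with hr
    have hr0 : 0 < r := by positivity
    have hrb : r ^ b = δ ^ (b / (2 * n + b)) := by
      rw [hr, ← Real.rpow_mul hpos.le]
      congr 1
      ring
    have hrn : δ / r ^ (2 * n) = δ ^ (b / (2 * n + b)) := by
      have h1 : r ^ (2 * n) = δ ^ (2 * n / (2 * n + b)) := by
        rw [hr, ← Real.rpow_natCast, ← Real.rpow_mul hpos.le]
        congr 1
        push_cast
        ring
      rw [h1]
      nth_rewrite 1 [← Real.rpow_one δ]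
      rw [← Real.rpow_sub hpos]
      congr 1
      field_simp
      ring
    have hδα : 0 < δ ^ (b / (2 * n + b)) := by positivity
    by_cases hr1 : r ≤ 1 / 16
    · have h1 := hscale r hr0 hr1
      rw [hrb, ← div_div, hrn] at h1
      refine le_trans h1 ?_
      have h2 : δ ^ (b / (2 * n + b)) / w ≤ t * (1 / w * δ ^ (b / (2 * n + b))) := by
        have h3 : 0 < 1 / w * δ ^ (b / (2 * n + b)) := by positivity
        have h4 : δ ^ (b / (2 * n + b)) / w = 1 / w * δ ^ (b / (2 * n + b)) := by ring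
        rw [h4]
        nlinarith
      have h3 : 0 ≤ t * (16 ^ b * δ ^ (b / (2 * n + b))) := by positivity
      calc 16 * t * (K' * δ ^ (b / (2 * n + b))) + δ ^ (b / (2 * n + b)) / w
          ≤ 16 * t * (K' * δ ^ (b / (2 * n + b))) + t * (1 / w * δ ^ (b / (2 * n + b))) +
            t * (16 ^ b * δ ^ (b / (2 * n + b))) := by linarith
        _ = _ := by ring
    · push Not at hr1
      have h1 : (1 / 16 : ℝ) ^ b ≤ δ ^ (b / (2 * n + b)) := by
        rw [← hrb]
        exact Real.rpow_le_rpow (by norm_num) hr1.le hb.le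
      have h2 : 1 ≤ 16 ^ b * δ ^ (b / (2 * n + b)) := by
        have h3 : (16 : ℝ) ^ b * (1 / 16 : ℝ) ^ b = 1 := by
          rw [← Real.mul_rpow (by norm_num) (by norm_num)]
          norm_num
        calc (1 : ℝ) = 16 ^ b * (1 / 16 : ℝ) ^ b := h3.symm
          _ ≤ _ := mul_le_mul_of_nonneg_left h1 h16.le
      -- the trivial bound
      have h3 : 16 * t * ((∫ z, g z ∂ν) - ∫ z, h z ∂ν) ≤ t := by
        rw [mul_sub, ← hFint, ← hGint]
        have h4 : ∫ z, Real.log (max (F z) (Real.exp (-t))) ∂ν ≤ 0 := by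
          refine integral_nonpos_of_ae ?_
          filter_upwards [LCmp_ae hν0] with z hz
          have h5 : max (F z) (Real.exp (-t)) ≤ 1 := max_le
            (hF1 z (by rw [mem_ball_zero_iff]; linarith))
            (Real.exp_le_one_iff.2 (by linarith))
          exact Real.log_nonpos (le_trans (Real.exp_pos _).le (le_max_right _ _)) h5
        have h5 : -t ≤ ∫ z, Real.log (max (G z) (Real.exp (-t))) ∂ν := by
          have h6 : ∀ z, -t ≤ Real.log (max (G z) (Real.exp (-t))) := fun z => by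
            rw [← Real.log_exp (-t)]
            exact Real.log_le_log (Real.exp_pos _) (le_trans (by rw [Real.log_exp]) (le_max_right _ _))
          have h7 : Integrable (fun z => Real.log (max (G z) (Real.exp (-t)))) ν := by
            refine Integrable.congr (f := fun z => 16 * t * h z) ?_ ?_
            · refine (LCmp_int hν hν0 hh.usc.measurable.aestronglyMeasurable (M := 1) fun z hz =>
                abs_le.2 ⟨hh1 z, le_trans (hh2 z) ?_⟩).const_mul _
              have h8 : Real.log (1 + ‖z‖ ^ 2) ≤ Real.log 2 := by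
                apply Real.log_le_log (by positivity)
                nlinarith [norm_nonneg z]
              have h9 := Real.log_two_lt_d9
              linarith
            · filter_upwards [LCmp_ae hν0] with z hz
              rw [hhG z (by linarith)]
          have h8 : ∫ z, (-t) ∂ν ≤ ∫ z, Real.log (max (G z) (Real.exp (-t))) ∂ν :=
            integral_mono (integrable_const _) h7 h6
          rw [integral_const, smul_eq_mul] at h8
          have h9 : (0 : ℝ) ≤ ν.real univ := measureReal_nonneg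
          nlinarith
        linarith
      refine le_trans h3 ?_
      have h4 : t * 1 ≤ t * (16 ^ b * δ ^ (b / (2 * n + b))) :=
        mul_le_mul_of_nonneg_left h2 (by linarith)
      have h5 : 0 ≤ t * (16 * K' + 1 / w) * δ ^ (b / (2 * n + b)) := by positivity
      calc t = t * 1 := (mul_one t).symm
        _ ≤ t * (16 ^ b * δ ^ (b / (2 * n + b))) + t * (16 * K' + 1 / w) * δ ^ (b / (2 * n + b)) := by
          linarith
        _ = _ := by ring

end HMA
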