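import Pool.Agent.H85.MA.LCmp
import Pool.Agent.H85.MA.Sko2

/-! # Module LTAIL: exponential decay of the measure of the sublevel sets -/

open MeasureTheory Metric Set
open scoped ENNReal Topology ContDiff

namespace HMA

theorem LTail_pmax {n : ℕ} {Ω : Set (Cn n)} {F : Cn n → ℝ} (hF : PshOn Ω F) (c : ℝ) :
    PshOn Ω (fun x => max (F x) c) := by
  refine ⟨fun x hx => le_max_of_le_left (hF.nonneg x hx), ?_, ?_⟩
  · intro x hx y hy
    obtain ⟨h1, h2⟩ := max_lt_iff.1 hy
    filter_upwards [hF.usc x hx y h1] with z hz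
    exact max_lt hz h2
  · intro δ hδ a b h
    have h1 := hF.submean (max c δ) (lt_max_of_lt_right hδ) a b h
    simpa only [max_assoc] using h1

theorem LTail_open {n : ℕ} {F : Cn n → ℝ} (hF : PshOn (ball 0 2) F) (a : ℝ) :
    IsOpen {x : Cn n | x ∈ ball (0 : Cn n) 2 ∧ F x < a} := by
  rw [isOpen_iff_mem_nhds]
  rintro x ⟨hx, hxa⟩
  have h1 := hF.usc x hx a hxa
  rw [isOpen_ball.nhdsWithin_eq hx] at h1
  filter_upwards [h1, isOpen_ball.mem_nhds hx] with z hz hz'
  exact ⟨hz', hz⟩

theorem LTail_meas {n : ℕ} {F : Cn n → ℝ} (hF : PshOn (ball 0 2) F) :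
    Measurable ((ball (0 : Cn n) 2).indicator F) := by
  refine measurable_of_Iio fun a => ?_
  have h : (ball (0 : Cn n) 2).indicator F ⁻¹' Iio a =
      {x : Cn n | x ∈ ball (0 : Cn n) 2 ∧ F x < a} ∪
        ((ball (0 : Cn n) 2)ᶜ ∩ {_x : Cn n | (0 : ℝ) < a}) := by
    ext x
    by_cases hx : x ∈ ball (0 : Cn n) 2
    · rw [mem_preimage, indicator_of_mem hx]
      constructor
      · intro h
        exact Or.inl ⟨hx, h⟩
      · rintro (h | h)
        · exact h.2
        · exact absurd hx h.1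
    · rw [mem_preimage, indicator_of_notMem hx]
      constructor
      · intro h
        exact Or.inr ⟨hx, h⟩
      · rintro (h | h)
        · exact absurd h.1 hx
        · exact h.2
  rw [h]
  exact (LTail_open hF a).measurableSet.union
    (measurableSet_ball.compl.inter (MeasurableSet.const _))

theorem LTail_aemeas {n : ℕ} {F : Cn n → ℝ} (hF : PshOn (ball 0 2) F) {ρ : Measure (Cn n)}
    (hρ : ρ (ball (0 : Cn n) 2)ᶜ = 0) : AEMeasurable F ρ := by
  refine ⟨_, LTail_meas hF, ?_⟩
  have h : ∀ᵐ x ∂ρ, x ∈ ball (0 : Cn n) 2 := by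
    rw [ae_iff]
    exact hρ
  filter_upwards [h] with x hx
  rw [indicator_of_mem hx]

theorem LTail_int {n : ℕ} {F : Cn n → ℝ} (hF : PshOn (ball 0 2) F)
    (hF1 : ∀ x ∈ ball (0 : Cn n) 2, F x ≤ 1) {ρ : Measure (Cn n)} [IsFiniteMeasure ρ]
    (hρ : ρ (ball (0 : Cn n) 2)ᶜ = 0) {t : ℝ} (ht : 0 ≤ t) :
    Integrable (fun z => Real.log (max (F z) (Real.exp (-t)))) ρ := by
  have h : ∀ᵐ x ∂ρ, x ∈ ball (0 : Cn n) 2 := by
    rw [ae_iff]
    exact hρ
  refine Integrable.of_bound ?_ t ?_
  · exact (Real.measurable_log.comp_aemeasurable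
      ((LTail_aemeas hF hρ).max aemeasurable_const)).aestronglyMeasurable
  · filter_upwards [h] with x hx
    have h1 : Real.exp (-t) ≤ max (F x) (Real.exp (-t)) := le_max_right _ _
    have h2 : max (F x) (Real.exp (-t)) ≤ 1 :=
      max_le (hF1 x hx) (Real.exp_le_one_iff.2 (by linarith))
    have h3 : -t ≤ Real.log (max (F x) (Real.exp (-t))) := by
      rw [Real.le_log_iff_exp_le (lt_of_lt_of_le (Real.exp_pos _) h1)]
      exact h1
    have h4 : Real.log (max (F x) (Real.exp (-t))) ≤ 0 :=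
      Real.log_nonpos (le_trans (Real.exp_pos _).le h1) h2
    rw [Real.norm_eq_abs, abs_le]
    constructor <;> linarith

/-- the difference of two consecutive truncations -/
theorem LTail_diff (y N : ℝ) :
    0 ≤ Real.log (max y (Real.exp (-N))) - Real.log (max y (Real.exp (-(N + 1)))) ∧
    Real.log (max y (Real.exp (-N))) - Real.log (max y (Real.exp (-(N + 1)))) ≤ 1 ∧
    (y < Real.exp (-(N + 1)) →
      Real.log (max y (Real.exp (-N))) - Real.log (max y (Real.exp (-(N + 1)))) = 1) ∧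
    (Real.exp (-N) ≤ y →
      Real.log (max y (Real.exp (-N))) - Real.log (max y (Real.exp (-(N + 1)))) = 0) := by
  have h0 : Real.exp (-(N + 1)) ≤ Real.exp (-N) := Real.exp_le_exp.2 (by linarith)
  have hp1 : 0 < Real.exp (-(N + 1)) := Real.exp_pos _
  have hp : 0 < Real.exp (-N) := Real.exp_pos _
  have hm : Real.log (max y (Real.exp (-(N + 1)))) ≤ Real.log (max y (Real.exp (-N))) :=
    Real.log_le_log (lt_max_of_lt_right hp1) (max_le_max le_rfl h0)
  refine ⟨by linarith, ?_, ?_, ?_⟩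
  · have h1 : max y (Real.exp (-N)) ≤ Real.exp 1 * max y (Real.exp (-(N + 1))) := by
      refine max_le ?_ ?_
      · rcases le_total y 0 with hy | hy
        · exact hy.trans (by positivity)
        · calc y ≤ Real.exp 1 * y := by
                have : 1 ≤ Real.exp 1 := Real.one_le_exp (by norm_num)
                nlinarith
            _ ≤ _ := by gcongr; exact le_max_left _ _
      · calc Real.exp (-N) = Real.exp 1 * Real.exp (-(N + 1)) := by
              rw [← Real.exp_add]; congr 1; ring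
          _ ≤ _ := by gcongr; exact le_max_right _ _
    have h2 := Real.log_le_log (lt_max_of_lt_right hp) h1
    rw [Real.log_mul (Real.exp_pos _).ne' (lt_max_of_lt_right hp1).ne', Real.log_exp] at h2
    linarith
  · intro hy
    rw [max_eq_right hy.le, max_eq_right (hy.le.trans h0), Real.log_exp, Real.log_exp]
    ring
  · intro hy
    rw [max_eq_left hy, max_eq_left (h0.trans hy), sub_self]

theorem loc_tail (n : ℕ) (hn : 1 ≤ n) {C c : ℝ} (hC : 0 < C) (hc : 0 < c) {A : ℝ} (hA : 0 ≤ A) :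
    ∃ c' K : ℝ, 0 < c' ∧ 0 < K ∧
    ∀ (ν : Measure (Cn n)), ν univ ≤ 1 → ν {z | 1 < ‖z‖} = 0 → AffN n ν C c →
      ∀ F : Cn n → ℝ, PshOn (ball 0 2) F → (∀ x ∈ ball 0 2, F x ≤ 1) →
        (∃ x, ‖x‖ ≤ 1 ∧ Real.exp (-A) ≤ F x) → ∀ t : ℝ, 0 < t →
          ν {z | F z < Real.exp (-t)} ≤ ENNReal.ofReal (K * Real.exp (-c' * t)) := by
  obtain ⟨α, hα, -, K₁, hK₁, hcomp⟩ := loc_comp n hn hC hc
  obtain ⟨c₂, K₂, hc₂, hK₂, hdec⟩ := psh_decay n hn hA
  have hc2α : 0 < c₂ * α := mul_pos hc₂ hα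
  set K₃ : ℝ := K₁ * (K₂ ^ α * Real.exp (2 * (c₂ * α))) * (2 / (c₂ * α)) with hK₃
  have hK₃0 : 0 < K₃ := by positivity
  refine ⟨c₂ * α / 2, K₃ + Real.exp (c₂ * α), by positivity, by positivity, ?_⟩
  intro ν hν hν0 hA' F hF hF1 hFA t ht
  have : IsFiniteMeasure ν := ⟨lt_of_le_of_lt hν ENNReal.one_lt_top⟩
  have hball : ν (ball (0 : Cn n) 2)ᶜ = 0 := by
    refine measure_mono_null ?_ hν0
    intro x hx
    simp only [mem_compl_iff, mem_ball_zero_iff, not_lt] at hx
    show 1 < ‖x‖
    linarith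
  -- the discrete estimate
  have key : ∀ N : ℕ, 1 ≤ N → ν {z | F z < Real.exp (-((N : ℝ) + 1))} ≤
      ENNReal.ofReal (K₁ * ((N : ℝ) + 1) * (K₂ * Real.exp (-c₂ * N)) ^ α) := by
    intro N hN
    have hN0 : (0 : ℝ) < N := by exact_mod_cast hN
    have h1 := hcomp ν hν hν0 hA' (fun x => max (F x) (Real.exp (-(N : ℝ)))) F (LTail_pmax hF _) hF
      (fun x hx => max_le (hF1 x hx) (Real.exp_le_one_iff.2 (by linarith))) hF1 ((N : ℝ) + 1)
      (by linarith)
    have e0 : Real.exp (-((N : ℝ) + 1)) ≤ Real.exp (-(N : ℝ)) := Real.exp_le_exp.2 (by linarith)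
    have e1 : ∀ x, max (max (F x) (Real.exp (-(N : ℝ)))) (Real.exp (-((N : ℝ) + 1))) =
        max (F x) (Real.exp (-(N : ℝ))) := by
      intro x
      rw [max_assoc, max_eq_left e0]
    simp only [e1] at h1
    have i1 : Integrable (fun z => Real.log (max (F z) (Real.exp (-(N : ℝ))))) ν :=
      LTail_int hF hF1 hball hN0.le
    have i2 : Integrable (fun z => Real.log (max (F z) (Real.exp (-((N : ℝ) + 1))))) ν :=
      LTail_int hF hF1 hball (by linarith)
    rw [← integral_sub i1 i2] at h1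
    -- left hand side
    have h2 : ν {z | F z < Real.exp (-((N : ℝ) + 1))} ≤ ENNReal.ofReal
        (∫ z, (Real.log (max (F z) (Real.exp (-(N : ℝ)))) -
          Real.log (max (F z) (Real.exp (-((N : ℝ) + 1))))) ∂ν) := by
      have i3 : Integrable (fun z => Real.log (max (F z) (Real.exp (-(N : ℝ)))) -
          Real.log (max (F z) (Real.exp (-((N : ℝ) + 1))))) ν := i1.sub i2
      rw [ofReal_integral_eq_lintegral_ofReal i3
        (Filter.Eventually.of_forall fun x => (LTail_diff (F x) N).1)]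
      have h3 := mul_meas_ge_le_lintegral₀
        (i3.aestronglyMeasurable.aemeasurable.ennreal_ofReal) 1
      rw [one_mul] at h3
      refine le_trans (measure_mono ?_) h3
      intro z hz
      have h4 := (LTail_diff (F z) N).2.2.1 hz
      show 1 ≤ ENNReal.ofReal (Real.log (max (F z) (Real.exp (-(N : ℝ)))) -
          Real.log (max (F z) (Real.exp (-((N : ℝ) + 1)))))
      rw [h4, ENNReal.ofReal_one]
    -- right hand side
    have h5 : ∫ x in ball (0 : Cn n) (3 / 2), |Real.log (max (F x) (Real.exp (-(N : ℝ)))) -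
        Real.log (max (F x) (Real.exp (-((N : ℝ) + 1))))| ≤ K₂ * Real.exp (-c₂ * N) := by
      set S : Set (Cn n) := {x : Cn n | x ∈ ball (0 : Cn n) 2 ∧ F x < Real.exp (-(N : ℝ))} with hS
      have hSm : MeasurableSet S := (LTail_open hF _).measurableSet
      have hsub : S ∩ ball (0 : Cn n) (3 / 2) ⊆
          {x : Cn n | ‖x‖ < 3 / 2 ∧ F x < Real.exp (-(N : ℝ))} := by
        rintro x ⟨⟨-, h6⟩, h7⟩
        exact ⟨mem_ball_zero_iff.1 h7, h6⟩
      have hv : volume (S ∩ ball (0 : Cn n) (3 / 2)) ≤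
          ENNReal.ofReal (K₂ * Real.exp (-c₂ * N)) :=
        (measure_mono hsub).trans (hdec F hF hF1 hFA N hN0)
      have hv2 : (volume.restrict (ball (0 : Cn n) (3 / 2))).real S ≤
          K₂ * Real.exp (-c₂ * N) := by
        rw [measureReal_restrict_apply hSm]
        exact ENNReal.toReal_le_of_le_ofReal (by positivity) hv
      refine le_trans ?_ hv2
      rw [← integral_indicator_one hSm]
      refine integral_mono_of_nonneg (Filter.Eventually.of_forall fun x => abs_nonneg _) ?_ ?_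
      · refine (integrable_indicator_iff hSm).2 ?_
        refine integrableOn_const ?_
        rw [Measure.restrict_apply hSm]
        exact (lt_of_le_of_lt hv ENNReal.ofReal_lt_top).ne
      · filter_upwards [ae_restrict_mem measurableSet_ball] with x hx
        have h8 := LTail_diff (F x) N
        rw [abs_of_nonneg h8.1]
        by_cases hxS : x ∈ S
        · rw [indicator_of_mem hxS]
          exact h8.2.1
        · rw [indicator_of_notMem hxS]
          refine (h8.2.2.2 ?_).le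
          by_contra hlt
          refine hxS ⟨?_, not_le.1 hlt⟩
          rw [mem_ball_zero_iff] at hx ⊢
          linarith
    have h9 : (0 : ℝ) ≤ ∫ x in ball (0 : Cn n) (3 / 2),
        |Real.log (max (F x) (Real.exp (-(N : ℝ)))) -
        Real.log (max (F x) (Real.exp (-((N : ℝ) + 1))))| := integral_nonneg fun x => abs_nonneg _
    refine h2.trans (ENNReal.ofReal_le_ofReal (h1.trans ?_))
    have h10 := Real.rpow_le_rpow h9 h5 hα.le
    exact mul_le_mul_of_nonneg_left h10 (by positivity)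
  rcases le_total t 2 with h2 | h2
  · refine (measure_mono (subset_univ _)).trans (hν.trans ?_)
    rw [← ENNReal.ofReal_one]
    refine ENNReal.ofReal_le_ofReal ?_
    have h3 : 1 ≤ Real.exp (c₂ * α) * Real.exp (-(c₂ * α / 2) * t) := by
      rw [← Real.exp_add]
      refine Real.one_le_exp ?_
      nlinarith
    have h4 : 0 ≤ K₃ * Real.exp (-(c₂ * α / 2) * t) := by positivity
    nlinarith
  · obtain ⟨N, hN1, hN2, hN3⟩ : ∃ N : ℕ, 1 ≤ N ∧ (N : ℝ) + 1 ≤ t ∧ t < (N : ℝ) + 2 := by
      have hf1 : ((⌊t⌋₊ : ℕ) : ℝ) ≤ t := Nat.floor_le ht.le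
      have hf2 : t < ((⌊t⌋₊ : ℕ) : ℝ) + 1 := Nat.lt_floor_add_one t
      have hf3 : 2 ≤ ⌊t⌋₊ := Nat.le_floor (by exact_mod_cast h2)
      refine ⟨⌊t⌋₊ - 1, by omega, ?_, ?_⟩
      · rw [Nat.cast_sub (by omega)]
        push_cast
        linarith
      · rw [Nat.cast_sub (by omega)]
        push_cast
        linarith
    have hsub : {z | F z < Real.exp (-t)} ⊆ {z | F z < Real.exp (-((N : ℝ) + 1))} := by
      intro z hz
      exact lt_of_lt_of_le hz (Real.exp_le_exp.2 (by linarith))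
    refine (measure_mono hsub).trans ((key N hN1).trans (ENNReal.ofReal_le_ofReal ?_))
    have h3 : (K₂ * Real.exp (-c₂ * N)) ^ α = K₂ ^ α * Real.exp (-(c₂ * α) * N) := by
      rw [Real.mul_rpow hK₂.le (Real.exp_pos _).le, ← Real.exp_mul]
      congr 2
      ring
    rw [h3]
    have h4 : Real.exp (-(c₂ * α) * N) ≤ Real.exp (2 * (c₂ * α)) * Real.exp (-(c₂ * α) * t) := by
      rw [← Real.exp_add]
      refine Real.exp_le_exp.2 ?_
      nlinarith
    have h5 : t * Real.exp (-(c₂ * α) * t) ≤ 2 / (c₂ * α) * Real.exp (-(c₂ * α / 2) * t) := by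
      have h6 : c₂ * α / 2 * t ≤ Real.exp (c₂ * α / 2 * t) := by
        have := Real.add_one_le_exp (c₂ * α / 2 * t)
        linarith
      have h7 : Real.exp (-(c₂ * α) * t) =
          Real.exp (-(c₂ * α / 2) * t) * Real.exp (-(c₂ * α / 2) * t) := by
        rw [← Real.exp_add]; congr 1; ring
      have h8 : Real.exp (c₂ * α / 2 * t) * Real.exp (-(c₂ * α / 2) * t) = 1 := by
        rw [← Real.exp_add, ← Real.exp_zero]; congr 1; ring
      rw [h7]
      have h9 : t * Real.exp (-(c₂ * α / 2) * t) ≤ 2 / (c₂ * α) := by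
        rw [le_div_iff₀ hc2α]
        have h10 : 0 < Real.exp (-(c₂ * α / 2) * t) := Real.exp_pos _
        nlinarith
      have h11 : 0 < Real.exp (-(c₂ * α / 2) * t) := Real.exp_pos _
      nlinarith
    calc K₁ * ((N : ℝ) + 1) * (K₂ ^ α * Real.exp (-(c₂ * α) * N))
        ≤ K₁ * t * (K₂ ^ α * (Real.exp (2 * (c₂ * α)) * Real.exp (-(c₂ * α) * t))) := by
          gcongr
      _ = K₁ * (K₂ ^ α * Real.exp (2 * (c₂ * α))) * (t * Real.exp (-(c₂ * α) * t)) := by ring
      _ ≤ K₁ * (K₂ ^ α * Real.exp (2 * (c₂ * α))) *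
          (2 / (c₂ * α) * Real.exp (-(c₂ * α / 2) * t)) := by gcongr
      _ = K₃ * Real.exp (-(c₂ * α / 2) * t) := by rw [hK₃]; ring
      _ ≤ (K₃ + Real.exp (c₂ * α)) * Real.exp (-(c₂ * α / 2) * t) := by
          gcongr
          linarith [Real.exp_pos (c₂ * α)]

end HMA
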