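import Pool.Agent.H85.MA.Submean

/-! # Module LIOUV: entire `L²` functions with polynomial weights are polynomials -/

open MeasureTheory Metric Set
open scoped ENNReal Topology ContDiff

namespace HMA

theorem liouv_deriv_zero {g : ℂ → ℂ} (hg : Differentiable ℂ g) {C : ℝ} {M : ℕ}
    (hb : ∀ t, ‖g t‖ ≤ C * (1 + ‖t‖) ^ M) {k : ℕ} (hk : M < k) : iteratedDeriv k g 0 = 0 := by
  have hC : 0 ≤ C := by
    have := (norm_nonneg _).trans (hb 0)
    simpa using this
  have h1 : ∀ R : ℝ, 1 ≤ R → ‖iteratedDeriv k g 0‖ ≤ (k.factorial * (C * 2 ^ M)) / R := by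
    intro R hR
    have hR0 : 0 < R := by linarith
    have h2 : ‖iteratedDeriv k g 0‖ ≤ k.factorial * (C * (2 * R) ^ M) / R ^ k := by
      apply Complex.norm_iteratedDeriv_le_of_forall_mem_sphere_norm_le k hR0
        hg.diffContOnCl
      intro z hz
      refine (hb z).trans ?_
      have hz' : ‖z‖ = R := by simpa using hz
      rw [hz']
      gcongr
      linarith
    refine h2.trans ?_
    obtain ⟨j, rfl⟩ : ∃ j, k = M + 1 + j := ⟨k - (M + 1), by omega⟩
    rw [div_le_div_iff₀ (by positivity) hR0, mul_pow]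
    have h3 : R ^ M * R ≤ R ^ (M + 1 + j) := by
      rw [← pow_succ]
      exact pow_le_pow_right₀ hR (by omega)
    calc ((M + 1 + j).factorial : ℝ) * (C * (2 ^ M * R ^ M)) * R
        = (((M + 1 + j).factorial : ℝ) * (C * 2 ^ M)) * (R ^ M * R) := by ring
      _ ≤ _ := mul_le_mul_of_nonneg_left h3 (by positivity)
  by_contra hne
  have hpos : 0 < ‖iteratedDeriv k g 0‖ := norm_pos_iff.mpr hne
  set K : ℝ := (k.factorial * (C * 2 ^ M)) with hK
  have hK0 : 0 ≤ K := by positivity
  have h4 := h1 (K / ‖iteratedDeriv k g 0‖ + 1) (by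
    have : 0 ≤ K / ‖iteratedDeriv k g 0‖ := by positivity
    linarith)
  rw [le_div_iff₀ (by positivity), mul_add, mul_div_cancel₀ _ hpos.ne'] at h4
  linarith

theorem liouv_one {g : ℂ → ℂ} (hg : Differentiable ℂ g) {C : ℝ} {M : ℕ}
    (hb : ∀ t, ‖g t‖ ≤ C * (1 + ‖t‖) ^ M) :
    ∃ p : Polynomial ℂ, p.natDegree ≤ M ∧ ∀ t, g t = p.eval t := by
  refine ⟨∑ k ∈ Finset.range (M + 1), Polynomial.C ((k.factorial : ℂ)⁻¹ * iteratedDeriv k g 0) *
    Polynomial.X ^ k, ?_, fun t => ?_⟩
  · refine Polynomial.natDegree_sum_le_of_forall_le _ _ fun k hk => ?_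
    refine (Polynomial.natDegree_C_mul_X_pow_le _ _).trans ?_
    have := Finset.mem_range.1 hk
    omega
  · rw [← Complex.taylorSeries_eq_of_entire' 0 t hg, Polynomial.eval_finsetSum]
    rw [tsum_eq_sum (s := Finset.range (M + 1))]
    · refine Finset.sum_congr rfl fun k _ => ?_
      simp
    · intro k hk
      rw [liouv_deriv_zero hg hb (by
        rw [Finset.mem_range] at hk
        omega)]
      simp


theorem liouv_mv {n M : ℕ} (F : (Fin n → ℂ) → ℂ)
    (h : ∀ (z : Fin n → ℂ) (j : Fin n), ∃ p : Polynomial ℂ, p.natDegree ≤ M ∧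
      ∀ t, F (Function.update z j t) = p.eval t) :
    ∃ P : MvPolynomial (Fin n) ℂ, ∀ z, F z = P.eval z := by
  classical
  have key : ∀ S : Finset (Fin n), ∃ (ι : Type) (_ : Fintype ι)
      (Q : ι → MvPolynomial (Fin n) ℂ) (c : ι → Fin n → ℂ),
      ∀ z, F z = ∑ i, (Q i).eval z * F (S.piecewise (c i) z) := by
    intro S
    induction S using Finset.induction_on with
    | empty =>
      refine ⟨Unit, inferInstance, fun _ => 1, fun _ => 0, fun z => ?_⟩
      simp
    | insert j S hj ih =>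
      obtain ⟨ι, hι, Q, c, hQ⟩ := ih
      let v : Fin (M + 1) → ℂ := fun k => (k : ℂ)
      have hv : Set.InjOn v (Finset.univ : Finset (Fin (M + 1))) := by
        intro a _ b _ hab
        have : ((a : ℕ) : ℂ) = ((b : ℕ) : ℂ) := hab
        exact Fin.ext (by exact_mod_cast this)
      refine ⟨ι × Fin (M + 1), inferInstance,
        fun x => Q x.1 * Polynomial.aeval (MvPolynomial.X j) (Lagrange.basis Finset.univ v x.2),
        fun x => Function.update (c x.1) j (v x.2), fun z => ?_⟩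
      rw [hQ z, Fintype.sum_prod_type]
      refine Finset.sum_congr rfl fun i _ => ?_
      obtain ⟨p, hp, hpe⟩ := h (S.piecewise (c i) z) j
      have hw : S.piecewise (c i) z j = z j := Finset.piecewise_eq_of_notMem _ _ _ hj
      have h1 : F (S.piecewise (c i) z) = p.eval (z j) := by
        rw [← hpe, ← hw, Function.update_eq_self]
      have h2 : p = Lagrange.interpolate Finset.univ v fun k => p.eval (v k) := by
        apply Lagrange.eq_interpolate hv
        rw [Finset.card_univ, Fintype.card_fin]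
        calc p.degree ≤ p.natDegree := Polynomial.degree_le_natDegree
          _ ≤ (M : WithBot ℕ) := by exact_mod_cast hp
          _ < _ := by exact_mod_cast Nat.lt_succ_self M
      rw [h1]
      conv_lhs => rw [h2]
      rw [Lagrange.interpolate_apply, Polynomial.eval_finsetSum, Finset.mul_sum]
      refine Finset.sum_congr rfl fun k _ => ?_
      have h3 : (insert j S).piecewise (Function.update (c i) j (v k)) z =
          Function.update (S.piecewise (c i) z) j (v k) := by
        funext l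
        by_cases hl : l = j
        · subst hl
          simp
        · by_cases hlS : l ∈ S
          · simp [hl, hlS, Finset.piecewise]
          · simp [hl, hlS, Finset.piecewise]
      rw [h3, hpe]
      have h4 : (Polynomial.aeval (MvPolynomial.X j : MvPolynomial (Fin n) ℂ)
          (Lagrange.basis Finset.univ v k)).eval z = (Lagrange.basis Finset.univ v k).eval (z j) := by
        rw [Polynomial.aeval_def, MvPolynomial.algebraMap_eq]
        generalize Lagrange.basis Finset.univ v k = b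
        induction b using Polynomial.induction_on' with
        | add p q hp hq => simp only [Polynomial.eval₂_add, map_add, hp, hq, Polynomial.eval_add]
        | monomial m a => simp
      rw [map_mul, h4]
      simp only [Polynomial.eval_mul, Polynomial.eval_C]
      ring
  obtain ⟨ι, hι, Q, c, hQ⟩ := key Finset.univ
  refine ⟨∑ i, MvPolynomial.C (F (c i)) * Q i, fun z => ?_⟩
  rw [hQ z, map_sum]
  refine Finset.sum_congr rfl fun i _ => ?_
  rw [map_mul, MvPolynomial.eval_C, Finset.piecewise_univ]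
  ring

theorem liouv_hom {n i : ℕ} {φ : MvPolynomial (Fin n) ℂ} (hφ : φ.IsHomogeneous i) (t : ℂ)
    (z : Fin n → ℂ) : φ.eval (t • z) = t ^ i * φ.eval z := by
  rw [MvPolynomial.eval_eq', MvPolynomial.eval_eq', Finset.mul_sum]
  refine Finset.sum_congr rfl fun d hd => ?_
  have h1 : d.degree = i := by
    have := hφ (MvPolynomial.mem_support_iff.1 hd)
    rw [← this, Finsupp.degree_eq_weight_one]
    rfl
  have h2 : ∏ j, (t • z) j ^ d j = t ^ i * ∏ j, z j ^ d j := by
    simp only [Pi.smul_apply, smul_eq_mul, mul_pow]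
    rw [Finset.prod_mul_distrib, Finset.prod_pow_eq_pow_sum, ← h1, Finsupp.degree_eq_sum]
  rw [h2]
  ring

theorem liouv_deg {n M : ℕ} (P : MvPolynomial (Fin n) ℂ)
    (h : ∀ z : Fin n → ℂ, ∃ p : Polynomial ℂ, p.natDegree ≤ M ∧
      ∀ t : ℂ, P.eval (t • z) = p.eval t) : P.totalDegree ≤ M := by
  classical
  by_contra hlt
  push Not at hlt
  set k := P.totalDegree with hk
  have hP : P ≠ 0 := by
    rintro rfl
    simp at hk
    omega
  have hne : MvPolynomial.homogeneousComponent k P ≠ 0 := by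
    intro h0
    have := MvPolynomial.totalDegree_eq P
    obtain ⟨m, hm, hmk⟩ : ∃ m ∈ P.support, m.degree = k := by
      have hs : P.support.Nonempty := by
        rwa [MvPolynomial.support_nonempty]
      obtain ⟨m, hm, hmax⟩ := Finset.exists_mem_eq_sup P.support hs
        (fun m => Multiset.card (Finsupp.toMultiset m))
      refine ⟨m, hm, ?_⟩
      rw [hk, MvPolynomial.totalDegree_eq, hmax, Finsupp.card_toMultiset]
      rfl
    have h1 : MvPolynomial.coeff m (MvPolynomial.homogeneousComponent k P) = 0 := by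
      rw [h0]
      simp
    rw [MvPolynomial.coeff_homogeneousComponent, if_pos hmk] at h1
    exact (MvPolynomial.mem_support_iff.1 hm) h1
  apply hne
  apply MvPolynomial.funext
  intro z
  obtain ⟨p, hp, hpe⟩ := h z
  have h1 : p = ∑ i ∈ Finset.range (k + 1),
      Polynomial.C ((MvPolynomial.homogeneousComponent i P).eval z) * Polynomial.X ^ i := by
    apply Polynomial.funext
    intro t
    rw [← hpe t, Polynomial.eval_finsetSum]
    conv_lhs => rw [← MvPolynomial.sum_homogeneousComponent P]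
    rw [map_sum]
    refine Finset.sum_congr rfl fun i _ => ?_
    rw [Polynomial.eval_mul, Polynomial.eval_C, Polynomial.eval_pow, Polynomial.eval_X, mul_comm]
    exact liouv_hom (MvPolynomial.homogeneousComponent_isHomogeneous i P) t z
  have h2 : p.coeff k = (MvPolynomial.homogeneousComponent k P).eval z := by
    rw [h1, Polynomial.finsetSum_coeff]
    rw [Finset.sum_eq_single k]
    · simp
    · intro b _ hb
      rw [Polynomial.coeff_C_mul, Polynomial.coeff_X_pow, if_neg (Ne.symm hb), mul_zero]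
    · intro hb
      simp at hb
  rw [← h2, map_zero]
  exact Polynomial.coeff_eq_zero_of_natDegree_lt (by omega)


theorem liouv_growth {n M : ℕ} {f : Cn n → ℂ} (hf : Differentiable ℂ f)
    (hi : Integrable (fun z => ‖f z‖ ^ 2 * ((1 + ‖z‖ ^ 2) ^ M)⁻¹) volume) :
    ∃ C : ℝ, ∀ z, ‖f z‖ ≤ C * (1 + ‖z‖) ^ M := by
  obtain ⟨K, hK, hsub⟩ := sq_le_ball n
  set I : ℝ := ∫ z, ‖f z‖ ^ 2 * ((1 + ‖z‖ ^ 2) ^ M)⁻¹ with hI
  have hI0 : 0 ≤ I := integral_nonneg fun z => by positivity
  refine ⟨Real.sqrt (K * 5 ^ M * I), fun z => ?_⟩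
  have hρ : 0 < 1 + ‖z‖ := by positivity
  have h1 := hsub f z (1 + ‖z‖) hf hρ
  have h2 : ∫ x in ball z (1 + ‖z‖), ‖f x‖ ^ 2 ≤ (5 * (1 + ‖z‖) ^ 2) ^ M * I := by
    have h3 : ∫ x in ball z (1 + ‖z‖), ‖f x‖ ^ 2 ≤
        ∫ x in ball z (1 + ‖z‖), (5 * (1 + ‖z‖) ^ 2) ^ M *
          (‖f x‖ ^ 2 * ((1 + ‖x‖ ^ 2) ^ M)⁻¹) := by
      apply setIntegral_mono_on _ _ measurableSet_ball
      · intro x hx
        have hx' : ‖x‖ ≤ 2 * ‖z‖ + 1 := by
          have := mem_ball.1 hx
          rw [dist_eq_norm] at this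
          have h4 := norm_le_norm_add_norm_sub' x z
          linarith
        have h5 : 1 + ‖x‖ ^ 2 ≤ 5 * (1 + ‖z‖) ^ 2 := by
          have h6 : ‖x‖ ^ 2 ≤ (2 * ‖z‖ + 1) ^ 2 := pow_le_pow_left₀ (norm_nonneg _) hx' 2
          nlinarith [norm_nonneg z]
        have h7 : (1 + ‖x‖ ^ 2) ^ M ≤ (5 * (1 + ‖z‖) ^ 2) ^ M :=
          pow_le_pow_left₀ (by positivity) h5 M
        have h8 : 0 < (1 + ‖x‖ ^ 2) ^ M := by positivity
        have h9 : 1 ≤ (5 * (1 + ‖z‖) ^ 2) ^ M * ((1 + ‖x‖ ^ 2) ^ M)⁻¹ := by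
          rw [← div_eq_mul_inv, one_le_div h8]
          exact h7
        calc ‖f x‖ ^ 2 = ‖f x‖ ^ 2 * 1 := (mul_one _).symm
          _ ≤ ‖f x‖ ^ 2 * ((5 * (1 + ‖z‖) ^ 2) ^ M * ((1 + ‖x‖ ^ 2) ^ M)⁻¹) :=
            mul_le_mul_of_nonneg_left h9 (by positivity)
          _ = _ := by ring
      · have hc : Continuous fun x => ‖f x‖ ^ 2 := hf.continuous.norm.pow 2
        exact (hc.continuousOn.integrableOn_compact (isCompact_closedBall z (1 + ‖z‖))).mono_set
          ball_subset_closedBall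
      · exact (hi.const_mul _).integrableOn
    refine h3.trans ?_
    rw [integral_const_mul]
    apply mul_le_mul_of_nonneg_left _ (by positivity)
    rw [hI]
    exact setIntegral_le_integral hi (Filter.Eventually.of_forall fun x => by positivity)
  have h3 : ‖f z‖ ^ 2 ≤ (K * 5 ^ M * I) * ((1 + ‖z‖) ^ M) ^ 2 := by
    refine h1.trans ?_
    have h4 : ((1 + ‖z‖) ^ (2 * n))⁻¹ ≤ 1 := by
      apply inv_le_one_of_one_le₀
      apply one_le_pow₀
      linarith [norm_nonneg z]
    have h5 : 0 ≤ ∫ x in ball z (1 + ‖z‖), ‖f x‖ ^ 2 := integral_nonneg fun x => by positivity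
    calc K * ((1 + ‖z‖) ^ (2 * n))⁻¹ * ∫ x in ball z (1 + ‖z‖), ‖f x‖ ^ 2
        ≤ K * 1 * ((5 * (1 + ‖z‖) ^ 2) ^ M * I) := by
          gcongr
      _ = _ := by
        rw [mul_pow, ← pow_mul, ← pow_mul, mul_comm 2 M]
        ring
  have h4 : ‖f z‖ = Real.sqrt (‖f z‖ ^ 2) := (Real.sqrt_sq (norm_nonneg _)).symm
  rw [h4]
  refine (Real.sqrt_le_sqrt h3).trans ?_
  rw [Real.sqrt_mul (by positivity), Real.sqrt_sq (by positivity)]

theorem liouv_line {n M : ℕ} {f : Cn n → ℂ} (hf : Differentiable ℂ f) {C : ℝ}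
    (hC : ∀ z, ‖f z‖ ≤ C * (1 + ‖z‖) ^ M) (a b : Cn n) :
    ∃ p : Polynomial ℂ, p.natDegree ≤ M ∧ ∀ t : ℂ, f (a + t • b) = p.eval t := by
  have hC0 : 0 ≤ C := by
    have := (norm_nonneg _).trans (hC 0)
    simpa using this
  refine liouv_one (g := fun t : ℂ => f (a + t • b)) (C := C * (1 + ‖a‖ + ‖b‖) ^ M) ?_ fun t => ?_
  · exact hf.comp ((differentiable_const _).add (differentiable_id.smul_const b))
  · refine (hC _).trans ?_
    rw [mul_assoc, ← mul_pow]
    have h1 : ‖a + t • b‖ ≤ ‖a‖ + ‖t‖ * ‖b‖ := by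
      refine (norm_add_le _ _).trans ?_
      rw [norm_smul]
    have h2 : 1 + ‖a + t • b‖ ≤ (1 + ‖a‖ + ‖b‖) * (1 + ‖t‖) := by
      nlinarith [norm_nonneg a, norm_nonneg b, norm_nonneg t,
        mul_nonneg (norm_nonneg t) (norm_nonneg a)]
    gcongr

theorem entire_poly {n M : ℕ} {f : Cn n → ℂ} (hf : Differentiable ℂ f)
    (hi : Integrable (fun z => ‖f z‖ ^ 2 * ((1 + ‖z‖ ^ 2) ^ M)⁻¹) volume) :
    ∃ P : MvPolynomial (Fin n) ℂ, P.totalDegree ≤ M ∧ ∀ z : Cn n, f z = ev P z := by
  obtain ⟨C, hC⟩ := liouv_growth hf hi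
  obtain ⟨P, hP⟩ := liouv_mv (n := n) (M := M) (fun z => f (WithLp.toLp 2 z)) (by
    intro z j
    obtain ⟨p, hp, hpe⟩ := liouv_line hf hC (WithLp.toLp 2 z) (EuclideanSpace.single j (1 : ℂ))
    refine ⟨p.comp (Polynomial.X - Polynomial.C (z j)), ?_, fun t => ?_⟩
    · rw [Polynomial.natDegree_comp, Polynomial.natDegree_X_sub_C, mul_one]
      exact hp
    · rw [Polynomial.eval_comp, Polynomial.eval_sub, Polynomial.eval_X, Polynomial.eval_C, ← hpe]
      show f _ = f _
      congr 1
      ext l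
      by_cases hl : l = j
      · subst hl
        simp
      · simp [hl])
  refine ⟨P, ?_, fun z => ?_⟩
  · apply liouv_deg
    intro z
    obtain ⟨p, hp, hpe⟩ := liouv_line hf hC 0 (WithLp.toLp 2 z)
    refine ⟨p, hp, fun t => ?_⟩
    rw [← hpe t, ← hP]
    show f _ = f _
    congr 1
    simp
  · exact hP (fun i => z i)

end HMA
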