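import Pool.Agent.H85.MA.PshBall

/-! # Module OML1: integrability of `ω`-plurisubharmonic functions -/

open MeasureTheory Metric Set
open scoped ENNReal Topology ContDiff

namespace HMA

theorem OmegaL1_zero {n : ℕ} {F : Cn (n + 1) → ℝ} (hF : OmegaPsh n F) : F 0 = 0 := by
  have := hF.hom 0 0
  simpa using this

/-- the maximum on the unit sphere is attained -/
theorem omega_max {n : ℕ} {F : Cn (n + 1) → ℝ} (hF : OmegaPsh n F) :
    ∃ p : Cn (n + 1), ‖p‖ = 1 ∧ 0 < F p ∧ ∀ x, F x ≤ F p * ‖x‖ := by
  have hne : (sphere (0 : Cn (n + 1)) 1).Nonempty := by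
    have : ‖bv (n + 1) 0‖ = 1 := by simp [bv]
    exact ⟨bv (n + 1) 0, by simp [this]⟩
  obtain ⟨p, hp, hmax⟩ := (hF.psh.usc.upperSemicontinuousOn (sphere (0 : Cn (n + 1)) 1)).exists_isMaxOn
    hne (isCompact_sphere _ _)
  have hp1 : ‖p‖ = 1 := by simpa using hp
  have hle : ∀ x, F x ≤ F p * ‖x‖ := by
    intro x
    rcases eq_or_ne x 0 with rfl | hx
    · rw [OmegaL1_zero hF]; simp
    · have hx0 : ‖x‖ ≠ 0 := norm_ne_zero_iff.mpr hx
      have h1 : x = ((‖x‖ : ℝ) : ℂ) • (((‖x‖ : ℝ) : ℂ)⁻¹ • x) := by
        rw [smul_smul, mul_inv_cancel₀ (by exact_mod_cast hx0), one_smul]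
      have h2 : (((‖x‖ : ℝ) : ℂ)⁻¹ • x) ∈ sphere (0 : Cn (n + 1)) 1 := by
        rw [mem_sphere, dist_zero_right, norm_smul, norm_inv, Complex.norm_real, norm_norm]
        exact inv_mul_cancel₀ hx0
      have h3 := hmax h2
      rw [mem_ofPred_eq] at h3
      calc F x = F (((‖x‖ : ℝ) : ℂ) • (((‖x‖ : ℝ) : ℂ)⁻¹ • x)) := by rw [← h1]
        _ = ‖x‖ * F (((‖x‖ : ℝ) : ℂ)⁻¹ • x) := by
            rw [hF.hom, Complex.norm_real, norm_norm]
        _ ≤ ‖x‖ * F p := mul_le_mul_of_nonneg_left h3 (norm_nonneg _)
        _ = F p * ‖x‖ := mul_comm _ _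
  refine ⟨p, hp1, ?_, hle⟩
  obtain ⟨x, hx⟩ := hF.nontrivial
  have h4 : 0 < F x := lt_of_le_of_ne (hF.psh.nonneg x) (Ne.symm hx)
  have h5 := h4.trans_le (hle x)
  exact pos_of_mul_pos_left h5 (norm_nonneg _)

theorem OmegaL1_meas {n : ℕ} {F : Cn (n + 1) → ℝ} (hF : OmegaPsh n F) : Measurable F :=
  hF.psh.usc.measurable

/-- integrability on circles -/
theorem OmegaL1_circ {n : ℕ} {F : Cn (n + 1) → ℝ} (hF : OmegaPsh n F) {δ : ℝ} (hδ : 0 < δ)
    (a b : Cn (n + 1)) :
    IntervalIntegrable (fun θ : ℝ => Real.log (max (F (a + Complex.exp (θ * Complex.I) • b)) δ))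
      volume 0 (2 * Real.pi) := by
  obtain ⟨p, hp, hp0, hle⟩ := omega_max hF
  have hm : Measurable (fun θ : ℝ => Real.log (max (F (a + Complex.exp (θ * Complex.I) • b)) δ)) := by
    apply Real.measurable_log.comp
    apply Measurable.max _ measurable_const
    apply (OmegaL1_meas hF).comp
    apply Continuous.measurable
    fun_prop
  have hb : ∀ θ : ℝ, ‖Real.log (max (F (a + Complex.exp (θ * Complex.I) • b)) δ)‖ ≤
      |Real.log δ| + |Real.log (max (F p * (‖a‖ + ‖b‖)) δ)| := by
    intro θ
    have h1 : Real.log δ ≤ Real.log (max (F (a + Complex.exp (θ * Complex.I) • b)) δ) :=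
      Real.log_le_log hδ (le_max_right _ _)
    have h2 : Real.log (max (F (a + Complex.exp (θ * Complex.I) • b)) δ) ≤
        Real.log (max (F p * (‖a‖ + ‖b‖)) δ) := by
      apply Real.log_le_log (lt_max_of_lt_right hδ)
      apply max_le_max _ le_rfl
      refine (hle _).trans (mul_le_mul_of_nonneg_left ?_ hp0.le)
      refine (norm_add_le _ _).trans ?_
      rw [norm_smul, Complex.norm_exp_ofReal_mul_I, one_mul]
    rw [Real.norm_eq_abs, abs_le]
    constructor
    · have := neg_abs_le (Real.log δ)
      have := abs_nonneg (Real.log (max (F p * (‖a‖ + ‖b‖)) δ))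
      linarith
    · have := le_abs_self (Real.log (max (F p * (‖a‖ + ‖b‖)) δ))
      have := abs_nonneg (Real.log δ)
      linarith
  rw [intervalIntegrable_iff]
  apply Measure.integrableOn_of_bounded (M := |Real.log δ| + |Real.log (max (F p * (‖a‖ + ‖b‖)) δ)|)
  · rw [uIoc]
    exact measure_Ioc_lt_top.ne
  · exact hm.aestronglyMeasurable
  · exact Filter.Eventually.of_forall hb

theorem omega_smul {n : ℕ} {F : Cn (n + 1) → ℝ} (hF : OmegaPsh n F) {c : ℝ} (hc : 0 < c) :
    OmegaPsh n (fun x => c * F x) := by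
  refine ⟨⟨fun x => mul_nonneg hc.le (hF.psh.nonneg x), ?_, ?_⟩, ?_, ?_⟩
  · exact (continuous_const.mul continuous_id).comp_upperSemicontinuous hF.psh.usc
      (fun x y hxy => mul_le_mul_of_nonneg_left hxy hc.le)
  · intro δ hδ a b
    have hdc : 0 < δ / c := div_pos hδ hc
    have key : ∀ y : ℝ, Real.log (max (c * y) δ) = Real.log c + Real.log (max y (δ / c)) := by
      intro y
      have h1 : max (c * y) δ = c * max y (δ / c) := by
        rw [mul_max_of_nonneg _ _ hc.le, mul_div_cancel₀ _ hc.ne']
      rw [h1, Real.log_mul hc.ne' (lt_max_of_lt_right hdc).ne']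
    simp only [key]
    rw [intervalIntegral.integral_add (by simp) (OmegaL1_circ hF hdc a b),
      intervalIntegral.integral_const, smul_eq_mul, mul_add]
    have h2 := hF.psh.submean (δ / c) hdc a b
    have h3 : (2 * Real.pi)⁻¹ * ((2 * Real.pi - 0) * Real.log c) = Real.log c := by
      have := Real.pi_pos
      field_simp
      ring
    rw [h3]
    linarith
  · intro z x
    show c * F (z • x) = ‖z‖ * (c * F x)
    rw [hF.hom]; ring
  · obtain ⟨x, hx⟩ := hF.nontrivial
    exact ⟨x, mul_ne_zero hc.ne' hx⟩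

theorem OmegaL1_bd {n : ℕ} {F : Cn (n + 1) → ℝ} {p : Cn (n + 1)} (hp : ‖p‖ = 1) (hp0 : 0 < F p)
    (hle : ∀ x, F x ≤ F p * ‖x‖) {R : ℝ} {x : Cn (n + 1)} (hx : x ∈ ball p (R + 1)) :
    F x ≤ F p * (R + 2) := by
  refine (hle x).trans (mul_le_mul_of_nonneg_left ?_ hp0.le)
  rw [mem_ball, dist_eq_norm] at hx
  have : ‖x‖ ≤ ‖x - p‖ + ‖p‖ := by
    simpa using norm_add_le (x - p) p
  linarith

theorem OmegaL1_main {n : ℕ} {F : Cn (n + 1) → ℝ} (hF : OmegaPsh n F) {p : Cn (n + 1)}
    (hp : ‖p‖ = 1) (hp0 : 0 < F p) (hle : ∀ x, F x ≤ F p * ‖x‖) {R : ℝ} (hR : 0 ≤ R) {δ : ℝ}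
    (hδ : 0 < δ) (hδM : δ ≤ F p * (R + 2)) :
    ∫⁻ x in ball p (R + 1),
        ENNReal.ofReal (Real.log (F p * (R + 2)) - Real.log (max (F x) δ)) ≤
      ENNReal.ofReal (Real.log (R + 2) * volume.real (ball p (R + 1))) := by
  have hu := pshR_log_max hF.psh hδ
  have hR1 : 0 < R + 1 := by linarith
  obtain ⟨hint, hsub⟩ := submean_ball hu.usc hu.bdd hR1 (fun a b _ => hu.submean a b) p
  have : IsFiniteMeasure (volume.restrict (ball p (R + 1))) :=
    ⟨by rw [Measure.restrict_apply_univ]; exact measure_ball_lt_top⟩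
  have hc : Integrable (fun _ : Cn (n + 1) => Real.log (F p * (R + 2)))
      (volume.restrict (ball p (R + 1))) := integrable_const _
  have hcs : Integrable (fun x => Real.log (F p * (R + 2)) - Real.log (max (F x) δ))
      (volume.restrict (ball p (R + 1))) := hc.sub hint
  rw [← ofReal_integral_eq_lintegral_ofReal hcs]
  · apply ENNReal.ofReal_le_ofReal
    rw [integral_sub hc hint, integral_const, smul_eq_mul]
    have h1 : Real.log (F p) ≤ Real.log (max (F p) δ) := Real.log_le_log hp0 (le_max_left _ _)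
    have h2 : Real.log (F p * (R + 2)) = Real.log (F p) + Real.log (R + 2) :=
      Real.log_mul hp0.ne' (by linarith)
    have h3 : (volume.restrict (ball p (R + 1))).real univ = volume.real (ball p (R + 1)) := by
      simp [Measure.real]
    rw [h3, h2]
    have h4 : 0 ≤ volume.real (ball p (R + 1)) := measureReal_nonneg
    nlinarith
  · filter_upwards [ae_restrict_mem measurableSet_ball] with x hx
    have h1 := OmegaL1_bd hp hp0 hle hx
    have h2 : Real.log (max (F x) δ) ≤ Real.log (F p * (R + 2)) :=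
      Real.log_le_log (lt_max_of_lt_right hδ) (max_le h1 hδM)
    simpa using h2

theorem OmegaL1_est {n : ℕ} {F : Cn (n + 1) → ℝ} (hF : OmegaPsh n F) {p : Cn (n + 1)}
    (hp : ‖p‖ = 1) (hp0 : 0 < F p) (hle : ∀ x, F x ≤ F p * ‖x‖) {R : ℝ} (hR : 0 ≤ R) :
    volume ({x | F x = 0} ∩ ball p (R + 1)) = 0 ∧
    IntegrableOn (fun x => Real.log (F x)) (ball p (R + 1)) volume ∧
    ∫ x in ball p (R + 1), |Real.log (F x)| ≤
      (Real.log (R + 2) + |Real.log (F p * (R + 2))|) * volume.real (ball p (R + 1)) := by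
  set c : ℝ := Real.log (F p * (R + 2)) with hc
  set K : ℝ := Real.log (R + 2) * volume.real (ball p (R + 1)) with hK
  have hMR : 0 < F p * (R + 2) := mul_pos hp0 (by linarith)
  have hm : Measurable F := OmegaL1_meas hF
  have hK0 : 0 ≤ K := mul_nonneg (Real.log_nonneg (by linarith)) measureReal_nonneg
  have hfin : volume (ball p (R + 1)) < ⊤ := measure_ball_lt_top
  have : IsFiniteMeasure (volume.restrict (ball p (R + 1))) :=
    ⟨by rw [Measure.restrict_apply_univ]; exact hfin⟩
  -- null set
  have hZm : MeasurableSet ({x | F x = 0} ∩ ball p (R + 1)) :=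
    (hm (measurableSet_singleton 0)).inter measurableSet_ball
  have hZfin : volume ({x | F x = 0} ∩ ball p (R + 1)) < ⊤ :=
    (measure_mono inter_subset_right).trans_lt hfin
  have hnull : volume ({x | F x = 0} ∩ ball p (R + 1)) = 0 := by
    by_contra hne
    set v : ℝ := volume.real ({x | F x = 0} ∩ ball p (R + 1)) with hv
    have hv0 : 0 < v := by
      rw [hv, Measure.real]
      exact ENNReal.toReal_pos hne hZfin.ne
    have key : ∀ t : ℝ, 0 ≤ t → t * v ≤ K := by
      intro t ht
      have hδ : 0 < F p * (R + 2) * Real.exp (-t) := mul_pos hMR (Real.exp_pos _)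
      have hδM : F p * (R + 2) * Real.exp (-t) ≤ F p * (R + 2) := by
        apply mul_le_of_le_one_right hMR.le
        rw [Real.exp_le_one_iff]; linarith
      have h1 := OmegaL1_main hF hp hp0 hle hR hδ hδM
      have h2 : ∫⁻ x in {x | F x = 0} ∩ ball p (R + 1), ENNReal.ofReal t ≤
          ENNReal.ofReal K := by
        refine le_trans ?_ h1
        refine le_trans ?_ (lintegral_mono_set (inter_subset_right (s := {x | F x = 0})))
        apply setLIntegral_mono_ae' hZm
        filter_upwards with x hx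
        apply ENNReal.ofReal_le_ofReal
        have hx0 : F x = 0 := hx.1
        rw [hx0, max_eq_right hδ.le, Real.log_mul hMR.ne' (Real.exp_pos _).ne', Real.log_exp]
        linarith
      rw [setLIntegral_const] at h2
      rw [hv, Measure.real]
      have h3 := ENNReal.toReal_mono ENNReal.ofReal_ne_top h2
      rwa [ENNReal.toReal_mul, ENNReal.toReal_ofReal ht, ENNReal.toReal_ofReal hK0] at h3
    have h4 := key (K / v + 1) (by positivity)
    rw [add_mul, div_mul_cancel₀ _ hv0.ne'] at h4
    linarith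
  refine ⟨hnull, ?_⟩
  -- Fatou
  have haepos : ∀ᵐ x ∂(volume.restrict (ball p (R + 1))), F x ≠ 0 := by
    rw [ae_restrict_iff' measurableSet_ball]
    filter_upwards [measure_eq_zero_iff_ae_notMem.mp hnull] with x hx hxb h0
    exact hx ⟨h0, hxb⟩
  have hF1 : ∫⁻ x in ball p (R + 1), ENNReal.ofReal (c - Real.log (F x)) ≤ ENNReal.ofReal K := by
    set δ : ℕ → ℝ := fun k => F p * (R + 2) * (1 / ((k : ℝ) + 1)) with hδd
    have hδ0 : ∀ k, 0 < δ k := fun k => mul_pos hMR (by positivity)
    have hδM : ∀ k, δ k ≤ F p * (R + 2) := by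
      intro k
      apply mul_le_of_le_one_right hMR.le
      rw [div_le_one (by positivity)]
      have : (0 : ℝ) ≤ k := Nat.cast_nonneg k
      linarith
    have hδt : Filter.Tendsto δ Filter.atTop (𝓝 0) := by
      have := tendsto_one_div_add_atTop_nhds_zero_nat (𝕜 := ℝ)
      have h2 := this.const_mul (F p * (R + 2))
      rwa [mul_zero] at h2
    have hmk : ∀ k, Measurable (fun x => ENNReal.ofReal (c - Real.log (max (F x) (δ k)))) := by
      intro k
      exact ENNReal.measurable_ofReal.comp
        (measurable_const.sub (Real.measurable_log.comp (hm.max measurable_const)))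
    calc ∫⁻ x in ball p (R + 1), ENNReal.ofReal (c - Real.log (F x))
        = ∫⁻ x in ball p (R + 1), Filter.liminf
            (fun k => ENNReal.ofReal (c - Real.log (max (F x) (δ k)))) Filter.atTop := by
          apply lintegral_congr_ae
          filter_upwards [haepos] with x hx
          symm
          apply Filter.Tendsto.liminf_eq
          apply (ENNReal.continuous_ofReal.tendsto _).comp
          apply Filter.Tendsto.const_sub
          have h5 : Filter.Tendsto (fun k => max (F x) (δ k)) Filter.atTop (𝓝 (F x)) := by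
            have h6 := (tendsto_const_nhds (x := F x) (f := Filter.atTop)).max hδt
            rwa [max_eq_left (hF.psh.nonneg x)] at h6
          exact (Real.continuousAt_log hx).tendsto.comp h5
      _ ≤ Filter.liminf (fun k => ∫⁻ x in ball p (R + 1),
            ENNReal.ofReal (c - Real.log (max (F x) (δ k)))) Filter.atTop :=
          lintegral_liminf_le hmk
      _ ≤ ENNReal.ofReal K := by
          apply Filter.liminf_le_of_le
          · exact Filter.isBoundedUnder_of ⟨0, fun _ => bot_le⟩
          · intro b hb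
            obtain ⟨k, hk⟩ := hb.exists
            exact hk.trans (OmegaL1_main hF hp hp0 hle hR (hδ0 k) (hδM k))
  have hw0 : 0 ≤ᵐ[volume.restrict (ball p (R + 1))] fun x => c - Real.log (F x) := by
    filter_upwards [haepos, ae_restrict_mem measurableSet_ball] with x hx hxb
    have h1 := OmegaL1_bd hp hp0 hle hxb
    have h2 : 0 < F x := lt_of_le_of_ne (hF.psh.nonneg x) (Ne.symm hx)
    have h3 := Real.log_le_log h2 h1
    simpa using h3
  have hwm : AEStronglyMeasurable (fun x => c - Real.log (F x))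
      (volume.restrict (ball p (R + 1))) :=
    (measurable_const.sub (Real.measurable_log.comp hm)).aestronglyMeasurable
  have hwi : Integrable (fun x => c - Real.log (F x)) (volume.restrict (ball p (R + 1))) :=
    ⟨hwm, (hasFiniteIntegral_iff_ofReal hw0).mpr (hF1.trans_lt ENNReal.ofReal_lt_top)⟩
  have hci : Integrable (fun _ : Cn (n + 1) => c) (volume.restrict (ball p (R + 1))) :=
    integrable_const _
  have hli : Integrable (fun x => Real.log (F x)) (volume.restrict (ball p (R + 1))) := by
    have := hci.sub hwi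
    refine this.congr (Filter.Eventually.of_forall fun x => ?_)
    simp
  refine ⟨hli, ?_⟩
  have hwK : ∫ x in ball p (R + 1), (c - Real.log (F x)) ≤ K := by
    rw [integral_eq_lintegral_of_nonneg_ae hw0 hwm]
    exact ENNReal.toReal_le_of_le_ofReal hK0 hF1
  calc ∫ x in ball p (R + 1), |Real.log (F x)|
      ≤ ∫ x in ball p (R + 1), ((c - Real.log (F x)) + |c|) := by
        apply integral_mono_ae hli.abs (hwi.add (integrable_const _))
        filter_upwards [hw0] with x hx
        simp only [Pi.zero_apply] at hx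
        show |Real.log (F x)| ≤ (c - Real.log (F x)) + |c|
        rw [abs_le]
        constructor
        · have := neg_abs_le c
          have := abs_nonneg c
          rcases le_total 0 (Real.log (F x)) with h | h
          · linarith
          · linarith [le_abs_self c]
        · rcases le_total 0 (Real.log (F x)) with h | h
          · linarith [le_abs_self c]
          · linarith [abs_nonneg c]
    _ = (∫ x in ball p (R + 1), (c - Real.log (F x))) + |c| * volume.real (ball p (R + 1)) := by
        rw [integral_add hwi (integrable_const _), integral_const, smul_eq_mul]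
        simp [Measure.real, mul_comm]
    _ ≤ (Real.log (R + 2) + |c|) * volume.real (ball p (R + 1)) := by
        rw [add_mul]
        linarith

theorem omega_null {n : ℕ} {F : Cn (n + 1) → ℝ} (hF : OmegaPsh n F) :
    volume {x | F x = 0} = 0 := by
  obtain ⟨p, hp, hp0, hle⟩ := omega_max hF
  have h1 : {x | F x = 0} ⊆ ⋃ k : ℕ, ({x | F x = 0} ∩ ball p ((k : ℝ) + 1)) := by
    intro x hx
    rw [mem_iUnion]
    obtain ⟨k, hk⟩ := exists_nat_gt (dist x p)
    exact ⟨k, hx, by rw [mem_ball]; linarith⟩
  exact measure_mono_null h1 (measure_iUnion_null fun k =>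
    (OmegaL1_est hF hp hp0 hle (Nat.cast_nonneg k)).1)

theorem omega_intOn {n : ℕ} {F : Cn (n + 1) → ℝ} (hF : OmegaPsh n F) (a : Cn (n + 1)) (ρ : ℝ) :
    IntegrableOn (fun x => Real.log (F x)) (ball a ρ) volume := by
  obtain ⟨p, hp, hp0, hle⟩ := omega_max hF
  have h1 : (0 : ℝ) ≤ |ρ| + dist a p := by positivity
  refine (OmegaL1_est hF hp hp0 hle h1).2.1.mono_set ?_
  intro x hx
  rw [mem_ball] at hx ⊢
  have := dist_triangle x a p
  have := le_abs_self ρ
  linarith

theorem omega_ball {n : ℕ} {F : Cn (n + 1) → ℝ} (hF : OmegaPsh n F) {x : Cn (n + 1)}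
    (hx : 0 < F x) {ρ : ℝ} (hρ : 0 < ρ) :
    Real.log (F x) * volume.real (ball x ρ) ≤ ∫ y in ball x ρ, Real.log (F y) := by
  have hm : Measurable F := OmegaL1_meas hF
  set δ : ℕ → ℝ := fun k => 1 / ((k : ℝ) + 1) with hδd
  have hδ0 : ∀ k, 0 < δ k := fun k => by positivity
  have hδ1 : ∀ k, δ k ≤ 1 := by
    intro k
    rw [hδd]
    show 1 / ((k : ℝ) + 1) ≤ 1
    rw [div_le_one (by positivity)]
    have : (0 : ℝ) ≤ k := Nat.cast_nonneg k
    linarith
  have hδt : Filter.Tendsto δ Filter.atTop (𝓝 0) := tendsto_one_div_add_atTop_nhds_zero_nat (𝕜 := ℝ)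
  have hae : ∀ᵐ y ∂(volume.restrict (ball x ρ)), F y ≠ 0 := by
    apply ae_restrict_of_ae
    exact measure_eq_zero_iff_ae_notMem.mp (omega_null hF)
  have hlim : Filter.Tendsto (fun k => ∫ y in ball x ρ, Real.log (max (F y) (δ k))) Filter.atTop
      (𝓝 (∫ y in ball x ρ, Real.log (F y))) := by
    apply tendsto_integral_of_dominated_convergence (fun y => |Real.log (F y)|)
    · intro k
      exact (Real.measurable_log.comp (hm.max measurable_const)).aestronglyMeasurable
    · exact (omega_intOn hF x ρ).abs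
    · intro k
      filter_upwards [hae] with y hy
      have hy0 : 0 < F y := lt_of_le_of_ne (hF.psh.nonneg y) (Ne.symm hy)
      rw [Real.norm_eq_abs]
      rcases le_total (δ k) (F y) with h | h
      · rw [max_eq_left h]
      · rw [max_eq_right h]
        have h1 : Real.log (F y) ≤ Real.log (δ k) := Real.log_le_log hy0 h
        have h2 : Real.log (δ k) ≤ 0 := Real.log_nonpos (hδ0 k).le (hδ1 k)
        rw [abs_of_nonpos h2, abs_of_nonpos (h1.trans h2)]
        linarith
    · filter_upwards [hae] with y hy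
      have h5 : Filter.Tendsto (fun k => max (F y) (δ k)) Filter.atTop (𝓝 (F y)) := by
        have h6 := (tendsto_const_nhds (x := F y) (f := Filter.atTop)).max hδt
        rwa [max_eq_left (hF.psh.nonneg y)] at h6
      exact (Real.continuousAt_log hy).tendsto.comp h5
  apply ge_of_tendsto' hlim
  intro k
  have hu := pshR_log_max hF.psh (hδ0 k)
  have h1 := (submean_ball hu.usc hu.bdd hρ (fun a b _ => hu.submean a b) x).2
  refine le_trans ?_ h1
  apply mul_le_mul_of_nonneg_right _ measureReal_nonneg
  exact Real.log_le_log hx (le_max_left _ _)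

/-- uniform bound; use the ball of radius `2` around a maximum point on the unit sphere -/
theorem omega_L1 (n : ℕ) {A : ℝ} (hA : 1 ≤ A) : ∃ C : ℝ, 0 < C ∧
    ∀ F : Cn (n + 1) → ℝ, OmegaPsh n F → Nrm A F →
      ∫ x in ball (0 : Cn (n + 1)) 1, |Real.log (F x)| ≤ C := by
  have hlA : 0 ≤ Real.log A := Real.log_nonneg hA
  have hl3 : 0 ≤ Real.log 3 := Real.log_nonneg (by norm_num)
  refine ⟨(2 * Real.log 3 + Real.log A) * volume.real (ball (0 : Cn (n + 1)) 2) + 1, ?_, ?_⟩
  · have : 0 ≤ volume.real (ball (0 : Cn (n + 1)) 2) := measureReal_nonneg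
    positivity
  · intro F hF hN
    obtain ⟨p, hp, hp0, hle⟩ := omega_max hF
    have hpA : F p ≤ A := by
      have := hN.le p
      rwa [hp, mul_one] at this
    have hpA' : A⁻¹ ≤ F p := by
      obtain ⟨x, hx, hxA⟩ := hN.ge
      have h1 := hxA.trans (hle x)
      exact le_of_mul_le_mul_right h1 (norm_pos_iff.mpr hx)
    have hA0 : 0 < A := by linarith
    obtain ⟨-, hint, hest⟩ := OmegaL1_est hF hp hp0 hle (zero_le_one (α := ℝ))
    have hvol : volume.real (ball p (1 + 1)) = volume.real (ball (0 : Cn (n + 1)) 2) := by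
      rw [Measure.real, Measure.real, Measure.addHaar_ball_center]
      norm_num
    have hsub : ball (0 : Cn (n + 1)) 1 ⊆ ball p (1 + 1) := by
      intro x hx
      rw [mem_ball, dist_zero_right] at hx
      rw [mem_ball, dist_eq_norm]
      have := norm_sub_le x p
      linarith
    have hlogp : |Real.log (F p)| ≤ Real.log A := by
      rw [abs_le]
      constructor
      · rw [← Real.log_inv]
        exact Real.log_le_log (by positivity) hpA'
      · exact Real.log_le_log hp0 hpA
    calc ∫ x in ball (0 : Cn (n + 1)) 1, |Real.log (F x)|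
        ≤ ∫ x in ball p (1 + 1), |Real.log (F x)| :=
          setIntegral_mono_set hint.abs (Filter.Eventually.of_forall fun x => abs_nonneg _)
            hsub.eventuallyLE
      _ ≤ (Real.log (1 + 2) + |Real.log (F p * (1 + 2))|) * volume.real (ball p (1 + 1)) := hest
      _ ≤ (2 * Real.log 3 + Real.log A) * volume.real (ball (0 : Cn (n + 1)) 2) := by
          rw [hvol]
          apply mul_le_mul_of_nonneg_right _ measureReal_nonneg
          have h12 : (1 : ℝ) + 2 = 3 := by norm_num
          rw [h12, Real.log_mul hp0.ne' (by norm_num)]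
          have := abs_add_le (Real.log (F p)) (Real.log 3)
          rw [abs_of_nonneg hl3] at this
          linarith
      _ ≤ _ := by linarith

end HMA
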