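import Pool.Agent.H85.MA.PolyPsh
import Pool.Agent.H85.MA.OmegaL1

/-! # Module REMM: the Remez type property of a moderate measure -/

open MeasureTheory Metric Set
open scoped ENNReal Topology ContDiff

namespace HMA

theorem rem_of_unif {n : ℕ} {μ : Measure (Cn (n + 1))} [IsProbabilityMeasure μ]
    {ε C : ℝ} (hε : 0 < ε) (hC : 0 < C)
    (hu : ∀ F : Cn (n + 1) → ℝ, OmegaPsh n F → Nrm 1 F →
        ∫⁻ x, (ENNReal.ofReal (F x / ‖x‖)) ^ (-ε) ∂μ ≤ ENNReal.ofReal C) :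
    Rem (Cn (n + 1)) μ C ε := by
  intro k hk f hf hx t ht ht1
  obtain ⟨x₀, hx₀, hfx₀⟩ := hx
  obtain ⟨p, hp, hmax⟩ := hf.exists_max
  have hk0 : (k : ℝ) ≠ 0 := by
    have : k ≠ 0 := by omega
    exact_mod_cast this
  have hkpos : (0 : ℝ) < (k : ℝ)⁻¹ := by
    have : 0 < k := by omega
    positivity
  have hM1 : 1 ≤ ‖f p‖ := by
    calc (1 : ℝ) ≤ ‖f x₀‖ := hfx₀
      _ ≤ ‖f p‖ * ‖x₀‖ ^ k := hmax x₀
      _ ≤ ‖f p‖ * 1 := by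
        apply mul_le_mul_of_nonneg_left _ (norm_nonneg _)
        exact pow_le_one₀ (norm_nonneg _) hx₀
      _ = ‖f p‖ := mul_one _
  have hM0 : 0 < ‖f p‖ := by linarith
  set M : ℝ := ‖f p‖ with hM
  have hg : HP (Cn (n + 1)) k (fun x => ((M : ℂ)⁻¹) * f x) := hf.const_mul _
  have hgn : ∀ x, ‖((M : ℂ)⁻¹) * f x‖ = M⁻¹ * ‖f x‖ := by
    intro x
    rw [norm_mul, norm_inv, Complex.norm_real, Real.norm_eq_abs, abs_of_pos hM0]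
  have hg0 : ∃ x, ((M : ℂ)⁻¹) * f x ≠ 0 := by
    refine ⟨p, ?_⟩
    intro h
    have h1 := hgn p
    rw [h, norm_zero, ← hM, inv_mul_cancel₀ hM0.ne'] at h1
    exact zero_ne_one h1
  have hO := omega_poly hk hg hg0
  have hroot : ∀ a : ℝ, 0 ≤ a → (a ^ k) ^ ((k : ℝ)⁻¹) = a := by
    intro a ha
    exact Real.pow_rpow_inv_natCast ha (by omega)
  have hN : Nrm 1 (fun x => ‖((M : ℂ)⁻¹) * f x‖ ^ ((k : ℝ)⁻¹)) := by
    constructor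
    · intro x
      have h1 : ‖((M : ℂ)⁻¹) * f x‖ ≤ ‖x‖ ^ k := by
        rw [hgn]
        calc M⁻¹ * ‖f x‖ ≤ M⁻¹ * (M * ‖x‖ ^ k) :=
              mul_le_mul_of_nonneg_left (hmax x) (inv_nonneg.mpr hM0.le)
          _ = ‖x‖ ^ k := by rw [← mul_assoc, inv_mul_cancel₀ hM0.ne', one_mul]
      calc ‖((M : ℂ)⁻¹) * f x‖ ^ ((k : ℝ)⁻¹) ≤ (‖x‖ ^ k) ^ ((k : ℝ)⁻¹) :=
            Real.rpow_le_rpow (norm_nonneg _) h1 hkpos.le
        _ = 1 * ‖x‖ := by rw [hroot _ (norm_nonneg _), one_mul]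
    · refine ⟨p, ?_, ?_⟩
      · intro h
        rw [h, norm_zero] at hp
        exact zero_ne_one hp
      · show (1 : ℝ)⁻¹ * ‖p‖ ≤ ‖((M : ℂ)⁻¹) * f p‖ ^ ((k : ℝ)⁻¹)
        rw [hgn, ← hM, inv_mul_cancel₀ hM0.ne', Real.one_rpow, hp]
        norm_num
  have hu1 := hu _ hO hN
  set h : Cn (n + 1) → ℝ≥0∞ :=
    fun x => (ENNReal.ofReal (‖((M : ℂ)⁻¹) * f x‖ ^ ((k : ℝ)⁻¹) / ‖x‖)) ^ (-ε) with hh
  have hmeas : Measurable h := by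
    have h1 : Continuous (fun x : Cn (n + 1) => ‖((M : ℂ)⁻¹) * f x‖ ^ ((k : ℝ)⁻¹)) :=
      (hg.continuous.norm).rpow_const (fun x => Or.inr hkpos.le)
    have h2 : Measurable (fun x : Cn (n + 1) => ‖((M : ℂ)⁻¹) * f x‖ ^ ((k : ℝ)⁻¹) / ‖x‖) :=
      h1.measurable.div continuous_norm.measurable
    exact (ENNReal.measurable_ofReal.comp h2).pow_const _
  have hT : ENNReal.ofReal t ^ (-ε) = ENNReal.ofReal (t ^ (-ε)) :=
    ENNReal.ofReal_rpow_of_pos ht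
  have hsub : {x : Cn (n + 1) | x ≠ 0 ∧ ‖f x‖ ≤ t ^ k * ‖x‖ ^ k} ⊆
      {x | ENNReal.ofReal (t ^ (-ε)) ≤ h x} := by
    intro x hx
    obtain ⟨hx0, hfx⟩ := hx
    have hxn : 0 < ‖x‖ := norm_pos_iff.mpr hx0
    show ENNReal.ofReal (t ^ (-ε)) ≤ h x
    rw [← hT]
    show ENNReal.ofReal t ^ (-ε) ≤
      (ENNReal.ofReal (‖((M : ℂ)⁻¹) * f x‖ ^ ((k : ℝ)⁻¹) / ‖x‖)) ^ (-ε)
    have h1 : ‖((M : ℂ)⁻¹) * f x‖ ^ ((k : ℝ)⁻¹) / ‖x‖ ≤ t := by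
      rw [div_le_iff₀ hxn]
      have h2 : ‖((M : ℂ)⁻¹) * f x‖ ≤ (t * ‖x‖) ^ k := by
        rw [hgn, mul_pow]
        calc M⁻¹ * ‖f x‖ ≤ 1 * ‖f x‖ := by
              apply mul_le_mul_of_nonneg_right _ (norm_nonneg _)
              exact inv_le_one_of_one_le₀ hM1
          _ ≤ t ^ k * ‖x‖ ^ k := by rw [one_mul]; exact hfx
      calc ‖((M : ℂ)⁻¹) * f x‖ ^ ((k : ℝ)⁻¹) ≤ ((t * ‖x‖) ^ k) ^ ((k : ℝ)⁻¹) :=
            Real.rpow_le_rpow (norm_nonneg _) h2 hkpos.le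
        _ = t * ‖x‖ := hroot _ (by positivity)
    rw [ENNReal.rpow_neg, ENNReal.rpow_neg, ENNReal.inv_le_inv]
    exact ENNReal.rpow_le_rpow (ENNReal.ofReal_le_ofReal h1) hε.le
  have htε : 0 < t ^ (-ε) := Real.rpow_pos_of_pos ht _
  have hTpos : ENNReal.ofReal (t ^ (-ε)) ≠ 0 := by
    rw [Ne, ENNReal.ofReal_eq_zero, not_le]
    exact htε
  calc μ {x : Cn (n + 1) | x ≠ 0 ∧ ‖f x‖ ≤ t ^ k * ‖x‖ ^ k}
      ≤ μ {x | ENNReal.ofReal (t ^ (-ε)) ≤ h x} := measure_mono hsub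
    _ ≤ (∫⁻ x, h x ∂μ) / ENNReal.ofReal (t ^ (-ε)) :=
        meas_ge_le_lintegral_div hmeas.aemeasurable hTpos ENNReal.ofReal_ne_top
    _ ≤ ENNReal.ofReal C / ENNReal.ofReal (t ^ (-ε)) := by gcongr
    _ = ENNReal.ofReal (C / t ^ (-ε)) := (ENNReal.ofReal_div_of_pos htε).symm
    _ = ENNReal.ofReal (C * t ^ ε) := by
        rw [Real.rpow_neg ht.le, div_inv_eq_mul]

end HMA
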