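import Pool.Agent.H85.MA.Tube

/-! # Module TUBREM: the Remez property implies the tube property -/

open MeasureTheory Metric Set
open scoped ENNReal Topology ContDiff

namespace HMA

/-- the exponent `M` -/
noncomputable def TubRem_M (ε Λ : ℝ) (m : ℕ) : ℕ := max 3 ⌈Λ * (m + 1) / ε⌉₊

theorem TubRem_M3 (ε Λ : ℝ) (m : ℕ) : 3 ≤ TubRem_M ε Λ m := le_max_left _ _

theorem TubRem_Mge {ε Λ : ℝ} (hε : 0 < ε) (m : ℕ) : Λ ≤ ε * (TubRem_M ε Λ m / (m + 1)) := by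
  have h1 : Λ * (m + 1) / ε ≤ (TubRem_M ε Λ m : ℝ) :=
    (Nat.le_ceil _).trans (Nat.cast_le.2 (le_max_right _ _))
  have hm : (0 : ℝ) < m + 1 := by positivity
  rw [div_le_iff₀ hε] at h1
  rw [mul_div_assoc', le_div_iff₀ hm]
  linarith

theorem TubRem_pow (M m : ℕ) : (M ^ (m + 1)) ^ m < (M ^ m + 1) ^ (m + 1) := by
  rw [← pow_mul, mul_comm, pow_mul]
  exact Nat.pow_lt_pow_left (Nat.lt_succ_self _) (Nat.succ_ne_zero m)

theorem TubRem_mono {V : Type} [NormedAddCommGroup V] [InnerProductSpace ℂ V] (p : V)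
    (e : ↥(ℂ ∙ p)ᗮ) (h : ↥(ℂ ∙ p)ᗮ → ℂ) {ρ₁ r r' : ℝ} (hr : r ≤ r') :
    tube p e h ρ₁ r ⊆ tube p e h ρ₁ r' := by
  rintro x ⟨hx, c, hc, u, hu, hu2, hx2⟩
  exact ⟨hx, c, hc, u, hu, hu2, hx2.trans hr⟩

/-- the numerical estimate -/
theorem TubRem_num {C' C₁ ε Λ ρ R : ℝ} {M m : ℕ} (hC' : 0 < C') (hε : 0 < ε)
    (hC₁ : C' * 2 ^ ε ≤ C₁) (hε₁ : ε ≤ C₁) (hM : 3 ≤ M) (hΛ : Λ ≤ ε * (M / (m + 1)))
    (hρ : 0 < ρ) (hρ4 : ρ ≤ 1 / 4) (hR : 1 ≤ R) :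
    C' * (R * ((ρ ^ 2 / ρ) ^ (M ^ (m + 1)) + ρ ^ (M ^ (m + 1))) ^
      ((((m + 1) * (M ^ m + 1 - 1) : ℕ) : ℝ)⁻¹)) ^ ε ≤ C₁ * R ^ C₁ * ρ ^ Λ := by
  have hM0 : (0 : ℝ) < M := by exact_mod_cast (by omega : 0 < M)
  have hR0 : 0 < R := by linarith
  have hm : (0 : ℝ) < m + 1 := by positivity
  have hρ1 : ρ ^ 2 / ρ = ρ := by field_simp
  rw [hρ1, Nat.add_sub_cancel]
  set k : ℝ := (((m + 1) * M ^ m : ℕ) : ℝ) with hk
  have hk' : k = (m + 1) * M ^ m := by rw [hk]; push_cast; ring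
  have hk1 : 1 ≤ k := by
    rw [hk]
    exact_mod_cast Nat.one_le_iff_ne_zero.2 (by positivity)
  have hk0 : 0 < k := by linarith
  have hsum : ρ ^ (M ^ (m + 1)) + ρ ^ (M ^ (m + 1)) = 2 * ρ ^ (M ^ (m + 1)) := by ring
  rw [hsum]
  have h1 : (2 * ρ ^ (M ^ (m + 1))) ^ k⁻¹ ≤ 2 * ρ ^ ((M : ℝ) / (m + 1)) := by
    rw [Real.mul_rpow (by norm_num) (by positivity)]
    refine mul_le_mul ?_ (le_of_eq ?_) (by positivity) (by norm_num)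
    · calc (2 : ℝ) ^ k⁻¹ ≤ 2 ^ (1 : ℝ) :=
          Real.rpow_le_rpow_of_exponent_le (by norm_num) (inv_le_one_of_one_le₀ hk1)
        _ = 2 := Real.rpow_one 2
    · rw [← Real.rpow_natCast, ← Real.rpow_mul hρ.le]
      congr 1
      rw [hk']
      push_cast
      rw [pow_succ]
      field_simp
  have h2 : (R * (2 * ρ ^ (M ^ (m + 1))) ^ k⁻¹) ^ ε ≤ R ^ C₁ * 2 ^ ε * ρ ^ Λ := by
    calc (R * (2 * ρ ^ (M ^ (m + 1))) ^ k⁻¹) ^ ε ≤ (R * (2 * ρ ^ ((M : ℝ) / (m + 1)))) ^ ε := by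
          refine Real.rpow_le_rpow (by positivity) ?_ hε.le
          exact mul_le_mul_of_nonneg_left h1 hR0.le
      _ = R ^ ε * 2 ^ ε * ρ ^ (ε * ((M : ℝ) / (m + 1))) := by
          rw [Real.mul_rpow hR0.le (by positivity), Real.mul_rpow (by norm_num) (by positivity),
            ← Real.rpow_mul hρ.le, mul_comm ((M : ℝ) / (m + 1)) ε, mul_assoc]
      _ ≤ R ^ C₁ * 2 ^ ε * ρ ^ Λ := by
          have h3 : R ^ ε ≤ R ^ C₁ := Real.rpow_le_rpow_of_exponent_le hR hε₁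
          have h4 : ρ ^ (ε * ((M : ℝ) / (m + 1))) ≤ ρ ^ Λ :=
            Real.rpow_le_rpow_of_exponent_ge hρ (by linarith) hΛ
          have h5 : (0 : ℝ) ≤ 2 ^ ε := by positivity
          have h6 : 0 ≤ R ^ C₁ := by positivity
          exact mul_le_mul (mul_le_mul_of_nonneg_right h3 h5) h4 (by positivity) (by positivity)
  calc C' * (R * (2 * ρ ^ (M ^ (m + 1))) ^ k⁻¹) ^ ε ≤ C' * (R ^ C₁ * 2 ^ ε * ρ ^ Λ) :=
        mul_le_mul_of_nonneg_left h2 hC'.le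
    _ = (C' * 2 ^ ε) * (R ^ C₁ * ρ ^ Λ) := by ring
    _ ≤ C₁ * (R ^ C₁ * ρ ^ Λ) := mul_le_mul_of_nonneg_right hC₁ (by positivity)
    _ = C₁ * R ^ C₁ * ρ ^ Λ := by ring

theorem tub_of_rem (n : ℕ) {C ε Λ : ℝ} (hC : 0 < C) (hε : 0 < ε) (hΛ : 0 ≤ Λ) :
    ∃ (N : ℕ) (C₁ : ℝ), 3 ≤ N ∧ 0 < C₁ ∧
    ∀ (V : Type) [NormedAddCommGroup V] [InnerProductSpace ℂ V] [FiniteDimensional ℂ V]
      [MeasurableSpace V] (μ : Measure V), Module.finrank ℂ V = n + 1 → Rem V μ C ε →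
      μ {x | x ≠ 0} ≤ ENNReal.ofReal C₁ ∧ Tub V μ N C₁ Λ := by
  have hK2 : ∀ m : ℕ, 2 ≤ TubRem_M ε Λ m ^ m + 1 := by
    intro m
    have : 1 ≤ TubRem_M ε Λ m ^ m := Nat.one_le_pow _ _ (by have := TubRem_M3 ε Λ m; omega)
    omega
  choose C' hC'0 hC' using fun m : ℕ => tube_measure m (TubRem_M ε Λ m ^ (m + 1))
    (TubRem_M ε Λ m ^ m + 1) (hK2 m) (TubRem_pow _ _) hC hε
  have hN3 : ∀ m : ℕ, 3 ≤ TubRem_M ε Λ m ^ (m + 1) := by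
    intro m
    calc 3 ≤ TubRem_M ε Λ m := TubRem_M3 ε Λ m
      _ = TubRem_M ε Λ m ^ 1 := (pow_one _).symm
      _ ≤ TubRem_M ε Λ m ^ (m + 1) :=
        Nat.pow_le_pow_right (by have := TubRem_M3 ε Λ m; omega) (by omega)
  set N : ℕ := ∑ m ∈ Finset.range (n + 1), TubRem_M ε Λ m ^ (m + 1) with hN
  have hNm : ∀ m ∈ Finset.range (n + 1), TubRem_M ε Λ m ^ (m + 1) ≤ N := fun m hm =>
    Finset.single_le_sum (f := fun m => TubRem_M ε Λ m ^ (m + 1)) (fun _ _ => Nat.zero_le _) hm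
  set S : ℝ := ∑ m ∈ Finset.range (n + 1), C' m * 2 ^ ε with hS
  have hSm : ∀ m ∈ Finset.range (n + 1), C' m * 2 ^ ε ≤ S := fun m hm =>
    Finset.single_le_sum (f := fun m => C' m * (2 : ℝ) ^ ε)
      (fun m _ => mul_nonneg (hC'0 m).le (by positivity)) hm
  have hS0 : 0 ≤ S := Finset.sum_nonneg fun m _ => mul_nonneg (hC'0 m).le (by positivity)
  refine ⟨N, C + ε + S, ?_, by positivity, ?_⟩
  · exact (hN3 0).trans (hNm 0 (Finset.mem_range.2 (Nat.succ_pos n)))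
  intro V _ _ _ _ μ hV hRem
  have hnt : Nontrivial V := Module.nontrivial_of_finrank_pos (R := ℂ) (by omega)
  refine ⟨(rem_total hRem).trans (ENNReal.ofReal_le_ofReal (by linarith)), ?_⟩
  intro W _ _ _ L hL p e h ρ R hp he hρ hρ4 hR hana hbd
  have hWle : Module.finrank ℂ W ≤ n + 1 := hV ▸ hL.finrank_le
  have hp0 : p ≠ 0 := by
    rintro rfl
    rw [norm_zero] at hp
    exact zero_ne_one hp
  have he0 : e ≠ 0 := by
    intro h0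
    rw [h0, norm_zero] at he
    exact zero_ne_one he
  have hfr : Module.finrank ℂ (ℂ ∙ p) + Module.finrank ℂ ↥(ℂ ∙ p)ᗮ = Module.finrank ℂ W :=
    Submodule.finrank_add_finrank_orthogonal _
  rw [finrank_span_singleton hp0] at hfr
  have hnt2 : Nontrivial ↥(ℂ ∙ p)ᗮ := ⟨⟨e, 0, he0⟩⟩
  have hpos : 0 < Module.finrank ℂ ↥(ℂ ∙ p)ᗮ := Module.finrank_pos
  obtain ⟨m, hm⟩ : ∃ m, Module.finrank ℂ W = m + 2 := ⟨Module.finrank ℂ W - 2, by omega⟩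
  have hmr : m ∈ Finset.range (n + 1) := Finset.mem_range.2 (by omega)
  set M := TubRem_M ε Λ m with hMdef
  have hM3 : 3 ≤ M := TubRem_M3 ε Λ m
  have hρ1 : ρ ≤ 1 := by linarith
  have hρN : ρ ^ N ≤ ρ ^ (M ^ (m + 1)) := pow_le_pow_of_le_one hρ.le hρ1 (hNm m hmr)
  have hrhalf : ρ ^ (M ^ (m + 1)) ≤ 1 / 2 := by
    calc ρ ^ (M ^ (m + 1)) ≤ ρ ^ 1 := pow_le_pow_of_le_one hρ.le hρ1 (le_trans (by norm_num) (hN3 m))
      _ = ρ := pow_one ρ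
      _ ≤ 1 / 2 := by linarith
  have hsub : {x | L x ∈ tube p e h (ρ ^ 2) (ρ ^ N)} ⊆
      {x | L x ∈ tube p e h (ρ ^ 2) (ρ ^ (M ^ (m + 1)))} := fun x hx => TubRem_mono p e h hρN hx
  refine (measure_mono hsub).trans ?_
  refine (hC' m V μ W L hL hm hRem p e h ρ R (ρ ^ 2) (ρ ^ (M ^ (m + 1))) hp he hρ hρ1 hR
    (by positivity) (by nlinarith) (by positivity) hrhalf hana hbd).trans ?_
  apply ENNReal.ofReal_le_ofReal
  exact TubRem_num (hC'0 m) hε ((hSm m hmr).trans (by linarith)) (by linarith) hM3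
    (TubRem_Mge hε m) hρ hρ4 hR

end HMA
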