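import Pool.Agent.H85.MA.Iter
import Pool.Agent.H85.MA.ThmN
import Pool.Agent.H85.MA.Unif
import Pool.Agent.H85.MA.RemM
import Pool.Agent.H85.MA.TubRem
import Pool.Agent.H85.MA.NAff

/-! # Module MODULUS: modulus of continuity in `L¹ (μ)` for `ω`-psh functions -/

open MeasureTheory Metric Set
open scoped ENNReal Topology ContDiff

namespace HMA

theorem Modulus_rpow {x y : ℝ≥0∞} (h : x ≤ y) {ε : ℝ} (hε : 0 < ε) : y ^ (-ε) ≤ x ^ (-ε) := by
  rw [ENNReal.rpow_neg, ENNReal.rpow_neg]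
  exact ENNReal.inv_le_inv.2 (ENNReal.rpow_le_rpow h hε.le)

/-- the value of a homogeneous function in the chart -/
theorem Modulus_hom {n : ℕ} {G : Cn (n + 1) → ℝ} (hG : OmegaPsh n G) {i : Fin (n + 1)}
    {x : Cn (n + 1)} (hx : x i ≠ 0) : G x = ‖x i‖ * G (cha i (aff i x)) := by
  conv_lhs => rw [cha_aff hx]
  rw [hG.hom]

/-- the supremum over the ball in homogeneous coordinates -/
theorem Modulus_sup {n : ℕ} {G : Cn (n + 1) → ℝ} (hG : OmegaPsh n G) {i : Fin (n + 1)}
    {x : Cn (n + 1)} (hx : x ∈ part i) {r : ℝ} (hr : 0 < r) (hr1 : 2 * (n + 1) * r ≤ 1) :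
    sSup (G '' closedBall x (r * ‖x‖)) ≤
      (1 + (n + 1) * r) * ‖x i‖ * supB (fun z => G (cha i z)) (8 * (n + 1) ^ 2 * r) (aff i x) := by
  have husc : UpperSemicontinuous fun z : Cn n => G (cha i z) := (logPsh_cha i hG.psh).usc
  refine csSup_le ⟨G x, x, mem_closedBall_self (by positivity), rfl⟩ ?_
  rintro _ ⟨y, hy, rfl⟩
  rw [mem_closedBall, dist_eq_norm] at hy
  obtain ⟨h1, h2, h3⟩ := aff_near hx hr hr1 hy
  rw [Modulus_hom hG h1]
  have h4 : G (cha i (aff i y)) ≤ supB (fun z => G (cha i z)) (8 * (n + 1) ^ 2 * r) (aff i x) :=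
    le_supB (f := fun z => G (cha i z)) husc h3
  have h5 : 0 ≤ G (cha i (aff i y)) := hG.psh.nonneg _
  exact mul_le_mul h2 h4 h5 ((norm_nonneg _).trans h2)

/-- pointwise comparison -/
theorem Modulus_point {n : ℕ} {G : Cn (n + 1) → ℝ} (hG : OmegaPsh n G) {i : Fin (n + 1)}
    {x : Cn (n + 1)} (hx : x ∈ part i) {r : ℝ} (hr : 0 < r) (hr1 : 2 * (n + 1) * r ≤ 1) :
    Real.log (max (sSup (G '' closedBall x (r * ‖x‖)) / ‖x‖) r) - Real.log (G x / ‖x‖) ≤
      (n + 1) * r + (Real.log (max (supB (fun z => G (cha i z)) (8 * (n + 1) ^ 2 * r) (aff i x))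
        (8 * (n + 1) ^ 2 * r)) - Real.log (G (cha i (aff i x)))) := by
  obtain ⟨hxi, _, hnb⟩ := aff_bound hx
  have hxi' : 0 < ‖x i‖ := norm_pos_iff.2 hxi
  have hx0 : 0 < ‖x‖ := norm_pos_iff.2 hx.1
  have hxile : ‖x i‖ ≤ ‖x‖ := PiLp.norm_apply_le x i
  have hn0 : (0 : ℝ) ≤ n := Nat.cast_nonneg n
  set S := sSup (G '' closedBall x (r * ‖x‖)) with hS
  set B := supB (fun z => G (cha i z)) (8 * (n + 1) ^ 2 * r) (aff i x) with hB
  set r' : ℝ := 8 * (n + 1) ^ 2 * r with hr'
  have hr'0 : 0 < r' := by positivity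
  have hrr' : (n + 1) * r ≤ r' := by
    rw [hr']
    have : (n + 1 : ℝ) ≤ 8 * (n + 1) ^ 2 := by nlinarith
    exact mul_le_mul_of_nonneg_right this hr.le
  have hSB : S ≤ (1 + (n + 1) * r) * ‖x i‖ * B := Modulus_sup hG hx hr hr1
  have husc : UpperSemicontinuous fun z : Cn n => G (cha i z) := (logPsh_cha i hG.psh).usc
  have hfB : G (cha i (aff i x)) ≤ B :=
    le_supB (f := fun z => G (cha i z)) husc (by simpa using hr'0.le)
  have hB0 : 0 ≤ B := (hG.psh.nonneg _).trans hfB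
  have hM : 0 < max B r' := lt_max_of_lt_right hr'0
  have h1r : 0 < 1 + (n + 1) * r := by positivity
  -- the main inequality, with the factor `‖x‖ / ‖x i‖`
  have hmain : max (S / ‖x‖) r * (‖x‖ / ‖x i‖) ≤ (1 + (n + 1) * r) * max B r' := by
    have hq : 0 < ‖x‖ / ‖x i‖ := by positivity
    rw [max_mul_of_nonneg _ _ hq.le]
    refine max_le ?_ ?_
    · have e1 : S / ‖x‖ * (‖x‖ / ‖x i‖) = S / ‖x i‖ := by field_simp
      rw [e1, div_le_iff₀ hxi']
      refine hSB.trans ?_
      have : (1 + (n + 1) * r) * ‖x i‖ * B ≤ (1 + (n + 1) * r) * ‖x i‖ * max B r' :=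
        mul_le_mul_of_nonneg_left (le_max_left _ _) (by positivity)
      linarith
    · have h2 : ‖x‖ / ‖x i‖ ≤ n + 1 := by
        rw [div_le_iff₀ hxi']
        exact hnb
      have h3 : r * (‖x‖ / ‖x i‖) ≤ r * (n + 1) := mul_le_mul_of_nonneg_left h2 hr.le
      have h4 : r' ≤ max B r' := le_max_right _ _
      have h5 : max B r' ≤ (1 + (n + 1) * r) * max B r' := by
        refine le_mul_of_one_le_left hM.le ?_
        have : 0 ≤ (n + 1) * r := by positivity
        linarith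
      linarith
  have hlog1 : Real.log (1 + (n + 1) * r) ≤ (n + 1) * r := by
    have := Real.log_le_sub_one_of_pos h1r
    linarith
  have hmaxpos : 0 < max (S / ‖x‖) r := lt_max_of_lt_right hr
  by_cases hG0 : G x = 0
  · have hf0 : G (cha i (aff i x)) = 0 := by
      have h2 := Modulus_hom hG hxi
      rw [hG0] at h2
      rcases mul_eq_zero.1 h2.symm with h3 | h3
      · exact absurd h3 hxi'.ne'
      · exact h3
    rw [hG0, hf0, zero_div, Real.log_zero, sub_zero, sub_zero]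
    have h2 : max (S / ‖x‖) r ≤ (1 + (n + 1) * r) * max B r' := by
      refine le_trans ?_ hmain
      refine le_mul_of_one_le_right hmaxpos.le ?_
      rw [one_le_div hxi']
      exact hxile
    have h3 := Real.log_le_log hmaxpos h2
    rw [Real.log_mul h1r.ne' hM.ne'] at h3
    linarith
  · have hGpos : 0 < G x := lt_of_le_of_ne (hG.psh.nonneg x) (Ne.symm hG0)
    have hfpos : 0 < G (cha i (aff i x)) := by
      have h2 := Modulus_hom hG hxi
      by_contra h3
      have h4 : G (cha i (aff i x)) = 0 := le_antisymm (not_lt.1 h3) (hG.psh.nonneg _)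
      rw [h4, mul_zero] at h2
      exact hG0 h2
    have h2 : Real.log (max (S / ‖x‖) r) + Real.log (‖x‖ / ‖x i‖) ≤
        Real.log (1 + (n + 1) * r) + Real.log (max B r') := by
      rw [← Real.log_mul hmaxpos.ne' (by positivity), ← Real.log_mul h1r.ne' hM.ne']
      exact Real.log_le_log (by positivity) hmain
    have h3 : Real.log (G x / ‖x‖) = Real.log (G (cha i (aff i x))) - Real.log (‖x‖ / ‖x i‖) := by
      rw [← Real.log_div hfpos.ne' (by positivity)]
      congr 1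
      rw [Modulus_hom hG hxi]
      field_simp
    linarith

theorem modulus {n : ℕ} (hn : 1 ≤ n) {μ : Measure (Cn (n + 1))} [IsProbabilityMeasure μ]
    (h0 : μ {0} = 0) (hm : Moderate n μ) : ∃ b : ℝ, 0 < b ∧ ∀ A : ℝ, 1 ≤ A → ∃ K r₀ : ℝ, 0 < K ∧
      0 < r₀ ∧ r₀ ≤ 1 / 2 ∧ ∀ G : Cn (n + 1) → ℝ, OmegaPsh n G → Nrm A G → ∀ r : ℝ, 0 < r → r ≤ r₀ →
        ∫⁻ x, ENNReal.ofReal (Real.log (max (sSup (G '' closedBall x (r * ‖x‖)) / ‖x‖) r) -
          Real.log (G x / ‖x‖)) ∂μ ≤ ENNReal.ofReal (K * r ^ b) := by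
  obtain ⟨ε, hε, hε1, hunif⟩ := unif h0 hm
  obtain ⟨C₀, hC₀, hu1⟩ := hunif 1 le_rfl
  have hrem : Rem (Cn (n + 1)) μ C₀ ε := rem_of_unif hε hC₀ hu1
  obtain ⟨N, C₁, hN, hC₁, htub⟩ := tub_of_rem n (Λ := 4 * n + 1) hC₀ hε (by positivity)
  obtain ⟨hμ, hT⟩ := htub (Cn (n + 1)) μ (by simp) hrem
  obtain ⟨C', c, hC', hc, hstn⟩ := thmN n N (C := C₁) (Λ := 4 * n + 1) hC₁ hN le_rfl
  have haff : ∀ i : Fin (n + 1), AffN n ((μ.restrict (part i)).map (aff i)) C' c := fun i =>
    affN_of_stN hC' hc hμ hT hstn i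
  obtain ⟨b₀, hb₀, hiter⟩ := iter n hn (C := C') (c := c) (ε := ε) hC' hc hε
  refine ⟨min b₀ 1, lt_min hb₀ one_pos, fun A hA => ?_⟩
  obtain ⟨C_A, hC_A, huA⟩ := hunif A hA
  have hn0 : (0 : ℝ) ≤ n := Nat.cast_nonneg n
  obtain ⟨K, hK, hKiter⟩ := hiter (n + 1) (Real.log A) C_A (by linarith) (Real.log_nonneg hA) hC_A
  have hsq : (1 : ℝ) ≤ (n + 1) ^ 2 := by nlinarith
  have hr₀ : (0 : ℝ) < 1 / (32 * (n + 1) ^ 2) := by positivity
  refine ⟨(n + 1) * ((n + 1) + K * (8 * (n + 1) ^ 2) ^ b₀), 1 / (32 * (n + 1) ^ 2),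
    by positivity, hr₀, ?_, ?_⟩
  · rw [div_le_div_iff₀ (by positivity) (by norm_num)]
    linarith
  intro G hG hnrm r hr hrr
  have hr32 : 32 * (n + 1) ^ 2 * r ≤ 1 := by
    rw [le_div_iff₀ (by positivity)] at hrr
    linarith
  have hr1 : r ≤ 1 := by nlinarith
  have h2r : 2 * (n + 1) * r ≤ 1 := by nlinarith
  set r' : ℝ := 8 * (n + 1) ^ 2 * r with hr'
  have hr'0 : 0 < r' := by positivity
  have hr'4 : r' ≤ 1 / 4 := by rw [hr']; linarith
  -- the estimate in each chart
  have hchart : ∀ i : Fin (n + 1), ∫⁻ x in part i, ENNReal.ofReal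
      (Real.log (max (sSup (G '' closedBall x (r * ‖x‖)) / ‖x‖) r) - Real.log (G x / ‖x‖)) ∂μ ≤
      ENNReal.ofReal ((n + 1) * r) + ENNReal.ofReal (K * r' ^ b₀) := by
    intro i
    set ν : Measure (Cn n) := (μ.restrict (part i)).map (aff i) with hν
    have hf : LogPsh fun z : Cn n => G (cha i z) := logPsh_cha i hG.psh
    have hfm : Measurable fun z : Cn n => G (cha i z) := hf.usc.measurable
    have hνuniv : ν univ ≤ 1 := by
      rw [hν, Measure.map_apply (aff_meas i) MeasurableSet.univ]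
      calc (μ.restrict (part i)) (aff i ⁻¹' univ) ≤ μ (aff i ⁻¹' univ) :=
            Measure.restrict_apply_le _ _
        _ ≤ 1 := prob_le_one
    have hνR : ν {z | (n + 1 : ℝ) < ‖z‖} = 0 := by
      have hms : MeasurableSet {z : Cn n | (n + 1 : ℝ) < ‖z‖} :=
        measurableSet_lt measurable_const measurable_norm
      rw [hν, Measure.map_apply (aff_meas i) hms, Measure.restrict_apply ((aff_meas i) hms)]
      have : aff i ⁻¹' {z : Cn n | (n + 1 : ℝ) < ‖z‖} ∩ part i = ∅ := by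
        ext x
        simp only [mem_inter_iff, mem_preimage, mem_ofPred_eq, mem_empty_iff_false, iff_false,
          not_and]
        intro h1 h2
        have := (aff_bound h2).2.1
        linarith
      rw [this, measure_empty]
    have hfub : ∀ z : Cn n, G (cha i z) ≤ Real.exp (Real.log A) * Real.sqrt (1 + ‖z‖ ^ 2) := by
      intro z
      rw [Real.exp_log (by linarith), ← norm_cha i z]
      exact hnrm.le _
    have hfint : ∫⁻ z, (ENNReal.ofReal (G (cha i z))) ^ (-ε) ∂ν ≤ ENNReal.ofReal C_A := by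
      have hmeas : Measurable fun z : Cn n => (ENNReal.ofReal (G (cha i z))) ^ (-ε) :=
        (ENNReal.measurable_ofReal.comp hfm).pow_const _
      rw [hν, lintegral_map hmeas (aff_meas i)]
      calc ∫⁻ x in part i, (ENNReal.ofReal (G (cha i (aff i x)))) ^ (-ε) ∂μ
          ≤ ∫⁻ x in part i, (ENNReal.ofReal (G x / ‖x‖)) ^ (-ε) ∂μ := by
            refine setLIntegral_mono' (part_meas i) fun x hx => ?_
            refine Modulus_rpow ?_ hε
            refine ENNReal.ofReal_le_ofReal ?_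
            obtain ⟨hxi, -, -⟩ := aff_bound hx
            have hx0 : 0 < ‖x‖ := norm_pos_iff.2 hx.1
            rw [Modulus_hom hG hxi, div_le_iff₀ hx0, mul_comm]
            exact mul_le_mul_of_nonneg_left (PiLp.norm_apply_le x i) (hG.psh.nonneg _)
        _ ≤ ∫⁻ x, (ENNReal.ofReal (G x / ‖x‖)) ^ (-ε) ∂μ := setLIntegral_le_lintegral _ _
        _ ≤ ENNReal.ofReal C_A := huA G hG hnrm
    have hit := hKiter ν hνuniv hνR (haff i) (fun z => G (cha i z)) hf hfub hfint r' hr'0 hr'4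
    have hmeas2 : Measurable fun z : Cn n => ENNReal.ofReal
        (Real.log (max (supB (fun z => G (cha i z)) r' z) r') - Real.log (G (cha i z))) := by
      refine ENNReal.measurable_ofReal.comp ?_
      refine Measurable.sub ?_ (Real.measurable_log.comp hfm)
      exact Real.measurable_log.comp
        (((supB_usc (f := fun z => G (cha i z)) hf.usc hr'0.le).measurable).max measurable_const)
    rw [hν, lintegral_map hmeas2 (aff_meas i)] at hit
    calc ∫⁻ x in part i, ENNReal.ofReal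
            (Real.log (max (sSup (G '' closedBall x (r * ‖x‖)) / ‖x‖) r) - Real.log (G x / ‖x‖)) ∂μ
        ≤ ∫⁻ x in part i, (ENNReal.ofReal ((n + 1) * r) + ENNReal.ofReal
          (Real.log (max (supB (fun z => G (cha i z)) r' (aff i x)) r') -
            Real.log (G (cha i (aff i x))))) ∂μ := by
          refine setLIntegral_mono' (part_meas i) fun x hx => ?_
          refine le_trans (ENNReal.ofReal_le_ofReal (Modulus_point hG hx hr h2r)) ?_
          exact ENNReal.ofReal_add_le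
      _ = (∫⁻ x in part i, ENNReal.ofReal ((n + 1) * r) ∂μ) + ∫⁻ x in part i, ENNReal.ofReal
          (Real.log (max (supB (fun z => G (cha i z)) r' (aff i x)) r') -
            Real.log (G (cha i (aff i x)))) ∂μ := lintegral_add_left measurable_const _
      _ ≤ ENNReal.ofReal ((n + 1) * r) + ENNReal.ofReal (K * r' ^ b₀) := by
          refine add_le_add ?_ hit
          rw [setLIntegral_const]
          exact (mul_le_mul' le_rfl prob_le_one).trans (le_of_eq (mul_one _))
  -- sum over the charts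
  have huniv : ∫⁻ x, ENNReal.ofReal
      (Real.log (max (sSup (G '' closedBall x (r * ‖x‖)) / ‖x‖) r) - Real.log (G x / ‖x‖)) ∂μ =
      ∫⁻ x in (⋃ i, part i), ENNReal.ofReal
      (Real.log (max (sSup (G '' closedBall x (r * ‖x‖)) / ‖x‖) r) - Real.log (G x / ‖x‖)) ∂μ := by
    rw [iUnion_part]
    have h1 : μ.restrict {(0 : Cn (n + 1))}ᶜ = μ :=
      Measure.restrict_eq_self_of_ae_mem (by
        rw [ae_iff]
        simpa using h0)
    rw [h1]
  rw [huniv]
  calc ∫⁻ x in (⋃ i, part i), ENNReal.ofReal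
          (Real.log (max (sSup (G '' closedBall x (r * ‖x‖)) / ‖x‖) r) - Real.log (G x / ‖x‖)) ∂μ
      ≤ ∑' i, ∫⁻ x in part i, ENNReal.ofReal
          (Real.log (max (sSup (G '' closedBall x (r * ‖x‖)) / ‖x‖) r) - Real.log (G x / ‖x‖)) ∂μ :=
        lintegral_iUnion_le _ _
    _ ≤ ∑' i : Fin (n + 1), (ENNReal.ofReal ((n + 1) * r) + ENNReal.ofReal (K * r' ^ b₀)) :=
        ENNReal.tsum_le_tsum hchart
    _ = (n + 1 : ℕ) * (ENNReal.ofReal ((n + 1) * r) + ENNReal.ofReal (K * r' ^ b₀)) := by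
        rw [tsum_fintype, Finset.sum_const, Finset.card_univ, Fintype.card_fin, nsmul_eq_mul]
    _ = ENNReal.ofReal ((n + 1) * ((n + 1) * r + K * r' ^ b₀)) := by
        rw [← ENNReal.ofReal_add (by positivity) (by positivity), ← ENNReal.ofReal_natCast,
          ← ENNReal.ofReal_mul (by positivity)]
        push_cast
        rfl
    _ ≤ ENNReal.ofReal ((n + 1) * ((n + 1) + K * (8 * (n + 1) ^ 2) ^ b₀) * r ^ min b₀ 1) := by
        refine ENNReal.ofReal_le_ofReal ?_
        have h1 : r ≤ r ^ min b₀ 1 := by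
          calc r = r ^ (1 : ℝ) := (Real.rpow_one r).symm
            _ ≤ r ^ min b₀ 1 := Real.rpow_le_rpow_of_exponent_ge hr hr1 (min_le_right _ _)
        have h2 : r' ^ b₀ ≤ (8 * (n + 1) ^ 2) ^ b₀ * r ^ min b₀ 1 := by
          rw [hr', Real.mul_rpow (by positivity) hr.le]
          exact mul_le_mul_of_nonneg_left
            (Real.rpow_le_rpow_of_exponent_ge hr hr1 (min_le_left _ _)) (by positivity)
        have h3 : (n + 1 : ℝ) * r ≤ (n + 1) * r ^ min b₀ 1 :=
          mul_le_mul_of_nonneg_left h1 (by positivity)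
        have h4 : K * r' ^ b₀ ≤ K * ((8 * (n + 1) ^ 2) ^ b₀ * r ^ min b₀ 1) :=
          mul_le_mul_of_nonneg_left h2 hK.le
        calc (n + 1 : ℝ) * ((n + 1) * r + K * r' ^ b₀)
            ≤ (n + 1) * ((n + 1) * r ^ min b₀ 1 + K * ((8 * (n + 1) ^ 2) ^ b₀ * r ^ min b₀ 1)) :=
              mul_le_mul_of_nonneg_left (add_le_add h3 h4) (by positivity)
          _ = (n + 1) * ((n + 1) + K * (8 * (n + 1) ^ 2) ^ b₀) * r ^ min b₀ 1 := by ring

end HMA
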