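import Pool.Agent.H85.MA.Defs

/-! # Module NET: finite nets in the unit ball with cardinality bound -/

open MeasureTheory Metric Set
open scoped ENNReal Topology ContDiff

namespace HMA

/-- volume bound for separated sets in the unit ball -/
theorem Net_sep {E : Type} [NormedAddCommGroup E] [NormedSpace ℝ E] [FiniteDimensional ℝ E]
    (s : Finset E) {ρ : ℝ} (hρ : 0 < ρ) (hρ1 : ρ ≤ 1) (hs : ∀ c ∈ s, ‖c‖ ≤ 1)
    (h : ∀ c ∈ s, ∀ d ∈ s, c ≠ d → ρ ≤ ‖c - d‖) :
    (s.card : ℝ) ≤ (3 / ρ) ^ Module.finrank ℝ E := by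
  borelize E
  let μ : Measure E := Measure.addHaar
  set δ : ℝ := ρ / 2 with hδ
  set r : ℝ := (3 : ℝ) / 2 with hr
  have ρpos : 0 < r := by norm_num [hr]
  have δpos : 0 < δ := by positivity
  set A := ⋃ c ∈ s, ball (c : E) δ with hA
  have D : Set.Pairwise (s : Set E) (Function.onFun Disjoint fun c => ball (c : E) δ) := by
    rintro c hc d hd hcd
    apply ball_disjoint_ball
    rw [dist_eq_norm]
    have := h c hc d hd hcd
    rw [hδ]
    linarith
  have A_subset : A ⊆ ball (0 : E) r := by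
    refine iUnion₂_subset fun x hx => ?_
    apply ball_subset_ball'
    rw [dist_zero_right]
    have := hs x hx
    rw [hδ, hr]
    linarith
  have I :
    (s.card : ℝ≥0∞) * ENNReal.ofReal (δ ^ Module.finrank ℝ E) * μ (ball 0 1) ≤
      ENNReal.ofReal (r ^ Module.finrank ℝ E) * μ (ball 0 1) :=
    calc
      (s.card : ℝ≥0∞) * ENNReal.ofReal (δ ^ Module.finrank ℝ E) * μ (ball 0 1) = μ A := by
        rw [hA, measure_biUnion_finset D fun c _ => measurableSet_ball]
        simp only [μ.addHaar_ball_of_pos _ δpos]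
        simp only [Finset.sum_const, nsmul_eq_mul, mul_assoc]
      _ ≤ μ (ball (0 : E) r) := measure_mono A_subset
      _ = ENNReal.ofReal (r ^ Module.finrank ℝ E) * μ (ball 0 1) := by
        simp only [μ.addHaar_ball_of_pos _ ρpos]
  have J : (s.card : ℝ≥0∞) * ENNReal.ofReal (δ ^ Module.finrank ℝ E) ≤
      ENNReal.ofReal (r ^ Module.finrank ℝ E) :=
    (ENNReal.mul_le_mul_iff_left (measure_ball_pos _ _ zero_lt_one).ne' measure_ball_lt_top.ne).1 I
  have K := ENNReal.toReal_le_of_le_ofReal (pow_nonneg ρpos.le _) J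
  rw [ENNReal.toReal_mul, ENNReal.toReal_natCast, ENNReal.toReal_ofReal (by positivity)] at K
  have e : (3 / ρ) ^ Module.finrank ℝ E = r ^ Module.finrank ℝ E / δ ^ Module.finrank ℝ E := by
    rw [← div_pow]
    congr 1
    rw [hr, hδ]
    field_simp
  rw [e, le_div_iff₀ (by positivity)]
  exact K

theorem net (n : ℕ) : ∃ B : ℝ, 1 ≤ B ∧ ∀ (W : Type) [NormedAddCommGroup W]
    [InnerProductSpace ℂ W] [FiniteDimensional ℂ W], Module.finrank ℂ W = n →
    ∀ (S : Set W), (∀ x ∈ S, ‖x‖ ≤ 1) → ∀ ρ₁ : ℝ, 0 < ρ₁ → ρ₁ ≤ 1 →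
      ∃ T : Finset W, (↑T : Set W) ⊆ S ∧ (T.card : ℝ) ≤ (B / ρ₁) ^ (2 * n) ∧
        ∀ x ∈ S, ∃ e ∈ T, ‖x - e‖ ≤ ρ₁ := by
  classical
  refine ⟨3, by norm_num, ?_⟩
  intro W _ _ _ hW S hS ρ hρ hρ1
  have hfin : Module.finrank ℝ W = 2 * n := by
    rw [finrank_real_of_complex, hW]
  have hfd : FiniteDimensional ℝ W := FiniteDimensional.complexToReal W
  have hcard : ∀ T : Finset W, (↑T : Set W) ⊆ S →
      (∀ c ∈ T, ∀ d ∈ T, c ≠ d → ρ < ‖c - d‖) → (T.card : ℝ) ≤ (3 / ρ) ^ (2 * n) := by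
    intro T hT hsep
    have h := Net_sep T hρ hρ1 (fun c hc => hS c (hT hc))
      (fun c hc d hd hcd => (hsep c hc d hd hcd).le)
    rwa [hfin] at h
  let P : ℕ → Prop := fun m => ∃ T : Finset W, (↑T : Set W) ⊆ S ∧
      (∀ c ∈ T, ∀ d ∈ T, c ≠ d → ρ < ‖c - d‖) ∧ T.card = m
  have hP0 : P 0 := ⟨∅, by simp, by simp, rfl⟩
  have hbd : ∀ m, P m → m ≤ ⌊(3 / ρ) ^ (2 * n)⌋₊ := by
    rintro m ⟨T, hT, hsep, rfl⟩
    exact Nat.le_floor (hcard T hT hsep)
  obtain ⟨T, hT, hsep, hTm⟩ := Nat.findGreatest_spec (P := P) (Nat.zero_le ⌊(3 / ρ) ^ (2 * n)⌋₊) hP0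
  refine ⟨T, hT, hcard T hT hsep, ?_⟩
  intro x hx
  by_contra hcon
  push Not at hcon
  have hxT : x ∉ T := by
    intro hxT
    have := hcon x hxT
    rw [sub_self, norm_zero] at this
    exact absurd this (not_lt.2 hρ.le)
  have hPm : P (T.card + 1) := by
    refine ⟨insert x T, ?_, ?_, Finset.card_insert_of_notMem hxT⟩
    · intro y hy
      rcases Finset.mem_insert.1 (Finset.mem_coe.1 hy) with rfl | hy
      · exact hx
      · exact hT hy
    · intro c hc d hd hcd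
      rcases Finset.mem_insert.1 hc with hc' | hc'
      · rcases Finset.mem_insert.1 hd with hd' | hd'
        · exact absurd (hc'.trans hd'.symm) hcd
        · rw [hc']
          exact hcon d hd'
      · rcases Finset.mem_insert.1 hd with hd' | hd'
        · rw [hd', norm_sub_rev]
          exact hcon c hc'
        · exact hsep c hc' d hd' hcd
  have h1 := Nat.le_findGreatest (P := P) (hbd _ hPm) hPm
  omega

end HMA
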