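import Pool.Agent.H85.MA.Defs

/-! # Module RATIO: polynomials vary slowly far from their zeros -/

open MeasureTheory Metric Set
open scoped ENNReal Topology ContDiff

namespace HMA

/-- the restriction of `P` to the line `z + t v` -/
noncomputable def RatioLine {n : ℕ} (P : MvPolynomial (Fin n) ℂ) (z v : Cn n) : Polynomial ℂ :=
  MvPolynomial.aeval (fun i => Polynomial.C (z i) + Polynomial.X * Polynomial.C (v i)) P

theorem RatioLine_eval {n : ℕ} (P : MvPolynomial (Fin n) ℂ) (z v : Cn n) (t : ℂ) :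
    (RatioLine P z v).eval t = ev P (z + t • v) := by
  unfold RatioLine ev
  induction P using MvPolynomial.induction_on with
  | C a => simp
  | add p q hp hq => simp only [map_add, Polynomial.eval_add, hp, hq]
  | mul_X p i hp =>
    simp only [map_mul, Polynomial.eval_mul, hp, MvPolynomial.aeval_X, MvPolynomial.eval_X]
    simp
    exact Or.inl (mul_comm _ _)

theorem RatioLine_natDegree {n : ℕ} (P : MvPolynomial (Fin n) ℂ) (z v : Cn n) :
    (RatioLine P z v).natDegree ≤ P.totalDegree := by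
  unfold RatioLine
  rw [MvPolynomial.aeval_def, MvPolynomial.eval₂_eq]
  refine Polynomial.natDegree_sum_le_of_forall_le _ _ ?_
  intro m hm
  refine (Polynomial.natDegree_mul_le).trans ?_
  have h1 : (algebraMap ℂ (Polynomial ℂ) (MvPolynomial.coeff m P)).natDegree = 0 :=
    Polynomial.natDegree_C _
  rw [h1, zero_add]
  refine (Polynomial.natDegree_prod_le _ _).trans ?_
  have h2 : ∑ i ∈ m.support, ((Polynomial.C (z i) + Polynomial.X * Polynomial.C (v i)) ^
      (m i)).natDegree ≤ ∑ i ∈ m.support, m i := by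
    refine Finset.sum_le_sum fun i _ => ?_
    refine Polynomial.natDegree_pow_le.trans ?_
    have h3 : (Polynomial.C (z i) + Polynomial.X * Polynomial.C (v i)).natDegree ≤ 1 := by
      refine (Polynomial.natDegree_add_le _ _).trans ?_
      rw [Polynomial.natDegree_C]
      refine max_le zero_le_one ?_
      refine (Polynomial.natDegree_mul_le).trans ?_
      rw [Polynomial.natDegree_C, Polynomial.natDegree_X]
    calc m i * (Polynomial.C (z i) + Polynomial.X * Polynomial.C (v i)).natDegree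
        ≤ m i * 1 := Nat.mul_le_mul_left _ h3
      _ = m i := mul_one _
  refine h2.trans ?_
  have h4 := MvPolynomial.le_totalDegree hm
  exact h4

theorem ratio {n D : ℕ} {P : MvPolynomial (Fin n) ℂ} (hD : P.totalDegree ≤ D) {r r' : ℝ}
    (hr : 0 < r) (hr' : 0 < r') {z z' : Cn n} (hz : z ∉ affZ P r') (hzz : ‖z' - z‖ ≤ r) :
    ‖ev P z'‖ ≤ (1 + r / r') ^ D * ‖ev P z‖ := by
  classical
  have hone : 1 ≤ 1 + r / r' := by
    have : 0 < r / r' := div_pos hr hr'
    linarith
  by_cases hv0 : z' - z = 0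
  · have hz' : z' = z := sub_eq_zero.1 hv0
    rw [hz']
    calc ‖ev P z‖ = 1 * ‖ev P z‖ := (one_mul _).symm
      _ ≤ (1 + r / r') ^ D * ‖ev P z‖ :=
        mul_le_mul_of_nonneg_right (one_le_pow₀ hone) (norm_nonneg _)
  set v : Cn n := z' - z with hv
  have hvpos : 0 < ‖v‖ := norm_pos_iff.2 hv0
  set p := RatioLine P z v with hp
  have hp1 : p.eval 1 = ev P z' := by
    rw [hp, RatioLine_eval, hv]
    congr 1
    rw [one_smul]
    abel
  have hp0 : p.eval 0 = ev P z := by
    rw [hp, RatioLine_eval, zero_smul, add_zero]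
  have hpz : ev P z ≠ 0 := by
    intro h0
    refine hz ⟨z, h0, ?_⟩
    rw [sub_self, norm_zero]
    exact hr'.le
  have hpne : p ≠ 0 := by
    intro h0
    rw [h0, Polynomial.eval_zero] at hp0
    exact hpz hp0.symm
  have hroot : ∀ w ∈ p.roots, r' < ‖w‖ * ‖v‖ := by
    intro w hw
    have h1 : p.eval w = 0 := (Polynomial.mem_roots hpne).1 hw
    rw [hp, RatioLine_eval] at h1
    by_contra hcon
    refine hz ⟨z + w • v, h1, ?_⟩
    rw [add_sub_cancel_left, norm_smul]
    exact not_lt.1 hcon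
  have hs : p.Splits := IsAlgClosed.splits p
  rw [← hp1, ← hp0, hs.eval_eq_prod_roots 1, hs.eval_eq_prod_roots 0, norm_mul, norm_mul]
  have hnorm : ∀ (m : Multiset ℂ) (g : ℂ → ℂ), ‖(m.map g).prod‖ = (m.map fun x => ‖g x‖).prod := by
    intro m g
    induction m using Multiset.induction_on with
    | empty => simp
    | cons a m ih => simp only [Multiset.map_cons, Multiset.prod_cons, norm_mul, ih]
  rw [hnorm, hnorm]
  have hmain : (p.roots.map fun x => ‖(1 : ℂ) - x‖).prod ≤
      (p.roots.map fun x => (1 + r / r') * ‖(0 : ℂ) - x‖).prod := by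
    refine Multiset.prod_map_le_prod_map₀ _ _ (fun x _ => norm_nonneg _) ?_
    intro x hx
    have h1 := hroot x hx
    have h2 : ‖(0 : ℂ) - x‖ = ‖x‖ := by rw [zero_sub, norm_neg]
    rw [h2]
    have h3 : ‖(1 : ℂ) - x‖ ≤ 1 + ‖x‖ := by
      refine (norm_sub_le _ _).trans ?_
      rw [norm_one]
    have h4 : 1 ≤ r / r' * ‖x‖ := by
      rw [div_mul_eq_mul_div, le_div_iff₀ hr', one_mul]
      have h5 : ‖x‖ * ‖v‖ ≤ ‖x‖ * r := mul_le_mul_of_nonneg_left hzz (norm_nonneg _)
      linarith
    calc ‖(1 : ℂ) - x‖ ≤ 1 + ‖x‖ := h3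
      _ ≤ r / r' * ‖x‖ + ‖x‖ := by linarith
      _ = (1 + r / r') * ‖x‖ := by ring
  rw [Multiset.prod_map_mul, Multiset.map_const', Multiset.prod_replicate] at hmain
  have hcard : Multiset.card p.roots ≤ D :=
    (Polynomial.card_roots' p).trans ((RatioLine_natDegree P z v).trans hD)
  have hprod0 : 0 ≤ (p.roots.map fun x => ‖(0 : ℂ) - x‖).prod := by
    refine Multiset.prod_nonneg ?_
    intro a ha
    obtain ⟨x, _, rfl⟩ := Multiset.mem_map.1 ha
    exact norm_nonneg _
  calc ‖p.leadingCoeff‖ * (p.roots.map fun x => ‖(1 : ℂ) - x‖).prod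
      ≤ ‖p.leadingCoeff‖ * ((1 + r / r') ^ Multiset.card p.roots *
        (p.roots.map fun x => ‖(0 : ℂ) - x‖).prod) :=
        mul_le_mul_of_nonneg_left hmain (norm_nonneg _)
    _ ≤ ‖p.leadingCoeff‖ * ((1 + r / r') ^ D *
        (p.roots.map fun x => ‖(0 : ℂ) - x‖).prod) := by
        refine mul_le_mul_of_nonneg_left ?_ (norm_nonneg _)
        exact mul_le_mul_of_nonneg_right (pow_le_pow_right₀ hone hcard) hprod0
    _ = _ := by ring

end HMA
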