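import Pool.Agent.H85.MA.Approx
import Pool.Agent.H85.MA.Ratio
import Pool.Agent.H85.MA.SupB

/-! # Module ONESTEP: comparison of the scales `r` and `2 r^2` -/

open MeasureTheory Metric Set
open scoped ENNReal Topology ContDiff

namespace HMA

/-- pointwise estimate off the bad set -/
theorem OneStep_aux1 {n : ℕ} {R : ℝ} {K : ℕ} {g : Cn n → ℝ} (hg : PshS g)
    {r : ℝ} (hr : 0 < r) (hr4 : r ≤ 1 / 4) {m : ℕ} (hm : 1 ≤ m) {N : ℕ}
    {P : Fin N → MvPolynomial (Fin n) ℂ} (hP : ∀ j, (P j).totalDegree ≤ m + K)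
    {E : ℝ} (hE : 0 < E)
    (h : ∀ z : Cn n, ‖z‖ ≤ R + 1 →
      Real.exp (2 * m * g z) ≤ E * ∑ j, ‖ev (P j) z‖ ^ 2 ∧
      ∃ z' : Cn n, ‖z' - z‖ ≤ 2 * r ^ 2 ∧
        ∑ j, ‖ev (P j) z‖ ^ 2 ≤ E * Real.exp (2 * m * g z'))
    {z : Cn n} (hz : ‖z‖ ≤ R) (hzB : ∀ j, z ∉ affZ (P j) (Real.sqrt r)) :
    supB g r z - supB g (2 * r ^ 2) z ≤ (Real.log E + ((m : ℝ) + K) * Real.sqrt r) / m := by
  obtain ⟨z₁, hz₁, hs⟩ := supB_attained hg.usc hr.le z
  have hz₁R : ‖z₁‖ ≤ R + 1 := by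
    have : ‖z₁‖ ≤ ‖z₁ - z‖ + ‖z‖ := by
      simpa using norm_add_le (z₁ - z) z
    linarith
  obtain ⟨h1, -⟩ := h z₁ hz₁R
  obtain ⟨-, z', hz', h2⟩ := h z (by linarith)
  have hle : g z' ≤ supB g (2 * r ^ 2) z := le_supB hg.usc hz'
  have hsr : 0 < Real.sqrt r := Real.sqrt_pos.mpr hr
  have hm' : (0 : ℝ) < m := by exact_mod_cast hm
  have hrat : ∀ j, ‖ev (P j) z₁‖ ^ 2 ≤
      Real.exp (2 * (((m : ℝ) + K) * Real.sqrt r)) * ‖ev (P j) z‖ ^ 2 := by
    intro j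
    have h3 := ratio (hP j) hr hsr (hzB j) hz₁
    rw [Real.div_sqrt] at h3
    have h4 : (1 + Real.sqrt r) ^ (m + K) ≤ Real.exp (((m : ℝ) + K) * Real.sqrt r) := by
      have h5 : 1 + Real.sqrt r ≤ Real.exp (Real.sqrt r) := by
        have := Real.add_one_le_exp (Real.sqrt r); linarith
      calc (1 + Real.sqrt r) ^ (m + K) ≤ (Real.exp (Real.sqrt r)) ^ (m + K) :=
            pow_le_pow_left₀ (by positivity) h5 _
        _ = Real.exp (((m : ℝ) + K) * Real.sqrt r) := by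
            rw [← Real.exp_nat_mul]; push_cast; ring_nf
    have h6 : ‖ev (P j) z₁‖ ≤ Real.exp (((m : ℝ) + K) * Real.sqrt r) * ‖ev (P j) z‖ :=
      h3.trans (mul_le_mul_of_nonneg_right h4 (norm_nonneg _))
    calc ‖ev (P j) z₁‖ ^ 2 ≤ (Real.exp (((m : ℝ) + K) * Real.sqrt r) * ‖ev (P j) z‖) ^ 2 :=
          pow_le_pow_left₀ (norm_nonneg _) h6 2
      _ = Real.exp (2 * (((m : ℝ) + K) * Real.sqrt r)) * ‖ev (P j) z‖ ^ 2 := by
          rw [mul_pow, ← Real.exp_nat_mul]; push_cast; ring_nf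
  have hsum : ∑ j, ‖ev (P j) z₁‖ ^ 2 ≤
      Real.exp (2 * (((m : ℝ) + K) * Real.sqrt r)) * ∑ j, ‖ev (P j) z‖ ^ 2 := by
    rw [Finset.mul_sum]
    exact Finset.sum_le_sum fun j _ => hrat j
  have hEe : E = Real.exp (Real.log E) := (Real.exp_log hE).symm
  have hfin : Real.exp (2 * m * g z₁) ≤ Real.exp (Real.log E +
      2 * (((m : ℝ) + K) * Real.sqrt r) + Real.log E + 2 * m * g z') := by
    calc Real.exp (2 * m * g z₁) ≤ E * ∑ j, ‖ev (P j) z₁‖ ^ 2 := h1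
      _ ≤ E * (Real.exp (2 * (((m : ℝ) + K) * Real.sqrt r)) * ∑ j, ‖ev (P j) z‖ ^ 2) := by
          gcongr
      _ ≤ E * (Real.exp (2 * (((m : ℝ) + K) * Real.sqrt r)) * (E * Real.exp (2 * m * g z'))) := by
          gcongr
      _ = _ := by
          rw [Real.exp_add, Real.exp_add, Real.exp_add, Real.exp_log hE]; ring
  have hfin2 := Real.exp_le_exp.mp hfin
  rw [hs, le_div_iff₀ hm']
  nlinarith [mul_le_mul_of_nonneg_left hle hm'.le]

/-- numerical estimate of the error -/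
theorem OneStep_aux2 {η : ℝ} (hη : 0 < η) (hη1 : η ≤ 1) {K : ℕ} (hK : 1 ≤ K) {a : ℝ} (ha : 0 ≤ a)
    {r : ℝ} (hr : 0 < r) (hr4 : r ≤ 1 / 4) {m : ℕ} (hm1 : r ^ (-η) ≤ m) (hm2 : (m : ℝ) ≤ 2 * r ^ (-η)) :
    (Real.log ((K * (m + 1 + a + 1) / r ^ 2) ^ K) + ((m : ℝ) + K) * Real.sqrt r) / m ≤
      (K * (K * (4 + a) + 6 / η) + 1 + K) * r ^ (η / 2) := by
  have hr1 : r ≤ 1 := by linarith
  have hK' : (1 : ℝ) ≤ K := by exact_mod_cast hK
  set y : ℝ := r ^ (-(η / 2)) with hy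
  have hy1 : 1 ≤ y := Real.one_le_rpow_of_pos_of_le_one_of_nonpos hr hr1 (by linarith)
  have hy0 : 0 < y := by linarith
  have hyy : r ^ (-η) = y * y := by
    rw [hy, ← Real.rpow_add hr]; ring_nf
  have hyinv : r ^ (η / 2) = y⁻¹ := by
    rw [hy, ← Real.rpow_neg hr.le, neg_neg]
  have hm0 : (0 : ℝ) < m := lt_of_lt_of_le (Real.rpow_pos_of_pos hr _) hm1
  have hlogr : Real.log (1 / r) ≤ 2 / η * y := by
    have h1 := Real.log_le_rpow_div (x := 1 / r) (ε := η / 2) (by positivity) (by positivity)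
    have h2 : (1 / r) ^ (η / 2) = y := by
      rw [hy, one_div, Real.inv_rpow hr.le, Real.rpow_neg hr.le]
    rw [h2] at h1
    calc Real.log (1 / r) ≤ y / (η / 2) := h1
      _ = 2 / η * y := by field_simp
  have hlogE : Real.log ((K * (m + 1 + a + 1) / r ^ 2) ^ K) ≤ K * (K * (4 + a) + 6 / η) * y := by
    rw [Real.log_pow]
    have hpos : 0 < (K * ((m : ℝ) + 1 + a + 1) / r ^ 2) := by positivity
    have h1 : (K * ((m : ℝ) + 1 + a + 1) / r ^ 2) ≤ (K * (4 + a)) * (1 / r) ^ 3 := by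
      have h2 : r ^ (-η) ≤ 1 / r := by
        calc r ^ (-η) ≤ r ^ (-1 : ℝ) := Real.rpow_le_rpow_of_exponent_ge hr hr1 (by linarith)
          _ = 1 / r := by rw [Real.rpow_neg_one, one_div]
      have h3 : 1 ≤ 1 / r := by rw [le_div_iff₀ hr]; linarith
      have h4 : (m : ℝ) + 1 + a + 1 ≤ (4 + a) * (1 / r) := by nlinarith
      calc (K * ((m : ℝ) + 1 + a + 1) / r ^ 2) ≤ (K * ((4 + a) * (1 / r)) / r ^ 2) := by
            gcongr
        _ = (K * (4 + a)) * (1 / r) ^ 3 := by field_simp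
    have h5 : Real.log (K * ((m : ℝ) + 1 + a + 1) / r ^ 2) ≤
        K * (4 + a) + 3 * Real.log (1 / r) := by
      calc Real.log (K * ((m : ℝ) + 1 + a + 1) / r ^ 2) ≤
            Real.log ((K * (4 + a)) * (1 / r) ^ 3) := Real.log_le_log hpos h1
        _ = Real.log (K * (4 + a)) + 3 * Real.log (1 / r) := by
            rw [Real.log_mul (by positivity) (by positivity), Real.log_pow]; norm_num
        _ ≤ K * (4 + a) + 3 * Real.log (1 / r) := by
            have := Real.log_le_self (x := K * (4 + a)) (by positivity)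
            linarith
    have h6 : Real.log (K * ((m : ℝ) + 1 + a + 1) / r ^ 2) ≤ (K * (4 + a) + 6 / η) * y := by
      have h7 : (K : ℝ) * (4 + a) ≤ K * (4 + a) * y := by
        have : 0 ≤ (K : ℝ) * (4 + a) := by positivity
        nlinarith
      have h8 : 3 * Real.log (1 / r) ≤ 6 / η * y := by
        calc 3 * Real.log (1 / r) ≤ 3 * (2 / η * y) := by linarith
          _ = 6 / η * y := by ring
      nlinarith
    calc (K : ℝ) * Real.log (K * ((m : ℝ) + 1 + a + 1) / r ^ 2) ≤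
          K * ((K * (4 + a) + 6 / η) * y) := by gcongr
      _ = K * (K * (4 + a) + 6 / η) * y := by ring
  have hsq : Real.sqrt r ≤ y⁻¹ := by
    rw [← hyinv, Real.sqrt_eq_rpow]
    exact Real.rpow_le_rpow_of_exponent_ge hr hr1 (by linarith)
  have hm1' : 1 ≤ (m : ℝ) := by
    have : (1 : ℝ) ≤ y * y := by nlinarith
    linarith [hyy ▸ hm1]
  have h9 : ((m : ℝ) + K) * Real.sqrt r ≤ (1 + K) * y⁻¹ * m := by
    have h10 : (m : ℝ) + K ≤ (1 + K) * m := by nlinarith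
    calc ((m : ℝ) + K) * Real.sqrt r ≤ ((1 + K) * m) * y⁻¹ := by gcongr
      _ = (1 + K) * y⁻¹ * m := by ring
  have h11 : K * (K * (4 + a) + 6 / η) * y ≤ K * (K * (4 + a) + 6 / η) * y⁻¹ * m := by
    have h12 : y ≤ y⁻¹ * m := by
      rw [inv_mul_eq_div, le_div_iff₀ hy0, ← hyy]; exact hm1
    have h13 : 0 ≤ K * (K * (4 + a) + 6 / η) := by positivity
    calc K * (K * (4 + a) + 6 / η) * y ≤ K * (K * (4 + a) + 6 / η) * (y⁻¹ * m) := by gcongr
      _ = K * (K * (4 + a) + 6 / η) * y⁻¹ * m := by ring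
  rw [hyinv, div_le_iff₀ hm0]
  calc Real.log ((K * (m + 1 + a + 1) / r ^ 2) ^ K) + ((m : ℝ) + K) * Real.sqrt r ≤
        K * (K * (4 + a) + 6 / η) * y⁻¹ * m + (1 + K) * y⁻¹ * m := by linarith
    _ = _ := by ring

theorem one_step (n : ℕ) (hn : 1 ≤ n) {C c : ℝ} (hC : 0 < C) (hc : 0 < c) : ∃ b : ℝ, 0 < b ∧
    ∀ R a : ℝ, 1 ≤ R → 0 ≤ a → ∃ K : ℝ, 0 < K ∧
    ∀ (ν : Measure (Cn n)), ν univ ≤ 1 → ν {z | R < ‖z‖} = 0 → AffN n ν C c →
      ∀ g : Cn n → ℝ, PshS g → (∀ z, -1 ≤ g z) → (∀ z, g z ≤ Real.log (1 + ‖z‖ ^ 2) / 2 + a) →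
        ∀ r : ℝ, 0 < r → r ≤ 1 / 4 →
          ∫⁻ z, ENNReal.ofReal (supB g r z - supB g (2 * r ^ 2) z) ∂ν ≤
            ENNReal.ofReal (K * r ^ b) := by
  have hnC : (0 : ℝ) < n + C := by positivity
  set η : ℝ := min (c / (4 * (n + C))) 1 with hη
  have hη0 : 0 < η := lt_min (by positivity) one_pos
  have hη1 : η ≤ 1 := min_le_right _ _
  have hηc : η * (n + C) ≤ c / 4 := by
    have : η ≤ c / (4 * (n + C)) := min_le_left _ _
    calc η * (n + C) ≤ c / (4 * (n + C)) * (n + C) := by gcongr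
      _ = c / 4 := by field_simp
  refine ⟨min (η / 2) (c / 4), lt_min (by positivity) (by positivity), ?_⟩
  intro R a hR ha
  obtain ⟨K, hK, hA⟩ := approx n hn (R + 1) (by linarith)
  set K₂ : ℝ := K * (K * (4 + a) + 6 / η) + 1 + K with hK₂
  set M : ℝ := Real.log (1 + (R + 1) ^ 2) / 2 + a + 1 with hM
  set K₃ : ℝ := C * (2 + K) ^ ((n : ℝ) + C) with hK₃
  have hK₂0 : 0 < K₂ := by positivity
  have hlogpos : 0 ≤ Real.log (1 + (R + 1) ^ 2) := Real.log_nonneg (by nlinarith)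
  have hM0 : 0 < M := by linarith
  have hK₃0 : 0 < K₃ := by positivity
  refine ⟨K₂ + M * K₃, by positivity, ?_⟩
  intro ν hν1 hνR hN g hg hg1 hgu r hr hr4
  have hr1 : r ≤ 1 := by linarith
  have hx1 : 1 ≤ r ^ (-η) := Real.one_le_rpow_of_pos_of_le_one_of_nonpos hr hr1 (by linarith)
  set m : ℕ := ⌈r ^ (-η)⌉₊ with hm
  have hm1 : r ^ (-η) ≤ m := Nat.le_ceil _
  have hm2 : (m : ℝ) ≤ 2 * r ^ (-η) := by
    have := Nat.ceil_lt_add_one (a := r ^ (-η)) (by linarith)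
    linarith
  have hm1' : 1 ≤ m := by
    have : (1 : ℝ) ≤ m := hx1.trans hm1
    exact_mod_cast this
  obtain ⟨N, P, hNle, hPj, hPz⟩ := hA g 1 a (r ^ 2) m hg zero_le_one ha (by positivity)
    (by nlinarith) hm1' hg1 hgu
  set E : ℝ := (K * (m + 1 + a + 1) / r ^ 2) ^ K with hE
  have hK' : (1 : ℝ) ≤ K := by exact_mod_cast hK
  have hE0 : 0 < E := by positivity
  set B : Set (Cn n) := ⋃ j, affZ (P j) (Real.sqrt r) with hB
  have hgood : ∀ z : Cn n, ‖z‖ ≤ R → z ∉ B →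
      supB g r z - supB g (2 * r ^ 2) z ≤ K₂ * r ^ (η / 2) := by
    intro z hz hzB
    have h1 := OneStep_aux1 (R := R) hg hr hr4 hm1' (fun j => (hPj j).2) hE0 hPz hz
      (fun j hj => hzB (mem_iUnion.mpr ⟨j, hj⟩))
    exact h1.trans (OneStep_aux2 hη0 hη1 hK ha hr hr4 hm1 hm2)
  have hall : ∀ z : Cn n, ‖z‖ ≤ R → supB g r z - supB g (2 * r ^ 2) z ≤ M := by
    intro z hz
    obtain ⟨z₁, hz₁, hs⟩ := supB_attained hg.usc hr.le z
    have hz₁R : ‖z₁‖ ≤ R + 1 := by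
      have : ‖z₁‖ ≤ ‖z₁ - z‖ + ‖z‖ := by
        simpa using norm_add_le (z₁ - z) z
      linarith
    have h2 : g z ≤ supB g (2 * r ^ 2) z := le_supB hg.usc (by simp; positivity)
    have h3 := hgu z₁
    have h4 : Real.log (1 + ‖z₁‖ ^ 2) ≤ Real.log (1 + (R + 1) ^ 2) := by
      apply Real.log_le_log (by positivity)
      gcongr
    rw [hs, hM]
    linarith [hg1 z]
  have hνB : ν B ≤ ENNReal.ofReal (K₃ * r ^ (c / 4)) := by
    have hsq0 : 0 < Real.sqrt r := Real.sqrt_pos.mpr hr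
    have hsq1 : Real.sqrt r < 1 := by
      rw [Real.sqrt_lt' one_pos]; linarith
    have hD : 1 ≤ m + K := by omega
    have h1 : ∀ j, ν (affZ (P j) (Real.sqrt r)) ≤
        ENNReal.ofReal (C * ((m + K : ℕ) : ℝ) ^ C * (Real.sqrt r) ^ c) := fun j =>
      hN (m + K) (P j) hD (hPj j).1 (hPj j).2 _ hsq0 hsq1
    have h2 : ν B ≤ ∑ j : Fin N, ENNReal.ofReal (C * ((m + K : ℕ) : ℝ) ^ C * (Real.sqrt r) ^ c) :=
      (measure_iUnion_fintype_le ν _).trans (Finset.sum_le_sum fun j _ => h1 j)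
    refine h2.trans ?_
    rw [Finset.sum_const, Finset.card_univ, Fintype.card_fin, nsmul_eq_mul,
      ← ENNReal.ofReal_natCast, ← ENNReal.ofReal_mul (by positivity)]
    apply ENNReal.ofReal_le_ofReal
    have hMK : ((m + K : ℕ) : ℝ) ≤ (2 + K) * r ^ (-η) := by
      push_cast; nlinarith
    have hsqr : (Real.sqrt r) ^ c = r ^ (c / 2) := by
      rw [Real.sqrt_eq_rpow, ← Real.rpow_mul hr.le]; ring_nf
    have hNr : (N : ℝ) ≤ ((m + K : ℕ) : ℝ) ^ (n : ℝ) := by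
      rw [Real.rpow_natCast]; exact_mod_cast hNle
    have hDpos : (0 : ℝ) < ((m + K : ℕ) : ℝ) := by exact_mod_cast hD
    calc (N : ℝ) * (C * ((m + K : ℕ) : ℝ) ^ C * (Real.sqrt r) ^ c) ≤
          ((m + K : ℕ) : ℝ) ^ (n : ℝ) * (C * ((m + K : ℕ) : ℝ) ^ C * (Real.sqrt r) ^ c) := by
          gcongr
      _ = C * ((m + K : ℕ) : ℝ) ^ ((n : ℝ) + C) * r ^ (c / 2) := by
          rw [Real.rpow_add hDpos, hsqr]; ring
      _ ≤ C * ((2 + K) * r ^ (-η)) ^ ((n : ℝ) + C) * r ^ (c / 2) := by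
          gcongr
      _ = K₃ * (r ^ (-η * (n + C)) * r ^ (c / 2)) := by
          rw [Real.mul_rpow (by positivity) (by positivity), ← Real.rpow_mul hr.le, hK₃]; ring
      _ = K₃ * r ^ (-η * (n + C) + c / 2) := by rw [← Real.rpow_add hr]
      _ ≤ K₃ * r ^ (c / 4) := by
          have h5 : c / 4 ≤ -η * (n + C) + c / 2 := by linarith
          exact mul_le_mul_of_nonneg_left (Real.rpow_le_rpow_of_exponent_ge hr hr1 h5) hK₃0.le
  have hae : ∀ᵐ z ∂ν, ENNReal.ofReal (supB g r z - supB g (2 * r ^ 2) z) ≤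
      ENNReal.ofReal (K₂ * r ^ (η / 2)) + B.indicator (fun _ => ENNReal.ofReal M) z := by
    have h0 : ∀ᵐ z ∂ν, z ∉ {z : Cn n | R < ‖z‖} := measure_eq_zero_iff_ae_notMem.mp hνR
    filter_upwards [h0] with z hz
    have hz' : ‖z‖ ≤ R := not_lt.mp hz
    by_cases hzB : z ∈ B
    · rw [indicator_of_mem hzB]
      exact (ENNReal.ofReal_le_ofReal (hall z hz')).trans le_add_self
    · exact (ENNReal.ofReal_le_ofReal (hgood z hz' hzB)).trans le_self_add
  calc ∫⁻ z, ENNReal.ofReal (supB g r z - supB g (2 * r ^ 2) z) ∂ν ≤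
        ∫⁻ z, (ENNReal.ofReal (K₂ * r ^ (η / 2)) +
          B.indicator (fun _ => ENNReal.ofReal M) z) ∂ν := lintegral_mono_ae hae
    _ = ENNReal.ofReal (K₂ * r ^ (η / 2)) * ν univ +
          ∫⁻ z, B.indicator (fun _ => ENNReal.ofReal M) z ∂ν := by
        rw [lintegral_add_left measurable_const, lintegral_const]
    _ ≤ ENNReal.ofReal (K₂ * r ^ (η / 2)) * 1 +
          ENNReal.ofReal M * ENNReal.ofReal (K₃ * r ^ (c / 4)) := by
        gcongr
        exact (lintegral_indicator_const_le B _).trans (by gcongr)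
    _ = ENNReal.ofReal (K₂ * r ^ (η / 2) + M * (K₃ * r ^ (c / 4))) := by
        rw [mul_one, ← ENNReal.ofReal_mul hM0.le, ← ENNReal.ofReal_add (by positivity)
          (by positivity)]
    _ ≤ ENNReal.ofReal ((K₂ + M * K₃) * r ^ (min (η / 2) (c / 4))) := by
        apply ENNReal.ofReal_le_ofReal
        have h1 : r ^ (η / 2) ≤ r ^ (min (η / 2) (c / 4)) :=
          Real.rpow_le_rpow_of_exponent_ge hr hr1 (min_le_left _ _)
        have h2 : r ^ (c / 4) ≤ r ^ (min (η / 2) (c / 4)) :=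
          Real.rpow_le_rpow_of_exponent_ge hr hr1 (min_le_right _ _)
        calc K₂ * r ^ (η / 2) + M * (K₃ * r ^ (c / 4)) ≤
              K₂ * r ^ (min (η / 2) (c / 4)) + M * (K₃ * r ^ (min (η / 2) (c / 4))) := by
              gcongr
          _ = _ := by ring

end HMA
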