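import Pool.Agent.H85.MA.Disc1
import Pool.Agent.H85.MA.Disc2
import Pool.Agent.H85.MA.HPTop

/-! # Module PERT1: small perturbations with nonzero discriminant -/

open MeasureTheory Metric Set
open scoped ENNReal Topology ContDiff

namespace HMA

/-- the auxiliary polynomial -/
noncomputable def Pert1_A {V : Type} [NormedAddCommGroup V] [InnerProductSpace ℂ V] (d : ℕ) (p e : V) (x : V) : ℂ :=
  ∏ j ∈ Finset.range d, ((inner ℂ p x : ℂ) - (j : ℂ) * (inner ℂ e x : ℂ))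

theorem Pert1_hp {V : Type} [NormedAddCommGroup V] [InnerProductSpace ℂ V] (d : ℕ) (p e : V) :
    HP V d (Pert1_A d p e) := by
  have h := HP.prod (V := V) (Finset.range d) (d := fun _ => 1)
    (f := fun j x => (inner ℂ p x : ℂ) - (j : ℂ) * (inner ℂ e x : ℂ)) (by
      intro j _
      have h1 := HP.linear (((innerSL ℂ p) - (j : ℂ) • (innerSL ℂ e) : V →L[ℂ] ℂ) : V →ₗ[ℂ] ℂ)
      exact h1)
  rw [Finset.sum_const, Finset.card_range, smul_eq_mul, mul_one] at h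
  exact h

theorem Pert1_bound {V : Type} [NormedAddCommGroup V] [InnerProductSpace ℂ V] (d : ℕ) {p e : V}
    (hp : ‖p‖ = 1) (he : ‖e‖ = 1) (x : V) :
    ‖Pert1_A d p e x‖ ≤ (∏ j ∈ Finset.range d, (1 + (j : ℝ))) * ‖x‖ ^ d := by
  unfold Pert1_A
  rw [norm_prod]
  have h1 : (∏ j ∈ Finset.range d, (1 + (j : ℝ))) * ‖x‖ ^ d =
      ∏ j ∈ Finset.range d, ((1 + (j : ℝ)) * ‖x‖) := by
    rw [Finset.prod_mul_distrib, Finset.prod_const, Finset.card_range]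
  rw [h1]
  apply Finset.prod_le_prod
  · intro j _
    exact norm_nonneg _
  · intro j _
    refine (norm_sub_le _ _).trans ?_
    rw [norm_mul, Complex.norm_natCast]
    have h2 : ‖(inner ℂ p x : ℂ)‖ ≤ ‖x‖ := by
      have := norm_inner_le_norm (𝕜 := ℂ) p x
      rwa [hp, one_mul] at this
    have h3 : ‖(inner ℂ e x : ℂ)‖ ≤ ‖x‖ := by
      have := norm_inner_le_norm (𝕜 := ℂ) e x
      rwa [he, one_mul] at this
    have h4 : (j : ℝ) * ‖(inner ℂ e x : ℂ)‖ ≤ j * ‖x‖ := by gcongr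
    linarith

theorem Pert1_line {V : Type} [NormedAddCommGroup V] [InnerProductSpace ℂ V] (d : ℕ) {p e : V}
    (hp : ‖p‖ = 1) (he : ‖e‖ = 1) (hpe : inner ℂ p e = 0) (w : ℂ) :
    Pert1_A d p e (e + w • p) = ∏ j ∈ Finset.range d, (w - (j : ℂ)) := by
  unfold Pert1_A
  refine Finset.prod_congr rfl (fun j _ => ?_)
  have hep : inner ℂ e p = (0 : ℂ) := by
    rw [← inner_conj_symm, hpe, map_zero]
  rw [inner_add_right, inner_add_right, inner_smul_right, inner_smul_right, hpe, hep,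
    inner_self_eq_norm_sq_to_K, inner_self_eq_norm_sq_to_K, hp, he]
  simp

theorem Pert1_p {V : Type} [NormedAddCommGroup V] [InnerProductSpace ℂ V] (d : ℕ) {p e : V}
    (hp : ‖p‖ = 1) (hpe : inner ℂ p e = 0) : Pert1_A d p e p = 1 := by
  unfold Pert1_A
  apply Finset.prod_eq_one
  intro j _
  have hep : inner ℂ e p = (0 : ℂ) := by
    rw [← inner_conj_symm, hpe, map_zero]
  rw [hep, inner_self_eq_norm_sq_to_K, hp]
  simp

/-- choose `P' = P + s A`, `A x = ∏_{j<d} (⟪p,x⟫ - j ⟪e,x⟫)`, `s` small -/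
theorem pert {V : Type} [NormedAddCommGroup V] [InnerProductSpace ℂ V] [FiniteDimensional ℂ V]
    {d : ℕ} (hd : 1 ≤ d) {P : V → ℂ} (hP : HP V d P) {p e : V} (hp : ‖p‖ = 1) (he : ‖e‖ = 1)
    (hpe : inner ℂ p e = 0) (hPp : P p ≠ 0) {τ : ℝ} (hτ : 0 < τ) :
    ∃ (P' : V → ℂ) (f : ℕ → ↥(ℂ ∙ p)ᗮ → ℂ) (D : ↥(ℂ ∙ p)ᗮ → ℂ), HP V d P' ∧
      (∀ x, ‖P' x - P x‖ ≤ τ * ‖x‖ ^ d) ∧ P' p ≠ 0 ∧ (∀ k ≤ d, HP ↥(ℂ ∙ p)ᗮ (d - k) (f k)) ∧
      (∀ (z : ↥(ℂ ∙ p)ᗮ) (w : ℂ), P' (z + w • p) = ∑ k ∈ Finset.range (d + 1), f k z * w ^ k) ∧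
      (∀ z, f d z = P' p) ∧
      HP ↥(ℂ ∙ p)ᗮ (d * (d - 1)) D ∧ (∃ z, D z ≠ 0) ∧
      ∀ z, D z ≠ 0 → ∀ w : ℂ, P' (z + w • p) = 0 →
        (Polynomial.derivative (pol d (fun k => f k z))).eval w ≠ 0 := by
  have heo : e ∈ (ℂ ∙ p)ᗮ := by
    rw [Submodule.mem_orthogonal_singleton_iff_inner_right]
    exact hpe
  set e' : ↥(ℂ ∙ p)ᗮ := ⟨e, heo⟩ with he'
  have hA := Pert1_hp d p e
  obtain ⟨f0, hf1, hf2, hf3⟩ := hp_coeff ((ℂ ∙ p)ᗮ).subtype p hP
  obtain ⟨g, hg1, hg2, hg3⟩ := hp_coeff ((ℂ ∙ p)ᗮ).subtype p hA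
  rw [Pert1_p d hp hpe] at hg3
  have hpolg : pol d (fun k => g k e') = Lagrange.nodal (Finset.range d) (fun j : ℕ => (j : ℂ)) := by
    apply Polynomial.funext
    intro w
    rw [pol_eval, Lagrange.eval_nodal, ← hg2]
    exact Pert1_line d hp he hpe w
  have hsimple : ∀ w, (pol d (fun k => g k e')).eval w = 0 →
      (Polynomial.derivative (pol d (fun k => g k e'))).eval w ≠ 0 := by
    intro w hw
    rw [hpolg] at hw ⊢
    rw [Lagrange.eval_nodal, Finset.prod_eq_zero_iff] at hw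
    obtain ⟨i, hi, hwi⟩ := hw
    rw [sub_eq_zero] at hwi
    rw [hwi, Lagrange.eval_nodal_derivative_eval_node_eq hi, Lagrange.eval_nodal, Finset.prod_ne_zero_iff]
    intro j hj
    rw [sub_ne_zero]
    intro h
    exact (Finset.ne_of_mem_erase hj) (by exact_mod_cast h.symm)
  set M : ℝ := ∏ j ∈ Finset.range d, (1 + (j : ℝ)) with hM
  have hM0 : 0 < M := Finset.prod_pos (fun j _ => by positivity)
  have hPp0 : 0 < ‖P p‖ := norm_pos_iff.2 hPp
  obtain ⟨s, hs, hres⟩ := disc_pencil hd (fun k => f0 k e') (fun k => g k e') (by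
    show g d e' ≠ 0
    rw [hg3]; exact one_ne_zero) hsimple (τ := min (τ / M) (‖P p‖ / 2)) (lt_min (by positivity) (by positivity))
  have hs1 : ‖s‖ * M ≤ τ := by
    have := (lt_min_iff.1 hs).1.le
    rwa [le_div_iff₀ hM0] at this
  have hs2 : ‖s‖ < ‖P p‖ / 2 := (lt_min_iff.1 hs).2
  have hP'p : P p + s * Pert1_A d p e p ≠ 0 := by
    rw [Pert1_p d hp hpe, mul_one]
    intro h
    have h1 : P p = -s := eq_neg_of_add_eq_zero_left h
    rw [h1, norm_neg] at hs2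
    linarith [norm_nonneg s]
  have hfHP : ∀ k ≤ d, HP ↥(ℂ ∙ p)ᗮ (d - k) (fun z => f0 k z + s * g k z) := by
    intro k hk
    exact (hf1 k hk).add ((hg1 k hk).const_mul s)
  have hfd : ∀ z, f0 d z + s * g d z = P p + s * Pert1_A d p e p := by
    intro z
    rw [hf3, hg3, Pert1_p d hp hpe]
  have hsum : ∀ (z : ↥(ℂ ∙ p)ᗮ) (w : ℂ), P (z + w • p) + s * Pert1_A d p e (z + w • p) =
      ∑ k ∈ Finset.range (d + 1), (f0 k z + s * g k z) * w ^ k := by
    intro z w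
    have h1 := hf2 z w
    have h2 := hg2 z w
    rw [Submodule.subtype_apply] at h1 h2
    rw [h1, h2, Finset.mul_sum, ← Finset.sum_add_distrib]
    refine Finset.sum_congr rfl (fun k _ => ?_)
    ring
  refine ⟨fun x => P x + s * Pert1_A d p e x, fun k z => f0 k z + s * g k z, _, hP.add (hA.const_mul s), ?_,
    hP'p, hfHP, hsum, hfd, disc_hp hd _ hfHP hP'p hfd, ⟨e', hres⟩, ?_⟩
  · intro x
    rw [add_sub_cancel_left, norm_mul]
    calc ‖s‖ * ‖Pert1_A d p e x‖ ≤ ‖s‖ * (M * ‖x‖ ^ d) := by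
          gcongr
          exact Pert1_bound d hp he x
      _ = (‖s‖ * M) * ‖x‖ ^ d := by ring
      _ ≤ τ * ‖x‖ ^ d := by gcongr
  · intro z hz w hw
    refine disc_simple hd _ ?_ hz w ?_
    · show f0 d z + s * g d z ≠ 0
      rw [hfd]
      exact hP'p
    · rw [pol_eval, ← hsum]
      exact hw

end HMA
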