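import Pool.Agent.H85.MA.HPTop

/-! # Module PERT2: zero sets of perturbed polynomials -/

open MeasureTheory Metric Set
open scoped ENNReal Topology ContDiff

namespace HMA

theorem Pert2_pow_le (s : Multiset ℂ) {t : ℝ} (ht : 0 ≤ t) (h : ∀ w ∈ s, t ≤ ‖w‖) :
    t ^ s.card ≤ (s.map fun w => ‖w‖).prod := by
  induction s using Multiset.induction_on with
  | empty => simp
  | cons a s ih =>
    rw [Multiset.card_cons, Multiset.map_cons, Multiset.prod_cons, pow_succ']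
    have h1 := h a (Multiset.mem_cons_self a s)
    have h2 := ih (fun w hw => h w (Multiset.mem_cons_of_mem hw))
    have h3 : 0 ≤ t ^ s.card := by positivity
    have h4 : 0 ≤ ‖a‖ := norm_nonneg a
    calc t * t ^ s.card ≤ ‖a‖ * t ^ s.card := by gcongr
      _ ≤ ‖a‖ * (s.map fun w => ‖w‖).prod := by gcongr

theorem Pert2_norm_prod (s : Multiset ℂ) :
    ‖(s.map fun w => (0 : ℂ) - w).prod‖ = (s.map fun w => ‖w‖).prod := by
  induction s using Multiset.induction_on with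
  | empty => simp
  | cons a s ih =>
    rw [Multiset.map_cons, Multiset.prod_cons, Multiset.map_cons, Multiset.prod_cons, norm_mul, ih,
      zero_sub, norm_neg]

/-- a root of small modulus -/
theorem Pert2_root {q : Polynomial ℂ} (hd : 1 ≤ q.natDegree) :
    ∃ w : ℂ, q.eval w = 0 ∧ ‖q.leadingCoeff‖ * ‖w‖ ^ q.natDegree ≤ ‖q.eval 0‖ := by
  have hq0 : q ≠ 0 := by
    intro h
    rw [h, Polynomial.natDegree_zero] at hd
    omega
  have hcard : q.roots.card = q.natDegree := IsAlgClosed.card_roots_eq_natDegree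
  have hne : q.roots.toFinset.Nonempty := by
    rw [Multiset.toFinset_nonempty]
    intro h
    rw [h, Multiset.card_zero] at hcard
    omega
  obtain ⟨w, hw, hmin⟩ := Finset.exists_min_image q.roots.toFinset (fun w => ‖w‖) hne
  rw [Multiset.mem_toFinset] at hw
  refine ⟨w, (Polynomial.mem_roots hq0).1 hw, ?_⟩
  have h1 := Pert2_pow_le q.roots (norm_nonneg w) (fun x hx => hmin x (Multiset.mem_toFinset.2 hx))
  rw [(IsAlgClosed.splits q).eval_eq_prod_roots 0, norm_mul, Pert2_norm_prod, ← hcard]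
  gcongr

/-- the zero set of `P` is in a small neighbourhood of the zero set of `P'` (on lines parallel
to `p`: product of the roots) -/
theorem nearZ_pert {V : Type} [NormedAddCommGroup V] [InnerProductSpace ℂ V]
    [FiniteDimensional ℂ V] {d : ℕ} (hd : 1 ≤ d) {P P' : V → ℂ} (hP : HP V d P) (hP' : HP V d P')
    {p : V} (hp : ‖p‖ = 1) (hp' : 1 / 2 ≤ ‖P' p‖) {r : ℝ} (hr : 0 < r) (hr1 : r ≤ 1 / 2) {τ : ℝ}
    (hτ : τ ≤ (r / 4) ^ d) (hPP' : ∀ x, ‖P' x - P x‖ ≤ τ * ‖x‖ ^ d) :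
    nearZ P r ⊆ nearZ P' (2 * r) := by
  rintro x ⟨hx0, y, hy, hyx⟩
  obtain ⟨f, -, hf2, hf3⟩ := hp_coeff (LinearMap.id : V →ₗ[ℂ] V) p hP'
  have hPp : P' p ≠ 0 := by
    intro h
    rw [h, norm_zero] at hp'
    norm_num at hp'
  set q : Polynomial ℂ := pol d (fun k => f k y) with hq
  have hqe : ∀ w, q.eval w = P' (y + w • p) := by
    intro w
    have := hf2 y w
    rw [LinearMap.id_apply] at this
    rw [this, hq, pol, Polynomial.eval_finsetSum]
    simp
  have hqc : ∀ k, q.coeff k = if k ∈ Finset.range (d + 1) then f k y else 0 := by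
    intro k
    rw [hq, pol, Polynomial.finsetSum_coeff]
    simp only [Polynomial.coeff_C_mul, Polynomial.coeff_X_pow, mul_ite, mul_one, mul_zero]
    exact Finset.sum_ite_eq _ _ _
  have hqd : q.coeff d = P' p := by
    rw [hqc, if_pos (by simp), hf3]
  have hqnat : q.natDegree = d := by
    apply le_antisymm
    · rw [Polynomial.natDegree_le_iff_coeff_eq_zero]
      intro k hk
      rw [hqc, if_neg (by simp; omega)]
    · apply Polynomial.le_natDegree_of_ne_zero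
      rw [hqd]
      exact hPp
  obtain ⟨w, hw, hwle⟩ := Pert2_root (q := q) (by omega)
  have hlead : q.leadingCoeff = P' p := by
    rw [Polynomial.leadingCoeff, hqnat, hqd]
  rw [hlead, hqnat, hqe 0, zero_smul, add_zero] at hwle
  rw [hqe] at hw
  have hP'y : ‖P' y‖ ≤ τ * ‖y‖ ^ d := by
    have := hPP' y
    rwa [hy, sub_zero] at this
  have hw1 : ‖w‖ ^ d ≤ (r / 2 * ‖y‖) ^ d := by
    have h1 : 1 / 2 * ‖w‖ ^ d ≤ τ * ‖y‖ ^ d := by
      calc 1 / 2 * ‖w‖ ^ d ≤ ‖P' p‖ * ‖w‖ ^ d := by gcongr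
        _ ≤ ‖P' y‖ := hwle
        _ ≤ τ * ‖y‖ ^ d := hP'y
    have h2 : τ * ‖y‖ ^ d ≤ (r / 4) ^ d * ‖y‖ ^ d := by gcongr
    have h3 : (2 : ℝ) ≤ 2 ^ d := by
      calc (2 : ℝ) = 2 ^ 1 := by norm_num
        _ ≤ 2 ^ d := pow_le_pow_right₀ (by norm_num) hd
    have h4 : (r / 2 * ‖y‖) ^ d = 2 ^ d * ((r / 4) ^ d * ‖y‖ ^ d) := by
      rw [← mul_pow, ← mul_pow]
      congr 1
      ring
    rw [h4]
    have h5 : 0 ≤ (r / 4) ^ d * ‖y‖ ^ d := by positivity
    nlinarith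
  have hw2 : ‖w‖ ≤ r / 2 * ‖y‖ := by
    apply le_of_pow_le_pow_left₀ (by omega : d ≠ 0) (by positivity) hw1
  have hyn : ‖y‖ ≤ 3 / 2 * ‖x‖ := by
    have h1 : y = x + (y - x) := by abel
    calc ‖y‖ = ‖x + (y - x)‖ := by rw [← h1]
      _ ≤ ‖x‖ + ‖y - x‖ := norm_add_le _ _
      _ ≤ ‖x‖ + r * ‖x‖ := by gcongr
      _ ≤ 3 / 2 * ‖x‖ := by nlinarith [norm_nonneg x]
  refine ⟨hx0, y + w • p, hw, ?_⟩
  have h1 : y + w • p - x = (y - x) + w • p := by abel
  rw [h1]
  refine (norm_add_le _ _).trans ?_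
  rw [norm_smul, hp, mul_one]
  have h2 : r / 2 * ‖y‖ ≤ r / 2 * (3 / 2 * ‖x‖) := by gcongr
  nlinarith [norm_nonneg x]

end HMA
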