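import Pool.Agent.H85.MA.Jensen
import Pool.Agent.H85.MA.HPTop

/-! # Module POLYP: `|P|^(1/k)` is log-plurisubharmonic -/

open MeasureTheory Metric Set
open scoped ENNReal Topology ContDiff

namespace HMA

/-- restriction of a polynomial function to a complex line is a polynomial -/
theorem pf_line {V : Type} [AddCommGroup V] [Module ℂ V] {f : V → ℂ} (hf : f ∈ PF V) (a b : V) :
    ∃ q : Polynomial ℂ, ∀ ζ : ℂ, f (a + ζ • b) = q.eval ζ := by
  unfold PF at hf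
  induction hf using Algebra.adjoin_induction with
  | mem g hg =>
    obtain ⟨l, rfl⟩ := hg
    refine ⟨Polynomial.C (l a) + Polynomial.C (l b) * Polynomial.X, fun ζ => ?_⟩
    show l (a + ζ • b) = _
    rw [map_add, map_smul, smul_eq_mul, Polynomial.eval_add, Polynomial.eval_mul,
      Polynomial.eval_C, Polynomial.eval_C, Polynomial.eval_X, mul_comm]
  | algebraMap c =>
    refine ⟨Polynomial.C c, fun ζ => ?_⟩
    simp
  | add g h _ _ hg hh =>
    obtain ⟨q₁, h₁⟩ := hg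
    obtain ⟨q₂, h₂⟩ := hh
    refine ⟨q₁ + q₂, fun ζ => ?_⟩
    simp [h₁ ζ, h₂ ζ]
  | mul g h _ _ hg hh =>
    obtain ⟨q₁, h₁⟩ := hg
    obtain ⟨q₂, h₂⟩ := hh
    refine ⟨q₁ * q₂, fun ζ => ?_⟩
    simp [h₁ ζ, h₂ ζ]

theorem logPsh_pf {n : ℕ} {f : Cn n → ℂ} (hf : f ∈ PF (Cn n)) {s : ℝ} (hs : 0 < s) :
    LogPsh (fun x => ‖f x‖ ^ s) := by
  have hc : Continuous f := (PF.contDiff hf 0).continuous
  refine ⟨fun x => Real.rpow_nonneg (norm_nonneg _) _, ?_, ?_⟩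
  · exact (hc.norm.rpow_const (fun _ => Or.inr hs.le)).upperSemicontinuous
  · intro δ hδ a b
    obtain ⟨q, hq⟩ := pf_line hf a b
    have h0 : f a = q.eval 0 := by
      have := hq 0
      rwa [zero_smul, add_zero] at this
    have hj := jensen_poly q hs hδ
    simp only [hq, h0]
    exact hj

theorem omega_poly {n k : ℕ} (hk : 1 ≤ k) {P : Cn (n + 1) → ℂ} (hP : HP (Cn (n + 1)) k P)
    (h0 : ∃ x, P x ≠ 0) : OmegaPsh n (fun x => ‖P x‖ ^ ((k : ℝ)⁻¹)) := by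
  have hk0 : k ≠ 0 := by omega
  have hkp : (0 : ℝ) < (k : ℝ)⁻¹ := by positivity
  refine ⟨logPsh_pf hP.poly hkp, ?_, ?_⟩
  · intro c x
    show ‖P (c • x)‖ ^ ((k : ℝ)⁻¹) = ‖c‖ * ‖P x‖ ^ ((k : ℝ)⁻¹)
    rw [hP.hom c x, norm_mul, norm_pow, Real.mul_rpow (by positivity) (norm_nonneg _),
      Real.pow_rpow_inv_natCast (norm_nonneg _) hk0]
  · obtain ⟨x, hx⟩ := h0
    exact ⟨x, (Real.rpow_pos_of_pos (norm_pos_iff.mpr hx) _).ne'⟩

end HMA
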