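import Pool.Agent.H85.MA.HPTop

/-! # Module QHOM: homogenisation of the auxiliary polynomials and lower bound of their size -/

open MeasureTheory Metric Set
open scoped ENNReal Topology ContDiff

namespace HMA

/-- one variable: a polynomial with degree less than `K` vanishing at `0, …, K - 1` is zero -/
theorem QHom_one (K : ℕ) (c : Fin K → ℂ)
    (h : ∀ g : Fin K, ∑ a : Fin K, c a * ((g : ℕ) : ℂ) ^ (a : ℕ) = 0) : c = 0 := by
  have hinj : Function.Injective (fun g : Fin K => ((g : ℕ) : ℂ)) := by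
    intro a b hab
    exact Fin.ext (Nat.cast_injective hab)
  have hdet : (Matrix.vandermonde (fun g : Fin K => ((g : ℕ) : ℂ))).det ≠ 0 :=
    Matrix.det_vandermonde_ne_zero_iff.2 hinj
  refine Matrix.eq_zero_of_mulVec_eq_zero hdet ?_
  funext g
  rw [Pi.zero_apply, ← h g]
  change ∑ a, Matrix.vandermonde (fun g : Fin K => ((g : ℕ) : ℂ)) g a * c a = _
  refine Finset.sum_congr rfl (fun a _ => ?_)
  rw [Matrix.vandermonde_apply, mul_comm]

/-- several variables -/
theorem QHom_grid (K : ℕ) : ∀ (m : ℕ) (c : (Fin m → Fin K) → ℂ),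
    (∀ g : Fin m → Fin K, ∑ α : Fin m → Fin K, c α * ∏ i, ((g i : ℕ) : ℂ) ^ (α i : ℕ) = 0) →
      c = 0 := by
  intro m
  induction m with
  | zero =>
    intro c h
    funext α
    have h1 := h α
    rw [Fintype.sum_subsingleton _ α] at h1
    simpa using h1
  | succ m ih =>
    intro c h
    have key : ∀ g0 : Fin K, (fun α' : Fin m → Fin K =>
        ∑ a : Fin K, c (Fin.cons a α') * ((g0 : ℕ) : ℂ) ^ (a : ℕ)) = 0 := by
      intro g0
      apply ih
      intro g'
      have h1 := h (Fin.cons g0 g')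
      rw [← (Fin.consEquiv (fun _ : Fin (m + 1) => Fin K)).sum_comp, Fintype.sum_prod_type] at h1
      rw [← h1, Finset.sum_comm]
      refine Finset.sum_congr rfl (fun α' _ => ?_)
      rw [Finset.sum_mul]
      refine Finset.sum_congr rfl (fun a _ => ?_)
      have hce : (Fin.consEquiv (fun _ : Fin (m + 1) => Fin K)) (a, α') = Fin.cons a α' := rfl
      rw [hce, Fin.prod_univ_succ]
      simp only [Fin.cons_zero, Fin.cons_succ]
      ring
    have key2 : ∀ α' : Fin m → Fin K, (fun a : Fin K => c (Fin.cons a α')) = 0 := by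
      intro α'
      apply QHom_one
      intro g0
      exact congrFun (key g0) α'
    funext α
    have h2 := congrFun (key2 (Fin.tail α)) (α 0)
    rw [Fin.cons_self_tail] at h2
    exact h2

/-- evaluation on the grid -/
noncomputable def QHom_ev (m K : ℕ) :
    ((Fin m → Fin K) × Fin K → ℂ) →ₗ[ℂ] ((Fin m → Fin K) × Fin K → ℂ) where
  toFun c g := ∑ α : (Fin m → Fin K) × Fin K,
    c α * (∏ i, ((g.1 i : ℕ) : ℂ) ^ (α.1 i : ℕ)) * ((g.2 : ℕ) : ℂ) ^ (α.2 : ℕ)
  map_add' a b := by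
    funext g
    simp only [Pi.add_apply]
    rw [← Finset.sum_add_distrib]
    exact Finset.sum_congr rfl (fun α _ => by ring)
  map_smul' r a := by
    funext g
    simp only [Pi.smul_apply, smul_eq_mul, RingHom.id_apply]
    rw [Finset.mul_sum]
    exact Finset.sum_congr rfl (fun α _ => by ring)

theorem QHom_ker (m K : ℕ) : LinearMap.ker (QHom_ev m K) = ⊥ := by
  rw [LinearMap.ker_eq_bot']
  intro c hc
  have key : ∀ g2 : Fin K, (fun α1 : Fin m → Fin K =>
      ∑ a : Fin K, c (α1, a) * ((g2 : ℕ) : ℂ) ^ (a : ℕ)) = 0 := by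
    intro g2
    apply QHom_grid
    intro g1
    have h1 : (QHom_ev m K) c (g1, g2) = 0 := by rw [hc]; rfl
    change ∑ α : (Fin m → Fin K) × Fin K,
      c α * (∏ i, ((g1 i : ℕ) : ℂ) ^ (α.1 i : ℕ)) * ((g2 : ℕ) : ℂ) ^ (α.2 : ℕ) = 0 at h1
    rw [Fintype.sum_prod_type] at h1
    rw [← h1]
    refine Finset.sum_congr rfl (fun α1 _ => ?_)
    rw [Finset.sum_mul]
    exact Finset.sum_congr rfl (fun a _ => by ring)
  funext α
  obtain ⟨α1, a⟩ := α
  have h2 : (fun a : Fin K => c (α1, a)) = 0 := by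
    apply QHom_one
    intro g2
    exact congrFun (key g2) α1
  exact congrFun h2 a

theorem QHom_deg (m K : ℕ) (α : (Fin m → Fin K) × Fin K) :
    ∑ i, (α.1 i : ℕ) + (α.2 : ℕ) ≤ (m + 1) * (K - 1) := by
  have h1 : ∑ i, (α.1 i : ℕ) ≤ m * (K - 1) := by
    calc ∑ i, (α.1 i : ℕ) ≤ ∑ _i : Fin m, (K - 1) :=
          Finset.sum_le_sum (fun i _ => by have := (α.1 i).isLt; omega)
      _ = m * (K - 1) := by simp
  have h2 : (α.2 : ℕ) ≤ K - 1 := by have := α.2.isLt; omega
  have h3 : (m + 1) * (K - 1) = m * (K - 1) + (K - 1) := by ring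
  omega

theorem qhom (m K : ℕ) (hK : 2 ≤ K) : ∃ γ : ℝ, 0 < γ ∧
    ∀ (V : Type) [NormedAddCommGroup V] [InnerProductSpace ℂ V]
      (b : OrthonormalBasis (Fin (m + 2)) ℂ V) (c : (Fin m → Fin K) × Fin K → ℂ),
      ∑ α, ‖c α‖ = 1 → ∃ Q : V → ℂ, HP V ((m + 1) * (K - 1)) Q ∧
        (∃ x, ‖x‖ ≤ 1 ∧ γ ≤ ‖Q x‖) ∧ (∀ x, ‖Q x‖ ≤ ‖x‖ ^ ((m + 1) * (K - 1))) ∧
        ∀ (u : Cn m) (w : ℂ),
          Q (b 0 + ∑ i : Fin m, u i • b i.castSucc.succ + w • b (Fin.last (m + 1))) =
            ∑ α, c α * (∏ i, u i ^ (α.1 i : ℕ)) * w ^ (α.2 : ℕ) := by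
  classical
  obtain ⟨K', hK', hanti⟩ := LinearMap.exists_antilipschitzWith (QHom_ev m K) (QHom_ker m K)
  have hK'r : (0 : ℝ) < (K' : ℝ) := by exact_mod_cast hK'
  set k := (m + 1) * (K - 1) with hk
  set N : ℕ := Fintype.card ((Fin m → Fin K) × Fin K) with hN
  have hNpos : 0 < N := by
    rw [hN]
    have : Nonempty ((Fin m → Fin K) × Fin K) := ⟨(fun _ => ⟨0, by omega⟩, ⟨0, by omega⟩)⟩
    exact Fintype.card_pos
  have hNr : (0 : ℝ) < (N : ℝ) := by exact_mod_cast hNpos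
  set r : ℝ := 1 / (N * K') with hr
  have hrpos : 0 < r := by positivity
  set R0 : ℝ := (m + 2) * K with hR0
  have hKr : (2 : ℝ) ≤ (K : ℝ) := by exact_mod_cast hK
  have hR0pos : 0 < R0 := by positivity
  refine ⟨(R0⁻¹) ^ k * r, by positivity, ?_⟩
  intro V _ _ b c hc
  -- the polynomial
  let l : Fin (m + 2) → V →ₗ[ℂ] ℂ := fun i => (innerSL ℂ (b i)).toLinearMap
  have hl : ∀ i x, l i x = inner ℂ (b i) x := fun i x => rfl
  let Q : V → ℂ := fun x => ∑ α : (Fin m → Fin K) × Fin K,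
    c α * (l 0 x ^ (k - (∑ i, (α.1 i : ℕ) + (α.2 : ℕ))) *
      ((∏ i : Fin m, l i.castSucc.succ x ^ (α.1 i : ℕ)) * l (Fin.last (m + 1)) x ^ (α.2 : ℕ)))
  have hQdef : ∀ x, Q x = ∑ α : (Fin m → Fin K) × Fin K,
    c α * (l 0 x ^ (k - (∑ i, (α.1 i : ℕ) + (α.2 : ℕ))) *
      ((∏ i : Fin m, l i.castSucc.succ x ^ (α.1 i : ℕ)) * l (Fin.last (m + 1)) x ^ (α.2 : ℕ))) :=
    fun x => rfl
  have hHP : HP V k Q := by
    refine HP.sum _ (fun α _ => HP.const_mul ?_ _)
    have h1 : HP V (1 * (k - (∑ i, (α.1 i : ℕ) + (α.2 : ℕ))))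
        (fun x => l 0 x ^ (k - (∑ i, (α.1 i : ℕ) + (α.2 : ℕ)))) := (HP.linear (l 0)).pow _
    have h2 : HP V (∑ i : Fin m, 1 * (α.1 i : ℕ))
        (fun x => ∏ i : Fin m, l i.castSucc.succ x ^ (α.1 i : ℕ)) :=
      HP.prod _ (fun i _ => (HP.linear (l i.castSucc.succ)).pow _)
    have h3 : HP V (1 * (α.2 : ℕ)) (fun x => l (Fin.last (m + 1)) x ^ (α.2 : ℕ)) :=
      (HP.linear _).pow _
    have h4 := h1.mul (h2.mul h3)
    have h5 : 1 * (k - (∑ i, (α.1 i : ℕ) + (α.2 : ℕ))) +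
        (∑ i : Fin m, 1 * (α.1 i : ℕ) + 1 * (α.2 : ℕ)) = k := by
      have := QHom_deg m K α
      simp only [one_mul]
      omega
    rw [h5] at h4
    exact h4
  -- values on the affine slice
  have hval : ∀ (u : Fin m → ℂ) (w : ℂ),
      Q (b 0 + ∑ i : Fin m, u i • b i.castSucc.succ + w • b (Fin.last (m + 1))) =
        ∑ α : (Fin m → Fin K) × Fin K, c α * (∏ i, u i ^ (α.1 i : ℕ)) * w ^ (α.2 : ℕ) := by
    intro u w
    have hon : ∀ i j, inner ℂ (b i) (b j) = if i = j then (1 : ℂ) else 0 :=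
      fun i j => orthonormal_iff_ite.1 b.orthonormal i j
    have hL : ∀ j, l j (b 0 + ∑ i : Fin m, u i • b i.castSucc.succ + w • b (Fin.last (m + 1)))
        = (if j = 0 then (1 : ℂ) else 0) +
          ∑ i : Fin m, u i * (if j = i.castSucc.succ then (1 : ℂ) else 0) +
          w * (if j = Fin.last (m + 1) then (1 : ℂ) else 0) := by
      intro j
      have h1 : ∀ i : Fin m, l j (u i • b i.castSucc.succ)
          = u i * (if j = i.castSucc.succ then (1 : ℂ) else 0) := by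
        intro i
        rw [map_smul, hl, hon, smul_eq_mul]
      rw [map_add, map_add, map_sum, map_smul, hl j (b 0), hl j (b (Fin.last (m + 1))), hon, hon,
        smul_eq_mul]
      simp only [h1]
    have hne0 : ∀ i : Fin m, (0 : Fin (m + 2)) ≠ i.castSucc.succ :=
      fun i => (Fin.succ_ne_zero _).symm
    have hne1 : (0 : Fin (m + 2)) ≠ Fin.last (m + 1) := by
      intro h
      have := congrArg Fin.val h
      simp at this
    have hne2 : ∀ i : Fin m, i.castSucc.succ ≠ Fin.last (m + 1) := by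
      intro i h
      have h1 := congrArg Fin.val h
      have := i.isLt
      simp at h1
      omega
    have e0 : l 0 (b 0 + ∑ i : Fin m, u i • b i.castSucc.succ + w • b (Fin.last (m + 1))) = 1 := by
      rw [hL, if_pos rfl, if_neg hne1, Finset.sum_eq_zero]
      · simp
      · intro i _
        rw [if_neg (hne0 i), mul_zero]
    have e1 : ∀ i0 : Fin m, l i0.castSucc.succ
        (b 0 + ∑ i : Fin m, u i • b i.castSucc.succ + w • b (Fin.last (m + 1))) = u i0 := by
      intro i0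
      rw [hL, if_neg (hne0 i0).symm, if_neg (hne2 i0), Finset.sum_eq_single i0]
      · simp
      · intro i _ hi
        rw [if_neg, mul_zero]
        intro h
        apply hi
        exact (Fin.castSucc_injective _ (Fin.succ_injective _ h)).symm
      · intro h
        exact absurd (Finset.mem_univ _) h
    have e2 : l (Fin.last (m + 1))
        (b 0 + ∑ i : Fin m, u i • b i.castSucc.succ + w • b (Fin.last (m + 1))) = w := by
      rw [hL, if_neg hne1.symm, if_pos rfl, Finset.sum_eq_zero]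
      · simp
      · intro i _
        rw [if_neg (hne2 i).symm, mul_zero]
    rw [hQdef]
    refine Finset.sum_congr rfl (fun α _ => ?_)
    rw [e0, e2, one_pow, one_mul, ← mul_assoc]
    simp only [e1]
  refine ⟨Q, hHP, ?_, ?_, fun u w => hval (fun i => u i) w⟩
  · -- lower bound
    have hcn : 1 / (N : ℝ) ≤ ‖c‖ := by
      rw [div_le_iff₀ hNr, ← hc]
      calc ∑ α, ‖c α‖ ≤ ∑ _α : (Fin m → Fin K) × Fin K, ‖c‖ :=
            Finset.sum_le_sum (fun α _ => norm_le_pi_norm c α)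
        _ = ‖c‖ * N := by
            rw [Finset.sum_const, Finset.card_univ, nsmul_eq_mul, mul_comm]
    obtain ⟨g, hg⟩ : ∃ g, r ≤ ‖QHom_ev m K c g‖ := by
      by_contra hcon
      push Not at hcon
      have h1 : ‖QHom_ev m K c‖ < r := (pi_norm_lt_iff hrpos).2 hcon
      have h2 := hanti.le_mul_dist c 0
      rw [map_zero, dist_zero_right, dist_zero_right] at h2
      have h3 : (K' : ℝ) * ‖QHom_ev m K c‖ < K' * r := mul_lt_mul_of_pos_left h1 hK'r
      have h4 : (K' : ℝ) * r = 1 / N := by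
        rw [hr]
        field_simp
      linarith
    let y : V := b 0 + ∑ i : Fin m, ((g.1 i : ℕ) : ℂ) • b i.castSucc.succ +
      ((g.2 : ℕ) : ℂ) • b (Fin.last (m + 1))
    have hbn : ∀ i, ‖b i‖ = 1 := fun i => b.orthonormal.1 i
    have hgK : ∀ a : Fin K, ((a : ℕ) : ℝ) ≤ K := fun a => by exact_mod_cast a.isLt.le
    have hy : ‖y‖ ≤ R0 := by
      have h1 : ‖∑ i : Fin m, ((g.1 i : ℕ) : ℂ) • b i.castSucc.succ‖ ≤ m * K := by
        refine (norm_sum_le _ _).trans ?_
        calc ∑ i : Fin m, ‖((g.1 i : ℕ) : ℂ) • b i.castSucc.succ‖ ≤ ∑ _i : Fin m, (K : ℝ) := by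
              refine Finset.sum_le_sum (fun i _ => ?_)
              rw [norm_smul, hbn, mul_one, Complex.norm_natCast]
              exact hgK _
          _ = m * K := by simp
      have h2 : ‖((g.2 : ℕ) : ℂ) • b (Fin.last (m + 1))‖ ≤ K := by
        rw [norm_smul, hbn, mul_one, Complex.norm_natCast]
        exact hgK _
      calc ‖y‖ ≤ ‖b 0 + ∑ i : Fin m, ((g.1 i : ℕ) : ℂ) • b i.castSucc.succ‖ +
            ‖((g.2 : ℕ) : ℂ) • b (Fin.last (m + 1))‖ := norm_add_le _ _
        _ ≤ (‖b 0‖ + ‖∑ i : Fin m, ((g.1 i : ℕ) : ℂ) • b i.castSucc.succ‖) +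
            ‖((g.2 : ℕ) : ℂ) • b (Fin.last (m + 1))‖ := by
              have := norm_add_le (b 0) (∑ i : Fin m, ((g.1 i : ℕ) : ℂ) • b i.castSucc.succ)
              linarith
        _ ≤ (1 + m * K) + K := by rw [hbn]; linarith
        _ ≤ R0 := by rw [hR0]; linarith
    refine ⟨((R0⁻¹ : ℝ) : ℂ) • y, ?_, ?_⟩
    · rw [norm_smul, Complex.norm_real, Real.norm_eq_abs, abs_of_pos (by positivity)]
      rw [inv_mul_le_iff₀ hR0pos]
      linarith
    · have hQy : Q y = QHom_ev m K c g := hval (fun i => ((g.1 i : ℕ) : ℂ)) ((g.2 : ℕ) : ℂ)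
      rw [hHP.hom, hQy, norm_mul, norm_pow, Complex.norm_real, Real.norm_eq_abs,
        abs_of_pos (by positivity : 0 < R0⁻¹)]
      exact mul_le_mul_of_nonneg_left hg (by positivity)
  · -- upper bound
    intro x
    have hbn : ∀ i, ‖b i‖ = 1 := fun i => b.orthonormal.1 i
    have hlx : ∀ i, ‖l i x‖ ≤ ‖x‖ := by
      intro i
      have := norm_inner_le_norm (𝕜 := ℂ) (b i) x
      rw [hbn, one_mul] at this
      exact this
    rw [hQdef]
    refine (norm_sum_le _ _).trans ?_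
    calc ∑ α : (Fin m → Fin K) × Fin K, ‖c α * (l 0 x ^ (k - (∑ i, (α.1 i : ℕ) + (α.2 : ℕ))) *
          ((∏ i : Fin m, l i.castSucc.succ x ^ (α.1 i : ℕ)) *
            l (Fin.last (m + 1)) x ^ (α.2 : ℕ)))‖
        ≤ ∑ α : (Fin m → Fin K) × Fin K, ‖c α‖ * ‖x‖ ^ k := by
          refine Finset.sum_le_sum (fun α _ => ?_)
          rw [norm_mul]
          refine mul_le_mul_of_nonneg_left ?_ (norm_nonneg _)
          rw [norm_mul, norm_mul, norm_pow, norm_pow, norm_prod]
          have hd := QHom_deg m K α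
          have e1 : ‖l 0 x‖ ^ (k - (∑ i, (α.1 i : ℕ) + (α.2 : ℕ))) ≤
              ‖x‖ ^ (k - (∑ i, (α.1 i : ℕ) + (α.2 : ℕ))) :=
            pow_le_pow_left₀ (norm_nonneg _) (hlx _) _
          have e2 : ∏ i : Fin m, ‖l i.castSucc.succ x ^ (α.1 i : ℕ)‖ ≤
              ‖x‖ ^ (∑ i, (α.1 i : ℕ)) := by
            rw [← Finset.prod_pow_eq_pow_sum]
            refine Finset.prod_le_prod (fun i _ => norm_nonneg _) (fun i _ => ?_)
            rw [norm_pow]
            exact pow_le_pow_left₀ (norm_nonneg _) (hlx _) _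
          have e3 : ‖l (Fin.last (m + 1)) x‖ ^ (α.2 : ℕ) ≤ ‖x‖ ^ (α.2 : ℕ) :=
            pow_le_pow_left₀ (norm_nonneg _) (hlx _) _
          have e4 : ‖x‖ ^ k = ‖x‖ ^ (k - (∑ i, (α.1 i : ℕ) + (α.2 : ℕ))) *
              (‖x‖ ^ (∑ i, (α.1 i : ℕ)) * ‖x‖ ^ (α.2 : ℕ)) := by
            rw [← pow_add, ← pow_add]
            congr 1
            omega
          rw [e4]
          refine mul_le_mul e1 (mul_le_mul e2 e3 (by positivity) (by positivity)) ?_
            (by positivity)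
          exact mul_nonneg (Finset.prod_nonneg (fun i _ => norm_nonneg _)) (by positivity)
      _ = ‖x‖ ^ k := by rw [← Finset.sum_mul, hc, one_mul]

end HMA
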