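import Pool.Agent.H85.MA.HPTop

/-! # Module RBND: bound for the roots on lines through `p` (Schwarz lemma) -/

open MeasureTheory Metric Set
open scoped ENNReal Topology ContDiff

namespace HMA

theorem RBnd_pow (d : ℕ) (hd : 1 ≤ d) (s : ℝ) (hs : 0 ≤ s) (h : s ≤ 1 / d) :
    (1 + s) ^ d ≤ 11 / 4 := by
  have hd0 : (0 : ℝ) < d := by exact_mod_cast hd
  have h1 : (1 + s) ^ d ≤ Real.exp 1 := by
    have h2 : 1 + s ≤ Real.exp s := by linarith [Real.add_one_le_exp s]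
    calc (1 + s) ^ d ≤ Real.exp s ^ d := pow_le_pow_left₀ (by linarith) h2 d
      _ = Real.exp (d * s) := by rw [← Real.exp_nat_mul]
      _ ≤ Real.exp 1 := by
        apply Real.exp_le_exp.mpr
        rw [le_div_iff₀ hd0] at h
        linarith
  have h3 := Real.exp_one_lt_d9
  norm_num at h3 ⊢
  linarith

theorem root_bound {V : Type} [NormedAddCommGroup V] [InnerProductSpace ℂ V]
    [FiniteDimensional ℂ V] {d : ℕ} (hd : 1 ≤ d) {P : V → ℂ} (hP : HP V d P)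
    (hbd : ∀ x, ‖P x‖ ≤ 2 * ‖x‖ ^ d) {p : V} (hp : ‖p‖ = 1) (hPp : 1 / 2 ≤ ‖P p‖)
    {z : V} (hz : inner ℂ p z = 0) {w : ℂ} (h0 : P (z + w • p) = 0) :
    ‖w‖ ≤ 16 * d * ‖z‖ := by
  have hd0 : (0 : ℝ) < d := by exact_mod_cast hd
  have hd1 : (1 : ℝ) ≤ d := by exact_mod_cast hd
  by_cases hw : w = 0
  · rw [hw, norm_zero]
    positivity
  have hw0 : 0 < ‖w‖ := norm_pos_iff.mpr hw
  by_contra hcon
  rw [not_le] at hcon
  set ζ : V := w⁻¹ • z with hζ
  have hPζ : P (p + ζ) = 0 := by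
    have h1 : p + ζ = w⁻¹ • (z + w • p) := by
      rw [smul_add, smul_smul, inv_mul_cancel₀ hw, one_smul, hζ, add_comm]
    rw [h1, hP.hom, h0, mul_zero]
  have hζn : ‖ζ‖ = ‖z‖ / ‖w‖ := by
    rw [hζ, norm_smul, norm_inv]
    field_simp
  have hζlt : 16 * d * ‖ζ‖ < 1 := by
    rw [hζn, ← mul_div_assoc, div_lt_one hw0]
    exact hcon
  have hζ0 : ζ ≠ 0 := by
    intro h
    rw [h, add_zero] at hPζ
    rw [hPζ, norm_zero] at hPp
    linarith
  have hζpos : 0 < ‖ζ‖ := norm_pos_iff.mpr hζ0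
  set g : ℂ → ℂ := fun t => P (p + t • ζ) with hg
  have hgd : Differentiable ℂ g := by
    have h1 : ContDiff ℂ 1 P := PF.contDiff hP.poly 1
    have h2 : Differentiable ℂ P := h1.differentiable (by norm_num)
    exact h2.comp (by fun_prop)
  set R : ℝ := 1 / (d * ‖ζ‖) with hR
  have hRpos : 0 < R := by positivity
  have hR16 : 16 < R := by
    rw [hR, lt_div_iff₀ (by positivity)]
    linarith
  have hg0 : ‖g 0‖ ≤ 2 := by
    have := hbd p
    rw [hp, one_pow, mul_one] at this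
    simpa [hg] using this
  have hmaps : MapsTo g (ball 0 R) (ball (g 0) (31 / 4)) := by
    intro t ht
    rw [mem_ball_zero_iff] at ht
    rw [mem_ball_iff_norm]
    have h1 : ‖g t‖ ≤ 11 / 2 := by
      have h2 := hbd (p + t • ζ)
      have h3 : ‖p + t • ζ‖ ≤ 1 + ‖t‖ * ‖ζ‖ := by
        calc ‖p + t • ζ‖ ≤ ‖p‖ + ‖t • ζ‖ := norm_add_le _ _
          _ = 1 + ‖t‖ * ‖ζ‖ := by rw [hp, norm_smul]
      have h4 : ‖t‖ * ‖ζ‖ ≤ 1 / d := by
        rw [le_div_iff₀ hd0]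
        rw [hR, lt_div_iff₀ (by positivity)] at ht
        nlinarith
      have h5 := RBnd_pow d hd (‖t‖ * ‖ζ‖) (by positivity) h4
      have h6 : ‖p + t • ζ‖ ^ d ≤ (1 + ‖t‖ * ‖ζ‖) ^ d :=
        pow_le_pow_left₀ (norm_nonneg _) h3 d
      linarith
    calc ‖g t - g 0‖ ≤ ‖g t‖ + ‖g 0‖ := norm_sub_le _ _
      _ < 31 / 4 := by linarith
  have h1 : (1 : ℂ) ∈ ball (0 : ℂ) R := by
    rw [mem_ball_zero_iff, norm_one]
    linarith
  have hS := Complex.dist_le_div_mul_dist_of_mapsTo_ball hgd.differentiableOn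
    (hmaps.mono_right ball_subset_closedBall) h1
  have hg1 : g 1 = 0 := by
    simpa [hg] using hPζ
  have hg00 : g 0 = P p := by simp [hg]
  rw [hg1, hg00, dist_zero_left, dist_zero_right, norm_one, mul_one] at hS
  have h2 : (31 / 4 : ℝ) / R < 1 / 2 := by
    rw [div_lt_iff₀ hRpos]
    linarith
  linarith

end HMA
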