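import Pool.Agent.H85.MA.HPTop

/-! # Module ROOTS2: continuous simple root functions are analytic -/

open MeasureTheory Metric Set
open scoped ENNReal Topology ContDiff

namespace HMA

theorem Roots2_eval (d : ℕ) (c : ℕ → ℂ) (w : ℂ) :
    (pol d c).eval w = ∑ k ∈ Finset.range (d + 1), c k * w ^ k := by
  simp [pol, Polynomial.eval_finsetSum]

/-- the polynomial as a function of coefficients and variable -/
noncomputable def Roots2_F {W : Type} (d : ℕ) (f : ℕ → W → ℂ) (q : W × ℂ) : ℂ :=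
  (pol d (fun k => f k q.1)).eval q.2

theorem Roots2_contDiff {W : Type} [NormedAddCommGroup W] [NormedSpace ℂ W]
    [FiniteDimensional ℂ W] {d : ℕ} (f : ℕ → W → ℂ) (hf : ∀ k ≤ d, f k ∈ PF W)
    (n : WithTop ℕ∞) : ContDiff ℂ n (Roots2_F d f) := by
  have h : Roots2_F d f = fun q : W × ℂ => ∑ k ∈ Finset.range (d + 1), f k q.1 * q.2 ^ k := by
    funext q
    exact Roots2_eval _ _ _
  rw [h]
  refine ContDiff.sum fun k hk => ?_
  have hk' : k ≤ d := Nat.lt_succ_iff.1 (Finset.mem_range.1 hk)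
  exact ((PF.contDiff (hf k hk') n).comp contDiff_fst).mul (contDiff_snd.pow k)

/-- local solution of the equation near a simple root -/
theorem Roots2_local {W : Type} [NormedAddCommGroup W] [NormedSpace ℂ W]
    [FiniteDimensional ℂ W] {d : ℕ} (f : ℕ → W → ℂ) (hf : ∀ k ≤ d, f k ∈ PF W)
    (z₁ : W) (w₁ : ℂ) (h0 : Roots2_F d f (z₁, w₁) = 0)
    (h1 : (Polynomial.derivative (pol d (fun k => f k z₁))).eval w₁ ≠ 0) :
    ∃ ψ : W → ℂ, AnalyticAt ℂ ψ z₁ ∧ ψ z₁ = w₁ ∧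
      ∀ᶠ v in 𝓝 (z₁, w₁), Roots2_F d f v = 0 ↔ ψ v.1 = v.2 := by
  have : CompleteSpace W := FiniteDimensional.complete ℂ W
  have hcd : ContDiffAt ℂ ω (Roots2_F d f) (z₁, w₁) := (Roots2_contDiff f hf ω).contDiffAt
  have hn : (ω : WithTop ℕ∞) ≠ 0 := by simp
  have hfd : HasFDerivAt (Roots2_F d f) (fderiv ℂ (Roots2_F d f) (z₁, w₁)) (z₁, w₁) :=
    (hcd.differentiableAt hn).hasFDerivAt
  have hcomp : HasFDerivAt (fun w : ℂ => Roots2_F d f (z₁, w))
      (fderiv ℂ (Roots2_F d f) (z₁, w₁) ∘L ContinuousLinearMap.inr ℂ W ℂ) w₁ :=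
    HasFDerivAt.comp w₁ hfd (hasFDerivAt_prodMk_right z₁ w₁)
  have hpol : HasDerivAt (fun w : ℂ => Roots2_F d f (z₁, w))
      ((Polynomial.derivative (pol d (fun k => f k z₁))).eval w₁) w₁ :=
    (pol d (fun k => f k z₁)).hasDerivAt w₁
  have heq := hcomp.unique hpol.hasFDerivAt
  have hinv : (fderiv ℂ (Roots2_F d f) (z₁, w₁) ∘L ContinuousLinearMap.inr ℂ W ℂ).IsInvertible := by
    rw [heq]
    refine ⟨ContinuousLinearEquiv.unitsEquivAut ℂ (Units.mk0 _ h1), ?_⟩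
    ext
    simp
  refine ⟨hcd.implicitFunction hn hinv, ?_, ?_, ?_⟩
  · exact (hcd.contDiffAt_implicitFunction hn hinv).analyticAt
  · exact hcd.implicitFunction_apply_self hn hinv
  · have h2 := hcd.eventually_apply_eq_iff_implicitFunction hn hinv
    rwa [h0] at h2

theorem root_analytic {W : Type} [NormedAddCommGroup W] [NormedSpace ℂ W]
    [FiniteDimensional ℂ W] {d : ℕ} (f : ℕ → W → ℂ) (hf : ∀ k ≤ d, f k ∈ PF W)
    {z₁ : W} {h : W → ℂ} (hc : ContinuousAt h z₁)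
    (h0 : ∀ᶠ z in 𝓝 z₁, (pol d (fun k => f k z)).eval (h z) = 0)
    (h1 : (Polynomial.derivative (pol d (fun k => f k z₁))).eval (h z₁) ≠ 0) :
    AnalyticAt ℂ h z₁ := by
  obtain ⟨ψ, hψ, -, hψ2⟩ := Roots2_local f hf z₁ (h z₁) h0.self_of_nhds h1
  have ht : Filter.Tendsto (fun z => (z, h z)) (𝓝 z₁) (𝓝 (z₁, h z₁)) :=
    Filter.Tendsto.prodMk_nhds Filter.tendsto_id hc
  have h3 := ht.eventually hψ2
  refine hψ.congr ?_
  filter_upwards [h0, h3] with z hz hz3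
  exact hz3.1 hz

end HMA
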