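import Pool.Agent.H85.MA.Roots1
import Pool.Agent.H85.MA.Roots2

/-! # Module ROOTS: holomorphic root functions on balls -/

open MeasureTheory Metric Set
open scoped ENNReal Topology ContDiff

namespace HMA

theorem Roots_natDegree (d : ℕ) (c : ℕ → ℂ) : (pol d c).natDegree ≤ d := by
  unfold pol
  refine Polynomial.natDegree_sum_le_of_forall_le _ _ fun k hk => ?_
  exact (Polynomial.natDegree_C_mul_X_pow_le _ _).trans (Nat.lt_succ_iff.1 (Finset.mem_range.1 hk))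

theorem roots_on_ball {W : Type} [NormedAddCommGroup W] [NormedSpace ℂ W]
    [FiniteDimensional ℂ W] {d : ℕ} (f : ℕ → W → ℂ) (hf : ∀ k ≤ d, f k ∈ PF W)
    {a : ℂ} (ha : a ≠ 0) (hfd : ∀ z, f d z = a) (z₀ : W) {ρ : ℝ} (hρ : 0 < ρ)
    (hs : ∀ z ∈ ball z₀ ρ, ∀ w : ℂ, (pol d (fun k => f k z)).eval w = 0 →
      (Polynomial.derivative (pol d (fun k => f k z))).eval w ≠ 0) :
    ∃ (ι : Type) (_ : Fintype ι) (h : ι → W → ℂ), Fintype.card ι ≤ d ∧
      (∀ i, ∀ z ∈ ball z₀ ρ, AnalyticAt ℂ (h i) z) ∧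
      (∀ i, ∀ z ∈ ball z₀ ρ, (pol d (fun k => f k z)).eval (h i z) = 0) ∧
      ∀ z ∈ ball z₀ ρ, ∀ w : ℂ, (pol d (fun k => f k z)).eval w = 0 → ∃ i, h i z = w := by
  classical
  have hz₀ : z₀ ∈ ball z₀ ρ := mem_ball_self hρ
  have hp0 : pol d (fun k => f k z₀) ≠ 0 := by
    intro h0
    refine hs z₀ hz₀ 0 ?_ ?_ <;> rw [h0] <;> simp
  let ι : Type := {w : ℂ // w ∈ (pol d (fun k => f k z₀)).roots.toFinset}
  have hroot : ∀ i : ι, (pol d (fun k => f k z₀)).eval i.1 = 0 := by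
    intro i
    have := i.2
    rw [Multiset.mem_toFinset, Polynomial.mem_roots hp0] at this
    exact this
  choose h hh1 hh2 hh3 hh4 using fun i : ι =>
    roots_cont f hf ha hfd z₀ hρ hs z₀ hz₀ i.1 (hroot i)
  refine ⟨ι, inferInstance, h, ?_, ?_, hh3, ?_⟩
  · rw [Fintype.card_coe]
    exact (Multiset.toFinset_card_le _).trans
      ((Polynomial.card_roots' _).trans (Roots_natDegree _ _))
  · intro i z hz
    have hnhds : ball z₀ ρ ∈ 𝓝 z := isOpen_ball.mem_nhds hz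
    refine root_analytic f hf ((hh1 i).continuousAt hnhds) ?_ (hs z hz _ (hh3 i z hz))
    filter_upwards [hnhds] with y hy
    exact hh3 i y hy
  · intro z hz w hw
    obtain ⟨g, hg1, hg2, hg3, -⟩ := roots_cont f hf ha hfd z₀ hρ hs z hz w hw
    have hmem : g z₀ ∈ (pol d (fun k => f k z₀)).roots.toFinset := by
      rw [Multiset.mem_toFinset, Polynomial.mem_roots hp0]
      exact hg3 z₀ hz₀
    refine ⟨⟨g z₀, hmem⟩, ?_⟩
    rw [← hh4 ⟨g z₀, hmem⟩ g hg1 rfl hg3 hz, hg2]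

end HMA
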