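import Pool.Agent.H85.MA.HPTop
import Pool.Agent.H85.MA.Roots2

/-! # Module ROOTS1: continuous root functions on balls (covering space) -/

open MeasureTheory Metric Set
open scoped ENNReal Topology ContDiff

namespace HMA

section Roots1

variable {W : Type} [NormedAddCommGroup W]

/-- the zero set over the ball -/
def Roots1_E (d : ℕ) (f : ℕ → W → ℂ) (z₀ : W) (ρ : ℝ) : Type :=
  {q : ↥(ball z₀ ρ) × ℂ // Roots2_F d f (q.1.1, q.2) = 0}

instance (d : ℕ) (f : ℕ → W → ℂ) (z₀ : W) (ρ : ℝ) : TopologicalSpace (Roots1_E d f z₀ ρ) :=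
  inferInstanceAs (TopologicalSpace {q : ↥(ball z₀ ρ) × ℂ // Roots2_F d f (q.1.1, q.2) = 0})

instance (d : ℕ) (f : ℕ → W → ℂ) (z₀ : W) (ρ : ℝ) : T2Space (Roots1_E d f z₀ ρ) :=
  inferInstanceAs (T2Space {q : ↥(ball z₀ ρ) × ℂ // Roots2_F d f (q.1.1, q.2) = 0})

/-- the projection -/
def Roots1_p (d : ℕ) (f : ℕ → W → ℂ) (z₀ : W) (ρ : ℝ) (q : Roots1_E d f z₀ ρ) : ↥(ball z₀ ρ) :=
  q.1.1

/-- bound for the roots -/
theorem Roots1_bound {d : ℕ} {c : ℕ → ℂ} {C : ℝ} (hd : c d ≠ 0)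
    (hC : ∑ k ∈ Finset.range d, ‖c k‖ ≤ C) {w : ℂ} (hw : (pol d c).eval w = 0) :
    ‖w‖ ≤ max 1 (C / ‖c d‖) := by
  rcases le_or_gt ‖w‖ 1 with h1 | h1
  · exact h1.trans (le_max_left _ _)
  refine le_trans ?_ (le_max_right _ _)
  rw [Roots2_eval, Finset.sum_range_succ] at hw
  have hcd : 0 < ‖c d‖ := norm_pos_iff.2 hd
  rw [le_div_iff₀ hcd]
  rcases Nat.eq_zero_or_pos d with h0 | h0
  · subst h0
    simp at hw
    exact absurd hw hd
  obtain ⟨e, rfl⟩ : ∃ e, d = e + 1 := ⟨d - 1, by omega⟩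
  have h2 : c (e + 1) * w ^ (e + 1) = - ∑ k ∈ Finset.range (e + 1), c k * w ^ k := by
    linear_combination hw
  have h3 : ‖c (e + 1)‖ * ‖w‖ ^ (e + 1) ≤ C * ‖w‖ ^ e := by
    rw [← norm_pow, ← norm_mul, h2, norm_neg]
    refine (norm_sum_le _ _).trans ?_
    calc ∑ k ∈ Finset.range (e + 1), ‖c k * w ^ k‖
        ≤ ∑ k ∈ Finset.range (e + 1), ‖c k‖ * ‖w‖ ^ e := by
          refine Finset.sum_le_sum fun k hk => ?_
          rw [norm_mul, norm_pow]
          refine mul_le_mul_of_nonneg_left ?_ (norm_nonneg _)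
          exact pow_le_pow_right₀ h1.le (Nat.lt_succ_iff.1 (Finset.mem_range.1 hk))
      _ = (∑ k ∈ Finset.range (e + 1), ‖c k‖) * ‖w‖ ^ e := by rw [Finset.sum_mul]
      _ ≤ C * ‖w‖ ^ e := mul_le_mul_of_nonneg_right hC (by positivity)
  have h4 : 0 < ‖w‖ ^ e := by positivity
  rw [pow_succ, ← mul_assoc, mul_right_comm] at h3
  have := le_of_mul_le_mul_right h3 h4
  linarith

theorem Roots1_continuous_p (d : ℕ) (f : ℕ → W → ℂ) (z₀ : W) (ρ : ℝ) :
    Continuous (Roots1_p d f z₀ ρ) :=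
  continuous_fst.comp continuous_subtype_val

variable [NormedSpace ℂ W] [FiniteDimensional ℂ W]

theorem Roots1_closed_val {d : ℕ} {f : ℕ → W → ℂ} (hf : ∀ k ≤ d, f k ∈ PF W) (z₀ : W) (ρ : ℝ) :
    IsClosed {q : ↥(ball z₀ ρ) × ℂ | Roots2_F d f (q.1.1, q.2) = 0} := by
  have h := (Roots2_contDiff f hf 0).continuous
  exact isClosed_eq (h.comp ((continuous_subtype_val.comp continuous_fst).prodMk continuous_snd))
    continuous_const

theorem Roots1_proper {d : ℕ} {f : ℕ → W → ℂ} (hf : ∀ k ≤ d, f k ∈ PF W)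
    {a : ℂ} (ha : a ≠ 0) (hfd : ∀ z, f d z = a) (z₀ : W) (ρ : ℝ) :
    IsProperMap (Roots1_p d f z₀ ρ) := by
  have hW : ProperSpace W := FiniteDimensional.proper ℂ W
  have hlc : LocallyCompactSpace ↥(ball z₀ ρ) := isOpen_ball.locallyCompactSpace
  rw [isProperMap_iff_isCompact_preimage]
  refine ⟨Roots1_continuous_p d f z₀ ρ, fun K hK => ?_⟩
  have hcont : ContinuousOn (fun z : ↥(ball z₀ ρ) => ∑ k ∈ Finset.range d, ‖f k z.1‖) K := by
    refine (continuous_finsetSum _ fun k hk => ?_).continuousOn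
    have hk' : k ≤ d := (Finset.mem_range.1 hk).le
    exact ((PF.contDiff (hf k hk') 0).continuous.comp continuous_subtype_val).norm
  obtain ⟨C, hC⟩ := hK.bddAbove_image hcont
  have hE : Topology.IsClosedEmbedding
      (Subtype.val : {q : ↥(ball z₀ ρ) × ℂ // Roots2_F d f (q.1.1, q.2) = 0} → _) :=
    (Roots1_closed_val hf z₀ ρ).isClosedEmbedding_subtypeVal
  have hcomp := hE.isCompact_preimage
    (hK.prod (isCompact_closedBall (0 : ℂ) (max 1 (C / ‖a‖))))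
  have hset : Roots1_p d f z₀ ρ ⁻¹' K =
      (Subtype.val : {q : ↥(ball z₀ ρ) × ℂ // Roots2_F d f (q.1.1, q.2) = 0} → _) ⁻¹'
        (K ×ˢ closedBall (0 : ℂ) (max 1 (C / ‖a‖))) := by
    ext q
    constructor
    · intro hq
      refine ⟨hq, ?_⟩
      rw [mem_closedBall_zero_iff]
      have h1 := hC (mem_image_of_mem _ hq)
      have h2 := Roots1_bound (c := fun k => f k q.1.1.1) (C := C) (d := d) (w := q.1.2)
        (by rw [hfd]; exact ha) h1 q.2
      rwa [hfd] at h2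
    · intro hq
      exact hq.1
  rw [hset]
  exact hcomp

theorem Roots1_local {d : ℕ} {f : ℕ → W → ℂ} (hf : ∀ k ≤ d, f k ∈ PF W) (z₀ : W) {ρ : ℝ}
    (hs : ∀ z ∈ ball z₀ ρ, ∀ w : ℂ, (pol d (fun k => f k z)).eval w = 0 →
      (Polynomial.derivative (pol d (fun k => f k z))).eval w ≠ 0) :
    IsLocalHomeomorph (Roots1_p d f z₀ ρ) := by
  -- the inclusion of `E` in the product
  have hval : Topology.IsInducing
      (fun q : Roots1_E d f z₀ ρ => (q.1.1.1, q.1.2)) := by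
    have h1 : Topology.IsInducing (Subtype.val : {q : ↥(ball z₀ ρ) × ℂ //
        Roots2_F d f (q.1.1, q.2) = 0} → _) := Topology.IsInducing.subtypeVal
    have h2 : Topology.IsInducing (fun q : ↥(ball z₀ ρ) × ℂ => (q.1.1, q.2)) :=
      Topology.IsInducing.subtypeVal.prodMap Topology.IsInducing.id
    exact h2.comp h1
  have hopen : IsOpenMap (Roots1_p d f z₀ ρ) := by
    rw [isOpenMap_iff_nhds_le]
    intro e N hN
    rw [Filter.mem_map, hval.nhds_eq_comap] at hN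
    obtain ⟨N', hN', hNN⟩ := hN
    obtain ⟨ψ, hψ, hψ1, hψ2⟩ := Roots2_local f hf e.1.1.1 e.1.2 e.2 (hs _ e.1.1.2 _ e.2)
    have ht : Filter.Tendsto (fun z : ↥(ball z₀ ρ) => (z.1, ψ z.1)) (𝓝 e.1.1)
        (𝓝 (e.1.1.1, e.1.2)) := by
      have h1 : Filter.Tendsto (fun z : ↥(ball z₀ ρ) => z.1) (𝓝 e.1.1) (𝓝 e.1.1.1) :=
        continuous_subtype_val.continuousAt
      have h2 : Filter.Tendsto ψ (𝓝 e.1.1.1) (𝓝 e.1.2) := by
        have := hψ.continuousAt.tendsto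
        rwa [hψ1] at this
      exact h1.prodMk_nhds (h2.comp h1)
    have h3 : ∀ᶠ z in 𝓝 e.1.1, z ∈ N := by
      filter_upwards [ht.eventually hψ2, ht.eventually hN'] with z hz hz'
      have h4 : Roots2_F d f (z.1, ψ z.1) = 0 := hz.2 rfl
      exact hNN (a := (⟨(z, ψ z.1), h4⟩ : Roots1_E d f z₀ ρ)) hz'
    exact h3
  rw [isLocalHomeomorph_iff_isOpenEmbedding_restrict]
  intro e
  obtain ⟨ψ, hψ, hψ1, hψ2⟩ := Roots2_local f hf e.1.1.1 e.1.2 e.2 (hs _ e.1.1.2 _ e.2)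
  obtain ⟨U, hU, hUo, heU⟩ := _root_.eventually_nhds_iff.1 hψ2
  refine ⟨(fun q : Roots1_E d f z₀ ρ => (q.1.1.1, q.1.2)) ⁻¹' U, ?_, ?_⟩
  · exact (hUo.preimage hval.continuous).mem_nhds heU
  · refine Topology.IsOpenEmbedding.of_continuous_injective_isOpenMap ?_ ?_ ?_
    · exact (Roots1_continuous_p d f z₀ ρ).comp continuous_subtype_val
    · rintro ⟨q, hq⟩ ⟨q', hq'⟩ hqq
      have h1 : q.1.1 = q'.1.1 := hqq
      have h2 := (hU _ hq).1 q.2
      have h3 := (hU _ hq').1 q'.2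
      have h4 : q.1.2 = q'.1.2 := by
        rw [← h2, ← h3]
        show ψ q.1.1.1 = ψ q'.1.1.1
        rw [h1]
      exact Subtype.ext (Subtype.ext (Prod.ext h1 h4))
    · exact hopen.domRestrict (hUo.preimage hval.continuous)

theorem Roots1_covering {d : ℕ} {f : ℕ → W → ℂ} (hf : ∀ k ≤ d, f k ∈ PF W)
    {a : ℂ} (ha : a ≠ 0) (hfd : ∀ z, f d z = a) (z₀ : W) {ρ : ℝ}
    (hs : ∀ z ∈ ball z₀ ρ, ∀ w : ℂ, (pol d (fun k => f k z)).eval w = 0 →
      (Polynomial.derivative (pol d (fun k => f k z))).eval w ≠ 0) :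
    IsCoveringMap (Roots1_p d f z₀ ρ) := by
  rw [isCoveringMap_iff_isCoveringMapOn_univ]
  refine IsClosedMap.isCoveringMapOn_of_isLocalHomeomorphOn
    (Roots1_proper hf ha hfd z₀ ρ).isClosedMap ?_ (Roots1_local hf z₀ hs).isLocalHomeomorphOn
  intro z _
  have hpol : pol d (fun k => f k z.1) ≠ 0 := by
    intro h0
    refine hs z.1 z.2 0 ?_ ?_ <;> rw [h0] <;> simp
  have hfin : {w : ℂ | (pol d (fun k => f k z.1)).eval w = 0}.Finite := by
    have := Polynomial.finite_setOfPred_isRoot hpol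
    exact this
  refine Set.Finite.of_finite_image (f := fun q : Roots1_E d f z₀ ρ => q.1.2) (hfin.subset ?_) ?_
  · rintro w ⟨q, hq, rfl⟩
    have h1 : q.1.1 = z := hq
    have h2 := q.2
    rw [h1] at h2
    exact h2
  · intro q hq q' hq' h
    have h1 : q.1.1 = z := hq
    have h2 : q'.1.1 = z := hq'
    exact Subtype.ext (Prod.ext (h1.trans h2.symm) h)

end Roots1

/-- through every zero over the ball there is a unique continuous root function on the ball -/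
theorem roots_cont {W : Type} [NormedAddCommGroup W] [NormedSpace ℂ W]
    [FiniteDimensional ℂ W] {d : ℕ} (f : ℕ → W → ℂ) (hf : ∀ k ≤ d, f k ∈ PF W)
    {a : ℂ} (ha : a ≠ 0) (hfd : ∀ z, f d z = a) (z₀ : W) {ρ : ℝ} (hρ : 0 < ρ)
    (hs : ∀ z ∈ ball z₀ ρ, ∀ w : ℂ, (pol d (fun k => f k z)).eval w = 0 →
      (Polynomial.derivative (pol d (fun k => f k z))).eval w ≠ 0)
    (z₁ : W) (hz₁ : z₁ ∈ ball z₀ ρ) (w₁ : ℂ) (hw₁ : (pol d (fun k => f k z₁)).eval w₁ = 0) :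
    ∃ h : W → ℂ, ContinuousOn h (ball z₀ ρ) ∧ h z₁ = w₁ ∧
      (∀ z ∈ ball z₀ ρ, (pol d (fun k => f k z)).eval (h z) = 0) ∧
      ∀ h' : W → ℂ, ContinuousOn h' (ball z₀ ρ) → h' z₁ = w₁ →
        (∀ z ∈ ball z₀ ρ, (pol d (fun k => f k z)).eval (h' z) = 0) → EqOn h' h (ball z₀ ρ) := by
  classical
  have hcov := Roots1_covering hf ha hfd z₀ hs
  have hctr : ContractibleSpace ↥(ball z₀ ρ) := contractibleSpace_ball hρ
  have hlpc : LocallyPathConnectedSpace ↥(ball z₀ ρ) := (convex_ball z₀ ρ).locallyPathConnectedSpace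
  obtain ⟨F, ⟨hF1, hF2⟩, hFu⟩ := hcov.existsUnique_continuousMap_lifts
    (ContinuousMap.id ↥(ball z₀ ρ)) ⟨z₁, hz₁⟩
    (⟨(⟨z₁, hz₁⟩, w₁), hw₁⟩ : Roots1_E d f z₀ ρ) rfl
  have hF2' : ∀ z, (F z).1.1 = z := fun z => congrFun hF2 z
  refine ⟨fun z => if hz : z ∈ ball z₀ ρ then (F ⟨z, hz⟩).1.2 else 0, ?_, ?_, ?_, ?_⟩
  · rw [continuousOn_iff_continuous_domRestrict]
    have h1 : Continuous (fun z : ↥(ball z₀ ρ) => (F z).1.2) :=
      (continuous_snd.comp continuous_subtype_val).comp F.continuous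
    refine h1.congr fun z => ?_
    simp [Set.domRestrict]
  · simp only [dif_pos hz₁, hF1]
  · intro z hz
    simp only [dif_pos hz]
    have h1 := (F ⟨z, hz⟩).2
    rw [hF2'] at h1
    exact h1
  · intro h' hc' h1' h2' z hz
    have hc'' : Continuous (fun z : ↥(ball z₀ ρ) => h' z.1) :=
      continuousOn_iff_continuous_domRestrict.1 hc'
    have hcF : Continuous (fun z : ↥(ball z₀ ρ) =>
        (⟨(z, h' z.1), h2' z.1 z.2⟩ : Roots1_E d f z₀ ρ)) :=
      Continuous.subtype_mk (continuous_id.prodMk hc'') _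
    have h3 := hFu ⟨_, hcF⟩ ⟨by
      show (⟨(⟨z₁, hz₁⟩, h' z₁), h2' z₁ hz₁⟩ : Roots1_E d f z₀ ρ) = _
      exact Subtype.ext (Prod.ext rfl h1'), by funext z; rfl⟩
    have h4 := congrArg (fun G : C(↥(ball z₀ ρ), Roots1_E d f z₀ ρ) => (G ⟨z, hz⟩).1.2) h3
    simp only [dif_pos hz]
    exact h4

end HMA
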