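import Pool.Agent.H85.MA.Defs

/-! # Module SIEGEL2: linear algebra of jets -/

open MeasureTheory Metric Set
open scoped ENNReal Topology ContDiff

namespace HMA

/-- the homogeneous polynomial attached to a continuous multilinear form -/
noncomputable def Siegel2_A {m : ℕ} (k : ℕ) (q : ContinuousMultilinearMap ℂ (fun _ : Fin k => Cn m) ℂ) :
    MvPolynomial (Fin m) ℂ :=
  ∑ r : Fin k → Fin m, MvPolynomial.C (q fun l => bv m (r l)) * ∏ l, MvPolynomial.X (r l)

theorem Siegel2_eval {m k : ℕ} (q : ContinuousMultilinearMap ℂ (fun _ : Fin k => Cn m) ℂ)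
    (u : Cn m) : MvPolynomial.eval (fun j => u j) (Siegel2_A k q) = q fun _ => u := by
  have hu : u = ∑ j, u j • bv m j := by
    ext i
    simp [bv, Pi.single_apply]
  have h1 : (q fun _ => u) = q.toMultilinearMap fun _ : Fin k => ∑ j, u j • bv m j := by
    rw [← hu]; rfl
  rw [h1, MultilinearMap.map_sum]
  unfold Siegel2_A
  rw [map_sum]
  refine Finset.sum_congr rfl fun r _ => ?_
  rw [MultilinearMap.map_smul_univ]
  simp [mul_comm]

theorem Siegel2_hom {m k : ℕ} (q : ContinuousMultilinearMap ℂ (fun _ : Fin k => Cn m) ℂ) :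
    (Siegel2_A k q).IsHomogeneous k := by
  refine MvPolynomial.IsHomogeneous.sum _ _ _ fun r _ => ?_
  have h1 : (∏ l : Fin k, (MvPolynomial.X (r l) : MvPolynomial (Fin m) ℂ)).IsHomogeneous
      (∑ _l : Fin k, 1) :=
    MvPolynomial.IsHomogeneous.prod _ _ _ fun l _ => MvPolynomial.isHomogeneous_X _ _
  have h2 : (∑ _l : Fin k, 1) = k := by simp
  rw [h2] at h1
  exact h1.C_mul _

theorem Siegel2_deriv {m k : ℕ} {g : Cn m → ℂ} {p : FormalMultilinearSeries ℂ (Cn m) ℂ}
    (hp : HasFPowerSeriesAt g p 0) (u : Cn m) :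
    iteratedDeriv k (fun t : ℂ => g (t • u)) 0 = (k.factorial : ℂ) * p k fun _ => u := by
  set L : ℂ →L[ℂ] Cn m := (ContinuousLinearMap.id ℂ ℂ).smulRight u with hL
  have hp' : HasFPowerSeriesAt g p (L 0) := by rw [map_zero]; exact hp
  obtain ⟨r, hr⟩ := hp'.compContinuousLinearMap
  have h1 := hr.factorial_smul (1 : ℂ) k
  rw [iteratedDeriv_eq_iteratedFDeriv]
  have h2 : (fun t : ℂ => g (t • u)) = g ∘ L := by
    funext t
    simp [hL]
  rw [h2, ← h1, nsmul_eq_mul]
  congr 1
  simp [FormalMultilinearSeries.compContinuousLinearMap, hL, Function.comp_def]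

/-- more than `N^m` analytic functions on `ℂ^m`: a nontrivial combination has vanishing homogeneous
Taylor parts of order `< N` -/
theorem siegel_lin {m N : ℕ} {ι : Type} [Fintype ι] (hι : N ^ m < Fintype.card ι)
    (g : ι → Cn m → ℂ) (hg : ∀ i, AnalyticAt ℂ (g i) 0) :
    ∃ c : ι → ℂ, ∑ i, ‖c i‖ = 1 ∧ ∀ u : Cn m, ∀ k < N,
      iteratedDeriv k (fun t : ℂ => ∑ i, c i * g i (t • u)) 0 = 0 := by
  classical
  choose p hp using hg
  let Φ : (ι → ℂ) →ₗ[ℂ] ((Fin m → Fin N) → ℂ) :=
    { toFun := fun c x => ∑ i, c i * ∑ k ∈ Finset.range N,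
        MvPolynomial.eval (fun j => ((x j : ℕ) : ℂ)) (Siegel2_A k (p i k))
      map_add' := by
        intro c c'
        funext x
        simp only [Pi.add_apply, add_mul, Finset.sum_add_distrib]
      map_smul' := by
        intro a c
        funext x
        simp only [Pi.smul_apply, smul_eq_mul, RingHom.id_apply, Finset.mul_sum, mul_assoc] }
  have hker : LinearMap.ker Φ ≠ ⊥ := by
    apply LinearMap.ker_ne_bot_of_finrank_lt
    rw [Module.finrank_fintype_fun_eq_card, Module.finrank_fintype_fun_eq_card]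
    simpa using hι
  obtain ⟨c0, hc0, hne⟩ := Submodule.exists_mem_ne_zero_of_ne_bot hker
  have hs : 0 < ∑ i, ‖c0 i‖ := by
    obtain ⟨i, hi⟩ := Function.ne_iff.1 hne
    exact Finset.sum_pos' (fun i _ => norm_nonneg _) ⟨i, Finset.mem_univ _, norm_pos_iff.2 hi⟩
  set s : ℝ := ∑ i, ‖c0 i‖ with hsdef
  refine ⟨fun i => (s : ℂ)⁻¹ * c0 i, ?_, ?_⟩
  · simp only [norm_mul, norm_inv, Complex.norm_real, Real.norm_eq_abs, abs_of_pos hs]
    rw [← Finset.mul_sum, ← hsdef, inv_mul_cancel₀ hs.ne']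
  intro u k hk
  -- the polynomial vanishes
  set P : MvPolynomial (Fin m) ℂ := ∑ k ∈ Finset.range N, ∑ i, MvPolynomial.C (c0 i) *
    Siegel2_A k (p i k) with hP
  have hPhom : ∀ k, (∑ i, MvPolynomial.C (c0 i) * Siegel2_A k (p i k)).IsHomogeneous k := fun k =>
    MvPolynomial.IsHomogeneous.sum _ _ _ fun i _ => (Siegel2_hom (p i k)).C_mul _
  have hdeg : P.totalDegree < N := by
    have h1 : P.totalDegree ≤ N - 1 := by
      refine (MvPolynomial.totalDegree_finsetSum _ _).trans (Finset.sup_le fun l hl => ?_)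
      have := (hPhom l).totalDegree_le
      have := Finset.mem_range.1 hl
      omega
    omega
  have hP0 : P = 0 := by
    apply MvPolynomial.eq_zero_of_eval_zero_at_prod_finset P
      (fun _ => (Finset.range N).image fun a : ℕ => (a : ℂ))
    · intro j
      rw [Finset.card_image_of_injective _ Nat.cast_injective, Finset.card_range]
      exact (MvPolynomial.degreeOf_le_totalDegree _ _).trans_lt hdeg
    · intro x hx
      simp only [Finset.mem_image, Finset.mem_range] at hx
      choose y hy hxy using hx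
      have h1 := congrFun (LinearMap.mem_ker.1 hc0) (fun j => ⟨y j, hy j⟩)
      have h2 : Φ c0 (fun j => ⟨y j, hy j⟩) = MvPolynomial.eval x P := by
        have hxe : x = fun j => ((y j : ℕ) : ℂ) := funext fun j => (hxy j).symm
        show ∑ i, c0 i * ∑ k ∈ Finset.range N, MvPolynomial.eval (fun j => ((y j : ℕ) : ℂ))
          (Siegel2_A k (p i k)) = _
        rw [hP, map_sum, ← hxe]
        simp only [map_sum, map_mul, MvPolynomial.eval_C, Finset.mul_sum]
        rw [Finset.sum_comm]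
      rw [← h2, h1]
      rfl
  have hk0 : ∑ i, MvPolynomial.C (c0 i) * Siegel2_A k (p i k) = 0 := by
    have h1 : MvPolynomial.homogeneousComponent k P = ∑ i, MvPolynomial.C (c0 i) *
        Siegel2_A k (p i k) := by
      rw [hP, map_sum, Finset.sum_eq_single k]
      · exact MvPolynomial.homogeneousComponent_of_mem (hPhom k) |>.trans (if_pos rfl)
      · intro l _ hl
        rw [MvPolynomial.homogeneousComponent_of_mem (hPhom l), if_neg (Ne.symm hl)]
      · intro h; exact absurd (Finset.mem_range.2 hk) h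
    rw [← h1, hP0, map_zero]
  -- derivatives
  have h2 : (fun t : ℂ => ∑ i, (s : ℂ)⁻¹ * c0 i * g i (t • u)) =
      fun t => ∑ i, ((fun t : ℂ => (s : ℂ)⁻¹ * c0 i * g i (t • u)) t) := rfl
  have han : ∀ i, AnalyticAt ℂ (fun t : ℂ => g i (t • u)) 0 := by
    intro i
    have h3 : AnalyticAt ℂ (g i) ((fun t : ℂ => t • u) 0) := by
      simp only [zero_smul]
      exact (hp i).analyticAt
    have h4 : AnalyticAt ℂ (fun t : ℂ => t • u) 0 := by fun_prop
    exact AnalyticAt.comp (g := g i) (f := fun t : ℂ => t • u) h3 h4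
  have h3 : iteratedDeriv k (fun t : ℂ => ∑ i, (s : ℂ)⁻¹ * c0 i * g i (t • u)) 0 =
      ∑ i, iteratedDeriv k (fun t : ℂ => (s : ℂ)⁻¹ * c0 i * g i (t • u)) 0 := by
    rw [iteratedDeriv_eq_iteratedFDeriv]
    have := iteratedFDeriv_sum_apply (𝕜 := ℂ) (u := Finset.univ) (n := k) (x := (0 : ℂ))
      (f := fun i (t : ℂ) => (s : ℂ)⁻¹ * c0 i * g i (t • u))
      (fun i _ => (analyticAt_const.mul (han i)).contDiffAt)
    have h5 : (fun t : ℂ => ∑ i, (s : ℂ)⁻¹ * c0 i * g i (t • u)) =
        ∑ i, fun t : ℂ => (s : ℂ)⁻¹ * c0 i * g i (t • u) := by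
      funext t; simp
    rw [h5, this]
    simp [iteratedDeriv_eq_iteratedFDeriv]
  rw [h3]
  have h4 : ∀ i, iteratedDeriv k (fun t : ℂ => (s : ℂ)⁻¹ * c0 i * g i (t • u)) 0 =
      (s : ℂ)⁻¹ * (k.factorial : ℂ) * (c0 i * p i k fun _ => u) := by
    intro i
    rw [iteratedDeriv_const_mul_field, Siegel2_deriv (hp i)]
    ring
  rw [Finset.sum_congr rfl fun i _ => h4 i, ← Finset.mul_sum]
  have h5 := congrArg (MvPolynomial.eval fun j => u j) hk0
  rw [map_sum, map_zero] at h5
  simp only [map_mul, MvPolynomial.eval_C, Siegel2_eval] at h5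
  rw [h5, mul_zero]

end HMA
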