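import Pool.Agent.H85.MA.Siegel1
import Pool.Agent.H85.MA.Siegel2

/-! # Module SIEGEL3: auxiliary polynomials vanishing to high order along a graph -/

open MeasureTheory Metric Set
open scoped ENNReal Topology ContDiff

namespace HMA

theorem Siegel_coord_analytic {m : ℕ} (i : Fin m) (u : Cn m) :
    AnalyticAt ℂ (fun u : Cn m => u i) u :=
  (EuclideanSpace.proj (𝕜 := ℂ) i : Cn m →L[ℂ] ℂ).analyticAt u

theorem Siegel_term_analytic {m K : ℕ} (α : (Fin m → Fin K) × Fin K) (h : Cn m → ℂ) (u : Cn m)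
    (hh : AnalyticAt ℂ h u) :
    AnalyticAt ℂ (fun u : Cn m => (∏ i, u i ^ (α.1 i : ℕ)) * h u ^ (α.2 : ℕ)) u := by
  refine AnalyticAt.fun_mul ?_ (hh.fun_pow _)
  exact Finset.analyticAt_fun_prod _ (fun i _ => (Siegel_coord_analytic i u).fun_pow _)

theorem siegel (m N K : ℕ) (hK : 1 ≤ K) (hNK : N ^ m < K ^ (m + 1)) {ρ R : ℝ} (hρ : 0 < ρ)
    (hρ1 : ρ ≤ 1) (hR : 1 ≤ R) (h : Cn m → ℂ) (hh : ∀ u ∈ ball (0 : Cn m) ρ, AnalyticAt ℂ h u)
    (hb : ∀ u ∈ ball (0 : Cn m) ρ, ‖h u‖ ≤ R) :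
    ∃ c : (Fin m → Fin K) × Fin K → ℂ, ∑ α, ‖c α‖ = 1 ∧ ∀ u ∈ ball (0 : Cn m) ρ,
      ‖∑ α, c α * (∏ i, u i ^ (α.1 i : ℕ)) * h u ^ (α.2 : ℕ)‖ ≤ R ^ (K - 1) * (‖u‖ / ρ) ^ N := by
  have hcard : N ^ m < Fintype.card ((Fin m → Fin K) × Fin K) := by
    rw [Fintype.card_prod, Fintype.card_fun, Fintype.card_fin, Fintype.card_fin, ← pow_succ]
    exact hNK
  obtain ⟨c, hc1, hc2⟩ := siegel_lin hcard
    (fun α u => (∏ i, u i ^ (α.1 i : ℕ)) * h u ^ (α.2 : ℕ))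
    (fun α => Siegel_term_analytic α h 0 (hh 0 (mem_ball_self hρ)))
  refine ⟨c, hc1, fun u hu => ?_⟩
  have hG : ∀ u ∈ ball (0 : Cn m) ρ, AnalyticAt ℂ
      (fun u : Cn m => ∑ α, c α * ((∏ i, u i ^ (α.1 i : ℕ)) * h u ^ (α.2 : ℕ))) u := by
    intro u hu
    exact Finset.analyticAt_fun_sum _ (fun α _ =>
      analyticAt_const.fun_mul (Siegel_term_analytic α h u (hh u hu)))
  have hS : ∀ u ∈ ball (0 : Cn m) ρ,
      ‖∑ α, c α * ((∏ i, u i ^ (α.1 i : ℕ)) * h u ^ (α.2 : ℕ))‖ ≤ R ^ (K - 1) := by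
    intro u hu
    have hun : ‖u‖ ≤ 1 := by
      rw [mem_ball_zero_iff] at hu
      linarith
    calc ‖∑ α, c α * ((∏ i, u i ^ (α.1 i : ℕ)) * h u ^ (α.2 : ℕ))‖
        ≤ ∑ α, ‖c α * ((∏ i, u i ^ (α.1 i : ℕ)) * h u ^ (α.2 : ℕ))‖ := norm_sum_le _ _
      _ ≤ ∑ α, ‖c α‖ * R ^ (K - 1) := by
          refine Finset.sum_le_sum fun α _ => ?_
          rw [norm_mul]
          refine mul_le_mul_of_nonneg_left ?_ (norm_nonneg _)
          rw [norm_mul, norm_prod, norm_pow]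
          have h1 : ∏ i, ‖u i ^ (α.1 i : ℕ)‖ ≤ 1 := by
            refine Finset.prod_le_one (fun i _ => norm_nonneg _) (fun i _ => ?_)
            rw [norm_pow]
            exact pow_le_one₀ (norm_nonneg _) ((PiLp.norm_apply_le u i).trans hun)
          have h2 : ‖h u‖ ^ (α.2 : ℕ) ≤ R ^ (K - 1) := by
            calc ‖h u‖ ^ (α.2 : ℕ) ≤ R ^ (α.2 : ℕ) := pow_le_pow_left₀ (norm_nonneg _) (hb u hu) _
              _ ≤ R ^ (K - 1) := pow_le_pow_right₀ hR (by have := α.2.2; omega)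
          calc (∏ i, ‖u i ^ (α.1 i : ℕ)‖) * ‖h u‖ ^ (α.2 : ℕ) ≤ 1 * R ^ (K - 1) :=
                mul_le_mul h1 h2 (pow_nonneg (norm_nonneg _) _) zero_le_one
            _ = R ^ (K - 1) := one_mul _
      _ = R ^ (K - 1) := by rw [← Finset.sum_mul, hc1, one_mul]
  have h3 := schwarz_order (N := N) hρ _ hG hS (fun u k hk => hc2 u k hk) hu
  refine (le_of_eq ?_).trans h3
  congr 1
  exact Finset.sum_congr rfl (fun α _ => by ring)

end HMA
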