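import Pool.Agent.H85.MA.Defs

/-! # Module SIEGEL1: Schwarz lemma of order `N` -/

open MeasureTheory Metric Set
open scoped ENNReal Topology ContDiff

namespace HMA

theorem siegel1_iter {r M : ℝ} (hr : 0 < r) (g : ℂ → ℂ)
    (hg : DifferentiableOn ℂ g (ball 0 r)) (hM : ∀ z ∈ ball (0 : ℂ) r, ‖g z‖ ≤ M) (N : ℕ)
    (h0 : ∀ k < N, ((Function.swap dslope 0)^[k] g) 0 = 0) :
    DifferentiableOn ℂ ((Function.swap dslope 0)^[N] g) (ball 0 r) ∧
      ∀ z ∈ ball (0 : ℂ) r, ‖((Function.swap dslope 0)^[N] g) z‖ ≤ M / r ^ N ∧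
        g z = z ^ N * ((Function.swap dslope 0)^[N] g) z := by
  induction N with
  | zero =>
    refine ⟨hg, fun z hz => ⟨?_, ?_⟩⟩
    · simpa using hM z hz
    · simp
  | succ N ih =>
    obtain ⟨h1, h2⟩ := ih fun k hk => h0 k (Nat.lt_succ_of_lt hk)
    set gN := (Function.swap dslope 0)^[N] g with hgN
    have hN0 : gN 0 = 0 := h0 N (Nat.lt_succ_self N)
    have hstep : (Function.swap dslope 0)^[N + 1] g = dslope gN 0 := by
      rw [Function.iterate_succ_apply']
    rw [hstep]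
    refine ⟨?_, fun z hz => ⟨?_, ?_⟩⟩
    · exact (Complex.differentiableOn_dslope (ball_mem_nhds _ hr)).2 h1
    · have h3 : MapsTo gN (ball 0 r) (closedBall (gN 0) (M / r ^ N)) := by
        intro w hw
        rw [hN0, mem_closedBall_zero_iff]
        exact (h2 w hw).1
      have h4 := Complex.norm_dslope_le_div_of_mapsTo_ball h1 h3 hz
      calc ‖dslope gN 0 z‖ ≤ M / r ^ N / r := h4
        _ = M / r ^ (N + 1) := by rw [pow_succ, div_div]
    · have h3 := sub_smul_dslope gN 0 z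
      rw [sub_zero, hN0, sub_zero, smul_eq_mul] at h3
      rw [(h2 z hz).2, pow_succ, mul_assoc, h3]

theorem schwarz_order {m N : ℕ} {ρ S : ℝ} (hρ : 0 < ρ) (G : Cn m → ℂ)
    (hG : ∀ u ∈ ball (0 : Cn m) ρ, AnalyticAt ℂ G u) (hS : ∀ u ∈ ball (0 : Cn m) ρ, ‖G u‖ ≤ S)
    (h0 : ∀ u : Cn m, ∀ k < N, iteratedDeriv k (fun t : ℂ => G (t • u)) 0 = 0)
    {u : Cn m} (hu : u ∈ ball (0 : Cn m) ρ) : ‖G u‖ ≤ S * (‖u‖ / ρ) ^ N := by
  by_cases hu0 : u = 0
  · subst hu0
    rcases Nat.eq_zero_or_pos N with hN | hN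
    · subst hN
      simpa using hS 0 hu
    · have h1 := h0 0 0 hN
      simp only [iteratedDeriv_zero, smul_zero] at h1
      rw [h1, norm_zero, norm_zero, zero_div, zero_pow hN.ne', mul_zero]
  have hun : 0 < ‖u‖ := norm_pos_iff.mpr hu0
  rw [mem_ball_zero_iff] at hu
  have hr : 0 < ρ / ‖u‖ := by positivity
  have hmem : ∀ t ∈ ball (0 : ℂ) (ρ / ‖u‖), t • u ∈ ball (0 : Cn m) ρ := by
    intro t ht
    rw [mem_ball_zero_iff] at ht ⊢
    rw [norm_smul]
    rwa [lt_div_iff₀ hun] at ht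
  have han : ∀ t ∈ ball (0 : ℂ) (ρ / ‖u‖), AnalyticAt ℂ (fun t : ℂ => G (t • u)) t := by
    intro t ht
    have h1 : AnalyticAt ℂ (fun t : ℂ => t • u) t := analyticAt_id.smul analyticAt_const
    exact AnalyticAt.fun_comp (hG _ (hmem t ht)) h1
  have hd : DifferentiableOn ℂ (fun t : ℂ => G (t • u)) (ball 0 (ρ / ‖u‖)) := fun t ht =>
    (han t ht).differentiableAt.differentiableWithinAt
  have h0' : ∀ k < N, ((Function.swap dslope 0)^[k] (fun t : ℂ => G (t • u))) 0 = 0 := by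
    intro k hk
    have h1 := (han 0 (mem_ball_self hr)).hasFPowerSeriesAt
    have h2 := HasFPowerSeriesAt.has_fpower_series_iterate_dslope_fslope k h1
    have h3 := h2.coeff_zero 1
    have h4 : (FormalMultilinearSeries.fslope^[k] (FormalMultilinearSeries.ofScalars ℂ
        fun n => iteratedDeriv n (fun t : ℂ => G (t • u)) 0 / (n.factorial : ℂ))).coeff 0 =
        iteratedDeriv k (fun t : ℂ => G (t • u)) 0 / (k.factorial : ℂ) := by
      rw [FormalMultilinearSeries.coeff_iterate_fslope, zero_add,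
        FormalMultilinearSeries.coeff_ofScalars]
    rw [← h3]
    change (FormalMultilinearSeries.fslope^[k] (FormalMultilinearSeries.ofScalars ℂ
        fun n => iteratedDeriv n (fun t : ℂ => G (t • u)) 0 / (n.factorial : ℂ))).coeff 0 = 0
    rw [h4, h0 u k hk, zero_div]
  obtain ⟨-, h5⟩ := siegel1_iter hr _ hd (fun t ht => hS _ (hmem t ht)) N h0'
  have h1mem : (1 : ℂ) ∈ ball (0 : ℂ) (ρ / ‖u‖) := by
    rw [mem_ball_zero_iff, norm_one, lt_div_iff₀ hun, one_mul]
    exact hu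
  obtain ⟨h6, h7⟩ := h5 1 h1mem
  rw [one_smul, one_pow, one_mul] at h7
  rw [h7]
  refine h6.trans (le_of_eq ?_)
  rw [div_pow, div_pow]
  field_simp

end HMA
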