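import Pool.Agent.H85.MA.Defs

/-! # Module SKO1: exponential decay of the sublevel sets of subharmonic functions in one variable -/

open MeasureTheory Metric Set
open scoped ENNReal Topology ContDiff

namespace HMA

/-- Blaschke factor of the disc of radius `r` -/
noncomputable def Sko1_bl (r : ℝ) (η ζ : ℂ) : ℂ :=
  (r : ℂ) * (ζ - η) / ((r : ℂ) ^ 2 - (starRingEnd ℂ) η * ζ)

/-- truncated logarithm of the Blaschke factor -/
noncomputable def Sko1_k (r δ : ℝ) (η ζ : ℂ) : ℝ := Real.log (max ‖Sko1_bl r η ζ‖ δ)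

lemma Sko1_den {r r' : ℝ} (hr' : 0 < r') (hr : r' < r) {η ζ : ℂ} (hη : ‖η‖ ≤ r') (hζ : ‖ζ‖ ≤ r) :
    r * (r - r') ≤ ‖(r : ℂ) ^ 2 - (starRingEnd ℂ) η * ζ‖ ∧
      ‖(r : ℂ) ^ 2 - (starRingEnd ℂ) η * ζ‖ ≤ 2 * r ^ 2 := by
  have hr0 : 0 < r := hr'.trans hr
  have h1 : ‖(r : ℂ) ^ 2‖ = r ^ 2 := by
    rw [norm_pow, Complex.norm_real, Real.norm_of_nonneg hr0.le]
  have h2 : ‖(starRingEnd ℂ) η * ζ‖ ≤ r' * r := by
    rw [norm_mul, RCLike.norm_conj]
    exact mul_le_mul hη hζ (norm_nonneg _) hr'.le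
  constructor
  · have := norm_sub_norm_le ((r : ℂ) ^ 2) ((starRingEnd ℂ) η * ζ)
    rw [h1] at this
    nlinarith
  · have := norm_sub_le ((r : ℂ) ^ 2) ((starRingEnd ℂ) η * ζ)
    rw [h1] at this
    nlinarith

lemma Sko1_bl_upper {r r' : ℝ} (hr' : 0 < r') (hr : r' < r) {η ζ : ℂ} (hη : ‖η‖ ≤ r')
    (hζ : ‖ζ‖ ≤ r) : ‖Sko1_bl r η ζ‖ ≤ 2 * r / (r - r') := by
  have hr0 : 0 < r := hr'.trans hr
  obtain ⟨h1, h2⟩ := Sko1_den hr' hr hη hζ
  have hd : 0 < r * (r - r') := mul_pos hr0 (by linarith)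
  unfold Sko1_bl
  rw [norm_div, norm_mul, Complex.norm_real, Real.norm_of_nonneg hr0.le,
    div_le_div_iff₀ (hd.trans_le h1) (by linarith)]
  have h3 : ‖ζ - η‖ ≤ 2 * r := (norm_sub_le _ _).trans (by linarith)
  calc r * ‖ζ - η‖ * (r - r') = ‖ζ - η‖ * (r * (r - r')) := by ring
    _ ≤ (2 * r) * ‖(r : ℂ) ^ 2 - (starRingEnd ℂ) η * ζ‖ :=
        mul_le_mul h3 h1 hd.le (by linarith)

lemma Sko1_bl_lower {r r' : ℝ} (hr' : 0 < r') (hr : r' < r) {η ζ : ℂ} (hη : ‖η‖ ≤ r')
    (hζ : ‖ζ‖ ≤ r) : ‖ζ - η‖ / (2 * r) ≤ ‖Sko1_bl r η ζ‖ := by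
  have hr0 : 0 < r := hr'.trans hr
  obtain ⟨h1, h2⟩ := Sko1_den hr' hr hη hζ
  have hd : 0 < r * (r - r') := mul_pos hr0 (by linarith)
  unfold Sko1_bl
  rw [norm_div, norm_mul, Complex.norm_real, Real.norm_of_nonneg hr0.le,
    div_le_div_iff₀ (by linarith) (hd.trans_le h1)]
  calc ‖ζ - η‖ * ‖(r : ℂ) ^ 2 - (starRingEnd ℂ) η * ζ‖ ≤ ‖ζ - η‖ * (2 * r ^ 2) :=
        mul_le_mul_of_nonneg_left h2 (norm_nonneg _)
    _ = r * ‖ζ - η‖ * (2 * r) := by ring

lemma Sko1_bl_bdry {r r' : ℝ} (hr' : 0 < r') (hr : r' < r) {η ζ : ℂ} (hη : ‖η‖ ≤ r')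
    (hζ : ‖ζ‖ = r) : ‖Sko1_bl r η ζ‖ = 1 := by
  have hr0 : 0 < r := hr'.trans hr
  have e : (r : ℂ) ^ 2 - (starRingEnd ℂ) η * ζ = ζ * (starRingEnd ℂ) (ζ - η) := by
    rw [map_sub, mul_sub, Complex.mul_conj', hζ]
    ring
  have hne : ζ - η ≠ 0 := by
    intro h
    rw [sub_eq_zero.mp h] at hζ
    linarith
  unfold Sko1_bl
  rw [e, norm_div, norm_mul, norm_mul, RCLike.norm_conj, hζ, Complex.norm_real,
    Real.norm_of_nonneg hr0.le, div_self]
  exact mul_ne_zero hr0.ne' (norm_ne_zero_iff.mpr hne)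

lemma Sko1_bl_zero {r : ℝ} (hr0 : 0 < r) (η : ℂ) : ‖Sko1_bl r η 0‖ = ‖η‖ / r := by
  unfold Sko1_bl
  rw [mul_zero, sub_zero, zero_sub, norm_div, norm_mul, norm_neg, Complex.norm_real,
    Real.norm_of_nonneg hr0.le, norm_pow, Complex.norm_real, Real.norm_of_nonneg hr0.le]
  field_simp

lemma Sko1_k_bdd {r r' δ : ℝ} (hr' : 0 < r') (hr : r' < r) (hδ : 0 < δ) (hδ1 : δ ≤ 1) {η ζ : ℂ}
    (hη : ‖η‖ ≤ r') (hζ : ‖ζ‖ ≤ r) :
    |Sko1_k r δ η ζ| ≤ Real.log (1 / δ) + Real.log (2 * r / (r - r')) := by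
  have hr0 : 0 < r := hr'.trans hr
  have hB : 1 ≤ 2 * r / (r - r') := by
    rw [le_div_iff₀ (by linarith)]
    linarith
  have h1 : Real.log δ ≤ Sko1_k r δ η ζ := Real.log_le_log hδ (le_max_right _ _)
  have h2 : Sko1_k r δ η ζ ≤ Real.log (2 * r / (r - r')) := by
    refine Real.log_le_log (hδ.trans_le (le_max_right _ _)) ?_
    exact max_le (Sko1_bl_upper hr' hr hη hζ) (hδ1.trans hB)
  have h3 : 0 ≤ Real.log (2 * r / (r - r')) := Real.log_nonneg hB
  have h4 : 0 ≤ Real.log (1 / δ) := Real.log_nonneg (by rw [le_div_iff₀ hδ]; linarith)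
  have h5 : Real.log (1 / δ) = - Real.log δ := by rw [one_div, Real.log_inv]
  rw [abs_le]
  constructor <;> linarith

lemma Sko1_k_meas (r δ : ℝ) : Measurable (fun p : ℂ × ℂ => Sko1_k r δ p.1 p.2) := by
  unfold Sko1_k Sko1_bl
  have h1 : Measurable (fun p : ℂ × ℂ => (r : ℂ) * (p.2 - p.1) /
      ((r : ℂ) ^ 2 - (starRingEnd ℂ) p.1 * p.2)) := by
    refine Measurable.div (by fun_prop) ?_
    refine Measurable.sub measurable_const (Measurable.mul ?_ measurable_snd)
    exact (Complex.continuous_conj.measurable).comp measurable_fst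
  exact Real.measurable_log.comp (h1.norm.max measurable_const)

/-- the unnormalised potential -/
noncomputable def Sko1_p (r δ : ℝ) (E : Set ℂ) (ζ : ℂ) : ℝ := ∫ η in E, Sko1_k r δ η ζ

lemma Sko1_k_cont {r r' δ : ℝ} (hr' : 0 < r') (hr : r' < r) (hδ : 0 < δ) {η : ℂ}
    (hη : ‖η‖ ≤ r') : ContinuousOn (fun ζ => Sko1_k r δ η ζ) (closedBall 0 r) := by
  unfold Sko1_k Sko1_bl
  have hr0 : 0 < r := hr'.trans hr
  refine ContinuousOn.log ?_ ?_
  · refine ContinuousOn.sup (ContinuousOn.norm ?_) continuousOn_const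
    refine ContinuousOn.div (by fun_prop) (by fun_prop) ?_
    intro ζ hζ h0
    have := (Sko1_den hr' hr hη (mem_closedBall_zero_iff.mp hζ)).1
    rw [h0, norm_zero] at this
    have hd : 0 < r * (r - r') := mul_pos hr0 (by linarith)
    linarith
  · intro ζ _
    exact (hδ.trans_le (le_max_right _ _)).ne'

lemma Sko1_k_int {r r' δ : ℝ} (hr' : 0 < r') (hr : r' < r) (hδ : 0 < δ) (hδ1 : δ ≤ 1) {E : Set ℂ}
    (hEm : MeasurableSet E) (hE : ∀ η ∈ E, ‖η‖ ≤ r') (hEf : volume E < ⊤) {ζ : ℂ}
    (hζ : ‖ζ‖ ≤ r) : IntegrableOn (fun η => Sko1_k r δ η ζ) E := by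
  refine Measure.integrableOn_of_bounded (M := Real.log (1 / δ) + Real.log (2 * r / (r - r')))
    hEf.ne ?_ ?_
  · exact ((Sko1_k_meas r δ).comp (measurable_id.prodMk measurable_const)).aestronglyMeasurable
  · filter_upwards [ae_restrict_mem hEm] with η hη
    rw [Real.norm_eq_abs]
    exact Sko1_k_bdd hr' hr hδ hδ1 (hE η hη) hζ

lemma Sko1_p_cont {r r' δ : ℝ} (hr' : 0 < r') (hr : r' < r) (hδ : 0 < δ) (hδ1 : δ ≤ 1) {E : Set ℂ}
    (hEm : MeasurableSet E) (hE : ∀ η ∈ E, ‖η‖ ≤ r') (hEf : volume E < ⊤) :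
    ContinuousOn (Sko1_p r δ E) (closedBall 0 r) := by
  unfold Sko1_p
  refine continuousOn_of_dominated (bound := fun _ => Real.log (1 / δ) +
    Real.log (2 * r / (r - r'))) ?_ ?_ ?_ ?_
  · intro ζ _
    exact ((Sko1_k_meas r δ).comp (measurable_id.prodMk measurable_const)).aestronglyMeasurable
  · intro ζ hζ
    filter_upwards [ae_restrict_mem hEm] with η hη
    rw [Real.norm_eq_abs]
    exact Sko1_k_bdd hr' hr hδ hδ1 (hE η hη) (mem_closedBall_zero_iff.mp hζ)
  · exact integrableOn_const hEf.ne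
  · filter_upwards [ae_restrict_mem hEm] with η hη
    exact Sko1_k_cont hr' hr hδ (hE η hη)

lemma Sko1_p_bdry {r r' δ : ℝ} (hr' : 0 < r') (hr : r' < r) (hδ1 : δ ≤ 1) {E : Set ℂ}
    (hEm : MeasurableSet E) (hE : ∀ η ∈ E, ‖η‖ ≤ r') {ζ : ℂ} (hζ : ‖ζ‖ = r) :
    Sko1_p r δ E ζ = 0 := by
  unfold Sko1_p
  rw [setIntegral_congr_fun (g := fun _ => (0 : ℝ)) hEm]
  · simp
  · intro η hη
    simp only [Sko1_k]
    rw [Sko1_bl_bdry hr' hr (hE η hη) hζ, max_eq_left hδ1, Real.log_one]

lemma Sko1_p_zero {r r' δ : ℝ} (hr' : 0 < r') (hr : r' < r) (hδ : 0 < δ) (hδ1 : δ ≤ 1)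
    (hδ2 : δ ≤ r' / r) {E : Set ℂ}
    (hEm : MeasurableSet E) (hE : ∀ η ∈ E, ‖η‖ ≤ r') (hEf : volume E < ⊤) :
    Sko1_p r δ E 0 ≤ (volume E).toReal * Real.log (r' / r) := by
  have hr0 : 0 < r := hr'.trans hr
  unfold Sko1_p
  have h := setIntegral_mono_on (μ := volume) (s := E) (f := fun η => Sko1_k r δ η 0)
    (g := fun _ => Real.log (r' / r))
    (Sko1_k_int hr' hr hδ hδ1 hEm hE hEf (by simpa using hr0.le)) (integrableOn_const hEf.ne) hEm
    (by
      intro η hη
      refine Real.log_le_log (hδ.trans_le (le_max_right _ _)) (max_le ?_ hδ2)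
      rw [Sko1_bl_zero hr0]
      exact div_le_div_of_nonneg_right (hE η hη) hr0.le)
  refine h.trans (le_of_eq ?_)
  rw [setIntegral_const, smul_eq_mul]
  rfl

lemma Sko1_k_mean {r r' δ s : ℝ} (hr' : 0 < r') (hr : r' < r) (hδ : 0 < δ) {η a : ℂ}
    (hη : ‖η‖ ≤ r') (hs : 0 < s) (has : ‖a‖ + s ≤ r)
    (hfar : ∀ ζ ∈ closedBall a s, δ ≤ ‖Sko1_bl r η ζ‖) :
    (2 * Real.pi)⁻¹ * ∫ θ in (0 : ℝ)..(2 * Real.pi),
      Sko1_k r δ η (a + Complex.exp (θ * Complex.I) * s) = Sko1_k r δ η a := by
  have hr0 : 0 < r := hr'.trans hr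
  have hin : ∀ ζ ∈ closedBall a s, ‖ζ‖ ≤ r := by
    intro ζ hζ
    have h1 : ‖ζ - a‖ ≤ s := by rwa [mem_closedBall, dist_eq_norm] at hζ
    have h2 : ‖ζ‖ ≤ ‖ζ - a‖ + ‖a‖ := by
      have := norm_add_le (ζ - a) a
      rwa [sub_add_cancel] at this
    linarith
  have hk : ∀ ζ ∈ closedBall a s, Sko1_k r δ η ζ = Real.log ‖Sko1_bl r η ζ‖ := by
    intro ζ hζ
    unfold Sko1_k
    rw [max_eq_left (hfar ζ hζ)]
  have han : AnalyticOnNhd ℂ (Sko1_bl r η) (closedBall a |s|) := by
    rw [abs_of_pos hs]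
    intro ζ hζ
    unfold Sko1_bl
    refine AnalyticAt.div (by fun_prop) (by fun_prop) ?_
    intro h0
    have := (Sko1_den hr' hr hη (hin ζ hζ)).1
    rw [h0, norm_zero] at this
    have hd : 0 < r * (r - r') := mul_pos hr0 (by linarith)
    linarith
  have hne : ∀ u ∈ closedBall a |s|, Sko1_bl r η u ≠ 0 := by
    rw [abs_of_pos hs]
    intro u hu h0
    have := hfar u hu
    rw [h0, norm_zero] at this
    linarith
  have h := AnalyticOnNhd.circleAverage_log_norm_of_ne_zero han hne
  rw [Real.circleAverage_def, smul_eq_mul] at h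
  rw [hk a (mem_closedBall_self hs.le), ← h]
  congr 1
  refine intervalIntegral.integral_congr ?_
  intro θ _
  have e : a + Complex.exp (θ * Complex.I) * s = circleMap a s θ := by
    unfold circleMap
    ring
  have hm : circleMap a s θ ∈ closedBall a s := circleMap_mem_closedBall a hs.le θ
  simp only
  rw [e, hk _ hm]

lemma Sko1_p_mean {r r' δ s : ℝ} (hr' : 0 < r') (hr : r' < r) (hδ : 0 < δ) (hδ1 : δ ≤ 1)
    {E : Set ℂ} (hEm : MeasurableSet E) (hE : ∀ η ∈ E, ‖η‖ ≤ r') (hEf : volume E < ⊤) {a : ℂ}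
    (hs : 0 < s) (has : ‖a‖ + s ≤ r)
    (hfar : ∀ η ∈ E, ∀ ζ ∈ closedBall a s, δ ≤ ‖Sko1_bl r η ζ‖) :
    (2 * Real.pi)⁻¹ * ∫ θ in (0 : ℝ)..(2 * Real.pi),
      Sko1_p r δ E (a + Complex.exp (θ * Complex.I) * s) = Sko1_p r δ E a := by
  have hpi : (0 : ℝ) ≤ 2 * Real.pi := by positivity
  have hin : ∀ θ : ℝ, ‖a + Complex.exp (θ * Complex.I) * s‖ ≤ r := by
    intro θ
    refine (norm_add_le _ _).trans ?_
    rw [norm_mul, Complex.norm_exp_ofReal_mul_I, one_mul, Complex.norm_real,
      Real.norm_of_nonneg hs.le]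
    exact has
  have : IsFiniteMeasure (volume.restrict E) := ⟨by rwa [Measure.restrict_apply_univ]⟩
  have hm : Measurable (fun p : ℝ × ℂ =>
      Sko1_k r δ p.2 (a + Complex.exp (p.1 * Complex.I) * s)) := by
    have h1 : Measurable (fun p : ℝ × ℂ => (p.2, a + Complex.exp (p.1 * Complex.I) * s)) := by
      fun_prop
    have h3 := (Sko1_k_meas r δ).comp h1
    simp only [Function.comp_def] at h3
    exact h3
  have h2 : ∀ᵐ p : ℝ × ℂ ∂((volume.restrict (Ioc 0 (2 * Real.pi))).prod (volume.restrict E)),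
      p.2 ∈ E :=
    Measure.quasiMeasurePreserving_snd.ae (ae_restrict_mem hEm)
  have hI : Integrable (fun p : ℝ × ℂ => Sko1_k r δ p.2 (a + Complex.exp (p.1 * Complex.I) * s))
      ((volume.restrict (Ioc 0 (2 * Real.pi))).prod (volume.restrict E)) := by
    refine Integrable.of_bound (C := Real.log (1 / δ) + Real.log (2 * r / (r - r')))
      (Measurable.aestronglyMeasurable hm) ?_
    filter_upwards [h2] with p hp
    rw [Real.norm_eq_abs]
    exact Sko1_k_bdd hr' hr hδ hδ1 (hE _ hp) (hin _)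
  unfold Sko1_p
  rw [intervalIntegral.integral_of_le hpi,
    integral_integral_swap (f := fun (θ : ℝ) (η : ℂ) =>
      Sko1_k r δ η (a + Complex.exp (θ * Complex.I) * s)) hI, ← integral_const_mul]
  refine setIntegral_congr_fun hEm ?_
  intro η hη
  simp only
  rw [← intervalIntegral.integral_of_le hpi]
  exact Sko1_k_mean hr' hr hδ (hE η hη) hs has (hfar η hη)

lemma Sko1_log_le {s y δ : ℝ} (hs : 0 < s) (hδ : 0 < δ) (n : ℕ)
    (hn : Real.log (s / δ) ≤ n) :
    Real.log (s / max y δ) ≤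
      ∑ k ∈ Finset.range n, (if y < s * Real.exp (-(k : ℝ)) then (1 : ℝ) else 0) := by
  set L := Real.log (s / max y δ) with hL
  have hmx : 0 < max y δ := hδ.trans_le (le_max_right _ _)
  have hLn : L ≤ n := by
    refine le_trans (Real.log_le_log (div_pos hs hmx) ?_) hn
    exact div_le_div_of_nonneg_left hs.le hδ (le_max_right _ _)
  have hm : ⌈L⌉₊ ≤ n := Nat.ceil_le.mpr hLn
  calc L ≤ (⌈L⌉₊ : ℝ) := Nat.le_ceil L
    _ = ∑ k ∈ Finset.range ⌈L⌉₊, (1 : ℝ) := by simp
    _ = ∑ k ∈ Finset.range ⌈L⌉₊, (if y < s * Real.exp (-(k : ℝ)) then (1 : ℝ) else 0) := by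
        refine Finset.sum_congr rfl ?_
        intro k hk
        rw [if_pos]
        have h1 : (k : ℝ) < L := Nat.lt_ceil.mp (Finset.mem_range.mp hk)
        have h2 : Real.exp (k : ℝ) < s / max y δ := by
          rw [← Real.exp_log (div_pos hs hmx)]
          exact Real.exp_lt_exp.mpr h1
        rw [lt_div_iff₀ hmx] at h2
        have h3 : max y δ < s * Real.exp (-(k : ℝ)) := by
          rw [Real.exp_neg, ← div_eq_mul_inv, lt_div_iff₀ (Real.exp_pos _)]
          linarith
        exact (le_max_left _ _).trans_lt h3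
    _ ≤ _ := by
        refine Finset.sum_le_sum_of_subset_of_nonneg ?_ ?_
        · intro k hk
          rw [Finset.mem_range] at hk ⊢
          omega
        · intro k _ _
          split_ifs <;> norm_num

lemma Sko1_p_lower {r r' δ : ℝ} (hr' : 0 < r') (hr : r' < r) (hδ : 0 < δ) (hδ1 : δ ≤ 1)
    {E : Set ℂ} (hEm : MeasurableSet E) (hE : ∀ η ∈ E, ‖η‖ ≤ r') (hEf : volume E < ⊤)
    (hE0 : 0 < (volume E).toReal) {ζ : ℂ} (hζ : ‖ζ‖ ≤ r) :
    - Sko1_p r δ E ζ ≤ (volume E).toReal *
      (-(1 / 2) * Real.log (volume E).toReal + 8 * Real.pi * r ^ 2) := by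
  classical
  have hr0 : 0 < r := hr'.trans hr
  set v := (volume E).toReal with hv
  set s := Real.sqrt v with hs
  have hs0 : 0 < s := Real.sqrt_pos.mpr hE0
  have hss : s ^ 2 = v := Real.sq_sqrt hE0.le
  obtain ⟨n, hn⟩ := exists_nat_ge (Real.log (s / δ))
  have hpt : ∀ η ∈ E, - Sko1_k r δ η ζ ≤ - Real.log s +
      ∑ k ∈ Finset.range n, (ball ζ (2 * r * (s * Real.exp (-(k : ℝ))))).indicator
        (fun _ => (1 : ℝ)) η := by
    intro η hη
    have h1 := Sko1_bl_lower hr' hr (hE η hη) hζ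
    have h2 := Sko1_log_le (y := ‖ζ - η‖ / (2 * r)) hs0 hδ n hn
    have hmx : 0 < max (‖ζ - η‖ / (2 * r)) δ := hδ.trans_le (le_max_right _ _)
    rw [Real.log_div hs0.ne' hmx.ne'] at h2
    have h3 : Real.log (max (‖ζ - η‖ / (2 * r)) δ) ≤ Sko1_k r δ η ζ :=
      Real.log_le_log hmx (max_le_max_right _ h1)
    have h4 : ∑ k ∈ Finset.range n, (if ‖ζ - η‖ / (2 * r) < s * Real.exp (-(k : ℝ)) then (1 : ℝ)
        else 0) = ∑ k ∈ Finset.range n, (ball ζ (2 * r * (s * Real.exp (-(k : ℝ))))).indicator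
        (fun _ => (1 : ℝ)) η := by
      refine Finset.sum_congr rfl ?_
      intro k _
      rw [indicator_apply]
      have : (‖ζ - η‖ / (2 * r) < s * Real.exp (-(k : ℝ))) ↔
          η ∈ ball ζ (2 * r * (s * Real.exp (-(k : ℝ)))) := by
        rw [mem_ball, dist_comm, dist_eq_norm, div_lt_iff₀ (by positivity),
          mul_comm (s * Real.exp (-(k : ℝ)))]
      simp only [this]
    rw [h4] at h2
    linarith
  have hint1 : ∀ k : ℕ, IntegrableOn (fun η => (ball ζ (2 * r * (s * Real.exp (-(k : ℝ))))).indicator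
        (fun _ => (1 : ℝ)) η) E := by
    intro k
    exact (integrableOn_const hEf.ne).indicator measurableSet_ball
  have hval : ∀ k : ℕ, ∫ η in E, (ball ζ (2 * r * (s * Real.exp (-(k : ℝ))))).indicator
        (fun _ => (1 : ℝ)) η ≤ 4 * Real.pi * r ^ 2 * v * (1 / 2) ^ k := by
    intro k
    have hR : 0 ≤ 2 * r * (s * Real.exp (-(k : ℝ))) := by positivity
    rw [integral_indicator measurableSet_ball, setIntegral_const, smul_eq_mul, mul_one]
    have h1 : (volume.restrict E).real (ball ζ (2 * r * (s * Real.exp (-(k : ℝ))))) ≤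
        (volume (ball ζ (2 * r * (s * Real.exp (-(k : ℝ)))))).toReal := by
      refine ENNReal.toReal_mono ?_ (Measure.restrict_apply_le _ _)
      exact measure_ball_lt_top.ne
    refine h1.trans ?_
    rw [Complex.volume_ball, ENNReal.toReal_mul, ENNReal.toReal_pow, ENNReal.toReal_ofReal hR]
    have h2 : ((NNReal.pi : ℝ≥0∞)).toReal = Real.pi := rfl
    rw [h2]
    have h3 : Real.exp (-(k : ℝ)) ^ 2 ≤ (1 / 2) ^ k := by
      have e1 : Real.exp (-(k : ℝ)) = (Real.exp (-1)) ^ k := by
        rw [← Real.exp_nat_mul]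
        congr 1
        ring
      rw [e1, ← pow_mul, mul_comm k 2, pow_mul]
      refine pow_le_pow_left₀ (by positivity) ?_ k
      have h5 : Real.exp (-1) ≤ 1 / 2 := by
        rw [Real.exp_neg, one_div]
        refine inv_anti₀ (by norm_num) ?_
        have := Real.add_one_le_exp (1 : ℝ)
        linarith
      have h6 : 0 < Real.exp (-1) := Real.exp_pos _
      nlinarith
    calc (2 * r * (s * Real.exp (-(k : ℝ)))) ^ 2 * Real.pi =
        4 * Real.pi * r ^ 2 * s ^ 2 * Real.exp (-(k : ℝ)) ^ 2 := by ring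
      _ = 4 * Real.pi * r ^ 2 * v * Real.exp (-(k : ℝ)) ^ 2 := by rw [hss]
      _ ≤ _ := mul_le_mul_of_nonneg_left h3 (by positivity)
  unfold Sko1_p
  rw [← integral_neg]
  have hmono := setIntegral_mono_on (μ := volume) (s := E) (f := fun η => - Sko1_k r δ η ζ)
    (g := fun η => - Real.log s +
      ∑ k ∈ Finset.range n, (ball ζ (2 * r * (s * Real.exp (-(k : ℝ))))).indicator
        (fun _ => (1 : ℝ)) η) (Sko1_k_int hr' hr hδ hδ1 hEm hE hEf hζ).neg
    ((integrableOn_const hEf.ne).add (integrable_finsetSum _ (fun k _ => hint1 k))) hEm hpt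
  refine hmono.trans ?_
  have hci : Integrable (fun _ : ℂ => - Real.log s) (volume.restrict E) :=
    integrableOn_const hEf.ne
  rw [integral_add hci (integrable_finsetSum _ (fun k _ => hint1 k)),
    setIntegral_const, smul_eq_mul, integral_finsetSum _ (fun k _ => hint1 k)]
  have hsum : ∑ k ∈ Finset.range n, ∫ η in E,
      (ball ζ (2 * r * (s * Real.exp (-(k : ℝ))))).indicator (fun _ => (1 : ℝ)) η ≤
      8 * Real.pi * r ^ 2 * v := by
    refine (Finset.sum_le_sum (fun k _ => hval k)).trans ?_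
    rw [← Finset.mul_sum]
    have hg : ∑ k ∈ Finset.range n, (1 / 2 : ℝ) ^ k ≤ 2 := by
      have := Summable.sum_le_tsum (Finset.range n) (fun i _ => by positivity)
        (summable_geometric_two)
      rwa [tsum_geometric_two] at this
    have hc : 0 ≤ 4 * Real.pi * r ^ 2 * v := by positivity
    calc 4 * Real.pi * r ^ 2 * v * ∑ k ∈ Finset.range n, (1 / 2 : ℝ) ^ k ≤
        4 * Real.pi * r ^ 2 * v * 2 := mul_le_mul_of_nonneg_left hg hc
      _ = 8 * Real.pi * r ^ 2 * v := by ring
  have hlog : Real.log s = 1 / 2 * Real.log v := by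
    rw [hs, Real.log_sqrt hE0.le]
    ring
  have hvr : volume.real E = v := rfl
  rw [hvr, hlog]
  calc v * -(1 / 2 * Real.log v) + ∑ k ∈ Finset.range n, ∫ η in E,
      (ball ζ (2 * r * (s * Real.exp (-(k : ℝ))))).indicator (fun _ => (1 : ℝ)) η ≤
      v * -(1 / 2 * Real.log v) + 8 * Real.pi * r ^ 2 * v := by linarith
    _ = v * (-(1 / 2) * Real.log v + 8 * Real.pi * r ^ 2) := by ring

lemma Sko1_sq_mean (a : ℂ) (s : ℝ) :
    ∫ θ in (0 : ℝ)..(2 * Real.pi), ‖a + Complex.exp (θ * Complex.I) * s‖ ^ 2 =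
      2 * Real.pi * (‖a‖ ^ 2 + s ^ 2) := by
  have h : ∀ θ : ℝ, ‖a + Complex.exp (θ * Complex.I) * s‖ ^ 2 =
      (‖a‖ ^ 2 + s ^ 2) + (2 * s * a.re) * Real.cos θ + (2 * s * a.im) * Real.sin θ := by
    intro θ
    rw [← Complex.normSq_eq_norm_sq, ← Complex.normSq_eq_norm_sq, Complex.normSq_apply,
      Complex.normSq_apply]
    simp only [Complex.add_re, Complex.mul_re, Complex.exp_ofReal_mul_I_re, Complex.ofReal_re,
      Complex.exp_ofReal_mul_I_im, Complex.ofReal_im, Complex.add_im, Complex.mul_im]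
    have := Real.sin_sq_add_cos_sq θ
    linear_combination (s ^ 2) * this
  simp_rw [h]
  rw [intervalIntegral.integral_add, intervalIntegral.integral_add]
  · simp only [intervalIntegral.integral_const, intervalIntegral.integral_const_mul, integral_cos,
      integral_sin, smul_eq_mul]
    simp
  · exact (by fun_prop : Continuous fun _ : ℝ => (‖a‖ ^ 2 + s ^ 2)).intervalIntegrable _ _
  · exact (by fun_prop : Continuous fun θ : ℝ => (2 * s * a.re) * Real.cos θ).intervalIntegrable _ _
  · exact (by fun_prop : Continuous fun θ : ℝ => (‖a‖ ^ 2 + s ^ 2) +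
      (2 * s * a.re) * Real.cos θ).intervalIntegrable _ _
  · exact (by fun_prop : Continuous fun θ : ℝ => (2 * s * a.im) * Real.sin θ).intervalIntegrable _ _

lemma Sko1_main {ρ r r' : ℝ} (hr' : 0 < r') (hr : r' < r) (hρ : r < ρ) {F : ℂ → ℝ} {A t : ℝ}
    (hA : 0 ≤ A) (ht : 0 < t) (hF0 : ∀ ζ ∈ ball 0 ρ, 0 ≤ F ζ)
    (hFu : UpperSemicontinuousOn F (ball 0 ρ))
    (hsub : ∀ δ : ℝ, 0 < δ → ∀ (a : ℂ) (s : ℝ), 0 < s → closedBall a s ⊆ ball 0 ρ →
        Real.log (max (F a) δ) ≤ (2 * Real.pi)⁻¹ *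
          ∫ θ in (0 : ℝ)..(2 * Real.pi), Real.log (max (F (a + Complex.exp (θ * Complex.I) * s)) δ))
    (hF1 : ∀ ζ ∈ ball 0 ρ, F ζ ≤ 1) (hFA : Real.exp (-A) ≤ F 0)
    {E : Set ℂ} (hEc : IsCompact E) (hEs : E ⊆ {ζ : ℂ | ‖ζ‖ < r' ∧ F ζ < Real.exp (-t)})
    (hE0 : 0 < (volume E).toReal) {M : ℝ} (hM : 0 < M)
    (hM2 : -(1 / 2) * Real.log (volume E).toReal + 8 * Real.pi * r ^ 2 ≤ M) :
    Real.log (r / r') * t ≤ A * M := by
  have hr0 : 0 < r := hr'.trans hr
  have hEm : MeasurableSet E := hEc.measurableSet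
  have hEf : volume E < ⊤ := hEc.measure_lt_top
  have hE : ∀ η ∈ E, ‖η‖ ≤ r' := fun η hη => (hEs hη).1.le
  set G : Set ℂ := {ζ : ℂ | ‖ζ‖ < r' ∧ F ζ < Real.exp (-t)} with hG
  have hGo : IsOpen G := by
    rw [isOpen_iff_mem_nhds]
    intro ζ hζ
    have hζρ : ζ ∈ ball (0 : ℂ) ρ := by
      rw [mem_ball_zero_iff]
      exact hζ.1.trans (hr.trans hρ)
    have h1 : ∀ᶠ z in 𝓝 ζ, F z < Real.exp (-t) := by
      have := hFu ζ hζρ (Real.exp (-t)) hζ.2
      rwa [isOpen_ball.nhdsWithin_eq hζρ] at this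
    have h2 : ∀ᶠ z in 𝓝 ζ, ‖z‖ < r' :=
      (continuous_norm.continuousAt).eventually_lt continuousAt_const hζ.1
    filter_upwards [h1, h2] with z hz1 hz2
    exact ⟨hz2, hz1⟩
  obtain ⟨τ, hτ, hτG⟩ := hEc.exists_cthickening_subset_open hGo hEs
  set δ : ℝ := min (min 1 (r' / r)) (τ / (4 * r)) with hδdef
  have hδ : 0 < δ := by
    refine lt_min (lt_min one_pos ?_) ?_ <;> positivity
  have hδ1 : δ ≤ 1 := (min_le_left _ _).trans (min_le_left _ _)
  have hδ2 : δ ≤ r' / r := (min_le_left _ _).trans (min_le_right _ _)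
  have hδ3 : δ ≤ τ / (4 * r) := min_le_right _ _
  set v := (volume E).toReal with hv
  set U : ℂ → ℝ := fun ζ => Real.log (max (F ζ) (Real.exp (-t))) with hU
  have hlow : ∀ ζ : ℂ, ‖ζ‖ ≤ r → - Sko1_p r δ E ζ ≤ v * M := by
    intro ζ hζ
    refine (Sko1_p_lower hr' hr hδ hδ1 hEm hE hEf hE0 hζ).trans ?_
    exact mul_le_mul_of_nonneg_left hM2 hE0.le
  have hcb : closedBall (0 : ℂ) r ⊆ ball 0 ρ := closedBall_subset_ball hρ
  have key : ∀ ε : ℝ, 0 < ε → Real.log (r / r') * t ≤ A * M + ε := by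
    intro ε' hε'
    set ε := ε' / (M * r ^ 2) with hε
    have hε0 : 0 < ε := by positivity
    set c := t / (v * M) with hc
    have hc0 : 0 < c := by positivity
    set W : ℂ → ℝ := fun ζ => U ζ + (- c * Sko1_p r δ E ζ + ε * ‖ζ‖ ^ 2) with hW
    have hUu : UpperSemicontinuousOn U (closedBall 0 r) := by
      have h1 : Continuous (fun x : ℝ => Real.log (max x (Real.exp (-t)))) := by
        refine Continuous.log (by fun_prop) ?_
        intro x
        exact ((Real.exp_pos _).trans_le (le_max_right _ _)).ne'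
      have h2 : Monotone (fun x : ℝ => Real.log (max x (Real.exp (-t)))) := by
        intro x y hxy
        exact Real.log_le_log ((Real.exp_pos _).trans_le (le_max_right _ _))
          (max_le_max_right _ hxy)
      exact h1.comp_upperSemicontinuousOn (hFu.mono hcb) h2
    have hpc := Sko1_p_cont hr' hr hδ hδ1 hEm hE hEf
    have hWu : UpperSemicontinuousOn W (closedBall 0 r) := by
      refine UpperSemicontinuousOn.add hUu (ContinuousOn.upperSemicontinuousOn ?_)
      exact (continuousOn_const.mul hpc).add (by fun_prop)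
    obtain ⟨a, ha, hmax⟩ := hWu.exists_isMaxOn ⟨0, mem_closedBall_self hr0.le⟩
      (isCompact_closedBall (0 : ℂ) r)
    have ha' : ‖a‖ ≤ r := mem_closedBall_zero_iff.mp ha
    have hWle : ∀ ζ : ℂ, ‖ζ‖ ≤ r → W ζ ≤ W a := fun ζ hζ =>
      hmax (mem_closedBall_zero_iff.mpr hζ)
    have hWa : W a ≤ ε * r ^ 2 := by
      by_cases haG : a ∈ G
      · have h1 : U a = -t := by
          simp only [hU]
          rw [max_eq_right haG.2.le, Real.log_exp]
        have h2 : - c * Sko1_p r δ E a ≤ t := by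
          calc - c * Sko1_p r δ E a = c * (- Sko1_p r δ E a) := by ring
            _ ≤ c * (v * M) := mul_le_mul_of_nonneg_left (hlow a ha') hc0.le
            _ = t := by
                rw [hc]
                field_simp
        have h3 : ε * ‖a‖ ^ 2 ≤ ε * r ^ 2 :=
          mul_le_mul_of_nonneg_left (pow_le_pow_left₀ (norm_nonneg _) ha' 2) hε0.le
        simp only [hW, h1]
        linarith
      · rcases ha'.lt_or_eq with hlt | heq
        · exfalso
          set s := min (r - ‖a‖) (τ / 2) with hs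
          have hs0 : 0 < s := lt_min (by linarith) (by positivity)
          have hs1 : ‖a‖ + s ≤ r := by
            have := min_le_left (r - ‖a‖) (τ / 2)
            linarith
          have hs2 : s ≤ τ / 2 := min_le_right _ _
          have hfar : ∀ η ∈ E, ∀ ζ ∈ closedBall a s, δ ≤ ‖Sko1_bl r η ζ‖ := by
            intro η hη ζ hζ
            have h1 : ‖ζ - a‖ ≤ s := by rwa [mem_closedBall, dist_eq_norm] at hζ
            have h2 : τ < ‖a - η‖ := by
              by_contra hcon
              push Not at hcon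
              apply haG
              apply hτG
              refine mem_cthickening_of_dist_le a η τ E hη ?_
              rwa [dist_eq_norm]
            have h3 : ‖a - η‖ ≤ ‖ζ - η‖ + ‖ζ - a‖ := by
              have := norm_sub_le (ζ - η) (ζ - a)
              rwa [sub_sub_sub_cancel_left] at this
            have h4 : ‖ζ‖ ≤ r := by
              have := norm_add_le (ζ - a) a
              rw [sub_add_cancel] at this
              linarith
            refine le_trans ?_ (Sko1_bl_lower hr' hr (hE η hη) h4)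
            refine hδ3.trans ?_
            rw [div_le_div_iff₀ (by positivity) (by positivity)]
            nlinarith
          have hmean := Sko1_p_mean hr' hr hδ hδ1 hEm hE hEf hs0 hs1 hfar
          have hcs : ∀ θ : ℝ, ‖a + Complex.exp (θ * Complex.I) * s‖ ≤ r := by
            intro θ
            refine (norm_add_le _ _).trans ?_
            rw [norm_mul, Complex.norm_exp_ofReal_mul_I, one_mul, Complex.norm_real,
              Real.norm_of_nonneg hs0.le]
            exact hs1
          have hball : closedBall a s ⊆ ball 0 ρ := by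
            intro ζ hζ
            apply hcb
            have h1 : ‖ζ - a‖ ≤ s := by rwa [mem_closedBall, dist_eq_norm] at hζ
            rw [mem_closedBall_zero_iff]
            have := norm_add_le (ζ - a) a
            rw [sub_add_cancel] at this
            linarith
          have hsm := hsub (Real.exp (-t)) (Real.exp_pos _) a s hs0 hball
          have hle : ∀ θ : ℝ, U (a + Complex.exp (θ * Complex.I) * s) ≤
              W a + c * Sko1_p r δ E (a + Complex.exp (θ * Complex.I) * s) -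
                ε * ‖a + Complex.exp (θ * Complex.I) * s‖ ^ 2 := by
            intro θ
            have := hWle _ (hcs θ)
            simp only [hW] at this ⊢
            linarith
          have hpcθ : Continuous (fun θ : ℝ =>
              Sko1_p r δ E (a + Complex.exp (θ * Complex.I) * s)) := by
            have h1 : Continuous (fun θ : ℝ => a + Complex.exp (θ * Complex.I) * s) := by fun_prop
            have h2 := ContinuousOn.comp_continuous (g := Sko1_p r δ E) hpc h1
              (fun θ => mem_closedBall_zero_iff.mpr (hcs θ))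
            exact h2
          have hUi : IntervalIntegrable (fun θ : ℝ => U (a + Complex.exp (θ * Complex.I) * s))
              volume 0 (2 * Real.pi) := by
            have hus : UpperSemicontinuous (fun θ : ℝ =>
                U (a + Complex.exp (θ * Complex.I) * s)) := by
              intro θ y hy
              have hmem : a + Complex.exp (θ * Complex.I) * s ∈ ball (0 : ℂ) ρ := by
                rw [mem_ball_zero_iff]
                exact (hcs θ).trans_lt hρ
              have h1 : ∀ᶠ z in 𝓝[closedBall 0 r] (a + Complex.exp (θ * Complex.I) * s), U z < y :=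
                hUu _ (mem_closedBall_zero_iff.mpr (hcs θ)) y hy
              have h2 : Filter.Tendsto (fun θ : ℝ => a + Complex.exp (θ * Complex.I) * s) (𝓝 θ)
                  (𝓝[closedBall 0 r] (a + Complex.exp (θ * Complex.I) * s)) := by
                refine tendsto_nhdsWithin_iff.mpr ⟨?_, ?_⟩
                · exact (by fun_prop : Continuous fun θ : ℝ =>
                    a + Complex.exp (θ * Complex.I) * s).continuousAt
                · exact Filter.Eventually.of_forall
                    (fun θ' => mem_closedBall_zero_iff.mpr (hcs θ'))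
              exact h2.eventually h1
            rw [intervalIntegrable_iff]
            refine Measure.integrableOn_of_bounded (M := t) (by
              rw [uIoc_of_le (by positivity)]
              exact measure_Ioc_lt_top.ne) ?_ ?_
            · exact hus.measurable.aestronglyMeasurable
            · refine Filter.Eventually.of_forall ?_
              intro θ
              have hmem : a + Complex.exp (θ * Complex.I) * s ∈ ball (0 : ℂ) ρ := by
                rw [mem_ball_zero_iff]
                exact (hcs θ).trans_lt hρ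
              rw [Real.norm_eq_abs, abs_le]
              constructor
              · simp only [hU]
                rw [← Real.log_exp (-t)]
                exact Real.log_le_log (Real.exp_pos _) (by rw [Real.log_exp]; exact le_max_right _ _)
              · simp only [hU]
                refine le_trans (Real.log_nonpos ?_ ?_) ht.le
                · exact ((Real.exp_pos _).trans_le (le_max_right _ _)).le
                · refine max_le (hF1 _ hmem) ?_
                  rw [Real.exp_le_one_iff]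
                  linarith
          have hint := intervalIntegral.integral_mono_on (a := 0) (b := 2 * Real.pi)
            (by positivity) hUi (g := fun θ : ℝ => W a +
              c * Sko1_p r δ E (a + Complex.exp (θ * Complex.I) * s) -
                ε * ‖a + Complex.exp (θ * Complex.I) * s‖ ^ 2)
            (by
              refine Continuous.intervalIntegrable ?_ _ _
              exact (continuous_const.add (continuous_const.mul hpcθ)).sub (by fun_prop))
            (fun θ _ => hle θ)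
          rw [intervalIntegral.integral_sub, intervalIntegral.integral_add,
            intervalIntegral.integral_const, intervalIntegral.integral_const_mul,
            intervalIntegral.integral_const_mul, Sko1_sq_mean, smul_eq_mul] at hint
          · have hpi : 0 < 2 * Real.pi := by positivity
            have h5 : (2 * Real.pi)⁻¹ * ∫ θ in (0 : ℝ)..(2 * Real.pi),
                U (a + Complex.exp (θ * Complex.I) * s) ≤
                W a + c * Sko1_p r δ E a - ε * (‖a‖ ^ 2 + s ^ 2) := by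
              have hI : ∫ θ in (0 : ℝ)..(2 * Real.pi),
                  Sko1_p r δ E (a + Complex.exp (θ * Complex.I) * s) =
                  2 * Real.pi * Sko1_p r δ E a := by
                rw [← hmean, mul_inv_cancel_left₀ hpi.ne']
              rw [hI] at hint
              rw [inv_mul_le_iff₀ hpi]
              refine hint.trans (le_of_eq ?_)
              ring
            have h6 : U a ≤ W a + c * Sko1_p r δ E a - ε * (‖a‖ ^ 2 + s ^ 2) := hsm.trans h5
            simp only [hW] at h6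
            have h7 : 0 < ε * s ^ 2 := by positivity
            nlinarith
          · exact continuous_const.intervalIntegrable _ _
          · exact (continuous_const.mul hpcθ).intervalIntegrable _ _
          · exact (continuous_const.add (continuous_const.mul hpcθ)).intervalIntegrable _ _
          · exact (by fun_prop : Continuous fun θ : ℝ =>
              ε * ‖a + Complex.exp (θ * Complex.I) * s‖ ^ 2).intervalIntegrable _ _
        · have h1 : U a ≤ 0 := by
            simp only [hU]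
            refine Real.log_nonpos ((Real.exp_pos _).trans_le (le_max_right _ _)).le ?_
            refine max_le (hF1 _ (hcb ha)) ?_
            rw [Real.exp_le_one_iff]
            linarith
          have h2 : Sko1_p r δ E a = 0 := Sko1_p_bdry hr' hr hδ1 hEm hE heq
          simp only [hW, h2, heq]
          linarith
    have hW0 : W 0 ≤ ε * r ^ 2 := (hWle 0 (by simpa using hr0.le)).trans hWa
    have hU0 : -A ≤ U 0 := by
      simp only [hU]
      rw [← Real.log_exp (-A)]
      refine Real.log_le_log (Real.exp_pos _) ?_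
      exact hFA.trans (le_max_left _ _)
    have hp0 := Sko1_p_zero hr' hr hδ hδ1 hδ2 hEm hE hEf
    have hlog : Real.log (r' / r) = - Real.log (r / r') := by
      rw [← Real.log_inv, inv_div]
    rw [hlog] at hp0
    have h8 : c * (v * Real.log (r / r')) ≤ - c * Sko1_p r δ E 0 := by
      have : c * Sko1_p r δ E 0 ≤ c * (v * - Real.log (r / r')) :=
        mul_le_mul_of_nonneg_left hp0 hc0.le
      linarith
    have h9 : c * (v * Real.log (r / r')) ≤ A + ε * r ^ 2 := by
      simp only [hW, norm_zero] at hW0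
      have : ε * (0 : ℝ) ^ 2 = 0 := by ring
      rw [this] at hW0
      linarith
    have h10 : c * (v * Real.log (r / r')) * M = Real.log (r / r') * t := by
      rw [hc]
      field_simp
    have h11 : ε * r ^ 2 * M = ε' := by
      rw [hε]
      field_simp
    rw [← h10]
    calc c * (v * Real.log (r / r')) * M ≤ (A + ε * r ^ 2) * M :=
          mul_le_mul_of_nonneg_right h9 hM.le
      _ = A * M + ε * r ^ 2 * M := by ring
      _ = A * M + ε' := by rw [h11]
  exact le_of_forall_pos_le_add key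

/-- `u = log F` subharmonic in the disc of radius `ρ`, `u ≤ 0`, `u 0 ≥ -A` -/
theorem sub_decay {ρ ρ' : ℝ} (hρ' : 0 < ρ') (hρ : ρ' < ρ) : ∃ c K : ℝ, 0 < c ∧ 0 < K ∧
    ∀ (F : ℂ → ℝ) (A : ℝ), 0 ≤ A → (∀ ζ ∈ ball 0 ρ, 0 ≤ F ζ) →
      UpperSemicontinuousOn F (ball 0 ρ) →
      (∀ δ : ℝ, 0 < δ → ∀ (a : ℂ) (s : ℝ), 0 < s → closedBall a s ⊆ ball 0 ρ →
        Real.log (max (F a) δ) ≤ (2 * Real.pi)⁻¹ *
          ∫ θ in (0 : ℝ)..(2 * Real.pi), Real.log (max (F (a + Complex.exp (θ * Complex.I) * s)) δ)) →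
      (∀ ζ ∈ ball 0 ρ, F ζ ≤ 1) → Real.exp (-A) ≤ F 0 →
      ∀ t : ℝ, 0 < t → volume {ζ : ℂ | ‖ζ‖ < ρ' ∧ F ζ < Real.exp (-t)} ≤
        ENNReal.ofReal (K * Real.exp (-(c / (1 + A)) * t)) := by
  set r := (ρ + ρ') / 2 with hr
  have hr1 : ρ' < r := by rw [hr]; linarith
  have hr2 : r < ρ := by rw [hr]; linarith
  have hr0 : 0 < r := hρ'.trans hr1
  set κ := Real.log (r / ρ') with hκ
  have hκ0 : 0 < κ := Real.log_pos (by rw [lt_div_iff₀ hρ']; linarith)
  set C := 8 * Real.pi * r ^ 2 + 1 / 2 * |Real.log (Real.pi * ρ' ^ 2)| + 1 with hC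
  refine ⟨2 * κ, Real.exp (2 * C), by positivity, Real.exp_pos _, ?_⟩
  intro F A hA hF0 hFu hsub hF1 hFA t ht
  by_contra hcon
  push Not at hcon
  have hGo : IsOpen {ζ : ℂ | ‖ζ‖ < ρ' ∧ F ζ < Real.exp (-t)} := by
    rw [isOpen_iff_mem_nhds]
    intro ζ hζ
    have hζρ : ζ ∈ ball (0 : ℂ) ρ := by
      rw [mem_ball_zero_iff]
      exact hζ.1.trans hρ
    have h1 : ∀ᶠ z in 𝓝 ζ, F z < Real.exp (-t) := by
      have := hFu ζ hζρ (Real.exp (-t)) hζ.2
      rwa [isOpen_ball.nhdsWithin_eq hζρ] at this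
    have h2 : ∀ᶠ z in 𝓝 ζ, ‖z‖ < ρ' :=
      (continuous_norm.continuousAt).eventually_lt continuousAt_const hζ.1
    filter_upwards [h1, h2] with z hz1 hz2
    exact ⟨hz2, hz1⟩
  obtain ⟨E, hEs, hEc, hEv⟩ := hGo.exists_lt_isCompact hcon
  have hEf : volume E < ⊤ := hEc.measure_lt_top
  have hexp : 0 < Real.exp (2 * C) * Real.exp (-(2 * κ / (1 + A)) * t) := by positivity
  have hvlt : Real.exp (2 * C) * Real.exp (-(2 * κ / (1 + A)) * t) < (volume E).toReal := by
    have := (ENNReal.toReal_lt_toReal ENNReal.ofReal_ne_top hEf.ne).mpr hEv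
    rwa [ENNReal.toReal_ofReal hexp.le] at this
  have hE0 : 0 < (volume E).toReal := hexp.trans hvlt
  have hvle : (volume E).toReal ≤ Real.pi * ρ' ^ 2 := by
    have h1 : volume E ≤ volume (ball (0 : ℂ) ρ') := by
      refine measure_mono ?_
      intro ζ hζ
      rw [mem_ball_zero_iff]
      exact (hEs hζ).1
    have h2 := ENNReal.toReal_mono measure_ball_lt_top.ne h1
    rw [Complex.volume_ball, ENNReal.toReal_mul, ENNReal.toReal_pow,
      ENNReal.toReal_ofReal hρ'.le] at h2
    have h3 : ((NNReal.pi : ℝ≥0∞)).toReal = Real.pi := rfl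
    rw [h3] at h2
    linarith
  set M := -(1 / 2) * Real.log (volume E).toReal + C with hM
  have hlogv : Real.log (volume E).toReal ≤ |Real.log (Real.pi * ρ' ^ 2)| :=
    (Real.log_le_log hE0 hvle).trans (le_abs_self _)
  have hM1 : 0 < M := by
    have : 0 < 8 * Real.pi * r ^ 2 := by positivity
    rw [hM, hC]
    linarith
  have hM2 : -(1 / 2) * Real.log (volume E).toReal + 8 * Real.pi * r ^ 2 ≤ M := by
    have : 0 ≤ |Real.log (Real.pi * ρ' ^ 2)| := abs_nonneg _
    rw [hM, hC]
    linarith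
  have hmain := Sko1_main hρ' hr1 hr2 hA ht hF0 hFu hsub hF1 hFA hEc hEs hE0 hM1 hM2
  have h1 : κ * t ≤ (1 + A) * M := by
    have : A * M ≤ (1 + A) * M := mul_le_mul_of_nonneg_right (by linarith) hM1.le
    exact hmain.trans this
  have h2 : κ * t / (1 + A) ≤ M := by
    rw [div_le_iff₀ (by linarith)]
    linarith
  have h3 : Real.log (volume E).toReal ≤ 2 * C - 2 * (κ * t / (1 + A)) := by
    rw [hM] at h2
    linarith
  have h4 : (volume E).toReal ≤ Real.exp (2 * C - 2 * (κ * t / (1 + A))) := by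
    rw [← Real.exp_log hE0]
    exact Real.exp_le_exp.mpr h3
  have h5 : Real.exp (2 * C - 2 * (κ * t / (1 + A))) =
      Real.exp (2 * C) * Real.exp (-(2 * κ / (1 + A)) * t) := by
    rw [← Real.exp_add]
    congr 1
    ring
  rw [h5] at h4
  linarith

end HMA
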