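import Pool.Agent.H85.MA.Defs

/-! # Module SLAB1: embedded polydiscs adapted to a function with nonzero derivative -/

open MeasureTheory Metric Set
open scoped ENNReal Topology ContDiff

namespace HMA

/-- Cauchy estimate for the second difference -/
theorem Slab1_cauchy {E : Type*} [NormedAddCommGroup E] [NormedSpace ℂ E] {g : E → ℂ} {z₀ : E}
    {s : ℝ} (hs : 0 < s) (hg : DifferentiableOn ℂ g (ball z₀ s))
    (hb : ∀ z ∈ ball z₀ s, ‖g z‖ ≤ s⁻¹) {z : E} (hz : ‖z - z₀‖ < s / 2) :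
    ‖fderiv ℂ g z - fderiv ℂ g z₀‖ ≤ 16 * ‖z - z₀‖ / s ^ 3 := by
  have hs2 : 0 < s / 2 := by positivity
  set v := z - z₀ with hv
  have hsub : ∀ w ∈ ball z₀ (s / 2), ball w (s / 2) ⊆ ball z₀ s := by
    intro w hw
    refine ball_subset_ball' ?_
    rw [mem_ball] at hw
    linarith
  have hdiff : ∀ x y : E, x ∈ ball z₀ s → y ∈ ball z₀ s → g x ∈ closedBall (g y) (2 * s⁻¹) := by
    intro x y hx hy
    rw [mem_closedBall, dist_eq_norm]
    refine (norm_sub_le _ _).trans ?_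
    have := hb x hx
    have := hb y hy
    linarith
  have hwv : ∀ w ∈ ball z₀ (s / 2), w + v ∈ ball w (s / 2) := by
    intro w hw
    rw [mem_ball, dist_eq_norm]
    simpa using hz
  have h1 : ∀ w ∈ ball z₀ (s / 2), ‖g (w + v) - g w‖ ≤ 4 * ‖v‖ / s ^ 2 := by
    intro w hw
    have h := Complex.dist_le_div_mul_dist_of_mapsTo_ball (f := g) (c := w) (z := w + v)
      (R₁ := s / 2) (R₂ := 2 * s⁻¹) (hg.mono (hsub w hw))
      (fun x hx => hdiff x w (hsub w hw hx) (hsub w hw (mem_ball_self hs2))) (hwv w hw)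
    rw [dist_eq_norm, dist_eq_norm, add_sub_cancel_left] at h
    refine h.trans (le_of_eq ?_)
    field_simp
    ring
  have hz₀ : z₀ ∈ ball z₀ (s / 2) := mem_ball_self hs2
  have hz' : z ∈ ball z₀ s := by
    rw [mem_ball, dist_eq_norm]
    have : ‖z - z₀‖ < s / 2 := hz
    linarith
  have hdG : DifferentiableOn ℂ (fun w => g (w + v) - g w) (ball z₀ (s / 2)) := by
    refine DifferentiableOn.sub ?_ (hg.mono (ball_subset_ball (by linarith)))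
    refine hg.comp ((differentiable_id.add_const v).differentiableOn) fun w hw => ?_
    exact hsub w hw (hwv w hw)
  have h2 := Complex.norm_fderiv_le_div_of_mapsTo_ball (f := fun w => g (w + v) - g w) (c := z₀)
    (R₁ := s / 2) (R₂ := 8 * ‖v‖ / s ^ 2) hdG (fun w hw => by
      rw [mem_closedBall, dist_eq_norm]
      refine (norm_sub_le _ _).trans ?_
      have e1 := h1 w hw
      have e2 := h1 z₀ hz₀
      have e3 : 8 * ‖v‖ / s ^ 2 = 4 * ‖v‖ / s ^ 2 + 4 * ‖v‖ / s ^ 2 := by ring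
      rw [e3]
      exact add_le_add e1 e2) hs2
  have hgz : DifferentiableAt ℂ g z := hg.differentiableAt (isOpen_ball.mem_nhds hz')
  have hgz₀ : DifferentiableAt ℂ g z₀ :=
    hg.differentiableAt (isOpen_ball.mem_nhds (mem_ball_self hs))
  have hzv : z₀ + v = z := by rw [hv]; abel
  have h3 : fderiv ℂ (fun w => g (w + v) - g w) z₀ = fderiv ℂ g z - fderiv ℂ g z₀ := by
    have hc : DifferentiableAt ℂ (fun w => g (w + v)) z₀ := by
      have h4 : DifferentiableAt ℂ g (z₀ + v) := by rwa [hzv]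
      exact h4.comp z₀ (differentiableAt_id.add_const v)
    rw [fderiv_fun_sub hc hgz₀, fderiv_comp_add_right, hzv]
  rw [h3] at h2
  refine h2.trans (le_of_eq ?_)
  field_simp
  ring

/-- rank one perturbations of the identity -/
noncomputable def Slab1_eq {E : Type*} [NormedAddCommGroup E] [NormedSpace ℂ E] (ψ : E →L[ℂ] ℂ)
    (e : E) (h : 1 + ψ e ≠ 0) : E ≃L[ℂ] E :=
  ContinuousLinearEquiv.equivOfInverse (ContinuousLinearMap.id ℂ E + ψ.smulRight e)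
    (ContinuousLinearMap.id ℂ E - ((1 + ψ e)⁻¹ • ψ).smulRight e)
    (by
      intro w
      change (w + ψ w • e) - ((1 + ψ e)⁻¹ * ψ (w + ψ w • e)) • e = w
      rw [map_add, map_smul, smul_eq_mul]
      have h1 : (1 + ψ e)⁻¹ * (ψ w + ψ w * ψ e) = ψ w := by
        field_simp
      rw [h1]
      abel)
    (by
      intro w
      change (w - ((1 + ψ e)⁻¹ * ψ w) • e) + ψ (w - ((1 + ψ e)⁻¹ * ψ w) • e) • e = w
      rw [map_sub, map_smul, smul_eq_mul]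
      have h1 : ψ w - (1 + ψ e)⁻¹ * ψ w * ψ e = (1 + ψ e)⁻¹ * ψ w := by
        field_simp
        ring
      rw [h1]
      abel)

theorem Slab1_eq_apply {E : Type*} [NormedAddCommGroup E] [NormedSpace ℂ E] (ψ : E →L[ℂ] ℂ)
    (e : E) (h : 1 + ψ e ≠ 0) (x : E) : Slab1_eq ψ e h x = x + ψ x • e := rfl

theorem Slab1_eq_coe {E : Type*} [NormedAddCommGroup E] [NormedSpace ℂ E] (ψ : E →L[ℂ] ℂ)
    (e : E) (h : 1 + ψ e ≠ 0) : (Slab1_eq ψ e h : E →L[ℂ] E) =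
      ContinuousLinearMap.id ℂ E + ψ.smulRight e := rfl

theorem Slab1_eq_symm_norm {E : Type*} [NormedAddCommGroup E] [NormedSpace ℂ E] (ψ : E →L[ℂ] ℂ)
    (e : E) (h : 1 + ψ e ≠ 0) (h0 : ψ e = 0) (he : ‖e‖ ≤ 1) :
    ‖((Slab1_eq ψ e h).symm : E →L[ℂ] E)‖ ≤ 1 + ‖ψ‖ := by
  refine ContinuousLinearMap.opNorm_le_bound _ (by positivity) fun x => ?_
  have h1 : ((Slab1_eq ψ e h).symm : E →L[ℂ] E) x = x - ψ x • e := by
    change x - ((1 + ψ e)⁻¹ • ψ) x • e = _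
    rw [h0]
    simp
  rw [h1]
  refine (norm_sub_le _ _).trans ?_
  rw [norm_smul, add_mul, one_mul]
  refine add_le_add le_rfl ?_
  calc ‖ψ x‖ * ‖e‖ ≤ ‖ψ x‖ * 1 := mul_le_mul_of_nonneg_left he (norm_nonneg _)
    _ ≤ ‖ψ‖ * ‖x‖ := by rw [mul_one]; exact ψ.le_opNorm x

theorem Slab1_expand {n : ℕ} (x : Cn n) : x = ∑ i, (x i) • bv n i := by
  ext j
  simp only [bv, WithLp.ofLp_sum, Finset.sum_apply, WithLp.ofLp_smul, Pi.smul_apply, smul_eq_mul]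
  simp

theorem Slab1_norm_le_sum {n : ℕ} (x : Cn n) : ‖x‖ ≤ ∑ i, ‖x i‖ := by
  have hx := Slab1_expand x
  calc ‖x‖ = ‖∑ i, (x i) • bv n i‖ := by rw [← hx]
    _ ≤ ∑ i, ‖(x i) • bv n i‖ := norm_sum_le _ _
    _ = ∑ i, ‖x i‖ := by
      refine Finset.sum_congr rfl fun i _ => ?_
      rw [norm_smul]
      simp [bv]

theorem Slab1_coord_le {n : ℕ} (x : Cn n) (i : Fin n) : ‖x i‖ ≤ ‖x‖ := PiLp.norm_apply_le x i

/-- quantitative inverse function theorem: the slab `|g z - g z₀| ≤ s^M` in the ball of radius `s^8`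
is in the image of a small polydisc under an embedding of the unit polydisc -/
theorem slab_embed (n : ℕ) (hn : 1 ≤ n) : ∃ s₀ : ℝ, 0 < s₀ ∧ s₀ ≤ 1 / 4 ∧
    ∀ (z₀ : Cn n) (g : Cn n → ℂ) (s : ℝ), ‖z₀‖ ≤ 1 → 0 < s → s ≤ s₀ →
      DifferentiableOn ℂ g (ball z₀ s) → (∀ z ∈ ball z₀ s, ‖g z‖ ≤ s⁻¹) →
      s ≤ ‖fderiv ℂ g z₀‖ →
      ∃ (Φ : Cn n → Cn n) (i₀ : Fin n), DifferentiableOn ℂ Φ (pdisc n) ∧ InjOn Φ (pdisc n) ∧
        (∀ ζ ∈ pdisc n, Function.Injective (fderiv ℂ Φ ζ)) ∧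
        MapsTo Φ (pdisc n) (ball 0 2) ∧
        ∀ M : ℕ, 8 ≤ M → {z | ‖z - z₀‖ ≤ s ^ 8 ∧ ‖g z - g z₀‖ ≤ s ^ M} ⊆
          Φ '' {ζ | (∀ i, i ≠ i₀ → ‖ζ i‖ ≤ s) ∧ ‖ζ i₀‖ ≤ s ^ (M - 7)} := by
  have hn1 : (1 : ℝ) ≤ n := by exact_mod_cast hn
  obtain ⟨K, hK⟩ : ∃ K : ℝ, K = (n : ℝ) + 2 := ⟨_, rfl⟩
  have hK3 : 3 ≤ K := by linarith
  have hK0 : 0 < K := by linarith
  have hK2 : 9 ≤ K ^ 2 := by nlinarith
  have hK24 : K ^ 2 ≤ K ^ 4 := pow_le_pow_right₀ (by linarith) (by norm_num)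
  have hK14 : K ≤ K ^ 4 := le_self_pow₀ (by linarith) (by norm_num)
  refine ⟨1 / (240 * K ^ 4), by positivity, ?_, ?_⟩
  · rw [div_le_div_iff₀ (by positivity) (by norm_num)]
    linarith
  intro z₀ g s hz₀ hs hss hg hb hds
  have hs1 : s * (240 * K ^ 4) ≤ 1 := by rwa [le_div_iff₀ (by positivity)] at hss
  have hs2 : s ≤ 1 := by
    have : s * 1 ≤ s * (240 * K ^ 4) := mul_le_mul_of_nonneg_left (by linarith) hs.le
    linarith
  have hs4 : s ^ 4 ≤ s := by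
    have := pow_le_pow_of_le_one hs.le hs2 (show 1 ≤ 4 by norm_num)
    simpa using this
  have hs4p : 0 < s ^ 4 := by positivity
  have hs60 : s * (60 * K ^ 2) < 1 := by
    have : s * (60 * K ^ 2) < s * (240 * K ^ 4) := mul_lt_mul_of_pos_left (by linarith) hs
    linarith
  have hns : n * s ≤ 1 := by
    have : s * n ≤ s * (240 * K ^ 4) := mul_le_mul_of_nonneg_left (by linarith) hs.le
    linarith
  obtain ⟨δ, hδ⟩ : ∃ δ : ℝ, δ = s ^ 4 / (60 * K ^ 2) := ⟨_, rfl⟩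
  have hδ0 : 0 < δ := by rw [hδ]; positivity
  have hδs : δ ≤ s / 2 := by
    rw [hδ, div_le_div_iff₀ (by positivity) (by norm_num)]
    have : s * 2 ≤ s * (60 * K ^ 2) := mul_le_mul_of_nonneg_left (by linarith) hs.le
    linarith
  have hδ1 : δ < 1 := by linarith
  have hs8 : s ^ 8 < δ := by
    rw [hδ, lt_div_iff₀ (by positivity)]
    have h1 : s ^ 8 * (60 * K ^ 2) = s ^ 4 * (s ^ 4 * (60 * K ^ 2)) := by ring
    have h2 : s ^ 4 * (60 * K ^ 2) ≤ s * (60 * K ^ 2) :=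
      mul_le_mul_of_nonneg_right hs4 (by positivity)
    have h3 : s ^ 4 * (60 * K ^ 2) < 1 := lt_of_le_of_lt h2 hs60
    rw [h1]
    nlinarith
  have hδK : n * s ^ 5 ≤ δ / (4 * K) := by
    rw [hδ, div_div, le_div_iff₀ (by positivity)]
    have h1 : n * s ^ 5 * (60 * K ^ 2 * (4 * K)) = s ^ 4 * (s * (240 * K ^ 3 * n)) := by ring
    have h2 : s * (240 * K ^ 3 * n) ≤ s * (240 * K ^ 4) := by
      refine mul_le_mul_of_nonneg_left ?_ hs.le
      have : K ^ 3 * n ≤ K ^ 3 * K := mul_le_mul_of_nonneg_left (by linarith) (by positivity)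
      nlinarith
    rw [h1]
    have h3 : s * (240 * K ^ 3 * n) ≤ 1 := h2.trans hs1
    nlinarith
  have hne : Nonempty (Fin n) := ⟨⟨0, by omega⟩⟩
  obtain ⟨ℓ, hℓ⟩ : ∃ ℓ : Cn n →L[ℂ] ℂ, ℓ = fderiv ℂ g z₀ := ⟨_, rfl⟩
  obtain ⟨i₀, hi₀⟩ := Finite.exists_max (fun i => ‖ℓ (bv n i)‖)
  obtain ⟨a, ha⟩ : ∃ a : ℂ, a = ℓ (bv n i₀) := ⟨_, rfl⟩
  obtain ⟨e, he⟩ : ∃ e : Cn n, e = bv n i₀ := ⟨_, rfl⟩
  have hen : ‖e‖ = 1 := by rw [he]; simp [bv]
  have hee : e i₀ = 1 := by rw [he]; simp [bv]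
  have hej : ∀ j, j ≠ i₀ → e j = 0 := by
    intro j hj
    rw [he]
    simp [bv, hj]
  have hℓn : ‖ℓ‖ ≤ n * ‖a‖ := by
    refine ContinuousLinearMap.opNorm_le_bound _ (by positivity) fun x => ?_
    have h1 : ℓ x = ∑ i, x i * ℓ (bv n i) := by
      conv_lhs => rw [Slab1_expand x, map_sum]
      refine Finset.sum_congr rfl fun i _ => ?_
      rw [map_smul, smul_eq_mul]
    rw [h1]
    calc ‖∑ i, x i * ℓ (bv n i)‖ ≤ ∑ i : Fin n, ‖x i * ℓ (bv n i)‖ := norm_sum_le _ _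
      _ ≤ ∑ i : Fin n, ‖x‖ * ‖a‖ := by
        refine Finset.sum_le_sum fun i _ => ?_
        rw [norm_mul, ha]
        exact mul_le_mul (Slab1_coord_le x i) (hi₀ i) (norm_nonneg _) (norm_nonneg _)
      _ = n * ‖a‖ * ‖x‖ := by simp; ring
  have hna : s ≤ n * ‖a‖ := by
    rw [← hℓ] at hds
    exact hds.trans hℓn
  have hap : 0 < ‖a‖ := by
    by_contra h
    have : ‖a‖ = 0 := le_antisymm (not_lt.1 h) (norm_nonneg _)
    rw [this, mul_zero] at hna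
    linarith
  have ha0 : a ≠ 0 := norm_pos_iff.1 hap
  have hai : ‖a⁻¹‖ ≤ n / s := by
    rw [norm_inv, inv_le_comm₀ hap (by positivity), inv_div, div_le_iff₀ (by positivity)]
    linarith
  have hℓe : ℓ e = a := by rw [he, ha]
  obtain ⟨φ, hφ⟩ : ∃ φ : Cn n →L[ℂ] ℂ, ∀ x, φ x = a⁻¹ * ℓ x - x i₀ :=
    ⟨a⁻¹ • ℓ - EuclideanSpace.proj i₀, fun x => rfl⟩
  have hφe : φ e = 0 := by rw [hφ, hℓe, hee, inv_mul_cancel₀ ha0, sub_self]
  have hφn : ‖φ‖ ≤ n + 1 := by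
    refine ContinuousLinearMap.opNorm_le_bound _ (by positivity) fun x => ?_
    rw [hφ]
    refine (norm_sub_le _ _).trans ?_
    rw [norm_mul, norm_inv]
    have h1 : ‖ℓ x‖ ≤ n * ‖a‖ * ‖x‖ :=
      (ℓ.le_opNorm x).trans (mul_le_mul_of_nonneg_right hℓn (norm_nonneg _))
    have h2 : ‖a‖⁻¹ * ‖ℓ x‖ ≤ ‖a‖⁻¹ * (n * ‖a‖ * ‖x‖) :=
      mul_le_mul_of_nonneg_left h1 (by positivity)
    have h3 : ‖a‖⁻¹ * (n * ‖a‖ * ‖x‖) = n * ‖x‖ := by
      field_simp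
    have h4 := Slab1_coord_le x i₀
    linarith
  have hA1 : 1 + φ e ≠ 0 := by rw [hφe, add_zero]; exact one_ne_zero
  obtain ⟨A, hA⟩ : ∃ A : Cn n ≃L[ℂ] Cn n, A = Slab1_eq φ e hA1 := ⟨_, rfl⟩
  have hAs : ‖(A.symm : Cn n →L[ℂ] Cn n)‖ ≤ K := by
    rw [hA]
    refine (Slab1_eq_symm_norm φ e hA1 hφe hen.le).trans ?_
    linarith
  have hAx : ∀ x, (A : Cn n →L[ℂ] Cn n) x = x + (a⁻¹ * ℓ x - x i₀) • e := by
    intro x
    rw [hA, ← hφ]
    rfl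
  obtain ⟨Ψ, hΨ⟩ : ∃ Ψ : Cn n → Cn n, ∀ z, Ψ z =
      (z - z₀) + (a⁻¹ * (g z - g z₀) - (z - z₀) i₀) • e := ⟨_, fun z => rfl⟩
  have hsubδ : ball z₀ δ ⊆ ball z₀ s := ball_subset_ball (by linarith)
  have hgd : ∀ z ∈ ball z₀ δ, DifferentiableAt ℂ g z := fun z hz =>
    hg.differentiableAt (isOpen_ball.mem_nhds (hsubδ hz))
  have hbd : ∀ z ∈ ball z₀ δ, ‖fderiv ℂ g z - ℓ‖ ≤ 16 * δ / s ^ 3 := by
    intro z hz
    rw [mem_ball, dist_eq_norm] at hz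
    rw [hℓ]
    refine (Slab1_cauchy hs hg hb (by linarith)).trans ?_
    gcongr
  have hc16 : ‖a⁻¹‖ * (16 * δ / s ^ 3) ≤ 1 / (2 * K) := by
    calc ‖a⁻¹‖ * (16 * δ / s ^ 3) ≤ n / s * (16 * δ / s ^ 3) := by gcongr
      _ = 16 * n / (60 * K ^ 2) := by
        rw [hδ]
        field_simp
      _ ≤ 1 / (2 * K) := by
        rw [div_le_div_iff₀ (by positivity) (by positivity)]
        nlinarith
  obtain ⟨c, hc⟩ : ∃ c : NNReal, (c : ℝ) = 1 / (2 * K) := ⟨⟨1 / (2 * K), by positivity⟩, rfl⟩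
  have hAL : ApproximatesLinearOn Ψ (A : Cn n →L[ℂ] Cn n) (ball z₀ δ) c := by
    intro x hx y hy
    have h1 : Ψ x - Ψ y - (A : Cn n →L[ℂ] Cn n) (x - y) =
        (a⁻¹ * (g x - g y - ℓ (x - y))) • e := by
      rw [hΨ, hΨ, hAx]
      have e1 : (x - z₀) i₀ = x i₀ - z₀ i₀ := rfl
      have e2 : (y - z₀) i₀ = y i₀ - z₀ i₀ := rfl
      have e3 : (x - y) i₀ = x i₀ - y i₀ := rfl
      rw [e1, e2, e3]
      module
    rw [h1, norm_smul, hen, mul_one, norm_mul]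
    have h2 := (convex_ball z₀ δ).norm_image_sub_le_of_norm_fderiv_le' (𝕜 := ℂ) (f := g)
      (φ := ℓ) hgd hbd hy hx
    calc ‖a⁻¹‖ * ‖g x - g y - ℓ (x - y)‖ ≤ ‖a⁻¹‖ * (16 * δ / s ^ 3 * ‖x - y‖) :=
          mul_le_mul_of_nonneg_left h2 (norm_nonneg _)
      _ = ‖a⁻¹‖ * (16 * δ / s ^ 3) * ‖x - y‖ := by ring
      _ ≤ c * ‖x - y‖ := by
        rw [hc]
        exact mul_le_mul_of_nonneg_right hc16 (norm_nonneg _)
  have hN0 : 0 < ‖(A.symm : Cn n →L[ℂ] Cn n)‖ := by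
    rw [norm_pos_iff]
    intro h0
    have h1 : (A.symm : Cn n →L[ℂ] Cn n) e = 0 := by rw [h0]; rfl
    have h2 : A.symm e = 0 := h1
    have h3 : e = 0 := (map_eq_zero_iff A.symm A.symm.injective).1 h2
    rw [h3, norm_zero] at hen
    norm_num at hen
  have hNK : K⁻¹ ≤ ‖(A.symm : Cn n →L[ℂ] Cn n)‖⁻¹ := inv_anti₀ hN0 hAs
  have hcK : 1 / (2 * K) < K⁻¹ := by
    rw [one_div, mul_inv]
    have : 0 < K⁻¹ := by positivity
    linarith
  have hcN : Subsingleton (Cn n) ∨ c < ‖(A.symm : Cn n →L[ℂ] Cn n)‖₊⁻¹ := by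
    right
    rw [← NNReal.coe_lt_coe, hc, NNReal.coe_inv, coe_nnnorm]
    exact lt_of_lt_of_le hcK hNK
  obtain ⟨T, hT⟩ : ∃ T : OpenPartialHomeomorph (Cn n) (Cn n),
      T = hAL.toOpenPartialHomeomorph Ψ (ball z₀ δ) hcN isOpen_ball := ⟨_, rfl⟩
  have hTs : T.source = ball z₀ δ := by rw [hT]; rfl
  have hTc : ∀ x, T x = Ψ x := fun x => by rw [hT]; rfl
  have hTt : closedBall (0 : Cn n) (δ / (4 * K)) ⊆ T.target := by
    have h1 := hAL.closedBall_subset_target hcN isOpen_ball (b := z₀) (ε := δ / 2) (by positivity)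
      (closedBall_subset_ball (by linarith))
    rw [← hT] at h1
    refine Subset.trans ?_ h1
    have h2 : Ψ z₀ = 0 := by
      rw [hΨ]
      simp
    rw [h2]
    refine closedBall_subset_closedBall ?_
    rw [hc, NNReal.coe_inv, coe_nnnorm]
    have h3 : 1 / (2 * K) ≤ ‖(A.symm : Cn n →L[ℂ] Cn n)‖⁻¹ - 1 / (2 * K) := by
      have : K⁻¹ = 1 / (2 * K) + 1 / (2 * K) := by field_simp; norm_num
      linarith
    calc δ / (4 * K) = 1 / (2 * K) * (δ / 2) := by field_simp; norm_num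
      _ ≤ _ := mul_le_mul_of_nonneg_right h3 (by positivity)
  have hζ : ∀ ζ ∈ pdisc n, ((s : ℂ) ^ 5) • ζ ∈ T.target := by
    intro ζ hζ
    refine hTt ?_
    rw [mem_closedBall, dist_zero_right, norm_smul, norm_pow, Complex.norm_real,
      Real.norm_of_nonneg hs.le]
    have h1 : ‖ζ‖ ≤ n := by
      refine (Slab1_norm_le_sum ζ).trans ?_
      calc ∑ i, ‖ζ i‖ ≤ ∑ i : Fin n, (1 : ℝ) := Finset.sum_le_sum fun i _ => (hζ i).le
        _ = n := by simp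
    calc s ^ 5 * ‖ζ‖ ≤ s ^ 5 * n := mul_le_mul_of_nonneg_left h1 (by positivity)
      _ ≤ δ / (4 * K) := by linarith
  have hder : ∀ ζ ∈ pdisc n, ∃ B : Cn n ≃L[ℂ] Cn n,
      HasFDerivAt (fun ζ => T.symm (((s : ℂ) ^ 5) • ζ))
        ((B : Cn n →L[ℂ] Cn n).comp (((s : ℂ) ^ 5) • ContinuousLinearMap.id ℂ (Cn n))) ζ := by
    intro ζ hζp
    have ht := hζ ζ hζp
    have hx : T.symm (((s : ℂ) ^ 5) • ζ) ∈ ball z₀ δ := by
      rw [← hTs]
      exact T.map_target ht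
    set x := T.symm (((s : ℂ) ^ 5) • ζ) with hxdef
    obtain ⟨ψ, hψ⟩ : ∃ ψ : Cn n →L[ℂ] ℂ, ψ = a⁻¹ • fderiv ℂ g x - EuclideanSpace.proj i₀ :=
      ⟨_, rfl⟩
    have hψx : ∀ v, ψ v = a⁻¹ * fderiv ℂ g x v - v i₀ := fun v => by rw [hψ]; rfl
    have hψe : 1 + ψ e ≠ 0 := by
      rw [hψx, hee]
      have h1 : ‖a⁻¹ * (fderiv ℂ g x - ℓ) e‖ < 1 := by
        rw [norm_mul]
        have h2 : ‖(fderiv ℂ g x - ℓ) e‖ ≤ 16 * δ / s ^ 3 := by
          refine ((fderiv ℂ g x - ℓ).le_opNorm e).trans ?_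
          rw [hen, mul_one]
          exact hbd x hx
        have h3 : ‖a⁻¹‖ * ‖(fderiv ℂ g x - ℓ) e‖ ≤ 1 / (2 * K) :=
          (mul_le_mul_of_nonneg_left h2 (norm_nonneg _)).trans hc16
        have h4 : 1 / (2 * K) < 1 := by
          rw [div_lt_one (by positivity)]
          linarith
        linarith
      intro h0
      have h5 : a⁻¹ * (fderiv ℂ g x - ℓ) e = -1 := by
        have h6 : (fderiv ℂ g x - ℓ) e = fderiv ℂ g x e - a := by rw [← hℓe]; rfl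
        rw [h6, mul_sub, inv_mul_cancel₀ ha0]
        linear_combination h0
      rw [h5] at h1
      simp at h1
    have hΨd : HasFDerivAt T (Slab1_eq ψ e hψe : Cn n →L[ℂ] Cn n) x := by
      have hgx : HasFDerivAt g (fderiv ℂ g x) x := (hgd x hx).hasFDerivAt
      have h1 : HasFDerivAt (fun z : Cn n => a⁻¹ * (g z - g z₀) - (z - z₀) i₀) ψ x := by
        rw [hψ]
        have h2 : HasFDerivAt (fun z : Cn n => (z - z₀) i₀)
            (EuclideanSpace.proj i₀ : Cn n →L[ℂ] ℂ) x := by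
          have h3 : HasFDerivAt (fun z : Cn n => (EuclideanSpace.proj i₀ : Cn n →L[ℂ] ℂ) (z - z₀))
              (EuclideanSpace.proj i₀ : Cn n →L[ℂ] ℂ) x := by
            have h4 := (EuclideanSpace.proj i₀ : Cn n →L[ℂ] ℂ).hasFDerivAt.comp x
              ((hasFDerivAt_id x).sub_const z₀)
            exact h4
          exact h3
        exact ((hgx.sub_const (g z₀)).const_smul a⁻¹).sub h2
      have h5 : HasFDerivAt Ψ (ContinuousLinearMap.id ℂ (Cn n) + ψ.smulRight e) x := by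
        have h6 : HasFDerivAt (fun z : Cn n => (z - z₀) +
            (a⁻¹ * (g z - g z₀) - (z - z₀) i₀) • e)
            (ContinuousLinearMap.id ℂ (Cn n) + ψ.smulRight e) x :=
          ((hasFDerivAt_id x).sub_const z₀).add (h1.smul_const e)
        have h7 : Ψ = fun z : Cn n => (z - z₀) + (a⁻¹ * (g z - g z₀) - (z - z₀) i₀) • e :=
          funext hΨ
        rw [h7]
        exact h6
      have h8 : (T : Cn n → Cn n) = Ψ := funext hTc
      rw [h8, Slab1_eq_coe]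
      exact h5
    have hsymm := T.hasFDerivAt_symm ht hΨd
    have hcomp := hsymm.comp ζ ((hasFDerivAt_id ζ).const_smul ((s : ℂ) ^ 5))
    exact ⟨_, hcomp⟩
  refine ⟨fun ζ => T.symm (((s : ℂ) ^ 5) • ζ), i₀, ?_, ?_, ?_, ?_, ?_⟩
  · intro ζ hζp
    obtain ⟨B, hB⟩ := hder ζ hζp
    exact hB.differentiableAt.differentiableWithinAt
  · intro ζ hζ1 ζ' hζ2 h
    have h1 := T.symm.injOn (hζ ζ hζ1) (hζ ζ' hζ2) h
    have h2 : ((s : ℂ) ^ 5) ≠ 0 := pow_ne_zero _ (Complex.ofReal_ne_zero.2 hs.ne')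
    exact smul_right_injective _ h2 h1
  · intro ζ hζp
    obtain ⟨B, hB⟩ := hder ζ hζp
    rw [hB.fderiv]
    have h2 : ((s : ℂ) ^ 5) ≠ 0 := pow_ne_zero _ (Complex.ofReal_ne_zero.2 hs.ne')
    intro v w hvw
    have h3 : B (((s : ℂ) ^ 5) • v) = B (((s : ℂ) ^ 5) • w) := hvw
    exact smul_right_injective _ h2 (B.injective h3)
  · intro ζ hζp
    have hx : T.symm (((s : ℂ) ^ 5) • ζ) ∈ ball z₀ δ := by
      rw [← hTs]
      exact T.map_target (hζ ζ hζp)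
    rw [mem_ball, dist_eq_norm] at hx
    rw [mem_ball, dist_zero_right]
    calc ‖T.symm (((s : ℂ) ^ 5) • ζ)‖ = ‖(T.symm (((s : ℂ) ^ 5) • ζ) - z₀) + z₀‖ := by
          rw [sub_add_cancel]
      _ ≤ ‖T.symm (((s : ℂ) ^ 5) • ζ) - z₀‖ + ‖z₀‖ := norm_add_le _ _
      _ < 2 := by linarith
  · intro M hM z hz
    obtain ⟨hz1, hz2⟩ := hz
    have hzs : z ∈ T.source := by
      rw [hTs, mem_ball, dist_eq_norm]
      exact lt_of_le_of_lt hz1 hs8
    have hs5 : ((s : ℂ) ^ 5) ≠ 0 := pow_ne_zero _ (Complex.ofReal_ne_zero.2 hs.ne')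
    have hs5n : ‖((s : ℂ) ^ 5)⁻¹‖ = (s ^ 5)⁻¹ := by
      rw [norm_inv, norm_pow, Complex.norm_real, Real.norm_of_nonneg hs.le]
    refine ⟨((s : ℂ) ^ 5)⁻¹ • Ψ z, ⟨?_, ?_⟩, ?_⟩
    · intro j hj
      have h1 : (((s : ℂ) ^ 5)⁻¹ • Ψ z) j = ((s : ℂ) ^ 5)⁻¹ * (z - z₀) j := by
        rw [hΨ]
        change ((s : ℂ) ^ 5)⁻¹ * ((z - z₀) j + _ * e j) = _
        rw [hej j hj, mul_zero, add_zero]
      rw [h1, norm_mul, hs5n]
      have h2 := (Slab1_coord_le (z - z₀) j).trans hz1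
      calc (s ^ 5)⁻¹ * ‖(z - z₀) j‖ ≤ (s ^ 5)⁻¹ * s ^ 8 :=
            mul_le_mul_of_nonneg_left h2 (by positivity)
        _ = s ^ 3 := by field_simp
        _ ≤ s := by
          have := pow_le_pow_of_le_one hs.le hs2 (show 1 ≤ 3 by norm_num)
          simpa using this
    · have h1 : (((s : ℂ) ^ 5)⁻¹ • Ψ z) i₀ = ((s : ℂ) ^ 5)⁻¹ * (a⁻¹ * (g z - g z₀)) := by
        rw [hΨ]
        change ((s : ℂ) ^ 5)⁻¹ * ((z - z₀) i₀ + (a⁻¹ * (g z - g z₀) - (z - z₀) i₀) * e i₀) = _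
        rw [hee]
        ring
      rw [h1, norm_mul, norm_mul, hs5n]
      have hM7 : s ^ M = s ^ (M - 7) * s ^ 7 := by
        rw [← pow_add]
        congr 1
        omega
      calc (s ^ 5)⁻¹ * (‖a⁻¹‖ * ‖g z - g z₀‖) ≤ (s ^ 5)⁻¹ * (n / s * s ^ M) := by gcongr
        _ = s ^ (M - 7) * (n * s) := by
          rw [hM7]
          field_simp
        _ ≤ s ^ (M - 7) := mul_le_of_le_one_right (by positivity) hns
    · change T.symm (((s : ℂ) ^ 5) • (((s : ℂ) ^ 5)⁻¹ • Ψ z)) = z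
      rw [smul_inv_smul₀ hs5, ← hTc]
      exact T.left_inv hzs

end HMA
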