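import Pool.Agent.H85.MA.Slab1
import Pool.Agent.H85.MA.Net

/-! # Module SLAB2: measure of slabs; neighbourhoods of hyperplanes -/

open MeasureTheory Metric Set
open scoped ENNReal Topology ContDiff

namespace HMA

theorem slab (n : ℕ) (hn : 1 ≤ n) {C ε Λ : ℝ} (hC : 0 < C) (hε : 0 < ε) (hΛ : 0 ≤ Λ) :
    ∃ (M : ℕ) (C₁ : ℝ), 8 ≤ M ∧ 0 < C₁ ∧
    ∀ (μ : Measure (Cn n)), μ univ ≤ ENNReal.ofReal C → PolyB n μ C ε →
      ∀ (z₀ : Cn n) (g : Cn n → ℂ) (s : ℝ), ‖z₀‖ ≤ 1 → 0 < s → s ≤ 1 / 4 →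
        DifferentiableOn ℂ g (ball z₀ s) → (∀ z ∈ ball z₀ s, ‖g z‖ ≤ s⁻¹) →
        s ≤ ‖fderiv ℂ g z₀‖ →
        μ {z | ‖z - z₀‖ ≤ s ^ 8 ∧ ‖g z - g z₀‖ ≤ s ^ M} ≤ ENNReal.ofReal (C₁ * s ^ Λ) := by
  obtain ⟨s₀, hs₀, hs₀4, hemb⟩ := slab_embed n hn
  set k : ℕ := ⌈(Λ / ε) ^ n⌉₊ + 1 with hk
  have hkpos : 1 ≤ k := by omega
  have hkle : (Λ / ε) ^ n ≤ (k : ℝ) := by
    have := Nat.le_ceil ((Λ / ε) ^ n)
    rw [hk]; push_cast; linarith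
  have hroot : Λ ≤ ε * (k : ℝ) ^ ((n : ℝ)⁻¹) := by
    have h0 : 0 ≤ Λ / ε := div_nonneg hΛ hε.le
    have h1 : Λ / ε ≤ (k : ℝ) ^ ((n : ℝ)⁻¹) := by
      have h2 := Real.rpow_le_rpow (pow_nonneg h0 n) hkle (by positivity : (0:ℝ) ≤ (n : ℝ)⁻¹)
      rwa [Real.pow_rpow_inv_natCast h0 (by omega)] at h2
    calc Λ = ε * (Λ / ε) := by field_simp
      _ ≤ _ := mul_le_mul_of_nonneg_left h1 hε.le
  refine ⟨k + 7, C * s₀ ^ (-Λ), by omega, by positivity, ?_⟩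
  intro μ hμ hP z₀ g s hz₀ hs hs4 hg hgb hgd
  by_cases hss : s ≤ s₀
  · obtain ⟨Φ, i₀, hΦ1, hΦ2, hΦ2', hΦ3, hΦ4⟩ := hemb z₀ g s hz₀ hs hss hg hgb hgd
    have hs1 : s < 1 := by linarith
    set σ : Fin n → ℝ := fun i => if i = i₀ then s ^ k else s with hσ
    have hσ01 : ∀ i, 0 < σ i ∧ σ i < 1 := by
      intro i
      simp only [hσ]
      split_ifs
      · exact ⟨by positivity, pow_lt_one₀ hs.le hs1 (by omega)⟩
      · exact ⟨hs, hs1⟩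
    have h1 := hP Φ σ hΦ1 hΦ2 hΦ2' hΦ3 hσ01
    have h2 := hΦ4 (k + 7) (by omega)
    have h3 : {z | ‖z - z₀‖ ≤ s ^ 8 ∧ ‖g z - g z₀‖ ≤ s ^ (k + 7)} ⊆
        Φ '' {ζ | ∀ i, ‖ζ i‖ ≤ σ i} := by
      refine h2.trans (image_mono ?_)
      rintro ζ ⟨hζ1, hζ2⟩ i
      by_cases hi : i = i₀
      · subst hi
        have : k + 7 - 7 = k := by omega
        rw [this] at hζ2
        simpa [hσ] using hζ2
      · simpa [hσ, hi] using hζ1 i hi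
    refine (measure_mono h3).trans (h1.trans (ENNReal.ofReal_le_ofReal ?_))
    have hprod : ∏ i, Real.log (1 / σ i) = (k : ℝ) * (Real.log (1 / s)) ^ n := by
      have : ∀ i, Real.log (1 / σ i) = (if i = i₀ then (k : ℝ) else 1) * Real.log (1 / s) := by
        intro i
        simp only [hσ]
        split_ifs
        · rw [one_div, one_div, Real.log_inv, Real.log_inv, Real.log_pow]; ring
        · ring
      rw [Finset.prod_congr rfl (fun i _ => this i), Finset.prod_mul_distrib]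
      simp [Finset.prod_ite_eq']
    have hL : 0 ≤ Real.log (1 / s) := Real.log_nonneg (by
      rw [le_div_iff₀ hs]; linarith)
    have hroot2 : (∏ i, Real.log (1 / σ i)) ^ ((n : ℝ)⁻¹) =
        (k : ℝ) ^ ((n : ℝ)⁻¹) * Real.log (1 / s) := by
      rw [hprod, Real.mul_rpow (by positivity) (pow_nonneg hL n),
        Real.pow_rpow_inv_natCast hL (by omega)]
    rw [hroot2]
    have h5 : Real.exp (-ε * ((k : ℝ) ^ ((n : ℝ)⁻¹) * Real.log (1 / s))) ≤ s ^ Λ := by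
      rw [Real.rpow_def_of_pos hs]
      apply Real.exp_le_exp.mpr
      rw [one_div, Real.log_inv] at *
      nlinarith
    have h6 : (1:ℝ) ≤ s₀ ^ (-Λ) := by
      apply Real.one_le_rpow_of_pos_of_le_one_of_nonpos hs₀ (by linarith) (by linarith)
    have h7 : 0 < s ^ Λ := Real.rpow_pos_of_pos hs _
    calc C * Real.exp (-ε * ((k : ℝ) ^ ((n : ℝ)⁻¹) * Real.log (1 / s))) ≤ C * s ^ Λ :=
          mul_le_mul_of_nonneg_left h5 hC.le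
      _ ≤ C * s₀ ^ (-Λ) * s ^ Λ := by
          nlinarith [mul_pos hC h7]
  · push Not at hss
    refine (measure_mono (subset_univ _)).trans (hμ.trans (ENNReal.ofReal_le_ofReal ?_))
    have h1 : s₀ ^ Λ ≤ s ^ Λ := Real.rpow_le_rpow hs₀.le hss.le hΛ
    have h2 : s₀ ^ (-Λ) * s₀ ^ Λ = 1 := by
      rw [← Real.rpow_add hs₀]; simp
    have h3 : 0 < s₀ ^ (-Λ) := Real.rpow_pos_of_pos hs₀ _
    calc C = C * (s₀ ^ (-Λ) * s₀ ^ Λ) := by rw [h2, mul_one]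
      _ ≤ C * (s₀ ^ (-Λ) * s ^ Λ) := by gcongr
      _ = C * s₀ ^ (-Λ) * s ^ Λ := by ring

theorem Slab2_inner (n : ℕ) (a : Cn (n + 1)) (z : Cn n) :
    inner ℂ a (cha 0 z) =
      (starRingEnd ℂ) (a 0) + inner ℂ (WithLp.toLp 2 (fun j : Fin n => a j.succ) : Cn n) z := by
  rw [PiLp.inner_apply, PiLp.inner_apply, Fin.sum_univ_succ]
  simp [cha]

theorem Slab2_norm (n : ℕ) (a : Cn (n + 1)) :
    ‖a‖ ^ 2 = ‖a 0‖ ^ 2 + ‖(WithLp.toLp 2 (fun j : Fin n => a j.succ) : Cn n)‖ ^ 2 := by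
  rw [EuclideanSpace.norm_sq_eq, EuclideanSpace.norm_sq_eq, Fin.sum_univ_succ]

/-- neighbourhoods of affine hyperplanes -/
theorem slab_lin (n : ℕ) (hn : 1 ≤ n) {C ε Λ : ℝ} (hC : 0 < C) (hε : 0 < ε) (hΛ : 0 ≤ Λ) :
    ∃ (M : ℕ) (C₁ : ℝ), 0 < C₁ ∧
    ∀ (μ : Measure (Cn n)), μ univ ≤ ENNReal.ofReal C → PolyB n μ C ε →
      ∀ (a : Cn (n + 1)) (s : ℝ), ‖a‖ = 1 → 0 < s → s ≤ 1 / 4 →
        μ {z | ‖z‖ ≤ 1 ∧ ‖inner ℂ a (cha 0 z)‖ ≤ s ^ M} ≤ ENNReal.ofReal (C₁ * s ^ Λ) := by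
  obtain ⟨M₀, C₀, hM₀, hC₀, hslab⟩ := slab n hn (Λ := 16 * n + Λ) hC hε (by positivity)
  obtain ⟨B, hB, hnet⟩ := net n
  refine ⟨M₀ + 1, B ^ (2 * n) * C₀, by positivity, ?_⟩
  intro μ hμ hP a s ha hs hs4
  have hs1 : s ≤ 1 := by linarith
  set a' : Cn n := WithLp.toLp 2 (fun j : Fin n => a j.succ) with ha'
  set l : Cn n → ℂ := fun z => inner ℂ a (cha 0 z) with hl
  have hl' : l = fun z => (starRingEnd ℂ) (a 0) + inner ℂ a' z := by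
    funext z; exact Slab2_inner n a z
  have hnorm := Slab2_norm n a
  rw [← ha', ha] at hnorm
  have ha0 : ‖a 0‖ ≤ 1 := by nlinarith [sq_nonneg ‖a'‖, norm_nonneg (a 0)]
  have ha1 : ‖a'‖ ≤ 1 := by nlinarith [sq_nonneg ‖a 0‖, norm_nonneg a']
  have hderiv : ∀ z, HasFDerivAt l (innerSL ℂ a') z := by
    intro z
    rw [hl']
    exact ((innerSL ℂ a').hasFDerivAt).const_add _
  set S : Set (Cn n) := {z | ‖z‖ ≤ 1 ∧ ‖inner ℂ a (cha 0 z)‖ ≤ s ^ (M₀ + 1)} with hS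
  obtain ⟨T, hTS, hTc, hTn⟩ := hnet (Cn n) (by simp) S (fun x hx => hx.1) (s ^ 8) (by positivity)
    (pow_le_one₀ hs.le hs1)
  have hcov : S ⊆ ⋃ z₀ ∈ T, {z | ‖z - z₀‖ ≤ s ^ 8 ∧ ‖l z - l z₀‖ ≤ s ^ M₀} := by
    intro z hz
    obtain ⟨e, heT, hze⟩ := hTn z hz
    have he := hTS heT
    refine mem_iUnion₂.mpr ⟨e, heT, hze, ?_⟩
    have h1 : ‖l z‖ ≤ s ^ (M₀ + 1) := hz.2
    have h2 : ‖l e‖ ≤ s ^ (M₀ + 1) := he.2
    have h3 : 0 < s ^ M₀ := by positivity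
    calc ‖l z - l e‖ ≤ ‖l z‖ + ‖l e‖ := norm_sub_le _ _
      _ ≤ s ^ (M₀ + 1) + s ^ (M₀ + 1) := add_le_add h1 h2
      _ ≤ s ^ M₀ := by rw [pow_succ]; nlinarith
  have hone : ∀ z₀ ∈ T, μ {z | ‖z - z₀‖ ≤ s ^ 8 ∧ ‖l z - l z₀‖ ≤ s ^ M₀} ≤
      ENNReal.ofReal (C₀ * s ^ (16 * n + Λ)) := by
    intro z₀ hz₀
    have hz := hTS hz₀
    refine hslab μ hμ hP z₀ l s hz.1 hs hs4
      (fun z _ => (hderiv z).differentiableAt.differentiableWithinAt) ?_ ?_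
    · intro z hz'
      have h1 : ‖z‖ ≤ 1 + s := by
        have := norm_sub_norm_le z z₀
        rw [mem_ball, dist_eq_norm] at hz'
        linarith [hz.1]
      have h2 : ‖l z‖ ≤ ‖a 0‖ + ‖a'‖ * ‖z‖ := by
        rw [hl']
        refine (norm_add_le _ _).trans (add_le_add (by simp) (norm_inner_le_norm _ _))
      have h3 : (4:ℝ) ≤ s⁻¹ := by
        rw [le_inv_comm₀ (by norm_num) hs]; linarith
      have h4 : ‖a'‖ * ‖z‖ ≤ 1 * (1 + s) := mul_le_mul ha1 h1 (norm_nonneg _) (by norm_num)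
      linarith
    · rw [(hderiv z₀).fderiv, innerSL_apply_norm]
      by_contra hcon
      push Not at hcon
      have h1 : ‖l z₀‖ ≤ s ^ (M₀ + 1) := hz.2
      have h2 : s ^ (M₀ + 1) ≤ 1 / 4 := by
        calc s ^ (M₀ + 1) = s ^ M₀ * s := pow_succ _ _
          _ ≤ 1 * (1 / 4) := mul_le_mul (pow_le_one₀ hs.le hs1) hs4 hs.le (by norm_num)
          _ = 1 / 4 := by norm_num
      have h3 : ‖a 0‖ ≤ ‖l z₀‖ + ‖a'‖ * ‖z₀‖ := by
        have h4 : (starRingEnd ℂ) (a 0) = l z₀ - inner ℂ a' z₀ := by rw [hl']; ring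
        have h5 : ‖a 0‖ = ‖(starRingEnd ℂ) (a 0)‖ := by simp
        rw [h5, h4]
        exact (norm_sub_le _ _).trans (add_le_add le_rfl (norm_inner_le_norm _ _))
      have h6 : ‖a'‖ * ‖z₀‖ ≤ 1 / 4 * 1 :=
        mul_le_mul (by linarith) hz.1 (norm_nonneg _) (by norm_num)
      have h7 : ‖a 0‖ ≤ 1 / 2 := by linarith
      nlinarith [norm_nonneg (a 0), norm_nonneg a']
  calc μ S ≤ μ (⋃ z₀ ∈ T, {z | ‖z - z₀‖ ≤ s ^ 8 ∧ ‖l z - l z₀‖ ≤ s ^ M₀}) := measure_mono hcov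
    _ ≤ ∑ z₀ ∈ T, μ {z | ‖z - z₀‖ ≤ s ^ 8 ∧ ‖l z - l z₀‖ ≤ s ^ M₀} :=
        measure_biUnion_finset_le _ _
    _ ≤ ∑ z₀ ∈ T, ENNReal.ofReal (C₀ * s ^ (16 * n + Λ)) := Finset.sum_le_sum hone
    _ = ENNReal.ofReal ((T.card : ℝ) * (C₀ * s ^ (16 * n + Λ))) := by
        rw [Finset.sum_const, nsmul_eq_mul, ENNReal.ofReal_mul (Nat.cast_nonneg T.card),
          ENNReal.ofReal_natCast]
    _ ≤ ENNReal.ofReal (B ^ (2 * n) * C₀ * s ^ Λ) := by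
        apply ENNReal.ofReal_le_ofReal
        have h1 : s ^ ((16:ℝ) * n + Λ) = (s ^ 8) ^ (2 * n) * s ^ Λ := by
          rw [Real.rpow_add hs, ← pow_mul, ← Real.rpow_natCast s (8 * (2 * n))]
          congr 2
          push_cast
          ring
        rw [h1]
        have h2 : (B / s ^ 8) ^ (2 * n) * (s ^ 8) ^ (2 * n) = B ^ (2 * n) := by
          rw [← mul_pow, div_mul_cancel₀]
          positivity
        calc (T.card : ℝ) * (C₀ * ((s ^ 8) ^ (2 * n) * s ^ Λ))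
            ≤ (B / s ^ 8) ^ (2 * n) * (C₀ * ((s ^ 8) ^ (2 * n) * s ^ Λ)) := by gcongr
          _ = ((B / s ^ 8) ^ (2 * n) * (s ^ 8) ^ (2 * n)) * C₀ * s ^ Λ := by ring
          _ = B ^ (2 * n) * C₀ * s ^ Λ := by rw [h2]

end HMA
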