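import Pool.Agent.H85.MA.Roots
import Pool.Agent.H85.MA.StepA
import Pool.Agent.H85.MA.Net
import Pool.Agent.H85.MA.Geo

/-! # Module STEPB: the measure estimate at one scale -/

open MeasureTheory Metric Set
open scoped ENNReal Topology ContDiff

namespace HMA

theorem StepB_pol_eval {d : ℕ} (c : ℕ → ℂ) (w : ℂ) :
    (pol d c).eval w = ∑ k ∈ Finset.range (d + 1), c k * w ^ k := by
  unfold pol
  rw [Polynomial.eval_finsetSum]
  refine Finset.sum_congr rfl (fun k _ => ?_)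
  rw [Polynomial.eval_mul, Polynomial.eval_C, Polynomial.eval_pow, Polynomial.eval_X]

/-- the root functions as a finite set -/
theorem StepB_roots {W : Type} [NormedAddCommGroup W] [NormedSpace ℂ W]
    [FiniteDimensional ℂ W] {d : ℕ} (f : ℕ → W → ℂ) (hf : ∀ k ≤ d, f k ∈ PF W)
    {a : ℂ} (ha : a ≠ 0) (hfd : ∀ z, f d z = a) (z₀ : W) {ρ : ℝ} (hρ : 0 < ρ)
    (hs : ∀ z ∈ ball z₀ ρ, ∀ w : ℂ, (pol d (fun k => f k z)).eval w = 0 →
      (Polynomial.derivative (pol d (fun k => f k z))).eval w ≠ 0) :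
    ∃ Hs : Finset (W → ℂ), Hs.card ≤ d ∧
      (∀ h ∈ Hs, ∀ z ∈ ball z₀ ρ, AnalyticAt ℂ h z) ∧
      (∀ h ∈ Hs, ∀ z ∈ ball z₀ ρ, (pol d (fun k => f k z)).eval (h z) = 0) ∧
      ∀ z ∈ ball z₀ ρ, ∀ w : ℂ, (pol d (fun k => f k z)).eval w = 0 → ∃ h ∈ Hs, h z = w := by
  classical
  obtain ⟨ι, hι, h, hc, h1, h2, h3⟩ := roots_on_ball f hf ha hfd z₀ hρ hs
  refine ⟨Finset.univ.image h, ?_, ?_, ?_, ?_⟩
  · exact Finset.card_image_le.trans (by rw [Finset.card_univ]; exact hc)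
  · intro g hg
    obtain ⟨i, -, rfl⟩ := Finset.mem_image.mp hg
    exact h1 i
  · intro g hg
    obtain ⟨i, -, rfl⟩ := Finset.mem_image.mp hg
    exact h2 i
  · intro z hz w hw
    obtain ⟨i, hi⟩ := h3 z hz w hw
    exact ⟨h i, Finset.mem_image_of_mem h (Finset.mem_univ i), hi⟩

/-- the numerical estimate -/
theorem StepB_num {m d t : ℕ} {B C Λ ρ : ℝ} (hB : 1 ≤ B) (hC : 0 < C)
    (hΛ : 4 * (m + 1) + 1 ≤ Λ) (hd : 1 ≤ d) (hρ : 0 < ρ) (hρ4 : ρ ≤ 1 / 4)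
    (ht : (t : ℝ) ≤ (B / (ρ ^ 2 / 4)) ^ (2 * (m + 1))) :
    (t : ℝ) * (d * (C * (32 * (d : ℝ)) ^ C * ρ ^ Λ)) ≤
      max (1 + C) ((4 * B) ^ (2 * (m + 1)) * (C * (32 : ℝ) ^ C)) *
        (d : ℝ) ^ (max (1 + C) ((4 * B) ^ (2 * (m + 1)) * (C * (32 : ℝ) ^ C))) * ρ := by
  have hd0 : (0 : ℝ) < d := by exact_mod_cast hd
  have hd1 : (1 : ℝ) ≤ d := by exact_mod_cast hd
  set K : ℝ := max (1 + C) ((4 * B) ^ (2 * (m + 1)) * (C * (32 : ℝ) ^ C)) with hK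
  have hρΛ : ρ ^ Λ ≤ ρ ^ (4 * (m + 1)) * ρ := by
    have h1 : ρ ^ Λ ≤ ρ ^ ((4 * (m + 1) + 1 : ℕ) : ℝ) := by
      apply Real.rpow_le_rpow_of_exponent_ge hρ (by linarith)
      push_cast
      linarith
    rw [Real.rpow_natCast, pow_succ] at h1
    exact h1
  have hpow : (B / (ρ ^ 2 / 4)) ^ (2 * (m + 1)) * (ρ ^ (4 * (m + 1))) =
      (4 * B) ^ (2 * (m + 1)) := by
    have h1 : ρ ^ (4 * (m + 1)) = (ρ ^ 2) ^ (2 * (m + 1)) := by
      rw [← pow_mul]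
      congr 1
      ring
    rw [h1, ← mul_pow]
    congr 1
    field_simp
  have h32 : (32 * (d : ℝ)) ^ C = (32 : ℝ) ^ C * (d : ℝ) ^ C :=
    Real.mul_rpow (by norm_num) hd0.le
  have hdC : (d : ℝ) * (d : ℝ) ^ C ≤ (d : ℝ) ^ K := by
    have h1 : (d : ℝ) * (d : ℝ) ^ C = (d : ℝ) ^ (1 + C) := by
      rw [Real.rpow_add hd0, Real.rpow_one]
    rw [h1]
    exact Real.rpow_le_rpow_of_exponent_le hd1 (le_max_left _ _)
  have hpos1 : (0 : ℝ) ≤ C * (32 : ℝ) ^ C := by positivity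
  calc (t : ℝ) * (d * (C * (32 * (d : ℝ)) ^ C * ρ ^ Λ))
      ≤ (B / (ρ ^ 2 / 4)) ^ (2 * (m + 1)) *
        (d * (C * (32 * (d : ℝ)) ^ C * (ρ ^ (4 * (m + 1)) * ρ))) := by
        apply mul_le_mul ht _ (by positivity) (by positivity)
        apply mul_le_mul_of_nonneg_left _ hd0.le
        exact mul_le_mul_of_nonneg_left hρΛ (by positivity)
    _ = ((B / (ρ ^ 2 / 4)) ^ (2 * (m + 1)) * (ρ ^ (4 * (m + 1)))) * (C * (32 : ℝ) ^ C) *
        ((d : ℝ) * (d : ℝ) ^ C) * ρ := by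
        rw [h32]
        ring
    _ = ((4 * B) ^ (2 * (m + 1)) * (C * (32 : ℝ) ^ C)) * ((d : ℝ) * (d : ℝ) ^ C) * ρ := by
        rw [hpow]
    _ ≤ K * (d : ℝ) ^ K * ρ := by
        apply mul_le_mul_of_nonneg_right _ hρ.le
        apply mul_le_mul (le_max_right _ _) hdC (by positivity)
        exact le_trans (by positivity) (le_max_left _ _)

theorem step_measure (m N : ℕ) {C Λ : ℝ} (hC : 0 < C) (hN : 3 ≤ N) (hΛ : 4 * (m + 1) + 1 ≤ Λ) :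
    ∃ C₂ : ℝ, 0 < C₂ ∧
    ∀ (V : Type) [NormedAddCommGroup V] [InnerProductSpace ℂ V] [MeasurableSpace V]
      (μ : Measure V) (W : Type) [NormedAddCommGroup W] [InnerProductSpace ℂ W]
      [FiniteDimensional ℂ W] (L : V →ₗ[ℂ] W),
      Coi L → Module.finrank ℂ W = m + 2 → Tub V μ N C Λ →
      ∀ (d : ℕ) (P : W → ℂ) (p : W) (f : ℕ → ↥(ℂ ∙ p)ᗮ → ℂ) (D : ↥(ℂ ∙ p)ᗮ → ℂ) (ρ r : ℝ),
        1 ≤ d → HP W d P → (∀ x, ‖P x‖ ≤ 2 * ‖x‖ ^ d) → ‖p‖ = 1 → 1 / 2 ≤ ‖P p‖ →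
        (∀ k ≤ d, HP ↥(ℂ ∙ p)ᗮ (d - k) (f k)) → (∀ z, f d z = P p) →
        (∀ (z : ↥(ℂ ∙ p)ᗮ) (w : ℂ),
          P (z + w • p) = ∑ k ∈ Finset.range (d + 1), f k z * w ^ k) →
        HP ↥(ℂ ∙ p)ᗮ (d * (d - 1)) D →
        (∀ z, D z ≠ 0 → ∀ w : ℂ, P (z + w • p) = 0 →
          (Polynomial.derivative (pol d (fun k => f k z))).eval w ≠ 0) →
        0 < ρ → ρ ≤ 1 / 4 → 0 < r → 64 * (1 + 16 * d) * r ≤ ρ ^ N →
        μ {x | L x ∈ nearZ P r ∧ (ℂ ∙ p)ᗮ.orthogonalProjectionOnto (L x) ∉ nearZ D ρ} ≤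
          ENNReal.ofReal (C₂ * (d : ℝ) ^ C₂ * ρ) := by
  obtain ⟨B, hB, hnet⟩ := net (m + 1)
  refine ⟨max (1 + C) ((4 * B) ^ (2 * (m + 1)) * (C * (32 : ℝ) ^ C)),
    lt_of_lt_of_le (by linarith) (le_max_left _ _), ?_⟩
  intro V _ _ _ μ W _ _ _ L hL hfin hTub d P p f D ρ r hd hP hbd hp hPp hf hfd hPf hD hDs hρ hρ4
    hr hr64
  have hd0 : (0 : ℝ) < d := by exact_mod_cast hd
  have hd1 : (1 : ℝ) ≤ d := by exact_mod_cast hd
  have hp0 : p ≠ 0 := by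
    rintro rfl
    simp at hp
  have hfinE : Module.finrank ℂ ↥(ℂ ∙ p)ᗮ = m + 1 := by
    have h1 := Submodule.finrank_add_finrank_orthogonal (ℂ ∙ p)
    rw [finrank_span_singleton hp0, hfin] at h1
    omega
  -- the scales
  have hρ1 : ρ < 1 := by linarith
  set ρ₁ : ℝ := ρ ^ 2 / 4 with hρ₁
  have hρ₁0 : 0 < ρ₁ := by positivity
  have hρsq : ρ ^ 2 ≤ 1 / 16 := by nlinarith
  have hρ₁16 : ρ₁ ≤ 1 / 16 := by
    rw [hρ₁]
    linarith
  have hρN : ρ ^ N ≤ ρ ^ 2 := pow_le_pow_of_le_one hρ.le hρ1.le (by omega)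
  -- the net
  obtain ⟨T, hTS, hTcard, hTnet⟩ := hnet ↥(ℂ ∙ p)ᗮ hfinE
    {e : ↥(ℂ ∙ p)ᗮ | ‖e‖ = 1 ∧ e ∉ nearZ D ρ} (fun e he => he.1.le) ρ₁ hρ₁0 (by linarith)
  -- the root functions
  have hroots : ∀ e : ↥(ℂ ∙ p)ᗮ, ∃ Hs : Finset (↥(ℂ ∙ p)ᗮ → ℂ), e ∈ T → (Hs.card ≤ d ∧
      (∀ h ∈ Hs, ∀ z ∈ ball e ρ, AnalyticAt ℂ h z) ∧
      (∀ h ∈ Hs, ∀ z ∈ ball e ρ, (pol d (fun k => f k z)).eval (h z) = 0) ∧
      ∀ z ∈ ball e ρ, ∀ w : ℂ, (pol d (fun k => f k z)).eval w = 0 → ∃ h ∈ Hs, h z = w) := by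
    intro e
    by_cases he : e ∈ T
    · obtain ⟨he1, he2⟩ := hTS he
      have hDne : ∀ z ∈ ball e ρ, D z ≠ 0 := by
        intro z hz h0
        apply he2
        refine ⟨?_, z, h0, ?_⟩
        · rintro rfl
          simp at he1
        · rw [he1, mul_one]
          rw [mem_ball, dist_eq_norm] at hz
          exact hz.le
      have hPp0 : P p ≠ 0 := by
        intro h0
        rw [h0, norm_zero] at hPp
        linarith
      obtain ⟨Hs, h1⟩ := StepB_roots f (fun k hk => (hf k hk).poly) hPp0 hfd e hρ (by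
        intro z hz w hw
        refine hDs z (hDne z hz) w ?_
        rw [hPf, ← StepB_pol_eval]
        exact hw)
      exact ⟨Hs, fun _ => h1⟩
    · exact ⟨∅, fun h => absurd h he⟩
  choose Hs hHs using hroots
  -- the covering
  have hcover : {x | L x ∈ nearZ P r ∧
      (ℂ ∙ p)ᗮ.orthogonalProjectionOnto (L x) ∉ nearZ D ρ} ⊆
      ⋃ e ∈ T, ⋃ h ∈ Hs e, {x | L x ∈ tube p e h (ρ ^ 2) (ρ ^ N)} := by
    rintro x ⟨hx1, hx2⟩
    obtain ⟨e, he, c, hc, u, hu1, hu2, v, hv1, hv2⟩ := geo hd hP hbd hp hPp hD hρ hρ₁0 hρ₁16 hr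
      (by rw [hρ₁]; linarith) (T : Set ↥(ℂ ∙ p)ᗮ)
      (fun e he1 he2 => hTnet e ⟨he1, he2⟩) (fun e he => (hTS he).1) hx1 hx2
    have heT : e ∈ T := he
    have hu3 : ‖u‖ ≤ ρ ^ 2 := by
      refine hu2.trans (le_of_eq ?_)
      rw [hρ₁]
      ring
    have hball : e + u ∈ ball e ρ := by
      rw [mem_ball, dist_eq_norm, add_sub_cancel_left]
      refine lt_of_le_of_lt hu3 ?_
      nlinarith
    have hroot : (pol d (fun k => f k (e + u))).eval v = 0 := by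
      rw [StepB_pol_eval, ← hPf]
      exact hv1
    obtain ⟨h, hh, hhv⟩ := (hHs e heT).2.2.2 (e + u) hball v hroot
    simp only [Set.mem_iUnion]
    refine ⟨e, heT, h, hh, hx1.1, c, hc, u, hu1, hu3, ?_⟩
    rw [hhv]
    refine hv2.trans ?_
    have hpos : 0 ≤ (1 + 16 * (d : ℝ)) * r := by positivity
    linarith
  -- the measure of the tubes
  have htube : ∀ e ∈ T, ∀ h ∈ Hs e, μ {x | L x ∈ tube p e h (ρ ^ 2) (ρ ^ N)} ≤
      ENNReal.ofReal (C * (32 * (d : ℝ)) ^ C * ρ ^ Λ) := by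
    intro e he h hh
    have he1 := (hTS he).1
    refine hTub W L hL p e h ρ (32 * d) hp he1 hρ hρ4 (by linarith)
      ((hHs e he).2.1 h hh) ?_
    intro z hz
    have h1 := (hHs e he).2.2.1 h hh z hz
    rw [StepB_pol_eval, ← hPf] at h1
    have hz0 : inner ℂ p (z : W) = 0 :=
      (Submodule.mem_orthogonal_singleton_iff_inner_right).mp z.2
    have h2 := root_bound hd hP hbd hp hPp hz0 h1
    refine h2.trans ?_
    have h3 : ‖(z : W)‖ ≤ 2 := by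
      rw [mem_ball, dist_eq_norm] at hz
      have h4 : ‖z‖ ≤ ‖z - e‖ + ‖e‖ := by
        have := norm_add_le (z - e) e
        rwa [sub_add_cancel] at this
      rw [he1] at h4
      have h5 : ‖(z : W)‖ = ‖z‖ := rfl
      rw [h5]
      linarith
    nlinarith
  -- the sum
  have hsum : μ {x | L x ∈ nearZ P r ∧
      (ℂ ∙ p)ᗮ.orthogonalProjectionOnto (L x) ∉ nearZ D ρ} ≤
      ENNReal.ofReal ((T.card : ℝ) * (d * (C * (32 * (d : ℝ)) ^ C * ρ ^ Λ))) := by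
    refine (measure_mono hcover).trans ?_
    refine (measure_biUnion_finset_le _ _).trans ?_
    have h1 : ∀ e ∈ T, μ (⋃ h ∈ Hs e, {x | L x ∈ tube p e h (ρ ^ 2) (ρ ^ N)}) ≤
        ENNReal.ofReal (d * (C * (32 * (d : ℝ)) ^ C * ρ ^ Λ)) := by
      intro e he
      refine (measure_biUnion_finset_le _ _).trans ?_
      refine (Finset.sum_le_sum (htube e he)).trans ?_
      rw [Finset.sum_const, nsmul_eq_mul, ENNReal.ofReal_mul hd0.le, ENNReal.ofReal_natCast]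
      exact mul_le_mul_left (by exact_mod_cast (hHs e he).1) _
    refine (Finset.sum_le_sum h1).trans ?_
    rw [Finset.sum_const, nsmul_eq_mul, ENNReal.ofReal_mul (p := (T.card : ℝ))
      (Nat.cast_nonneg _), ENNReal.ofReal_natCast]
  exact hsum.trans (ENNReal.ofReal_le_ofReal (StepB_num hB hC hΛ hd hρ hρ4 hTcard))

end HMA
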