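import Pool.Agent.H85.MA.StepA
import Pool.Agent.H85.MA.StepB
import Pool.Agent.H85.MA.Pert1
import Pool.Agent.H85.MA.Pert2

/-! # Module STEPC: the induction step -/

open MeasureTheory Metric Set
open scoped ENNReal Topology ContDiff

namespace HMA

/-- the numerical part of the trivial case -/
theorem StepC_trivial {N : ℕ} {C C₂ C₀ c₁ r : ℝ} {d : ℕ} (hd : 1 ≤ d) (hC : 0 < C) (hC₂ : 0 < C₂)
    (hC₀ : 0 < C₀) (hc₁1 : c₁ ≤ 1) (hr : 0 < r) (hr1 : r < 1)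
    (h : (1 / 4 : ℝ) ^ N < 2176 * d * r) :
    C ≤ (2176 * 4 ^ N * (C + C₂ + C₀) + C₂ + 2 * C₀ + 1) *
      (d : ℝ) ^ (2176 * 4 ^ N * (C + C₂ + C₀) + C₂ + 2 * C₀ + 1) * r ^ c₁ := by
  set C₁ := 2176 * 4 ^ N * (C + C₂ + C₀) + C₂ + 2 * C₀ + 1 with hC₁
  have h4 : (0 : ℝ) < 4 ^ N := by positivity
  have hd1 : (1 : ℝ) ≤ d := by exact_mod_cast hd
  have hC₁C : 2176 * 4 ^ N * C ≤ C₁ := by
    rw [hC₁]
    have : 0 ≤ 2176 * 4 ^ N * (C₂ + C₀) := by positivity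
    nlinarith
  have hC₁1 : 1 ≤ C₁ := by
    rw [hC₁]
    have : 0 ≤ 2176 * 4 ^ N * (C + C₂ + C₀) := by positivity
    nlinarith
  have h1 : r ≤ r ^ c₁ := by
    have := Real.rpow_le_rpow_of_exponent_ge hr hr1.le hc₁1
    rwa [Real.rpow_one] at this
  have h2 : (d : ℝ) ≤ (d : ℝ) ^ C₁ := by
    have := Real.rpow_le_rpow_of_exponent_le hd1 hC₁1
    rwa [Real.rpow_one] at this
  have h3 : 1 < 2176 * 4 ^ N * (d * r) := by
    have h5 : (1 / 4 : ℝ) ^ N * 4 ^ N = 1 := by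
      rw [← mul_pow]; norm_num
    nlinarith [mul_lt_mul_of_pos_right h h4]
  calc C ≤ C * (2176 * 4 ^ N * (d * r)) := by nlinarith
    _ = (2176 * 4 ^ N * C) * (d * r) := by ring
    _ ≤ C₁ * (d * r) := by
        have : 0 ≤ (d : ℝ) * r := by positivity
        exact mul_le_mul_of_nonneg_right hC₁C this
    _ ≤ C₁ * ((d : ℝ) ^ C₁ * r ^ c₁) := by
        refine mul_le_mul_of_nonneg_left ?_ (by linarith)
        exact mul_le_mul h2 h1 hr.le (by positivity)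
    _ = C₁ * (d : ℝ) ^ C₁ * r ^ c₁ := by ring

/-- the numerical part of the main case -/
theorem StepC_num {N : ℕ} (hN : 3 ≤ N) {C C₂ C₀ c₀ r ρ : ℝ} {d : ℕ} (hd : 1 ≤ d) (hC : 0 < C)
    (hC₂ : 0 < C₂) (hC₀ : 0 < C₀) (hc₀ : 0 < c₀) (hr : 0 < r)
    (hρ : ρ = (2176 * d * r) ^ ((N : ℝ)⁻¹)) (hρ0 : 0 < ρ) (hρ1 : ρ ≤ 1) :
    C₂ * (d : ℝ) ^ C₂ * ρ + C₀ * ((d * (d - 1) : ℕ) : ℝ) ^ C₀ * ρ ^ c₀ ≤
      (2176 * 4 ^ N * (C + C₂ + C₀) + C₂ + 2 * C₀ + 1) *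
      (d : ℝ) ^ (2176 * 4 ^ N * (C + C₂ + C₀) + C₂ + 2 * C₀ + 1) * r ^ (min c₀ 1 / N) := by
  set C₁ := 2176 * 4 ^ N * (C + C₂ + C₀) + C₂ + 2 * C₀ + 1 with hC₁
  have h4 : (1 : ℝ) ≤ 4 ^ N := one_le_pow₀ (by norm_num)
  have hd1 : (1 : ℝ) ≤ d := by exact_mod_cast hd
  have hd0 : (0 : ℝ) < d := by linarith
  have hNr : (3 : ℝ) ≤ N := by exact_mod_cast hN
  have hprod : 2176 * (C₂ + C₀) ≤ 2176 * 4 ^ N * (C + C₂ + C₀) := by nlinarith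
  have hCC : 2176 * (C₂ + C₀) ≤ C₁ := by rw [hC₁]; nlinarith
  have hCa : C₂ + 1 ≤ C₁ := by rw [hC₁]; nlinarith
  have hCb : C₀ * 2 + 1 ≤ C₁ := by rw [hC₁]; nlinarith
  set c := min c₀ 1 with hc
  have hc0 : 0 < c := lt_min hc₀ one_pos
  have hc1 : c ≤ 1 := min_le_right _ _
  have h1 : ρ ≤ ρ ^ c := by
    have := Real.rpow_le_rpow_of_exponent_ge hρ0 hρ1 hc1
    rwa [Real.rpow_one] at this
  have h2 : ρ ^ c₀ ≤ ρ ^ c := Real.rpow_le_rpow_of_exponent_ge hρ0 hρ1 (min_le_left _ _)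
  have h3 : ρ ^ c ≤ 2176 * d * r ^ (c / N) := by
    have e1 : ρ ^ c = (2176 * d) ^ (c / N) * r ^ (c / N) := by
      rw [hρ, ← Real.rpow_mul (by positivity), inv_mul_eq_div,
        Real.mul_rpow (by positivity) hr.le]
    rw [e1]
    refine mul_le_mul_of_nonneg_right ?_ (Real.rpow_nonneg hr.le _)
    have h6 : c / N ≤ 1 := by
      rw [div_le_one (by linarith)]; linarith
    have := Real.rpow_le_rpow_of_exponent_le (x := 2176 * (d : ℝ)) (by linarith) h6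
    rwa [Real.rpow_one] at this
  have h5 : ((d * (d - 1) : ℕ) : ℝ) ^ C₀ ≤ (d : ℝ) ^ (C₀ * 2) := by
    have e2 : (d : ℝ) ^ (C₀ * 2) = ((d : ℝ) ^ (2 : ℝ)) ^ C₀ := by
      rw [← Real.rpow_mul hd0.le, mul_comm]
    rw [e2]
    refine Real.rpow_le_rpow (Nat.cast_nonneg _) ?_ hC₀.le
    rw [Real.rpow_two, pow_two]
    have : d * (d - 1) ≤ d * d := Nat.mul_le_mul_left _ (Nat.sub_le _ _)
    exact_mod_cast this
  have h7 : (d : ℝ) ^ C₂ * d ≤ (d : ℝ) ^ C₁ := by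
    have : (d : ℝ) ^ C₂ * d = (d : ℝ) ^ (C₂ + 1) := by
      rw [Real.rpow_add hd0, Real.rpow_one]
    rw [this]
    exact Real.rpow_le_rpow_of_exponent_le hd1 hCa
  have h8 : (d : ℝ) ^ (C₀ * 2) * d ≤ (d : ℝ) ^ C₁ := by
    have : (d : ℝ) ^ (C₀ * 2) * d = (d : ℝ) ^ (C₀ * 2 + 1) := by
      rw [Real.rpow_add hd0, Real.rpow_one]
    rw [this]
    exact Real.rpow_le_rpow_of_exponent_le hd1 hCb
  have hrp : 0 ≤ r ^ (c / N) := Real.rpow_nonneg hr.le _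
  have hdC : 0 ≤ (d : ℝ) ^ C₁ := by positivity
  have a1 : C₂ * (d : ℝ) ^ C₂ * ρ ≤ 2176 * C₂ * (d : ℝ) ^ C₁ * r ^ (c / N) := by
    calc C₂ * (d : ℝ) ^ C₂ * ρ ≤ C₂ * (d : ℝ) ^ C₂ * (2176 * d * r ^ (c / N)) :=
          mul_le_mul_of_nonneg_left (h1.trans h3) (by positivity)
      _ = 2176 * C₂ * r ^ (c / N) * ((d : ℝ) ^ C₂ * d) := by ring
      _ ≤ 2176 * C₂ * r ^ (c / N) * (d : ℝ) ^ C₁ :=
          mul_le_mul_of_nonneg_left h7 (by positivity)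
      _ = 2176 * C₂ * (d : ℝ) ^ C₁ * r ^ (c / N) := by ring
  have a2 : C₀ * ((d * (d - 1) : ℕ) : ℝ) ^ C₀ * ρ ^ c₀ ≤
      2176 * C₀ * (d : ℝ) ^ C₁ * r ^ (c / N) := by
    calc C₀ * ((d * (d - 1) : ℕ) : ℝ) ^ C₀ * ρ ^ c₀
        ≤ C₀ * (d : ℝ) ^ (C₀ * 2) * (2176 * d * r ^ (c / N)) := by
          refine mul_le_mul (mul_le_mul_of_nonneg_left h5 hC₀.le) (h2.trans h3)
            (Real.rpow_nonneg hρ0.le _) (by positivity)
      _ = 2176 * C₀ * r ^ (c / N) * ((d : ℝ) ^ (C₀ * 2) * d) := by ring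
      _ ≤ 2176 * C₀ * r ^ (c / N) * (d : ℝ) ^ C₁ :=
          mul_le_mul_of_nonneg_left h8 (by positivity)
      _ = 2176 * C₀ * (d : ℝ) ^ C₁ * r ^ (c / N) := by ring
  calc C₂ * (d : ℝ) ^ C₂ * ρ + C₀ * ((d * (d - 1) : ℕ) : ℝ) ^ C₀ * ρ ^ c₀
      ≤ 2176 * C₂ * (d : ℝ) ^ C₁ * r ^ (c / N) + 2176 * C₀ * (d : ℝ) ^ C₁ * r ^ (c / N) :=
        add_le_add a1 a2
    _ = (2176 * (C₂ + C₀)) * ((d : ℝ) ^ C₁ * r ^ (c / N)) := by ring
    _ ≤ C₁ * ((d : ℝ) ^ C₁ * r ^ (c / N)) :=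
        mul_le_mul_of_nonneg_right hCC (mul_nonneg hdC hrp)
    _ = C₁ * (d : ℝ) ^ C₁ * r ^ (c / N) := by ring

/-- zero sets of proportional functions -/
theorem StepC_nearZ {W : Type} [NormedAddCommGroup W] {P P₁ : W → ℂ}
    (h : ∀ x, P x = 0 ↔ P₁ x = 0) (r : ℝ) : nearZ P r = nearZ P₁ r := by
  unfold nearZ
  ext x
  simp only [Set.mem_ofPred_eq, h]

/-- the measure of the bad part -/
theorem StepC_ih {m N : ℕ} {C Λ C₀ c₀ : ℝ} (hC₀ : 0 < C₀) (ih : StN (m + 1) N C Λ C₀ c₀)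
    {V : Type} [NormedAddCommGroup V] [InnerProductSpace ℂ V] [MeasurableSpace V]
    (μ : Measure V) {W : Type} [NormedAddCommGroup W] [InnerProductSpace ℂ W]
    [FiniteDimensional ℂ W] {L : V →ₗ[ℂ] W} (hL : Coi L) (hW : Module.finrank ℂ W = m + 2)
    (hμ : μ {x | x ≠ 0} ≤ ENNReal.ofReal C) (hT : Tub V μ N C Λ) {d : ℕ} (hd : 1 ≤ d) {p : W}
    (hp : ‖p‖ = 1) {D : ↥(ℂ ∙ p)ᗮ → ℂ} (hD : HP ↥(ℂ ∙ p)ᗮ (d * (d - 1)) D)
    (hD0 : ∃ z, D z ≠ 0) {ρ : ℝ} (hρ0 : 0 < ρ) (hρ1 : ρ < 1) :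
    μ {x | (ℂ ∙ p)ᗮ.orthogonalProjectionOnto (L x) ∈ nearZ D ρ} ≤
      ENNReal.ofReal (C₀ * ((d * (d - 1) : ℕ) : ℝ) ^ C₀ * ρ ^ c₀) := by
  rcases Nat.lt_or_ge d 2 with h | h
  · have hd1 : d = 1 := by omega
    subst hd1
    have hne : ∀ z, D z ≠ 0 := by
      obtain ⟨z₀, hz₀⟩ := hD0
      intro z
      have hD' : HP ↥(ℂ ∙ p)ᗮ 0 D := by simpa using hD
      rw [hD'.eq_const z, ← hD'.eq_const z₀]
      exact hz₀
    have : {x | (ℂ ∙ p)ᗮ.orthogonalProjectionOnto (L x) ∈ nearZ D ρ} = (∅ : Set V) := by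
      ext x
      simp only [Set.mem_ofPred_eq, Set.mem_empty_iff_false, iff_false]
      rintro ⟨-, y, hy, -⟩
      exact hne y hy
    rw [this, measure_empty]
    exact bot_le
  · obtain ⟨L', hL', hLL'⟩ := hL.proj p
    have hp0 : p ≠ 0 := by
      intro h0; rw [h0, norm_zero] at hp; exact zero_ne_one hp
    have hfin : Module.finrank ℂ ↥(ℂ ∙ p)ᗮ = m + 1 := by
      have h1 := Submodule.finrank_add_finrank_orthogonal (ℂ ∙ p)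
      rw [finrank_span_singleton hp0, hW] at h1
      omega
    have h2 := ih V μ ↥(ℂ ∙ p)ᗮ L' hL' hfin hμ hT (d * (d - 1))
      (Nat.mul_pos (by omega) (by omega)) D hD hD0 ρ hρ0 hρ1
    refine le_trans (le_of_eq ?_) h2
    congr 1
    ext x
    simp only [Set.mem_ofPred_eq, hLL']

theorem stN_succ (m N : ℕ) {C Λ C₀ c₀ : ℝ} (hC : 0 < C) (hN : 3 ≤ N)
    (hΛ : 4 * (m + 1) + 1 ≤ Λ) (hC₀ : 0 < C₀) (hc₀ : 0 < c₀)
    (ih : StN (m + 1) N C Λ C₀ c₀) :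
    ∃ C₁ c₁ : ℝ, 0 < C₁ ∧ 0 < c₁ ∧ StN (m + 2) N C Λ C₁ c₁ := by
  obtain ⟨C₂, hC₂, hstep⟩ := step_measure m N hC hN hΛ
  have hNr : (3 : ℝ) ≤ N := by exact_mod_cast hN
  have hN0 : (0 : ℝ) < N := by linarith
  have hc₁ : 0 < min c₀ 1 / N := div_pos (lt_min hc₀ one_pos) hN0
  refine ⟨2176 * 4 ^ N * (C + C₂ + C₀) + C₂ + 2 * C₀ + 1, min c₀ 1 / N, by positivity, hc₁, ?_⟩
  intro V _ _ _ μ W _ _ _ L hL hW hμ hT d hd P hP hP0 r hr hr1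
  have hd1 : (1 : ℝ) ≤ d := by exact_mod_cast hd
  rcases lt_or_ge ((1 / 4 : ℝ) ^ N) (2176 * d * r) with hcase | hcase
  · -- the trivial case
    refine le_trans (measure_mono ?_) (hμ.trans (ENNReal.ofReal_le_ofReal
      (StepC_trivial hd hC hC₂ hC₀ ?_ hr hr1 hcase)))
    · rintro x ⟨hx, -⟩
      intro h0
      exact hx (by rw [h0, map_zero])
    · rw [div_le_one hN0]
      exact (min_le_right _ _).trans (by linarith)
  -- the main case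
  set ρ : ℝ := (2176 * d * r) ^ ((N : ℝ)⁻¹) with hρ
  have hbase : 0 < 2176 * (d : ℝ) * r := by positivity
  have hρ0 : 0 < ρ := Real.rpow_pos_of_pos hbase _
  have hρN : ρ ^ N = 2176 * d * r := by
    rw [hρ]
    exact Real.rpow_inv_natCast_pow hbase.le (by omega)
  have hρ4 : ρ ≤ 1 / 4 := by
    have : ρ ^ N ≤ (1 / 4) ^ N := by rw [hρN]; exact hcase
    exact le_of_pow_le_pow_left₀ (by omega) (by norm_num) this
  have hr2 : r ≤ 1 / 2 := by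
    have h1 : (1 / 4 : ℝ) ^ N ≤ 1 := pow_le_one₀ (by norm_num) (by norm_num)
    nlinarith
  have : Nontrivial W := by
    apply Module.nontrivial_of_finrank_pos (R := ℂ)
    rw [hW]; omega
  obtain ⟨p, hp, hmax⟩ := hP.exists_max
  have hPp : P p ≠ 0 := by
    intro h0
    obtain ⟨x, hx⟩ := hP0
    have := hmax x
    rw [h0, norm_zero, zero_mul] at this
    exact hx (norm_le_zero_iff.1 this)
  have hp0 : p ≠ 0 := by
    intro h0; rw [h0, norm_zero] at hp; exact zero_ne_one hp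
  have hfin : Module.finrank ℂ ↥(ℂ ∙ p)ᗮ = m + 1 := by
    have h1 := Submodule.finrank_add_finrank_orthogonal (ℂ ∙ p)
    rw [finrank_span_singleton hp0, hW] at h1
    omega
  have : Nontrivial ↥(ℂ ∙ p)ᗮ := by
    apply Module.nontrivial_of_finrank_pos (R := ℂ)
    rw [hfin]; omega
  obtain ⟨e, he⟩ : ∃ e : ↥(ℂ ∙ p)ᗮ, ‖e‖ = 1 := exists_norm_eq _ zero_le_one
  have hpe : inner ℂ p (e : W) = 0 :=
    (Submodule.mem_orthogonal_singleton_iff_inner_right).1 e.2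
  have he' : ‖(e : W)‖ = 1 := by rw [← he]; rfl
  -- normalisation
  set P₁ : W → ℂ := fun x => (P p)⁻¹ * P x with hP₁def
  have hP₁ : HP W d P₁ := hP.const_mul _
  have hP₁p : P₁ p = 1 := inv_mul_cancel₀ hPp
  have hP₁le : ∀ x, ‖P₁ x‖ ≤ ‖x‖ ^ d := by
    intro x
    rw [hP₁def]
    simp only [norm_mul, norm_inv]
    have hpos : 0 < ‖P p‖ := norm_pos_iff.2 hPp
    rw [inv_mul_le_iff₀ hpos]
    exact hmax x
  have hZ : nearZ P r = nearZ P₁ r := by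
    refine StepC_nearZ (fun x => ?_) r
    simp [hP₁def, hPp]
  set τ : ℝ := min ((r / 4) ^ d) (1 / 2) with hτ
  have hτ0 : 0 < τ := lt_min (by positivity) (by norm_num)
  obtain ⟨P', f, D, hP', hclose, -, hf, hexp, hfd, hD, hD0, hsimple⟩ :=
    pert hd hP₁ hp he' hpe (by rw [hP₁p]; exact one_ne_zero) hτ0
  have hP'p : 1 / 2 ≤ ‖P' p‖ := by
    have h1 := hclose p
    rw [hp, one_pow, mul_one, hP₁p] at h1
    have h2 : τ ≤ 1 / 2 := min_le_right _ _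
    have h3 : ‖(1 : ℂ)‖ ≤ ‖P' p‖ + ‖P' p - 1‖ := by
      have : (1 : ℂ) = P' p - (P' p - 1) := by ring
      calc ‖(1 : ℂ)‖ = ‖P' p - (P' p - 1)‖ := by rw [← this]
        _ ≤ ‖P' p‖ + ‖P' p - 1‖ := norm_sub_le _ _
    rw [norm_one] at h3
    linarith
  have hP'le : ∀ x, ‖P' x‖ ≤ 2 * ‖x‖ ^ d := by
    intro x
    have h1 := hclose x
    have h2 : τ ≤ 1 / 2 := min_le_right _ _
    have h3 : ‖P' x‖ ≤ ‖P' x - P₁ x‖ + ‖P₁ x‖ := by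
      have : P' x = (P' x - P₁ x) + P₁ x := by ring
      calc ‖P' x‖ = ‖(P' x - P₁ x) + P₁ x‖ := by rw [← this]
        _ ≤ _ := norm_add_le _ _
    have h4 : 0 ≤ ‖x‖ ^ d := by positivity
    nlinarith [hP₁le x]
  have hsub := nearZ_pert hd hP₁ hP' hp hP'p hr hr2 (min_le_left _ _ : τ ≤ (r / 4) ^ d) hclose
  have hst := hstep V μ W L hL hW hT d P' p f D ρ (2 * r) hd hP' hP'le hp hP'p hf hfd hexp hD
    hsimple hρ0 hρ4 (by linarith) (by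
      rw [hρN]
      nlinarith)
  have hih := StepC_ih hC₀ ih μ hL hW hμ hT hd hp hD hD0 hρ0 (by linarith)
  have hcov : {x | L x ∈ nearZ P r} ⊆
      {x | L x ∈ nearZ P' (2 * r) ∧ (ℂ ∙ p)ᗮ.orthogonalProjectionOnto (L x) ∉ nearZ D ρ} ∪
      {x | (ℂ ∙ p)ᗮ.orthogonalProjectionOnto (L x) ∈ nearZ D ρ} := by
    intro x hx
    by_cases h : (ℂ ∙ p)ᗮ.orthogonalProjectionOnto (L x) ∈ nearZ D ρ
    · exact Or.inr h
    · refine Or.inl ⟨hsub ?_, h⟩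
      rw [← hZ]; exact hx
  calc μ {x | L x ∈ nearZ P r}
      ≤ μ {x | L x ∈ nearZ P' (2 * r) ∧ (ℂ ∙ p)ᗮ.orthogonalProjectionOnto (L x) ∉ nearZ D ρ} +
        μ {x | (ℂ ∙ p)ᗮ.orthogonalProjectionOnto (L x) ∈ nearZ D ρ} :=
        (measure_mono hcov).trans (measure_union_le _ _)
    _ ≤ ENNReal.ofReal (C₂ * (d : ℝ) ^ C₂ * ρ) +
        ENNReal.ofReal (C₀ * ((d * (d - 1) : ℕ) : ℝ) ^ C₀ * ρ ^ c₀) := add_le_add hst hih
    _ = ENNReal.ofReal (C₂ * (d : ℝ) ^ C₂ * ρ +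
        C₀ * ((d * (d - 1) : ℕ) : ℝ) ^ C₀ * ρ ^ c₀) :=
        (ENNReal.ofReal_add (by positivity) (by positivity)).symm
    _ ≤ _ := ENNReal.ofReal_le_ofReal
        (StepC_num hN hd hC hC₂ hC₀ hc₀ hr hρ hρ0 (by linarith))

end HMA
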