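import Pool.Agent.H85.MA.Siegel
import Pool.Agent.H85.MA.QHom
import Pool.Agent.H85.MA.StepA

/-! # Module TUBE: a measure with the Remez property gives small mass to tubes around graphs -/

open MeasureTheory Metric Set
open scoped ENNReal Topology ContDiff

namespace HMA

section

variable {W : Type} [NormedAddCommGroup W] [InnerProductSpace ℂ W] [FiniteDimensional ℂ W]

theorem Tube_inner_e_p {p : W} (e : ↥(ℂ ∙ p)ᗮ) : inner ℂ p (e : W) = 0 :=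
  Submodule.mem_orthogonal_singleton_iff_inner_right.1 e.2

theorem Tube_onb {m : ℕ} (hW : Module.finrank ℂ W = m + 2) {p : W} (hp : ‖p‖ = 1)
    (e : ↥(ℂ ∙ p)ᗮ) (he : ‖e‖ = 1) :
    ∃ b : OrthonormalBasis (Fin (m + 2)) ℂ W, b 0 = (e : W) ∧ b (Fin.last (m + 1)) = p := by
  have hne : Fin.last (m + 1) ≠ 0 := by
    intro h
    have := congrArg Fin.val h
    simp at this
  have hpe : inner ℂ p (e : W) = 0 := Tube_inner_e_p e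
  have hep : inner ℂ (e : W) p = 0 := by
    rw [← inner_conj_symm, hpe, map_zero]
  have he' : ‖(e : W)‖ = 1 := he
  obtain ⟨b, hb⟩ := Orthonormal.exists_orthonormalBasis_extension_of_card_eq (𝕜 := ℂ)
    (ι := Fin (m + 2)) (by rw [hW, Fintype.card_fin])
    (v := fun i => if i = 0 then (e : W) else p) (s := {i | i = 0 ∨ i = Fin.last (m + 1)}) (by
      constructor
      · rintro ⟨i, rfl | rfl⟩
        · simp [Set.domRestrict, he']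
        · simp [Set.domRestrict, hne, hp]
      · rintro ⟨i, hi⟩ ⟨j, hj⟩ hij
        have hij' : i ≠ j := fun h => hij (Subtype.ext h)
        rcases hi with rfl | rfl <;> rcases hj with rfl | rfl
        · exact absurd rfl hij'
        · simpa [Set.domRestrict, hne] using hep
        · simpa [Set.domRestrict, hne] using hpe
        · exact absurd rfl hij')
  refine ⟨b, ?_, ?_⟩
  · simpa using hb 0 (Or.inl rfl)
  · simpa [hne] using hb (Fin.last (m + 1)) (Or.inr rfl)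

theorem Tube_expand {m : ℕ} (b : OrthonormalBasis (Fin (m + 2)) ℂ W) (u : W)
    (h0 : inner ℂ (b 0) u = 0) (h1 : inner ℂ (b (Fin.last (m + 1))) u = 0) :
    u = ∑ i : Fin m, inner ℂ (b i.castSucc.succ) u • b i.castSucc.succ := by
  conv_lhs => rw [← b.sum_repr' u]
  rw [Fin.sum_univ_succ, Fin.sum_univ_castSucc, h0, Fin.succ_last, h1]
  simp

theorem Tube_norm {m : ℕ} (b : OrthonormalBasis (Fin (m + 2)) ℂ W) (u : Cn m) :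
    ‖∑ i : Fin m, u i • b i.castSucc.succ‖ = ‖u‖ := by
  have hor : Orthonormal ℂ (fun i : Fin m => b i.castSucc.succ) :=
    b.orthonormal.comp _ (fun i j h => by
      have := Fin.succ_injective _ h
      exact Fin.castSucc_injective _ this)
  have h1 : inner ℂ (∑ i : Fin m, u i • b i.castSucc.succ) (∑ i : Fin m, u i • b i.castSucc.succ)
      = ∑ i, (starRingEnd ℂ) (u i) * u i := hor.inner_sum _ _ _
  have h2 : ((‖∑ i : Fin m, u i • b i.castSucc.succ‖ ^ 2 : ℝ) : ℂ) = ((‖u‖ ^ 2 : ℝ) : ℂ) := by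
    rw [EuclideanSpace.norm_sq_eq]
    have h3 := inner_self_eq_norm_sq_to_K (𝕜 := ℂ) (∑ i : Fin m, u i • b i.castSucc.succ)
    rw [h1] at h3
    have h4 : ((‖∑ i : Fin m, u i • b i.castSucc.succ‖ ^ 2 : ℝ) : ℂ) =
        ∑ i, (starRingEnd ℂ) (u i) * u i := by
      rw [h3]; push_cast; rfl
    rw [h4]
    push_cast
    refine Finset.sum_congr rfl fun i _ => ?_
    exact Complex.conj_mul' (u i)
  have h5 : ‖∑ i : Fin m, u i • b i.castSucc.succ‖ ^ 2 = ‖u‖ ^ 2 := by exact_mod_cast h2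
  exact (sq_eq_sq₀ (norm_nonneg _) (norm_nonneg _)).1 h5

/-- the embedding of `Cn m` in the orthogonal complement of `p` -/
noncomputable def Tube_T {m : ℕ} {p : W} (b : OrthonormalBasis (Fin (m + 2)) ℂ W)
    (hb : ∀ i : Fin m, b i.castSucc.succ ∈ (ℂ ∙ p)ᗮ) : Cn m →L[ℂ] ↥(ℂ ∙ p)ᗮ :=
  ∑ i : Fin m, (EuclideanSpace.proj (𝕜 := ℂ) i : Cn m →L[ℂ] ℂ).smulRight
    (⟨b i.castSucc.succ, hb i⟩ : ↥(ℂ ∙ p)ᗮ)

theorem Tube_T_apply {m : ℕ} {p : W} (b : OrthonormalBasis (Fin (m + 2)) ℂ W)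
    (hb : ∀ i : Fin m, b i.castSucc.succ ∈ (ℂ ∙ p)ᗮ) (u : Cn m) :
    ((Tube_T b hb u : ↥(ℂ ∙ p)ᗮ) : W) = ∑ i : Fin m, u i • b i.castSucc.succ := by
  simp [Tube_T]

theorem Tube_T_norm {m : ℕ} {p : W} (b : OrthonormalBasis (Fin (m + 2)) ℂ W)
    (hb : ∀ i : Fin m, b i.castSucc.succ ∈ (ℂ ∙ p)ᗮ) (u : Cn m) : ‖Tube_T b hb u‖ = ‖u‖ := by
  rw [← Tube_norm b u, ← Tube_T_apply b hb u]
  rfl

/-- the auxiliary homogeneous polynomial -/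
theorem Tube_Q {m N K : ℕ} (hK : 2 ≤ K) (hNK : N ^ m < K ^ (m + 1)) {γ : ℝ}
    (hq : ∀ (V : Type) [NormedAddCommGroup V] [InnerProductSpace ℂ V]
      (b : OrthonormalBasis (Fin (m + 2)) ℂ V) (c : (Fin m → Fin K) × Fin K → ℂ),
      ∑ α, ‖c α‖ = 1 → ∃ Q : V → ℂ, HP V ((m + 1) * (K - 1)) Q ∧
        (∃ x, ‖x‖ ≤ 1 ∧ γ ≤ ‖Q x‖) ∧ (∀ x, ‖Q x‖ ≤ ‖x‖ ^ ((m + 1) * (K - 1))) ∧
        ∀ (u : Cn m) (w : ℂ),
          Q (b 0 + ∑ i : Fin m, u i • b i.castSucc.succ + w • b (Fin.last (m + 1))) =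
            ∑ α, c α * (∏ i, u i ^ (α.1 i : ℕ)) * w ^ (α.2 : ℕ))
    (hW : Module.finrank ℂ W = m + 2) {p : W} (hp : ‖p‖ = 1)
    (e : ↥(ℂ ∙ p)ᗮ) (he : ‖e‖ = 1) (h : ↥(ℂ ∙ p)ᗮ → ℂ) {ρ R : ℝ} (hρ : 0 < ρ) (hρ1 : ρ ≤ 1)
    (hR : 1 ≤ R) (hh : ∀ z ∈ ball e ρ, AnalyticAt ℂ h z) (hb : ∀ z ∈ ball e ρ, ‖h z‖ ≤ R) :
    ∃ Q : W → ℂ, HP W ((m + 1) * (K - 1)) Q ∧ (∃ x, ‖x‖ ≤ 1 ∧ γ ≤ ‖Q x‖) ∧
      (∀ x, ‖Q x‖ ≤ ‖x‖ ^ ((m + 1) * (K - 1))) ∧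
      ∀ u : ↥(ℂ ∙ p)ᗮ, inner ℂ e u = 0 → ‖u‖ < ρ →
        ‖Q (((e + u : ↥(ℂ ∙ p)ᗮ) : W) + h (e + u) • p)‖ ≤ R ^ (K - 1) * (‖u‖ / ρ) ^ N := by
  obtain ⟨b, hb0, hbl⟩ := Tube_onb hW hp e he
  have hmem : ∀ i : Fin m, b i.castSucc.succ ∈ (ℂ ∙ p)ᗮ := by
    intro i
    rw [Submodule.mem_orthogonal_singleton_iff_inner_right, ← hbl]
    refine b.orthonormal.2 ?_
    rw [← Fin.succ_last]
    intro hc
    exact (Fin.castSucc_ne_last i) (Fin.succ_injective _ hc).symm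
  have hball : ∀ u ∈ ball (0 : Cn m) ρ, e + Tube_T b hmem u ∈ ball e ρ := by
    intro u hu
    rw [mem_ball_zero_iff] at hu
    rw [mem_ball_iff_norm, add_sub_cancel_left, Tube_T_norm]
    exact hu
  obtain ⟨c, hc, hcb⟩ := siegel m N K (by omega) hNK hρ hρ1 hR (fun u => h (e + Tube_T b hmem u))
    (fun u hu => AnalyticAt.comp' (g := h) (f := fun u => e + Tube_T b hmem u)
      (hh _ (hball u hu)) (analyticAt_const.add ((Tube_T b hmem).analyticAt u)))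
    (fun u hu => hb _ (hball u hu))
  obtain ⟨Q, hQ, hQx, hQb, hQf⟩ := hq W b c hc
  refine ⟨Q, hQ, hQx, hQb, fun u hu huρ => ?_⟩
  -- coordinates of `u`
  obtain ⟨v, hv⟩ : ∃ v : Cn m, Tube_T b hmem v = u := by
    refine ⟨WithLp.toLp 2 (fun i => inner ℂ (b i.castSucc.succ) (u : W)), Subtype.ext ?_⟩
    rw [Tube_T_apply]
    refine (Tube_expand b (u : W) ?_ ?_).symm
    · rw [hb0]; exact hu
    · rw [hbl]; exact Tube_inner_e_p u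
  have hvn : ‖v‖ = ‖u‖ := by rw [← hv, Tube_T_norm]
  have h1 := hcb v (by rw [mem_ball_zero_iff, hvn]; exact huρ)
  have h2 := hQf v (h (e + u))
  rw [← Tube_T_apply b hmem v, hv, hb0, hbl] at h2
  have h3 : ((e + u : ↥(ℂ ∙ p)ᗮ) : W) + h (e + u) • p = (e : W) + (u : W) + h (e + u) • p := rfl
  rw [h3, h2, ← hvn]
  simp only [hv] at h1
  exact h1

/-- upper bound on the tube -/
theorem Tube_bound {k N K : ℕ} (hk : 1 ≤ k) (hKk : K - 1 ≤ k) {p : W} (hp : ‖p‖ = 1)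
    (e : ↥(ℂ ∙ p)ᗮ) (he : ‖e‖ = 1) (h : ↥(ℂ ∙ p)ᗮ → ℂ) {ρ R ρ₁ r₁ : ℝ} (hρ : 0 < ρ)
    (hρ1 : ρ ≤ 1) (hR : 1 ≤ R) (hρ₁ : 0 ≤ ρ₁) (hρ₁' : ρ₁ < ρ) (hr₁ : 0 < r₁) (hr₁' : r₁ ≤ 1 / 2)
    (hb : ∀ z ∈ ball e ρ, ‖h z‖ ≤ R) {Q : W → ℂ} (hQ : HP W k Q)
    (hQb : ∀ x, ‖Q x‖ ≤ ‖x‖ ^ k)
    (hQu : ∀ u : ↥(ℂ ∙ p)ᗮ, inner ℂ e u = 0 → ‖u‖ < ρ →
        ‖Q (((e + u : ↥(ℂ ∙ p)ᗮ) : W) + h (e + u) • p)‖ ≤ R ^ (K - 1) * (‖u‖ / ρ) ^ N)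
    (x : W) (hx : x ∈ tube p e h ρ₁ r₁) :
    ‖Q x‖ ≤ (2 ^ (k + 1) * 3 ^ k * 2 ^ k) * R ^ k * ((ρ₁ / ρ) ^ N + r₁) * ‖x‖ ^ k := by
  obtain ⟨hx0, c, hc, u, heu, hu, hux⟩ := hx
  have hpe : inner ℂ p (e : W) = 0 := Tube_inner_e_p e
  have hep : inner ℂ (e : W) p = 0 := by rw [← inner_conj_symm, hpe, map_zero]
  have he' : ‖(e : W)‖ = 1 := he
  have heu' : inner ℂ (e : W) (u : W) = 0 := heu
  set X : W := c • x with hX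
  set X' : W := ((e + u : ↥(ℂ ∙ p)ᗮ) : W) + h (e + u) • p with hX'
  have hd : ‖X - X'‖ ≤ r₁ := by
    rw [hX', ← sub_sub]; exact hux
  have hball : e + u ∈ ball e ρ := by
    rw [mem_ball_iff_norm, add_sub_cancel_left]; linarith
  have hh : ‖h (e + u)‖ ≤ R := hb _ hball
  have hX'1 : 1 ≤ ‖X'‖ := by
    have h1 : inner ℂ (e : W) X' = 1 := by
      have h2 : X' = (e : W) + (u : W) + h (e + u) • p := rfl
      rw [h2, inner_add_right, inner_add_right, inner_smul_right, hep, heu',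
        inner_self_eq_norm_sq_to_K, he']
      simp
    have h3 := norm_inner_le_norm (𝕜 := ℂ) (e : W) X'
    rw [h1, he', norm_one, one_mul] at h3
    exact h3
  have hX'2 : ‖X'‖ ≤ 3 * R := by
    have h1 : ‖X'‖ ≤ ‖(e : W)‖ + ‖(u : W)‖ + ‖h (e + u) • p‖ :=
      (norm_add_le _ _).trans (add_le_add (norm_add_le _ _) le_rfl)
    rw [norm_smul, hp, he', mul_one] at h1
    have h2 : ‖(u : W)‖ ≤ ρ₁ := hu
    linarith
  have hXge : 1 / 2 ≤ ‖X‖ := by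
    have h1 := norm_sub_norm_le X' X
    rw [norm_sub_rev] at h1
    linarith
  have hQX' : ‖Q X'‖ ≤ R ^ k * (ρ₁ / ρ) ^ N := by
    refine (hQu u heu (by linarith)).trans ?_
    gcongr
  have hlip : ‖Q X - Q X'‖ ≤ 2 ^ (k + 1) * 1 * ‖X'‖ ^ (k - 1) * ‖X - X'‖ := by
    refine hp_lip hQ (M := 1) (fun y hy => ?_) X' X (by linarith)
    refine (hQb y).trans (pow_le_one₀ (norm_nonneg _) hy)
  have hlip2 : ‖Q X - Q X'‖ ≤ 2 ^ (k + 1) * 3 ^ k * R ^ k * r₁ := by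
    refine hlip.trans ?_
    have h1 : ‖X'‖ ^ (k - 1) ≤ (3 * R) ^ (k - 1) := pow_le_pow_left₀ (norm_nonneg _) hX'2 _
    have h2 : (3 * R) ^ (k - 1) ≤ (3 * R) ^ k := pow_le_pow_right₀ (by linarith) (by omega)
    calc 2 ^ (k + 1) * 1 * ‖X'‖ ^ (k - 1) * ‖X - X'‖ ≤ 2 ^ (k + 1) * 1 * (3 * R) ^ k * r₁ := by
          have h3 := h1.trans h2
          gcongr
      _ = 2 ^ (k + 1) * 3 ^ k * R ^ k * r₁ := by rw [mul_pow]; ring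
  have hA1 : (1 : ℝ) ≤ 2 ^ (k + 1) * 3 ^ k := by
    have h1 : (1 : ℝ) ≤ 2 ^ (k + 1) := one_le_pow₀ (by norm_num)
    have h2 : (1 : ℝ) ≤ 3 ^ k := one_le_pow₀ (by norm_num)
    nlinarith
  have hRk : 0 ≤ R ^ k := by positivity
  have hS : 0 ≤ (ρ₁ / ρ) ^ N := by positivity
  have hQX : ‖Q X‖ ≤ 2 ^ (k + 1) * 3 ^ k * R ^ k * ((ρ₁ / ρ) ^ N + r₁) := by
    have h1 : ‖Q X‖ ≤ ‖Q X'‖ + ‖Q X - Q X'‖ := by
      have := norm_add_le (Q X') (Q X - Q X')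
      rwa [add_sub_cancel] at this
    have h2 : R ^ k * (ρ₁ / ρ) ^ N ≤ 2 ^ (k + 1) * 3 ^ k * (R ^ k * (ρ₁ / ρ) ^ N) :=
      le_mul_of_one_le_left (mul_nonneg hRk hS) hA1
    nlinarith
  have hcn : 0 < ‖c‖ := norm_pos_iff.2 hc
  have hQc : ‖Q X‖ = ‖c‖ ^ k * ‖Q x‖ := by rw [hX, hQ.hom, norm_mul, norm_pow]
  have hXn : ‖X‖ = ‖c‖ * ‖x‖ := by rw [hX, norm_smul]
  have h2X : 1 ≤ 2 ^ k * ‖X‖ ^ k := by
    rw [← mul_pow]
    exact one_le_pow₀ (by linarith)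
  have hT : 0 ≤ 2 ^ (k + 1) * 3 ^ k * R ^ k * ((ρ₁ / ρ) ^ N + r₁) := by positivity
  have h5 : ‖c‖ ^ k * ‖Q x‖ ≤
      ‖c‖ ^ k * ((2 ^ (k + 1) * 3 ^ k * 2 ^ k) * R ^ k * ((ρ₁ / ρ) ^ N + r₁) * ‖x‖ ^ k) := by
    rw [← hQc]
    calc ‖Q X‖ ≤ 2 ^ (k + 1) * 3 ^ k * R ^ k * ((ρ₁ / ρ) ^ N + r₁) := hQX
      _ ≤ (2 ^ (k + 1) * 3 ^ k * R ^ k * ((ρ₁ / ρ) ^ N + r₁)) * (2 ^ k * ‖X‖ ^ k) :=
          le_mul_of_one_le_right hT h2X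
      _ = _ := by rw [hXn, mul_pow]; ring
  exact le_of_mul_le_mul_left h5 (by positivity)

end

theorem tube_measure (m N K : ℕ) (hK : 2 ≤ K) (hNK : N ^ m < K ^ (m + 1)) {C ε : ℝ}
    (hC : 0 < C) (hε : 0 < ε) : ∃ C₁ : ℝ, 0 < C₁ ∧
    ∀ (V : Type) [NormedAddCommGroup V] [InnerProductSpace ℂ V] [MeasurableSpace V]
      (μ : Measure V) (W : Type) [NormedAddCommGroup W] [InnerProductSpace ℂ W]
      [FiniteDimensional ℂ W] (L : V →ₗ[ℂ] W),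
      Coi L → Module.finrank ℂ W = m + 2 → Rem V μ C ε →
      ∀ (p : W) (e : ↥(ℂ ∙ p)ᗮ) (h : ↥(ℂ ∙ p)ᗮ → ℂ) (ρ R ρ₁ r₁ : ℝ), ‖p‖ = 1 → ‖e‖ = 1 →
        0 < ρ → ρ ≤ 1 → 1 ≤ R → 0 ≤ ρ₁ → ρ₁ < ρ → 0 < r₁ → r₁ ≤ 1 / 2 →
        (∀ z ∈ ball e ρ, AnalyticAt ℂ h z) → (∀ z ∈ ball e ρ, ‖h z‖ ≤ R) →
        μ {x | L x ∈ tube p e h ρ₁ r₁} ≤ ENNReal.ofReal
          (C₁ * (R * ((ρ₁ / ρ) ^ N + r₁) ^ ((((m + 1) * (K - 1) : ℕ) : ℝ)⁻¹)) ^ ε) := by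
  obtain ⟨γ, hγ, hq⟩ := qhom m K hK
  set k : ℕ := (m + 1) * (K - 1) with hk
  have hk1 : 1 ≤ k := Nat.mul_pos (by omega) (by omega)
  have hKk : K - 1 ≤ k := by
    rw [hk]; exact Nat.le_mul_of_pos_left _ (by omega)
  set A : ℝ := γ⁻¹ * (2 ^ (k + 1) * 3 ^ k * 2 ^ k) with hA
  have hA0 : 0 < A := by positivity
  set B : ℝ := A ^ ((k : ℝ)⁻¹) with hB
  have hB0 : 0 < B := Real.rpow_pos_of_pos hA0 _
  have hk0 : (k : ℝ) ≠ 0 := by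
    have : (0 : ℝ) < k := by exact_mod_cast hk1
    exact this.ne'
  have hBk : B ^ k = A := by
    rw [hB, ← Real.rpow_natCast, ← Real.rpow_mul hA0.le, inv_mul_cancel₀ hk0, Real.rpow_one]
  refine ⟨C * B ^ ε, by positivity, ?_⟩
  intro V _ _ _ μ W _ _ _ L hL hW hRem p e h ρ R ρ₁ r₁ hp he hρ hρ1 hR hρ₁ hρ₁' hr₁ hr₁' hh hb
  obtain ⟨Q, hQ, ⟨x₀, hx₀, hγx₀⟩, hQb, hQu⟩ :=
    Tube_Q hK hNK hq hW hp e he h hρ hρ1 hR hh hb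
  set S : ℝ := (ρ₁ / ρ) ^ N + r₁ with hS
  have hS0 : 0 < S := by positivity
  set s : ℝ := S ^ ((k : ℝ)⁻¹) with hs
  have hs0 : 0 < s := Real.rpow_pos_of_pos hS0 _
  have hsk : s ^ k = S := by
    rw [hs, ← Real.rpow_natCast, ← Real.rpow_mul hS0.le, inv_mul_cancel₀ hk0, Real.rpow_one]
  have hR0 : 0 < R := by linarith
  set t : ℝ := B * (R * s) with ht
  have ht0 : 0 < t := by positivity
  have htk : t ^ k = A * (R ^ k * S) := by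
    rw [ht, mul_pow, mul_pow, hBk, hsk]
  have htε : C * t ^ ε = C * B ^ ε * (R * s) ^ ε := by
    rw [ht, Real.mul_rpow hB0.le (by positivity)]; ring
  rw [← htε]
  have hsub : {x | L x ∈ tube p e h ρ₁ r₁} ⊆ {x | x ≠ 0} := by
    intro x hx hx0
    have h1 := hx.1
    rw [hx0, map_zero] at h1
    exact h1 rfl
  rcases le_or_gt t 1 with ht1 | ht1
  · have hf : HP V k (fun x => ((γ⁻¹ : ℝ) : ℂ) * Q (L x)) := (HP.comp L hQ).const_mul _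
    have hfx : ∃ x : V, ‖x‖ ≤ 1 ∧ 1 ≤ ‖((γ⁻¹ : ℝ) : ℂ) * Q (L x)‖ := by
      obtain ⟨x, hx, hxn⟩ := hL.exists_norm_eq x₀
      refine ⟨x, by rw [hxn]; exact hx₀, ?_⟩
      rw [hx, norm_mul, Complex.norm_real, Real.norm_eq_abs, abs_of_pos (inv_pos.2 hγ)]
      rw [← inv_mul_cancel₀ hγ.ne']
      exact mul_le_mul_of_nonneg_left hγx₀ (inv_pos.2 hγ).le
    refine le_trans (measure_mono ?_) (hRem k hk1 _ hf hfx t ht0 ht1)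
    intro x hx
    refine ⟨hsub hx, ?_⟩
    have h1 := Tube_bound hk1 hKk hp e he h hρ hρ1 hR hρ₁ hρ₁' hr₁ hr₁' hb hQ hQb hQu (L x) hx
    rw [norm_mul, Complex.norm_real, Real.norm_eq_abs, abs_of_pos (inv_pos.2 hγ), htk]
    have h2 : ‖L x‖ ^ k ≤ ‖x‖ ^ k := pow_le_pow_left₀ (norm_nonneg _) (hL.norm_le x) _
    calc γ⁻¹ * ‖Q (L x)‖ ≤ γ⁻¹ * ((2 ^ (k + 1) * 3 ^ k * 2 ^ k) * R ^ k * S * ‖L x‖ ^ k) :=
          mul_le_mul_of_nonneg_left h1 (inv_pos.2 hγ).le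
      _ = A * (R ^ k * S) * ‖L x‖ ^ k := by rw [hA]; ring
      _ ≤ A * (R ^ k * S) * ‖x‖ ^ k := by gcongr
  · have hnt : Nontrivial V := by
      obtain ⟨x, hx, hxn⟩ := hL.exists_norm_eq p
      refine ⟨x, 0, fun h0 => ?_⟩
      rw [h0, norm_zero, hp] at hxn
      exact zero_ne_one hxn
    refine ((measure_mono hsub).trans (rem_total hRem)).trans (ENNReal.ofReal_le_ofReal ?_)
    exact le_mul_of_one_le_right hC.le (Real.one_le_rpow ht1.le hε.le)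

end HMA
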